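import Pool.Agent.R759.BSMain

set_option autoImplicit false
set_option linter.unusedSectionVars false

/-!
Circuit covers of graphs with a group acting semiregularly with any number of orbits.
-/

open scoped Classical

namespace Pool.Agent.R759.BO

open Finset Pool.Agent.TH505.OCDC Pool.Agent.R759.OC Pool.Agent.R759.CW Pool.Agent.R759.BW
open Pool.Agent.R759.BS

variable {Γ : Type} [Group Γ] [Fintype Γ] {ι : Type} [Fintype ι] {G : SimpleGraph (Γ × ι)}

/-- the union of two orbits -/
noncomputable def emb (i j : ι) (v : Γ × Bool) : Γ × ι := (v.1, if v.2 = true then j else i)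

/-- invariant weights on two orbits -/
noncomputable def P (i j : ι) (δ ε ζ : Γ → ℕ) (a b : ι) (s : Γ) : ℕ :=
  if a = i ∧ b = i then ε s else if a = j ∧ b = j then ζ s else
    if a = i ∧ b = j then δ s else if a = j ∧ b = i then δ s⁻¹ else 0

section

variable {i j : ι} (hij : i ≠ j) (δ ε ζ : Γ → ℕ)

lemma P_ii (s : Γ) : P i j δ ε ζ i i s = ε s := if_pos ⟨rfl, rfl⟩

include hij

lemma P_jj (s : Γ) : P i j δ ε ζ j j s = ζ s := by
  unfold P
  rw [if_neg (fun h => hij h.1.symm), if_pos ⟨rfl, rfl⟩]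

lemma P_ij (s : Γ) : P i j δ ε ζ i j s = δ s := by
  unfold P
  rw [if_neg (fun h => hij h.2.symm), if_neg (fun h => hij h.1), if_pos ⟨rfl, rfl⟩]

lemma P_ji (s : Γ) : P i j δ ε ζ j i s = δ s⁻¹ := by
  unfold P
  rw [if_neg (fun h => hij h.1.symm), if_neg (fun h => hij h.2), if_neg (fun h => hij h.2),
    if_pos ⟨rfl, rfl⟩]

omit hij in
lemma P_else {a b : ι} (h : ¬ ((a = i ∨ a = j) ∧ (b = i ∨ b = j))) (s : Γ) :
    P i j δ ε ζ a b s = 0 := by
  unfold P
  rw [if_neg (fun h' => h ⟨Or.inl h'.1, Or.inl h'.2⟩),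
    if_neg (fun h' => h ⟨Or.inr h'.1, Or.inr h'.2⟩),
    if_neg (fun h' => h ⟨Or.inl h'.1, Or.inr h'.2⟩),
    if_neg (fun h' => h ⟨Or.inr h'.1, Or.inl h'.2⟩)]

lemma sum_ij (g : Bool → ℕ) :
    ∑ b : ι, (if b = i ∨ b = j then g (decide (b = j)) else 0) = g false + g true := by
  have h : ∀ b : ι, (if b = i ∨ b = j then g (decide (b = j)) else 0) =
      (if b = i then g false else 0) + (if b = j then g true else 0) := by
    intro b
    by_cases h1 : b = i
    · have h2 : ¬ b = j := fun h2 => hij (h1.symm.trans h2)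
      rw [if_pos (Or.inl h1), if_pos h1, if_neg h2, add_zero, decide_eq_false h2]
    · by_cases h2 : b = j
      · rw [if_pos (Or.inr h2), if_neg h1, if_pos h2, zero_add, decide_eq_true h2]
      · rw [if_neg (by tauto), if_neg h1, if_neg h2]
  rw [Finset.sum_congr rfl (fun b _ => h b), Finset.sum_add_distrib, Finset.sum_ite_eq',
    Finset.sum_ite_eq', if_pos (mem_univ _), if_pos (mem_univ _)]

lemma pairCv (h : Cv (G.comap (emb i j)) (W δ ε ζ)) :
    Cv G (fun u v => P i j δ ε ζ u.2 v.2 (u.1⁻¹ * v.1)) := by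
  refine (transfer (K := G.comap (emb i j)) (fun e (u v : Γ × ι) =>
    if (u.2 = i ∨ u.2 = j) ∧ (v.2 = i ∨ v.2 = j) then
      e (u.1, decide (u.2 = j)) (v.1, decide (v.2 = j)) else 0) ?_ ?_ ?_ h).congr ?_
  · intro e e' u v
    by_cases h1 : (u.2 = i ∨ u.2 = j) ∧ (v.2 = i ∨ v.2 = j)
    · simp only [if_pos h1]
    · simp only [if_neg h1]
  · intro u v
    show (if _ then 0 else 0) = 0
    split_ifs <;> rfl
  · intro e e1 e2 e3 e4
    refine ⟨?_, ?_, ?_, ?_⟩
    · intro u v
      by_cases h1 : (u.2 = i ∨ u.2 = j) ∧ (v.2 = i ∨ v.2 = j)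
      · have h2 : (v.2 = i ∨ v.2 = j) ∧ (u.2 = i ∨ u.2 = j) := h1.symm
        simp only [if_pos h1, if_pos h2]
        exact e1 _ _
      · have h2 : ¬ ((v.2 = i ∨ v.2 = j) ∧ (u.2 = i ∨ u.2 = j)) := fun h => h1 h.symm
        simp only [if_neg h1, if_neg h2]
    · intro u v
      by_cases h1 : (u.2 = i ∨ u.2 = j) ∧ (v.2 = i ∨ v.2 = j)
      · simp only [if_pos h1]
        exact e2 _ _
      · simp only [if_neg h1]
        exact Nat.zero_le _
    · rintro ⟨x, a⟩ ⟨y, b⟩ h0
      by_cases h1 : (a = i ∨ a = j) ∧ (b = i ∨ b = j)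
      · have h2 : e (x, decide (a = j)) (y, decide (b = j)) ≠ 0 := by
          intro h3
          apply h0
          show (if (a = i ∨ a = j) ∧ (b = i ∨ b = j) then
            e (x, decide (a = j)) (y, decide (b = j)) else 0) = 0
          rw [if_pos h1]
          exact h3
        have h3 : G.Adj (emb i j (x, decide (a = j))) (emb i j (y, decide (b = j))) := e3 _ _ h2
        have h4 : ∀ (z : Γ) (c : ι), (c = i ∨ c = j) → emb i j (z, decide (c = j)) = (z, c) := by
          intro z c hc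
          show (z, if decide (c = j) = true then j else i) = (z, c)
          by_cases h5 : c = j
          · rw [if_pos (decide_eq_true h5), h5]
          · rw [if_neg (by rw [decide_eq_false h5]; exact Bool.false_ne_true)]
            rcases hc with rfl | hc
            · rfl
            · exact absurd hc h5
        rw [h4 x a h1.1, h4 y b h1.2] at h3
        exact h3
      · exfalso
        apply h0
        show (if (a = i ∨ a = j) ∧ (b = i ∨ b = j) then
            e (x, decide (a = j)) (y, decide (b = j)) else 0) = 0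
        exact if_neg h1
    · rintro ⟨x, a⟩
      by_cases h1 : a = i ∨ a = j
      · have h2 : ∑ v : Γ × ι, (if (a = i ∨ a = j) ∧ (v.2 = i ∨ v.2 = j) then
            e (x, decide (a = j)) (v.1, decide (v.2 = j)) else 0) =
            ∑ v, e (x, decide (a = j)) v := by
          rw [Fintype.sum_prod_type, Fintype.sum_prod_type]
          refine Finset.sum_congr rfl fun y _ => ?_
          have h3 := sum_ij hij (fun c => e (x, decide (a = j)) (y, c))
          rw [Fintype.sum_bool, add_comm, ← h3]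
          refine Finset.sum_congr rfl fun b _ => ?_
          by_cases h4 : b = i ∨ b = j
          · rw [if_pos h4, if_pos ⟨h1, h4⟩]
          · rw [if_neg h4, if_neg (fun h => h4 h.2)]
        show Even (∑ v : Γ × ι, (if (a = i ∨ a = j) ∧ (v.2 = i ∨ v.2 = j) then
            e (x, decide (a = j)) (v.1, decide (v.2 = j)) else 0))
        rw [h2]
        exact e4 _
      · have h2 : ∑ v : Γ × ι, (if (a = i ∨ a = j) ∧ (v.2 = i ∨ v.2 = j) then
            e (x, decide (a = j)) (v.1, decide (v.2 = j)) else 0) = 0 := by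
          refine Finset.sum_eq_zero fun v _ => ?_
          rw [if_neg (fun h => h1 h.1)]
        show Even (∑ v : Γ × ι, (if (a = i ∨ a = j) ∧ (v.2 = i ∨ v.2 = j) then
            e (x, decide (a = j)) (v.1, decide (v.2 = j)) else 0))
        rw [h2]
        exact Even.zero
  · rintro ⟨x, a⟩ ⟨y, b⟩
    show (if (a = i ∨ a = j) ∧ (b = i ∨ b = j) then
      W δ ε ζ (x, decide (a = j)) (y, decide (b = j)) else 0) = P i j δ ε ζ a b (x⁻¹ * y)
    have hji : ¬ j = i := fun h => hij h.symm
    by_cases h1 : (a = i ∨ a = j) ∧ (b = i ∨ b = j)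
    · rw [if_pos h1]
      obtain ⟨ha | ha, hb | hb⟩ := h1
      · rw [ha, hb, P_ii, decide_eq_false hij]
        rfl
      · rw [ha, hb, P_ij hij, decide_eq_false hij, decide_eq_true (rfl : j = j)]
        rfl
      · rw [ha, hb, P_ji hij, decide_eq_false hij, decide_eq_true (rfl : j = j)]
        show δ (y⁻¹ * x) = δ (x⁻¹ * y)⁻¹
        congr 1
        group
      · rw [ha, hb, P_jj hij, decide_eq_true (rfl : j = j)]
        rfl
    · rw [if_neg h1, P_else δ ε ζ h1]

end

/-- invariant covers inside the orbit `i` -/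
lemma innerI (i : ι) (α : Γ → ℕ) (hinv : ∀ a, α a⁻¹ = α a)
    (hadj : ∀ a, α a ≠ 0 → ∀ x, G.Adj (x, i) (x * a, i)) (hev : Even (∑ a, α a))
    (hmax : ∀ a, a * a = 1 → 2 * α a ≤ ∑ a, α a) :
    Cv G (fun (u v : Γ × ι) => if u.2 = i ∧ v.2 = i then α (u.1⁻¹ * v.1) else 0) := by
  have hK := cover (H := G.comap (fun x : Γ => (x, i))) _ α rfl hinv
    (fun a ha x => hadj a ha x) hev hmax
  refine transfer (K := G.comap (fun x : Γ => (x, i)))
    (fun e (u v : Γ × ι) => if u.2 = i ∧ v.2 = i then e u.1 v.1 else 0) ?_ ?_ ?_ hK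
  · intro e e' u v
    show (if u.2 = i ∧ v.2 = i then e u.1 v.1 + e' u.1 v.1 else 0) = _
    by_cases h : u.2 = i ∧ v.2 = i
    · simp only [if_pos h]
    · simp only [if_neg h]
  · intro u v
    show (if u.2 = i ∧ v.2 = i then 0 else 0) = 0
    split_ifs <;> rfl
  · intro e e1 e2 e3 e4
    refine ⟨?_, ?_, ?_, ?_⟩
    · intro u v
      show (if u.2 = i ∧ v.2 = i then e u.1 v.1 else 0) =
        (if v.2 = i ∧ u.2 = i then e v.1 u.1 else 0)
      by_cases h : u.2 = i ∧ v.2 = i
      · rw [if_pos h, if_pos h.symm, e1]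
      · rw [if_neg h, if_neg (fun h' => h h'.symm)]
    · intro u v
      show (if u.2 = i ∧ v.2 = i then e u.1 v.1 else 0) ≤ 1
      split_ifs
      · exact e2 _ _
      · omega
    · rintro ⟨x, j⟩ ⟨y, k⟩ h
      have h' : (if j = i ∧ k = i then e x y else 0) ≠ 0 := h
      by_cases h5 : j = i ∧ k = i
      · rw [if_pos h5] at h'
        obtain ⟨rfl, rfl⟩ := h5
        exact e3 x y h'
      · rw [if_neg h5] at h'
        exact absurd rfl h'
    · rintro ⟨x, j⟩
      by_cases hj : j = i
      · subst hj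
        have h6 : ∑ v : Γ × ι, (if j = j ∧ v.2 = j then e x v.1 else 0) = ∑ y, e x y := by
          rw [Fintype.sum_prod_type]
          refine Finset.sum_congr rfl fun y _ => ?_
          simp
        show Even (∑ v : Γ × ι, (if j = j ∧ v.2 = j then e x v.1 else 0))
        rw [h6]
        exact e4 x
      · have h6 : ∑ v : Γ × ι, (if j = i ∧ v.2 = i then e x v.1 else 0) = 0 := by
          refine Finset.sum_eq_zero fun v _ => ?_
          rw [if_neg (fun h => hj h.1)]
        show Even (∑ v : Γ × ι, (if j = i ∧ v.2 = i then e x v.1 else 0))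
        rw [h6]
        exact Even.zero

theorem coverI (n : ℕ) : ∀ w : ι → ι → Γ → ℕ, ∑ a, ∑ b, ∑ s, w a b s = n →
      (∀ a b s, w b a s⁻¹ = w a b s) →
      (∀ a b s, w a b s ≠ 0 → ∀ x, G.Adj (x, a) (x * s, b)) →
      (∀ a b, a ≠ b → Even (∑ s, w a b s)) → (∀ a, Even (∑ s, w a a s)) →
      (∀ a b, a ≠ b → ∀ s, 2 * w a b s ≤ ∑ s, w a b s) →
      (∀ a c, c * c = 1 → 2 * w a a c ≤ ∑ b, ∑ s, w a b s) →
      Cv G (fun u v => w u.2 v.2 (u.1⁻¹ * v.1)) := by
  induction n using Nat.strong_induction_on with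
  | _ n ih =>
  intro w hn hsym hadj hT hS hbal hinv
  by_cases h0 : ∀ a b, a ≠ b → ∀ s, w a b s = 0
  · -- no edges between different orbits
    have hD : ∀ a, ∑ b, ∑ s, w a b s = ∑ s, w a a s := by
      intro a
      refine Finset.sum_eq_single a ?_ ?_
      · intro b _ hb
        exact Finset.sum_eq_zero fun s _ => h0 a b hb.symm s
      · intro h
        exact absurd (mem_univ _) h
    have hi : ∀ a ∈ (univ : Finset ι), Cv G (fun (u v : Γ × ι) =>
        if u.2 = a ∧ v.2 = a then w a a (u.1⁻¹ * v.1) else 0) := by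
      intro a _
      refine innerI a (w a a) (fun s => hsym a a s) (hadj a a) (hS a) ?_
      intro c hc
      rw [← hD a]
      exact hinv a c hc
    refine (Cv.sum univ _ hi).congr ?_
    rintro ⟨x, a⟩ ⟨y, b⟩
    show ∑ c, (if a = c ∧ b = c then w c c (x⁻¹ * y) else 0) = w a b (x⁻¹ * y)
    by_cases hab : a = b
    · subst hab
      rw [Finset.sum_eq_single a]
      · rw [if_pos ⟨rfl, rfl⟩]
      · intro c _ hc
        exact if_neg (fun h => hc h.1.symm)
      · intro h
        exact absurd (mem_univ _) h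
    · rw [h0 a b hab]
      refine Finset.sum_eq_zero fun c _ => ?_
      exact if_neg (fun h => hab (h.1.trans h.2.symm))
  push Not at h0
  obtain ⟨i, j, hij, s₀, hs₀⟩ := h0
  have hji : j ≠ i := hij.symm
  -- the spokes
  have hTpos : ∑ s, w i j s ≠ 0 := by
    have : w i j s₀ ≤ ∑ s, w i j s := Finset.single_le_sum (fun _ _ => Nat.zero_le _) (mem_univ s₀)
    omega
  have hTev := hT i j hij
  obtain ⟨s, hs, hmax⟩ : ∃ s, w i j s ≠ 0 ∧ ∀ t, w i j t ≤ w i j s := by
    obtain ⟨s, -, hm⟩ := Finset.exists_max_image univ (w i j) ⟨s₀, mem_univ s₀⟩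
    refine ⟨s, ?_, fun t => hm t (mem_univ t)⟩
    have := hm s₀ (mem_univ s₀)
    omega
  obtain ⟨s', hs's, hs'⟩ : ∃ s', s' ≠ s ∧ w i j s' ≠ 0 := by
    by_contra hcon
    push Not at hcon
    have h1 : ∑ t, w i j t = w i j s := by
      refine Finset.sum_eq_single s ?_ ?_
      · intro t _ ht
        exact hcon t ht
      · intro h
        exact absurd (mem_univ _) h
    have h2 := hbal i j hij s
    omega
  have hle : ∀ t, one s t + one s' t ≤ w i j t := by
    intro t
    unfold one
    by_cases h2 : t = s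
    · rw [ind_pos h2, ind_neg (by rw [h2]; exact hs's.symm), h2]
      omega
    · by_cases h3 : t = s'
      · rw [ind_neg h2, ind_pos h3, h3]
        omega
      · rw [ind_neg h2, ind_neg h3]
        omega
  have hsum := sum_sub' (w i j) (fun t => one s t + one s' t) hle
  rw [sum_two] at hsum
  have hbal' : ∀ t, 2 * (w i j t - (one s t + one s' t)) ≤ ∑ t, w i j t - 2 := by
    intro t
    have h4 := hbal i j hij t
    by_cases h2 : t = s
    · have h5 : one s t = 1 := ind_pos h2
      omega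
    by_cases h3 : t = s'
    · have h5 : one s' t = 1 := ind_pos h3
      omega
    have h5 : ∑ x ∈ ({s, s', t} : Finset Γ), w i j x = w i j s + (w i j s' + w i j t) := by
      rw [Finset.sum_insert, Finset.sum_insert, Finset.sum_singleton]
      · rw [mem_singleton]
        exact fun h => h3 h.symm
      · rw [mem_insert, mem_singleton]
        rintro (h | h)
        · exact hs's h.symm
        · exact h2 h.symm
    have h6 : ∑ x ∈ ({s, s', t} : Finset Γ), w i j x ≤ ∑ x, w i j x :=
      Finset.sum_le_sum_of_subset (subset_univ _)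
    have h7 := hmax t
    rw [Nat.even_iff] at hTev
    omega
  -- the other orbit
  have hTs : ∀ a b, ∑ t, w b a t = ∑ t, w a b t := by
    intro a b
    rw [← Equiv.sum_comp (Equiv.inv Γ)]
    exact Finset.sum_congr rfl fun t _ => hsym a b t
  -- degrees
  let N : ι → ℕ := fun a => ∑ b ∈ univ.erase a, ∑ t, w a b t
  have hN : ∀ a, ∑ b, ∑ t, w a b t = N a + ∑ t, w a a t := by
    intro a
    exact (Finset.sum_erase_add _ _ (mem_univ a)).symm
  have hNev : ∀ a, Even (N a) := by
    intro a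
    exact Finset.even_sum _ (fun b hb => hT a b (fun h => (mem_erase.1 hb).1 h.symm))
  have hN2 : ∀ a b, a ≠ b → ∑ t, w a b t ≤ N a := by
    intro a b hab
    exact Finset.single_le_sum (f := fun b => ∑ t, w a b t) (fun _ _ => Nat.zero_le _)
      (mem_erase.2 ⟨hab.symm, mem_univ b⟩)
  have hT2 : 2 ≤ ∑ t, w i j t := by
    rw [Nat.even_iff] at hTev
    omega
  obtain ⟨ε, hε, l0, i0, v0, m0⟩ := side (N i) (le_trans hT2 (hN2 i j hij)) (w i i)
    (fun t => hsym i i t) ((hNev i).add (hS i)) (fun c hc => by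
      rw [← hN i]
      exact hinv i c hc)
  obtain ⟨ζ, hζ, l1, i1, v1, m1⟩ := side (N j)
    (le_trans (by rw [hTs i j]; exact hT2) (hN2 j i hji)) (w j j)
    (fun t => hsym j j t) ((hNev j).add (hS j)) (fun c hc => by
      rw [← hN j]
      exact hinv j c hc)
  let δ : Γ → ℕ := fun t => one s t + one s' t
  -- the piece
  have gen : ∀ a b t, w a b t ≠ 0 → ∀ x, G.Adj (x, a) (x * t, b) := hadj
  have k01 : ∀ t, w i j t ≠ 0 → ∀ x, (G.comap (emb i j)).Adj (x, false) (x * t, true) :=
    fun t ht x => gen i j t ht x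
  have k00 : ∀ t, w i i t ≠ 0 → ∀ x, (G.comap (emb i j)).Adj (x, false) (x * t, false) :=
    fun t ht x => gen i i t ht x
  have k11 : ∀ t, w j j t ≠ 0 → ∀ x, (G.comap (emb i j)).Adj (x, true) (x * t, true) :=
    fun t ht x => gen j j t ht x
  have hpiece : Cv (G.comap (emb i j)) (W δ ε ζ) := by
    rcases hε with rfl | ⟨c, hcc, hc, rfl⟩
    · rcases hζ with rfl | ⟨d, hdd, hd, rfl⟩
      · exact piece_ss s s' hs's.symm (k01 s hs) (k01 s' hs')
      · exact piece_d d s s' hdd hs's.symm (k01 s hs) (k01 s' hs') (k11 d hd)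
    · rcases hζ with rfl | ⟨d, hdd, hd, rfl⟩
      · exact piece_c c s s' hcc hs's.symm (k01 s hs) (k01 s' hs') (k00 c hc)
      · exact piece_cd c d s s' hcc hdd (k01 s hs) (k01 s' hs') (k00 c hc) (k11 d hd)
  have hP := pairCv (G := G) hij δ ε ζ hpiece
  -- the rest
  have hPle : ∀ a b t, P i j δ ε ζ a b t ≤ w a b t := by
    intro a b t
    by_cases h : (a = i ∨ a = j) ∧ (b = i ∨ b = j)
    · obtain ⟨ha | ha, hb | hb⟩ := h
      · rw [ha, hb, P_ii]
        exact l0 t
      · rw [ha, hb, P_ij hij]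
        exact hle t
      · rw [ha, hb, P_ji hij, ← hsym j i t]
        exact hle t⁻¹
      · rw [ha, hb, P_jj hij]
        exact l1 t
    · rw [P_else δ ε ζ h]
      exact Nat.zero_le _
  let w' : ι → ι → Γ → ℕ := fun a b t => w a b t - P i j δ ε ζ a b t
  have w_ii : ∀ t, w' i i t = w i i t - ε t := fun t => by
    show w i i t - P i j δ ε ζ i i t = _
    rw [P_ii]
  have w_jj : ∀ t, w' j j t = w j j t - ζ t := fun t => by
    show w j j t - P i j δ ε ζ j j t = _
    rw [P_jj hij]
  have w_ij : ∀ t, w' i j t = w i j t - δ t := fun t => by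
    show w i j t - P i j δ ε ζ i j t = _
    rw [P_ij hij]
  have w_ji : ∀ t, w' j i t = w i j t⁻¹ - δ t⁻¹ := fun t => by
    show w j i t - P i j δ ε ζ j i t = _
    rw [P_ji hij, hsym j i t]
  have w_else : ∀ a b, ¬ ((a = i ∨ a = j) ∧ (b = i ∨ b = j)) → ∀ t, w' a b t = w a b t := by
    intro a b h t
    show w a b t - P i j δ ε ζ a b t = _
    rw [P_else δ ε ζ h]
    rfl
  have s_ij : ∑ t, w' i j t = ∑ t, w i j t - 2 := by
    rw [Finset.sum_congr rfl (fun t _ => w_ij t)]
    show ∑ t, (w i j t - (one s t + one s' t)) = _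
    omega
  have s_ji : ∑ t, w' j i t = ∑ t, w i j t - 2 := by
    rw [← s_ij, ← Equiv.sum_comp (Equiv.inv Γ)]
    refine Finset.sum_congr rfl fun t _ => ?_
    show w' j i t⁻¹ = w' i j t
    rw [w_ji, w_ij, inv_inv]
  have s_ii : ∑ t, w' i i t = ∑ t, (w i i t - ε t) := Finset.sum_congr rfl (fun t _ => w_ii t)
  have s_jj : ∑ t, w' j j t = ∑ t, (w j j t - ζ t) := Finset.sum_congr rfl (fun t _ => w_jj t)
  -- new degrees
  have hdeg : ∀ a b, a ≠ b → ((a = i ∧ b = j) ∨ (a = j ∧ b = i)) →
      ∑ c, ∑ t, w' a c t = (N a - 2) + ∑ t, w' a a t := by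
    intro a b hab h
    have h1 : ∑ c, ∑ t, w' a c t = ∑ c ∈ univ.erase a, ∑ t, w' a c t + ∑ t, w' a a t :=
      (Finset.sum_erase_add _ _ (mem_univ a)).symm
    rw [h1]
    congr 1
    have hb : b ∈ univ.erase a := mem_erase.2 ⟨hab.symm, mem_univ b⟩
    have h2 : ∑ c ∈ univ.erase a, ∑ t, w' a c t =
        ∑ c ∈ (univ.erase a).erase b, ∑ t, w' a c t + ∑ t, w' a b t :=
      (Finset.sum_erase_add _ _ hb).symm
    have h3 : N a = ∑ c ∈ (univ.erase a).erase b, ∑ t, w a c t + ∑ t, w a b t :=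
      (Finset.sum_erase_add _ _ hb).symm
    have h4 : ∑ c ∈ (univ.erase a).erase b, ∑ t, w' a c t =
        ∑ c ∈ (univ.erase a).erase b, ∑ t, w a c t := by
      refine Finset.sum_congr rfl fun c hc => Finset.sum_congr rfl fun t _ => ?_
      have hcb : c ≠ b := (mem_erase.1 hc).1
      have hca : c ≠ a := (mem_erase.1 (mem_erase.1 hc).2).1
      refine w_else a c ?_ t
      rintro ⟨_, h5 | h5⟩
      · rcases h with ⟨h6, h7⟩ | ⟨h6, h7⟩
        · exact hca (h5.trans h6.symm)
        · exact hcb (h5.trans h7.symm)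
      · rcases h with ⟨h6, h7⟩ | ⟨h6, h7⟩
        · exact hcb (h5.trans h7.symm)
        · exact hca (h5.trans h6.symm)
    have h5 : ∑ t, w' a b t = ∑ t, w a b t - 2 := by
      rcases h with ⟨h6, h7⟩ | ⟨h6, h7⟩
      · rw [h6, h7]
        exact s_ij
      · rw [h6, h7, hTs i j]
        exact s_ji
    have h6 : 2 ≤ ∑ t, w a b t := by
      rcases h with ⟨h6, h7⟩ | ⟨h6, h7⟩
      · rw [h6, h7]
        exact hT2
      · rw [h6, h7, hTs i j]
        exact hT2
    rw [h2, h3, h4, h5]
    omega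
  have hrest := ih (∑ a, ∑ b, ∑ t, w' a b t) ?_ w' rfl ?_ ?_ ?_ ?_ ?_ ?_
  · refine (hP.add hrest).congr ?_
    intro u v
    have := hPle u.2 v.2 (u.1⁻¹ * v.1)
    show P i j δ ε ζ u.2 v.2 (u.1⁻¹ * v.1) +
      (w u.2 v.2 (u.1⁻¹ * v.1) - P i j δ ε ζ u.2 v.2 (u.1⁻¹ * v.1)) = _
    omega
  · -- the total decreases
    rw [← hn]
    have hw' : ∀ a b t, w' a b t ≤ w a b t := fun a b t => Nat.sub_le _ _
    have h2 : ∀ a b, ∑ t, w' a b t ≤ ∑ t, w a b t :=
      fun a b => Finset.sum_le_sum fun t _ => hw' a b t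
    have h3 : ∑ t, w' i j t < ∑ t, w i j t := by
      rw [s_ij]
      omega
    refine Finset.sum_lt_sum (fun a _ => Finset.sum_le_sum fun b _ => h2 a b) ?_
    exact ⟨i, mem_univ i, Finset.sum_lt_sum (fun b _ => h2 i b) ⟨j, mem_univ j, h3⟩⟩
  · -- symmetry
    intro a b t
    by_cases h : (a = i ∨ a = j) ∧ (b = i ∨ b = j)
    · obtain ⟨ha | ha, hb | hb⟩ := h
      · rw [ha, hb, w_ii, w_ii]
        exact i0 t
      · rw [ha, hb, w_ij, w_ji, inv_inv]
      · rw [ha, hb, w_ij, w_ji]
      · rw [ha, hb, w_jj, w_jj]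
        exact i1 t
    · have h' : ¬ ((b = i ∨ b = j) ∧ (a = i ∨ a = j)) := fun h'' => h h''.symm
      rw [w_else a b h, w_else b a h']
      exact hsym a b t
  · intro a b t ht
    refine hadj a b t (fun h => ht ?_)
    show w a b t - _ = 0
    omega
  · intro a b hab
    by_cases h : (a = i ∨ a = j) ∧ (b = i ∨ b = j)
    · rw [Nat.even_iff] at hTev ⊢
      obtain ⟨ha | ha, hb | hb⟩ := h
      · exact absurd (ha.trans hb.symm) hab
      · rw [ha, hb, s_ij]
        omega
      · rw [ha, hb, s_ji]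
        omega
      · exact absurd (ha.trans hb.symm) hab
    · rw [Finset.sum_congr rfl (fun t _ => w_else a b h t)]
      exact hT a b hab
  · intro a
    by_cases hai : a = i
    · rw [hai, s_ii]
      have := hNev i
      rw [Nat.even_iff] at v0 this ⊢
      omega
    by_cases haj : a = j
    · rw [haj, s_jj]
      have := hNev j
      rw [Nat.even_iff] at v1 this ⊢
      omega
    · rw [Finset.sum_congr rfl (fun t _ => w_else a a (by tauto) t)]
      exact hS a
  · intro a b hab t
    by_cases h : (a = i ∨ a = j) ∧ (b = i ∨ b = j)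
    · obtain ⟨ha | ha, hb | hb⟩ := h
      · exact absurd (ha.trans hb.symm) hab
      · rw [ha, hb, s_ij, w_ij]
        exact hbal' t
      · rw [ha, hb, s_ji, w_ji]
        exact hbal' t⁻¹
      · exact absurd (ha.trans hb.symm) hab
    · rw [w_else a b h t, Finset.sum_congr rfl (fun t _ => w_else a b h t)]
      exact hbal a b hab t
  · intro a c hc
    by_cases hai : a = i
    · rw [hai, hdeg i j hij (Or.inl ⟨rfl, rfl⟩), w_ii, s_ii]
      exact m0 c hc
    by_cases haj : a = j
    · rw [haj, hdeg j i hji (Or.inr ⟨rfl, rfl⟩), w_jj, s_jj]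
      exact m1 c hc
    · have h1 : ∀ b, ¬ ((a = i ∨ a = j) ∧ (b = i ∨ b = j)) := by
        rintro b ⟨h | h, _⟩
        · exact hai h
        · exact haj h
      rw [w_else a a (h1 a) c]
      have h2 : ∑ b, ∑ t, w' a b t = ∑ b, ∑ t, w a b t :=
        Finset.sum_congr rfl fun b _ => Finset.sum_congr rfl fun t _ => w_else a b (h1 b) t
      rw [h2]
      exact hinv a c hc

end Pool.Agent.R759.BO
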