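import Pool.Agent.R759.BWMain

set_option autoImplicit false
set_option linter.unusedSectionVars false

/-!
Transfer of circuit covers and further pieces.
-/

open scoped Classical

namespace Pool.Agent.R759.BS

open Finset Pool.Agent.TH505.OCDC Pool.Agent.R759.OC Pool.Agent.R759.CW Pool.Agent.R759.BW

section Transfer

/-- an even subgraph given by its characteristic function -/
lemma cv_even {V : Type} [Fintype V] {G : SimpleGraph V} (f : V → V → ℕ)
    (hs : ∀ u v, f u v = f v u) (h1 : ∀ u v, f u v ≤ 1) (ha : ∀ u v, f u v ≠ 0 → G.Adj u v)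
    (he : ∀ u, Even (∑ v, f u v)) : Cv G f := by
  have hf : ∀ u v, ind (f u v = 1) = f u v := by
    intro u v
    have := h1 u v
    by_cases h : f u v = 1
    · rw [ind_pos h, h]
    · rw [ind_neg h]
      omega
  refine (Cv.of_even (G := G) (R := fun u v => f u v = 1) ?_ ?_ ?_).congr hf
  · intro u v h
    exact ha u v (by rw [h]; exact one_ne_zero)
  · intro u v h
    show f v u = 1
    rw [← hs]
    exact h
  · intro v
    rw [Finset.sum_congr rfl (fun w _ => hf v w)]
    exact he v

/-- circuit covers of `K` give circuit covers of `G` -/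
lemma transfer {U V : Type} [Fintype U] [Fintype V] {K : SimpleGraph U} {G : SimpleGraph V}
    (F : (U → U → ℕ) → V → V → ℕ)
    (hadd : ∀ e e' u v, F (fun x y => e x y + e' x y) u v = F e u v + F e' u v)
    (hzero : ∀ u v, F (fun _ _ => 0) u v = 0)
    (hF : ∀ e : U → U → ℕ, (∀ x y, e x y = e y x) → (∀ x y, e x y ≤ 1) →
      (∀ x y, e x y ≠ 0 → K.Adj x y) → (∀ x, Even (∑ y, e x y)) →
      (∀ u v, F e u v = F e v u) ∧ (∀ u v, F e u v ≤ 1) ∧ (∀ u v, F e u v ≠ 0 → G.Adj u v) ∧
      ∀ u, Even (∑ v, F e u v)) {q : U → U → ℕ} (hq : Cv K q) : Cv G (F q) := by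
  obtain ⟨C, hC, hC'⟩ := hq
  have hq' : q = fun x y => tot C x y + tot C y x := by
    funext x y
    exact (hC' x y).symm
  rw [hq']
  clear hC' hq'
  induction C with
  | nil =>
    refine Cv.zero.congr ?_
    intro u v
    exact (hzero u v).symm
  | cons c C ih =>
    have h1 := ih (fun d hd => hC d (List.mem_cons_of_mem _ hd))
    have hc := hC c List.mem_cons_self
    let e : U → U → ℕ := fun x y => dc c.2 x y + dc c.2 y x
    have g1 : ∀ x y, e x y ≤ 1 := by
      intro x y
      by_cases hxy : x = y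
      · subst hxy
        show dc c.2 x x + dc c.2 x x ≤ 1
        rw [dc_self]
        omega
      · exact dc_le_one hc.isTrail hxy
    have g2 : ∀ x y, e x y ≠ 0 → K.Adj x y := by
      intro x y h
      have h' : dc c.2 x y + dc c.2 y x ≠ 0 := h
      by_cases h3 : dc c.2 x y = 0
      · exact (dc_adj c.2 (u := y) (v := x) (by omega)).symm
      · exact dc_adj c.2 (u := x) (v := y) (by omega)
    have g3 : ∀ x, Even (∑ y, e x y) := by
      intro x
      show Even (∑ y, (dc c.2 x y + dc c.2 y x))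
      rw [Finset.sum_add_distrib, ← dc_closed c.2 x]
      exact ⟨_, rfl⟩
    obtain ⟨f1, f2, f3, f4⟩ := hF e (fun x y => add_comm _ _) g1 g2 g3
    have h2 := cv_even (G := G) (F e) f1 f2 f3 f4
    refine (h2.add h1).congr ?_
    intro u v
    rw [← hadd]
    congr 1
    funext x y
    show dc c.2 x y + dc c.2 y x + (tot C x y + tot C y x) = tot (c :: C) x y + tot (c :: C) y x
    rw [tot_cons, tot_cons]
    omega

end Transfer

variable {Γ : Type} [Group Γ] [Fintype Γ] {G : SimpleGraph (Γ × Bool)}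

lemma sum_at (x c : Γ) (f : Γ → ℕ) : ∑ y, ind (x⁻¹ * y = c) * f y = f (x * c) := by
  rw [Finset.sum_eq_single (x * c)]
  · rw [ind_pos (inv_mul_cancel_left x c), one_mul]
  · intro y _ hy
    rw [ind_neg, zero_mul]
    intro h
    apply hy
    rw [← h, mul_inv_cancel_left]
  · intro h
    exact absurd (mem_univ _) h

lemma sum_at' (x c : Γ) (f : Γ → ℕ) : ∑ y, ind (y⁻¹ * x = c) * f y = f (x * c⁻¹) := by
  rw [Finset.sum_eq_single (x * c⁻¹)]
  · rw [ind_pos (by group), one_mul]
  · intro y _ hy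
    rw [ind_neg, zero_mul]
    intro h
    apply hy
    rw [← h]
    group
  · intro h
    exact absurd (mem_univ _) h

lemma sum_prod_bool (f : Γ × Bool → ℕ) : ∑ v, f v = ∑ y, f (y, false) + ∑ y, f (y, true) := by
  rw [Fintype.sum_prod_type, ← Finset.sum_add_distrib]
  refine Finset.sum_congr rfl fun x _ => ?_
  rw [Fintype.sum_bool, add_comm]

/-- invariant covers inside the orbit `i` -/
lemma inner (i : Bool) (α : Γ → ℕ) (hinv : ∀ a, α a⁻¹ = α a)
    (hadj : ∀ a, α a ≠ 0 → ∀ x, G.Adj (x, i) (x * a, i)) (hev : Even (∑ a, α a))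
    (hmax : ∀ a, a * a = 1 → 2 * α a ≤ ∑ a, α a) :
    Cv G (fun (u v : Γ × Bool) => if u.2 = i ∧ v.2 = i then α (u.1⁻¹ * v.1) else 0) := by
  have hK := cover (H := G.comap (fun x : Γ => (x, i))) _ α rfl hinv
    (fun a ha x => hadj a ha x) hev hmax
  refine transfer (K := G.comap (fun x : Γ => (x, i)))
    (fun e (u v : Γ × Bool) => if u.2 = i ∧ v.2 = i then e u.1 v.1 else 0) ?_ ?_ ?_ hK
  · intro e e' u v
    show (if u.2 = i ∧ v.2 = i then e u.1 v.1 + e' u.1 v.1 else 0) = _
    by_cases h : u.2 = i ∧ v.2 = i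
    · simp only [if_pos h]
    · simp only [if_neg h]
  · intro u v
    show (if u.2 = i ∧ v.2 = i then 0 else 0) = 0
    split_ifs <;> rfl
  · intro e e1 e2 e3 e4
    refine ⟨?_, ?_, ?_, ?_⟩
    · intro u v
      show (if u.2 = i ∧ v.2 = i then e u.1 v.1 else 0) =
        (if v.2 = i ∧ u.2 = i then e v.1 u.1 else 0)
      by_cases h : u.2 = i ∧ v.2 = i
      · rw [if_pos h, if_pos h.symm, e1]
      · rw [if_neg h, if_neg (fun h' => h h'.symm)]
    · intro u v
      show (if u.2 = i ∧ v.2 = i then e u.1 v.1 else 0) ≤ 1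
      split_ifs
      · exact e2 _ _
      · omega
    · rintro ⟨x, j⟩ ⟨y, k⟩ h
      have h' : (if j = i ∧ k = i then e x y else 0) ≠ 0 := h
      by_cases h5 : j = i ∧ k = i
      · rw [if_pos h5] at h'
        obtain ⟨rfl, rfl⟩ := h5
        exact e3 x y h'
      · rw [if_neg h5] at h'
        exact absurd rfl h'
    · rintro ⟨x, j⟩
      by_cases hj : j = i
      · subst hj
        have h6 : ∑ v : Γ × Bool, (if j = j ∧ v.2 = j then e x v.1 else 0) = ∑ y, e x y := by
          rw [sum_prod_bool]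
          cases j <;> simp
        show Even (∑ v : Γ × Bool, (if j = j ∧ v.2 = j then e x v.1 else 0))
        rw [h6]
        exact e4 x
      · have h6 : ∑ v : Γ × Bool, (if j = i ∧ v.2 = i then e x v.1 else 0) = 0 := by
          refine Finset.sum_eq_zero fun v _ => ?_
          rw [if_neg (fun h => hj h.1)]
        show Even (∑ v : Γ × Bool, (if j = i ∧ v.2 = i then e x v.1 else 0))
        rw [h6]
        exact Even.zero

/-- a spoke and two involutions -/
lemma piece_q (s c d : Γ) (hcc : c * c = 1) (hdd : d * d = 1)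
    (hs : ∀ x, G.Adj (x, false) (x * s, true)) (hc : ∀ x, G.Adj (x, false) (x * c, false))
    (hd : ∀ x, G.Adj (x, true) (x * d, true)) : Cv G (W (one s) (one c) (one d)) := by
  have hsw : ∀ (c x y : Γ), c * c = 1 → ind (x⁻¹ * y = c) = ind (y⁻¹ * x = c) := by
    intro c x y h
    apply ind_iff
    have h2 : c⁻¹ = c := inv_eq_of_mul_eq_one_left h
    rw [← inv_inj, mul_inv_rev, inv_inv, h2]
  have hrec : ∀ (c x y : Γ), x⁻¹ * y = c → y = x * c := by
    intro c x y h
    rw [← h, mul_inv_cancel_left]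
  refine cv_even _ ?_ ?_ ?_ ?_
  · rintro ⟨x, _ | _⟩ ⟨y, _ | _⟩
    · exact hsw c x y hcc
    · rfl
    · rfl
    · exact hsw d x y hdd
  · rintro ⟨x, _ | _⟩ ⟨y, _ | _⟩ <;>
    · show ind _ ≤ 1
      unfold ind
      split_ifs <;> omega
  · rintro ⟨x, _ | _⟩ ⟨y, _ | _⟩ h
    · have h1 : x⁻¹ * y = c := by
        by_contra hn
        exact h (ind_neg hn)
      rw [hrec _ _ _ h1]
      exact hc x
    · have h1 : x⁻¹ * y = s := by
        by_contra hn
        exact h (ind_neg hn)
      rw [hrec _ _ _ h1]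
      exact hs x
    · have h1 : y⁻¹ * x = s := by
        by_contra hn
        exact h (ind_neg hn)
      rw [hrec _ _ _ h1]
      exact (hs y).symm
    · have h1 : x⁻¹ * y = d := by
        by_contra hn
        exact h (ind_neg hn)
      rw [hrec _ _ _ h1]
      exact hd x
  · rintro ⟨x, _ | _⟩
    · rw [sum_prod_bool]
      have h1 := sum_at x c (fun _ => 1)
      have h2 := sum_at x s (fun _ => 1)
      simp only [mul_one] at h1 h2
      show Even (∑ y, ind (x⁻¹ * y = c) + ∑ y, ind (x⁻¹ * y = s))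
      rw [h1, h2]
      exact ⟨1, rfl⟩
    · rw [sum_prod_bool]
      have h1 := sum_at' x s (fun _ => 1)
      have h2 := sum_at x d (fun _ => 1)
      simp only [mul_one] at h1 h2
      show Even (∑ y, ind (y⁻¹ * x = s) + ∑ y, ind (x⁻¹ * y = d))
      rw [h1, h2]
      exact ⟨1, rfl⟩

/-- an involution and two spokes, first case -/
lemma piece_c1 (c t t' : Γ) (hcc : c * c = 1) (hc1 : c ≠ 1)
    (hz : t * t'⁻¹ * (t * t'⁻¹) ≠ 1) (ht : ∀ x, G.Adj (x, false) (x * t, true))
    (ht' : ∀ x, G.Adj (x, false) (x * t', true)) (hc : ∀ x, G.Adj (x, false) (x * c, false)) :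
    Cv G (W (fun r => one t r + one t' r) (fun r => one c r + one c r) (fun _ => 0)) := by
  set z := t * t'⁻¹ with hzdef
  have hcz : c ≠ z := ne_of_sq hcc hz
  have hcz' : c ≠ z⁻¹ := ne_of_sq hcc (inv_sq hz)
  have hzz : z ≠ z⁻¹ := ne_inv_of_sq hz
  have hz1 : z ≠ 1 := by
    intro h
    apply hz
    rw [h, one_mul]
  have htt : t ≠ t' := by
    rintro rfl
    exact hz1 (mul_inv_cancel t)
  let K : SimpleGraph Γ := SimpleGraph.fromRel (fun x y => x⁻¹ * y = c ∨ x⁻¹ * y = z)
  have hK : ∀ x y, K.Adj x y ↔ x ≠ y ∧ ((x⁻¹ * y = c ∨ x⁻¹ * y = z) ∨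
      (y⁻¹ * x = c ∨ y⁻¹ * x = z)) := fun x y => SimpleGraph.fromRel_adj _ x y
  have hKc : ∀ x, K.Adj x (x * c) := by
    intro x
    rw [hK]
    exact ⟨fun h => hc1 (mul_eq_left.1 h.symm), Or.inl (Or.inl (inv_mul_cancel_left x c))⟩
  have hKz : ∀ x, K.Adj x (x * z) := by
    intro x
    rw [hK]
    exact ⟨fun h => hz1 (mul_eq_left.1 h.symm), Or.inl (Or.inr (inv_mul_cancel_left x z))⟩
  have hself : c⁻¹ = c := inv_eq_of_mul_eq_one_left hcc
  have hKn : ∀ x y, K.Adj x y → y = x * c ∨ y = x * z ∨ y = x * z⁻¹ := by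
    intro x y h
    rw [hK] at h
    rcases h.2 with (h | h) | (h | h)
    · left
      rw [← h, mul_inv_cancel_left]
    · right; left
      rw [← h, mul_inv_cancel_left]
    · left
      have h2 : y⁻¹ * x = c := h
      have h3 : x⁻¹ * y = c := by
        rw [← hself, ← h2]
        group
      rw [← h3, mul_inv_cancel_left]
    · right; right
      have h2 : y⁻¹ * x = z := h
      rw [← h2]
      group
  have hq := piece_ac (H := K) c z hcc hz hc1 hKc hKz
  let F : (Γ → Γ → ℕ) → Γ × Bool → Γ × Bool → ℕ := fun e u v => match u, v with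
    | (x, false), (y, false) => ind (x⁻¹ * y = c) * e x y
    | (x, false), (y, true) => ind (x⁻¹ * y = t) * e x (x * z) + ind (x⁻¹ * y = t') * e x (x * z⁻¹)
    | (x, true), (y, false) => ind (y⁻¹ * x = t) * e y (y * z) + ind (y⁻¹ * x = t') * e y (y * z⁻¹)
    | (_, true), (_, true) => 0
  have hrec : ∀ (c x y : Γ), x⁻¹ * y = c → y = x * c := by
    intro c x y h
    rw [← h, mul_inv_cancel_left]
  refine (transfer (K := K) F ?_ ?_ ?_ hq).congr ?_
  · rintro e e' ⟨x, _ | _⟩ ⟨y, _ | _⟩
    · show ind (x⁻¹ * y = c) * (e x y + e' x y) = _ * e x y + _ * e' x y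
      ring
    · show ind (x⁻¹ * y = t) * (e x (x * z) + e' x (x * z)) +
        ind (x⁻¹ * y = t') * (e x (x * z⁻¹) + e' x (x * z⁻¹)) =
        (ind (x⁻¹ * y = t) * e x (x * z) + ind (x⁻¹ * y = t') * e x (x * z⁻¹)) +
        (ind (x⁻¹ * y = t) * e' x (x * z) + ind (x⁻¹ * y = t') * e' x (x * z⁻¹))
      ring
    · show ind (y⁻¹ * x = t) * (e y (y * z) + e' y (y * z)) +
        ind (y⁻¹ * x = t') * (e y (y * z⁻¹) + e' y (y * z⁻¹)) =
        (ind (y⁻¹ * x = t) * e y (y * z) + ind (y⁻¹ * x = t') * e y (y * z⁻¹)) +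
        (ind (y⁻¹ * x = t) * e' y (y * z) + ind (y⁻¹ * x = t') * e' y (y * z⁻¹))
      ring
    · rfl
  · rintro ⟨x, _ | _⟩ ⟨y, _ | _⟩
    · show ind (x⁻¹ * y = c) * 0 = 0
      ring
    · show ind (x⁻¹ * y = t) * 0 + ind (x⁻¹ * y = t') * 0 = 0
      ring
    · show ind (y⁻¹ * x = t) * 0 + ind (y⁻¹ * x = t') * 0 = 0
      ring
    · rfl
  · intro e e1 e2 e3 e4
    have hle : ∀ x y : Γ, ind (x⁻¹ * y = t) * e x (x * z) + ind (x⁻¹ * y = t') * e x (x * z⁻¹) ≤ 1
        := by
      intro x y
      by_cases h1 : x⁻¹ * y = t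
      · rw [ind_pos h1, ind_neg (fun h2 => htt (h1.symm.trans h2))]
        have := e2 x (x * z)
        omega
      · rw [ind_neg h1]
        by_cases h2 : x⁻¹ * y = t'
        · rw [ind_pos h2]
          have := e2 x (x * z⁻¹)
          omega
        · rw [ind_neg h2]
          omega
    have hadj : ∀ x y : Γ, ind (x⁻¹ * y = t) * e x (x * z) +
        ind (x⁻¹ * y = t') * e x (x * z⁻¹) ≠ 0 → G.Adj (x, false) (y, true) := by
      intro x y h
      by_cases h1 : x⁻¹ * y = t
      · rw [hrec _ _ _ h1]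
        exact ht x
      · by_cases h2 : x⁻¹ * y = t'
        · rw [hrec _ _ _ h2]
          exact ht' x
        · rw [ind_neg h1, ind_neg h2] at h
          exact absurd (by ring) h
    refine ⟨?_, ?_, ?_, ?_⟩
    · rintro ⟨x, _ | _⟩ ⟨y, _ | _⟩
      · show ind (x⁻¹ * y = c) * e x y = ind (y⁻¹ * x = c) * e y x
        rw [e1 x y]
        congr 1
        apply ind_iff
        rw [← inv_inj, mul_inv_rev, inv_inv, hself]
      · rfl
      · rfl
      · rfl
    · rintro ⟨x, _ | _⟩ ⟨y, _ | _⟩
      · show ind (x⁻¹ * y = c) * e x y ≤ 1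
        have := e2 x y
        by_cases h1 : x⁻¹ * y = c
        · rw [ind_pos h1]
          omega
        · rw [ind_neg h1]
          omega
      · exact hle x y
      · exact hle y x
      · exact Nat.zero_le _
    · rintro ⟨x, _ | _⟩ ⟨y, _ | _⟩ h
      · have h0 : ind (x⁻¹ * y = c) * e x y ≠ 0 := h
        by_cases h1 : x⁻¹ * y = c
        · rw [hrec _ _ _ h1]
          exact hc x
        · rw [ind_neg h1] at h0
          exact absurd (by ring) h0
      · exact hadj x y h
      · exact (hadj y x h).symm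
      · exact absurd rfl h
    · rintro ⟨x, _ | _⟩
      · rw [sum_prod_bool]
        show Even (∑ y, ind (x⁻¹ * y = c) * e x y + ∑ y, (ind (x⁻¹ * y = t) * e x (x * z) +
          ind (x⁻¹ * y = t') * e x (x * z⁻¹)))
        rw [Finset.sum_add_distrib, sum_at x c (fun y => e x y),
          sum_at x t (fun _ => e x (x * z)), sum_at x t' (fun _ => e x (x * z⁻¹))]
        have h1 : ∑ y, e x y = ∑ y ∈ ({x * c, x * z, x * z⁻¹} : Finset Γ), e x y := by
          symm
          refine Finset.sum_subset (subset_univ _) ?_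
          intro y _ hy
          by_contra h2
          apply hy
          rcases hKn x y (e3 x y h2) with h | h | h <;> simp [h]
        have h2 : ∑ y ∈ ({x * c, x * z, x * z⁻¹} : Finset Γ), e x y =
            e x (x * c) + (e x (x * z) + e x (x * z⁻¹)) := by
          rw [Finset.sum_insert, Finset.sum_insert, Finset.sum_singleton]
          · rw [mem_singleton]
            exact fun h => hzz (mul_left_cancel h)
          · rw [mem_insert, mem_singleton]
            rintro (h | h)
            · exact hcz (mul_left_cancel h)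
            · exact hcz' (mul_left_cancel h)
        rw [← h2, ← h1]
        exact e4 x
      · rw [sum_prod_bool]
        show Even (∑ y, (ind (y⁻¹ * x = t) * e y (y * z) + ind (y⁻¹ * x = t') * e y (y * z⁻¹)) +
          ∑ y : Γ, 0)
        rw [Finset.sum_add_distrib, sum_at' x t (fun y => e y (y * z)),
          sum_at' x t' (fun y => e y (y * z⁻¹)), Finset.sum_const_zero, add_zero]
        have h1 : x * t⁻¹ * z = x * t'⁻¹ := by rw [hzdef]; group
        have h2 : x * t'⁻¹ * z⁻¹ = x * t⁻¹ := by rw [hzdef]; group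
        rw [h1, h2, e1 (x * t'⁻¹)]
        exact ⟨_, rfl⟩
  · have hL : ∀ s x y : Γ, L s x y = ind (x⁻¹ * y = s) := fun s x y => L_eq s x y
    have hq1 : ∀ x : Γ, L c x (x * z) + L c (x * z) x + (L z x (x * z) + L z (x * z) x) = 1 := by
      intro x
      rw [hL, hL, hL, hL, inv_mul_cancel_left]
      have e1 : (x * z)⁻¹ * x = z⁻¹ := by group
      rw [e1, ind_neg (fun h => hcz h.symm), ind_neg (fun h => hcz' h.symm), ind_pos rfl,
        ind_neg (fun h => hzz h.symm)]
    have hq2 : ∀ x : Γ, L c x (x * z⁻¹) + L c (x * z⁻¹) x +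
        (L z x (x * z⁻¹) + L z (x * z⁻¹) x) = 1 := by
      intro x
      rw [hL, hL, hL, hL, inv_mul_cancel_left]
      have e1 : (x * z⁻¹)⁻¹ * x = z := by group
      rw [e1, ind_neg (fun h => hcz' h.symm), ind_neg (fun h => hcz h.symm),
        ind_neg (fun h => hzz h.symm), ind_pos rfl]
    rintro ⟨x, _ | _⟩ ⟨y, _ | _⟩
    · show ind (x⁻¹ * y = c) * (L c x y + L c y x + (L z x y + L z y x)) =
        ind (x⁻¹ * y = c) + ind (x⁻¹ * y = c)
      by_cases h : x⁻¹ * y = c
      · have hy := hrec _ _ _ h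
        subst hy
        rw [hL, hL, hL, hL, inv_mul_cancel_left]
        have e1 : (x * c)⁻¹ * x = c := by
          rw [mul_inv_rev, hself]
          group
        rw [e1, ind_pos rfl, ind_neg hcz]
      · rw [ind_neg h]
        ring
    · show ind (x⁻¹ * y = t) * (L c x (x * z) + L c (x * z) x + (L z x (x * z) + L z (x * z) x)) +
        ind (x⁻¹ * y = t') * (L c x (x * z⁻¹) + L c (x * z⁻¹) x +
        (L z x (x * z⁻¹) + L z (x * z⁻¹) x)) = ind (x⁻¹ * y = t) + ind (x⁻¹ * y = t')
      rw [hq1, hq2, mul_one, mul_one]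
    · show ind (y⁻¹ * x = t) * (L c y (y * z) + L c (y * z) y + (L z y (y * z) + L z (y * z) y)) +
        ind (y⁻¹ * x = t') * (L c y (y * z⁻¹) + L c (y * z⁻¹) y +
        (L z y (y * z⁻¹) + L z (y * z⁻¹) y)) = ind (y⁻¹ * x = t) + ind (y⁻¹ * x = t')
      rw [hq1, hq2, mul_one, mul_one]
    · rfl

/-- an involution and two spokes, second case -/
lemma piece_c2 (c t t' : Γ) (hcc : c * c = 1) (htt : t ≠ t')
    (hz : t * t'⁻¹ * (t * t'⁻¹) = 1) (ht : ∀ x, G.Adj (x, false) (x * t, true))
    (ht' : ∀ x, G.Adj (x, false) (x * t', true)) (hc : ∀ x, G.Adj (x, false) (x * c, false)) :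
    Cv G (W (fun r => one t r + one t' r) (fun r => one c r + one c r) (fun _ => 0)) := by
  set z := t * t'⁻¹ with hzdef
  have hself : c⁻¹ = c := inv_eq_of_mul_eq_one_left hcc
  have hz1 : z ≠ 1 := by
    intro h
    exact htt (mul_inv_eq_one.1 h)
  obtain ⟨p, hp, -⟩ := half (⊥ : Subgroup Γ) z (fun h => hz1 (Subgroup.mem_bot.1 h))
    (by rw [hz]; exact Subgroup.one_mem _) (by
      intro k hk
      rw [Subgroup.mem_bot.1 hk, one_mul, mul_one])
  have hrec : ∀ (c x y : Γ), x⁻¹ * y = c → y = x * c := by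
    intro c x y h
    rw [← h, mul_inv_cancel_left]
  have main : ∀ p : Γ → Prop, (∀ b, p (b * z) ↔ ¬ p b) →
      Cv G (fun u v => match u, v with
        | (x, false), (y, false) => ind (x⁻¹ * y = c)
        | (x, false), (y, true) => ind (x⁻¹ * y = t) * ind (p x) + ind (x⁻¹ * y = t') * ind (¬ p x)
        | (x, true), (y, false) => ind (y⁻¹ * x = t) * ind (p y) + ind (y⁻¹ * x = t') * ind (¬ p y)
        | (_, true), (_, true) => 0) := by
    intro p hp
    have hi : ∀ q : Prop, ind q ≤ 1 := by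
      intro q
      unfold ind
      split_ifs <;> omega
    have hle : ∀ x y : Γ, ind (x⁻¹ * y = t) * ind (p x) + ind (x⁻¹ * y = t') * ind (¬ p x) ≤ 1
        := by
      intro x y
      by_cases h1 : p x
      · rw [ind_pos h1, ind_neg (not_not.2 h1)]
        have := hi (x⁻¹ * y = t)
        omega
      · rw [ind_neg h1, ind_pos h1]
        have := hi (x⁻¹ * y = t')
        omega
    have hadj : ∀ x y : Γ, ind (x⁻¹ * y = t) * ind (p x) + ind (x⁻¹ * y = t') * ind (¬ p x) ≠ 0 →
        G.Adj (x, false) (y, true) := by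
      intro x y h
      by_cases h1 : x⁻¹ * y = t
      · rw [hrec _ _ _ h1]
        exact ht x
      · by_cases h2 : x⁻¹ * y = t'
        · rw [hrec _ _ _ h2]
          exact ht' x
        · rw [ind_neg h1, ind_neg h2] at h
          exact absurd (by ring) h
    refine cv_even _ ?_ ?_ ?_ ?_
    · rintro ⟨x, _ | _⟩ ⟨y, _ | _⟩
      · show ind (x⁻¹ * y = c) = ind (y⁻¹ * x = c)
        apply ind_iff
        rw [← inv_inj, mul_inv_rev, inv_inv, hself]
      · rfl
      · rfl
      · rfl
    · rintro ⟨x, _ | _⟩ ⟨y, _ | _⟩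
      · exact hi _
      · exact hle x y
      · exact hle y x
      · exact Nat.zero_le _
    · rintro ⟨x, _ | _⟩ ⟨y, _ | _⟩ h
      · have h1 : x⁻¹ * y = c := by
          by_contra hn
          exact h (ind_neg hn)
        rw [hrec _ _ _ h1]
        exact hc x
      · exact hadj x y h
      · exact (hadj y x h).symm
      · exact absurd rfl h
    · rintro ⟨x, _ | _⟩
      · rw [sum_prod_bool]
        show Even (∑ y, ind (x⁻¹ * y = c) + ∑ y, (ind (x⁻¹ * y = t) * ind (p x) +
          ind (x⁻¹ * y = t') * ind (¬ p x)))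
        have h1 := sum_at x c (fun _ => 1)
        simp only [mul_one] at h1
        rw [Finset.sum_add_distrib, h1, sum_at x t (fun _ => ind (p x)),
          sum_at x t' (fun _ => ind (¬ p x))]
        by_cases h2 : p x
        · rw [ind_pos h2, ind_neg (not_not.2 h2)]
          exact ⟨1, rfl⟩
        · rw [ind_neg h2, ind_pos h2]
          exact ⟨1, rfl⟩
      · rw [sum_prod_bool]
        show Even (∑ y, (ind (y⁻¹ * x = t) * ind (p y) + ind (y⁻¹ * x = t') * ind (¬ p y)) +
          ∑ y : Γ, 0)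
        rw [Finset.sum_add_distrib, sum_at' x t (fun y => ind (p y)),
          sum_at' x t' (fun y => ind (¬ p y)), Finset.sum_const_zero, add_zero]
        have h1 : x * t'⁻¹ = x * t⁻¹ * z := by rw [hzdef]; group
        have h2 := hp (x * t⁻¹)
        rw [← h1] at h2
        by_cases h3 : p (x * t⁻¹)
        · have h4 : ¬ p (x * t'⁻¹) := fun h => h2.1 h h3
          rw [ind_pos h3, ind_pos h4]
          exact ⟨1, rfl⟩
        · have h4 : p (x * t'⁻¹) := h2.2 h3
          rw [ind_neg h3, ind_neg (not_not.2 h4)]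
          exact ⟨0, rfl⟩
  have m1 := main p hp
  have m2 := main (fun b => ¬ p b) (fun b => by rw [hp])
  refine (m1.add m2).congr ?_
  have hpq : ∀ q : Prop, ind q + ind (¬ q) = 1 := by
    intro q
    by_cases h : q
    · rw [ind_pos h, ind_neg (not_not.2 h)]
    · rw [ind_neg h, ind_pos h]
  have hnn : ∀ q : Prop, ind (¬ ¬ q) = ind q := fun q => ind_iff not_not
  have hfin : ∀ (A B P : ℕ) (q : Prop), A * ind q + B * ind (¬ q) +
      (A * ind (¬ q) + B * ind (¬ ¬ q)) = A + B := by
    intro A B P q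
    rw [hnn]
    have := hpq q
    calc A * ind q + B * ind (¬ q) + (A * ind (¬ q) + B * ind q)
        = (A + B) * (ind q + ind (¬ q)) := by ring
      _ = A + B := by rw [this, mul_one]
  rintro ⟨x, _ | _⟩ ⟨y, _ | _⟩
  · rfl
  · exact hfin _ _ 0 (p x)
  · exact hfin _ _ 0 (p y)
  · rfl

end Pool.Agent.R759.BS
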