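import Pool.Agent.R759.BSBase

set_option autoImplicit false
set_option linter.unusedSectionVars false

/-!
Circuit covers of graphs with a group acting semiregularly with two orbits: balanced spokes.
-/

open scoped Classical

namespace Pool.Agent.R759.BS

open Finset Pool.Agent.TH505.OCDC Pool.Agent.R759.OC Pool.Agent.R759.CW Pool.Agent.R759.BW

variable {Γ : Type} [Group Γ] [Fintype Γ] {G : SimpleGraph (Γ × Bool)}

/-- exchange of the orbits -/
def sw (v : Γ × Bool) : Γ × Bool := (v.1, !v.2)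

lemma sw_sw (v : Γ × Bool) : sw (sw v) = v := by
  obtain ⟨x, _ | _⟩ := v <;> rfl

lemma swapCv {σ α β : Γ → ℕ} (h : Cv (G.comap sw) (W σ α β)) :
    Cv G (W (fun s => σ s⁻¹) β α) := by
  let E : Γ × Bool ≃ Γ × Bool := ⟨sw, sw, sw_sw, sw_sw⟩
  refine (transfer (K := G.comap sw) (fun e u v => e (sw u) (sw v)) ?_ ?_ ?_ h).congr ?_
  · intro e e' u v
    rfl
  · intro u v
    rfl
  · intro e e1 e2 e3 e4
    refine ⟨fun u v => e1 _ _, fun u v => e2 _ _, ?_, ?_⟩
    · intro u v h'
      have h5 : G.Adj (sw (sw u)) (sw (sw v)) := e3 _ _ h'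
      rwa [sw_sw, sw_sw] at h5
    · intro u
      have h5 : ∑ v, e (sw u) (sw v) = ∑ v, e (sw u) v := Equiv.sum_comp E (fun v => e (sw u) v)
      show Even (∑ v, e (sw u) (sw v))
      rw [h5]
      exact e4 _
  · rintro ⟨x, _ | _⟩ ⟨y, _ | _⟩
    · rfl
    · show σ (y⁻¹ * x) = σ (x⁻¹ * y)⁻¹
      congr 1
      group
    · show σ (x⁻¹ * y) = σ (y⁻¹ * x)⁻¹
      congr 1
      group
    · rfl

/-- an involution of the first orbit and two spokes -/
lemma piece_c (c t t' : Γ) (hcc : c * c = 1) (htt : t ≠ t')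
    (ht : ∀ x, G.Adj (x, false) (x * t, true))
    (ht' : ∀ x, G.Adj (x, false) (x * t', true)) (hc : ∀ x, G.Adj (x, false) (x * c, false)) :
    Cv G (W (fun r => one t r + one t' r) (fun r => one c r + one c r) (fun _ => 0)) := by
  have hc1 : c ≠ 1 := by
    rintro rfl
    have := hc 1
    rw [mul_one] at this
    exact this.ne rfl
  by_cases hz : t * t'⁻¹ * (t * t'⁻¹) = 1
  · exact piece_c2 c t t' hcc htt hz ht ht' hc
  · exact piece_c1 c t t' hcc hc1 hz ht ht' hc

/-- an involution of the second orbit and two spokes -/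
lemma piece_d (d s s' : Γ) (hdd : d * d = 1) (hss : s ≠ s')
    (hs : ∀ x, G.Adj (x, false) (x * s, true))
    (hs' : ∀ x, G.Adj (x, false) (x * s', true)) (hd : ∀ x, G.Adj (x, true) (x * d, true)) :
    Cv G (W (fun r => one s r + one s' r) (fun _ => 0) (fun r => one d r + one d r)) := by
  have back : ∀ s : Γ, (∀ x, G.Adj (x, false) (x * s, true)) →
      ∀ x, (G.comap sw).Adj (x, false) (x * s⁻¹, true) := by
    intro s hs x
    have := hs (x * s⁻¹)
    rw [inv_mul_cancel_right] at this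
    exact this.symm
  have h := piece_c (G := G.comap sw) d s⁻¹ s'⁻¹ hdd (fun h => hss (inv_injective h))
    (back s hs) (back s' hs') (fun x => hd x)
  refine (swapCv h).congr ?_
  have h1 : ∀ s r : Γ, one s⁻¹ r⁻¹ = one s r := fun s r => ind_iff inv_inj
  rintro ⟨x, _ | _⟩ ⟨y, _ | _⟩
  · rfl
  · show one s⁻¹ (x⁻¹ * y)⁻¹ + one s'⁻¹ (x⁻¹ * y)⁻¹ = one s (x⁻¹ * y) + one s' (x⁻¹ * y)
    rw [h1, h1]
  · show one s⁻¹ (y⁻¹ * x)⁻¹ + one s'⁻¹ (y⁻¹ * x)⁻¹ = one s (y⁻¹ * x) + one s' (y⁻¹ * x)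
    rw [h1, h1]
  · rfl

/-- an involution of each orbit and two spokes -/
lemma piece_cd (c d s s' : Γ) (hcc : c * c = 1) (hdd : d * d = 1)
    (hs : ∀ x, G.Adj (x, false) (x * s, true))
    (hs' : ∀ x, G.Adj (x, false) (x * s', true)) (hc : ∀ x, G.Adj (x, false) (x * c, false))
    (hd : ∀ x, G.Adj (x, true) (x * d, true)) :
    Cv G (W (fun r => one s r + one s' r) (fun r => one c r + one c r)
      (fun r => one d r + one d r)) := by
  refine ((piece_q s c d hcc hdd hs hc hd).add (piece_q s' c d hcc hdd hs' hc hd)).congr ?_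
  rintro ⟨x, _ | _⟩ ⟨y, _ | _⟩ <;> rfl

lemma two_le_sum (α : Γ → ℕ) {a b : Γ} (h : a ≠ b) : α a + α b ≤ ∑ s, α s := by
  have h1 : ∑ x ∈ ({a, b} : Finset Γ), α x = α a + α b := by
    rw [Finset.sum_insert, Finset.sum_singleton]
    rw [mem_singleton]
    exact h
  rw [← h1]
  exact Finset.sum_le_sum_of_subset (subset_univ _)

/-- what to subtract on one side -/
lemma side (n : ℕ) (hn : 2 ≤ n) (α : Γ → ℕ) (hinv : ∀ a, α a⁻¹ = α a)
    (hev : Even (n + ∑ a, α a)) (hmax : ∀ c, c * c = 1 → 2 * α c ≤ n + ∑ a, α a) :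
    ∃ ε : Γ → ℕ, ((ε = fun _ => 0) ∨ ∃ c, c * c = 1 ∧ α c ≠ 0 ∧ ε = fun r => one c r + one c r) ∧
      (∀ a, ε a ≤ α a) ∧ (∀ a, α a⁻¹ - ε a⁻¹ = α a - ε a) ∧ Even (∑ a, (α a - ε a) + n) ∧
      (∀ c, c * c = 1 → 2 * (α c - ε c) ≤ (n - 2) + ∑ a, (α a - ε a)) := by
  by_cases h : ∃ c, c * c = 1 ∧ 2 * α c = n + ∑ a, α a
  · obtain ⟨c, hcc, hc⟩ := h
    have h1 : α c ≤ ∑ a, α a := Finset.single_le_sum (fun _ _ => Nat.zero_le _) (mem_univ c)
    have hself : c⁻¹ = c := inv_eq_of_mul_eq_one_left hcc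
    have hle : ∀ a, one c a + one c a ≤ α a := by
      intro a
      unfold one
      by_cases h2 : a = c
      · rw [ind_pos h2, h2]
        omega
      · rw [ind_neg h2]
        omega
    have hs := sum_sub' α (fun a => one c a + one c a) hle
    rw [sum_two] at hs
    refine ⟨fun r => one c r + one c r, Or.inr ⟨c, hcc, by omega, rfl⟩, hle, ?_, ?_, ?_⟩
    · intro a
      have e : one c a⁻¹ = one c a := ind_iff (by rw [inv_eq_iff_eq_inv, hself])
      show α a⁻¹ - (one c a⁻¹ + one c a⁻¹) = α a - (one c a + one c a)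
      rw [e, hinv]
    · show Even (∑ a, (α a - (one c a + one c a)) + n)
      rw [Nat.even_iff] at hev ⊢
      omega
    · intro b hb
      show 2 * (α b - (one c b + one c b)) ≤ (n - 2) + ∑ a, (α a - (one c a + one c a))
      by_cases h2 : b = c
      · have h3 : one c b = 1 := ind_pos h2
        rw [h3, h2]
        omega
      · have h3 := two_le_sum α h2
        omega
  · refine ⟨fun _ => 0, Or.inl rfl, fun _ => Nat.zero_le _, ?_, ?_, ?_⟩
    · intro a
      show α a⁻¹ - 0 = α a - 0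
      rw [hinv]
    · simp only [Nat.sub_zero]
      rw [add_comm]
      exact hev
    · intro b hb
      have h1 := hmax b hb
      have h2 : 2 * α b ≠ n + ∑ a, α a := fun h3 => h ⟨b, hb, h3⟩
      simp only [Nat.sub_zero]
      rw [Nat.even_iff] at hev
      omega

/-- an involution of odd use -/
lemma odd_side (n : ℕ) (hn : 3 ≤ n) (hodd : ¬ Even n) (α : Γ → ℕ) (hinv : ∀ a, α a⁻¹ = α a)
    (hev : Even (n + ∑ a, α a)) (hmax : ∀ c, c * c = 1 → 2 * α c ≤ n + ∑ a, α a) :
    ∃ c, c * c = 1 ∧ α c ≠ 0 ∧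
      (∀ a, one c a ≤ α a) ∧ (∀ a, α a⁻¹ - one c a⁻¹ = α a - one c a) ∧
      ∑ a, (α a - one c a) + 1 = ∑ a, α a ∧
      (∀ b, b * b = 1 → 2 * (α b - one c b) ≤ (n - 1) + ∑ a, (α a - one c a)) := by
  have h0 : ∃ c, c * c = 1 ∧ α c ≠ 0 := by
    by_contra hcon
    push Not at hcon
    apply hodd
    have h1 := even_sum α hinv (fun a ha h => ha (hcon a h))
    rw [Nat.even_iff] at h1 hev ⊢
    omega
  obtain ⟨c, hcc, hc, hm⟩ : ∃ c, c * c = 1 ∧ α c ≠ 0 ∧ ∀ b, b * b = 1 → α b ≤ α c := by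
    obtain ⟨a0, h1, h2⟩ := h0
    obtain ⟨a, ha, hm⟩ := Finset.exists_max_image (univ.filter (fun s : Γ => s * s = 1)) α
      ⟨a0, by simp [h1]⟩
    have ha' : a * a = 1 := (mem_filter.1 ha).2
    refine ⟨a, ha', ?_, fun b hb => hm b (by simp [hb])⟩
    have := hm a0 (by simp [h1])
    omega
  have hself : c⁻¹ = c := inv_eq_of_mul_eq_one_left hcc
  have hle : ∀ a, one c a ≤ α a := by
    intro a
    unfold one
    by_cases h2 : a = c
    · rw [ind_pos h2, h2]
      omega
    · rw [ind_neg h2]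
      omega
  have hs := sum_sub' α (one c) hle
  have h1 : ∑ a, one c a = 1 := sum_ind_eq c
  rw [h1] at hs
  refine ⟨c, hcc, hc, hle, ?_, hs, ?_⟩
  · intro a
    have e : one c a⁻¹ = one c a := ind_iff (by rw [inv_eq_iff_eq_inv, hself])
    rw [e, hinv]
  · intro b hb
    by_cases h2 : b = c
    · have h3 : one c b = 1 := ind_pos h2
      have h4 := hmax b hb
      rw [h3]
      omega
    · have h3 := two_le_sum α h2
      have h4 := hm b hb
      omega

theorem cover3 (n : ℕ) : ∀ σ α β : Γ → ℕ, ∑ s, σ s = n →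
      (∀ a, α a⁻¹ = α a) → (∀ a, β a⁻¹ = β a) →
      (∀ s, σ s ≠ 0 → ∀ x, G.Adj (x, false) (x * s, true)) →
      (∀ a, α a ≠ 0 → ∀ x, G.Adj (x, false) (x * a, false)) →
      (∀ a, β a ≠ 0 → ∀ x, G.Adj (x, true) (x * a, true)) →
      Even (n + ∑ s, α s) → Even (n + ∑ s, β s) → (∀ s, 2 * σ s ≤ n) →
      (∀ c, c * c = 1 → 2 * α c ≤ n + ∑ a, α a) →
      (∀ c, c * c = 1 → 2 * β c ≤ n + ∑ a, β a) → Cv G (W σ α β) := by
  induction n using Nat.strong_induction_on with
  | _ n ih =>
  intro σ α β hn hα hβ aσ aα aβ e0 e1 hσ mα mβ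
  by_cases h0 : n = 0
  · -- no spokes
    subst h0
    have hz : ∀ s, σ s = 0 := by
      intro s
      have := hσ s
      omega
    rw [Nat.zero_add] at e0 e1
    have i0 := inner (G := G) false α hα aα e0 (fun c hc => by
      have := mα c hc
      omega)
    have i1 := inner (G := G) true β hβ aβ e1 (fun c hc => by
      have := mβ c hc
      omega)
    refine (i0.add i1).congr ?_
    rintro ⟨x, _ | _⟩ ⟨y, _ | _⟩
    · show α (x⁻¹ * y) + 0 = α (x⁻¹ * y)
      rfl
    · exact (hz _).symm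
    · exact (hz _).symm
    · show 0 + β (x⁻¹ * y) = β (x⁻¹ * y)
      rw [zero_add]
  by_cases hpar : Even n
  · -- an even number of spokes
    have hn2 : 2 ≤ n := by
      rw [Nat.even_iff] at hpar
      omega
    obtain ⟨s, hs, hmax⟩ : ∃ s, σ s ≠ 0 ∧ ∀ t, σ t ≤ σ s := by
      have h1 : ∑ s, σ s ≠ 0 := by omega
      obtain ⟨t, -, ht⟩ := Finset.exists_ne_zero_of_sum_ne_zero h1
      obtain ⟨s, -, hm⟩ := Finset.exists_max_image univ σ ⟨t, mem_univ t⟩
      refine ⟨s, ?_, fun t => hm t (mem_univ t)⟩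
      have := hm t (mem_univ t)
      omega
    obtain ⟨s', hs's, hs'⟩ : ∃ s', s' ≠ s ∧ σ s' ≠ 0 := by
      by_contra hcon
      push Not at hcon
      have h1 : ∑ t, σ t = σ s := by
        refine Finset.sum_eq_single s ?_ ?_
        · intro t _ ht
          exact hcon t ht
        · intro h
          exact absurd (mem_univ _) h
      have h2 := hσ s
      omega
    have hle : ∀ t, one s t + one s' t ≤ σ t := by
      intro t
      unfold one
      by_cases h2 : t = s
      · rw [ind_pos h2, ind_neg (by rw [h2]; exact hs's.symm), h2]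
        omega
      · by_cases h3 : t = s'
        · rw [ind_neg h2, ind_pos h3, h3]
          omega
        · rw [ind_neg h2, ind_neg h3]
          omega
    have hsum := sum_sub' σ (fun t => one s t + one s' t) hle
    rw [sum_two, hn] at hsum
    obtain ⟨ε, hε, l0, i0, v0, m0⟩ := side n hn2 α hα e0 mα
    obtain ⟨ζ, hζ, l1, i1, v1, m1⟩ := side n hn2 β hβ e1 mβ
    have gs := aσ s hs
    have gs' := aσ s' hs'
    have hpiece : Cv G (W (fun t => one s t + one s' t) ε ζ) := by
      rcases hε with rfl | ⟨c, hcc, hc, rfl⟩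
      · rcases hζ with rfl | ⟨d, hdd, hd, rfl⟩
        · exact piece_ss s s' hs's.symm gs gs'
        · exact piece_d d s s' hdd hs's.symm gs gs' (aβ d hd)
      · rcases hζ with rfl | ⟨d, hdd, hd, rfl⟩
        · exact piece_c c s s' hcc hs's.symm gs gs' (aα c hc)
        · exact piece_cd c d s s' hcc hdd gs gs' (aα c hc) (aβ d hd)
    refine stepW σ α β _ _ _ hle l0 l1 hpiece ?_
    refine ih (n - 2) (by omega) _ _ _ ?_ i0 i1 ?_ ?_ ?_ ?_ ?_ ?_ m0 m1
    · omega
    · intro t ht
      exact aσ t (fun h => ht (by show σ t - _ = 0; omega))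
    · intro t ht
      exact aα t (fun h => ht (by show α t - _ = 0; omega))
    · intro t ht
      exact aβ t (fun h => ht (by show β t - _ = 0; omega))
    · rw [Nat.even_iff] at v0 ⊢
      omega
    · rw [Nat.even_iff] at v1 ⊢
      omega
    · intro t
      show 2 * (σ t - (one s t + one s' t)) ≤ n - 2
      have h4 := hσ t
      by_cases h2 : t = s
      · have h5 : one s t = 1 := ind_pos h2
        omega
      by_cases h3 : t = s'
      · have h5 : one s' t = 1 := ind_pos h3
        omega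
      have h5 : ∑ x ∈ ({s, s', t} : Finset Γ), σ x = σ s + (σ s' + σ t) := by
        rw [Finset.sum_insert, Finset.sum_insert, Finset.sum_singleton]
        · rw [mem_singleton]
          exact fun h => h3 h.symm
        · rw [mem_insert, mem_singleton]
          rintro (h | h)
          · exact hs's h.symm
          · exact h2 h.symm
      have h6 : ∑ x ∈ ({s, s', t} : Finset Γ), σ x ≤ ∑ x, σ x :=
        Finset.sum_le_sum_of_subset (subset_univ _)
      have h7 := hmax t
      rw [Nat.even_iff] at hpar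
      omega
  · -- an odd number of spokes
    have h1 : ∑ s, σ s ≠ 0 := by omega
    obtain ⟨s, -, hs⟩ := Finset.exists_ne_zero_of_sum_ne_zero h1
    have hn3 : 3 ≤ n := by
      have := hσ s
      have h2 : n ≠ 2 := by
        rintro rfl
        exact hpar ⟨1, rfl⟩
      omega
    obtain ⟨c, hcc, hc, l0, i0, s0, m0⟩ := odd_side n hn3 hpar α hα e0 mα
    obtain ⟨d, hdd, hd, l1, i1, s1, m1⟩ := odd_side n hn3 hpar β hβ e1 mβ
    have hle : ∀ t, one s t ≤ σ t := by
      intro t
      unfold one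
      by_cases h2 : t = s
      · rw [ind_pos h2, h2]
        omega
      · rw [ind_neg h2]
        omega
    have hsum := sum_sub' σ (one s) hle
    have h2 : ∑ a, one s a = 1 := sum_ind_eq s
    rw [h2, hn] at hsum
    refine stepW σ α β _ _ _ hle l0 l1
      (piece_q s c d hcc hdd (aσ s hs) (aα c hc) (aβ d hd)) ?_
    refine ih (n - 1) (by omega) _ _ _ ?_ i0 i1 ?_ ?_ ?_ ?_ ?_ ?_ m0 m1
    · omega
    · intro t ht
      exact aσ t (fun h => ht (by show σ t - _ = 0; omega))
    · intro t ht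
      exact aα t (fun h => ht (by show α t - _ = 0; omega))
    · intro t ht
      exact aβ t (fun h => ht (by show β t - _ = 0; omega))
    · rw [Nat.even_iff] at e0 ⊢
      omega
    · rw [Nat.even_iff] at e1 ⊢
      omega
    · intro t
      show 2 * (σ t - one s t) ≤ n - 1
      have h4 := hσ t
      rw [Nat.not_even_iff_odd] at hpar
      obtain ⟨k, hk⟩ := hpar
      omega

end Pool.Agent.R759.BS
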