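import Pool.Agent.R759.CWMain

set_option autoImplicit false
set_option linter.unusedSectionVars false

/-!
Circuit covers of graphs with a group acting freely with two orbits: pieces.
-/

namespace Pool.Agent.R759.BW

open Finset Pool.Agent.TH505.OCDC Pool.Agent.R759.OC Pool.Agent.R759.CW

variable {Γ : Type} [Group Γ] [Fintype Γ] {G : SimpleGraph (Γ × Bool)}

/-- invariant weightings -/
def W (σ α β : Γ → ℕ) : Γ × Bool → Γ × Bool → ℕ
  | (x, false), (y, true) => σ (x⁻¹ * y)
  | (x, true), (y, false) => σ (y⁻¹ * x)
  | (x, false), (y, false) => α (x⁻¹ * y)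
  | (x, true), (y, true) => β (x⁻¹ * y)

/-- one class -/
noncomputable def one (s : Γ) : Γ → ℕ := fun t => ind (t = s)

lemma pair_ext {x y : Γ} {i j : Bool} (h : (x, i) = (y, j)) : x = y ∧ i = j := by
  rw [Prod.mk.injEq] at h
  exact h

lemma ind_iff {p q : Prop} (h : p ↔ q) : ind p = ind q := by
  rw [propext h]

/-- the permutation for two spokes -/
def sigS (s s' : Γ) : Equiv.Perm (Γ × Bool) where
  toFun i := match i with
    | (x, false) => (x, true)
    | (x, true) => (x * s * s'⁻¹, false)
  invFun i := match i with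
    | (x, true) => (x, false)
    | (x, false) => (x * s' * s⁻¹, true)
  left_inv := by
    rintro ⟨x, _ | _⟩
    · rfl
    · show (x * s * s'⁻¹ * s' * s⁻¹, true) = (x, true)
      rw [inv_mul_cancel_right, mul_inv_cancel_right]
  right_inv := by
    rintro ⟨x, _ | _⟩
    · show (x * s' * s⁻¹ * s * s'⁻¹, false) = (x, false)
      rw [inv_mul_cancel_right, mul_inv_cancel_right]
    · rfl

/-- two classes of spokes -/
lemma piece_ss (s s' : Γ) (hss : s ≠ s') (hs : ∀ x, G.Adj (x, false) (x * s, true))
    (hs' : ∀ x, G.Adj (x, false) (x * s', true)) :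
    Cv G (W (fun t => one s t + one s' t) (fun _ => 0) (fun _ => 0)) := by
  classical
  have hd := Dec.of_inv (G := G) (I := Γ × Bool) (K := Unit)
    (fun i => match i with | (x, false) => (x, false) | (x, true) => (x * s, true))
    (fun i => match i with | (x, false) => (x * s, true) | (x, true) => (x * s * s'⁻¹, false))
    (sigS s s') (fun _ => ()) (fun _ => rfl) ?_ ?_ ?_ ?_
  · refine (Cv.of_dec hd).congr ?_
    have key : ∀ x y : Γ × Bool, ind (∃ i : Γ × Bool,
        (match i with | (x, false) => (x, false) | (x, true) => (x * s, true)) = x ∧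
        (match i with | (x, false) => (x * s, true) | (x, true) => (x * s * s'⁻¹, false)) = y)
        = ind ((x.2 = false ∧ y.2 = true ∧ x.1⁻¹ * y.1 = s) ∨
          (x.2 = true ∧ y.2 = false ∧ y.1⁻¹ * x.1 = s')) := by
      rintro ⟨x, i⟩ ⟨y, j⟩
      apply ind_iff
      constructor
      · rintro ⟨⟨z, _ | _⟩, h1, h2⟩
        · obtain ⟨h3, h4⟩ := pair_ext h1
          obtain ⟨h5, h6⟩ := pair_ext h2
          subst h3 h4 h5 h6
          left
          exact ⟨rfl, rfl, inv_mul_cancel_left _ _⟩
        · obtain ⟨h3, h4⟩ := pair_ext h1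
          obtain ⟨h5, h6⟩ := pair_ext h2
          subst h3 h4 h5 h6
          right
          refine ⟨rfl, rfl, ?_⟩
          show (z * s * s'⁻¹)⁻¹ * (z * s) = s'
          group
      · rintro (⟨h1, h2, h3⟩ | ⟨h1, h2, h3⟩)
        · have h1' : i = false := h1
          have h2' : j = true := h2
          have h3' : x⁻¹ * y = s := h3
          subst h1' h2' h3'
          refine ⟨(x, false), rfl, ?_⟩
          show (x * (x⁻¹ * y), true) = (y, true)
          rw [mul_inv_cancel_left]
        · have h1' : i = true := h1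
          have h2' : j = false := h2
          have h3' : y⁻¹ * x = s' := h3
          subst h1' h2' h3'
          refine ⟨(x * s⁻¹, true), ?_, ?_⟩
          · show (x * s⁻¹ * s, true) = (x, true)
            rw [inv_mul_cancel_right]
          · show (x * s⁻¹ * s * (y⁻¹ * x)⁻¹, false) = (y, false)
            congr 1
            group
    rintro ⟨x, _ | _⟩ ⟨y, _ | _⟩
    · rw [key, key]
      show _ = 0
      rw [ind_neg (by simp), ind_neg (by simp)]
    · rw [key, key]
      show _ = ind (x⁻¹ * y = s) + ind (x⁻¹ * y = s')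
      congr 1
      · apply ind_iff
        simp
      · apply ind_iff
        simp
    · rw [key, key]
      show _ = ind (y⁻¹ * x = s) + ind (y⁻¹ * x = s')
      rw [add_comm]
      congr 1
      · apply ind_iff
        simp
      · apply ind_iff
        simp
    · rw [key, key]
      show _ = 0
      rw [ind_neg (by simp), ind_neg (by simp)]
  · rintro ⟨x, _ | _⟩
    · rfl
    · rfl
  · rintro ⟨x, _ | _⟩
    · exact hs x
    · have := hs' (x * s * s'⁻¹)
      rw [inv_mul_cancel_right] at this
      exact this.symm
  · rintro ⟨x, _ | _⟩ ⟨y, _ | _⟩ h1 h2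
    · obtain ⟨h3, -⟩ := pair_ext h1
      rw [h3]
    · exact absurd (pair_ext h1).2 (by simp)
    · exact absurd (pair_ext h1).2 (by simp)
    · obtain ⟨h3, -⟩ := pair_ext h1
      rw [mul_right_cancel h3]
  · rintro ⟨x, _ | _⟩ ⟨y, _ | _⟩ _ h1 h2
    · exact absurd (pair_ext h1).2 (by simp)
    · obtain ⟨h3, -⟩ := pair_ext h1
      obtain ⟨h4, -⟩ := pair_ext h2
      rw [h3] at h4
      apply hss
      have h5 : x * (s * s'⁻¹) = x := by rw [← mul_assoc]; exact h4
      exact mul_inv_eq_one.1 (mul_eq_left.1 h5)
    · obtain ⟨h3, -⟩ := pair_ext h1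
      obtain ⟨h4, -⟩ := pair_ext h2
      have h6 : y * s = x * s := h4
      rw [mul_right_cancel h6] at h3
      apply hss
      have h5 : x * (s * s'⁻¹) = x := by rw [← mul_assoc]; exact h3.symm
      exact mul_inv_eq_one.1 (mul_eq_left.1 h5)
    · exact absurd (pair_ext h1).2 (by simp)

/-- circuits inside an orbit -/
lemma piece_in (i : Bool) (a : Γ) (haa : a * a ≠ 1) (ha : ∀ x, G.Adj (x, i) (x * a, i)) :
    Cv G (W (fun _ => 0) (fun t => if i = false then one a t + one a⁻¹ t else 0)
      (fun t => if i = true then one a t + one a⁻¹ t else 0)) := by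
  classical
  have hd := Dec.of_inv (G := G) (I := Γ) (K := Unit)
    (fun x => (x, i)) (fun x => (x * a, i)) (Equiv.mulRight a) (fun _ => ()) (fun _ => rfl)
    (fun _ => rfl) ha ?_ ?_
  · refine (Cv.of_dec hd).congr ?_
    have key : ∀ x y : Γ × Bool, ind (∃ z : Γ, (z, i) = x ∧ (z * a, i) = y)
        = ind (x.2 = i ∧ y.2 = i ∧ x.1⁻¹ * y.1 = a) := by
      rintro ⟨x, k⟩ ⟨y, j⟩
      apply ind_iff
      constructor
      · rintro ⟨z, h1, h2⟩
        obtain ⟨h3, h4⟩ := pair_ext h1
        obtain ⟨h5, h6⟩ := pair_ext h2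
        subst h3 h4 h5
        exact ⟨rfl, h6.symm, inv_mul_cancel_left _ _⟩
      · rintro ⟨h1, h2, h3⟩
        have h1' : k = i := h1
        have h2' : j = i := h2
        have h3' : x⁻¹ * y = a := h3
        subst h1' h2' h3'
        refine ⟨x, rfl, ?_⟩
        rw [mul_inv_cancel_left]
    have hsw : ∀ x y : Γ, ind (y⁻¹ * x = a) = ind (x⁻¹ * y = a⁻¹) := by
      intro x y
      apply ind_iff
      rw [← inv_inj, mul_inv_rev, inv_inv]
    rintro ⟨x, _ | _⟩ ⟨y, _ | _⟩ <;> cases i
    · rw [key, key]
      show _ = ind (x⁻¹ * y = a) + ind (x⁻¹ * y = a⁻¹)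
      rw [← hsw]
      congr 1
      · exact ind_iff (by simp)
      · exact ind_iff (by simp)
    · rw [key, key]
      show _ = 0
      rw [ind_neg (by simp), ind_neg (by simp)]
    · rw [key, key]
      show _ = 0
      rw [ind_neg (by simp), ind_neg (by simp)]
    · rw [key, key]
      show _ = 0
      rw [ind_neg (by simp), ind_neg (by simp)]
    · rw [key, key]
      show _ = 0
      rw [ind_neg (by simp), ind_neg (by simp)]
    · rw [key, key]
      show _ = 0
      rw [ind_neg (by simp), ind_neg (by simp)]
    · rw [key, key]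
      show _ = 0
      rw [ind_neg (by simp), ind_neg (by simp)]
    · rw [key, key]
      show _ = ind (x⁻¹ * y = a) + ind (x⁻¹ * y = a⁻¹)
      rw [← hsw]
      congr 1
      · exact ind_iff (by simp)
      · exact ind_iff (by simp)
  · intro x y h1 _
    exact (pair_ext h1).1
  · intro x y _ h1 h2
    have h1' := (pair_ext h1).1
    have h2' := (pair_ext h2).1
    rw [h1'] at h2'
    exact haa (aux2 h2')

/-- the permutation for mixed closed trails -/
def sigM (s a b : Γ) : Equiv.Perm (Γ × Bool × Bool) where
  toFun i := match i with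
    | (x, false, false) => (x, false, true)
    | (x, false, true) => (x, true, false)
    | (x, true, false) => (x, true, true)
    | (x, true, true) => (x * a * s * b * s⁻¹, false, false)
  invFun i := match i with
    | (x, false, true) => (x, false, false)
    | (x, true, false) => (x, false, true)
    | (x, true, true) => (x, true, false)
    | (x, false, false) => (x * s * b⁻¹ * s⁻¹ * a⁻¹, true, true)
  left_inv := by
    rintro ⟨x, _ | _, _ | _⟩
    · rfl
    · rfl
    · rfl
    · show (x * a * s * b * s⁻¹ * s * b⁻¹ * s⁻¹ * a⁻¹, true, true) = (x, true, true)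
      congr 1
      group
  right_inv := by
    rintro ⟨x, _ | _, _ | _⟩
    · show (x * s * b⁻¹ * s⁻¹ * a⁻¹ * a * s * b * s⁻¹, false, false) = (x, false, false)
      congr 1
      group
    · rfl
    · rfl
    · rfl

/-- tails -/
def tM (s a b : Γ) : Γ × Bool × Bool → Γ × Bool
  | (x, false, false) => (x, false)
  | (x, false, true) => (x * a, false)
  | (x, true, false) => (x * a * s, true)
  | (x, true, true) => (x * a * s * b, true)

/-- heads -/
def hM (s a b : Γ) : Γ × Bool × Bool → Γ × Bool
  | (x, false, false) => (x * a, false)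
  | (x, false, true) => (x * a * s, true)
  | (x, true, false) => (x * a * s * b, true)
  | (x, true, true) => (x * a * s * b * s⁻¹, false)

/-- mixed closed trails -/
lemma piece_m (s a b : Γ) (haa : a * a ≠ 1) (hbb : b * b ≠ 1)
    (hs : ∀ x, G.Adj (x, false) (x * s, true)) (ha : ∀ x, G.Adj (x, false) (x * a, false))
    (hb : ∀ x, G.Adj (x, true) (x * b, true))
    (hz : a ∉ Subgroup.zpowers (a * (s * b * s⁻¹))) :
    Cv G (W (fun t => one s t + one s t) (fun t => one a t + one a⁻¹ t)
      (fun t => one b t + one b⁻¹ t)) := by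
  classical
  have hg : ∀ x : Γ, x * a * s * b * s⁻¹ = x * (a * (s * b * s⁻¹)) := by
    intro x
    group
  have hd := Dec.of_inv (G := G) (I := Γ × Bool × Bool)
    (K := Γ ⧸ Subgroup.zpowers (a * (s * b * s⁻¹))) (tM s a b) (hM s a b) (sigM s a b)
    (fun i => QuotientGroup.mk i.1) ?_ ?_ ?_ ?_ ?_
  · refine (Cv.of_dec hd).congr ?_
    have key : ∀ x y : Γ × Bool, ind (∃ i, tM s a b i = x ∧ hM s a b i = y)
        = W (one s) (one a) (one b) x y := by
      rintro ⟨x, _ | _⟩ ⟨y, _ | _⟩
      · show _ = ind (x⁻¹ * y = a)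
        apply ind_iff
        constructor
        · rintro ⟨⟨z, _ | _, _ | _⟩, h1, h2⟩
          · obtain ⟨h3, -⟩ := pair_ext h1
            obtain ⟨h4, -⟩ := pair_ext h2
            subst h3 h4
            exact inv_mul_cancel_left _ _
          · exact absurd (pair_ext h2).2 (by simp)
          · exact absurd (pair_ext h2).2 (by simp)
          · exact absurd (pair_ext h1).2 (by simp)
        · rintro rfl
          refine ⟨(x, false, false), rfl, ?_⟩
          show (x * (x⁻¹ * y), false) = (y, false)
          rw [mul_inv_cancel_left]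
      · show _ = ind (x⁻¹ * y = s)
        apply ind_iff
        constructor
        · rintro ⟨⟨z, _ | _, _ | _⟩, h1, h2⟩
          · exact absurd (pair_ext h2).2 (by simp)
          · obtain ⟨h3, -⟩ := pair_ext h1
            obtain ⟨h4, -⟩ := pair_ext h2
            subst h3 h4
            exact inv_mul_cancel_left _ _
          · exact absurd (pair_ext h1).2 (by simp)
          · exact absurd (pair_ext h1).2 (by simp)
        · rintro rfl
          refine ⟨(x * a⁻¹, false, true), ?_, ?_⟩
          · show (x * a⁻¹ * a, false) = (x, false)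
            rw [inv_mul_cancel_right]
          · show (x * a⁻¹ * a * (x⁻¹ * y), true) = (y, true)
            rw [inv_mul_cancel_right, mul_inv_cancel_left]
      · show _ = ind (y⁻¹ * x = s)
        apply ind_iff
        constructor
        · rintro ⟨⟨z, _ | _, _ | _⟩, h1, h2⟩
          · exact absurd (pair_ext h1).2 (by simp)
          · exact absurd (pair_ext h1).2 (by simp)
          · exact absurd (pair_ext h2).2 (by simp)
          · obtain ⟨h3, -⟩ := pair_ext h1
            obtain ⟨h4, -⟩ := pair_ext h2
            subst h3 h4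
            group
        · intro h
          have hx : x = y * s := by rw [← h, mul_inv_cancel_left]
          subst hx
          refine ⟨(y * s * b⁻¹ * s⁻¹ * a⁻¹, true, true), ?_, ?_⟩
          · show (y * s * b⁻¹ * s⁻¹ * a⁻¹ * a * s * b, true) = (y * s, true)
            congr 1
            group
          · show (y * s * b⁻¹ * s⁻¹ * a⁻¹ * a * s * b * s⁻¹, false) = (y, false)
            congr 1
            group
      · show _ = ind (x⁻¹ * y = b)
        apply ind_iff
        constructor
        · rintro ⟨⟨z, _ | _, _ | _⟩, h1, h2⟩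
          · exact absurd (pair_ext h1).2 (by simp)
          · exact absurd (pair_ext h1).2 (by simp)
          · obtain ⟨h3, -⟩ := pair_ext h1
            obtain ⟨h4, -⟩ := pair_ext h2
            subst h3 h4
            exact inv_mul_cancel_left _ _
          · exact absurd (pair_ext h2).2 (by simp)
        · rintro rfl
          refine ⟨(x * s⁻¹ * a⁻¹, true, false), ?_, ?_⟩
          · show (x * s⁻¹ * a⁻¹ * a * s, true) = (x, true)
            congr 1
            group
          · show (x * s⁻¹ * a⁻¹ * a * s * (x⁻¹ * y), true) = (y, true)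
            congr 1
            group
    have hsw : ∀ (c x y : Γ), ind (y⁻¹ * x = c) = ind (x⁻¹ * y = c⁻¹) := by
      intro c x y
      apply ind_iff
      rw [← inv_inj, mul_inv_rev, inv_inv]
    rintro ⟨x, _ | _⟩ ⟨y, _ | _⟩
    · rw [key, key]
      show ind (x⁻¹ * y = a) + ind (y⁻¹ * x = a) = ind (x⁻¹ * y = a) + ind (x⁻¹ * y = a⁻¹)
      rw [← hsw]
    · rw [key, key]
      rfl
    · rw [key, key]
      rfl
    · rw [key, key]
      show ind (x⁻¹ * y = b) + ind (y⁻¹ * x = b) = ind (x⁻¹ * y = b) + ind (x⁻¹ * y = b⁻¹)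
      rw [← hsw]
  · rintro ⟨x, _ | _, _ | _⟩
    · rfl
    · rfl
    · rfl
    · show (QuotientGroup.mk (x * a * s * b * s⁻¹) :
        Γ ⧸ Subgroup.zpowers (a * (s * b * s⁻¹))) = QuotientGroup.mk x
      rw [hg]
      exact QuotientGroup.mk_mul_of_mem x (Subgroup.mem_zpowers _)
  · rintro ⟨x, _ | _, _ | _⟩
    · rfl
    · rfl
    · rfl
    · rfl
  · rintro ⟨x, _ | _, _ | _⟩
    · exact ha x
    · exact hs (x * a)
    · exact hb (x * a * s)
    · have := hs (x * a * s * b * s⁻¹)
      rw [inv_mul_cancel_right] at this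
      exact this.symm
  · rintro ⟨x, _ | _, _ | _⟩ ⟨y, _ | _, _ | _⟩ h1 h2
    all_goals first
      | exact absurd (pair_ext h1).2 Bool.false_ne_true
      | exact absurd (pair_ext h1).2.symm Bool.false_ne_true
      | exact absurd (pair_ext h2).2 Bool.false_ne_true
      | exact absurd (pair_ext h2).2.symm Bool.false_ne_true
      | skip
    · rw [(pair_ext h1).1]
    · rw [mul_right_cancel (pair_ext h1).1]
    · rw [mul_right_cancel (mul_right_cancel (pair_ext h1).1)]
    · rw [mul_right_cancel (mul_right_cancel (mul_right_cancel (pair_ext h1).1))]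
  · rintro ⟨x, _ | _, _ | _⟩ ⟨y, _ | _, _ | _⟩ h0 h1 h2
    all_goals first
      | exact absurd (pair_ext h1).2 Bool.false_ne_true
      | exact absurd (pair_ext h1).2.symm Bool.false_ne_true
      | exact absurd (pair_ext h2).2 Bool.false_ne_true
      | exact absurd (pair_ext h2).2.symm Bool.false_ne_true
      | skip
    · have h1' : y = x * a := (pair_ext h1).1
      have h2' : y * a = x := (pair_ext h2).1
      rw [h1'] at h2'
      exact haa (aux2 h2')
    · have h1' : y * a * s * b = x * a * s := (pair_ext h1).1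
      have h3 := QuotientGroup.eq.1 h0
      apply hz
      have h4 : a = (x⁻¹ * y) * (a * (s * b * s⁻¹)) := by
        have h5 : x * a = y * a * s * b * s⁻¹ := by
          rw [h1', mul_inv_cancel_right]
        calc a = x⁻¹ * (x * a) := by rw [inv_mul_cancel_left]
        _ = (x⁻¹ * y) * (a * (s * b * s⁻¹)) := by rw [h5]; group
      have h6 := Subgroup.mul_mem _ h3 (Subgroup.mem_zpowers (a * (s * b * s⁻¹)))
      rw [← h4] at h6
      exact h6
    · have h1' : y * a * s = x * a * s * b := (pair_ext h1).1
      have h2' : y * a * s * b = x * a * s := (pair_ext h2).1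
      rw [h1'] at h2'
      exact hbb (aux2 h2')
    · have h1' : y * a = x * a * s * b * s⁻¹ := (pair_ext h1).1
      have h3 := QuotientGroup.eq.1 h0
      apply hz
      have h4 : a = (y⁻¹ * x) * (a * (s * b * s⁻¹)) := by
        calc a = y⁻¹ * (y * a) := by rw [inv_mul_cancel_left]
        _ = (y⁻¹ * x) * (a * (s * b * s⁻¹)) := by rw [h1']; group
      have h5 : y⁻¹ * x ∈ Subgroup.zpowers (a * (s * b * s⁻¹)) := by
        have h7 := Subgroup.inv_mem _ h3
        have h8 : (x⁻¹ * y)⁻¹ = y⁻¹ * x := by group
        have h9 : ((x, true, true) : Γ × Bool × Bool).1⁻¹ * ((y, false, true) : Γ × Bool × Bool).1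
          = x⁻¹ * y := rfl
        rw [h9, h8] at h7
        exact h7
      have h6 := Subgroup.mul_mem _ h5 (Subgroup.mem_zpowers (a * (s * b * s⁻¹)))
      rw [← h4] at h6
      exact h6

end Pool.Agent.R759.BW
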