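import Pool.Agent.R759.BWBase

set_option autoImplicit false
set_option linter.unusedSectionVars false

/-!
Circuit covers of graphs with a group acting freely with two orbits: induction.
-/

namespace Pool.Agent.R759.BW

open Finset Pool.Agent.TH505.OCDC Pool.Agent.R759.OC Pool.Agent.R759.CW

variable {Γ : Type} [Group Γ] [Fintype Γ] {G : SimpleGraph (Γ × Bool)}

lemma stepW (σ α β δ ε ζ : Γ → ℕ) (h1 : ∀ s, δ s ≤ σ s) (h2 : ∀ s, ε s ≤ α s)
    (h3 : ∀ s, ζ s ≤ β s) (hd : Cv G (W δ ε ζ))
    (hr : Cv G (W (fun s => σ s - δ s) (fun s => α s - ε s) (fun s => β s - ζ s))) :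
    Cv G (W σ α β) := by
  refine (hd.add hr).congr ?_
  rintro ⟨x, _ | _⟩ ⟨y, _ | _⟩
  · have := h2 (x⁻¹ * y)
    show ε (x⁻¹ * y) + (α (x⁻¹ * y) - ε (x⁻¹ * y)) = α (x⁻¹ * y)
    omega
  · have := h1 (x⁻¹ * y)
    show δ (x⁻¹ * y) + (σ (x⁻¹ * y) - δ (x⁻¹ * y)) = σ (x⁻¹ * y)
    omega
  · have := h1 (y⁻¹ * x)
    show δ (y⁻¹ * x) + (σ (y⁻¹ * x) - δ (y⁻¹ * x)) = σ (y⁻¹ * x)
    omega
  · have := h3 (x⁻¹ * y)
    show ζ (x⁻¹ * y) + (β (x⁻¹ * y) - ζ (x⁻¹ * y)) = β (x⁻¹ * y)
    omega

lemma ne_inv {a : Γ} (haa : a * a ≠ 1) : a ≠ a⁻¹ := ne_inv_of_sq haa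

lemma pair_le (α : Γ → ℕ) (hinv : ∀ a, α a⁻¹ = α a) (a : Γ) (ha : α a ≠ 0) (haa : a * a ≠ 1)
    (t : Γ) : one a t + one a⁻¹ t ≤ α t := by
  unfold one
  by_cases h1 : t = a
  · rw [ind_pos h1, ind_neg (by rw [h1]; exact ne_inv haa), h1]
    omega
  · by_cases h2 : t = a⁻¹
    · rw [ind_neg h1, ind_pos h2, h2, hinv]
      omega
    · rw [ind_neg h1, ind_neg h2]
      omega

lemma pair_inv (α : Γ → ℕ) (hinv : ∀ a, α a⁻¹ = α a) (a t : Γ) :
    α t⁻¹ - (one a t⁻¹ + one a⁻¹ t⁻¹) = α t - (one a t + one a⁻¹ t) := by
  unfold one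
  have e1 : ind (t⁻¹ = a) = ind (t = a⁻¹) := ind_iff (by rw [inv_eq_iff_eq_inv])
  have e2 : ind (t⁻¹ = a⁻¹) = ind (t = a) := ind_iff (by rw [inv_inj])
  rw [e1, e2, hinv]
  omega

lemma sum_two (a b : Γ) : ∑ t, (one a t + one b t) = 2 := by
  unfold one
  rw [Finset.sum_add_distrib, sum_ind_eq, sum_ind_eq]

lemma even_sum (α : Γ → ℕ) (hinv : ∀ a, α a⁻¹ = α a) (h : ∀ a, α a ≠ 0 → a * a ≠ 1) :
    Even (∑ a, α a) := by
  have hpar : ((∑ s, α s : ℕ) : ZMod 2) = 0 := by
    push_cast
    refine Finset.sum_involution (fun s _ => s⁻¹) ?_ ?_ ?_ ?_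
    · intro s _
      rw [hinv]
      exact CharTwo.add_self_eq_zero _
    · intro s _ h0 h1
      apply h0
      by_contra h2
      have h3 : α s ≠ 0 := by
        intro h4
        apply h2
        rw [h4]
        rfl
      exact ne_inv (h s h3) h1.symm
    · intro s _
      exact mem_univ _
    · intro s _
      exact inv_inv s
  rw [ZMod.natCast_eq_zero_iff] at hpar
  exact (even_iff_two_dvd).2 hpar

theorem cover2 (hn0 : ∀ a, (∀ x, G.Adj (x, false) (x * a, false)) → a * a ≠ 1)
    (hn1 : ∀ a, (∀ x, G.Adj (x, true) (x * a, true)) → a * a ≠ 1) (n : ℕ) :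
    ∀ σ α β : Γ → ℕ, ∑ s, σ s + (∑ s, α s + ∑ s, β s) = n →
      (∀ a, α a⁻¹ = α a) → (∀ a, β a⁻¹ = β a) →
      (∀ s, σ s ≠ 0 → ∀ x, G.Adj (x, false) (x * s, true)) →
      (∀ a, α a ≠ 0 → ∀ x, G.Adj (x, false) (x * a, false)) →
      (∀ a, β a ≠ 0 → ∀ x, G.Adj (x, true) (x * a, true)) →
      Even (∑ s, σ s) → (∀ s, 2 * σ s ≤ ∑ s, σ s + ∑ s, α s) →
      (∀ s, 2 * σ s ≤ ∑ s, σ s + ∑ s, β s) →
      (∀ s a b, ∑ t, σ t < 2 * σ s → α a ≠ 0 → β b ≠ 0 →
        Cv G (W (fun t => one s t + one s t) (fun t => one a t + one a⁻¹ t)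
          (fun t => one b t + one b⁻¹ t))) → Cv G (W σ α β) := by
  classical
  induction n using Nat.strong_induction_on with
  | _ n ih =>
  intro σ α β hn hα hβ aσ aα aβ hev h0 h1 hM
  have hzero : ∀ c : Γ → ℕ, ∀ s, c s - 0 = c s := fun _ _ => Nat.sub_zero _
  by_cases hS : ∃ s, σ s ≠ 0
  · obtain ⟨s, hs, hmax⟩ : ∃ s, σ s ≠ 0 ∧ ∀ t, σ t ≤ σ s := by
      obtain ⟨t, ht⟩ := hS
      obtain ⟨s, -, hm⟩ := Finset.exists_max_image univ σ ⟨t, mem_univ t⟩
      refine ⟨s, ?_, fun t => hm t (mem_univ t)⟩
      have := hm t (mem_univ t)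
      omega
    by_cases hS2 : ∃ s', s' ≠ s ∧ σ s' ≠ 0
    · obtain ⟨s', hs's, hs'⟩ := hS2
      have hle : ∀ t, one s t + one s' t ≤ σ t := by
        intro t
        unfold one
        by_cases h2 : t = s
        · rw [ind_pos h2, ind_neg (by rw [h2]; exact hs's.symm), h2]
          omega
        · by_cases h3 : t = s'
          · rw [ind_neg h2, ind_pos h3, h3]
            omega
          · rw [ind_neg h2, ind_neg h3]
            omega
      have hsum := sum_sub' σ (fun t => one s t + one s' t) hle
      rw [sum_two] at hsum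
      have eα := even_sum α hα (fun a ha => hn0 a (aα a ha))
      have eβ := even_sum β hβ (fun a ha => hn1 a (aβ a ha))
      refine stepW σ α β _ _ _ hle (fun _ => Nat.zero_le _) (fun _ => Nat.zero_le _)
        (piece_ss s s' hs's.symm (aσ s hs) (aσ s' hs')) ?_
      have key : ∀ t, 2 * (σ t - (one s t + one s' t)) ≤ 2 * σ t ∧
          (2 * (σ t - (one s t + one s' t)) + 2 ≤ 2 * σ t ∨ σ t + σ s < ∑ s, σ s) := by
        intro t
        refine ⟨by omega, ?_⟩
        by_cases h2 : t = s
        · left
          have : one s t = 1 := ind_pos h2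
          rw [h2] at this ⊢
          omega
        by_cases h3 : t = s'
        · left
          have : one s' t = 1 := ind_pos h3
          rw [h3] at this ⊢
          omega
        right
        have h4 : ∑ x ∈ ({s, s', t} : Finset Γ), σ x = σ s + (σ s' + σ t) := by
          rw [Finset.sum_insert, Finset.sum_insert, Finset.sum_singleton]
          · rw [mem_singleton]
            exact fun h => h3 h.symm
          · rw [mem_insert, mem_singleton]
            rintro (h | h)
            · exact hs's h.symm
            · exact h2 h.symm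
        have h5 : ∑ x ∈ ({s, s', t} : Finset Γ), σ x ≤ ∑ x, σ x :=
          Finset.sum_le_sum_of_subset (subset_univ _)
        omega
      refine ih (∑ t, (σ t - (one s t + one s' t)) + (∑ s, (α s - 0) + ∑ s, (β s - 0))) ?_
        _ _ _ rfl ?_ ?_ ?_ ?_ ?_ ?_ ?_ ?_ ?_
      · simp only [Nat.sub_zero]
        omega
      · intro a
        exact hα a
      · intro a
        exact hβ a
      · intro t ht
        exact aσ t (fun h => ht (by show σ t - _ = 0; omega))
      · intro a ha
        exact aα a ha
      · intro a ha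
        exact aβ a ha
      · rw [Nat.even_iff] at hev ⊢
        omega
      · intro t
        simp only [Nat.sub_zero]
        have := key t
        have h6 := h0 t
        have h7 := hmax t
        rw [Nat.even_iff] at hev eα
        omega
      · intro t
        simp only [Nat.sub_zero]
        have := key t
        have h6 := h1 t
        have h7 := hmax t
        rw [Nat.even_iff] at hev eβ
        omega
      · intro t a b ht ha hb
        have hk := key t
        have h7 := hmax t
        refine hM t a b ?_ ha hb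
        rw [Nat.even_iff] at hev
        have ht' : ∑ t, (σ t - (one s t + one s' t)) < 2 * (σ t - (one s t + one s' t)) := ht
        omega
    · push Not at hS2
      have hsum : ∑ t, σ t = σ s := by
        refine Finset.sum_eq_single s ?_ ?_
        · intro t _ ht
          exact hS2 t ht
        · intro h
          exact absurd (mem_univ _) h
      rw [hsum] at hev h0 h1 hn hM
      have hs2 : 2 ≤ σ s := by
        rw [Nat.even_iff] at hev
        omega
      have h0s := h0 s
      have h1s := h1 s
      have hp0 : ∑ a, α a ≠ 0 := by omega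
      have hp1 : ∑ a, β a ≠ 0 := by omega
      obtain ⟨a, -, ha⟩ := Finset.exists_ne_zero_of_sum_ne_zero hp0
      obtain ⟨b, -, hb⟩ := Finset.exists_ne_zero_of_sum_ne_zero hp1
      have haa := hn0 a (aα a ha)
      have hbb := hn1 b (aβ b hb)
      have l0 := pair_le α hα a ha haa
      have l1 := pair_le β hβ b hb hbb
      have s0 := sum_sub' α _ l0
      have s1 := sum_sub' β _ l1
      rw [sum_two] at s0 s1
      have hle : ∀ t, one s t + one s t ≤ σ t := by
        intro t
        unfold one
        by_cases h2 : t = s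
        · rw [ind_pos h2, h2]
          omega
        · rw [ind_neg h2]
          omega
      have hsum2 := sum_sub' σ (fun t => one s t + one s t) hle
      rw [sum_two, hsum] at hsum2
      refine stepW σ α β _ _ _ hle l0 l1 (hM s a b (by omega) ha hb) ?_
      refine ih (∑ t, (σ t - (one s t + one s t)) + (∑ t, (α t - (one a t + one a⁻¹ t)) +
        ∑ t, (β t - (one b t + one b⁻¹ t)))) ?_ _ _ _ rfl ?_ ?_ ?_ ?_ ?_ ?_ ?_ ?_ ?_
      · omega
      · intro t
        exact pair_inv α hα a t
      · intro t
        exact pair_inv β hβ b t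
      · intro t ht
        exact aσ t (fun h => ht (by show σ t - _ = 0; omega))
      · intro t ht
        exact aα t (fun h => ht (by show α t - _ = 0; omega))
      · intro t ht
        exact aβ t (fun h => ht (by show β t - _ = 0; omega))
      · rw [Nat.even_iff] at hev ⊢
        omega
      · intro t
        by_cases h2 : t = s
        · have : one s t = 1 := ind_pos h2
          rw [h2] at this ⊢
          show 2 * (σ s - (one s s + one s s)) ≤ _
          omega
        · have := hS2 t h2
          show 2 * (σ t - (one s t + one s t)) ≤ _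
          omega
      · intro t
        by_cases h2 : t = s
        · have : one s t = 1 := ind_pos h2
          rw [h2] at this ⊢
          show 2 * (σ s - (one s s + one s s)) ≤ _
          omega
        · have := hS2 t h2
          show 2 * (σ t - (one s t + one s t)) ≤ _
          omega
      · intro t a' b' ht ha' hb'
        refine hM t a' b' ?_ (fun h => ha' (by show α a' - _ = 0; omega))
          (fun h => hb' (by show β b' - _ = 0; omega))
        by_cases h2 : t = s
        · rw [h2]
          omega
        · exfalso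
          have h3 := hS2 t h2
          have ht' : ∑ t, (σ t - (one s t + one s t)) < 2 * (σ t - (one s t + one s t)) := ht
          omega
  · push Not at hS
    have hsum : ∑ t, σ t = 0 := Finset.sum_eq_zero (fun t _ => hS t)
    by_cases hA : ∃ a, α a ≠ 0
    · obtain ⟨a, ha⟩ := hA
      have haa := hn0 a (aα a ha)
      have l0 := pair_le α hα a ha haa
      have s0 := sum_sub' α _ l0
      rw [sum_two] at s0
      have hp := piece_in false a haa (aα a ha)
      have hp' : Cv G (W (fun _ => 0) (fun t => one a t + one a⁻¹ t) (fun _ => 0)) := by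
        refine hp.congr ?_
        rintro ⟨x, _ | _⟩ ⟨y, _ | _⟩ <;> rfl
      refine stepW σ α β _ _ _ (fun _ => Nat.zero_le _) l0 (fun _ => Nat.zero_le _) hp' ?_
      refine ih (∑ t, (σ t - 0) + (∑ t, (α t - (one a t + one a⁻¹ t)) +
        ∑ t, (β t - 0))) ?_ _ _ _ rfl ?_ ?_ ?_ ?_ ?_ ?_ ?_ ?_ ?_
      · simp only [Nat.sub_zero]
        omega
      · intro t
        exact pair_inv α hα a t
      · intro t
        exact hβ t
      · intro t ht
        exact absurd (hS t) ht
      · intro t ht
        exact aα t (fun h => ht (by show α t - _ = 0; omega))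
      · intro t ht
        exact aβ t ht
      · simp only [Nat.sub_zero]
        exact hev
      · intro t
        have := hS t
        show 2 * (σ t - 0) ≤ _
        omega
      · intro t
        have := hS t
        show 2 * (σ t - 0) ≤ _
        omega
      · intro t a' b' ht _ _
        exfalso
        have h3 := hS t
        have ht' : ∑ t, (σ t - 0) < 2 * (σ t - 0) := ht
        omega
    · push Not at hA
      have hsumα : ∑ t, α t = 0 := Finset.sum_eq_zero (fun t _ => hA t)
      by_cases hB : ∃ b, β b ≠ 0
      · obtain ⟨b, hb⟩ := hB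
        have hbb := hn1 b (aβ b hb)
        have l1 := pair_le β hβ b hb hbb
        have s1 := sum_sub' β _ l1
        rw [sum_two] at s1
        have hp := piece_in true b hbb (aβ b hb)
        have hp' : Cv G (W (fun _ => 0) (fun _ => 0) (fun t => one b t + one b⁻¹ t)) := by
          refine hp.congr ?_
          rintro ⟨x, _ | _⟩ ⟨y, _ | _⟩ <;> rfl
        refine stepW σ α β _ _ _ (fun _ => Nat.zero_le _) (fun _ => Nat.zero_le _) l1 hp' ?_
        refine ih (∑ t, (σ t - 0) + (∑ t, (α t - 0) +
          ∑ t, (β t - (one b t + one b⁻¹ t)))) ?_ _ _ _ rfl ?_ ?_ ?_ ?_ ?_ ?_ ?_ ?_ ?_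
        · simp only [Nat.sub_zero]
          omega
        · intro t
          exact hα t
        · intro t
          exact pair_inv β hβ b t
        · intro t ht
          exact absurd (hS t) ht
        · intro t ht
          exact absurd (hA t) ht
        · intro t ht
          exact aβ t (fun h => ht (by show β t - _ = 0; omega))
        · simp only [Nat.sub_zero]
          exact hev
        · intro t
          have := hS t
          show 2 * (σ t - 0) ≤ _
          omega
        · intro t
          have := hS t
          show 2 * (σ t - 0) ≤ _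
          omega
        · intro t a' b' ht _ _
          exfalso
          have h3 := hS t
          have ht' : ∑ t, (σ t - 0) < 2 * (σ t - 0) := ht
          omega
      · push Not at hB
        refine Cv.zero.congr ?_
        rintro ⟨x, _ | _⟩ ⟨y, _ | _⟩
        · exact (hA _).symm
        · exact (hS _).symm
        · exact (hS _).symm
        · exact (hB _).symm

end Pool.Agent.R759.BW
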