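import Pool.Agent.R759.OCGroup

set_option autoImplicit false
set_option linter.unusedSectionVars false

/-!
Circuit covers with prescribed multiplicities.
-/

namespace Pool.Agent.R759.CW

open Finset Pool.Agent.TH505.OCDC Pool.Agent.R759.OC

variable {V : Type} [Fintype V] {G : SimpleGraph V}

/-- the weighting `q` of the edges of `G` is a sum of circuits -/
def Cv (G : SimpleGraph V) (q : V → V → ℕ) : Prop :=
  ∃ C : List (Σ v : V, G.Walk v v), (∀ c ∈ C, c.2.IsCycle) ∧ ∀ u v, tot C u v + tot C v u = q u v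

lemma Cv.congr {q q' : V → V → ℕ} (h : Cv G q) (hq : ∀ u v, q u v = q' u v) : Cv G q' := by
  have : q = q' := by
    funext u v
    exact hq u v
  rw [← this]
  exact h

lemma Cv.zero : Cv G (fun _ _ => 0) := ⟨[], by simp, fun _ _ => rfl⟩

lemma Cv.add {q q' : V → V → ℕ} (h : Cv G q) (h' : Cv G q') :
    Cv G (fun u v => q u v + q' u v) := by
  obtain ⟨C, h1, h2⟩ := h
  obtain ⟨C', h1', h2'⟩ := h'
  refine ⟨C ++ C', ?_, ?_⟩
  · intro c hc
    rcases List.mem_append.1 hc with hc | hc
    · exact h1 c hc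
    · exact h1' c hc
  · intro u v
    have e1 := h2 u v
    have e2 := h2' u v
    rw [tot_append, tot_append]
    show _ = q u v + q' u v
    omega

lemma Cv.sum {J : Type} (s : Finset J) (q : J → V → V → ℕ) (h : ∀ j ∈ s, Cv G (q j)) :
    Cv G (fun u v => ∑ j ∈ s, q j u v) := by
  classical
  induction s using Finset.induction_on with
  | empty => exact Cv.zero.congr (fun _ _ => by simp)
  | @insert a s ha ih =>
    refine ((h a (mem_insert_self a s)).add (ih (fun j hj => h j (mem_insert_of_mem hj)))).congr ?_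
    intro u v
    rw [sum_insert ha]

lemma Cv.of_dec {R : V → V → Prop} (h : Dec G R) : Cv G (fun u v => ind (R u v) + ind (R v u)) := by
  obtain ⟨C, h1, h2⟩ := h
  exact ⟨C, h1, fun u v => by rw [h2, h2]⟩

lemma Cv.of_even {R : V → V → Prop} (hadj : ∀ u v, R u v → G.Adj u v)
    (hsymm : ∀ u v, R u v → R v u) (heven : ∀ v, Even (∑ w, ind (R v w))) :
    Cv G (fun u v => ind (R u v)) := by
  obtain ⟨g, h1, h2, h3, h4⟩ := orient G _ R rfl hadj hsymm heven
  have hval : ∀ u v, g u v = 0 ∨ g u v = 1 ∨ g u v = -1 := by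
    intro u v
    by_cases h : R u v
    · exact Or.inr (h2 u v h)
    · exact Or.inl (h3 u v h)
  have hsupp : ∀ u v, g u v ≠ 0 → G.Adj u v := by
    intro u v h
    by_contra hc
    exact h (h3 u v (fun hR => hc (hadj u v hR)))
  obtain ⟨C, hC1, hC2⟩ := flow_decomp (G := G) g h1 hval hsupp h4
  refine ⟨C, hC1, ?_⟩
  intro u v
  rw [hC2, hC2]
  show _ = ind (R u v)
  by_cases h : R u v
  · rw [ind_pos h]
    rcases h2 u v h with h5 | h5
    · rw [ind_pos h5, ind_neg]
      rw [h1 u v, h5]
      norm_num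
    · rw [ind_neg (by rw [h5]; norm_num), ind_pos]
      rw [h1 u v, h5]
      norm_num
  · rw [ind_neg h, ind_neg, ind_neg]
    · rw [h1 u v, h3 u v h]
      norm_num
    · rw [h3 u v h]
      norm_num

lemma dc_cons' {x y z : V} (h : G.Adj x y) (p : G.Walk y z) (u v : V) :
    dc (SimpleGraph.Walk.cons h p) u v = ind (x = u ∧ y = v) + dc p u v := by
  classical
  rw [dc_cons]
  by_cases h : x = u ∧ y = v
  · rw [if_pos h, ind_pos h]
  · rw [if_neg h, ind_neg h]

/-- a circuit of length four -/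
lemma Cv.square {x y z w : V} (h1 : G.Adj x y) (h2 : G.Adj y z) (h3 : G.Adj z w) (h4 : G.Adj w x)
    (hxz : x ≠ z) (hyw : y ≠ w) :
    Cv G (fun u v => (ind (x = u ∧ y = v) + ind (x = v ∧ y = u)) +
      ((ind (y = u ∧ z = v) + ind (y = v ∧ z = u)) +
      ((ind (z = u ∧ w = v) + ind (z = v ∧ w = u)) +
      (ind (w = u ∧ x = v) + ind (w = v ∧ x = u))))) := by
  classical
  refine ⟨[⟨x, SimpleGraph.Walk.cons h1 (SimpleGraph.Walk.cons h2 (SimpleGraph.Walk.cons h3
    (SimpleGraph.Walk.cons h4 SimpleGraph.Walk.nil)))⟩], ?_, ?_⟩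
  · intro c hc
    rw [List.mem_singleton] at hc
    subst hc
    have a1 := h1.ne
    have a2 := h2.ne
    have a3 := h3.ne
    have a4 := h4.ne
    rw [SimpleGraph.Walk.cons_isCycle_iff]
    constructor
    · simp only [SimpleGraph.Walk.cons_isPath_iff, SimpleGraph.Walk.support_cons,
        SimpleGraph.Walk.support_nil, List.mem_cons, List.not_mem_nil, or_false, not_or]
      refine ⟨⟨⟨SimpleGraph.Walk.IsPath.nil, a4⟩, a3, hxz.symm⟩, a2, hyw, a1.symm⟩
    · simp only [SimpleGraph.Walk.edges_cons, SimpleGraph.Walk.edges_nil, List.mem_cons,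
        List.not_mem_nil, or_false, Sym2.eq_iff, not_or]
      refine ⟨by tauto, by tauto, by tauto⟩
  · intro u v
    rw [tot_cons, tot_cons, tot_nil, tot_nil]
    simp only [dc_cons', dc_nil]
    omega

/-- alternating directed trails -/
lemma dec_alt {V : Type} [Fintype V] {G : SimpleGraph V} {Γ : Type} [Group Γ] [Finite Γ]
    (e : Γ ≃ V) (a c : Γ) (haa : a * a = 1) (hcc : c * c ≠ 1)
    (hadja : ∀ b, G.Adj (e b) (e (b * a))) (hadjc : ∀ b, G.Adj (e b) (e (b * c)))
    (hz : a ∉ Subgroup.zpowers (a * c)) :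
    Dec G (fun u v => ∃ i : Γ × Bool, e i.1 = u ∧
      (match i with | (b, false) => e (b * a) | (b, true) => e (b * c)) = v) := by
  classical
  have hac := ne_of_sq haa hcc
  refine Dec.of_inv (G := G) (I := Γ × Bool) (K := Γ ⧸ Subgroup.zpowers (a * c))
    (fun i => e i.1) (fun i => match i with | (b, false) => e (b * a) | (b, true) => e (b * c))
    (sig a c haa) (fun i => match i with
      | (b, false) => QuotientGroup.mk b
      | (b, true) => QuotientGroup.mk (b * a)) ?_ ?_ ?_ ?_ ?_
  · rintro ⟨b, _ | _⟩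
    · show (QuotientGroup.mk (b * a * a) : Γ ⧸ Subgroup.zpowers (a * c)) = QuotientGroup.mk b
      rw [mul_assoc, haa, mul_one]
    · show (QuotientGroup.mk (b * c) : Γ ⧸ Subgroup.zpowers (a * c)) = QuotientGroup.mk (b * a)
      have h1 : b * c = b * a * (a * c) := by
        rw [mul_assoc, ← mul_assoc a a c, haa, one_mul]
      rw [h1]
      exact QuotientGroup.mk_mul_of_mem (b * a) (Subgroup.mem_zpowers _)
  · rintro ⟨b, _ | _⟩
    · rfl
    · rfl
  · rintro ⟨b, _ | _⟩
    · exact hadja b
    · exact hadjc b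
  · rintro ⟨b, _ | _⟩ ⟨b', _ | _⟩ h1 h2
    · have h1' : b = b' := e.injective h1
      rw [h1']
    · have h1' : b = b' := e.injective h1
      have h2' : b * a = b' * c := e.injective h2
      rw [h1'] at h2'
      exact absurd (mul_left_cancel h2') hac
    · have h1' : b = b' := e.injective h1
      have h2' : b * c = b' * a := e.injective h2
      rw [h1'] at h2'
      exact absurd (mul_left_cancel h2').symm hac
    · have h1' : b = b' := e.injective h1
      rw [h1']
  · rintro ⟨b, _ | _⟩ ⟨b', _ | _⟩ h0 h1 h2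
    · have h1' : b' = b * a := e.injective h1
      have h0' : (QuotientGroup.mk b : Γ ⧸ Subgroup.zpowers (a * c)) =
        QuotientGroup.mk b' := h0
      have h3 := QuotientGroup.eq.1 h0'
      rw [h1', inv_mul_cancel_left] at h3
      exact hz h3
    · have h1' : b' = b * a := e.injective h1
      have h2' : b' * c = b := e.injective h2
      rw [h1'] at h2'
      exact mul_ne_of_sq haa hcc (aux2 h2')
    · have h1' : b' = b * c := e.injective h1
      have h2' : b' * a = b := e.injective h2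
      rw [h1'] at h2'
      exact mul_ne_of_sq' haa hcc (aux2 h2')
    · have h1' : b' = b * c := e.injective h1
      have h2' : b' * c = b := e.injective h2
      rw [h1'] at h2'
      exact hcc (aux2 h2')

section Cayley

variable {Γ : Type} [Group Γ] [Fintype Γ] {H : SimpleGraph Γ}

/-- the arcs with label `s` -/
noncomputable def L (s : Γ) (u v : Γ) : ℕ := ind (u * s = v)

lemma L_inv (s u v : Γ) : L s⁻¹ u v = L s v u := by
  unfold L
  congr 1
  apply propext
  rw [mul_inv_eq_iff_eq_mul, eq_comm]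

lemma sum_L (s u : Γ) : ∑ v, L s u v = 1 := by
  classical
  rw [Finset.sum_eq_single (u * s)]
  · exact ind_pos rfl
  · intro w _ hw
    exact ind_neg (fun h => hw h.symm)
  · intro h
    exact absurd (mem_univ _) h

/-- non-involutions -/
lemma piece_c (c : Γ) (hcc : c * c ≠ 1) (hadjc : ∀ b, H.Adj b (b * c)) :
    Cv H (fun u v => L c u v + L c v u) := by
  refine (Cv.of_dec (dec_fwd (G := H) (Equiv.refl Γ) c hcc hadjc)).congr ?_
  intro u v
  have : ∀ x y : Γ, ind (∃ b, Equiv.refl Γ b = x ∧ Equiv.refl Γ (b * c) = y) = L c x y := by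
    intro x y
    unfold L
    congr 1
    apply propext
    constructor
    · rintro ⟨b, rfl, h⟩
      exact h
    · intro h
      exact ⟨x, rfl, h⟩
  rw [this, this]

/-- two involutions -/
lemma piece_aa (a b : Γ) (haa : a * a = 1) (hbb : b * b = 1) (hab : a ≠ b)
    (hadja : ∀ x, H.Adj x (x * a)) (hadjb : ∀ x, H.Adj x (x * b)) :
    Cv H (fun u v => L a u v + L b u v) := by
  have hsum : ∀ u v : Γ, ind (u * a = v ∨ u * b = v) = L a u v + L b u v := by
    intro u v
    unfold L
    by_cases h1 : u * a = v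
    · rw [ind_pos h1, ind_pos (Or.inl h1), ind_neg]
      intro h2
      exact hab (mul_left_cancel (h1.trans h2.symm))
    · by_cases h2 : u * b = v
      · rw [ind_neg h1, ind_pos h2, ind_pos (Or.inr h2)]
      · rw [ind_neg h1, ind_neg h2, ind_neg (by tauto)]
  refine (Cv.of_even (G := H) (R := fun u v => u * a = v ∨ u * b = v) ?_ ?_ ?_).congr hsum
  · rintro u v (rfl | rfl)
    · exact hadja u
    · exact hadjb u
  · rintro u v (rfl | rfl)
    · left
      rw [mul_assoc, haa, mul_one]
    · right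
      rw [mul_assoc, hbb, mul_one]
  · intro v
    rw [Finset.sum_congr rfl (fun w _ => hsum v w), Finset.sum_add_distrib, sum_L, sum_L]
    exact ⟨1, rfl⟩

/-- alternating closed trails -/
lemma piece_ac1 (a c : Γ) (haa : a * a = 1) (hcc : c * c ≠ 1)
    (hadja : ∀ x, H.Adj x (x * a)) (hadjc : ∀ x, H.Adj x (x * c))
    (hz : a ∉ Subgroup.zpowers (a * c)) :
    Cv H (fun u v => L a u v + L a v u + (L c u v + L c v u)) := by
  have hac := ne_of_sq haa hcc
  refine (Cv.of_dec (dec_alt (G := H) (Equiv.refl Γ) a c haa hcc hadja hadjc hz)).congr ?_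
  intro u v
  have : ∀ x y : Γ, ind (∃ i : Γ × Bool, Equiv.refl Γ i.1 = x ∧
      (match i with | (b, false) => Equiv.refl Γ (b * a) | (b, true) => Equiv.refl Γ (b * c)) = y)
      = L a x y + L c x y := by
    intro x y
    unfold L
    by_cases h1 : x * a = y
    · rw [ind_pos h1, ind_pos ⟨(x, false), rfl, h1⟩, ind_neg]
      intro h2
      exact hac (mul_left_cancel (h1.trans h2.symm))
    · by_cases h2 : x * c = y
      · rw [ind_neg h1, ind_pos h2, ind_pos ⟨(x, true), rfl, h2⟩]
      · rw [ind_neg h1, ind_neg h2, ind_neg]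
        rintro ⟨⟨b, _ | _⟩, h3, h4⟩
        · have h3' : b = x := h3
          rw [← h3'] at h1
          exact h1 h4
        · have h3' : b = x := h3
          rw [← h3'] at h2
          exact h2 h4
  rw [this, this]
  omega

/-- counting translates -/
lemma sum_trans (p : Γ → Prop) (x y u v : Γ) :
    ∑ b, ind (p b ∧ b * x = u ∧ b * y = v) = ind (p (u * x⁻¹) ∧ u * (x⁻¹ * y) = v) := by
  classical
  rw [Finset.sum_eq_single (u * x⁻¹)]
  · congr 1
    apply propext
    rw [inv_mul_cancel_right, mul_assoc]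
    tauto
  · intro b _ hb
    apply ind_neg
    rintro ⟨_, h, _⟩
    apply hb
    rw [← h, mul_inv_cancel_right]
  · intro h
    exact absurd (mem_univ _) h

/-- the squares -/
lemma piece_ac2 (a c : Γ) (haa : a * a = 1) (hcc : c * c ≠ 1) (ha1 : a ≠ 1)
    (hadja : ∀ x, H.Adj x (x * a)) (hadjc : ∀ x, H.Adj x (x * c)) (hcomm : a * c = c * a) :
    Cv H (fun u v => L a u v + L a v u + (L c u v + L c v u)) := by
  classical
  have hac := ne_of_sq haa hcc
  have hcc' := inv_sq hcc
  have hac' := ne_of_sq haa hcc'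
  obtain ⟨p, hp, -⟩ := half (⊥ : Subgroup Γ) a (fun h => ha1 (Subgroup.mem_bot.1 h))
    (by rw [haa]; exact Subgroup.one_mem _) (by
      intro k hk
      rw [Subgroup.mem_bot.1 hk, one_mul, mul_one])
  have hsq : ∀ b ∈ univ.filter p, Cv H (fun u v => (ind (b = u ∧ b * c = v) +
      ind (b = v ∧ b * c = u)) +
      ((ind (b * c = u ∧ b * c * a = v) + ind (b * c = v ∧ b * c * a = u)) +
      ((ind (b * c * a = u ∧ b * a = v) + ind (b * c * a = v ∧ b * a = u)) +
      (ind (b * a = u ∧ b = v) + ind (b * a = v ∧ b = u))))) := by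
    intro b _
    refine Cv.square (hadjc b) (hadja (b * c)) ?_ (hadja b).symm ?_ ?_
    · have := hadjc (b * a)
      rw [mul_assoc, hcomm, ← mul_assoc] at this
      exact this.symm
    · intro h
      have h2 : c * a = 1 := by
        rw [mul_assoc] at h
        exact mul_eq_left.1 h.symm
      exact mul_ne_of_sq' haa hcc h2
    · intro h
      exact hac (mul_left_cancel h).symm
  refine (Cv.sum (univ.filter p) _ hsq).congr ?_
  intro u v
  simp only [Finset.sum_add_distrib]
  have conv : ∀ (P Q : Γ → Prop), ∑ b ∈ univ.filter p, ind (P b ∧ Q b) =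
      ∑ b, ind (p b ∧ P b ∧ Q b) := by
    intro P Q
    rw [Finset.sum_filter]
    refine Finset.sum_congr rfl fun b _ => ?_
    by_cases h : p b
    · rw [if_pos h]
      congr 1
      apply propext
      tauto
    · rw [if_neg h, ind_neg (fun h' => h h'.1)]
  have t1 : ∀ u v : Γ, ∑ b ∈ univ.filter p, ind (b = u ∧ b * c = v) = ind (p u ∧ u * c = v) := by
    intro u v
    rw [conv]
    have := sum_trans p 1 c u v
    simpa using this
  have t2 : ∀ u v : Γ, ∑ b ∈ univ.filter p, ind (b * c = u ∧ b * c * a = v) =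
      ind (p (u * c⁻¹) ∧ u * a = v) := by
    intro u v
    rw [conv]
    have := sum_trans p c (c * a) u v
    rw [inv_mul_cancel_left] at this
    rw [← this]
    refine Finset.sum_congr rfl fun b _ => ?_
    rw [mul_assoc b c a]
  have t3 : ∀ u v : Γ, ∑ b ∈ univ.filter p, ind (b * c * a = u ∧ b * a = v) =
      ind (p (u * (c * a)⁻¹) ∧ u * c⁻¹ = v) := by
    intro u v
    rw [conv]
    have := sum_trans p (c * a) a u v
    have e : (c * a)⁻¹ * a = c⁻¹ := by
      rw [← hcomm, mul_inv_rev, inv_mul_cancel_right]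
    rw [e] at this
    rw [← this]
    refine Finset.sum_congr rfl fun b _ => ?_
    rw [mul_assoc b c a]
  have t4 : ∀ u v : Γ, ∑ b ∈ univ.filter p, ind (b * a = u ∧ b = v) =
      ind (p (u * a) ∧ u * a = v) := by
    intro u v
    rw [conv]
    have := sum_trans p a 1 u v
    have e : a⁻¹ = a := inv_eq_of_mul_eq_one_left haa
    rw [e] at this
    simpa using this
  have t1' : ∀ u v : Γ, ∑ b ∈ univ.filter p, ind (b = v ∧ b * c = u) = ind (p v ∧ v * c = u) :=
    fun u v => t1 v u
  have t2' : ∀ u v : Γ, ∑ b ∈ univ.filter p, ind (b * c = v ∧ b * c * a = u) =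
      ind (p (v * c⁻¹) ∧ v * a = u) := fun u v => t2 v u
  have t3' : ∀ u v : Γ, ∑ b ∈ univ.filter p, ind (b * c * a = v ∧ b * a = u) =
      ind (p (v * (c * a)⁻¹) ∧ v * c⁻¹ = u) := fun u v => t3 v u
  have t4' : ∀ u v : Γ, ∑ b ∈ univ.filter p, ind (b * a = v ∧ b = u) =
      ind (p (v * a) ∧ v * a = u) := fun u v => t4 v u
  rw [t1, t2, t3, t4, t1', t2', t3', t4']
  -- evaluate
  unfold L
  have ainv : ∀ x y : Γ, x * a = y ↔ y * a = x := by
    intro x y
    constructor
    · rintro rfl
      rw [mul_assoc, haa, mul_one]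
    · rintro rfl
      rw [mul_assoc, haa, mul_one]
  have cinv : ∀ x y : Γ, x * c⁻¹ = y ↔ y * c = x := by
    intro x y
    rw [mul_inv_eq_iff_eq_mul, eq_comm]
  by_cases h1 : u * a = v
  · have h1' : v * a = u := (ainv u v).1 h1
    have n1 : ¬ u * c = v := fun h => hac (mul_left_cancel (h1.trans h.symm))
    have n2 : ¬ v * c = u := fun h => hac (mul_left_cancel (h1'.trans h.symm))
    have n3 : ¬ u * c⁻¹ = v := fun h => n2 ((cinv u v).1 h)
    have n4 : ¬ v * c⁻¹ = u := fun h => n1 ((cinv v u).1 h)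
    have l1 := ind_pos h1
    have l2 := ind_pos h1'
    have l3 := ind_neg n1
    have l4 := ind_neg n2
    have z1 : ind (p u ∧ u * c = v) = 0 := ind_neg (fun h => n1 h.2)
    have z2 : ind (p v ∧ v * c = u) = 0 := ind_neg (fun h => n2 h.2)
    have z3 : ind (p (u * (c * a)⁻¹) ∧ u * c⁻¹ = v) = 0 := ind_neg (fun h => n3 h.2)
    have z4 : ind (p (v * (c * a)⁻¹) ∧ v * c⁻¹ = u) = 0 := ind_neg (fun h => n4 h.2)
    have e1 : p (v * c⁻¹) ↔ ¬ p (u * c⁻¹) := by
      have hc : Commute a c := hcomm
      have := hp (u * c⁻¹)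
      rw [mul_assoc, ← hc.inv_right.eq, ← mul_assoc, h1] at this
      exact this
    have e2 : p v ↔ ¬ p u := by
      have := hp u
      rw [h1] at this
      exact this
    have w1 : ind (p (u * c⁻¹) ∧ u * a = v) + ind (p (v * c⁻¹) ∧ v * a = u) = 1 := by
      by_cases hv : p (u * c⁻¹)
      · rw [ind_pos ⟨hv, h1⟩, ind_neg (fun h => e1.1 h.1 hv)]
      · rw [ind_neg (fun h => hv h.1), ind_pos ⟨e1.2 hv, h1'⟩]
    have w2 : ind (p (u * a) ∧ u * a = v) + ind (p (v * a) ∧ v * a = u) = 1 := by
      by_cases hu : p u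
      · have h3 : ¬ p (u * a) := by rw [h1]; exact fun h => e2.1 h hu
        have h4 : p (v * a) := by rw [h1']; exact hu
        rw [ind_neg (fun h => h3 h.1), ind_pos ⟨h4, h1'⟩]
      · have h3 : p (u * a) := by rw [h1]; exact e2.2 hu
        have h4 : ¬ p (v * a) := by rw [h1']; exact hu
        rw [ind_pos ⟨h3, h1⟩, ind_neg (fun h => h4 h.1)]
    omega
  · have h1' : ¬ v * a = u := fun h => h1 ((ainv u v).2 h)
    have l1 := ind_neg h1
    have l2 := ind_neg h1'
    have z1 : ind (p (u * c⁻¹) ∧ u * a = v) = 0 := ind_neg (fun h => h1 h.2)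
    have z2 : ind (p (v * c⁻¹) ∧ v * a = u) = 0 := ind_neg (fun h => h1' h.2)
    have z3 : ind (p (u * a) ∧ u * a = v) = 0 := ind_neg (fun h => h1 h.2)
    have z4 : ind (p (v * a) ∧ v * a = u) = 0 := ind_neg (fun h => h1' h.2)
    have key : ∀ x y : Γ, x * c = y → ind (p x ∧ x * c = y) + ind (p (y * (c * a)⁻¹) ∧ y * c⁻¹ = x)
        = 1 := by
      rintro x y rfl
      have e : x * c * (c * a)⁻¹ = x * a := by
        rw [← hcomm, mul_inv_rev, ← mul_assoc, mul_inv_cancel_right]
        rw [inv_eq_of_mul_eq_one_left haa]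
      rw [e, mul_inv_cancel_right]
      by_cases hx : p x
      · rw [ind_pos ⟨hx, rfl⟩, ind_neg (fun h => (hp x).1 h.1 hx)]
      · rw [ind_neg (fun h => hx h.1), ind_pos ⟨(hp x).2 hx, rfl⟩]
    have key0 : ∀ x y : Γ, ¬ x * c = y →
        ind (p x ∧ x * c = y) + ind (p (y * (c * a)⁻¹) ∧ y * c⁻¹ = x) = 0 := by
      intro x y h
      rw [ind_neg (fun h' => h h'.2), ind_neg (fun h' => h ((cinv y x).1 h'.2))]
    have key2 : ∀ x y : Γ, ind (p x ∧ x * c = y) + ind (p (y * (c * a)⁻¹) ∧ y * c⁻¹ = x) =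
        ind (x * c = y) := by
      intro x y
      by_cases h : x * c = y
      · rw [key x y h, ind_pos h]
      · rw [key0 x y h, ind_neg h]
    have k1 := key2 u v
    have k2 := key2 v u
    omega

/-- an involution and a non-involution -/
lemma piece_ac (a c : Γ) (haa : a * a = 1) (hcc : c * c ≠ 1) (ha1 : a ≠ 1)
    (hadja : ∀ x, H.Adj x (x * a)) (hadjc : ∀ x, H.Adj x (x * c)) :
    Cv H (fun u v => L a u v + L a v u + (L c u v + L c v u)) := by
  by_cases h1 : a ∈ Subgroup.zpowers (a * c)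
  · have hcomm : a * c = c * a := by
      obtain ⟨i, hi⟩ := Subgroup.mem_zpowers_iff.1 h1
      have h2 : Commute ((a * c) ^ i) (a * c) := (Commute.refl (a * c)).zpow_left i
      rw [hi] at h2
      have h3 : a * (a * c) = a * c * a := h2
      have h4 : a * (a * c) = a * (c * a) := by rw [h3, mul_assoc]
      exact mul_left_cancel h4
    exact piece_ac2 a c haa hcc ha1 hadja hadjc hcomm
  · exact piece_ac1 a c haa hcc hadja hadjc h1

end Cayley

end Pool.Agent.R759.CW
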