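import Pool.Agent.R759.CWBase

set_option autoImplicit false
set_option linter.unusedSectionVars false

/-!
Circuit covers of Cayley graphs with invariant multiplicities.
-/

namespace Pool.Agent.R759.CW

open Finset Pool.Agent.TH505.OCDC Pool.Agent.R759.OC

section Induction

variable {Γ : Type} [Group Γ] [Fintype Γ] {H : SimpleGraph Γ}

lemma L_eq (s u v : Γ) : L s u v = ind (u⁻¹ * v = s) := by
  unfold L
  congr 1
  apply propext
  rw [inv_mul_eq_iff_eq_mul, eq_comm]

lemma L_eq' (s u v : Γ) : L s v u = ind (u⁻¹ * v = s⁻¹) := by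
  rw [← L_inv, L_eq]

lemma sum_ind_eq (t : Γ) : ∑ s, ind (s = t) = 1 := by
  classical
  rw [Finset.sum_eq_single t]
  · exact ind_pos rfl
  · intro w _ hw
    exact ind_neg hw
  · intro h
    exact absurd (mem_univ _) h

lemma step (c δ : Γ → ℕ) (hle : ∀ s, δ s ≤ c s) (hδ : Cv H (fun u v => δ (u⁻¹ * v)))
    (hrest : Cv H (fun u v => (fun s => c s - δ s) (u⁻¹ * v))) :
    Cv H (fun u v => c (u⁻¹ * v)) := by
  refine (hδ.add hrest).congr ?_
  intro u v
  have := hle (u⁻¹ * v)
  show δ (u⁻¹ * v) + (c (u⁻¹ * v) - δ (u⁻¹ * v)) = c (u⁻¹ * v)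
  omega

lemma sum_sub' (c δ : Γ → ℕ) (hle : ∀ s, δ s ≤ c s) : ∑ s, (c s - δ s) + ∑ s, δ s = ∑ s, c s := by
  rw [← Finset.sum_add_distrib]
  refine Finset.sum_congr rfl fun s _ => ?_
  have := hle s
  omega

theorem cover (n : ℕ) : ∀ (c : Γ → ℕ), ∑ s, c s = n → (∀ s, c s⁻¹ = c s) →
    (∀ s, c s ≠ 0 → ∀ x, H.Adj x (x * s)) → Even n → (∀ s, s * s = 1 → 2 * c s ≤ n) →
    Cv H (fun u v => c (u⁻¹ * v)) := by
  classical
  induction n using Nat.strong_induction_on with
  | _ n ih =>
  intro c hn hinv hadj hev hmax
  have hne1 : ∀ s, c s ≠ 0 → s ≠ 1 := by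
    rintro s hs rfl
    have := hadj 1 hs 1
    rw [mul_one] at this
    exact this.ne rfl
  have hself : ∀ s : Γ, s * s = 1 → s⁻¹ = s := fun s hs => inv_eq_of_mul_eq_one_left hs
  have hself' : ∀ s : Γ, s⁻¹ = s → s * s = 1 := by
    intro s hs
    calc s * s = s * s⁻¹ := by rw [hs]
    _ = 1 := mul_inv_cancel s
  by_cases hA : ∃ a, a * a = 1 ∧ c a ≠ 0
  swap
  · -- no involutions
    push Not at hA
    by_cases hB : ∃ t, c t ≠ 0
    swap
    · push Not at hB
      exact Cv.zero.congr (fun u v => (hB _).symm)
    obtain ⟨t, ht⟩ := hB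
    have htt : t * t ≠ 1 := fun h => ht (hA t h)
    have htinv : t ≠ t⁻¹ := fun h => htt (hself' t h.symm)
    let δ : Γ → ℕ := fun s => ind (s = t) + ind (s = t⁻¹)
    have hle : ∀ s, δ s ≤ c s := by
      intro s
      show ind (s = t) + ind (s = t⁻¹) ≤ c s
      by_cases h1 : s = t
      · rw [ind_pos h1, ind_neg (by rw [h1]; exact htinv), h1]
        omega
      · by_cases h2 : s = t⁻¹
        · rw [ind_neg h1, ind_pos h2, h2, hinv]
          omega
        · rw [ind_neg h1, ind_neg h2]
          omega
    have hδsum : ∑ s, δ s = 2 := by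
      show ∑ s, (ind (s = t) + ind (s = t⁻¹)) = 2
      rw [Finset.sum_add_distrib, sum_ind_eq, sum_ind_eq]
    have hs := sum_sub' c δ hle
    rw [hn, hδsum] at hs
    refine step c δ hle ?_ ?_
    · refine (piece_c t htt (hadj t ht)).congr ?_
      intro u v
      rw [L_eq, L_eq']
    · refine ih (∑ s, (c s - δ s)) (by omega) _ rfl ?_ ?_ ?_ ?_
      · intro s
        show c s⁻¹ - (ind (s⁻¹ = t) + ind (s⁻¹ = t⁻¹)) = c s - (ind (s = t) + ind (s = t⁻¹))
        have e1 : ind (s⁻¹ = t) = ind (s = t⁻¹) := by
          congr 1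
          apply propext
          rw [inv_eq_iff_eq_inv]
        have e2 : ind (s⁻¹ = t⁻¹) = ind (s = t) := by
          congr 1
          apply propext
          rw [inv_inj]
        rw [e1, e2, hinv]
        omega
      · intro s h
        exact hadj s (fun h0 => h (by show c s - δ s = 0; omega))
      · rw [Nat.even_iff] at hev ⊢
        omega
      · intro s h
        show 2 * (c s - δ s) ≤ _
        have := hA s h
        omega
  -- a heaviest involution
  obtain ⟨a, haa, hca, hmaxa⟩ : ∃ a, a * a = 1 ∧ c a ≠ 0 ∧ ∀ b, b * b = 1 → c b ≤ c a := by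
    obtain ⟨a0, h1, h2⟩ := hA
    obtain ⟨a, ha, hm⟩ := Finset.exists_max_image (univ.filter (fun s : Γ => s * s = 1)) c
      ⟨a0, by simp [h1]⟩
    have ha' : a * a = 1 := (mem_filter.1 ha).2
    refine ⟨a, ha', ?_, fun b hb => hm b (by simp [hb])⟩
    have := hm a0 (by simp [h1])
    omega
  by_cases hB : ∃ b, b ≠ a ∧ b * b = 1 ∧ c b ≠ 0
  · -- two involutions
    obtain ⟨b, hba, hbb, hcb⟩ := hB
    let δ : Γ → ℕ := fun s => ind (s = a) + ind (s = b)
    have hle : ∀ s, δ s ≤ c s := by
      intro s
      show ind (s = a) + ind (s = b) ≤ c s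
      by_cases h1 : s = a
      · rw [ind_pos h1, ind_neg (by rw [h1]; exact hba.symm), h1]
        omega
      · by_cases h2 : s = b
        · rw [ind_neg h1, ind_pos h2, h2]
          omega
        · rw [ind_neg h1, ind_neg h2]
          omega
    have hδsum : ∑ s, δ s = 2 := by
      show ∑ s, (ind (s = a) + ind (s = b)) = 2
      rw [Finset.sum_add_distrib, sum_ind_eq, sum_ind_eq]
    have hs := sum_sub' c δ hle
    rw [hn, hδsum] at hs
    refine step c δ hle ?_ ?_
    · refine (piece_aa a b haa hbb hba.symm (hadj a hca) (hadj b hcb)).congr ?_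
      intro u v
      rw [L_eq, L_eq]
    · refine ih (∑ s, (c s - δ s)) (by omega) _ rfl ?_ ?_ ?_ ?_
      · intro s
        show c s⁻¹ - (ind (s⁻¹ = a) + ind (s⁻¹ = b)) = c s - (ind (s = a) + ind (s = b))
        have e1 : ind (s⁻¹ = a) = ind (s = a) := by
          congr 1
          apply propext
          rw [inv_eq_iff_eq_inv, hself a haa]
        have e2 : ind (s⁻¹ = b) = ind (s = b) := by
          congr 1
          apply propext
          rw [inv_eq_iff_eq_inv, hself b hbb]
        rw [e1, e2, hinv]
      · intro s h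
        exact hadj s (fun h0 => h (by show c s - δ s = 0; omega))
      · rw [Nat.even_iff] at hev ⊢
        omega
      · intro s hss
        show 2 * (c s - δ s) ≤ _
        have hm := hmax s hss
        by_cases h1 : s = a
        · have : δ s = 1 := by
            show ind (s = a) + ind (s = b) = 1
            rw [ind_pos h1, ind_neg (by rw [h1]; exact hba.symm)]
          omega
        by_cases h2 : s = b
        · have : δ s = 1 := by
            show ind (s = a) + ind (s = b) = 1
            rw [ind_neg h1, ind_pos h2]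
          omega
        -- a third involution
        have h3 : c a + (c b + c s) ≤ ∑ s, c s := by
          have h4 : ∑ x ∈ ({a, b, s} : Finset Γ), c x = c a + (c b + c s) := by
            rw [Finset.sum_insert, Finset.sum_insert, Finset.sum_singleton]
            · rw [mem_singleton]
              exact fun h => h2 h.symm
            · rw [mem_insert, mem_singleton]
              rintro (h | h)
              · exact hba h.symm
              · exact h1 h.symm
          rw [← h4]
          exact Finset.sum_le_sum_of_subset (subset_univ _)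
        have h5 := hmaxa s hss
        have h6 : 0 < c b := Nat.pos_of_ne_zero hcb
        rw [hn] at h3
        rw [Nat.even_iff] at hev
        omega
  · -- one involution
    push Not at hB
    have hrest : ∑ s ∈ univ.erase a, c s + c a = n := by
      rw [Finset.sum_erase_add _ _ (mem_univ a), hn]
    have hpar : ((∑ s ∈ univ.erase a, c s : ℕ) : ZMod 2) = 0 := by
      push_cast
      refine Finset.sum_involution (fun s _ => s⁻¹) ?_ ?_ ?_ ?_
      · intro s _
        rw [hinv]
        exact CharTwo.add_self_eq_zero _
      · intro s hs h0 h1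
        apply h0
        have := hB s (mem_erase.1 hs).1 (hself' s h1)
        rw [this]
        rfl
      · intro s hs
        rw [mem_erase] at hs ⊢
        refine ⟨?_, mem_univ _⟩
        intro h
        apply hs.1
        rw [← inv_inv s, h, hself a haa]
      · intro s _
        exact inv_inv s
    rw [ZMod.natCast_eq_zero_iff] at hpar
    have hma := hmax a haa
    have hpos : ∑ s ∈ univ.erase a, c s ≠ 0 := by omega
    obtain ⟨t, hta, hct⟩ := Finset.exists_ne_zero_of_sum_ne_zero hpos
    have hta' : t ≠ a := (mem_erase.1 hta).1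
    have htt : t * t ≠ 1 := fun h => hct (hB t hta' h)
    have htinv : t ≠ t⁻¹ := fun h => htt (hself' t h.symm)
    have hta'' : t⁻¹ ≠ a := by
      intro h
      apply hta'
      rw [← inv_inv t, h, hself a haa]
    have hc2 : 2 ≤ c a := by
      rw [Nat.even_iff] at hev
      omega
    let δ : Γ → ℕ := fun s => (ind (s = a) + ind (s = a)) + (ind (s = t) + ind (s = t⁻¹))
    have hle : ∀ s, δ s ≤ c s := by
      intro s
      show (ind (s = a) + ind (s = a)) + (ind (s = t) + ind (s = t⁻¹)) ≤ c s
      by_cases h0 : s = a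
      · rw [ind_pos h0, ind_neg (by rw [h0]; exact hta'.symm),
          ind_neg (by rw [h0]; exact hta''.symm), h0]
        omega
      · by_cases h1 : s = t
        · rw [ind_neg h0, ind_pos h1, ind_neg (by rw [h1]; exact htinv), h1]
          omega
        · by_cases h2 : s = t⁻¹
          · rw [ind_neg h0, ind_neg h1, ind_pos h2, h2, hinv]
            omega
          · rw [ind_neg h0, ind_neg h1, ind_neg h2]
            omega
    have hδsum : ∑ s, δ s = 4 := by
      show ∑ s, ((ind (s = a) + ind (s = a)) + (ind (s = t) + ind (s = t⁻¹))) = 4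
      rw [Finset.sum_add_distrib, Finset.sum_add_distrib, Finset.sum_add_distrib, sum_ind_eq,
        sum_ind_eq, sum_ind_eq]
      rfl
    have hs := sum_sub' c δ hle
    rw [hn, hδsum] at hs
    refine step c δ hle ?_ ?_
    · refine (piece_ac a t haa htt (hne1 a hca) (hadj a hca) (hadj t hct)).congr ?_
      intro u v
      rw [L_eq, L_eq', L_eq, L_eq', hself a haa]
    · refine ih (∑ s, (c s - δ s)) (by omega) _ rfl ?_ ?_ ?_ ?_
      · intro s
        show c s⁻¹ - ((ind (s⁻¹ = a) + ind (s⁻¹ = a)) + (ind (s⁻¹ = t) + ind (s⁻¹ = t⁻¹))) =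
          c s - ((ind (s = a) + ind (s = a)) + (ind (s = t) + ind (s = t⁻¹)))
        have e0 : ind (s⁻¹ = a) = ind (s = a) := by
          congr 1
          apply propext
          rw [inv_eq_iff_eq_inv, hself a haa]
        have e1 : ind (s⁻¹ = t) = ind (s = t⁻¹) := by
          congr 1
          apply propext
          rw [inv_eq_iff_eq_inv]
        have e2 : ind (s⁻¹ = t⁻¹) = ind (s = t) := by
          congr 1
          apply propext
          rw [inv_inj]
        rw [e0, e1, e2, hinv]
        omega
      · intro s h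
        exact hadj s (fun h0 => h (by show c s - δ s = 0; omega))
      · rw [Nat.even_iff] at hev ⊢
        omega
      · intro s hss
        show 2 * (c s - δ s) ≤ _
        by_cases h1 : s = a
        · have : δ s = 2 := by
            show (ind (s = a) + ind (s = a)) + (ind (s = t) + ind (s = t⁻¹)) = 2
            rw [ind_pos h1, ind_neg (by rw [h1]; exact hta'.symm),
              ind_neg (by rw [h1]; exact hta''.symm)]
          rw [h1] at this ⊢
          omega
        · have := hB s h1 hss
          omega

end Induction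

end Pool.Agent.R759.CW
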