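import Pool.Agent.R759.CWMain

/-!
Problem MP_20b97f_co: circuit covers of Cayley graphs with group-invariant weightings.
-/

set_option autoImplicit false
set_option linter.unusedSectionVars false
open scoped Classical NNReal

namespace Pool.Agent.R759.CayleyInvariant

open Finset Pool.Agent.R759.CW Pool.Agent.R759.OC Pool.Agent.TH505.OCDC

/-- The incidence vectors of the circuits of `G`, with entries in `R`. -/
def circuits (R : Type) [Zero R] [One R] {V : Type} (G : SimpleGraph V) : Set (G.edgeSet → R) :=
  {x | ∃ (v : V) (c : G.Walk v v), c.IsCycle ∧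
    ∀ e : G.edgeSet, x e = if (e : Sym2 V) ∈ c.edges then 1 else 0}

section

variable {V : Type} [Fintype V] {G : SimpleGraph V}

lemma dc_cycle {x : V} {c : G.Walk x x} (hc : c.IsCycle) {u v : V} (huv : u ≠ v) :
    dc c u v + dc c v u = if s(u, v) ∈ c.edges then 1 else 0 := by
  rw [dc_add_le_count c huv]
  split_ifs with h
  · exact List.count_eq_one_of_mem hc.isTrail.edges_nodup h
  · exact List.count_eq_zero.2 h

/-- number of circuits of a list containing an edge -/
noncomputable def cnt (C : List (Σ v : V, G.Walk v v)) (e : Sym2 V) : ℕ :=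
  (C.map (fun c => if e ∈ c.2.edges then 1 else 0)).sum

lemma cnt_eq (C : List (Σ v : V, G.Walk v v)) (hC : ∀ c ∈ C, c.2.IsCycle) {u v : V}
    (huv : u ≠ v) : cnt C s(u, v) = tot C u v + tot C v u := by
  induction C with
  | nil => rfl
  | cons c C ih =>
    rw [tot_cons, tot_cons]
    have h1 := ih (fun d hd => hC d (List.mem_cons_of_mem _ hd))
    have h2 := dc_cycle (hC c List.mem_cons_self) huv
    have h3 : cnt (c :: C) s(u, v) = (if s(u, v) ∈ c.2.edges then 1 else 0) + cnt C s(u, v) := by
      unfold cnt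
      rw [List.map_cons, List.sum_cons]
    rw [h3, h1, ← h2]
    omega

lemma cnt_mem (C : List (Σ v : V, G.Walk v v)) (hC : ∀ c ∈ C, c.2.IsCycle) :
    (fun e : G.edgeSet => cnt C e) ∈ Submodule.span ℕ (circuits ℕ G) := by
  induction C with
  | nil =>
    have : (fun e : G.edgeSet => cnt ([] : List (Σ v : V, G.Walk v v)) e) = 0 := rfl
    rw [this]
    exact Submodule.zero_mem _
  | cons c C ih =>
    have h1 := ih (fun d hd => hC d (List.mem_cons_of_mem _ hd))
    have h2 : (fun e : G.edgeSet => if (e : Sym2 V) ∈ c.2.edges then (1 : ℕ) else 0) ∈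
        Submodule.span ℕ (circuits ℕ G) :=
      Submodule.subset_span ⟨c.1, c.2, hC c List.mem_cons_self, fun _ => rfl⟩
    have h3 := Submodule.add_mem _ h2 h1
    exact h3

/-- degree of a weighting at a vertex -/
noncomputable def deg {R : Type} [AddCommMonoid R] (x : G.edgeSet → R) (v : V) : R :=
  ∑ t, if h : G.Adj v t then x ⟨s(v, t), h⟩ else 0

lemma deg_add {R : Type} [AddCommMonoid R] (x y : G.edgeSet → R) (v : V) :
    deg (x + y) v = deg x v + deg y v := by
  unfold deg
  rw [← Finset.sum_add_distrib]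
  refine Finset.sum_congr rfl fun t _ => ?_
  split_ifs with h
  · rfl
  · rw [add_zero]

lemma deg_zero {R : Type} [AddCommMonoid R] (v : V) : deg (0 : G.edgeSet → R) v = 0 := by
  unfold deg
  refine Finset.sum_eq_zero fun t _ => ?_
  split_ifs with h
  · rfl
  · rfl

lemma deg_circuit (R : Type) [Semiring R] {x : G.edgeSet → R} {y : V} {c : G.Walk y y}
    (hc : c.IsCycle) (hx : ∀ e : G.edgeSet, x e = if (e : Sym2 V) ∈ c.edges then 1 else 0)
    (v : V) : deg x v = ((2 * ∑ t, dc c v t : ℕ) : R) := by
  have h1 : deg x v = ∑ t, ((dc c v t + dc c t v : ℕ) : R) := by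
    unfold deg
    refine Finset.sum_congr rfl fun t _ => ?_
    split_ifs with h
    · rw [hx, dc_cycle hc h.ne]
      split_ifs <;> simp
    · have h2 : dc c v t = 0 := by
        by_contra h3
        exact h (dc_adj c (Nat.pos_of_ne_zero h3))
      have h3 : dc c t v = 0 := by
        by_contra h3
        exact h (dc_adj c (Nat.pos_of_ne_zero h3)).symm
      rw [h2, h3]
      simp
  rw [h1, ← Nat.cast_sum, Finset.sum_add_distrib, ← dc_closed c v]
  congr 1
  ring

lemma nat_to_real {x : G.edgeSet → ℕ} (h : x ∈ Submodule.span ℕ (circuits ℕ G)) :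
    (fun e : G.edgeSet => (x e : ℝ)) ∈ Submodule.span ℝ≥0 (circuits ℝ G) := by
  induction h using Submodule.span_induction with
  | mem x hx =>
    obtain ⟨v, c, hc, h⟩ := hx
    refine Submodule.subset_span ⟨v, c, hc, fun e => ?_⟩
    show ((x e : ℕ) : ℝ) = _
    rw [h]
    split_ifs <;> simp
  | zero =>
    have : (fun e : G.edgeSet => (((0 : G.edgeSet → ℕ) e : ℕ) : ℝ)) = 0 := by
      funext e
      simp
    rw [this]
    exact Submodule.zero_mem _
  | add x y _ _ hx hy =>
    have : (fun e : G.edgeSet => (((x + y) e : ℕ) : ℝ)) =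
        (fun e => (x e : ℝ)) + (fun e => (y e : ℝ)) := by
      funext e
      simp
    rw [this]
    exact Submodule.add_mem _ hx hy
  | smul n x _ hx =>
    have : (fun e : G.edgeSet => (((n • x) e : ℕ) : ℝ)) = (n : ℝ≥0) • (fun e => (x e : ℝ)) := by
      funext e
      simp [NNReal.smul_def]
    rw [this]
    exact Submodule.smul_mem _ _ hx

lemma nat_to_int {x : G.edgeSet → ℕ} (h : x ∈ Submodule.span ℕ (circuits ℕ G)) :
    (fun e : G.edgeSet => (x e : ℤ)) ∈ Submodule.span ℤ (circuits ℤ G) := by
  induction h using Submodule.span_induction with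
  | mem x hx =>
    obtain ⟨v, c, hc, h⟩ := hx
    refine Submodule.subset_span ⟨v, c, hc, fun e => ?_⟩
    show ((x e : ℕ) : ℤ) = _
    rw [h]
    split_ifs <;> simp
  | zero =>
    have : (fun e : G.edgeSet => (((0 : G.edgeSet → ℕ) e : ℕ) : ℤ)) = 0 := by
      funext e
      simp
    rw [this]
    exact Submodule.zero_mem _
  | add x y _ _ hx hy =>
    have : (fun e : G.edgeSet => (((x + y) e : ℕ) : ℤ)) =
        (fun e => (x e : ℤ)) + (fun e => (y e : ℤ)) := by
      funext e
      simp
    rw [this]
    exact Submodule.add_mem _ hx hy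
  | smul n x _ hx =>
    have : (fun e : G.edgeSet => (((n • x) e : ℕ) : ℤ)) = (n : ℤ) • (fun e => (x e : ℤ)) := by
      funext e
      simp
    rw [this]
    exact Submodule.smul_mem _ _ hx

lemma int_even {x : G.edgeSet → ℤ} (h : x ∈ Submodule.span ℤ (circuits ℤ G)) (v : V) :
    Even (deg x v) := by
  induction h using Submodule.span_induction with
  | mem x hx =>
    obtain ⟨y, c, hc, h⟩ := hx
    rw [deg_circuit ℤ hc h v]
    push_cast
    exact even_two_mul _
  | zero =>
    rw [deg_zero]
    exact Even.zero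
  | add x y _ _ hx hy =>
    rw [deg_add]
    exact hx.add hy
  | smul n x _ hx =>
    have : deg (n • x) v = n * deg x v := by
      unfold deg
      rw [Finset.mul_sum]
      refine Finset.sum_congr rfl fun t _ => ?_
      split_ifs with h
      · rfl
      · rw [mul_zero]
    rw [this]
    exact hx.mul_left n

lemma real_star {x : G.edgeSet → ℝ} (h : x ∈ Submodule.span ℝ≥0 (circuits ℝ G)) {v s : V}
    (hvs : G.Adj v s) : 2 * x ⟨s(v, s), hvs⟩ ≤ deg x v := by
  induction h using Submodule.span_induction with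
  | mem x hx =>
    obtain ⟨y, c, hc, h⟩ := hx
    rw [deg_circuit ℝ hc h v, h]
    have h1 : dc c v s + dc c s v = if s(v, s) ∈ c.edges then 1 else 0 := dc_cycle hc hvs.ne
    have h2 : dc c v s ≤ ∑ t, dc c v t :=
      Finset.single_le_sum (f := fun t => dc c v t) (fun _ _ => Nat.zero_le _) (mem_univ s)
    have h3 : dc c s v ≤ ∑ t, dc c t v :=
      Finset.single_le_sum (f := fun t => dc c t v) (fun _ _ => Nat.zero_le _) (mem_univ s)
    rw [← dc_closed c v] at h3
    have h4 : 2 * (if s(v, s) ∈ c.edges then 1 else 0) ≤ 2 * ∑ t, dc c v t := by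
      split_ifs at h1 ⊢
      · omega
      · omega
    have h5 : ((2 * (if s(v, s) ∈ c.edges then 1 else 0) : ℕ) : ℝ) ≤
        ((2 * ∑ t, dc c v t : ℕ) : ℝ) := by exact_mod_cast h4
    refine le_trans (le_of_eq ?_) h5
    push_cast
    rfl
  | zero =>
    rw [deg_zero]
    simp
  | add x y _ _ hx hy =>
    rw [deg_add]
    have : (x + y) ⟨s(v, s), hvs⟩ = x ⟨s(v, s), hvs⟩ + y ⟨s(v, s), hvs⟩ := rfl
    rw [this]
    linarith
  | smul a x _ hx =>
    have h1 : deg (a • x) v = (a : ℝ) * deg x v := by
      unfold deg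
      rw [Finset.mul_sum]
      refine Finset.sum_congr rfl fun t _ => ?_
      split_ifs with h
      · rfl
      · rw [mul_zero]
    have h2 : (a • x) ⟨s(v, s), hvs⟩ = (a : ℝ) * x ⟨s(v, s), hvs⟩ := rfl
    rw [h1, h2]
    have := mul_le_mul_of_nonneg_left hx (NNReal.coe_nonneg a)
    linarith

lemma deg_weight {R : Type} [AddCommMonoid R] (p : Sym2 V → R) (v : V) :
    deg (fun e : G.edgeSet => p e) v = ∑ t with G.Adj v t, p s(v, t) := by
  unfold deg
  rw [Finset.sum_filter]
  refine Finset.sum_congr rfl fun t _ => ?_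
  split_ifs <;> rfl

end

/-- A Cayley graph `G` of a finite group with a weighting `p` of its edges which is invariant under
the group (the values on non-edges play no role). Then `p` is a sum of circuits if and only if it
lies in the cone and in the lattice of the circuits, if and only if the sum of the weights at a
vertex is even and no edge is heavier than all other edges at its end together. -/
theorem result (Γ : Type) [Group Γ] [Fintype Γ] (G : SimpleGraph Γ)
    (hG : ∀ a u v : Γ, G.Adj u v → G.Adj (a * u) (a * v))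
    (p : Sym2 Γ → ℕ) (hp : ∀ a u v : Γ, G.Adj u v → p s(a * u, a * v) = p s(u, v)) :
    [(fun e : G.edgeSet => p e) ∈ Submodule.span ℕ (circuits ℕ G),
      (fun e : G.edgeSet => (p e : ℝ)) ∈ Submodule.span ℝ≥0 (circuits ℝ G) ∧
        (fun e : G.edgeSet => (p e : ℤ)) ∈ Submodule.span ℤ (circuits ℤ G),
      Even (∑ t with G.Adj 1 t, p s(1, t)) ∧
        ∀ s, G.Adj 1 s → 2 * p s(1, s) ≤ ∑ t with G.Adj 1 t, p s(1, t)].TFAE := by
  tfae_have 1 → 2 := fun h => ⟨nat_to_real h, nat_to_int h⟩
  tfae_have 2 → 3 := by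
    rintro ⟨h1, h2⟩
    constructor
    · have h3 := int_even h2 1
      have h4 := deg_weight (G := G) (fun e => (p e : ℤ)) 1
      rw [h4, ← Nat.cast_sum] at h3
      exact_mod_cast h3
    · intro s hs
      have h3 := real_star h1 hs
      have h4 := deg_weight (G := G) (fun e => (p e : ℝ)) 1
      rw [h4, ← Nat.cast_sum] at h3
      exact_mod_cast h3
  tfae_have 3 → 1 := by
    rintro ⟨h1, h2⟩
    let c : Γ → ℕ := fun s => if G.Adj 1 s then p s(1, s) else 0
    have hsum : ∑ s, c s = ∑ t with G.Adj 1 t, p s(1, t) := by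
      rw [Finset.sum_filter]
    have hc : ∀ s, G.Adj 1 s → c s = p s(1, s) := fun s hs => if_pos hs
    have hinv' : ∀ s, G.Adj 1 s → G.Adj 1 s⁻¹ := by
      intro s hs
      have := hG s⁻¹ 1 s hs
      rw [mul_one, inv_mul_cancel] at this
      exact this.symm
    have hcov := cover (H := G) (∑ s, c s) c rfl ?_ ?_ ?_ ?_
    · obtain ⟨C, hC, hC'⟩ := hcov
      have h3 := cnt_mem C hC
      have h4 : (fun e : G.edgeSet => cnt C e) = fun e : G.edgeSet => p e := by
        funext e
        obtain ⟨e, he⟩ := e
        induction e using Sym2.ind with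
        | _ u v =>
        have he' : G.Adj u v := he
        show cnt C s(u, v) = p s(u, v)
        rw [cnt_eq C hC he'.ne, hC' u v]
        show c (u⁻¹ * v) = p s(u, v)
        have h5 : G.Adj 1 (u⁻¹ * v) := by
          have := hG u⁻¹ u v he'
          rwa [inv_mul_cancel] at this
        rw [hc _ h5]
        have h6 := hp u 1 (u⁻¹ * v) h5
        rw [mul_one, mul_inv_cancel_left] at h6
        exact h6.symm
      rw [← h4]
      exact h3
    · intro s
      by_cases hs : G.Adj 1 s
      · rw [hc s hs, hc s⁻¹ (hinv' s hs)]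
        have := hp s 1 s⁻¹ (hinv' s hs)
        rw [mul_one, mul_inv_cancel] at this
        rw [← this, Sym2.eq_swap]
      · have hs' : ¬ G.Adj 1 s⁻¹ := fun h => hs (by have := hinv' s⁻¹ h; rwa [inv_inv] at this)
        show (if G.Adj 1 s⁻¹ then _ else 0) = (if G.Adj 1 s then _ else 0)
        rw [if_neg hs, if_neg hs']
    · intro s hs x
      have h3 : G.Adj 1 s := by
        by_contra h
        exact hs (if_neg h)
      have := hG x 1 s h3
      rwa [mul_one] at this
    · rw [hsum]
      exact h1
    · intro s _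
      rw [hsum]
      by_cases hs : G.Adj 1 s
      · rw [hc s hs]
        exact h2 s hs
      · have : c s = 0 := if_neg hs
        rw [this]
        exact Nat.zero_le _
  tfae_finish

end Pool.Agent.R759.CayleyInvariant
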