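import Pool.Agent.R759.FPDefs

/-! # The join of the boundary of a simplex with two points -/

set_option autoImplicit false

namespace Pool.Agent.R759.FP

open Finset

/-- the vertices of the boundary of the simplex -/
def pv {m : ℕ} (i : Fin (m + 1)) : Fin (m + 3) := i.castSucc.castSucc

/-- the two apexes -/
def ap {m : ℕ} (b : Bool) : Fin (m + 3) := if b then Fin.last (m + 2) else (Fin.last (m + 1)).castSucc

@[simp] lemma pv_val {m : ℕ} (i : Fin (m + 1)) : (pv i : ℕ) = i := rfl

@[simp] lemma ap_true_val {m : ℕ} : ((ap true : Fin (m + 3)) : ℕ) = m + 2 := rfl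

@[simp] lemma ap_false_val {m : ℕ} : ((ap false : Fin (m + 3)) : ℕ) = m + 1 := rfl

lemma pv_inj {m : ℕ} {i j : Fin (m + 1)} : pv i = pv j ↔ i = j := by
  constructor
  · intro h
    exact Fin.ext (by have := congrArg Fin.val h; simpa using this)
  · rintro rfl; rfl

lemma ap_inj {m : ℕ} {b c : Bool} : (ap b : Fin (m + 3)) = ap c ↔ b = c := by
  constructor
  · intro h
    have := congrArg Fin.val h
    cases b <;> cases c
    · rfl
    · rw [ap_false_val, ap_true_val] at this; omega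
    · rw [ap_false_val, ap_true_val] at this; omega
    · rfl
  · rintro rfl; rfl

lemma pv_ne_ap {m : ℕ} (i : Fin (m + 1)) (b : Bool) : pv i ≠ ap b := by
  intro h
  have := congrArg Fin.val h
  have hi := i.2
  cases b <;> simp at this <;> omega

lemma ap_ne_pv {m : ℕ} (i : Fin (m + 1)) (b : Bool) : ap b ≠ pv i := (pv_ne_ap i b).symm

lemma vertex_cases {m : ℕ} (v : Fin (m + 3)) : (∃ i, v = pv i) ∨ ∃ b, v = ap b := by
  by_cases h : (v : ℕ) < m + 1
  · exact Or.inl ⟨⟨v, h⟩, Fin.ext rfl⟩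
  · right
    have hv := v.2
    by_cases h2 : (v : ℕ) = m + 1
    · exact ⟨false, Fin.ext (by simp [h2])⟩
    · exact ⟨true, Fin.ext (by simp; omega)⟩

/-- the facet which misses `pv i` and `ap c` -/
def fac {m : ℕ} (i : Fin (m + 1)) (c : Bool) : Finset (Fin (m + 3)) := {pv i, ap c}ᶜ

lemma mem_fac {m : ℕ} {i : Fin (m + 1)} {c : Bool} {v : Fin (m + 3)} :
    v ∈ fac i c ↔ v ≠ pv i ∧ v ≠ ap c := by
  simp [fac, not_or]

lemma pv_mem_fac {m : ℕ} {i k : Fin (m + 1)} {c : Bool} : pv k ∈ fac i c ↔ k ≠ i := by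
  rw [mem_fac]
  constructor
  · rintro ⟨h, _⟩ rfl
    exact h rfl
  · intro h
    exact ⟨fun e => h (pv_inj.1 e), pv_ne_ap _ _⟩

lemma ap_mem_fac {m : ℕ} {i : Fin (m + 1)} {b c : Bool} : ap b ∈ fac i c ↔ b ≠ c := by
  rw [mem_fac]
  constructor
  · rintro ⟨_, h⟩ rfl
    exact h rfl
  · intro h
    exact ⟨ap_ne_pv _ _, fun e => h (ap_inj.1 e)⟩

lemma fac_inj {m : ℕ} {i j : Fin (m + 1)} {c d : Bool} (h : fac i c = fac j d) :
    i = j ∧ c = d := by
  constructor
  · by_contra hne
    have : pv i ∈ fac j d := pv_mem_fac.2 hne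
    rw [← h, pv_mem_fac] at this
    exact this rfl
  · by_contra hne
    have : ap c ∈ fac j d := ap_mem_fac.2 hne
    rw [← h, ap_mem_fac] at this
    exact this rfl

lemma card_fac {m : ℕ} (i : Fin (m + 1)) (c : Bool) : (fac i c).card = m + 1 := by
  rw [fac, card_compl, card_pair (pv_ne_ap i c), Fintype.card_fin]
  omega

/-- all facets -/
def facs (m : ℕ) : Finset (Finset (Fin (m + 3))) :=
  univ.image fun p : Fin (m + 1) × Bool => fac p.1 p.2

lemma mem_facs {m : ℕ} {F : Finset (Fin (m + 3))} : F ∈ facs m ↔ ∃ i c, F = fac i c := by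
  constructor
  · intro h
    obtain ⟨p, _, hp⟩ := mem_image.1 h
    exact ⟨p.1, p.2, hp.symm⟩
  · rintro ⟨i, c, rfl⟩
    exact mem_image.2 ⟨(i, c), mem_univ _, rfl⟩

lemma fac_mem_facs {m : ℕ} (i : Fin (m + 1)) (c : Bool) : fac i c ∈ facs m :=
  mem_facs.2 ⟨i, c, rfl⟩

/-- the sign attached to a vertex -/
def sv {m : ℕ} (v : Fin (m + 3)) : ℤ :=
  if (v : ℕ) ≤ m then (-1) ^ (v : ℕ) else if (v : ℕ) = m + 1 then 1 else -1

/-- the sign of a facet -/
def sgF {m : ℕ} (F : Finset (Fin (m + 3))) : ℤ := ∏ v ∈ Fᶜ, sv v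

lemma sgF_fac {m : ℕ} (i : Fin (m + 1)) (c : Bool) :
    sgF (fac i c) = (-1) ^ (i : ℕ) * (if c then -1 else 1) := by
  rw [sgF, fac, compl_compl, prod_pair (pv_ne_ap i c)]
  congr 1
  · simp [sv, Nat.lt_succ_iff.1 i.2]
  · cases c <;> simp [sv]

lemma card_filter_pv {m : ℕ} (i j : Fin (m + 1)) (c : Bool) :
    ((fac i c).filter (· < pv j)).card = if i < j then (j : ℕ) - 1 else j := by
  have h : (fac i c).filter (· < pv j) = (Iio (pv j)).erase (pv i) := by
    ext w
    rw [mem_filter, mem_fac, mem_erase, mem_Iio]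
    constructor
    · rintro ⟨⟨h1, h2⟩, h3⟩
      exact ⟨h1, h3⟩
    · rintro ⟨h1, h3⟩
      refine ⟨⟨h1, ?_⟩, h3⟩
      rintro rfl
      have hj := j.2
      rw [Fin.lt_def] at h3
      cases c <;> simp at h3 <;> omega
  rw [h]
  split_ifs with hlt
  · rw [card_erase_of_mem, Fin.card_Iio]
    · rfl
    · rw [mem_Iio, Fin.lt_def]
      exact hlt
  · rw [erase_eq_of_notMem, Fin.card_Iio]
    · rfl
    · rw [mem_Iio, Fin.lt_def]
      exact hlt

lemma card_filter_ap {m : ℕ} (i : Fin (m + 1)) (b c : Bool) (hbc : b ≠ c) :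
    ((fac i c).filter (· < ap b)).card = m := by
  have h : (fac i c).filter (· < ap b) = (univ.erase i).image pv := by
    ext w
    rw [mem_filter, mem_fac, mem_image]
    constructor
    · rintro ⟨⟨h1, h2⟩, h3⟩
      rcases vertex_cases w with ⟨k, rfl⟩ | ⟨d, rfl⟩
      · exact ⟨k, mem_erase.2 ⟨fun e => h1 (by rw [e]), mem_univ _⟩, rfl⟩
      · exfalso
        have hd : d = b := by
          cases d <;> cases b <;> cases c <;> simp_all
        subst hd
        exact lt_irrefl _ h3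
    · rintro ⟨k, hk, rfl⟩
      have hki := (mem_erase.1 hk).1
      refine ⟨⟨fun e => hki (pv_inj.1 e), pv_ne_ap _ _⟩, ?_⟩
      rw [Fin.lt_def]
      have hk2 := k.2
      cases b <;> simp <;> omega
  rw [h, card_image_of_injective _ (fun _ _ e => pv_inj.1 e), card_erase_of_mem (mem_univ _),
    card_univ, Fintype.card_fin]
  rfl

lemma two_facets_aux {m : ℕ} (F : Finset (Fin (m + 3))) (hF : F ∈ facs m) (v : Fin (m + 3))
    (hv : v ∈ F) : ∃! G, G ∈ facs m ∧ G ≠ F ∧ F.erase v ⊆ G := by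
  obtain ⟨i, c, rfl⟩ := mem_facs.1 hF
  rcases vertex_cases v with ⟨k, rfl⟩ | ⟨b, rfl⟩
  · have hki : k ≠ i := pv_mem_fac.1 hv
    refine ⟨fac k c, ⟨fac_mem_facs _ _, fun e => hki (fac_inj e).1, ?_⟩, ?_⟩
    · intro w hw
      obtain ⟨h1, h2⟩ := mem_erase.1 hw
      exact mem_fac.2 ⟨h1, (mem_fac.1 h2).2⟩
    · rintro G ⟨hG, hGF, hsub⟩
      obtain ⟨j, d, rfl⟩ := mem_facs.1 hG
      have h1 : j = k ∨ j = i := by
        by_contra hcon
        push Not at hcon
        have : pv j ∈ (fac i c).erase (pv k) :=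
          mem_erase.2 ⟨fun e => hcon.1 (pv_inj.1 e), pv_mem_fac.2 hcon.2⟩
        exact pv_mem_fac.1 (hsub this) rfl
      have h2 : d = c := by
        by_contra hcon
        have : ap d ∈ (fac i c).erase (pv k) := mem_erase.2 ⟨ap_ne_pv _ _, ap_mem_fac.2 hcon⟩
        exact ap_mem_fac.1 (hsub this) rfl
      rcases h1 with rfl | rfl
      · rw [h2]
      · exact absurd (by rw [h2]) hGF
  · have hbc : b ≠ c := ap_mem_fac.1 hv
    refine ⟨fac i b, ⟨fac_mem_facs _ _, fun e => hbc (fac_inj e).2, ?_⟩, ?_⟩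
    · intro w hw
      obtain ⟨h1, h2⟩ := mem_erase.1 hw
      exact mem_fac.2 ⟨(mem_fac.1 h2).1, h1⟩
    · rintro G ⟨hG, hGF, hsub⟩
      obtain ⟨j, d, rfl⟩ := mem_facs.1 hG
      have h1 : j = i := by
        by_contra hcon
        have : pv j ∈ (fac i c).erase (ap b) := mem_erase.2 ⟨pv_ne_ap _ _, pv_mem_fac.2 hcon⟩
        exact pv_mem_fac.1 (hsub this) rfl
      have h2 : d = b ∨ d = c := by
        by_contra hcon
        push Not at hcon
        have : ap d ∈ (fac i c).erase (ap b) :=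
          mem_erase.2 ⟨fun e => hcon.1 (ap_inj.1 e), ap_mem_fac.2 hcon.2⟩
        exact ap_mem_fac.1 (hsub this) rfl
      rcases h2 with rfl | rfl
      · rw [h1]
      · exact absurd (by rw [h1]) hGF

lemma connected_aux {m : ℕ} (F : Finset (Fin (m + 3))) (hF : F ∈ facs m)
    (G : Finset (Fin (m + 3))) (hG : G ∈ facs m) :
    Relation.ReflTransGen (fun A B => A ∈ facs m ∧ B ∈ facs m ∧ (A ∩ B).card + 1 = m + 1) F G := by
  obtain ⟨i, c, rfl⟩ := mem_facs.1 hF
  obtain ⟨j, d, rfl⟩ := mem_facs.1 hG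
  have h1 : Relation.ReflTransGen
      (fun A B => A ∈ facs m ∧ B ∈ facs m ∧ (A ∩ B).card + 1 = m + 1) (fac i c) (fac j c) := by
    by_cases hij : i = j
    · rw [hij]
    · refine Relation.ReflTransGen.single ⟨fac_mem_facs _ _, fac_mem_facs _ _, ?_⟩
      have : fac i c ∩ fac j c = ({pv i, pv j, ap c} : Finset (Fin (m + 3)))ᶜ := by
        ext w
        rw [mem_inter, mem_fac, mem_fac]
        simp
        tauto
      rw [this, card_compl, Fintype.card_fin, card_insert_of_notMem, card_pair (pv_ne_ap j c)]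
      · omega
      · simp only [mem_insert, mem_singleton, not_or]
        exact ⟨fun e => hij (pv_inj.1 e), pv_ne_ap _ _⟩
  have h2 : Relation.ReflTransGen
      (fun A B => A ∈ facs m ∧ B ∈ facs m ∧ (A ∩ B).card + 1 = m + 1) (fac j c) (fac j d) := by
    by_cases hcd : c = d
    · rw [hcd]
    · refine Relation.ReflTransGen.single ⟨fac_mem_facs _ _, fac_mem_facs _ _, ?_⟩
      have : fac j c ∩ fac j d = ({pv j, ap c, ap d} : Finset (Fin (m + 3)))ᶜ := by
        ext w
        rw [mem_inter, mem_fac, mem_fac]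
        simp
        tauto
      rw [this, card_compl, Fintype.card_fin, card_insert_of_notMem, card_pair]
      · omega
      · exact fun e => hcd (ap_inj.1 e)
      · simp only [mem_insert, mem_singleton, not_or]
        exact ⟨pv_ne_ap _ _, pv_ne_ap _ _⟩
  exact h1.trans h2

lemma coherent_aux {m : ℕ} (F : Finset (Fin (m + 3))) (hF : F ∈ facs m)
    (G : Finset (Fin (m + 3))) (hG : G ∈ facs m) (hFG : F ≠ G) (v : Fin (m + 3)) (hv : v ∈ F)
    (w : Fin (m + 3)) (hw : w ∈ G) (h : F.erase v = G.erase w) :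
    sgF F * (-1) ^ (F.filter (· < v)).card = -(sgF G * (-1) ^ (G.filter (· < w)).card) := by
  obtain ⟨i, c, rfl⟩ := mem_facs.1 hF
  obtain ⟨j, d, rfl⟩ := mem_facs.1 hG
  have e1 : ∀ x, x ≠ v → x ∈ fac i c → x ≠ w ∧ x ∈ fac j d := fun x h1 h2 =>
    mem_erase.1 (h ▸ mem_erase.2 ⟨h1, h2⟩)
  have e2 : ∀ x, x ≠ w → x ∈ fac j d → x ≠ v ∧ x ∈ fac i c := fun x h1 h2 =>
    mem_erase.1 (h.symm ▸ mem_erase.2 ⟨h1, h2⟩)
  by_cases hij : i = j
  · subst hij
    have hcd : c ≠ d := fun e => hFG (by rw [e])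
    have hvd : v = ap d := by
      by_contra hcon
      have := (e1 (ap d) (Ne.symm hcon) (ap_mem_fac.2 (Ne.symm hcd))).2
      exact ap_mem_fac.1 this rfl
    have hwc : w = ap c := by
      by_contra hcon
      have := (e2 (ap c) (Ne.symm hcon) (ap_mem_fac.2 hcd)).2
      exact ap_mem_fac.1 this rfl
    rw [hvd, hwc, card_filter_ap i d c (Ne.symm hcd), card_filter_ap i c d hcd, sgF_fac, sgF_fac]
    cases c <;> cases d <;> simp_all
  · have hvj : v = pv j := by
      by_contra hcon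
      have := (e1 (pv j) (Ne.symm hcon) (pv_mem_fac.2 (Ne.symm hij))).2
      exact pv_mem_fac.1 this rfl
    have hwi : w = pv i := by
      by_contra hcon
      have := (e2 (pv i) (Ne.symm hcon) (pv_mem_fac.2 hij)).2
      exact pv_mem_fac.1 this rfl
    have hcd : c = d := by
      by_contra hcon
      have := (e1 (ap d) (by rw [hvj]; exact ap_ne_pv _ _) (ap_mem_fac.2 (Ne.symm hcon))).2
      exact ap_mem_fac.1 this rfl
    subst hcd
    rw [hvj, hwi, card_filter_pv i j c, card_filter_pv j i c, sgF_fac, sgF_fac]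
    rcases lt_or_gt_of_ne hij with hlt | hlt
    · rw [if_pos hlt, if_neg (not_lt.2 hlt.le)]
      have hj : (j : ℕ) = ((j : ℕ) - 1) + 1 := by
        have : (i : ℕ) < j := hlt
        omega
      have e : ((-1 : ℤ)) ^ (j : ℕ) = (-1) ^ ((j : ℕ) - 1) * (-1) := by
        conv_lhs => rw [hj]
        rw [pow_succ]
      rw [e]
      ring
    · rw [if_neg (not_lt.2 hlt.le), if_pos hlt]
      have hj : (i : ℕ) = ((i : ℕ) - 1) + 1 := by
        have : (j : ℕ) < i := hlt
        omega
      have e : ((-1 : ℤ)) ^ (i : ℕ) = (-1) ^ ((i : ℕ) - 1) * (-1) := by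
        conv_lhs => rw [hj]
        rw [pow_succ]
      rw [e]
      ring

/-- the join of the boundary of an `m`-simplex with two points -/
def KK (m : ℕ) (hm : 0 < m) : OrientedPseudomanifold (m + 1) where
  numVert := m + 3
  facets := facs m
  nonempty := ⟨fac 0 true, fac_mem_facs _ _⟩
  card_facet F hF := by
    obtain ⟨i, c, rfl⟩ := mem_facs.1 hF
    exact card_fac i c
  vertex_mem v := by
    rcases vertex_cases v with ⟨k, rfl⟩ | ⟨b, rfl⟩
    · by_cases hk : k = 0
      · refine ⟨fac (Fin.last m) true, fac_mem_facs _ _, pv_mem_fac.2 ?_⟩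
        rw [hk]
        intro e
        have := congrArg Fin.val e
        simp at this
        omega
      · exact ⟨fac 0 true, fac_mem_facs _ _, pv_mem_fac.2 hk⟩
    · exact ⟨fac 0 (!b), fac_mem_facs _ _, ap_mem_fac.2 (by cases b <;> simp)⟩
  two_facets := two_facets_aux
  connected := connected_aux
  sign := sgF
  sign_eq F hF := by
    obtain ⟨i, c, rfl⟩ := mem_facs.1 hF
    rw [sgF_fac]
    rcases neg_one_pow_eq_or ℤ (i : ℕ) with h | h <;> rw [h] <;> cases c <;> simp
  coherent := coherent_aux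

/-- the vertices of a facet in increasing order -/
def lst {m : ℕ} (i : Fin (m + 1)) (b : Bool) : Fin (m + 1) → Fin (m + 3) :=
  Fin.snoc (α := fun _ => Fin (m + 3)) (fun j : Fin m => pv (i.succAbove j)) (ap b)

lemma lst_castSucc {m : ℕ} (i : Fin (m + 1)) (b : Bool) (j : Fin m) :
    lst i b j.castSucc = pv (i.succAbove j) := by
  simp [lst]

lemma lst_last {m : ℕ} (i : Fin (m + 1)) (b : Bool) : lst i b (Fin.last m) = ap b := by
  simp [lst]

lemma lst_strictMono {m : ℕ} (i : Fin (m + 1)) (b : Bool) : StrictMono (lst i b) := by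
  intro j k hjk
  induction j using Fin.lastCases with
  | last => exact absurd hjk (not_lt.2 (Fin.le_last k))
  | cast j =>
    rw [lst_castSucc]
    induction k using Fin.lastCases with
    | last =>
      rw [lst_last, Fin.lt_def]
      have := (i.succAbove j).2
      cases b <;> simp <;> omega
    | cast k =>
      rw [lst_castSucc, Fin.lt_def]
      have h1 : j < k := by simpa using hjk
      have h2 := (Fin.strictMono_succAbove i) h1
      exact h2

lemma vtx_eq {m : ℕ} (hm : 0 < m) (i : Fin (m + 1)) (c : Bool) (h : fac i c ∈ (KK m hm).facets) :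
    vtx (KK m hm) ⟨fac i c, h⟩ = lst i (!c) := by
  have h1 : ∀ x, lst i (!c) x ∈ fac i c := by
    intro x
    induction x using Fin.lastCases with
    | last => rw [lst_last]; exact ap_mem_fac.2 (by cases c <;> simp)
    | cast x => rw [lst_castSucc]; exact pv_mem_fac.2 (Fin.succAbove_ne i x)
  have h2 := Finset.orderEmbOfFin_unique (card_fac i c) h1 (lst_strictMono i (!c))
  funext x
  exact (congrFun h2 x).symm

end Pool.Agent.R759.FP
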