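import Mathlib

/-! # Flexible polyhedra in the sphere: definitions -/

set_option autoImplicit false

namespace Pool.Agent.R759.FP

open MeasureTheory

/-- A finite oriented pseudomanifold without boundary of dimension `n - 1`: a simplicial complex on
the vertices `0, …, numVert - 1`, given by its facets, which all have `n` vertices. Every
`(n - 2)`-face lies in exactly two facets, and any two facets are joined by a chain of facets such
that neighbours share an `(n - 2)`-face. An orientation of the facets is recorded by `sign`:
`sign F = 1` if the increasing order of the vertices of `F` is positive, and `sign F = -1`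
otherwise. The orientation which `F` induces on the face `F.erase v` is then
`sign F * (-1) ^ (number of vertices of F before v)`, relative to the increasing order; two
different facets which share an `(n - 2)`-face induce opposite orientations on it. -/
structure OrientedPseudomanifold (n : ℕ) where
  /-- the number of vertices -/
  numVert : ℕ
  /-- the facets -/
  facets : Finset (Finset (Fin numVert))
  nonempty : facets.Nonempty
  card_facet : ∀ F ∈ facets, F.card = n
  vertex_mem : ∀ v, ∃ F ∈ facets, v ∈ F
  two_facets : ∀ F ∈ facets, ∀ v ∈ F, ∃! G, G ∈ facets ∧ G ≠ F ∧ F.erase v ⊆ G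
  connected : ∀ F ∈ facets, ∀ G ∈ facets,
    Relation.ReflTransGen (fun A B => A ∈ facets ∧ B ∈ facets ∧ (A ∩ B).card + 1 = n) F G
  /-- the orientation of the facets -/
  sign : Finset (Fin numVert) → ℤ
  sign_eq : ∀ F ∈ facets, sign F = 1 ∨ sign F = -1
  coherent : ∀ F ∈ facets, ∀ G ∈ facets, F ≠ G → ∀ v ∈ F, ∀ w ∈ G, F.erase v = G.erase w →
    sign F * (-1) ^ (F.filter (· < v)).card = -(sign G * (-1) ^ (G.filter (· < w)).card)

/-- the Euclidean space `ℝ^(n+1)` -/
abbrev EE (n : ℕ) := EuclideanSpace ℝ (Fin (n + 1))

/-- the unit sphere `S^n` in `ℝ^(n+1)` -/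
abbrev Sph (n : ℕ) := Metric.sphere (0 : EE n) 1

variable {n : ℕ}

/-- `P` (given by the images of the vertices) is a polyhedron of type `K`: the vertex vectors of
every facet, and hence of every simplex of `K`, are linearly independent. -/
def IsPolyhedron (K : OrientedPseudomanifold n) (P : Fin K.numVert → Sph n) : Prop :=
  ∀ F ∈ K.facets, LinearIndependent ℝ (fun v : {v // v ∈ F} => (P v : EE n))

/-- The image `P(K)`: the union of the spherical simplices with the vertices `P v`, `v ∈ F`. -/
def image (K : OrientedPseudomanifold n) (P : Fin K.numVert → Sph n) : Set (Sph n) :=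
  {z | ∃ F ∈ K.facets, ∃ c : Fin K.numVert → ℝ, (∀ v, 0 ≤ c v) ∧
    (z : EE n) = ∑ v ∈ F, c v • (P v : EE n)}

/-- The configuration space of `P₀`: all polyhedra of type `K` with the same edge lengths. It
carries the topology of a subset of `(S^n)^V`. -/
def Config (K : OrientedPseudomanifold n) (P₀ : Fin K.numVert → Sph n) :
    Set (Fin K.numVert → Sph n) :=
  {P | IsPolyhedron K P ∧ ∀ F ∈ K.facets, ∀ v ∈ F, ∀ w ∈ F,
    InnerProductGeometry.angle (P v : EE n) (P w : EE n) =
      InnerProductGeometry.angle (P₀ v : EE n) (P₀ w : EE n)}

/-- `P₀` is flexible: some continuous path in its configuration space which starts at `P₀` is not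
induced by a continuous family of isometries of the sphere. -/
def IsFlexible (K : OrientedPseudomanifold n) (P₀ : Fin K.numVert → Sph n) : Prop :=
  ∃ c : unitInterval → (Fin K.numVert → Sph n), Continuous c ∧ c 0 = P₀ ∧
    (∀ t, c t ∈ Config K P₀) ∧
    ¬ ∃ g : unitInterval → (EE n ≃ₗᵢ[ℝ] EE n),
      (Continuous fun t => ((g t).toContinuousLinearEquiv : EE n →L[ℝ] EE n)) ∧
      ∀ t v, (c t v : EE n) = g t (P₀ v : EE n)

/-- the vertices of a facet in increasing order -/
def vtx (K : OrientedPseudomanifold n) (F : {F // F ∈ K.facets}) : Fin n → Fin K.numVert :=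
  fun i => F.1.orderEmbOfFin (K.card_facet F.1 F.2) i

/-- the determinant of the vectors `P v₁, …, P vₙ, d`, where `v₁ < … < vₙ` are the vertices of
the facet `F` -/
noncomputable def orientDet (K : OrientedPseudomanifold n) (P : Fin K.numVert → Sph n)
    (F : {F // F ∈ K.facets}) (d : EE n) : ℝ :=
  Matrix.det (fun (i j : Fin (n + 1)) =>
    (Fin.snoc (α := fun _ => EE n) (fun i : Fin n => (P (vtx K F i) : EE n)) d i : EE n) j)

open Classical in
/-- The crossing number of the geodesic from `y` to `x` with the simplex `P(F)`, where `F` has the
orientation given by the increasing order of its vertices. The geodesic is the central projection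
of the segment from `y` to `x`; it crosses the open simplex if some point of the segment is a
positive combination of the vertex vectors. The crossing counts `1` or `-1` according to the side
from which the geodesic comes. -/
noncomputable def crossing (K : OrientedPseudomanifold n) (P : Fin K.numVert → Sph n)
    (F : {F // F ∈ K.facets}) (y x : Sph n) : ℤ :=
  if ∃ s : ℝ, 0 < s ∧ s < 1 ∧ ∃ c : Fin n → ℝ, (∀ i, 0 < c i) ∧
      (1 - s) • (y : EE n) + s • (x : EE n) = ∑ i, c i • (P (vtx K F i) : EE n) then
    (SignType.sign (orientDet K P F ((x : EE n) - (y : EE n))) : ℤ)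
  else 0

/-- `ind_y(x)`: the algebraic intersection number with `P(K)` of the geodesic from `y` to `x`
(for given `y ∉ P(K)` this geodesic is generic for almost all `x`). -/
noncomputable def ind (K : OrientedPseudomanifold n) (P : Fin K.numVert → Sph n)
    (y x : Sph n) : ℤ :=
  ∑ F : {F // F ∈ K.facets}, K.sign F.1 * crossing K P F y x

/-- `V_y(P) = ∫ ind_y(x) dx`, the integral over the sphere with respect to the surface measure. -/
noncomputable def volFrom (K : OrientedPseudomanifold n) (P : Fin K.numVert → Sph n)
    (y : Sph n) : ℝ :=
  ∫ x : Sph n, (ind K P y x : ℝ) ∂((volume : Measure (EE n)).toSphere)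

/-- the volume of `S^n` -/
noncomputable def volS (n : ℕ) : ℝ := ((volume : Measure (EE n)).toSphere).real Set.univ

/-- `v` represents the oriented volume of `P` in `ℝ / vol(S^n) ℤ`: there are points `y` outside
the image of `P`, and `v` is congruent to `V_y(P)` for all of them. -/
def RepresentsVolume (K : OrientedPseudomanifold n) (P : Fin K.numVert → Sph n) (v : ℝ) : Prop :=
  (∃ y : Sph n, y ∉ image K P) ∧
    ∀ y : Sph n, y ∉ image K P → ∃ k : ℤ, v = volFrom K P y + k * volS n

/-- `δ` is the increment of the oriented volume along the closed curve `γ`: there is a continuous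
real function which represents the oriented volume along `γ` and which changes by `δ`. -/
def IsIncrement (K : OrientedPseudomanifold n) (γ : unitInterval → (Fin K.numVert → Sph n))
    (δ : ℝ) : Prop :=
  ∃ V : unitInterval → ℝ, Continuous V ∧ (∀ t, RepresentsVolume K (γ t) (V t)) ∧ V 1 - V 0 = δ

end Pool.Agent.R759.FP
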