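import Pool.Agent.R759.FPComb

/-! # The polyhedra: two half-spheres with a common boundary -/

set_option autoImplicit false

namespace Pool.Agent.R759.FP

open Finset

variable {m : ℕ}

/-- the first `m` coordinates -/
def cw (l : Fin m) : Fin (m + 2) := Fin.castAdd 2 l
/-- the coordinate `m` -/
def c1 : Fin (m + 2) := Fin.natAdd m (0 : Fin 2)
/-- the coordinate `m + 1` -/
def c2 : Fin (m + 2) := Fin.natAdd m (1 : Fin 2)

lemma sum_coord (f : Fin (m + 2) → ℝ) : ∑ j, f j = ∑ l : Fin m, f (cw l) + (f c1 + f c2) := by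
  rw [Fin.sum_univ_add, Fin.sum_univ_two]
  rfl

lemma coord_ext {x y : EE (m + 1)} (h : ∀ l : Fin m, x (cw l) = y (cw l)) (h1 : x c1 = y c1)
    (h2 : x c2 = y c2) : x = y := by
  ext j
  revert j
  show ∀ j : Fin (m + 2), x j = y j
  intro j
  refine Fin.addCases (m := m) (n := 2) (fun l => h l) (fun l => ?_) j
  fin_cases l
  · exact h1
  · exact h2

/-- a vector with given coordinates -/
noncomputable def mk (w : Fin m → ℝ) (a b : ℝ) : EE (m + 1) :=
  WithLp.toLp 2 (Fin.addCases (m := m) (n := 2) (motive := fun _ => ℝ) w ![a, b])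

@[simp] lemma mk_cw (w : Fin m → ℝ) (a b : ℝ) (l : Fin m) : (mk w a b) (cw l) = w l := by
  simp [mk, cw]

@[simp] lemma mk_c1 (w : Fin m → ℝ) (a b : ℝ) : (mk w a b) c1 = a := by
  simp [mk, c1]

@[simp] lemma mk_c2 (w : Fin m → ℝ) (a b : ℝ) : (mk w a b) c2 = b := by
  simp [mk, c2]

lemma inner_coord (x y : EE (m + 1)) :
    inner ℝ x y = ∑ l : Fin m, x (cw l) * y (cw l) + (x c1 * y c1 + x c2 * y c2) := by
  rw [PiLp.inner_apply, sum_coord]
  simp only [RCLike.inner_apply, conj_trivial]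
  congr 1
  · exact sum_congr rfl fun l _ => mul_comm _ _
  · ring

lemma norm_sq_coord (x : EE (m + 1)) :
    ‖x‖ ^ 2 = ∑ l : Fin m, x (cw l) ^ 2 + (x c1 ^ 2 + x c2 ^ 2) := by
  rw [← real_inner_self_eq_norm_sq, inner_coord]
  congr 1
  · exact sum_congr rfl fun l _ => (sq _).symm
  · ring

/-- the vectors `p_0, …, p_m` -/
noncomputable def pvec (k : Fin (m + 1)) : EE (m + 1) :=
  mk (fun l => if k = Fin.last m then -(1 / √(m : ℝ)) else if k = l.castSucc then 1 else 0) 0 0

/-- the apex with angle `φ` -/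
noncomputable def avec (φ : ℝ) : EE (m + 1) :=
  mk (fun l => if (l : ℕ) = 0 then 3 / 5 else 0) (4 / 5 * Real.cos φ) (4 / 5 * Real.sin φ)

lemma sum_zero_val (hm : 0 < m) (a : ℝ) :
    ∑ l : Fin m, (if (l : ℕ) = 0 then a else 0) = a := by
  rw [sum_eq_single (⟨0, hm⟩ : Fin m)]
  · simp
  · intro b _ hb
    rw [if_neg]
    intro h
    exact hb (Fin.ext h)
  · intro h
    exact absurd (mem_univ _) h

lemma norm_pvec (hm : 0 < m) (k : Fin (m + 1)) : ‖(pvec k : EE (m + 1))‖ = 1 := by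
  have hm' : (0 : ℝ) < m := by exact_mod_cast hm
  have h : ‖(pvec k : EE (m + 1))‖ ^ 2 = 1 := by
    rw [norm_sq_coord, pvec]
    simp only [mk_cw, mk_c1, mk_c2]
    by_cases hk : k = Fin.last m
    · simp only [hk, if_true, neg_sq, div_pow, one_pow, Real.sq_sqrt hm'.le, sum_const, card_univ,
        Fintype.card_fin, nsmul_eq_mul]
      field_simp
      ring
    · simp only [hk, if_false]
      obtain ⟨k', rfl⟩ := Fin.exists_castSucc_eq.2 hk
      rw [sum_eq_single k']
      · simp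
      · intro b _ hb
        rw [if_neg]
        · ring
        · intro h
          exact hb (Fin.castSucc_injective _ h).symm
      · intro h
        exact absurd (mem_univ _) h
  nlinarith [norm_nonneg (pvec k : EE (m + 1))]

lemma norm_avec (hm : 0 < m) (φ : ℝ) : ‖(avec φ : EE (m + 1))‖ = 1 := by
  have h : ‖(avec φ : EE (m + 1))‖ ^ 2 = 1 := by
    rw [norm_sq_coord, avec]
    simp only [mk_cw, mk_c1, mk_c2]
    have : ∀ l : Fin m, ((if (l : ℕ) = 0 then (3 / 5 : ℝ) else 0)) ^ 2 =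
        if (l : ℕ) = 0 then 9 / 25 else 0 := by
      intro l
      split_ifs <;> norm_num
    rw [sum_congr rfl fun l _ => this l, sum_zero_val hm]
    nlinarith [Real.sin_sq_add_cos_sq φ]
  nlinarith [norm_nonneg (avec φ : EE (m + 1))]

/-- the vertex vectors -/
noncomputable def gv (θ : ℝ) (v : Fin (m + 3)) : EE (m + 1) :=
  if h : (v : ℕ) < m + 1 then pvec ⟨v, h⟩ else if (v : ℕ) = m + 1 then avec 0 else avec θ

lemma gv_pv (θ : ℝ) (k : Fin (m + 1)) : gv θ (pv k) = pvec k := by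
  have : ((pv k : Fin (m + 3)) : ℕ) < m + 1 := k.2
  rw [gv, dif_pos this]
  rfl

/-- the angle of an apex -/
noncomputable def ang (θ : ℝ) (b : Bool) : ℝ := if b then θ else 0

lemma gv_ap (θ : ℝ) (b : Bool) : gv θ (ap b : Fin (m + 3)) = avec (ang θ b) := by
  cases b <;> simp [gv, ang]

lemma norm_gv (hm : 0 < m) (θ : ℝ) (v : Fin (m + 3)) : ‖gv θ v‖ = 1 := by
  rcases vertex_cases v with ⟨k, rfl⟩ | ⟨b, rfl⟩
  · rw [gv_pv, norm_pvec hm]
  · rw [gv_ap, norm_avec hm]

/-- the polyhedron with angle `θ` -/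
noncomputable def gam (hm : 0 < m) (θ : ℝ) (v : Fin (m + 3)) : Sph (m + 1) :=
  ⟨gv θ v, by rw [mem_sphere_zero_iff_norm]; exact norm_gv hm θ v⟩

lemma gam_coe (hm : 0 < m) (θ : ℝ) (v : Fin (m + 3)) : (gam hm θ v : EE (m + 1)) = gv θ v := rfl

/-- combination of the `p_k` and an apex -/
noncomputable def cmb (C : Fin (m + 1) → ℝ) (μ φ : ℝ) : EE (m + 1) :=
  ∑ k, C k • pvec k + μ • avec φ

lemma pvec_cw_last (l : Fin m) : (pvec (Fin.last m) : EE (m + 1)) (cw l) = -(1 / √(m : ℝ)) := by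
  simp [pvec]

lemma pvec_cw_castSucc (k l : Fin m) :
    (pvec k.castSucc : EE (m + 1)) (cw l) = if k = l then 1 else 0 := by
  have : k.castSucc ≠ Fin.last m := (Fin.castSucc_lt_last k).ne
  simp [pvec, this]

lemma cmb_cw (C : Fin (m + 1) → ℝ) (μ φ : ℝ) (l : Fin m) :
    cmb C μ φ (cw l) = C l.castSucc - C (Fin.last m) / √(m : ℝ) +
      μ * (if (l : ℕ) = 0 then 3 / 5 else 0) := by
  have h : (∑ k, C k • pvec k : EE (m + 1)) (cw l) =
      ∑ k, C k * (pvec k : EE (m + 1)) (cw l) := by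
    rw [WithLp.ofLp_sum, Finset.sum_apply]
    rfl
  rw [cmb, PiLp.add_apply, PiLp.smul_apply, h, Fin.sum_univ_castSucc, pvec_cw_last]
  simp only [pvec_cw_castSucc, mul_ite, mul_one, mul_zero, sum_ite_eq', mem_univ, if_true,
    smul_eq_mul, avec, mk_cw]
  ring

lemma cmb_c1 (C : Fin (m + 1) → ℝ) (μ φ : ℝ) : cmb C μ φ c1 = μ * (4 / 5 * Real.cos φ) := by
  have h : (∑ k, C k • pvec k : EE (m + 1)) c1 = 0 := by
    rw [WithLp.ofLp_sum, Finset.sum_apply]
    refine sum_eq_zero fun k _ => ?_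
    simp [pvec]
  rw [cmb, PiLp.add_apply, PiLp.smul_apply, h]
  simp [avec]

lemma cmb_c2 (C : Fin (m + 1) → ℝ) (μ φ : ℝ) : cmb C μ φ c2 = μ * (4 / 5 * Real.sin φ) := by
  have h : (∑ k, C k • pvec k : EE (m + 1)) c2 = 0 := by
    rw [WithLp.ofLp_sum, Finset.sum_apply]
    refine sum_eq_zero fun k _ => ?_
    simp [pvec]
  rw [cmb, PiLp.add_apply, PiLp.smul_apply, h]
  simp [avec]

/-- the distance from the half-hyperplane of angle `φ` -/
noncomputable def Kf (φ : ℝ) (x : EE (m + 1)) : ℝ := Real.cos φ * x c2 - Real.sin φ * x c1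

/-- the component in the direction of angle `φ` -/
noncomputable def Df (φ : ℝ) (x : EE (m + 1)) : ℝ := Real.cos φ * x c1 + Real.sin φ * x c2

/-- levels -/
noncomputable def Wf (φ : ℝ) (k : Fin (m + 1)) (x : EE (m + 1)) : ℝ :=
  Fin.lastCases (motive := fun _ => ℝ) 0
    (fun l : Fin m => x (cw l) - 3 / 4 * Df φ x * (if (l : ℕ) = 0 then 1 else 0)) k

@[simp] lemma Wf_last (φ : ℝ) (x : EE (m + 1)) : Wf φ (Fin.last m) x = 0 := by
  simp [Wf]

@[simp] lemma Wf_castSucc (φ : ℝ) (l : Fin m) (x : EE (m + 1)) :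
    Wf φ l.castSucc x = x (cw l) - 3 / 4 * Df φ x * (if (l : ℕ) = 0 then 1 else 0) := by
  simp [Wf]

lemma Kf_cmb (C : Fin (m + 1) → ℝ) (μ φ : ℝ) : Kf φ (cmb C μ φ) = 0 := by
  rw [Kf, cmb_c1, cmb_c2]
  ring

lemma Df_cmb (C : Fin (m + 1) → ℝ) (μ φ : ℝ) : Df φ (cmb C μ φ) = 4 / 5 * μ := by
  rw [Df, cmb_c1, cmb_c2]
  linear_combination (4 / 5 * μ) * Real.sin_sq_add_cos_sq φ

/-- rescaled coefficients -/
noncomputable def scl (C : Fin (m + 1) → ℝ) (k : Fin (m + 1)) : ℝ :=
  if k = Fin.last m then C k / √(m : ℝ) else C k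

lemma Wf_cmb (C : Fin (m + 1) → ℝ) (μ φ : ℝ) (k : Fin (m + 1)) :
    Wf φ k (cmb C μ φ) = scl C k - scl C (Fin.last m) := by
  induction k using Fin.lastCases with
  | last => simp
  | cast l =>
    rw [Wf_castSucc, Df_cmb, cmb_cw]
    have : l.castSucc ≠ Fin.last m := (Fin.castSucc_lt_last l).ne
    simp only [scl, this, if_false, if_true]
    split_ifs <;> ring

/-- every point of the closed half-hyperplane is a combination -/
lemma eq_cmb (hm : 0 < m) (φ : ℝ) (x : EE (m + 1)) (hK : Kf φ x = 0) (i : Fin (m + 1)) :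
    x = cmb (fun k => (Wf φ k x - Wf φ i x) * (if k = Fin.last m then √(m : ℝ) else 1))
      (5 / 4 * Df φ x) φ := by
  have hm' : (0 : ℝ) < √(m : ℝ) := Real.sqrt_pos.2 (by exact_mod_cast hm)
  have hs := Real.sin_sq_add_cos_sq φ
  refine coord_ext (fun l => ?_) ?_ ?_
  · rw [cmb_cw]
    have : l.castSucc ≠ Fin.last m := (Fin.castSucc_lt_last l).ne
    simp only [this, if_false, if_true, Wf_last, Wf_castSucc]
    rw [mul_div_assoc, div_self hm'.ne']
    split_ifs <;> ring
  · rw [cmb_c1]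
    rw [Kf] at hK
    rw [Df]
    linear_combination (-(x c1)) * hs - Real.sin φ * hK
  · rw [cmb_c2]
    rw [Kf] at hK
    rw [Df]
    linear_combination (-(x c2)) * hs + Real.cos φ * hK

lemma sum_lst (θ : ℝ) (i : Fin (m + 1)) (b : Bool) (c : Fin (m + 1) → ℝ) :
    ∑ j, c j • gv θ (lst i b j) =
      cmb (i.insertNth (α := fun _ => ℝ) 0 (fun j : Fin m => c j.castSucc)) (c (Fin.last m))
        (ang θ b) := by
  rw [cmb, Fin.sum_univ_castSucc, lst_last, gv_ap]
  congr 1
  rw [Fin.sum_univ_succAbove _ i]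
  simp only [Fin.insertNth_apply_same, zero_smul, zero_add, Fin.insertNth_apply_succAbove,
    lst_castSucc, gv_pv]

/-- the open cone over a facet -/
lemma cone_iff (hm : 0 < m) (θ : ℝ) (i : Fin (m + 1)) (b : Bool) (x : EE (m + 1)) :
    (∃ c : Fin (m + 1) → ℝ, (∀ j, 0 < c j) ∧ x = ∑ j, c j • gv θ (lst i b j)) ↔
      Kf (ang θ b) x = 0 ∧ 0 < Df (ang θ b) x ∧
        ∀ k, k ≠ i → Wf (ang θ b) i x < Wf (ang θ b) k x := by
  have hm' : (0 : ℝ) < √(m : ℝ) := Real.sqrt_pos.2 (by exact_mod_cast hm)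
  constructor
  · rintro ⟨c, hc, rfl⟩
    rw [sum_lst]
    refine ⟨Kf_cmb _ _ _, ?_, fun k hk => ?_⟩
    · rw [Df_cmb]
      have := hc (Fin.last m)
      positivity
    · rw [Wf_cmb, Wf_cmb]
      have h1 : scl (i.insertNth (α := fun _ => ℝ) 0 (fun j : Fin m => c j.castSucc)) i = 0 := by
        rw [scl, Fin.insertNth_apply_same]
        simp
      have h2 : 0 < scl (i.insertNth (α := fun _ => ℝ) 0 (fun j : Fin m => c j.castSucc)) k := by
        obtain ⟨j, rfl⟩ := Fin.exists_succAbove_eq hk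
        rw [scl, Fin.insertNth_apply_succAbove]
        have := hc j.castSucc
        split_ifs
        · positivity
        · exact this
      linarith
  · rintro ⟨hK, hD, hW⟩
    have hx := eq_cmb hm (ang θ b) x hK i
    refine ⟨Fin.snoc (α := fun _ => ℝ) (fun j : Fin m =>
      (Wf (ang θ b) (i.succAbove j) x - Wf (ang θ b) i x) *
        (if i.succAbove j = Fin.last m then √(m : ℝ) else 1)) (5 / 4 * Df (ang θ b) x), ?_, ?_⟩
    · intro j
      induction j using Fin.lastCases with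
      | last => rw [Fin.snoc_last]; positivity
      | cast j =>
        rw [Fin.snoc_castSucc]
        have := hW (i.succAbove j) (Fin.succAbove_ne i j)
        refine mul_pos (by linarith) ?_
        split_ifs
        · exact hm'
        · exact one_pos
    · rw [sum_lst]
      simp only [Fin.snoc_last, Fin.snoc_castSucc]
      conv_lhs => rw [hx]
      congr 1
      funext k
      by_cases hk : k = i
      · subst hk
        rw [Fin.insertNth_apply_same]
        ring
      · obtain ⟨j, rfl⟩ := Fin.exists_succAbove_eq hk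
        rw [Fin.insertNth_apply_succAbove]

lemma sum_vert {M : Type*} [AddCommMonoid M] (f : Fin (m + 3) → M) :
    ∑ v, f v = ∑ k : Fin (m + 1), f (pv k) + f (ap false) + f (ap true) := by
  rw [Fin.sum_univ_castSucc, Fin.sum_univ_castSucc]
  rfl

end Pool.Agent.R759.FP
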