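import Pool.Agent.R759.FPPoly

/-! # The index function of the polyhedra -/

set_option autoImplicit false

namespace Pool.Agent.R759.FP

open Finset

variable {m : ℕ}

/-- signed crossing of a ray, from the signs of three determinants -/
noncomputable def crs (Ky Kx Z : ℝ) : ℤ :=
  if Ky < 0 ∧ 0 < Kx ∧ 0 < Z then 1 else if 0 < Ky ∧ Kx < 0 ∧ Z < 0 then -1 else 0

/-- the determinant of the last two coordinates -/
noncomputable def Zf (y x : EE (m + 1)) : ℝ := y c1 * x c2 - y c2 * x c1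

lemma Kf_add (φ : ℝ) (x y : EE (m + 1)) : Kf φ (x + y) = Kf φ x + Kf φ y := by
  simp only [Kf, PiLp.add_apply]; ring

lemma Kf_smul (φ a : ℝ) (x : EE (m + 1)) : Kf φ (a • x) = a * Kf φ x := by
  simp only [Kf, PiLp.smul_apply, smul_eq_mul]; ring

lemma Kf_sub (φ : ℝ) (x y : EE (m + 1)) : Kf φ (x - y) = Kf φ x - Kf φ y := by
  simp only [Kf, PiLp.sub_apply]; ring

lemma Df_add (φ : ℝ) (x y : EE (m + 1)) : Df φ (x + y) = Df φ x + Df φ y := by
  simp only [Df, PiLp.add_apply]; ring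

lemma Df_smul (φ a : ℝ) (x : EE (m + 1)) : Df φ (a • x) = a * Df φ x := by
  simp only [Df, PiLp.smul_apply, smul_eq_mul]; ring

lemma Wf_add (φ : ℝ) (k : Fin (m + 1)) (x y : EE (m + 1)) :
    Wf φ k (x + y) = Wf φ k x + Wf φ k y := by
  induction k using Fin.lastCases with
  | last => simp
  | cast l => simp only [Wf_castSucc, Df_add, PiLp.add_apply]; ring

lemma Wf_smul (φ a : ℝ) (k : Fin (m + 1)) (x : EE (m + 1)) :
    Wf φ k (a • x) = a * Wf φ k x := by
  induction k using Fin.lastCases with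
  | last => simp
  | cast l => simp only [Wf_castSucc, Df_smul, PiLp.smul_apply, smul_eq_mul]; ring

lemma Zf_eq (φ : ℝ) (y x : EE (m + 1)) :
    Df φ y * Kf φ x - Kf φ y * Df φ x = Zf y x := by
  simp only [Df, Kf, Zf]
  linear_combination (y c1 * x c2 - y c2 * x c1) * Real.sin_sq_add_cos_sq φ

/-- the direction of the crossing point -/
noncomputable def zh (φ : ℝ) (y x : EE (m + 1)) : EE (m + 1) := Kf φ y • x + (-Kf φ x) • y

lemma Wf_zh (φ : ℝ) (k : Fin (m + 1)) (y x : EE (m + 1)) :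
    Wf φ k (zh φ y x) = Kf φ y * Wf φ k x - Kf φ x * Wf φ k y := by
  rw [zh, Wf_add, Wf_smul, Wf_smul]; ring

lemma Df_zh (φ : ℝ) (y x : EE (m + 1)) : Df φ (zh φ y x) = -Zf y x := by
  rw [zh, Df_add, Df_smul, Df_smul, ← Zf_eq φ]; ring

/-- when the segment crosses the open cone over a facet -/
lemma cross_iff (φ : ℝ) (i : Fin (m + 1)) (y x : EE (m + 1)) (hx : Kf φ x ≠ 0) :
    (∃ s : ℝ, 0 < s ∧ s < 1 ∧ Kf φ ((1 - s) • y + s • x) = 0 ∧ 0 < Df φ ((1 - s) • y + s • x) ∧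
      ∀ k, k ≠ i → Wf φ i ((1 - s) • y + s • x) < Wf φ k ((1 - s) • y + s • x)) ↔
    (Kf φ y < 0 ∧ 0 < Kf φ x ∧ 0 < Zf y x ∧
      ∀ k, k ≠ i → Wf φ k (zh φ y x) < Wf φ i (zh φ y x)) ∨
    (0 < Kf φ y ∧ Kf φ x < 0 ∧ Zf y x < 0 ∧
      ∀ k, k ≠ i → Wf φ i (zh φ y x) < Wf φ k (zh φ y x)) := by
  constructor
  · rintro ⟨s, hs0, hs1, hK, hD, hW⟩
    rw [Kf_add, Kf_smul, Kf_smul] at hK
    have hz : ∀ t : ℝ, t * s = Kf φ y → t * (1 - s) = -Kf φ x →
        zh φ y x = t • ((1 - s) • y + s • x) := by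
      intro t h1 h2
      rw [zh, smul_add, smul_smul, smul_smul, h1, h2]
      exact add_comm _ _
    rcases lt_trichotomy (Kf φ y) 0 with hy | hy | hy
    · left
      have hxpos : 0 < Kf φ x := by
        by_contra hcon
        push Not at hcon
        have h1 : (1 - s) * Kf φ y < 0 := mul_neg_of_pos_of_neg (by linarith) hy
        have h2 : s * Kf φ x ≤ 0 := mul_nonpos_of_nonneg_of_nonpos hs0.le hcon
        linarith
      obtain ⟨t, ht⟩ : ∃ t, t = Kf φ y - Kf φ x := ⟨_, rfl⟩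
      have ht0 : t < 0 := by linarith
      have h1 : t * s = Kf φ y := by rw [ht]; linarith
      have h2 : t * (1 - s) = -Kf φ x := by rw [ht]; linarith
      have hzt := hz t h1 h2
      refine ⟨hy, hxpos, ?_, fun k hk => ?_⟩
      · have := Df_zh φ y x
        rw [hzt, Df_smul] at this
        nlinarith
      · have := hW k hk
        rw [hzt, Wf_smul, Wf_smul]
        nlinarith
    · exfalso
      rw [hy, mul_zero, zero_add] at hK
      rcases mul_eq_zero.1 hK with h | h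
      · exact hs0.ne' h
      · exact hx h
    · right
      have hxneg : Kf φ x < 0 := by
        by_contra hcon
        push Not at hcon
        have h1 : 0 < (1 - s) * Kf φ y := mul_pos (by linarith) hy
        have h2 : 0 ≤ s * Kf φ x := mul_nonneg hs0.le hcon
        linarith
      obtain ⟨t, ht⟩ : ∃ t, t = Kf φ y - Kf φ x := ⟨_, rfl⟩
      have ht0 : 0 < t := by linarith
      have h1 : t * s = Kf φ y := by rw [ht]; linarith
      have h2 : t * (1 - s) = -Kf φ x := by rw [ht]; linarith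
      have hzt := hz t h1 h2
      refine ⟨hy, hxneg, ?_, fun k hk => ?_⟩
      · have := Df_zh φ y x
        rw [hzt, Df_smul] at this
        nlinarith
      · have := hW k hk
        rw [hzt, Wf_smul, Wf_smul]
        nlinarith
  · intro h
    obtain ⟨t, ht⟩ : ∃ t, t = Kf φ y - Kf φ x := ⟨_, rfl⟩
    have hne : t ≠ 0 := by
      rcases h with ⟨h1, h2, _⟩ | ⟨h1, h2, _⟩
      · exact (by linarith : t < 0).ne
      · exact (by linarith : 0 < t).ne'
    have hz : (1 - Kf φ y / t) • y + (Kf φ y / t) • x = t⁻¹ • zh φ y x := by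
      have e1 : 1 - Kf φ y / t = t⁻¹ * -Kf φ x := by
        field_simp
        rw [ht]
        ring
      have e2 : Kf φ y / t = t⁻¹ * Kf φ y := by rw [div_eq_inv_mul]
      rw [e1, e2, zh, smul_add, smul_smul, smul_smul]
      exact add_comm _ _
    refine ⟨Kf φ y / t, ?_, ?_, ?_, ?_, ?_⟩
    · rcases h with ⟨h1, h2, _⟩ | ⟨h1, h2, _⟩
      · exact div_pos_of_neg_of_neg h1 (by linarith)
      · exact div_pos h1 (by linarith)
    · rcases h with ⟨h1, h2, _⟩ | ⟨h1, h2, _⟩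
      · rw [div_lt_one_of_neg (by linarith)]
        linarith
      · rw [div_lt_one (by linarith)]
        linarith
    · rw [Kf_add, Kf_smul, Kf_smul]
      field_simp
      rw [ht]
      ring
    · rw [hz, Df_smul, Df_zh]
      rcases h with ⟨h1, h2, h3, _⟩ | ⟨h1, h2, h3, _⟩
      · have : t⁻¹ < 0 := inv_lt_zero.2 (by linarith)
        nlinarith
      · have : 0 < t⁻¹ := inv_pos.2 (by linarith)
        nlinarith
    · intro k hk
      rw [hz, Wf_smul, Wf_smul]
      rcases h with ⟨h1, h2, h3, h4⟩ | ⟨h1, h2, h3, h4⟩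
      · have : t⁻¹ < 0 := inv_lt_zero.2 (by linarith)
        nlinarith [h4 k hk]
      · have : 0 < t⁻¹ := inv_pos.2 (by linarith)
        nlinarith [h4 k hk]

/-- generic endpoints for one half-hyperplane -/
def Gen (φ : ℝ) (y x : EE (m + 1)) : Prop :=
  Kf φ x ≠ 0 ∧ (Kf φ y ≠ 0 → ∀ j k : Fin (m + 1), j ≠ k → Wf φ j (zh φ y x) ≠ Wf φ k (zh φ y x))

lemma exists_unique_min {f : Fin (m + 1) → ℝ} (hf : Function.Injective f) :
    ∃ i, ∀ k, k ≠ i → f i < f k := by
  obtain ⟨i, -, hi⟩ := (univ : Finset (Fin (m + 1))).exists_min_image f ⟨0, mem_univ _⟩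
  exact ⟨i, fun k hk => lt_of_le_of_ne (hi k (mem_univ _)) fun e => hk (hf e).symm⟩

lemma exists_unique_max {f : Fin (m + 1) → ℝ} (hf : Function.Injective f) :
    ∃ i, ∀ k, k ≠ i → f k < f i := by
  obtain ⟨i, -, hi⟩ := (univ : Finset (Fin (m + 1))).exists_max_image f ⟨0, mem_univ _⟩
  exact ⟨i, fun k hk => lt_of_le_of_ne (hi k (mem_univ _)) fun e => hk (hf e)⟩

lemma sign_detA (hm : 0 < m) (i : Fin (m + 1)) (t : ℝ) :
    ((SignType.sign (detA i * (4 / 5 * t)) : SignType) : ℤ) =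
      (-1) ^ (m + (i : ℕ)) * ((SignType.sign t : SignType) : ℤ) := by
  obtain ⟨a, ha, h⟩ := detA_sign hm i
  rw [h]
  rcases neg_one_pow_eq_or ℝ (m + (i : ℕ)) with h1 | h1
  · have h2 : ((-1 : ℤ)) ^ (m + (i : ℕ)) = 1 := by exact_mod_cast h1
    rw [h1, h2, one_mul, one_mul]
    congr 1
    rcases lt_trichotomy t 0 with ht | ht | ht
    · rw [sign_neg ht, sign_neg]
      have : 0 < a * (4 / 5) := by positivity
      nlinarith
    · rw [ht]; simp
    · rw [sign_pos ht, sign_pos]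
      positivity
  · have h2 : ((-1 : ℤ)) ^ (m + (i : ℕ)) = -1 := by exact_mod_cast h1
    rw [h1, h2]
    rcases lt_trichotomy t 0 with ht | ht | ht
    · rw [sign_neg ht, sign_pos]
      · rfl
      · have : 0 < a * (4 / 5) := by positivity
        nlinarith
    · rw [ht]; simp
    · rw [sign_pos ht, sign_neg]
      · rfl
      · have : 0 < a * (4 / 5) * t := by positivity
        nlinarith

open Classical in
lemma crossing_fac (hm : 0 < m) (θ : ℝ) (i : Fin (m + 1)) (c : Bool)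
    (h : fac i c ∈ (KK m hm).facets) (y x : Sph (m + 1))
    (hx : Kf (ang θ (!c)) (x : EE (m + 1)) ≠ 0) :
    crossing (KK m hm) (gam hm θ) ⟨fac i c, h⟩ y x =
      if (Kf (ang θ (!c)) (y : EE (m + 1)) < 0 ∧ 0 < Kf (ang θ (!c)) (x : EE (m + 1)) ∧
          0 < Zf (y : EE (m + 1)) x ∧ ∀ k, k ≠ i → Wf (ang θ (!c)) k (zh (ang θ (!c)) (y : EE (m + 1)) x) <
            Wf (ang θ (!c)) i (zh (ang θ (!c)) (y : EE (m + 1)) x)) ∨
        (0 < Kf (ang θ (!c)) (y : EE (m + 1)) ∧ Kf (ang θ (!c)) (x : EE (m + 1)) < 0 ∧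
          Zf (y : EE (m + 1)) x < 0 ∧ ∀ k, k ≠ i → Wf (ang θ (!c)) i (zh (ang θ (!c)) (y : EE (m + 1)) x) <
            Wf (ang θ (!c)) k (zh (ang θ (!c)) (y : EE (m + 1)) x)) then
      (-1) ^ (m + (i : ℕ)) * ((SignType.sign (Kf (ang θ (!c)) (x : EE (m + 1)) -
        Kf (ang θ (!c)) (y : EE (m + 1))) : SignType) : ℤ) else 0 := by
  rw [crossing, orientDet_fac, sign_detA hm, Kf_sub, vtx_eq]
  congr 1
  rw [← cross_iff (ang θ (!c)) i (y : EE (m + 1)) x hx]
  refine propext (exists_congr fun s => and_congr_right fun _ => and_congr_right fun _ => ?_)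
  exact cone_iff hm θ i (!c) _

/-- the contribution of one half-hyperplane -/
lemma sum_half (hm : 0 < m) (θ : ℝ) (c : Bool) (y x : Sph (m + 1))
    (hgen : Gen (ang θ (!c)) (y : EE (m + 1)) (x : EE (m + 1))) :
    ∑ i : Fin (m + 1), (-1) ^ (i : ℕ) *
      crossing (KK m hm) (gam hm θ) ⟨fac i c, fac_mem_facs i c⟩ y x =
    (-1) ^ m * crs (Kf (ang θ (!c)) (y : EE (m + 1))) (Kf (ang θ (!c)) (x : EE (m + 1)))
      (Zf (y : EE (m + 1)) x) := by
  classical
  obtain ⟨hx, hW⟩ := hgen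
  have hc := fun i => crossing_fac hm θ i c (fac_mem_facs i c) y x hx
  simp only [hc]
  rw [crs]
  have hsq : ∀ i : Fin (m + 1), ((-1 : ℤ)) ^ (i : ℕ) * (-1) ^ (m + (i : ℕ)) = (-1) ^ m := by
    intro i
    rw [← pow_add, show (i : ℕ) + (m + i) = m + 2 * i by ring, pow_add, pow_mul]
    simp
  split_ifs with h1 h2
  · -- from the negative to the positive side
    have hy : Kf (ang θ (!c)) (y : EE (m + 1)) ≠ 0 := h1.1.ne
    obtain ⟨i0, hi0⟩ := exists_unique_max (f := fun k => Wf (ang θ (!c)) k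
      (zh (ang θ (!c)) (y : EE (m + 1)) (x : EE (m + 1))))
      (fun j k e => by_contra fun hne => hW hy j k hne e)
    rw [sum_eq_single i0]
    · rw [if_pos (Or.inl ⟨h1.1, h1.2.1, h1.2.2, hi0⟩), ← mul_assoc, hsq, sign_pos]
      · rfl
      · linarith [h1.1, h1.2.1]
    · intro i _ hi
      rw [if_neg, mul_zero]
      rintro (⟨_, _, _, h⟩ | ⟨h, _⟩)
      · exact lt_asymm (h i0 (Ne.symm hi)) (hi0 i hi)
      · linarith [h1.1]
    · intro h
      exact absurd (mem_univ _) h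
  · have hy : Kf (ang θ (!c)) (y : EE (m + 1)) ≠ 0 := h2.1.ne'
    obtain ⟨i0, hi0⟩ := exists_unique_min (f := fun k => Wf (ang θ (!c)) k
      (zh (ang θ (!c)) (y : EE (m + 1)) (x : EE (m + 1))))
      (fun j k e => by_contra fun hne => hW hy j k hne e)
    rw [sum_eq_single i0]
    · rw [if_pos (Or.inr ⟨h2.1, h2.2.1, h2.2.2, hi0⟩), ← mul_assoc, hsq, sign_neg]
      · rfl
      · linarith [h2.1, h2.2.1]
    · intro i _ hi
      rw [if_neg, mul_zero]
      rintro (⟨h, _⟩ | ⟨_, _, _, h⟩)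
      · linarith [h2.1]
      · exact lt_asymm (h i0 (Ne.symm hi)) (hi0 i hi)
    · intro h
      exact absurd (mem_univ _) h
  · rw [mul_zero]
    refine sum_eq_zero fun i _ => ?_
    rw [if_neg, mul_zero]
    rintro (⟨h3, h4, h5, _⟩ | ⟨h3, h4, h5, _⟩)
    · exact h1 ⟨h3, h4, h5⟩
    · exact h2 ⟨h3, h4, h5⟩

/-- the index in terms of the crossings of two rays in the plane -/
lemma ind_eq (hm : 0 < m) (θ : ℝ) (y x : Sph (m + 1))
    (hgen : ∀ b, Gen (ang θ b) (y : EE (m + 1)) (x : EE (m + 1))) :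
    ind (KK m hm) (gam hm θ) y x =
      (-1) ^ m * (crs (Kf θ (y : EE (m + 1))) (Kf θ (x : EE (m + 1))) (Zf (y : EE (m + 1)) x) -
        crs (Kf 0 (y : EE (m + 1))) (Kf 0 (x : EE (m + 1))) (Zf (y : EE (m + 1)) x)) := by
  have h1 : ind (KK m hm) (gam hm θ) y x = ∑ p : Fin (m + 1) × Bool,
      ((-1) ^ (p.1 : ℕ) * (if p.2 then -1 else 1)) *
        crossing (KK m hm) (gam hm θ) ⟨fac p.1 p.2, fac_mem_facs p.1 p.2⟩ y x := by
    rw [ind]
    symm
    refine Fintype.sum_bijective (fun p : Fin (m + 1) × Bool =>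
      (⟨fac p.1 p.2, fac_mem_facs p.1 p.2⟩ : {F // F ∈ (KK m hm).facets})) ⟨?_, ?_⟩ _ _ ?_
    · intro p q hpq
      have := fac_inj (Subtype.ext_iff.1 hpq)
      exact Prod.ext this.1 this.2
    · rintro ⟨F, hF⟩
      obtain ⟨i, c, rfl⟩ := mem_facs.1 hF
      exact ⟨(i, c), rfl⟩
    · intro p
      rw [← sgF_fac]
      rfl
  rw [h1, Fintype.sum_prod_type_right, Fintype.sum_bool]
  have h2 := sum_half hm θ true y x (hgen _)
  have h3 := sum_half hm θ false y x (hgen _)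
  simp only [if_true, Bool.false_eq_true, if_false, mul_one]
  have e1 : ∑ i : Fin (m + 1), ((-1 : ℤ)) ^ (i : ℕ) * -1 *
      crossing (KK m hm) (gam hm θ) ⟨fac i true, fac_mem_facs i true⟩ y x =
      -∑ i : Fin (m + 1), (-1) ^ (i : ℕ) *
        crossing (KK m hm) (gam hm θ) ⟨fac i true, fac_mem_facs i true⟩ y x := by
    rw [← sum_neg_distrib]
    exact sum_congr rfl fun i _ => by ring
  rw [e1, h2, h3]
  simp only [ang, Bool.not_true, Bool.not_false, if_true, Bool.false_eq_true, if_false]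
  ring

end Pool.Agent.R759.FP
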