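import Pool.Agent.R759.FPVol

/-! # The oriented volume of the polyhedra and its increment -/

set_option autoImplicit false

namespace Pool.Agent.R759.FP

open Finset MeasureTheory

variable {m : ℕ}

lemma Kf_polar {x : EE (m + 1)} {r a : ℝ} (h1 : x c1 = r * Real.cos a) (h2 : x c2 = r * Real.sin a)
    (φ : ℝ) : Kf φ x = r * Real.sin (a - φ) := by
  rw [Kf, h1, h2, Real.sin_sub]; ring

lemma Df_polar {x : EE (m + 1)} {r a : ℝ} (h1 : x c1 = r * Real.cos a) (h2 : x c2 = r * Real.sin a)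
    (φ : ℝ) : Df φ x = r * Real.cos (a - φ) := by
  rw [Df, h1, h2, Real.cos_sub]; ring

lemma Zf_polar {x y : EE (m + 1)} {r a r' b : ℝ} (h1 : x c1 = r * Real.cos a)
    (h2 : x c2 = r * Real.sin a) (h3 : y c1 = r' * Real.cos b) (h4 : y c2 = r' * Real.sin b) :
    Zf y x = r' * r * Real.sin (a - b) := by
  rw [Zf, h1, h2, h3, h4, Real.sin_sub]; ring

/-- almost all `x` are generic -/
lemma ae_gen (φ : ℝ) (y : EE (m + 1)) : ∀ᵐ x : Sph (m + 1) ∂(surf m), Gen φ y (x : EE (m + 1)) := by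
  have h1 : ∀ᵐ x : Sph (m + 1) ∂(surf m), Kf φ (x : EE (m + 1)) ≠ 0 := by
    refine ae_ne (Kf φ) (Kf_add φ) (Kf_smul φ) (mk (fun _ => 0) (-Real.sin φ) (Real.cos φ)) ?_
    simp only [Kf, mk_c1, mk_c2]
    have := Real.sin_sq_add_cos_sq φ
    nlinarith
  by_cases hy : Kf φ y = 0
  · filter_upwards [h1] with x hx
    exact ⟨hx, fun h => absurd hy h⟩
  have h2 : ∀ j k : Fin (m + 1), j ≠ k → ∀ᵐ x : Sph (m + 1) ∂(surf m),
      Kf φ y * (Wf φ j (x : EE (m + 1)) - Wf φ k (x : EE (m + 1))) -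
        Kf φ (x : EE (m + 1)) * (Wf φ j y - Wf φ k y) ≠ 0 := by
    intro j k hjk
    have hadd : ∀ a b : EE (m + 1), Kf φ y * (Wf φ j (a + b) - Wf φ k (a + b)) -
        Kf φ (a + b) * (Wf φ j y - Wf φ k y) =
        (Kf φ y * (Wf φ j a - Wf φ k a) - Kf φ a * (Wf φ j y - Wf φ k y)) +
          (Kf φ y * (Wf φ j b - Wf φ k b) - Kf φ b * (Wf φ j y - Wf φ k y)) := by
      intro a b
      rw [Wf_add, Wf_add, Kf_add]; ring
    have hsm : ∀ (c : ℝ) (a : EE (m + 1)), Kf φ y * (Wf φ j (c • a) - Wf φ k (c • a)) -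
        Kf φ (c • a) * (Wf φ j y - Wf φ k y) =
        c * (Kf φ y * (Wf φ j a - Wf φ k a) - Kf φ a * (Wf φ j y - Wf φ k y)) := by
      intro c a
      rw [Wf_smul, Wf_smul, Kf_smul]; ring
    have hE : ∀ (l : Fin m) (k : Fin (m + 1)), Wf φ k (mk (Pi.single l 1) 0 0 : EE (m + 1)) =
        if k = l.castSucc then 1 else 0 := by
      intro l k
      induction k using Fin.lastCases with
      | last =>
        rw [Wf_last, if_neg]
        exact (Fin.castSucc_lt_last l).ne'
      | cast k =>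
        rw [Wf_castSucc]
        simp only [Df, mk_cw, mk_c1, mk_c2, mul_zero, add_zero, zero_mul, sub_zero,
          Pi.single_apply, Fin.castSucc_inj]
    have hK : ∀ l : Fin m, Kf φ (mk (Pi.single l 1) 0 0 : EE (m + 1)) = 0 := by
      intro l
      simp [Kf]
    by_cases hj : j = Fin.last m
    · have hk : k ≠ Fin.last m := fun e => hjk (hj.trans e.symm)
      obtain ⟨l, rfl⟩ := Fin.exists_castSucc_eq.2 hk
      refine ae_ne (fun a => Kf φ y * (Wf φ j a - Wf φ l.castSucc a) -
        Kf φ a * (Wf φ j y - Wf φ l.castSucc y)) hadd hsm (mk (Pi.single l 1) 0 0) ?_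
      rw [hE, hE, hK, if_neg hjk, if_pos rfl]
      simpa using hy
    · obtain ⟨l, rfl⟩ := Fin.exists_castSucc_eq.2 hj
      refine ae_ne (fun a => Kf φ y * (Wf φ l.castSucc a - Wf φ k a) -
        Kf φ a * (Wf φ l.castSucc y - Wf φ k y)) hadd hsm (mk (Pi.single l 1) 0 0) ?_
      rw [hE, hE, hK, if_neg (Ne.symm hjk), if_pos rfl]
      simpa using hy
  have h3 : ∀ᵐ x : Sph (m + 1) ∂(surf m), ∀ p : Fin (m + 1) × Fin (m + 1), p.1 ≠ p.2 →
      Kf φ y * (Wf φ p.1 (x : EE (m + 1)) - Wf φ p.2 (x : EE (m + 1))) -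
        Kf φ (x : EE (m + 1)) * (Wf φ p.1 y - Wf φ p.2 y) ≠ 0 := by
    rw [ae_all_iff]
    intro p
    by_cases hp : p.1 = p.2
    · exact Filter.Eventually.of_forall fun x h => absurd hp h
    · filter_upwards [h2 p.1 p.2 hp] with x hx _
      exact hx
  filter_upwards [h1, h3] with x hx hx3
  refine ⟨hx, fun _ j k hjk e => hx3 (j, k) hjk ?_⟩
  rw [Wf_zh, Wf_zh] at e
  simp only
  linarith

/-- the index function, for `y` outside the image -/
lemma ae_ind (hm : 0 < m) {θ : ℝ} (hθ0 : 0 ≤ θ) (hθ1 : θ ≤ 2 * Real.pi) (y : Sph (m + 1))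
    (hy : y ∉ image (KK m hm) (gam hm θ)) :
    ∀ᵐ x : Sph (m + 1) ∂(surf m), (ind (KK m hm) (gam hm θ) y x : ℝ) =
      (-1) ^ m * ((if af (y : EE (m + 1)) < θ then 1 else 0) -
        (if af (x : EE (m + 1)) < θ then 1 else 0)) := by
  have hp := Real.pi_pos
  -- polar coordinates of `y`
  obtain ⟨r', hr', hy1, hy2, hy0⟩ := polar (y : EE (m + 1))
  have hb0 := af_pos (y : EE (m + 1))
  have hb1 := af_le (y : EE (m + 1))
  have hyB := notMem_image hm θ y hy false
  have hyD := notMem_image hm θ y hy true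
  simp only [ang, Bool.false_eq_true, if_false, if_true] at hyB hyD
  have hr'pos : 0 < r' := by
    rcases hr'.eq_or_lt with h | h
    · exfalso
      obtain ⟨e1, e2⟩ := hy0 h.symm
      exact hyB ⟨by rw [Kf, e1, e2]; ring, by rw [Df, e1, e2]; simp⟩
    · exact h
  have hb1' : af (y : EE (m + 1)) < 2 * Real.pi := by
    refine lt_of_le_of_ne hb1 fun e => hyB ?_
    rw [Kf_polar hy1 hy2, Df_polar hy1 hy2, e]
    simp only [sub_zero, Real.sin_two_pi, Real.cos_two_pi, mul_zero, mul_one, true_and]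
    exact hr'
  have hbθ : af (y : EE (m + 1)) ≠ θ := by
    intro e
    apply hyD
    rw [Kf_polar hy1 hy2, Df_polar hy1 hy2, e, sub_self]
    simp only [Real.sin_zero, Real.cos_zero, mul_zero, mul_one, true_and]
    exact hr'
  have hZ : ∀ᵐ x : Sph (m + 1) ∂(surf m), Zf (y : EE (m + 1)) (x : EE (m + 1)) ≠ 0 := by
    refine ae_ne (Zf (y : EE (m + 1))) (fun a b => by simp only [Zf, PiLp.add_apply]; ring)
      (fun c a => by simp only [Zf, PiLp.smul_apply, smul_eq_mul]; ring)
      (mk (fun _ => 0) (-(y : EE (m + 1)) c2) ((y : EE (m + 1)) c1)) ?_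
    simp only [Zf, mk_c1, mk_c2, hy1, hy2]
    have := Real.sin_sq_add_cos_sq (af (y : EE (m + 1)))
    have h2 : r' * Real.cos (af (y : EE (m + 1))) * (r' * Real.cos (af (y : EE (m + 1)))) -
        r' * Real.sin (af (y : EE (m + 1))) * -(r' * Real.sin (af (y : EE (m + 1)))) = r' ^ 2 := by
      linear_combination r' ^ 2 * this
    rw [h2]
    positivity
  filter_upwards [hZ, ae_gen (m := m) θ (y : EE (m + 1)), ae_gen (m := m) 0 (y : EE (m + 1))]
    with x hxZ hxD hxB
  obtain ⟨r, hr, hx1, hx2, hx0⟩ := polar (x : EE (m + 1))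
  have hgen : ∀ b, Gen (ang θ b) (y : EE (m + 1)) (x : EE (m + 1)) := by
    intro b
    cases b
    · exact hxB
    · exact hxD
  rw [ind_eq hm θ y x hgen]
  have hxD' := hxD.1
  have hxB' := hxB.1
  rw [Kf_polar hx1 hx2] at hxD' hxB'
  rw [Zf_polar hx1 hx2 hy1 hy2] at hxZ
  have hrpos : 0 < r := by
    rcases hr.eq_or_lt with h | h
    · exfalso
      rw [← h, zero_mul] at hxB'
      exact hxB' rfl
    · exact h
  have hs1 : Real.sin (af (x : EE (m + 1))) ≠ 0 := by
    intro e
    rw [sub_zero, e, mul_zero] at hxB'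
    exact hxB' rfl
  have hs2 : Real.sin (af (x : EE (m + 1)) - θ) ≠ 0 := by
    intro e
    rw [e, mul_zero] at hxD'
    exact hxD' rfl
  have hs3 : Real.sin (af (x : EE (m + 1)) - af (y : EE (m + 1))) ≠ 0 := by
    intro e
    rw [e, mul_zero] at hxZ
    exact hxZ rfl
  have ha0 := af_pos (x : EE (m + 1))
  have ha1 : af (x : EE (m + 1)) < 2 * Real.pi := by
    refine lt_of_le_of_ne (af_le _) fun e => hs1 ?_
    rw [e, Real.sin_two_pi]
  have key := crs_identity ha0 ha1 hb0 hb1' hθ0 hθ1 hs1 hs2 hs3 hbθ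
  rw [Kf_polar hx1 hx2, Kf_polar hx1 hx2, Kf_polar hy1 hy2, Kf_polar hy1 hy2,
    Zf_polar hx1 hx2 hy1 hy2, crs_scale hrpos hr'pos, crs_scale hrpos hr'pos, sub_zero, sub_zero,
    key]
  push_cast
  ring

lemma measurable_af : Measurable fun x : Sph (m + 1) => af (x : EE (m + 1)) := by
  have h1 : Measurable fun x : Sph (m + 1) => (x : EE (m + 1)) c1 := by
    refine Continuous.measurable ?_
    fun_prop
  have h2 : Measurable fun x : Sph (m + 1) => (x : EE (m + 1)) c2 := by
    refine Continuous.measurable ?_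
    fun_prop
  have h3 : Measurable fun x : Sph (m + 1) =>
      (-(⟨(x : EE (m + 1)) c1, (x : EE (m + 1)) c2⟩ : ℂ)) := by
    refine Measurable.neg ?_
    exact Complex.measurableEquivRealProd.symm.measurable.comp (h1.prodMk h2)
  exact measurable_const.add (Complex.measurable_arg.comp h3)

/-- the measure of a sector -/
noncomputable def GG (m : ℕ) (θ : ℝ) : ℝ :=
  ∫ x : Sph (m + 1), (if af (x : EE (m + 1)) < θ then (1 : ℝ) else 0) ∂(surf m)

lemma measurable_step (θ : ℝ) :
    Measurable fun x : Sph (m + 1) => (if af (x : EE (m + 1)) < θ then (1 : ℝ) else 0) :=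
  Measurable.ite (measurableSet_lt measurable_af measurable_const) measurable_const
    measurable_const

lemma integrable_step (θ : ℝ) : Integrable (fun x : Sph (m + 1) =>
    (if af (x : EE (m + 1)) < θ then (1 : ℝ) else 0)) (surf m) := by
  refine Integrable.of_bound (measurable_step θ).aestronglyMeasurable 1
    (Filter.Eventually.of_forall fun x => ?_)
  split_ifs <;> simp

lemma continuous_GG : Continuous (GG m) := by
  rw [continuous_iff_continuousAt]
  intro θ0
  refine continuousAt_of_dominated (bound := fun _ => (1 : ℝ)) ?_ ?_ ?_ ?_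
  · exact Filter.Eventually.of_forall fun θ => (measurable_step θ).aestronglyMeasurable
  · refine Filter.Eventually.of_forall fun θ => Filter.Eventually.of_forall fun x => ?_
    split_ifs <;> simp
  · exact integrable_const _
  · filter_upwards [ae_gen (m := m) θ0 (0 : EE (m + 1))] with x hx
    have hne : af (x : EE (m + 1)) ≠ θ0 := by
      intro e
      obtain ⟨r, hr, hx1, hx2, hx0⟩ := polar (x : EE (m + 1))
      apply hx.1
      rw [Kf_polar hx1 hx2, e, sub_self, Real.sin_zero, mul_zero]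
    rcases lt_or_gt_of_ne hne with h | h
    · have : (fun θ : ℝ => (if af (x : EE (m + 1)) < θ then (1 : ℝ) else 0)) =ᶠ[nhds θ0]
          fun _ => (1 : ℝ) := by
        filter_upwards [lt_mem_nhds h] with θ hθ
        rw [if_pos hθ]
      exact continuousAt_const.congr this.symm
    · have : (fun θ : ℝ => (if af (x : EE (m + 1)) < θ then (1 : ℝ) else 0)) =ᶠ[nhds θ0]
          fun _ => (0 : ℝ) := by
        filter_upwards [gt_mem_nhds h] with θ hθ
        rw [if_neg (not_lt.2 hθ.le)]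
      exact continuousAt_const.congr this.symm

lemma GG_zero : GG m 0 = 0 := by
  rw [GG]
  have : (fun x : Sph (m + 1) => (if af (x : EE (m + 1)) < 0 then (1 : ℝ) else 0)) =
      fun _ => (0 : ℝ) := by
    funext x
    rw [if_neg (not_lt.2 (af_pos _).le)]
  rw [this, integral_zero]

lemma GG_two_pi : GG m (2 * Real.pi) = volS (m + 1) := by
  rw [GG]
  have : (fun x : Sph (m + 1) => (if af (x : EE (m + 1)) < 2 * Real.pi then (1 : ℝ) else 0))
      =ᵐ[surf m] fun _ => (1 : ℝ) := by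
    filter_upwards [ae_gen (m := m) 0 (0 : EE (m + 1))] with x hx
    have hne : af (x : EE (m + 1)) ≠ 2 * Real.pi := by
      intro e
      obtain ⟨r, hr, hx1, hx2, hx0⟩ := polar (x : EE (m + 1))
      apply hx.1
      rw [Kf_polar hx1 hx2, e, sub_zero, Real.sin_two_pi, mul_zero]
    rw [if_pos (lt_of_le_of_ne (af_le _) hne)]
  rw [integral_congr_ae this, integral_const, smul_eq_mul, mul_one]
  rfl

lemma volFrom_eq (hm : 0 < m) {θ : ℝ} (hθ0 : 0 ≤ θ) (hθ1 : θ ≤ 2 * Real.pi) (y : Sph (m + 1))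
    (hy : y ∉ image (KK m hm) (gam hm θ)) :
    volFrom (KK m hm) (gam hm θ) y =
      (-1) ^ m * ((if af (y : EE (m + 1)) < θ then volS (m + 1) else 0) - GG m θ) := by
  rw [volFrom, integral_congr_ae (ae_ind hm hθ0 hθ1 y hy), integral_const_mul, integral_sub]
  · congr 2
    rw [integral_const, smul_eq_mul]
    split_ifs
    · rw [mul_one]
      rfl
    · rw [mul_zero]
  · exact integrable_const _
  · exact integrable_step θ

lemma image_subset (hm : 0 < m) (θ : ℝ) (y : Sph (m + 1)) (hy : y ∈ image (KK m hm) (gam hm θ)) :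
    ∃ b, Kf (ang θ b) (y : EE (m + 1)) = 0 := by
  obtain ⟨F, hF, c, -, h⟩ := hy
  obtain ⟨i, d, rfl⟩ := mem_facs.1 hF
  refine ⟨!d, ?_⟩
  have h2 : (y : EE (m + 1)) = ∑ v ∈ fac i d, c v • gv θ v := h
  rw [h2, sum_fac_gv, Kf_cmb]

lemma volS_pos (n : ℕ) : 0 < volS n := by
  have h1 : ((volume : Measure (EE n)).toSphere) Set.univ ≠ 0 := by
    rw [Measure.toSphere_apply_univ]
    refine mul_ne_zero ?_ (Metric.measure_ball_pos _ _ one_pos).ne'
    simp
  exact ENNReal.toReal_pos h1 (measure_ne_top _ _)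

lemma exists_notMem_image (hm : 0 < m) (θ : ℝ) :
    ∃ y : Sph (m + 1), y ∉ image (KK m hm) (gam hm θ) := by
  by_contra hcon
  push Not at hcon
  have h : ∀ᵐ _x : Sph (m + 1) ∂(surf m), False := by
    filter_upwards [ae_gen (m := m) θ (0 : EE (m + 1)), ae_gen (m := m) 0 (0 : EE (m + 1))]
      with x hx1 hx2
    obtain ⟨b, hb⟩ := image_subset hm θ x (hcon x)
    cases b
    · exact hx2.1 hb
    · exact hx1.1 hb
  rw [ae_iff] at h
  simp only [not_false_eq_true] at h
  have h2 := volS_pos (m + 1)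
  rw [volS, Measure.real] at h2
  have h3 : {_a : Sph (m + 1) | True} = Set.univ := Set.ofPred_true
  rw [h3] at h
  rw [h] at h2
  simp at h2

/-- the closed curve -/
noncomputable def loop (hm : 0 < m) (t : unitInterval) : Fin (m + 3) → Sph (m + 1) :=
  gam hm (2 * Real.pi * (t : ℝ))

lemma loop_closed (hm : 0 < m) : loop hm 0 = loop hm 1 := by
  funext v
  apply Subtype.ext
  rw [loop, loop, gam_coe, gam_coe]
  rcases vertex_cases v with ⟨k, rfl⟩ | ⟨b, rfl⟩
  · rw [gv_pv, gv_pv]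
  · rw [gv_ap, gv_ap]
    cases b
    · rfl
    · have e0 : ((0 : unitInterval) : ℝ) = 0 := rfl
      have e1 : ((1 : unitInterval) : ℝ) = 1 := rfl
      simp only [ang, if_true, e0, e1, mul_zero, mul_one]
      simp only [avec, Real.cos_zero, Real.sin_zero, Real.cos_two_pi, Real.sin_two_pi]

lemma continuous_loop (hm : 0 < m) : Continuous (loop hm) := by
  have h : Continuous fun t : unitInterval => 2 * Real.pi * (t : ℝ) := by fun_prop
  exact (continuous_gam hm).comp h

theorem loop_increment (hm : 0 < m) :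
    IsIncrement (KK m hm) (loop hm) (((-1) ^ (m + 1) : ℤ) * volS (m + 1)) := by
  have hp := Real.pi_pos
  refine ⟨fun t => (-1) ^ (m + 1) * GG m (2 * Real.pi * (t : ℝ)), ?_, ?_, ?_⟩
  · have h : Continuous fun t : unitInterval => 2 * Real.pi * (t : ℝ) := by fun_prop
    exact continuous_const.mul (continuous_GG.comp h)
  · intro t
    refine ⟨exists_notMem_image hm _, ?_⟩
    intro y hy
    have ht0 : 0 ≤ 2 * Real.pi * (t : ℝ) := mul_nonneg (by linarith) t.2.1
    have ht1 : 2 * Real.pi * (t : ℝ) ≤ 2 * Real.pi := mul_le_of_le_one_right (by linarith) t.2.2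
    have h := volFrom_eq hm ht0 ht1 y hy
    refine ⟨(-1) ^ (m + 1) * (if af (y : EE (m + 1)) < 2 * Real.pi * (t : ℝ) then 1 else 0), ?_⟩
    have h' : volFrom (KK m hm) (loop hm t) y = volFrom (KK m hm) (gam hm (2 * Real.pi * (t : ℝ))) y :=
      rfl
    rw [h', h]
    push_cast
    rw [pow_succ]
    split_ifs <;> ring
  · have e0 : ((0 : unitInterval) : ℝ) = 0 := rfl
    have e1 : ((1 : unitInterval) : ℝ) = 1 := rfl
    simp only [e0, e1, mul_zero, mul_one, GG_zero, GG_two_pi]
    push_cast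
    ring

/-- two continuous representatives of the oriented volume have the same increment -/
lemma increment_unique {n : ℕ} (K : OrientedPseudomanifold n)
    (γ : unitInterval → (Fin K.numVert → Sph n)) (V W : unitInterval → ℝ) (hV : Continuous V)
    (hW : Continuous W) (hV' : ∀ t, RepresentsVolume K (γ t) (V t))
    (hW' : ∀ t, RepresentsVolume K (γ t) (W t)) : V 1 - V 0 = W 1 - W 0 := by
  have hpos := volS_pos n
  have hint : ∀ t, ∃ k : ℤ, (V t - W t) / volS n = k := by
    intro t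
    obtain ⟨y, hy⟩ := (hV' t).1
    obtain ⟨k, hk⟩ := (hV' t).2 y hy
    obtain ⟨l, hl⟩ := (hW' t).2 y hy
    refine ⟨k - l, ?_⟩
    rw [hk, hl]
    push_cast
    field_simp
    ring
  have hD : Continuous fun t => (V t - W t) / volS n := (hV.sub hW).div_const _
  obtain ⟨a, ha⟩ := hint 0
  obtain ⟨b, hb⟩ := hint 1
  have hsub := intermediate_value_univ (0 : unitInterval) 1 hD
  have hsub' := intermediate_value_univ (1 : unitInterval) 0 hD
  rw [ha, hb] at hsub hsub'
  have hab : a = b := by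
    by_contra hne
    rcases lt_or_gt_of_ne hne with h | h
    · have h1 : (a : ℝ) + 1 ≤ b := by exact_mod_cast h
      obtain ⟨t, ht⟩ := hsub (⟨by linarith, by linarith⟩ : (a : ℝ) + 1 / 2 ∈ Set.Icc (a : ℝ) b)
      obtain ⟨k, hk⟩ := hint t
      have h2 : (k : ℝ) = a + 1 / 2 := by rw [← hk]; exact ht
      have h3 : ((2 * k : ℤ) : ℝ) = ((2 * a + 1 : ℤ) : ℝ) := by push_cast; linarith
      have h4 : 2 * k = 2 * a + 1 := by exact_mod_cast h3
      omega
    · have h1 : (b : ℝ) + 1 ≤ a := by exact_mod_cast h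
      obtain ⟨t, ht⟩ := hsub' (⟨by linarith, by linarith⟩ : (b : ℝ) + 1 / 2 ∈ Set.Icc (b : ℝ) a)
      obtain ⟨k, hk⟩ := hint t
      have h2 : (k : ℝ) = b + 1 / 2 := by rw [← hk]; exact ht
      have h3 : ((2 * k : ℤ) : ℝ) = ((2 * b + 1 : ℤ) : ℝ) := by push_cast; linarith
      have h4 : 2 * k = 2 * b + 1 := by exact_mod_cast h3
      omega
  rw [hab, ← hb] at ha
  field_simp at ha
  linarith

end Pool.Agent.R759.FP
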