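import Pool.Agent.R759.FPGeom

/-! # The polyhedra: configuration space, image, determinants -/

set_option autoImplicit false

namespace Pool.Agent.R759.FP

open Finset

variable {m : ℕ}

lemma cmb_eq_zero (hm : 0 < m) {C : Fin (m + 1) → ℝ} {μ φ : ℝ} (h : cmb C μ φ = 0)
    (i : Fin (m + 1)) (hi : C i = 0) : μ = 0 ∧ ∀ k, C k = 0 := by
  have hm' : (0 : ℝ) < √(m : ℝ) := Real.sqrt_pos.2 (by exact_mod_cast hm)
  have h1 := Df_cmb C μ φ
  have hD0 : Df φ (0 : EE (m + 1)) = 0 := by simp [Df]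
  rw [h, hD0] at h1
  have hμ : μ = 0 := by linarith
  have hW : ∀ k, scl C k - scl C (Fin.last m) = 0 := by
    intro k
    rw [← Wf_cmb C μ φ k, h]
    induction k using Fin.lastCases with
    | last => simp
    | cast l => rw [Wf_castSucc, hD0]; simp
  have hi' : scl C i = 0 := by rw [scl, hi]; simp
  have hl : scl C (Fin.last m) = 0 := by
    have := hW i
    rw [hi'] at this
    linarith
  refine ⟨hμ, fun k => ?_⟩
  have hk : scl C k = 0 := by
    have := hW k
    rw [hl] at this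
    linarith
  rw [scl] at hk
  split_ifs at hk
  · rcases div_eq_zero_iff.1 hk with h2 | h2
    · exact h2
    · exact absurd h2 hm'.ne'
  · exact hk

lemma sum_fac {M : Type*} [AddCommMonoid M] (i : Fin (m + 1)) (c : Bool) (f : Fin (m + 3) → M) :
    ∑ v ∈ fac i c, f v = ∑ k, (if k = i then 0 else f (pv k)) + f (ap (!c)) := by
  have h : ∑ v ∈ fac i c, f v = ∑ v, if v ∈ fac i c then f v else 0 := by
    rw [sum_ite_mem, univ_inter]
  rw [h, sum_vert]
  have h1 : ∀ k : Fin (m + 1), (if pv k ∈ fac i c then f (pv k) else 0) =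
      if k = i then 0 else f (pv k) := by
    intro k
    by_cases hk : k = i
    · rw [if_pos hk, if_neg]
      rw [pv_mem_fac]
      exact not_not.2 hk
    · rw [if_neg hk, if_pos (pv_mem_fac.2 hk)]
  rw [sum_congr rfl fun k _ => h1 k]
  cases c
  · rw [if_neg, if_pos (ap_mem_fac.2 (by decide))]
    · simp
    · rw [ap_mem_fac]; simp
  · rw [if_pos (ap_mem_fac.2 (by decide)), if_neg]
    · simp
    · rw [ap_mem_fac]; simp

lemma sum_fac_gv (θ : ℝ) (i : Fin (m + 1)) (c : Bool) (g : Fin (m + 3) → ℝ) :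
    ∑ v ∈ fac i c, g v • gv θ v =
      cmb (fun k => if k = i then 0 else g (pv k)) (g (ap (!c))) (ang θ (!c)) := by
  rw [sum_fac, cmb, gv_ap]
  congr 1
  refine sum_congr rfl fun k _ => ?_
  rw [gv_pv]
  split_ifs
  · rw [zero_smul]
  · rfl

lemma gam_isPolyhedron (hm : 0 < m) (θ : ℝ) : IsPolyhedron (KK m hm) (gam hm θ) := by
  intro F hF
  obtain ⟨i, c, rfl⟩ := mem_facs.1 hF
  rw [Fintype.linearIndependent_iff]
  intro g hg
  obtain ⟨g', hg'⟩ : ∃ g' : Fin (m + 3) → ℝ, ∀ v : {v // v ∈ fac i c}, g' v = g v := by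
    classical
    refine ⟨fun v => if h : v ∈ fac i c then g ⟨v, h⟩ else 0, fun v => ?_⟩
    simp [v.2]
  have h1 : ∑ v ∈ fac i c, g' v • gv θ v = 0 := by
    rw [← hg, ← Finset.sum_coe_sort (fac i c) fun v => g' v • gv θ v]
    refine sum_congr rfl fun v _ => ?_
    rw [hg']
    rfl
  rw [sum_fac_gv] at h1
  obtain ⟨h2, h3⟩ := cmb_eq_zero hm h1 i (by simp)
  intro v
  rw [← hg']
  rcases vertex_cases v.1 with ⟨k, hk⟩ | ⟨b, hb⟩
  · have hki : k ≠ i := pv_mem_fac.1 (hk ▸ v.2)
    have := h3 k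
    rw [if_neg hki] at this
    rw [hk]
    exact this
  · have hbc : b ≠ c := ap_mem_fac.1 (hb ▸ v.2)
    have : b = !c := by cases b <;> cases c <;> simp_all
    rw [hb, this]
    exact h2

lemma inner_pvec_avec (k : Fin (m + 1)) (φ ψ : ℝ) :
    inner ℝ (pvec k : EE (m + 1)) (avec φ) = inner ℝ (pvec k : EE (m + 1)) (avec ψ) := by
  rw [inner_coord, inner_coord]
  simp [pvec, avec]

lemma inner_gv (hm : 0 < m) (θ θ' : ℝ) (i : Fin (m + 1)) (c : Bool) (v w : Fin (m + 3))
    (hv : v ∈ fac i c) (hw : w ∈ fac i c) :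
    inner ℝ (gv θ v) (gv θ w) = inner ℝ (gv θ' v) (gv θ' w) := by
  rcases vertex_cases v with ⟨k, rfl⟩ | ⟨b, rfl⟩
  · rcases vertex_cases w with ⟨l, rfl⟩ | ⟨d, rfl⟩
    · rw [gv_pv, gv_pv, gv_pv, gv_pv]
    · rw [gv_pv, gv_pv, gv_ap, gv_ap]
      exact inner_pvec_avec _ _ _
  · rcases vertex_cases w with ⟨l, rfl⟩ | ⟨d, rfl⟩
    · rw [gv_pv, gv_pv, gv_ap, gv_ap, real_inner_comm, real_inner_comm (pvec l)]
      exact inner_pvec_avec _ _ _
    · have h1 := ap_mem_fac.1 hv
      have h2 := ap_mem_fac.1 hw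
      have hbd : b = d := by cases b <;> cases c <;> cases d <;> simp_all
      subst hbd
      rw [real_inner_self_eq_norm_sq, real_inner_self_eq_norm_sq, norm_gv hm, norm_gv hm]

lemma gam_mem_config (hm : 0 < m) (θ θ' : ℝ) : gam hm θ ∈ Config (KK m hm) (gam hm θ') := by
  refine ⟨gam_isPolyhedron hm θ, ?_⟩
  intro F hF v hv w hw
  obtain ⟨i, c, rfl⟩ := mem_facs.1 hF
  rw [InnerProductGeometry.angle, InnerProductGeometry.angle, gam_coe, gam_coe, gam_coe, gam_coe,
    norm_gv hm, norm_gv hm, norm_gv hm, norm_gv hm, inner_gv hm θ θ' i c v w hv hw]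

lemma avec_eq (φ : ℝ) : (avec φ : EE (m + 1)) =
    mk (fun l => if (l : ℕ) = 0 then 3 / 5 else 0) 0 0 + (4 / 5 * Real.cos φ) • mk (fun _ => 0) 1 0 +
      (4 / 5 * Real.sin φ) • mk (fun _ => 0) 0 1 := by
  refine coord_ext (fun l => ?_) ?_ ?_ <;> simp [avec]

lemma continuous_avec : Continuous fun φ : ℝ => (avec φ : EE (m + 1)) := by
  simp only [avec_eq]
  fun_prop

lemma continuous_gam (hm : 0 < m) : Continuous fun θ : ℝ => gam hm θ := by
  have h : ∀ v : Fin (m + 3), Continuous fun θ : ℝ => (gv θ v : EE (m + 1)) := by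
    intro v
    rcases vertex_cases v with ⟨k, rfl⟩ | ⟨b, rfl⟩
    · simp only [gv_pv]
      exact continuous_const
    · simp only [gv_ap]
      cases b
      · simp only [ang, Bool.false_eq_true, if_false]
        exact continuous_const
      · simp only [ang, if_true]
        exact continuous_avec
  exact continuous_pi fun v => (h v).subtype_mk _

lemma inner_apexes (hm : 0 < m) (θ : ℝ) :
    inner ℝ (gv θ (ap false : Fin (m + 3))) (gv θ (ap true)) = 9 / 25 + 16 / 25 * Real.cos θ := by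
  rw [gv_ap, gv_ap, inner_coord]
  simp only [avec, mk_cw, mk_c1, mk_c2, ang, if_true, Bool.false_eq_true, if_false]
  have : ∀ l : Fin m, ((if (l : ℕ) = 0 then (3 / 5 : ℝ) else 0)) *
      (if (l : ℕ) = 0 then (3 / 5 : ℝ) else 0) = if (l : ℕ) = 0 then 9 / 25 else 0 := by
    intro l
    split_ifs <;> norm_num
  rw [sum_congr rfl fun l _ => this l, sum_zero_val hm, Real.cos_zero, Real.sin_zero]
  ring

lemma gam_flexible (hm : 0 < m) : IsFlexible (KK m hm) (gam hm (Real.pi / 2)) := by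
  refine ⟨fun t => gam hm (Real.pi / 2 * (1 + (t : ℝ))), ?_, ?_, fun t => gam_mem_config hm _ _, ?_⟩
  · have h : Continuous (fun t : unitInterval => Real.pi / 2 * (1 + (t : ℝ))) := by fun_prop
    exact (continuous_gam hm).comp h
  · simp
  · rintro ⟨g, -, hg⟩
    have h1 := hg 1 (ap false : Fin (m + 3))
    have h2 := hg 1 (ap true : Fin (m + 3))
    have h3 : inner ℝ (gv (Real.pi / 2 * (1 + ((1 : unitInterval) : ℝ))) (ap false : Fin (m + 3)))
        (gv (Real.pi / 2 * (1 + ((1 : unitInterval) : ℝ))) (ap true)) =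
        inner ℝ (gv (Real.pi / 2) (ap false : Fin (m + 3))) (gv (Real.pi / 2) (ap true)) := by
      have e1 : gv (Real.pi / 2 * (1 + ((1 : unitInterval) : ℝ))) (ap false : Fin (m + 3)) =
        g 1 (gv (Real.pi / 2) (ap false : Fin (m + 3))) := h1
      have e2 : gv (Real.pi / 2 * (1 + ((1 : unitInterval) : ℝ))) (ap true : Fin (m + 3)) =
        g 1 (gv (Real.pi / 2) (ap true : Fin (m + 3))) := h2
      rw [e1, e2, LinearIsometryEquiv.inner_map_map]
    rw [inner_apexes hm, inner_apexes hm, Real.cos_pi_div_two] at h3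
    have e : Real.pi / 2 * (1 + ((1 : unitInterval) : ℝ)) = Real.pi := by
      have e' : ((1 : unitInterval) : ℝ) = 1 := rfl
      rw [e']
      ring
    rw [e, Real.cos_pi] at h3
    norm_num at h3

/-- points outside the image are not on the closed half-hyperplanes -/
lemma notMem_image (hm : 0 < m) (θ : ℝ) (y : Sph (m + 1)) (hy : y ∉ image (KK m hm) (gam hm θ))
    (b : Bool) : ¬ (Kf (ang θ b) (y : EE (m + 1)) = 0 ∧ 0 ≤ Df (ang θ b) (y : EE (m + 1))) := by
  rintro ⟨hK, hD⟩
  apply hy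
  obtain ⟨i, -, hi⟩ := (univ : Finset (Fin (m + 1))).exists_min_image
    (fun k => Wf (ang θ b) k (y : EE (m + 1))) ⟨0, mem_univ _⟩
  have hy' := eq_cmb hm (ang θ b) (y : EE (m + 1)) hK i
  refine ⟨fac i (!b), fac_mem_facs _ _, fun v => if h : (v : ℕ) < m + 1 then
    (Wf (ang θ b) ⟨v, h⟩ (y : EE (m + 1)) - Wf (ang θ b) i (y : EE (m + 1))) *
      (if (⟨v, h⟩ : Fin (m + 1)) = Fin.last m then √(m : ℝ) else 1)
      else 5 / 4 * Df (ang θ b) (y : EE (m + 1)), ?_, ?_⟩
  · intro v
    by_cases h : (v : ℕ) < m + 1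
    · simp only [h, dif_pos]
      refine mul_nonneg ?_ ?_
      · have := hi ⟨v, h⟩ (mem_univ _)
        linarith
      · split_ifs
        · exact Real.sqrt_nonneg _
        · exact zero_le_one
    · simp only [h, dif_neg, not_false_eq_true]
      positivity
  · have key := sum_fac_gv θ i (!b) (fun v => if h : (v : ℕ) < m + 1 then
      (Wf (ang θ b) ⟨v, h⟩ (y : EE (m + 1)) - Wf (ang θ b) i (y : EE (m + 1))) *
        (if (⟨v, h⟩ : Fin (m + 1)) = Fin.last m then √(m : ℝ) else 1)
        else 5 / 4 * Df (ang θ b) (y : EE (m + 1)))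
    refine Eq.trans ?_ key.symm
    rw [Bool.not_not]
    have hap : ¬ (((ap b : Fin (m + 3)) : ℕ) < m + 1) := by cases b <;> simp
    conv_lhs => rw [hy']
    simp only [hap, dif_neg, not_false_eq_true]
    congr 1
    funext k
    have hk : ((pv k : Fin (m + 3)) : ℕ) < m + 1 := k.2
    by_cases hki : k = i
    · rw [if_pos hki, hki, sub_self, zero_mul]
    · rw [if_neg hki, dif_pos hk]
      rfl

/-- the `m × m` determinant of a facet -/
noncomputable def detA (i : Fin (m + 1)) : ℝ :=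
  Matrix.det (fun r l : Fin m => (pvec (i.succAbove r) : EE (m + 1)) (cw l))

lemma detA_sign (hm : 0 < m) (i : Fin (m + 1)) :
    ∃ a : ℝ, 0 < a ∧ detA i = (-1) ^ (m + (i : ℕ)) * a := by
  obtain ⟨m', rfl⟩ : ∃ m', m = m' + 1 := ⟨m - 1, by omega⟩
  induction i using Fin.lastCases with
  | last =>
    refine ⟨1, one_pos, ?_⟩
    have h : detA (Fin.last (m' + 1)) = 1 := by
      rw [detA]
      have : (fun r l : Fin (m' + 1) =>
          (pvec ((Fin.last (m' + 1)).succAbove r) : EE (m' + 1 + 1)) (cw l)) =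
          (1 : Matrix (Fin (m' + 1)) (Fin (m' + 1)) ℝ) := by
        funext r l
        rw [Fin.succAbove_last, pvec_cw_castSucc, Matrix.one_apply]
      rw [this, Matrix.det_one]
    rw [h, Fin.val_last, Even.neg_one_pow (Even.add_self _)]
    ring
  | cast i =>
    have hpos : (0 : ℝ) < √((m' + 1 : ℕ) : ℝ) := Real.sqrt_pos.2 (by positivity)
    refine ⟨1 / √((m' + 1 : ℕ) : ℝ), by positivity, ?_⟩
    rw [detA, Matrix.det_succ_row _ (Fin.last m')]
    have hrow : ∀ r : Fin m', (i.castSucc).succAbove r.castSucc = (i.succAbove r).castSucc := by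
      intro r
      rw [Fin.castSucc_succAbove_castSucc]
    have hlast : (i.castSucc).succAbove (Fin.last m') = Fin.last (m' + 1) := by
      rw [Fin.succAbove_of_le_castSucc _ _ (Fin.castSucc_le_castSucc_iff.2 (Fin.le_last i)),
        Fin.succ_last]
    rw [sum_eq_single i]
    · have h1 : (Matrix.submatrix (fun r l : Fin (m' + 1) =>
          (pvec ((i.castSucc).succAbove r) : EE (m' + 1 + 1)) (cw l)) (Fin.last m').succAbove
          i.succAbove) = (1 : Matrix (Fin m') (Fin m') ℝ) := by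
        funext r l
        rw [Matrix.submatrix_apply, Fin.succAbove_last, hrow, pvec_cw_castSucc, Matrix.one_apply]
        simp
      rw [h1, Matrix.det_one, hlast, pvec_cw_last]
      simp only [Fin.val_last, Fin.val_castSucc]
      rw [show m' + 1 + (i : ℕ) = (m' + i) + 1 by ring, pow_succ]
      ring
    · intro l _ hl
      obtain ⟨r0, rfl⟩ := Fin.exists_succAbove_eq hl
      have h1 : (Matrix.submatrix (fun r l : Fin (m' + 1) =>
          (pvec ((i.castSucc).succAbove r) : EE (m' + 1 + 1)) (cw l)) (Fin.last m').succAbove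
          (i.succAbove r0).succAbove).det = 0 := by
        refine Matrix.det_eq_zero_of_row_eq_zero r0 fun k => ?_
        rw [Matrix.submatrix_apply, Fin.succAbove_last, hrow, pvec_cw_castSucc, if_neg]
        exact (Fin.succAbove_ne _ _).symm
      rw [h1, mul_zero]
    · intro h
      exact absurd (mem_univ _) h

lemma orientDet_fac (hm : 0 < m) (θ : ℝ) (i : Fin (m + 1)) (c : Bool)
    (h : fac i c ∈ (KK m hm).facets) (d : EE (m + 1)) :
    orientDet (KK m hm) (gam hm θ) ⟨fac i c, h⟩ d = detA i * (4 / 5 * Kf (ang θ (!c)) d) := by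
  rw [orientDet, vtx_eq]
  rw [← Matrix.det_submatrix_equiv_self (finSumFinEquiv : Fin m ⊕ Fin 2 ≃ Fin (m + 2))]
  have hblock : (Matrix.submatrix (fun (i_1 j : Fin (m + 1 + 1)) =>
      (Fin.snoc (α := fun _ => EE (m + 1))
        (fun i_1 : Fin (m + 1) => (gam hm θ (lst i (!c) i_1) : EE (m + 1))) d i_1 : EE (m + 1)) j)
      (finSumFinEquiv : Fin m ⊕ Fin 2 ≃ Fin (m + 2)) (finSumFinEquiv : Fin m ⊕ Fin 2 ≃ Fin (m + 2))) =
      Matrix.fromBlocks (fun r l : Fin m => (pvec (i.succAbove r) : EE (m + 1)) (cw l)) 0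
        (fun (r : Fin 2) (l : Fin m) => (![avec (ang θ (!c)), d] r : EE (m + 1)) (cw l))
        !![(avec (ang θ (!c)) : EE (m + 1)) c1, (avec (ang θ (!c)) : EE (m + 1)) c2; d c1, d c2] := by
    have hr1 : ∀ r : Fin m, (Fin.snoc (α := fun _ => EE (m + 1))
        (fun i_1 : Fin (m + 1) => (gam hm θ (lst i (!c) i_1) : EE (m + 1))) d
          (Fin.castAdd 2 r : Fin (m + 2)) : EE (m + 1)) = pvec (i.succAbove r) := by
      intro r
      have : (Fin.castAdd 2 r : Fin (m + 2)) = (r.castSucc).castSucc := rfl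
      rw [this, Fin.snoc_castSucc, lst_castSucc, gam_coe, gv_pv]
    have hr2 : (Fin.snoc (α := fun _ => EE (m + 1))
        (fun i_1 : Fin (m + 1) => (gam hm θ (lst i (!c) i_1) : EE (m + 1))) d
          (Fin.natAdd m (0 : Fin 2) : Fin (m + 2)) : EE (m + 1)) = avec (ang θ (!c)) := by
      have : (Fin.natAdd m (0 : Fin 2) : Fin (m + 2)) = (Fin.last m).castSucc := rfl
      rw [this, Fin.snoc_castSucc, lst_last, gam_coe, gv_ap]
    have hr3 : (Fin.snoc (α := fun _ => EE (m + 1))
        (fun i_1 : Fin (m + 1) => (gam hm θ (lst i (!c) i_1) : EE (m + 1))) d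
          (Fin.natAdd m (1 : Fin 2) : Fin (m + 2)) : EE (m + 1)) = d := by
      have : (Fin.natAdd m (1 : Fin 2) : Fin (m + 2)) = Fin.last (m + 1) := rfl
      rw [this, Fin.snoc_last]
    funext r l
    rw [Matrix.submatrix_apply]
    rcases r with r | r
    · rw [finSumFinEquiv_apply_left, hr1]
      rcases l with l | l
      · rfl
      · fin_cases l
        · show (pvec (i.succAbove r) : EE (m + 1)) c1 = 0
          simp [pvec]
        · show (pvec (i.succAbove r) : EE (m + 1)) c2 = 0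
          simp [pvec]
    · rcases l with l | l
      · fin_cases r
        · exact congrArg (fun z : EE (m + 1) => z (cw l)) hr2
        · exact congrArg (fun z : EE (m + 1) => z (cw l)) hr3
      · fin_cases r <;> fin_cases l
        · exact congrArg (fun z : EE (m + 1) => z c1) hr2
        · exact congrArg (fun z : EE (m + 1) => z c2) hr2
        · exact congrArg (fun z : EE (m + 1) => z c1) hr3
        · exact congrArg (fun z : EE (m + 1) => z c2) hr3
  have hdet := congrArg Matrix.det hblock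
  rw [Matrix.det_fromBlocks_zero₁₂, Matrix.det_fin_two_of] at hdet
  refine hdet.trans ?_
  rw [detA]
  congr 1
  simp only [avec, mk_c1, mk_c2, Kf]
  ring

end Pool.Agent.R759.FP
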