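import Pool.Agent.R759.FPIndex

/-! # The oriented volume of the polyhedra -/

set_option autoImplicit false

namespace Pool.Agent.R759.FP

open Finset MeasureTheory
open scoped Pointwise

variable {m : ℕ}

/-- surface measure -/
noncomputable abbrev surf (m : ℕ) : Measure (Sph (m + 1)) :=
  (volume : Measure (EE (m + 1))).toSphere

/-- great hyperspheres are null sets -/
lemma ae_ne (f : EE (m + 1) → ℝ) (hadd : ∀ x y, f (x + y) = f x + f y)
    (hsmul : ∀ (c : ℝ) x, f (c • x) = c * f x) (x0 : EE (m + 1)) (h0 : f x0 ≠ 0) :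
    ∀ᵐ x : Sph (m + 1) ∂(surf m), f (x : EE (m + 1)) ≠ 0 := by
  let L : EE (m + 1) →ₗ[ℝ] ℝ := { toFun := f, map_add' := hadd, map_smul' := hsmul }
  have hL : ∀ x, L x = f x := fun _ => rfl
  have hcont : Continuous f := L.continuous_of_finiteDimensional
  have hker : LinearMap.ker L ≠ ⊤ := by
    intro h
    have : x0 ∈ LinearMap.ker L := by rw [h]; trivial
    rw [LinearMap.mem_ker, hL] at this
    exact h0 this
  have hvol := Measure.addHaar_submodule (volume : Measure (EE (m + 1))) (LinearMap.ker L) hker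
  rw [ae_iff]
  simp only [not_not]
  have hmeas : MeasurableSet {x : Sph (m + 1) | f (x : EE (m + 1)) = 0} :=
    (isClosed_singleton.preimage (hcont.comp continuous_subtype_val)).measurableSet
  rw [Measure.toSphere_apply' _ hmeas]
  have hsub : Set.Ioo (0 : ℝ) 1 • ((↑) '' {x : Sph (m + 1) | f (x : EE (m + 1)) = 0} :
      Set (EE (m + 1))) ⊆ (LinearMap.ker L : Set (EE (m + 1))) := by
    rintro _ ⟨c, _, _, ⟨x, hx, rfl⟩, rfl⟩
    show L _ = 0
    rw [hL]
    show f (c • (x : EE (m + 1))) = 0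
    rw [hsmul]
    have : f (x : EE (m + 1)) = 0 := hx
    rw [this, mul_zero]
  rw [measure_mono_null hsub hvol, mul_zero]

/-- the angle in `(0, 2π]` -/
noncomputable def af (x : EE (m + 1)) : ℝ := Real.pi + Complex.arg (-(⟨x c1, x c2⟩ : ℂ))

lemma af_pos (x : EE (m + 1)) : 0 < af x := by
  have := Complex.neg_pi_lt_arg (-(⟨x c1, x c2⟩ : ℂ))
  rw [af]; linarith

lemma af_le (x : EE (m + 1)) : af x ≤ 2 * Real.pi := by
  have := Complex.arg_le_pi (-(⟨x c1, x c2⟩ : ℂ))
  rw [af]; linarith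

/-- polar coordinates of the projection -/
lemma polar (x : EE (m + 1)) : ∃ r : ℝ, 0 ≤ r ∧ x c1 = r * Real.cos (af x) ∧
    x c2 = r * Real.sin (af x) ∧ (r = 0 → x c1 = 0 ∧ x c2 = 0) := by
  refine ⟨‖(-(⟨x c1, x c2⟩ : ℂ))‖, norm_nonneg _, ?_, ?_, ?_⟩
  · have := Complex.norm_mul_cos_arg (-(⟨x c1, x c2⟩ : ℂ))
    rw [af, add_comm Real.pi, Real.cos_add_pi]
    simp only [Complex.neg_re] at this
    linarith
  · have := Complex.norm_mul_sin_arg (-(⟨x c1, x c2⟩ : ℂ))
    rw [af, add_comm Real.pi, Real.sin_add_pi]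
    simp only [Complex.neg_im] at this
    linarith
  · intro h
    rw [norm_eq_zero, neg_eq_zero] at h
    exact ⟨congrArg Complex.re h, congrArg Complex.im h⟩

lemma sin_pos_iff {δ : ℝ} (h1 : -(2 * Real.pi) < δ) (h2 : δ < 2 * Real.pi) :
    0 < Real.sin δ ↔ (0 < δ ∧ δ < Real.pi) ∨ δ < -Real.pi := by
  have hp := Real.pi_pos
  constructor
  · intro h
    by_contra hcon
    push Not at hcon
    obtain ⟨h3, h4⟩ := hcon
    rcases le_or_gt δ 0 with h5 | h5
    · have := Real.sin_nonpos_of_nonpos_of_neg_pi_le h5 h4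
      linarith
    · have h6 := h3 h5
      have : Real.sin (δ - Real.pi) = -Real.sin δ := Real.sin_sub_pi δ
      have h7 : 0 ≤ Real.sin (δ - Real.pi) :=
        Real.sin_nonneg_of_nonneg_of_le_pi (by linarith) (by linarith)
      linarith
  · rintro (⟨h3, h4⟩ | h3)
    · exact Real.sin_pos_of_pos_of_lt_pi h3 h4
    · have : Real.sin (δ + 2 * Real.pi) = Real.sin δ := Real.sin_add_two_pi δ
      rw [← this]
      exact Real.sin_pos_of_pos_of_lt_pi (by linarith) (by linarith)

lemma sin_neg_iff {δ : ℝ} (h1 : -(2 * Real.pi) < δ) (h2 : δ < 2 * Real.pi) :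
    Real.sin δ < 0 ↔ (-Real.pi < δ ∧ δ < 0) ∨ Real.pi < δ := by
  have h := sin_pos_iff (δ := -δ) (by linarith) (by linarith)
  rw [Real.sin_neg] at h
  constructor
  · intro h3
    rcases h.1 (by linarith) with ⟨h4, h5⟩ | h4
    · left; constructor <;> linarith
    · right; linarith
  · rintro (⟨h3, h4⟩ | h3)
    · have := h.2 (Or.inl ⟨by linarith, by linarith⟩)
      linarith
    · have := h.2 (Or.inr (by linarith))
      linarith

lemma crs_scale {r r' : ℝ} (hr : 0 < r) (hr' : 0 < r') (A B C : ℝ) :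
    crs (r' * A) (r * B) (r' * r * C) = crs A B C := by
  have hrr : 0 < r' * r := mul_pos hr' hr
  have hneg : ∀ a b : ℝ, 0 < a → (a * b < 0 ↔ b < 0) := by
    intro a b ha
    constructor
    · intro h
      by_contra hcon
      push Not at hcon
      have := mul_nonneg ha.le hcon
      linarith
    · intro h
      exact mul_neg_of_pos_of_neg ha h
  rw [crs, crs]
  simp only [mul_pos_iff_of_pos_left hr, mul_pos_iff_of_pos_left hr', mul_pos_iff_of_pos_left hrr,
    hneg _ _ hr, hneg _ _ hr', hneg _ _ hrr]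

/-- crossings of two rays: the planar computation -/
lemma crs_identity {α β θ : ℝ} (hα0 : 0 < α) (hα1 : α < 2 * Real.pi) (hβ0 : 0 < β)
    (hβ1 : β < 2 * Real.pi) (hθ0 : 0 ≤ θ) (hθ1 : θ ≤ 2 * Real.pi) (h1 : Real.sin α ≠ 0)
    (h2 : Real.sin (α - θ) ≠ 0) (h3 : Real.sin (α - β) ≠ 0) (h4 : β ≠ θ) :
    crs (Real.sin (β - θ)) (Real.sin (α - θ)) (Real.sin (α - β)) -
      crs (Real.sin β) (Real.sin α) (Real.sin (α - β)) =
    (if β < θ then 1 else 0) - (if α < θ then 1 else 0) := by
  have hp := Real.pi_pos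
  have hαθ : α ≠ θ := fun h => h2 (by rw [h, sub_self, Real.sin_zero])
  have hαβ : α ≠ β := fun h => h3 (by rw [h, sub_self, Real.sin_zero])
  have hαπ : α ≠ Real.pi := fun h => h1 (by rw [h, Real.sin_pi])
  have e1 : α - θ ≠ Real.pi := fun h => h2 (by rw [h, Real.sin_pi])
  have e2 : α - θ ≠ -Real.pi := fun h => h2 (by rw [h, Real.sin_neg, Real.sin_pi, neg_zero])
  have e3 : α - β ≠ Real.pi := fun h => h3 (by rw [h, Real.sin_pi])
  have e4 : α - β ≠ -Real.pi := fun h => h3 (by rw [h, Real.sin_neg, Real.sin_pi, neg_zero])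
  have p1 := sin_pos_iff (δ := α - θ) (by linarith) (by linarith)
  have p2 := sin_pos_iff (δ := β - θ) (by linarith) (by linarith)
  have p3 := sin_pos_iff (δ := α - β) (by linarith) (by linarith)
  have p4 := sin_pos_iff (δ := α) (by linarith) (by linarith)
  have p5 := sin_pos_iff (δ := β) (by linarith) (by linarith)
  have n1 := sin_neg_iff (δ := α - θ) (by linarith) (by linarith)
  have n2 := sin_neg_iff (δ := β - θ) (by linarith) (by linarith)
  have n3 := sin_neg_iff (δ := α - β) (by linarith) (by linarith)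
  have n4 := sin_neg_iff (δ := α) (by linarith) (by linarith)
  have n5 := sin_neg_iff (δ := β) (by linarith) (by linarith)
  simp only [crs, p1, p2, p3, p4, p5, n1, n2, n3, n4, n5]
  clear p1 p2 p3 p4 p5 n1 n2 n3 n4 n5 h1 h2 h3
  generalize Real.pi = π at *
  rcases lt_or_gt_of_ne hαθ with a1 | a1 <;> rcases lt_or_gt_of_ne h4 with a2 | a2 <;>
    rcases lt_or_gt_of_ne hαβ with a3 | a3 <;> rcases lt_or_gt_of_ne hαπ with a4 | a4 <;>
    rcases lt_or_gt_of_ne e1 with a5 | a5 <;> rcases lt_or_gt_of_ne e2 with a6 | a6 <;>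
    rcases lt_or_gt_of_ne e3 with a7 | a7 <;> rcases lt_or_gt_of_ne e4 with a8 | a8 <;>
    first
      | (exfalso; linarith)
      | grind (splits := 40)

end Pool.Agent.R759.FP
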