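import Pool.Agent.R759.HCSquares

/-!
Closed listing sequences: the cyclic and dihedral subgroups, and the passage from a cyclic
permutation to a listing sequence.
-/

namespace Pool.Agent.R759.HC

open Finset

attribute [local instance] Classical.propDecidable

set_option linter.unusedSectionVars false

variable {G : Type*} [Group G] [Finite G]

/-- `a_1, …, a_n ∈ A` (`n = |G|`) have pairwise distinct partial products, and product `1` -/
def ClosedListing (A : Set G) (a : Fin (Nat.card G) → G) : Prop :=
  (∀ i, a i ∈ A) ∧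
  Function.Injective (fun k : Fin (Nat.card G) => ((List.ofFn a).take (k.val + 1)).prod) ∧
  (List.ofFn a).prod = 1

theorem listing_of_cyc {A : Set G} {σ : Equiv.Perm G} (h : CycOn A Set.univ σ) :
    ∃ a : Fin (Nat.card G) → G, ClosedListing A a := by
  have : Fintype G := Fintype.ofFinite G
  let a : Fin (Nat.card G) → G := fun i => ((σ ^ i.val) 1)⁻¹ * (σ ^ (i.val + 1)) 1
  have hprod : ∀ k, k ≤ Nat.card G → ((List.ofFn a).take k).prod = (σ ^ k) 1 := by
    intro k
    induction k with
    | zero => intro _; simp
    | succ k ih =>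
      intro hk
      have hk' : k < (List.ofFn a).length := by rw [List.length_ofFn]; omega
      rw [List.take_succ_eq_append_getElem hk', List.prod_append, ih (by omega)]
      simp only [List.getElem_ofFn, List.prod_cons, List.prod_nil, mul_one, a]
      rw [mul_inv_cancel_left]
  have hcyc : σ.IsCycleOn ((univ : Finset G) : Set G) := by
    rw [Finset.coe_univ]
    exact ⟨Set.bijOn_univ.2 σ.bijective, fun x hx y hy => h.cyc x hx y hy⟩
  have hcard : (univ : Finset G).card = Nat.card G := by
    rw [Nat.card_eq_fintype_card]; rfl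
  refine ⟨a, ?_, ?_, ?_⟩
  · intro i
    have h1 := h.step ((σ ^ i.val) 1) (Set.mem_univ _)
    change ((σ ^ i.val) 1)⁻¹ * (σ ^ (i.val + 1)) 1 ∈ A
    rw [pow_succ', Equiv.Perm.mul_apply]
    exact h1
  · intro i j hij
    have hij' : ((List.ofFn a).take (i.val + 1)).prod = ((List.ofFn a).take (j.val + 1)).prod := hij
    rw [hprod _ (by omega), hprod _ (by omega)] at hij'
    rw [hcyc.pow_apply_eq_pow_apply (Finset.mem_univ _), hcard] at hij'
    have h2 : i.val ≡ j.val [MOD Nat.card G] := Nat.ModEq.add_right_cancel' 1 hij'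
    apply Fin.ext
    exact Nat.ModEq.eq_of_lt_of_lt h2 i.isLt j.isLt
  · have h1 := hprod (Nat.card G) le_rfl
    rw [List.take_of_length_le (by rw [List.length_ofFn])] at h1
    rw [h1, hcyc.pow_apply_eq (Finset.mem_univ _), hcard]

/-- the cyclic case -/
theorem cyc_zpowers {A : Set G} {a : G} (ha : a ∈ A) :
    ∃ τ : Equiv.Perm G, CycOn A (Subgroup.zpowers a : Set G) τ ∧
      Trav a a⁻¹ ((1 : G) : G ⧸ Subgroup.zpowers a) τ := by
  set H := Subgroup.zpowers a with hH
  have haH : a ∈ H := Subgroup.mem_zpowers a
  let τ : Equiv.Perm G :=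
    { toFun := fun x => if x ∈ H then x * a else x
      invFun := fun x => if x ∈ H then x * a⁻¹ else x
      left_inv := by
        intro x
        by_cases hx : x ∈ H
        · simp [hx, H.mul_mem hx haH]
        · simp [hx]
      right_inv := by
        intro x
        by_cases hx : x ∈ H
        · simp [hx, H.mul_mem hx (H.inv_mem haH)]
        · simp [hx] }
  have t1 : ∀ x ∈ H, τ x = x * a := fun x hx => if_pos hx
  have t2 : ∀ x, x ∉ H → τ x = x := fun x hx => if_neg hx
  have hpow : ∀ (n : ℕ) (x : G), x ∈ H → (τ ^ n) x = x * a ^ n := by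
    intro n
    induction n with
    | zero => intro x _; simp
    | succ n ih =>
      intro x hx
      rw [pow_succ', Equiv.Perm.mul_apply, ih x hx, t1 _ (H.mul_mem hx (H.pow_mem haH n)),
        mul_assoc, ← pow_succ]
  refine ⟨τ, ⟨?_, ?_, ?_, ?_⟩, ?_⟩
  · exact fun x hx => t2 x hx
  · intro x hx
    rw [t1 x hx]
    exact H.mul_mem hx haH
  · intro x hx
    rw [t1 x hx, inv_mul_cancel_left]
    exact ha
  · intro x hx y hy
    have h1 : x⁻¹ * y ∈ H := H.mul_mem (H.inv_mem hx) hy
    rw [hH, ← mem_powers_iff_mem_zpowers, Submonoid.mem_powers_iff] at h1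
    obtain ⟨n, hn⟩ := h1
    refine ⟨(n : ℤ), ?_⟩
    rw [zpow_natCast, hpow n x hx, hn, mul_inv_cancel_left]
  · intro x s hx hs
    have hxH : x ∈ H := by
      rw [eq_comm, QuotientGroup.eq] at hx
      simpa using hx
    rcases hs with rfl | rfl
    · exact Or.inl (t1 x hxH)
    · right
      rw [t1 _ (H.mul_mem hxH (H.inv_mem haH)), inv_mul_cancel_right]

/-- the dihedral case -/
theorem cyc_dihedral {A : Set G} {a b : G} (ha : a ∈ A) (hb : b ∈ A) (ha1 : a ≠ 1) (hb1 : b ≠ 1)
    (hab : a ≠ b) (ha2 : a * a = 1) (hb2 : b * b = 1) :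
    ∃ τ : Equiv.Perm G, CycOn A (Subgroup.closure {a, b} : Set G) τ ∧
      Trav a b ((1 : G) : G ⧸ Subgroup.closure {a, b}) τ := by
  set H := Subgroup.closure ({a, b} : Set G) with hH
  have haH : a ∈ H := Subgroup.subset_closure (by simp)
  have hbH : b ∈ H := Subgroup.subset_closure (by simp)
  set Z := Subgroup.zpowers (a * b) with hZ
  have hZH : Z ≤ H := by
    rw [hZ, Subgroup.zpowers_le]
    exact H.mul_mem haH hbH
  have hrZ : a * b ∈ Z := Subgroup.mem_zpowers _
  have hba : b * a = (a * b)⁻¹ := by
    rw [mul_inv_rev, inv_eq_of_mul_eq_one_left ha2, inv_eq_of_mul_eq_one_left hb2]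
  have hbaZ : b * a ∈ Z := by
    rw [hba]; exact Z.inv_mem hrZ
  -- `a` and `b` are not powers of `a b`
  have haZ : a ∉ Z := by
    intro haZ
    have hbZ : b ∈ Z := by
      have h1 := Z.mul_mem (Z.inv_mem haZ) hrZ
      rwa [inv_mul_cancel_left] at h1
    obtain ⟨i, hi⟩ := Subgroup.mem_zpowers_iff.1 haZ
    obtain ⟨j, hj⟩ := Subgroup.mem_zpowers_iff.1 hbZ
    have hcomm : a * b = b * a := by
      have : (a * b) ^ i * (a * b) ^ j = (a * b) ^ j * (a * b) ^ i := by
        rw [← zpow_add, ← zpow_add, add_comm]
      rwa [hi, hj] at this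
    have hr2 : (a * b) ^ 2 = 1 := by
      rw [pow_two]
      calc a * b * (a * b) = a * (b * a) * b := by group
        _ = a * (a * b) * b := by rw [← hcomm]
        _ = (a * a) * (b * b) := by group
        _ = 1 := by rw [ha2, hb2, mul_one]
    have par : ∀ k : ℤ, (a * b) ^ k = 1 ∨ (a * b) ^ k = a * b := by
      intro k
      rcases Int.even_or_odd' k with ⟨m, rfl | rfl⟩
      · left
        rw [zpow_mul]
        have : (a * b) ^ (2 : ℤ) = 1 := by exact_mod_cast hr2
        rw [this, one_zpow]
      · right
        rw [zpow_add, zpow_mul]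
        have : (a * b) ^ (2 : ℤ) = 1 := by exact_mod_cast hr2
        rw [this, one_zpow, one_mul, zpow_one]
    rcases par i with h | h
    · exact ha1 (hi ▸ h)
    · rcases par j with h' | h'
      · exact hb1 (hj ▸ h')
      · exact hab (hi.symm.trans (h.trans (h'.symm.trans hj)))
  have hbZ : b ∉ Z := by
    intro hbZ
    apply haZ
    have h1 := Z.mul_mem hrZ (Z.inv_mem hbZ)
    rwa [mul_inv_cancel_right] at h1
  have haa : a⁻¹ = a := inv_eq_of_mul_eq_one_left ha2
  have hbb : b⁻¹ = b := inv_eq_of_mul_eq_one_left hb2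
  -- description of `H`
  have hdesc : ∀ x ∈ H, x ∈ Z ∨ x * a ∈ Z := by
    intro x hx
    rw [hH] at hx
    have st_a : ∀ x : G, (x ∈ Z ∨ x * a ∈ Z) → (x * a ∈ Z ∨ x * a * a ∈ Z) := by
      intro x h
      rcases h with h | h
      · right
        rw [mul_assoc, ha2, mul_one]; exact h
      · left; exact h
    have st_b : ∀ x : G, (x ∈ Z ∨ x * a ∈ Z) → (x * b ∈ Z ∨ x * b * a ∈ Z) := by
      intro x h
      rcases h with h | h
      · right
        rw [mul_assoc]; exact Z.mul_mem h hbaZ
      · left
        have h1 := Z.mul_mem h hrZ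
        have h2 : x * a * (a * b) = x * b := by
          calc x * a * (a * b) = x * (a * a) * b := by group
            _ = x * b := by rw [ha2, mul_one]
        rwa [h2] at h1
    induction hx using Subgroup.closure_induction_right with
    | one => exact Or.inl Z.one_mem
    | mul_right x _ y hy ih =>
      rcases hy with rfl | hy
      · exact st_a x ih
      · rw [Set.mem_singleton_iff] at hy
        subst hy
        exact st_b x ih
    | mul_inv_cancel x _ y hy ih =>
      rcases hy with rfl | hy
      · rw [haa]; exact st_a x ih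
      · rw [Set.mem_singleton_iff] at hy
        subst hy
        rw [hbb]; exact st_b x ih
  have hexcl : ∀ x, x ∈ Z → x * a ∉ Z := by
    intro x hx h
    apply haZ
    have h1 := Z.mul_mem (Z.inv_mem hx) h
    rwa [inv_mul_cancel_left] at h1
  have hexclb : ∀ x, x ∈ Z → x * b ∉ Z := by
    intro x hx h
    apply hbZ
    have h1 := Z.mul_mem (Z.inv_mem hx) h
    rwa [inv_mul_cancel_left] at h1
  have hodd : ∀ x, x * a ∈ Z → x * b ∈ Z := by
    intro x h
    have h1 := Z.mul_mem h hrZ
    have h2 : x * a * (a * b) = x * b := by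
      calc x * a * (a * b) = x * (a * a) * b := by group
        _ = x * b := by rw [ha2, mul_one]
    rwa [h2] at h1
  let f : G → G := fun x => if x ∈ Z then x * a else if x * a ∈ Z then x * b else x
  let f' : G → G := fun x => if x ∈ Z then x * b else if x * a ∈ Z then x * a else x
  have f1 : ∀ x, x ∈ Z → f x = x * a := fun x hx => if_pos hx
  have f2 : ∀ x, x * a ∈ Z → f x = x * b := by
    intro x hx
    have hn : x ∉ Z := fun h => hexcl x h hx
    simp only [f, hn, hx, if_true, if_false]
  have f3 : ∀ x, x ∉ Z → x * a ∉ Z → f x = x := by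
    intro x h h'
    simp only [f, h, h', if_false]
  let τ : Equiv.Perm G :=
    { toFun := f
      invFun := f'
      left_inv := by
        intro x
        by_cases hx : x ∈ Z
        · rw [f1 x hx]
          have hn : x * a ∉ Z := hexcl x hx
          have hp : x * a * a ∈ Z := by rw [mul_assoc, ha2, mul_one]; exact hx
          simp only [f', hn, hp, if_true, if_false]
          rw [mul_assoc, ha2, mul_one]
        · by_cases hx' : x * a ∈ Z
          · rw [f2 x hx']
            have hp : x * b ∈ Z := hodd x hx'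
            simp only [f', hp, if_true]
            rw [mul_assoc, hb2, mul_one]
          · rw [f3 x hx hx']
            simp only [f', hx, hx', if_false]
      right_inv := by
        intro x
        by_cases hx : x ∈ Z
        · have e : f' x = x * b := if_pos hx
          rw [e]
          have hp : x * b * a ∈ Z := by rw [mul_assoc]; exact Z.mul_mem hx hbaZ
          rw [f2 _ hp, mul_assoc, hb2, mul_one]
        · by_cases hx' : x * a ∈ Z
          · have e : f' x = x * a := by simp only [f', hx, hx', if_true, if_false]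
            rw [e, f1 _ hx', mul_assoc, ha2, mul_one]
          · have e : f' x = x := by simp only [f', hx, hx', if_false]
            rw [e, f3 x hx hx'] }
  have t1 : ∀ x, x ∈ Z → τ x = x * a := f1
  have t2 : ∀ x, x * a ∈ Z → τ x = x * b := f2
  have hpow : ∀ (n : ℕ) (x : G), x ∈ Z → (τ ^ (2 * n)) x = x * (a * b) ^ n := by
    intro n
    induction n with
    | zero => intro x _; simp
    | succ n ih =>
      intro x hx
      have e : 2 * (n + 1) = 2 * n + 1 + 1 := by ring
      have hin : x * (a * b) ^ n ∈ Z := Z.mul_mem hx (Z.pow_mem hrZ n)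
      have hin' : x * (a * b) ^ n * a * a ∈ Z := by
        rw [mul_assoc (x * (a * b) ^ n), ha2, mul_one]; exact hin
      rw [e, pow_succ', Equiv.Perm.mul_apply, pow_succ', Equiv.Perm.mul_apply, ih x hx, t1 _ hin,
        t2 _ hin', pow_succ]
      group
  have base : ∀ y, y ∈ Z → τ.SameCycle 1 y := by
    intro y hy
    rw [hZ, ← mem_powers_iff_mem_zpowers, Submonoid.mem_powers_iff] at hy
    obtain ⟨n, hn⟩ := hy
    refine ⟨((2 * n : ℕ) : ℤ), ?_⟩
    rw [zpow_natCast, hpow n 1 Z.one_mem, hn, one_mul]
  have base' : ∀ y ∈ H, τ.SameCycle 1 y := by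
    intro y hy
    rcases hdesc y hy with h | h
    · exact base y h
    · have h1 := base _ h
      have h2 : τ (y * a) = y := by
        rw [t1 _ h, mul_assoc, ha2, mul_one]
      have h3 := Equiv.Perm.sameCycle_apply_right.2 h1
      rwa [h2] at h3
  refine ⟨τ, ⟨?_, ?_, ?_, ?_⟩, ?_⟩
  · intro x hx
    apply f3
    · intro h; exact hx (hZH h)
    · intro h
      apply hx
      have h1 := H.mul_mem (hZH h) (H.inv_mem haH)
      rwa [mul_inv_cancel_right] at h1
  · intro x hx
    rcases hdesc x hx with h | h
    · rw [t1 x h]; exact H.mul_mem hx haH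
    · rw [t2 x h]; exact H.mul_mem hx hbH
  · intro x hx
    rcases hdesc x hx with h | h
    · rw [t1 x h, inv_mul_cancel_left]; exact ha
    · rw [t2 x h, inv_mul_cancel_left]; exact hb
  · intro x hx y hy
    exact (base' x hx).symm.trans (base' y hy)
  · intro x s hx hs
    have hxH : x ∈ H := by
      rw [eq_comm, QuotientGroup.eq] at hx
      simpa using hx
    rcases hdesc x hxH with h | h
    · rcases hs with rfl | rfl
      · exact Or.inl (t1 x h)
      · right
        have hp : x * s * a ∈ Z := by rw [mul_assoc]; exact Z.mul_mem h hbaZ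
        rw [t2 _ hp, mul_assoc, hb2, mul_one]
    · rcases hs with rfl | rfl
      · right
        rw [t1 _ h, mul_assoc, ha2, mul_one]
      · exact Or.inl (t2 x h)

end Pool.Agent.R759.HC
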