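import Pool.Agent.R759.HCFinal

/-!
General merging of cycles on the cosets of a subgroup `H`, along bijections between cosets
which move enough elements to neighbours.
-/

namespace Pool.Agent.R759.HC

open Finset

attribute [local instance] Classical.propDecidable

set_option linter.unusedSectionVars false

variable {G : Type*} [Group G]

/-- transport of a cycle along a bijection `θ` -/
theorem CycOn.transport {B U U' : Set G} {ρ θ : Equiv.Perm G} (h : CycOn B U ρ)
    (hθ : ∀ x, x ∈ U ↔ θ x ∈ U')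
    (hB : ∀ x ∈ U, ∀ z ∈ U, x⁻¹ * z ∈ B → (θ x)⁻¹ * θ z ∈ B) :
    CycOn B U' (θ * ρ * θ⁻¹) := by
  have ap : ∀ y, (θ * ρ * θ⁻¹) y = θ (ρ (θ⁻¹ y)) := fun y => rfl
  have hU : ∀ y, y ∈ U' ↔ θ⁻¹ y ∈ U := by
    intro y
    rw [hθ, pinv1]
  refine ⟨?_, ?_, ?_, ?_⟩
  · intro y hy
    rw [ap, h.fix _ (fun h' => hy ((hU y).2 h')), pinv1]
  · intro y hy
    rw [ap, ← hθ]
    exact h.maps _ ((hU y).1 hy)
  · intro y hy
    rw [ap]
    have h1 := (hU y).1 hy
    have h2 := hB _ h1 _ (h.maps _ h1) (h.step _ h1)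
    rwa [pinv1] at h2
  · intro x hx y hy
    rw [Equiv.Perm.sameCycle_conj]
    exact h.cyc _ ((hU x).1 hx) _ ((hU y).1 hy)

variable [Fintype G]

/-- the elements of the coset `v` which, together with their successors under `ρ`, are moved by
`θ` to neighbours -/
noncomputable def goodPos (A : Set G) {H : Subgroup G} (v : G ⧸ H) (θ ρ : Equiv.Perm G) : Finset G :=
  univ.filter fun x : G => (x : G ⧸ H) = v ∧ x⁻¹ * θ x ∈ A ∧ (ρ x)⁻¹ * θ (ρ x) ∈ A

/-- the graph on the cosets of `H` -/
def gg (A B : Set G) (hA : ∀ x ∈ A, x⁻¹ ∈ A) (H : Subgroup G) : SimpleGraph (G ⧸ H) where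
  Adj v u := v ≠ u ∧ ∃ θ : Equiv.Perm G, (∀ x : G, (x : G ⧸ H) = v ↔ ((θ x : G) : G ⧸ H) = u) ∧
    (∀ x z : G, (x : G ⧸ H) = v → (z : G ⧸ H) = v → (x⁻¹ * z ∈ B ↔ (θ x)⁻¹ * θ z ∈ B)) ∧
    ∀ ρ : Equiv.Perm G, CycOn B {x | (x : G ⧸ H) = v} ρ → 3 ≤ (goodPos A v θ ρ).card
  symm := ⟨by
    rintro v u ⟨hne, θ, h1, h2, h3⟩
    have k1 : ∀ y : G, (y : G ⧸ H) = u ↔ ((θ⁻¹ y : G) : G ⧸ H) = v := by
      intro y
      rw [h1, pinv1]
    refine ⟨hne.symm, θ⁻¹, k1, ?_, ?_⟩
    · intro y w hy hw
      rw [h2 _ _ ((k1 y).1 hy) ((k1 w).1 hw), pinv1, pinv1]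
    · intro ρ hρ
      have hρ' : CycOn B {x | (x : G ⧸ H) = v} (θ⁻¹ * ρ * (θ⁻¹)⁻¹) := by
        apply hρ.transport
        · exact k1
        · intro y hy w hw hyw
          rw [h2 _ _ ((k1 y).1 hy) ((k1 w).1 hw), pinv1, pinv1]
          exact hyw
      refine (h3 _ hρ').trans ?_
      apply Finset.card_le_card_of_injOn (fun x => θ x)
      · intro x hx
        rw [Finset.mem_coe] at hx ⊢
        unfold goodPos at hx ⊢
        rw [Finset.mem_filter] at hx ⊢
        obtain ⟨_, hx1, hx2, hx3⟩ := hx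
        refine ⟨Finset.mem_univ _, (h1 x).1 hx1, ?_, ?_⟩
        · rw [pinv2]
          have := hA _ hx2
          rwa [mul_inv_rev, inv_inv] at this
        · have e : (θ⁻¹ * ρ * (θ⁻¹)⁻¹) x = θ⁻¹ (ρ (θ x)) := by
            rw [inv_inv]; rfl
          rw [e, pinv1] at hx3
          have := hA _ hx3
          rwa [mul_inv_rev, inv_inv] at this
      · intro x _ y _ hxy
        exact θ.injective hxy⟩
  loopless := ⟨fun v h => h.1 rfl⟩

theorem gg_inv (A B : Set G) (hA : ∀ x ∈ A, x⁻¹ ∈ A) (H : Subgroup G) (g : G) (v u : G ⧸ H)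
    (h : (gg A B hA H).Adj v u) : (gg A B hA H).Adj (g • v) (g • u) := by
  obtain ⟨hne, θ, h1, h2, h3⟩ := h
  have km : ∀ (w : G ⧸ H) (x : G), (x : G ⧸ H) = g • w ↔ ((g⁻¹ * x : G) : G ⧸ H) = w := by
    intro w x
    have e : ((g⁻¹ * x : G) : G ⧸ H) = g⁻¹ • (x : G ⧸ H) := rfl
    rw [e, inv_smul_eq_iff]
  have ap : ∀ x, (Equiv.mulLeft g * θ * (Equiv.mulLeft g)⁻¹) x = g * θ (g⁻¹ * x) := by
    intro x
    simp [Equiv.Perm.mul_apply]
  refine ⟨fun h => hne (MulAction.injective g h), Equiv.mulLeft g * θ * (Equiv.mulLeft g)⁻¹,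
    ?_, ?_, ?_⟩
  · intro x
    rw [km, h1, ap, km, inv_mul_cancel_left]
  · intro x z hx hz
    rw [km] at hx hz
    have e1 : x⁻¹ * z = (g⁻¹ * x)⁻¹ * (g⁻¹ * z) := by group
    rw [e1, h2 _ _ hx hz, ap, ap]
    have e2 : (g * θ (g⁻¹ * x))⁻¹ * (g * θ (g⁻¹ * z)) = (θ (g⁻¹ * x))⁻¹ * θ (g⁻¹ * z) := by group
    rw [e2]
  · intro ρ hρ
    have hρ' := hρ.translate g⁻¹
    have hset : {x : G | g⁻¹⁻¹ * x ∈ {x : G | (x : G ⧸ H) = g • v}} =
        {x : G | (x : G ⧸ H) = v} := by
      ext x
      change ((g⁻¹⁻¹ * x : G) : G ⧸ H) = g • v ↔ (x : G ⧸ H) = v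
      rw [km, inv_inv, inv_mul_cancel_left]
    rw [hset] at hρ'
    refine (h3 _ hρ').trans ?_
    apply Finset.card_le_card_of_injOn (fun x => g * x)
    · intro x hx
      rw [Finset.mem_coe] at hx ⊢
      unfold goodPos at hx ⊢
      rw [Finset.mem_filter] at hx ⊢
      obtain ⟨_, hx1, hx2, hx3⟩ := hx
      have e0 : (Equiv.mulLeft g⁻¹ * ρ * (Equiv.mulLeft g⁻¹)⁻¹) x = g⁻¹ * ρ (g * x) := by
        simp [Equiv.Perm.mul_apply]
      rw [e0] at hx3
      refine ⟨Finset.mem_univ _, ?_, ?_, ?_⟩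
      · rw [km, inv_mul_cancel_left]; exact hx1
      · rw [ap, inv_mul_cancel_left]
        have e : (g * x)⁻¹ * (g * θ x) = x⁻¹ * θ x := by group
        rw [e]; exact hx2
      · rw [ap]
        have e : (ρ (g * x))⁻¹ * (g * θ (g⁻¹ * ρ (g * x))) =
            (g⁻¹ * ρ (g * x))⁻¹ * θ (g⁻¹ * ρ (g * x)) := by group
        rw [e]; exact hx3
    · intro x _ y _ hxy
      exact mul_left_cancel hxy

/-- merging along a spanning tree of maximum degree three -/
theorem merge_gen (A B : Set G) (hA : ∀ x ∈ A, x⁻¹ ∈ A) (hB : ∀ x ∈ B, x⁻¹ ∈ B) (hBA : B ⊆ A)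
    (H : Subgroup G) (T : SimpleGraph (G ⧸ H)) (hTc : T.Connected) (hTle : T ≤ gg A B hA H)
    (hTd : ∀ v, dg T v ≤ 3) (τ : Equiv.Perm G) (hτ : CycOn B (H : Set G) τ) :
    ∃ σ : Equiv.Perm G, CycOn A Set.univ σ := by
  have toA : ∀ {U : Set G} {ρ : Equiv.Perm G}, CycOn B U ρ → CycOn A U ρ := by
    intro U ρ h
    exact ⟨h.fix, h.maps, fun x hx => hBA (h.step x hx), h.cyc⟩
  have key : ∀ k : ℕ, k + 1 ≤ Fintype.card (G ⧸ H) → ∃ S : Finset (G ⧸ H), S.card = k + 1 ∧
      ∃ σ : Equiv.Perm G, CycOn A {x | (x : G ⧸ H) ∈ S} σ ∧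
        ∀ v ∈ S, ∃ ρ : Equiv.Perm G, CycOn B {x | (x : G ⧸ H) = v} ρ ∧
          (univ.filter fun x : G => (x : G ⧸ H) = v ∧ σ x ≠ ρ x).card ≤
            (S.filter fun u => T.Adj v u).card := by
    intro k
    induction k with
    | zero =>
      intro _
      refine ⟨{((1 : G) : G ⧸ H)}, rfl, τ, ?_, ?_⟩
      · have : {x : G | (x : G ⧸ H) ∈ ({((1 : G) : G ⧸ H)} : Finset (G ⧸ H))} = (H : Set G) := by
          ext x
          simp only [Finset.mem_singleton, Set.mem_ofPred_eq, SetLike.mem_coe]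
          rw [eq_comm, QuotientGroup.eq]
          simp
        rw [this]
        exact toA hτ
      · intro v hv
        rw [Finset.mem_singleton] at hv
        subst hv
        refine ⟨τ, ?_, ?_⟩
        · have : {x : G | (x : G ⧸ H) = ((1 : G) : G ⧸ H)} = (H : Set G) := by
            ext x
            simp only [Set.mem_ofPred_eq, SetLike.mem_coe]
            rw [eq_comm, QuotientGroup.eq]
            simp
          rw [this]
          exact hτ
        · simp
    | succ k ih =>
      intro hk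
      obtain ⟨S, hS, σ, hσ, hinv⟩ := ih (by omega)
      have hSne : S.Nonempty := by
        rw [← Finset.card_pos]; omega
      have hSu : S ≠ univ := by
        intro h
        have : S.card = Fintype.card (G ⧸ H) := by rw [h]; rfl
        omega
      obtain ⟨v, u, hvu, hvS, huS⟩ := exists_cross hTc S hSne hSu
      obtain ⟨ρ, hρ, hcount⟩ := hinv v hvS
      obtain ⟨hne, θ, hθ1, hθ2, hθ3⟩ := hTle hvu
      -- an unused good position
      obtain ⟨x, hxv, hxρ, hx1A, hx2A⟩ : ∃ x : G, (x : G ⧸ H) = v ∧ σ x = ρ x ∧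
          x⁻¹ * θ x ∈ A ∧ (ρ x)⁻¹ * θ (ρ x) ∈ A := by
        by_contra hno
        push Not at hno
        have h1 : (S.filter fun u => T.Adj v u).card < dg T v := by
          unfold dg
          apply Finset.card_lt_card
          rw [Finset.ssubset_iff_of_subset]
          · exact ⟨u, by simp [hvu], by simp [huS]⟩
          · intro w hw
            rw [Finset.mem_filter] at hw ⊢
            exact ⟨Finset.mem_univ _, hw.2⟩
        have h2 := hTd v
        have h3 := hθ3 ρ hρ
        have h4 : (goodPos A v θ ρ).card ≤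
            (univ.filter fun x : G => (x : G ⧸ H) = v ∧ σ x ≠ ρ x).card := by
          apply Finset.card_le_card
          intro x hx
          unfold goodPos at hx
          rw [Finset.mem_filter] at hx ⊢
          exact ⟨hx.1, hx.2.1, fun h => hno x hx.2.1 h hx.2.2.1 hx.2.2.2⟩
        omega
      have hσ2 : CycOn B {x : G | (x : G ⧸ H) = u} (θ * ρ⁻¹ * θ⁻¹) := by
        apply (hρ.inv hB).transport
        · exact hθ1
        · intro x hx z hz h
          exact (hθ2 x z hx hz).1 h
      set σ2 := θ * ρ⁻¹ * θ⁻¹ with hσ2def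
      have ap2 : ∀ z, σ2 z = θ (ρ⁻¹ (θ⁻¹ z)) := fun z => rfl
      have hyv : ((σ x : G) : G ⧸ H) = v := by
        rw [hxρ]
        exact hρ.maps x hxv
      have hx1 : x ∈ {x : G | (x : G ⧸ H) ∈ S} := by
        change (x : G ⧸ H) ∈ S
        rw [hxv]; exact hvS
      have hy' : θ (σ x) ∈ {x : G | (x : G ⧸ H) = u} := (hθ1 _).1 hyv
      have hxy' : σ2 (θ (σ x)) = θ x := by
        rw [ap2, pinv2, hxρ, pinv2]
      have s2 : (θ (σ x))⁻¹ * σ x ∈ A := by
        have h1 := hA _ hx2A
        rw [← hxρ] at h1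
        rwa [mul_inv_rev, inv_inv] at h1
      obtain ⟨hm, em1, em2⟩ := hσ.merge (toA hσ2) (by
        intro z hz hz'
        apply huS
        have e1 : (z : G ⧸ H) ∈ S := hz
        have e2 : (z : G ⧸ H) = u := hz'
        rwa [e2] at e1) hx1 hy' hxy' hx1A s2
      set σ' := σ * σ2 * Equiv.swap x (θ (σ x)) with hσ'
      refine ⟨insert u S, ?_, σ', ?_, ?_⟩
      · rw [Finset.card_insert_of_notMem huS, hS]
      · have : {x : G | (x : G ⧸ H) ∈ insert u S} =
            {x : G | (x : G ⧸ H) ∈ S} ∪ {x : G | (x : G ⧸ H) = u} := by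
          ext z
          simp only [Finset.mem_insert, Set.mem_ofPred_eq, Set.mem_union]
          tauto
        rw [this]
        exact hm
      · intro w hw
        by_cases hwu : w = u
        · subst hwu
          refine ⟨σ2, hσ2, ?_⟩
          have h1 : (univ.filter fun z : G => (z : G ⧸ H) = w ∧ σ' z ≠ σ2 z) ⊆ {θ (σ x)} := by
            intro z hz
            rw [Finset.mem_filter] at hz
            rw [Finset.mem_singleton]
            by_contra h
            exact hz.2.2 (em2 z hz.2.1 h)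
          have h2 : 0 < ((insert w S).filter fun u => T.Adj w u).card := by
            rw [Finset.card_pos]
            exact ⟨v, by simp [hvS, hvu.symm]⟩
          have h3 := Finset.card_le_card h1
          rw [Finset.card_singleton] at h3
          omega
        · have hwS : w ∈ S := by
            rw [Finset.mem_insert] at hw
            exact hw.resolve_left hwu
          by_cases hwv : w = v
          · subst hwv
            refine ⟨ρ, hρ, ?_⟩
            have h1 : (univ.filter fun z : G => (z : G ⧸ H) = w ∧ σ' z ≠ ρ z) ⊆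
                insert x (univ.filter fun z : G => (z : G ⧸ H) = w ∧ σ z ≠ ρ z) := by
              intro z hz
              rw [Finset.mem_filter] at hz
              rw [Finset.mem_insert, Finset.mem_filter]
              by_cases h : z = x
              · exact Or.inl h
              · right
                refine ⟨Finset.mem_univ _, hz.2.1, ?_⟩
                rw [← em1 z (by
                  change (z : G ⧸ H) ∈ S
                  rw [hz.2.1]; exact hwS) h]
                exact hz.2.2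
            have h2 : ((insert u S).filter fun u => T.Adj w u) =
                insert u (S.filter fun u => T.Adj w u) := by
              rw [Finset.filter_insert, if_pos hvu]
            have h3 := (Finset.card_le_card h1).trans (Finset.card_insert_le _ _)
            rw [h2, Finset.card_insert_of_notMem (by simp [huS])]
            omega
          · obtain ⟨ρw, hρw, hcw⟩ := hinv w hwS
            refine ⟨ρw, hρw, ?_⟩
            have h1 : (univ.filter fun z : G => (z : G ⧸ H) = w ∧ σ' z ≠ ρw z) ⊆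
                (univ.filter fun z : G => (z : G ⧸ H) = w ∧ σ z ≠ ρw z) := by
              intro z hz
              rw [Finset.mem_filter] at hz ⊢
              refine ⟨Finset.mem_univ _, hz.2.1, ?_⟩
              rw [← em1 z (by
                change (z : G ⧸ H) ∈ S
                rw [hz.2.1]; exact hwS) (by
                rintro rfl
                exact hwv (hz.2.1.symm.trans hxv))]
              exact hz.2.2
            refine (Finset.card_le_card h1).trans (hcw.trans (Finset.card_le_card ?_))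
            exact Finset.filter_subset_filter _ (Finset.subset_insert _ _)
  have hpos : 0 < Fintype.card (G ⧸ H) := Fintype.card_pos_iff.2 ⟨((1 : G) : G ⧸ H)⟩
  obtain ⟨S, hS, σ, hσ, _⟩ := key (Fintype.card (G ⧸ H) - 1) (by omega)
  have hSu : S = univ := by
    apply Finset.eq_univ_of_card
    omega
  refine ⟨σ, ?_⟩
  have : {x : G | (x : G ⧸ H) ∈ S} = Set.univ := by
    rw [hSu]; ext x; simp
  rwa [this] at hσ

/-- `c` links the coset `x H` to `x c H`, for every `x` -/
def Links (A B : Set G) (hA : ∀ x ∈ A, x⁻¹ ∈ A) (H : Subgroup G) (c : G) : Prop :=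
  ∀ x : G, (x : G ⧸ H) = ((x * c : G) : G ⧸ H) ∨
    (gg A B hA H).Adj (x : G ⧸ H) ((x * c : G) : G ⧸ H)

theorem gg_conn (A B : Set G) (hA : ∀ x ∈ A, x⁻¹ ∈ A) (H : Subgroup G) (C : Set G)
    (hC : ∀ c ∈ C, Links A B hA H c) (hgen : Subgroup.closure ((H : Set G) ∪ C) = ⊤) :
    (gg A B hA H).Connected := by
  have hne : Nonempty (G ⧸ H) := ⟨((1 : G) : G ⧸ H)⟩
  have step : ∀ (x c : G), c ∈ C →
      (gg A B hA H).Reachable (x : G ⧸ H) ((x * c : G) : G ⧸ H) := by
    intro x c hc
    rcases hC c hc x with h | h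
    · rw [← h]
    · exact h.reachable
  have stepH : ∀ (x c : G), c ∈ H → ((x : G) : G ⧸ H) = ((x * c : G) : G ⧸ H) := by
    intro x c hc
    rw [QuotientGroup.eq]
    simpa using hc
  have key : ∀ g : G, (gg A B hA H).Reachable ((1 : G) : G ⧸ H) (g : G ⧸ H) := by
    intro g
    have hg : g ∈ Subgroup.closure ((H : Set G) ∪ C) := by rw [hgen]; trivial
    induction hg using Subgroup.closure_induction_right with
    | one => exact SimpleGraph.Reachable.refl _
    | mul_right x _ y hy ih =>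
      rcases hy with hy | hy
      · rw [← stepH x y hy]; exact ih
      · exact ih.trans (step x y hy)
    | mul_inv_cancel x _ y hy ih =>
      rcases hy with hy | hy
      · rw [← stepH x y⁻¹ (H.inv_mem hy)]; exact ih
      · have := step (x * y⁻¹) y hy
        rw [inv_mul_cancel_right] at this
        exact ih.trans this.symm
  refine SimpleGraph.Connected.mk ?_
  intro u v
  obtain ⟨x, rfl⟩ := QuotientGroup.mk_surjective u
  obtain ⟨y, rfl⟩ := QuotientGroup.mk_surjective v
  exact (key x).symm.trans (key y)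

/-- all `H`-conjugates of `c` are available -/
theorem links_left (A B : Set G) (hA : ∀ x ∈ A, x⁻¹ ∈ A) (H : Subgroup G)
    (h3 : 3 ≤ Nat.card H) (c : G) (hc : ∀ h ∈ H, h⁻¹ * c * h ∈ A) : Links A B hA H c := by
  intro x
  by_cases h : (x : G ⧸ H) = ((x * c : G) : G ⧸ H)
  · exact Or.inl h
  · right
    have hap : ∀ y, (Equiv.mulLeft (x * c * x⁻¹)) y = x * c * x⁻¹ * y := fun y => rfl
    have hco : ∀ y : G, (y : G ⧸ H) = (x : G ⧸ H) → y⁻¹ * (x * c * x⁻¹ * y) ∈ A := by
      intro y hy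
      have h1 : x⁻¹ * y ∈ H := by
        rw [← QuotientGroup.eq]
        exact hy.symm
      have h2 := hc _ h1
      have e : (x⁻¹ * y)⁻¹ * c * (x⁻¹ * y) = y⁻¹ * (x * c * x⁻¹ * y) := by group
      rwa [e] at h2
    refine ⟨h, Equiv.mulLeft (x * c * x⁻¹), ?_, ?_, ?_⟩
    · intro y
      rw [hap]
      have e : ((x * c * x⁻¹ * y : G) : G ⧸ H) = (x * c * x⁻¹) • (y : G ⧸ H) := rfl
      have e2 : ((x * c : G) : G ⧸ H) = (x * c * x⁻¹) • (x : G ⧸ H) := by
        change _ = ((x * c * x⁻¹ * x : G) : G ⧸ H)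
        rw [inv_mul_cancel_right]
      rw [e, e2]
      exact ⟨fun h => by rw [h], fun h => MulAction.injective _ h⟩
    · intro y z _ _
      rw [hap, hap]
      have e : (x * c * x⁻¹ * y)⁻¹ * (x * c * x⁻¹ * z) = y⁻¹ * z := by group
      rw [e]
    · intro ρ hρ
      have : goodPos A (x : G ⧸ H) (Equiv.mulLeft (x * c * x⁻¹)) ρ =
          univ.filter fun y : G => (y : G ⧸ H) = (x : G ⧸ H) := by
        unfold goodPos
        ext y
        simp only [Finset.mem_filter, Finset.mem_univ, true_and]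
        refine ⟨fun h => h.1, fun h => ⟨h, hco y h, ?_⟩⟩
        exact hco _ (hρ.maps y h)
      rw [this, fib_card]
      exact h3

/-- `c ∈ A` normalises `B` and `H` -/
theorem links_right (A B : Set G) (hA : ∀ x ∈ A, x⁻¹ ∈ A) (H : Subgroup G)
    (h3 : 3 ≤ Nat.card H) (c : G) (hc : c ∈ A) (hcB : ∀ s, s ∈ B ↔ c⁻¹ * s * c ∈ B)
    (hcH : ∀ s, s ∈ H ↔ c⁻¹ * s * c ∈ H) : Links A B hA H c := by
  intro x
  by_cases h : (x : G ⧸ H) = ((x * c : G) : G ⧸ H)
  · exact Or.inl h
  · right
    have hap : ∀ y, (Equiv.mulRight c) y = y * c := fun y => rfl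
    refine ⟨h, Equiv.mulRight c, ?_, ?_, ?_⟩
    · intro y
      rw [hap, QuotientGroup.eq, QuotientGroup.eq, hcH]
      have e : c⁻¹ * (y⁻¹ * x) * c = (y * c)⁻¹ * (x * c) := by group
      rw [e]
    · intro y z _ _
      rw [hap, hap, hcB]
      have e : c⁻¹ * (y⁻¹ * z) * c = (y * c)⁻¹ * (z * c) := by group
      rw [e]
    · intro ρ hρ
      have : goodPos A (x : G ⧸ H) (Equiv.mulRight c) ρ =
          univ.filter fun y : G => (y : G ⧸ H) = (x : G ⧸ H) := by
        unfold goodPos
        ext y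
        simp only [Finset.mem_filter, Finset.mem_univ, true_and, hap, inv_mul_cancel_left, hc,
          and_true]
      rw [this, fib_card]
      exact h3

theorem gen_listing (A B : Set G) (hA : ∀ x ∈ A, x⁻¹ ∈ A) (hB : ∀ x ∈ B, x⁻¹ ∈ B) (hBA : B ⊆ A)
    (H : Subgroup G) (C : Set G) (hC : ∀ c ∈ C, Links A B hA H c)
    (hgen : Subgroup.closure ((H : Set G) ∪ C) = ⊤)
    (τ : Equiv.Perm G) (hτ : CycOn B (H : Set G) τ) :
    ∃ σ : Equiv.Perm G, CycOn A Set.univ σ := by
  obtain ⟨T, hT1, hT2, hT3⟩ := tree3 (G := G) (gg A B hA H) (gg_conn A B hA H C hC hgen)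
    (fun g u v h => gg_inv A B hA H g u v h) (fun x y => MulAction.exists_smul_eq G x y)
  exact merge_gen A B hA hB hBA H T hT2.connected hT1 hT3 τ hτ

end Pool.Agent.R759.HC
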