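import Mathlib

/-!
Edge connectivity of a finite connected vertex-transitive graph equals its degree
(Mader's theorem), for a graph invariant under a transitive group action.
-/

namespace Pool.Agent.R759.HC

open Finset

attribute [local instance] Classical.propDecidable

variable {V : Type*} [Fintype V]

/-- number of ordered adjacent pairs leaving `X` -/
noncomputable def bd (Γ : SimpleGraph V) (X : Finset V) : ℕ :=
  ∑ p : V × V, if Γ.Adj p.1 p.2 ∧ p.1 ∈ X ∧ p.2 ∉ X then 1 else 0

/-- degree -/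
noncomputable def dg (Γ : SimpleGraph V) (v : V) : ℕ :=
  (univ.filter fun u => Γ.Adj v u).card

theorem bd_eq_sum (Γ : SimpleGraph V) (X : Finset V) :
    bd Γ X = ∑ u ∈ X, (univ.filter fun v => Γ.Adj u v ∧ v ∉ X).card := by
  unfold bd
  rw [Fintype.sum_prod_type]
  rw [← Finset.sum_subset (Finset.subset_univ X)]
  · apply Finset.sum_congr rfl
    intro u hu
    rw [Finset.card_filter]
    apply Finset.sum_congr rfl
    intro v _
    simp [hu]
  · intro u _ hu
    apply Finset.sum_eq_zero
    intro v _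
    simp [hu]

theorem bd_submod (Γ : SimpleGraph V) (X Y : Finset V) :
    bd Γ (X ∩ Y) + bd Γ (X ∪ Y) ≤ bd Γ X + bd Γ Y := by
  unfold bd
  rw [← Finset.sum_add_distrib, ← Finset.sum_add_distrib]
  apply Finset.sum_le_sum
  rintro ⟨u, v⟩ _
  simp only [Finset.mem_inter, Finset.mem_union]
  by_cases h : Γ.Adj u v <;> by_cases h1 : u ∈ X <;> by_cases h2 : u ∈ Y <;>
    by_cases h3 : v ∈ X <;> by_cases h4 : v ∈ Y <;> simp [h, h1, h2, h3, h4]

theorem bd_compl (Γ : SimpleGraph V) (X : Finset V) : bd Γ Xᶜ = bd Γ X := by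
  unfold bd
  rw [← (Equiv.prodComm V V).sum_comp]
  apply Finset.sum_congr rfl
  rintro ⟨u, v⟩ _
  have e : (Γ.Adj v u ∧ v ∈ Xᶜ ∧ u ∉ Xᶜ) ↔ (Γ.Adj u v ∧ u ∈ X ∧ v ∉ X) := by
    rw [Finset.mem_compl, Finset.mem_compl, not_not, Γ.adj_comm]
    tauto
  simp only [Equiv.prodComm_apply, Prod.swap]
  by_cases h : (Γ.Adj u v ∧ u ∈ X ∧ v ∉ X)
  · rw [if_pos h, if_pos (e.2 h)]
  · rw [if_neg h, if_neg (fun h' => h (e.1 h'))]

theorem bd_pos (Γ : SimpleGraph V) (hc : Γ.Connected) (X : Finset V) (h1 : X.Nonempty)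
    (h2 : X ≠ univ) : 0 < bd Γ X := by
  obtain ⟨x, hx⟩ := h1
  obtain ⟨y, hy⟩ : ∃ y, y ∉ X := by
    by_contra h
    push Not at h
    exact h2 (Finset.eq_univ_iff_forall.2 h)
  obtain ⟨p⟩ := hc.preconnected x y
  have key : ∀ {a b : V} (p : Γ.Walk a b), a ∈ X → b ∉ X → ∃ u v, Γ.Adj u v ∧ u ∈ X ∧ v ∉ X := by
    intro a b p
    induction p with
    | nil => intro h h'; exact absurd h h'
    | @cons a c b h p ih =>
      intro ha hb
      by_cases hcX : c ∈ X
      · exact ih hcX hb
      · exact ⟨a, c, h, ha, hcX⟩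
  obtain ⟨u, v, huv, hu, hv⟩ := key p hx hy
  unfold bd
  apply Finset.sum_pos'
  · intro i _; exact Nat.zero_le _
  · exact ⟨(u, v), Finset.mem_univ _, by simp [huv, hu, hv]⟩

variable {G : Type*} [Group G] [MulAction G V]

theorem bd_image (Γ : SimpleGraph V) (hinv : ∀ (g : G) u v, Γ.Adj u v → Γ.Adj (g • u) (g • v))
    (g : G) (X : Finset V) : bd Γ (X.image (fun x => g • x)) = bd Γ X := by
  unfold bd
  rw [← ((MulAction.toPerm g : Equiv.Perm V).prodCongr (MulAction.toPerm g : Equiv.Perm V)).sum_comp]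
  apply Finset.sum_congr rfl
  rintro ⟨u, v⟩ _
  have e1 : Γ.Adj (g • u) (g • v) ↔ Γ.Adj u v := by
    constructor
    · intro h
      have := hinv g⁻¹ _ _ h
      simpa using this
    · exact hinv g u v
  have e2 : ∀ w : V, g • w ∈ X.image (fun x => g • x) ↔ w ∈ X := by
    intro w
    simp only [Finset.mem_image]
    constructor
    · rintro ⟨a, ha, hh⟩
      have : a = w := MulAction.injective g hh
      rwa [← this]
    · intro h; exact ⟨w, h, rfl⟩
  simp only [Equiv.prodCongr_apply, Prod.map, MulAction.toPerm_apply, e1, e2]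

theorem mader (Γ : SimpleGraph V) (hc : Γ.Connected)
    (hinv : ∀ (g : G) u v, Γ.Adj u v → Γ.Adj (g • u) (g • v))
    (htr : ∀ x y : V, ∃ g : G, g • x = y) (d : ℕ) (hd : ∀ v, dg Γ v = d)
    (Z : Finset V) (hZ1 : Z.Nonempty) (hZ2 : Z ≠ univ) : d ≤ bd Γ Z := by
  set N := Fintype.card V with hN
  -- choose an atom
  let F : Finset (Finset V) := (univ : Finset (Finset V)).filter fun X => X.Nonempty ∧ X ≠ univ
  have hF : F.Nonempty := ⟨Z, by simp [F, hZ1, hZ2]⟩
  obtain ⟨X, hXF, hmin⟩ := Finset.exists_min_image F (fun X => bd Γ X * (N + 1) + X.card) hF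
  have hX : X.Nonempty ∧ X ≠ univ := by simpa [F] using hXF
  have m1 : ∀ Y : Finset V, Y.Nonempty → Y ≠ univ → bd Γ X ≤ bd Γ Y := by
    intro Y h1 h2
    have h := hmin Y (by simp [F, h1, h2])
    have hY : Y.card ≤ N := Finset.card_le_univ Y
    by_contra hlt
    push Not at hlt
    have : (bd Γ Y + 1) * (N + 1) ≤ bd Γ X * (N + 1) := Nat.mul_le_mul_right _ hlt
    nlinarith
  have m2 : ∀ Y : Finset V, Y.Nonempty → Y ≠ univ → bd Γ Y ≤ bd Γ X → X.card ≤ Y.card := by
    intro Y h1 h2 h3
    have h := hmin Y (by simp [F, h1, h2])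
    have : bd Γ Y = bd Γ X := le_antisymm h3 (m1 Y h1 h2)
    rw [this] at h
    omega
  have half : 2 * X.card ≤ N := by
    have h1 : (Xᶜ).Nonempty := by
      rw [Finset.nonempty_iff_ne_empty]
      intro h
      rw [Finset.compl_eq_empty_iff] at h
      exact hX.2 h
    have h2 : Xᶜ ≠ univ := by
      intro h
      rw [Finset.compl_eq_univ_iff] at h
      exact hX.1.ne_empty h
    have := m2 Xᶜ h1 h2 (le_of_eq (bd_compl Γ X))
    rw [Finset.card_compl] at this
    have hle : X.card ≤ N := Finset.card_le_univ X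
    omega
  -- blocks
  have blk : ∀ g : G, ∀ y, y ∈ X → y ∈ X.image (fun x => g • x) →
      X.image (fun x => g • x) = X := by
    intro g y hy hy'
    set Y := X.image (fun x => g • x) with hYdef
    have cY : Y.card = X.card := Finset.card_image_of_injective _ (MulAction.injective g)
    have bY : bd Γ Y = bd Γ X := bd_image Γ hinv g X
    have hi : (X ∩ Y).Nonempty := ⟨y, Finset.mem_inter.2 ⟨hy, hy'⟩⟩
    have hcard : (X ∪ Y).card + (X ∩ Y).card = X.card + Y.card := Finset.card_union_add_card_inter X Y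
    have hpos : 0 < (X ∩ Y).card := Finset.card_pos.2 hi
    have hu : X ∪ Y ≠ univ := by
      intro h
      have : (X ∪ Y).card = N := by rw [h]; rfl
      omega
    have hinter : X ∩ Y ≠ univ := by
      intro h
      apply hX.2
      rw [Finset.eq_univ_iff_forall]
      intro a
      have : a ∈ X ∩ Y := by rw [h]; exact Finset.mem_univ a
      exact (Finset.mem_inter.1 this).1
    have hun : (X ∪ Y).Nonempty := hX.1.mono Finset.subset_union_left
    have l1 := m1 _ hun hu
    have sub := bd_submod Γ X Y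
    have l2 := m2 (X ∩ Y) hi hinter (by omega)
    have e1 : X ∩ Y = X := Finset.eq_of_subset_of_card_le Finset.inter_subset_left l2
    have e2 : X ⊆ Y := by rw [← e1]; exact Finset.inter_subset_right
    exact (Finset.eq_of_subset_of_card_le e2 (le_of_eq cY)).symm
  obtain ⟨x0, hx0⟩ := hX.1
  set r := (X.filter fun v => Γ.Adj x0 v).card with hr
  have hrr : ∀ y ∈ X, (X.filter fun v => Γ.Adj y v).card = r := by
    intro y hy
    obtain ⟨g, hg⟩ := htr x0 y
    have hb : X.image (fun x => g • x) = X :=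
      blk g y hy (Finset.mem_image.2 ⟨x0, hx0, hg⟩)
    rw [hr]
    have : (X.filter fun v => Γ.Adj y v) = (X.filter fun v => Γ.Adj x0 v).image (fun x => g • x) := by
      ext v
      simp only [Finset.mem_filter, Finset.mem_image]
      constructor
      · rintro ⟨hv, ha⟩
        rw [← hb, Finset.mem_image] at hv
        obtain ⟨w, hw, rfl⟩ := hv
        refine ⟨w, ⟨hw, ?_⟩, rfl⟩
        have := hinv g⁻¹ _ _ ha
        rw [← hg] at this
        simpa using this
      · rintro ⟨w, ⟨hw, ha⟩, rfl⟩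
        refine ⟨?_, ?_⟩
        · rw [← hb]; exact Finset.mem_image.2 ⟨w, hw, rfl⟩
        · rw [← hg]; exact hinv g _ _ ha
    rw [this, Finset.card_image_of_injective _ (MulAction.injective g)]
  have hout : ∀ u ∈ X, (univ.filter fun v => Γ.Adj u v ∧ v ∉ X).card = d - r := by
    intro u hu
    have h1 := hd u
    unfold dg at h1
    have h2 := hrr u hu
    have h3 : (univ.filter fun v => Γ.Adj u v) =
        (X.filter fun v => Γ.Adj u v) ∪ (univ.filter fun v => Γ.Adj u v ∧ v ∉ X) := by
      ext v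
      simp only [Finset.mem_filter, Finset.mem_univ, true_and, Finset.mem_union]
      tauto
    have h4 : Disjoint (X.filter fun v => Γ.Adj u v) (univ.filter fun v => Γ.Adj u v ∧ v ∉ X) := by
      rw [Finset.disjoint_left]
      intro v hv hv'
      simp only [Finset.mem_filter, Finset.mem_univ, true_and] at hv hv'
      exact hv'.2 hv.1
    rw [h3, Finset.card_union_of_disjoint h4] at h1
    omega
  have hbX : bd Γ X = X.card * (d - r) := by
    rw [bd_eq_sum, Finset.sum_congr rfl hout, Finset.sum_const, smul_eq_mul]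
  have hposX := bd_pos Γ hc X hX.1 hX.2
  have hrd : r < d := by
    rw [hbX] at hposX
    have := Nat.pos_of_mul_pos_left hposX
    by_contra h
    push Not at h
    rw [Nat.sub_eq_zero_of_le h] at hposX
    simp at hposX
  have hrX : r + 1 ≤ X.card := by
    have : (X.filter fun v => Γ.Adj x0 v) ⊆ X.erase x0 := by
      intro v hv
      rw [Finset.mem_filter] at hv
      rw [Finset.mem_erase]
      refine ⟨?_, hv.1⟩
      rintro rfl
      exact Γ.loopless.irrefl _ hv.2
    have h := Finset.card_le_card this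
    rw [Finset.card_erase_of_mem hx0] at h
    have : 0 < X.card := Finset.card_pos.2 hX.1
    omega
  calc d ≤ (r + 1) * (d - r) := by
        obtain ⟨e, he⟩ : ∃ e, d = r + 1 + e := ⟨d - (r + 1), by omega⟩
        subst he
        have : r + 1 + e - r = e + 1 := by omega
        rw [this]
        nlinarith
    _ ≤ X.card * (d - r) := Nat.mul_le_mul_right _ hrX
    _ = bd Γ X := hbX.symm
    _ ≤ bd Γ Z := m1 Z hZ1 hZ2

end Pool.Agent.R759.HC
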