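import Pool.Agent.R759.HCTree2

/-!
Merging closed listings of the cosets of a subgroup which normalises the connection set.
-/

namespace Pool.Agent.R759.HC

open Finset

attribute [local instance] Classical.propDecidable

set_option linter.unusedSectionVars false

variable {G : Type*} [Group G]

theorem pinv1 {α : Type*} (σ : Equiv.Perm α) (x : α) : σ (σ⁻¹ x) = x := σ.apply_symm_apply x

theorem pinv2 {α : Type*} (σ : Equiv.Perm α) (x : α) : σ⁻¹ (σ x) = x := σ.symm_apply_apply x

/-- `σ` runs once around `U` by right multiplications by elements of `A`, and fixes the rest -/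
structure CycOn (A : Set G) (U : Set G) (σ : Equiv.Perm G) : Prop where
  fix : ∀ x, x ∉ U → σ x = x
  maps : ∀ x ∈ U, σ x ∈ U
  step : ∀ x ∈ U, x⁻¹ * σ x ∈ A
  cyc : ∀ x ∈ U, ∀ y ∈ U, σ.SameCycle x y

theorem CycOn.inv {A U : Set G} {σ : Equiv.Perm G} (hA : ∀ x ∈ A, x⁻¹ ∈ A) (h : CycOn A U σ) :
    CycOn A U σ⁻¹ := by
  have maps' : ∀ x ∈ U, σ⁻¹ x ∈ U := by
    intro x hx
    by_contra hn
    have := h.fix _ hn
    rw [pinv1] at this
    rw [← this] at hn
    exact hn hx
  refine ⟨?_, maps', ?_, ?_⟩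
  · intro x hx
    rw [Equiv.Perm.inv_eq_iff_eq, h.fix x hx]
  · intro x hx
    have h1 := h.step _ (maps' x hx)
    rw [pinv1] at h1
    have h2 := hA _ h1
    rwa [mul_inv_rev, inv_inv] at h2
  · intro x hx y hy
    rw [Equiv.Perm.sameCycle_inv]
    exact h.cyc x hx y hy

theorem CycOn.translate {A U : Set G} {σ : Equiv.Perm G} (h : CycOn A U σ) (b : G) :
    CycOn A {x | b⁻¹ * x ∈ U} (Equiv.mulLeft b * σ * (Equiv.mulLeft b)⁻¹) := by
  have ap : ∀ x, (Equiv.mulLeft b * σ * (Equiv.mulLeft b)⁻¹) x = b * σ (b⁻¹ * x) := by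
    intro x
    simp [Equiv.Perm.mul_apply]
  refine ⟨?_, ?_, ?_, ?_⟩
  · intro x hx
    rw [ap, h.fix _ hx]
    group
  · intro x hx
    change b⁻¹ * _ ∈ U
    rw [ap, inv_mul_cancel_left]
    exact h.maps _ hx
  · intro x hx
    rw [ap]
    have := h.step _ hx
    rwa [mul_inv_rev, inv_inv, mul_assoc] at this
  · intro x hx y hy
    rw [Equiv.Perm.sameCycle_conj]
    have := h.cyc _ hx _ hy
    simpa using this

variable [Finite G]

theorem CycOn.merge {A U1 U2 : Set G} {σ1 σ2 : Equiv.Perm G} (h1 : CycOn A U1 σ1)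
    (h2 : CycOn A U2 σ2) (hd : ∀ z, z ∈ U1 → z ∉ U2) {x x' y' : G} (hx : x ∈ U1)
    (hy' : y' ∈ U2) (hxy' : σ2 y' = x') (s1 : x⁻¹ * x' ∈ A) (s2 : y'⁻¹ * σ1 x ∈ A) :
    CycOn A (U1 ∪ U2) (σ1 * σ2 * Equiv.swap x y') ∧
    (∀ z ∈ U1, z ≠ x → (σ1 * σ2 * Equiv.swap x y') z = σ1 z) ∧
    (∀ z ∈ U2, z ≠ y' → (σ1 * σ2 * Equiv.swap x y') z = σ2 z) := by
  set σ := σ1 * σ2 * Equiv.swap x y' with hσ
  have hd' : ∀ z, z ∈ U2 → z ∉ U1 := fun z h h' => hd z h' h
  have hx' : x' ∈ U2 := hxy' ▸ h2.maps _ hy'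
  have e0 : ∀ z, σ z = σ1 (σ2 (Equiv.swap x y' z)) := fun z => rfl
  have e1 : ∀ z ∈ U1, z ≠ x → σ z = σ1 z := by
    intro z hz hzx
    rw [e0, Equiv.swap_apply_of_ne_of_ne hzx (fun h => hd' _ (h ▸ hy') hz), h2.fix z (hd z hz)]
  have e2 : ∀ z ∈ U2, z ≠ y' → σ z = σ2 z := by
    intro z hz hzy
    rw [e0, Equiv.swap_apply_of_ne_of_ne (fun h => hd _ (h ▸ hx) hz) hzy,
      h1.fix _ (hd' _ (h2.maps z hz))]
  have ex : σ x = x' := by
    rw [e0, Equiv.swap_apply_left, hxy', h1.fix _ (hd' _ hx')]
  have ey : σ y' = σ1 x := by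
    rw [e0, Equiv.swap_apply_right, h2.fix _ (hd _ hx)]
  refine ⟨⟨?_, ?_, ?_, ?_⟩, e1, e2⟩
  · intro z hz
    have hz1 : z ∉ U1 := fun h => hz (Or.inl h)
    have hz2 : z ∉ U2 := fun h => hz (Or.inr h)
    have hzx : z ≠ x := by rintro rfl; exact hz1 hx
    have hzy : z ≠ y' := by rintro rfl; exact hz2 hy'
    rw [e0, Equiv.swap_apply_of_ne_of_ne hzx hzy, h2.fix _ hz2, h1.fix _ hz1]
  · rintro z (hz | hz)
    · by_cases h : z = x
      · rw [h, ex]; exact Or.inr hx'
      · rw [e1 z hz h]; exact Or.inl (h1.maps z hz)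
    · by_cases h : z = y'
      · rw [h, ey]; exact Or.inl (h1.maps x hx)
      · rw [e2 z hz h]; exact Or.inr (h2.maps z hz)
  · rintro z (hz | hz)
    · by_cases h : z = x
      · rw [h, ex]; exact s1
      · rw [e1 z hz h]; exact h1.step z hz
    · by_cases h : z = y'
      · rw [h, ey]; exact s2
      · rw [e2 z hz h]; exact h2.step z hz
  · -- a single cycle
    have hy : σ1 x ∈ U1 := h1.maps x hx
    have r1 : ∀ z ∈ U1, σ.SameCycle (σ1 x) z := by
      intro z hz
      obtain ⟨i, rfl⟩ := (h1.cyc _ hy _ hz).exists_nat_pow_eq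
      clear hz
      induction i with
      | zero => exact Equiv.Perm.SameCycle.refl _ _
      | succ i ih =>
        rw [pow_succ', Equiv.Perm.mul_apply]
        have hin : (σ1 ^ i) (σ1 x) ∈ U1 := by
          clear ih
          induction i with
          | zero => exact hy
          | succ i ih =>
            rw [pow_succ', Equiv.Perm.mul_apply]
            exact h1.maps _ ih
        by_cases h : (σ1 ^ i) (σ1 x) = x
        · rw [h]
        · rw [← e1 _ hin h]
          exact Equiv.Perm.sameCycle_apply_right.2 ih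
    have r0 : σ.SameCycle (σ1 x) x' := by
      rw [← ex]
      exact Equiv.Perm.sameCycle_apply_right.2 (r1 x hx)
    have r2 : ∀ z ∈ U2, σ.SameCycle (σ1 x) z := by
      intro z hz
      obtain ⟨i, rfl⟩ := (h2.cyc _ hx' _ hz).exists_nat_pow_eq
      clear hz
      induction i with
      | zero => exact r0
      | succ i ih =>
        rw [pow_succ', Equiv.Perm.mul_apply]
        have hin : (σ2 ^ i) x' ∈ U2 := by
          clear ih
          induction i with
          | zero => exact hx'
          | succ i ih =>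
            rw [pow_succ', Equiv.Perm.mul_apply]
            exact h2.maps _ ih
        by_cases h : (σ2 ^ i) x' = y'
        · rw [h, hxy']; exact r0
        · rw [← e2 _ hin h]
          exact Equiv.Perm.sameCycle_apply_right.2 ih
    have r : ∀ z ∈ U1 ∪ U2, σ.SameCycle (σ1 x) z := by
      rintro z (hz | hz)
      · exact r1 z hz
      · exact r2 z hz
    intro a ha b hb
    exact (r a ha).symm.trans (r b hb)

/-- the graph on the left cosets of `H` -/
def cg (A : Set G) (hA : ∀ x ∈ A, x⁻¹ ∈ A) (H : Subgroup G) : SimpleGraph (G ⧸ H) where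
  Adj v u := v ≠ u ∧ ∃ b : G, b • v = u ∧ ∀ x : G, (x : G ⧸ H) = v → x⁻¹ * b * x ∈ A
  symm := ⟨by
    rintro v u ⟨hne, b, hb, hx⟩
    refine ⟨hne.symm, b⁻¹, ?_, ?_⟩
    · rw [← hb, inv_smul_smul]
    · intro x hxu
      have h1 : ((b⁻¹ * x : G) : G ⧸ H) = v := by
        have : ((b⁻¹ * x : G) : G ⧸ H) = b⁻¹ • (x : G ⧸ H) := rfl
        rw [this, hxu, ← hb, inv_smul_smul]
      have h2 := hA _ (hx _ h1)
      have h3 : ((b⁻¹ * x)⁻¹ * b * (b⁻¹ * x))⁻¹ = x⁻¹ * b⁻¹ * x := by group
      rwa [h3] at h2⟩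
  loopless := ⟨fun v h => h.1 rfl⟩

theorem cg_inv (A : Set G) (hA : ∀ x ∈ A, x⁻¹ ∈ A) (H : Subgroup G) (g : G) (u v : G ⧸ H)
    (h : (cg A hA H).Adj u v) : (cg A hA H).Adj (g • u) (g • v) := by
  obtain ⟨hne, b, hb, hx⟩ := h
  refine ⟨fun h => hne (MulAction.injective g h), g * b * g⁻¹, ?_, ?_⟩
  · rw [← hb, smul_smul, smul_smul]
    congr 1
    group
  · intro x hxu
    have h1 : ((g⁻¹ * x : G) : G ⧸ H) = u := by
      have : ((g⁻¹ * x : G) : G ⧸ H) = g⁻¹ • (x : G ⧸ H) := rfl
      rw [this, hxu, inv_smul_smul]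
    have h2 := hx _ h1
    have h3 : (g⁻¹ * x)⁻¹ * b * (g⁻¹ * x) = x⁻¹ * (g * b * g⁻¹) * x := by group
    rwa [h3] at h2

theorem cg_conn (A : Set G) (hA : ∀ x ∈ A, x⁻¹ ∈ A) (hgen : Subgroup.closure A = ⊤)
    (H : Subgroup G) (hH : ∀ h ∈ H, ∀ a ∈ A, h⁻¹ * a * h ∈ A) : (cg A hA H).Connected := by
  have hne : Nonempty (G ⧸ H) := ⟨((1 : G) : G ⧸ H)⟩
  have step : ∀ (x c : G), c ∈ A → (cg A hA H).Reachable (x : G ⧸ H) ((x * c : G) : G ⧸ H) := by
    intro x c hc
    by_cases h : (x : G ⧸ H) = ((x * c : G) : G ⧸ H)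
    · rw [← h]
    · have : (cg A hA H).Adj (x : G ⧸ H) ((x * c : G) : G ⧸ H) := by
        refine ⟨h, x * c * x⁻¹, ?_, ?_⟩
        · have e : (x * c * x⁻¹) • (x : G ⧸ H) = ((x * c * x⁻¹ * x : G) : G ⧸ H) := rfl
          rw [e]
          congr 1
          group
        · intro z hz
          have h1 : x⁻¹ * z ∈ H := by
            rw [← QuotientGroup.eq]
            exact hz.symm
          have h2 := hH _ h1 c hc
          have h3 : (x⁻¹ * z)⁻¹ * c * (x⁻¹ * z) = z⁻¹ * (x * c * x⁻¹) * z := by group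
          rwa [h3] at h2
      exact this.reachable
  have key : ∀ g : G, (cg A hA H).Reachable ((1 : G) : G ⧸ H) (g : G ⧸ H) := by
    intro g
    have hg : g ∈ Subgroup.closure A := by rw [hgen]; trivial
    induction hg using Subgroup.closure_induction_right with
    | one => exact SimpleGraph.Reachable.refl _
    | mul_right x _ y hy ih => exact ih.trans (step x y hy)
    | mul_inv_cancel x _ y hy ih => exact ih.trans (step x y⁻¹ (hA y hy))
  refine SimpleGraph.Connected.mk ?_
  intro u v
  obtain ⟨x, rfl⟩ := QuotientGroup.mk_surjective u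
  obtain ⟨y, rfl⟩ := QuotientGroup.mk_surjective v
  exact (key x).symm.trans (key y)

theorem exists_cross {V : Type*} [Fintype V] {T : SimpleGraph V} (hc : T.Connected) (X : Finset V)
    (h1 : X.Nonempty) (h2 : X ≠ univ) : ∃ v u, T.Adj v u ∧ v ∈ X ∧ u ∉ X := by
  have := bd_pos T hc X h1 h2
  unfold bd at this
  obtain ⟨p, _, hp⟩ := Finset.exists_ne_zero_of_sum_ne_zero this.ne'
  by_cases h : T.Adj p.1 p.2 ∧ p.1 ∈ X ∧ p.2 ∉ X
  · exact ⟨p.1, p.2, h⟩
  · rw [if_neg h] at hp
    exact absurd rfl hp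

variable [Fintype G]

theorem fib_card (H : Subgroup G) (v : G ⧸ H) :
    (univ.filter fun x : G => (x : G ⧸ H) = v).card = Nat.card H := by
  obtain ⟨g, rfl⟩ := QuotientGroup.mk_surjective v
  rw [Nat.card_eq_fintype_card, ← Finset.card_univ]
  symm
  apply Finset.card_bij (fun (h : H) _ => g * h)
  · intro h _
    rw [Finset.mem_filter]
    refine ⟨Finset.mem_univ _, ?_⟩
    symm
    rw [QuotientGroup.eq]
    simp
  · intro a _ b _ h
    exact Subtype.ext (mul_left_cancel h)
  · intro x hx
    rw [Finset.mem_filter] at hx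
    have h1 : g⁻¹ * x ∈ H := by
      rw [← QuotientGroup.eq]
      exact hx.2.symm
    exact ⟨⟨g⁻¹ * x, h1⟩, Finset.mem_univ _, by simp⟩

/-- the main merging step -/
theorem merge_all (A : Set G) (hA : ∀ x ∈ A, x⁻¹ ∈ A) (H : Subgroup G)
    (T : SimpleGraph (G ⧸ H)) (hTc : T.Connected) (hTle : T ≤ cg A hA H)
    (hTd : ∀ v, dg T v ≤ Nat.card H) (τ : Equiv.Perm G) (hτ : CycOn A (H : Set G) τ) :
    ∃ σ : Equiv.Perm G, CycOn A Set.univ σ := by
  have key : ∀ k : ℕ, k + 1 ≤ Fintype.card (G ⧸ H) → ∃ S : Finset (G ⧸ H), S.card = k + 1 ∧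
      ∃ σ : Equiv.Perm G, CycOn A {x | (x : G ⧸ H) ∈ S} σ ∧
        ∀ v ∈ S, ∃ ρ : Equiv.Perm G, CycOn A {x | (x : G ⧸ H) = v} ρ ∧
          (univ.filter fun x : G => (x : G ⧸ H) = v ∧ σ x ≠ ρ x).card ≤
            (S.filter fun u => T.Adj v u).card := by
    intro k
    induction k with
    | zero =>
      intro _
      refine ⟨{((1 : G) : G ⧸ H)}, rfl, τ, ?_, ?_⟩
      · have : {x : G | (x : G ⧸ H) ∈ ({((1 : G) : G ⧸ H)} : Finset (G ⧸ H))} = (H : Set G) := by
          ext x
          simp only [Finset.mem_singleton, Set.mem_ofPred_eq, SetLike.mem_coe]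
          rw [eq_comm, QuotientGroup.eq]
          simp
        rw [this]
        exact hτ
      · intro v hv
        rw [Finset.mem_singleton] at hv
        subst hv
        refine ⟨τ, ?_, ?_⟩
        · have : {x : G | (x : G ⧸ H) = ((1 : G) : G ⧸ H)} = (H : Set G) := by
            ext x
            simp only [Set.mem_ofPred_eq, SetLike.mem_coe]
            rw [eq_comm, QuotientGroup.eq]
            simp
          rw [this]
          exact hτ
        · simp
    | succ k ih =>
      intro hk
      obtain ⟨S, hS, σ, hσ, hinv⟩ := ih (by omega)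
      have hSne : S.Nonempty := by
        rw [← Finset.card_pos]; omega
      have hSu : S ≠ univ := by
        intro h
        have : S.card = Fintype.card (G ⧸ H) := by rw [h]; rfl
        omega
      obtain ⟨v, u, hvu, hvS, huS⟩ := exists_cross hTc S hSne hSu
      obtain ⟨ρ, hρ, hcount⟩ := hinv v hvS
      -- an unused position in `v`
      obtain ⟨x, hxv, hxρ⟩ : ∃ x : G, (x : G ⧸ H) = v ∧ σ x = ρ x := by
        by_contra hno
        push Not at hno
        have e : (univ.filter fun x : G => (x : G ⧸ H) = v ∧ σ x ≠ ρ x) =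
            univ.filter fun x : G => (x : G ⧸ H) = v := by
          ext x
          simp only [Finset.mem_filter, Finset.mem_univ, true_and]
          exact ⟨fun h => h.1, fun h => ⟨h, hno x h⟩⟩
        rw [e, fib_card] at hcount
        have h1 : (S.filter fun u => T.Adj v u).card < dg T v := by
          unfold dg
          apply Finset.card_lt_card
          rw [Finset.ssubset_iff_of_subset]
          · exact ⟨u, by simp [hvu], by simp [huS]⟩
          · intro w hw
            rw [Finset.mem_filter] at hw ⊢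
            exact ⟨Finset.mem_univ _, hw.2⟩
        have := hTd v
        omega
      obtain ⟨hne, b, hb, hbx⟩ := hTle hvu
      have huset : {x : G | b⁻¹ * x ∈ {x : G | (x : G ⧸ H) = v}} = {x : G | (x : G ⧸ H) = u} := by
        ext z
        change ((b⁻¹ * z : G) : G ⧸ H) = v ↔ (z : G ⧸ H) = u
        have e : ((b⁻¹ * z : G) : G ⧸ H) = b⁻¹ • (z : G ⧸ H) := rfl
        rw [e, inv_smul_eq_iff, hb]
      have hσ2 := (hρ.inv hA).translate b
      rw [huset] at hσ2
      set σ2 := Equiv.mulLeft b * ρ⁻¹ * (Equiv.mulLeft b)⁻¹ with hσ2def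
      have ap2 : ∀ z, σ2 z = b * ρ⁻¹ (b⁻¹ * z) := by
        intro z
        simp [hσ2def, Equiv.Perm.mul_apply]
      have hyv : ((σ x : G) : G ⧸ H) = v := by
        rw [hxρ]
        exact hρ.maps x hxv
      have hx1 : x ∈ {x : G | (x : G ⧸ H) ∈ S} := by
        change (x : G ⧸ H) ∈ S
        rw [hxv]; exact hvS
      have hy' : b * σ x ∈ {x : G | (x : G ⧸ H) = u} := by
        change ((b * σ x : G) : G ⧸ H) = u
        have e : ((b * σ x : G) : G ⧸ H) = b • ((σ x : G) : G ⧸ H) := rfl
        rw [e, hyv, hb]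
      have hxy' : σ2 (b * σ x) = b * x := by
        rw [ap2, inv_mul_cancel_left, hxρ, pinv2]
      have s1 : x⁻¹ * (b * x) ∈ A := by
        rw [← mul_assoc]; exact hbx x hxv
      have s2 : (b * σ x)⁻¹ * σ x ∈ A := by
        have h1 := hA _ (hbx (σ x) hyv)
        have h2 : ((σ x)⁻¹ * b * σ x)⁻¹ = (b * σ x)⁻¹ * σ x := by group
        rwa [h2] at h1
      obtain ⟨hm, em1, em2⟩ := hσ.merge hσ2 (by
        intro z hz hz'
        apply huS
        have e1 : (z : G ⧸ H) ∈ S := hz
        have e2 : (z : G ⧸ H) = u := hz'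
        rwa [e2] at e1) hx1 hy' hxy' s1 s2
      set σ' := σ * σ2 * Equiv.swap x (b * σ x) with hσ'
      refine ⟨insert u S, ?_, σ', ?_, ?_⟩
      · rw [Finset.card_insert_of_notMem huS, hS]
      · have : {x : G | (x : G ⧸ H) ∈ insert u S} =
            {x : G | (x : G ⧸ H) ∈ S} ∪ {x : G | (x : G ⧸ H) = u} := by
          ext z
          simp only [Finset.mem_insert, Set.mem_ofPred_eq, Set.mem_union]
          tauto
        rw [this]
        exact hm
      · intro w hw
        by_cases hwu : w = u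
        · subst hwu
          refine ⟨σ2, hσ2, ?_⟩
          have h1 : (univ.filter fun z : G => (z : G ⧸ H) = w ∧ σ' z ≠ σ2 z) ⊆ {b * σ x} := by
            intro z hz
            rw [Finset.mem_filter] at hz
            rw [Finset.mem_singleton]
            by_contra h
            exact hz.2.2 (em2 z hz.2.1 h)
          have h2 : 0 < ((insert w S).filter fun u => T.Adj w u).card := by
            rw [Finset.card_pos]
            exact ⟨v, by simp [hvS, hvu.symm]⟩
          have h3 := Finset.card_le_card h1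
          rw [Finset.card_singleton] at h3
          omega
        · have hwS : w ∈ S := by
            rw [Finset.mem_insert] at hw
            exact hw.resolve_left hwu
          by_cases hwv : w = v
          · subst hwv
            refine ⟨ρ, hρ, ?_⟩
            have h1 : (univ.filter fun z : G => (z : G ⧸ H) = w ∧ σ' z ≠ ρ z) ⊆
                insert x (univ.filter fun z : G => (z : G ⧸ H) = w ∧ σ z ≠ ρ z) := by
              intro z hz
              rw [Finset.mem_filter] at hz
              rw [Finset.mem_insert, Finset.mem_filter]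
              by_cases h : z = x
              · exact Or.inl h
              · right
                refine ⟨Finset.mem_univ _, hz.2.1, ?_⟩
                rw [← em1 z (by
                  change (z : G ⧸ H) ∈ S
                  rw [hz.2.1]; exact hwS) h]
                exact hz.2.2
            have h2 : ((insert u S).filter fun u => T.Adj w u) =
                insert u (S.filter fun u => T.Adj w u) := by
              rw [Finset.filter_insert, if_pos hvu]
            have h3 := (Finset.card_le_card h1).trans (Finset.card_insert_le _ _)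
            rw [h2, Finset.card_insert_of_notMem (by simp [huS])]
            omega
          · obtain ⟨ρw, hρw, hcw⟩ := hinv w hwS
            refine ⟨ρw, hρw, ?_⟩
            have h1 : (univ.filter fun z : G => (z : G ⧸ H) = w ∧ σ' z ≠ ρw z) ⊆
                (univ.filter fun z : G => (z : G ⧸ H) = w ∧ σ z ≠ ρw z) := by
              intro z hz
              rw [Finset.mem_filter] at hz ⊢
              refine ⟨Finset.mem_univ _, hz.2.1, ?_⟩
              rw [← em1 z (by
                change (z : G ⧸ H) ∈ S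
                rw [hz.2.1]; exact hwS) (by
                rintro rfl
                exact hwv (hz.2.1.symm.trans hxv))]
              exact hz.2.2
            refine (Finset.card_le_card h1).trans (hcw.trans (Finset.card_le_card ?_))
            exact Finset.filter_subset_filter _ (Finset.subset_insert _ _)
  have hpos : 0 < Fintype.card (G ⧸ H) := Fintype.card_pos_iff.2 ⟨((1 : G) : G ⧸ H)⟩
  obtain ⟨S, hS, σ, hσ, _⟩ := key (Fintype.card (G ⧸ H) - 1) (by omega)
  have hSu : S = univ := by
    apply Finset.eq_univ_of_card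
    omega
  refine ⟨σ, ?_⟩
  have : {x : G | (x : G ⧸ H) ∈ S} = Set.univ := by
    rw [hSu]; ext x; simp
  rwa [this] at hσ

/-- A subgroup of order at least three which normalises `A` and has a closed listing by `A`
gives a closed listing of the whole group. -/
theorem lift_listing (A : Set G) (hA : ∀ x ∈ A, x⁻¹ ∈ A) (hgen : Subgroup.closure A = ⊤)
    (H : Subgroup G) (hH : ∀ h ∈ H, ∀ a ∈ A, h⁻¹ * a * h ∈ A) (h3 : 3 ≤ Nat.card H)
    (τ : Equiv.Perm G) (hτ : CycOn A (H : Set G) τ) : ∃ σ : Equiv.Perm G, CycOn A Set.univ σ := by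
  obtain ⟨T, hT1, hT2, hT3⟩ := tree3 (G := G) (cg A hA H) (cg_conn A hA hgen H hH)
    (fun g u v h => cg_inv A hA H g u v h) (fun x y => MulAction.exists_smul_eq G x y)
  exact merge_all A hA H T hT2.connected hT1 (fun v => (hT3 v).trans h3) τ hτ

end Pool.Agent.R759.HC
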