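import Pool.Agent.R759.HCGen

/-!
Cycle pairs, sets normalised by their own elements, and the passage to subgroups.
-/

namespace Pool.Agent.R759.HC

open Finset

attribute [local instance] Classical.propDecidable

set_option linter.unusedSectionVars false

universe u

variable {G : Type u} [Group G]

/-- The Cayley graph of `⟨a, b⟩` with respect to `{a, b}` is a cycle: `a ≠ b` are different from
`1`, and either inverse to each other or both of order two. -/
def CycPair (a b : G) : Prop :=
  a ≠ 1 ∧ b ≠ 1 ∧ a ≠ b ∧ (b = a⁻¹ ∨ (a * a = 1 ∧ b * b = 1))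

theorem CycPair.symm_set {a b : G} (h : CycPair a b) : ∀ x ∈ ({a, b} : Set G), x⁻¹ ∈ ({a, b} : Set G) := by
  obtain ⟨_, _, _, h | ⟨h1, h2⟩⟩ := h
  · rintro x (rfl | hx)
    · right; exact h.symm
    · rw [Set.mem_singleton_iff] at hx
      subst hx
      left; rw [h, inv_inv]
  · rintro x (rfl | hx)
    · left; exact inv_eq_of_mul_eq_one_left h1
    · rw [Set.mem_singleton_iff] at hx
      subst hx
      right; exact inv_eq_of_mul_eq_one_left h2

theorem conj_closure {B : Set G} {g : G} (h : ∀ s ∈ B, g * s * g⁻¹ ∈ Subgroup.closure B) :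
    ∀ s ∈ Subgroup.closure B, g * s * g⁻¹ ∈ Subgroup.closure B := by
  intro s hs
  induction hs using Subgroup.closure_induction with
  | mem x hx => exact h x hx
  | one => simp
  | mul x y _ _ hx hy =>
    have e : g * (x * y) * g⁻¹ = (g * x * g⁻¹) * (g * y * g⁻¹) := by group
    rw [e]; exact Subgroup.mul_mem _ hx hy
  | inv x _ hx =>
    have e : g * x⁻¹ * g⁻¹ = (g * x * g⁻¹)⁻¹ := by group
    rw [e]; exact Subgroup.inv_mem _ hx

variable [Finite G]

theorem CycPair.three {a b : G} (h : CycPair a b) : 3 ≤ Nat.card (Subgroup.closure {a, b}) := by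
  obtain ⟨h1, h2, h3, _⟩ := h
  have hsub : ({1, a, b} : Set G) ⊆ (Subgroup.closure {a, b} : Subgroup G) := by
    rintro x (rfl | rfl | rfl)
    · exact Subgroup.one_mem _
    · exact Subgroup.subset_closure (by simp)
    · exact Subgroup.subset_closure (by simp)
  have h4 : ({1, a, b} : Set G).ncard = 3 :=
    Set.ncard_eq_three.2 ⟨1, a, b, fun h => h1 h.symm, fun h => h2 h.symm, h3, rfl⟩
  rw [← h4]
  exact Set.ncard_le_ncard hsub (Set.toFinite _)

theorem trav_of_cycOn [Fintype G] {a b : G} (hab : CycPair a b) {H : Subgroup G}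
    (h3 : 3 ≤ Nat.card H) (v : G ⧸ H) {ρ : Equiv.Perm G}
    (hρ : CycOn ({a, b} : Set G) {x | (x : G ⧸ H) = v} ρ) (x s : G) (hx : (x : G ⧸ H) = v)
    (hs : s = a ∨ s = b) : ρ x = x * s ∨ ρ (x * s) = x := by
  by_contra hno
  push Not at hno
  obtain ⟨hn1, hn2⟩ := hno
  have hstep : ∀ y : G, (y : G ⧸ H) = v → ρ y = y * a ∨ ρ y = y * b := by
    intro y hy
    rcases hρ.step y hy with h | h
    · left; rw [← h, mul_inv_cancel_left]
    · right
      rw [Set.mem_singleton_iff] at h
      rw [← h, mul_inv_cancel_left]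
  -- the predecessor of `x`
  obtain ⟨w, hw, hwx⟩ : ∃ w : G, (w : G ⧸ H) = v ∧ ρ w = x := by
    refine ⟨ρ⁻¹ x, ?_, pinv1 ρ x⟩
    by_contra hn
    have h1 := hρ.fix _ hn
    rw [pinv1] at h1
    rw [← h1] at hn
    exact hn hx
  have hwx' : w = x * a ∨ w = x * b := by
    have h1 : w⁻¹ * x ∈ ({a, b} : Set G) := by
      have := hρ.step w hw
      rwa [hwx] at this
    have h2 := hab.symm_set _ h1
    rw [mul_inv_rev, inv_inv] at h2
    rcases h2 with h | h
    · left; rw [← h, mul_inv_cancel_left]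
    · right
      rw [Set.mem_singleton_iff] at h
      rw [← h, mul_inv_cancel_left]
  -- so the successor and the predecessor of `x` agree
  have hwρ : w = ρ x := by
    have hρx := hstep x hx
    have hw1 : w ≠ x * s := by
      intro h
      rw [h] at hwx
      exact hn2 hwx
    rcases hs with rfl | rfl
    · rcases hρx with h | h
      · exact absurd h hn1
      · rcases hwx' with h' | h'
        · exact absurd h' hw1
        · rw [h, h']
    · rcases hρx with h | h
      · rcases hwx' with h' | h'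
        · rw [h, h']
        · exact absurd h' hw1
      · exact absurd h hn1
  have hρρ : ρ (ρ x) = x := by rw [← hwρ]; exact hwx
  have hpow : ∀ n : ℕ, (ρ ^ n) x = x ∨ (ρ ^ n) x = ρ x := by
    intro n
    induction n with
    | zero => left; rfl
    | succ n ih =>
      rw [pow_succ', Equiv.Perm.mul_apply]
      rcases ih with h | h
      · right; rw [h]
      · left; rw [h, hρρ]
  have hsub : (univ.filter fun y : G => (y : G ⧸ H) = v) ⊆ {x, ρ x} := by
    intro y hy
    rw [Finset.mem_filter] at hy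
    obtain ⟨n, hn⟩ := (hρ.cyc x hx y hy.2).exists_nat_pow_eq
    rw [Finset.mem_insert, Finset.mem_singleton, ← hn]
    exact hpow n
  have h5 := Finset.card_le_card hsub
  rw [fib_card] at h5
  have h6 : ({x, ρ x} : Finset G).card ≤ 2 := Finset.card_le_two
  omega

/-- flexible elements link cosets -/
theorem links_flex [Fintype G] (A : Set G) (hA : ∀ x ∈ A, x⁻¹ ∈ A) {a b : G} (hab : CycPair a b)
    (H : Subgroup G) (h3 : 3 ≤ Nat.card H) (c : G) (hc : c ∈ flexible A a b H) :
    Links A {a, b} hA H c := by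
  intro x
  by_cases h : (x : G ⧸ H) = ((x * c : G) : G ⧸ H)
  · exact Or.inl h
  · right
    have hap : ∀ y, (Equiv.mulLeft (x * c * x⁻¹)) y = x * c * x⁻¹ * y := fun y => rfl
    have hco : ∀ h : G, h⁻¹ * c * h ∈ A → (x * h)⁻¹ * (x * c * x⁻¹ * (x * h)) ∈ A := by
      intro h hh
      have e : (x * h)⁻¹ * (x * c * x⁻¹ * (x * h)) = h⁻¹ * c * h := by group
      rwa [e]
    refine ⟨h, Equiv.mulLeft (x * c * x⁻¹), ?_, ?_, ?_⟩
    · intro y
      rw [hap]
      have e : ((x * c * x⁻¹ * y : G) : G ⧸ H) = (x * c * x⁻¹) • (y : G ⧸ H) := rfl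
      have e2 : ((x * c : G) : G ⧸ H) = (x * c * x⁻¹) • (x : G ⧸ H) := by
        change _ = ((x * c * x⁻¹ * x : G) : G ⧸ H)
        rw [inv_mul_cancel_right]
      rw [e, e2]
      exact ⟨fun h => by rw [h], fun h => MulAction.injective _ h⟩
    · intro y z _ _
      rw [hap, hap]
      have e : (x * c * x⁻¹ * y)⁻¹ * (x * c * x⁻¹ * z) = y⁻¹ * z := by group
      rw [e]
    · intro ρ hρ
      refine le_trans hc ?_
      rw [← Set.ncard_coe_finset]
      refine le_trans (Set.ncard_le_ncard ?_ (Set.toFinite _))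
        (Set.ncard_image_le (f := fun y => s(x⁻¹ * y, x⁻¹ * ρ y)) (Set.toFinite _))
      rintro e ⟨h, hh, s, hs, rfl, h4, h5⟩
      have hxh : ((x * h : G) : G ⧸ H) = (x : G ⧸ H) := by
        rw [eq_comm, QuotientGroup.eq]
        simpa using hh
      have htr := trav_of_cycOn hab h3 _ hρ (x * h) s hxh hs
      have hxhs : ((x * (h * s) : G) : G ⧸ H) = (x : G ⧸ H) := by
        rcases htr with h6 | h6
        · have := hρ.maps _ hxh
          rw [h6, mul_assoc] at this
          exact this
        · by_contra hn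
          have h7 := hρ.fix (x * h * s) (by rw [mul_assoc]; exact hn)
          rw [h6] at h7
          rw [← mul_assoc, ← h7] at hn
          exact hn hxh
      rcases htr with h6 | h6
      · refine ⟨x * h, ?_, ?_⟩
        · unfold goodPos
          simp only [Finset.coe_filter, Finset.mem_univ, true_and, Set.mem_ofPred_eq]
          refine ⟨hxh, hco h h4, ?_⟩
          rw [h6, mul_assoc x h s]
          exact hco (h * s) h5
        · simp only [h6, inv_mul_cancel_left, mul_assoc]
      · refine ⟨x * (h * s), ?_, ?_⟩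
        · unfold goodPos
          simp only [Finset.coe_filter, Finset.mem_univ, true_and, Set.mem_ofPred_eq]
          refine ⟨hxhs, hco (h * s) h5, ?_⟩
          rw [← mul_assoc x h s, h6]
          exact hco h h4
        · rw [mul_assoc] at h6
          simp only [h6, inv_mul_cancel_left]
          exact Sym2.eq_swap

theorem pair_cyc {A : Set G} {a b : G} (ha : a ∈ A) (hb : b ∈ A) (hab : CycPair a b) :
    ∃ τ : Equiv.Perm G, CycOn A ((Subgroup.closure {a, b} : Subgroup G) : Set G) τ := by
  obtain ⟨h1, h2, h3, h4 | ⟨h4, h5⟩⟩ := hab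
  · subst h4
    have e : Subgroup.closure ({a, a⁻¹} : Set G) = Subgroup.zpowers a := by
      apply le_antisymm
      · rw [Subgroup.closure_le]
        rintro x (rfl | hx)
        · exact Subgroup.mem_zpowers _
        · rw [Set.mem_singleton_iff] at hx
          subst hx
          exact Subgroup.inv_mem _ (Subgroup.mem_zpowers _)
      · rw [Subgroup.zpowers_le]
        exact Subgroup.subset_closure (by simp)
    rw [e]
    obtain ⟨τ, hτ, _⟩ := cyc_zpowers ha
    exact ⟨τ, hτ⟩
  · obtain ⟨τ, hτ, _⟩ := cyc_dihedral ha hb h1 h2 h3 h4 h5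
    exact ⟨τ, hτ⟩

/-- a symmetric set generating a group of order at least three contains a cycle pair -/
theorem exists_pair (N : Set G) (hN : ∀ x ∈ N, x⁻¹ ∈ N)
    (h3 : 3 ≤ Nat.card (Subgroup.closure N)) : ∃ a b : G, a ∈ N ∧ b ∈ N ∧ CycPair a b := by
  by_cases h : ∃ a ∈ N, a * a ≠ 1
  · obtain ⟨a, ha, haa⟩ := h
    refine ⟨a, a⁻¹, ha, hN a ha, ?_, ?_, ?_, Or.inl rfl⟩
    · rintro rfl
      exact haa (by simp)
    · intro h
      rw [inv_eq_one] at h
      exact haa (by rw [h]; simp)
    · intro h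
      exact haa (by rw [← mul_inv_cancel a]; exact congrArg (a * ·) h)
  · push Not at h
    by_cases h' : ∃ a b : G, a ∈ N ∧ b ∈ N ∧ a ≠ 1 ∧ b ≠ 1 ∧ a ≠ b
    · obtain ⟨a, b, ha, hb, h1, h2, h4⟩ := h'
      exact ⟨a, b, ha, hb, h1, h2, h4, Or.inr ⟨h a ha, h b hb⟩⟩
    · exfalso
      push Not at h'
      obtain ⟨z, hz⟩ : ∃ z : G, z * z = 1 ∧ ∀ x ∈ N, x = 1 ∨ x = z := by
        by_cases h1 : ∃ z ∈ N, z ≠ 1
        · obtain ⟨z, hz, hz1⟩ := h1
          refine ⟨z, h z hz, fun x hx => ?_⟩
          by_cases hx1 : x = 1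
          · exact Or.inl hx1
          · exact Or.inr (h' x z hx hz hx1 hz1)
        · push Not at h1
          exact ⟨1, by simp, fun x hx => Or.inl (h1 x hx)⟩
      have hle : Subgroup.closure N ≤ Subgroup.zpowers z := by
        rw [Subgroup.closure_le]
        intro x hx
        rcases hz.2 x hx with rfl | rfl
        · exact Subgroup.one_mem _
        · exact Subgroup.mem_zpowers _
      have h5 : Nat.card (Subgroup.closure N) ≤ Nat.card (Subgroup.zpowers z) :=
        Subgroup.card_le_of_le hle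
      rw [Nat.card_zpowers] at h5
      have h6 : orderOf z ≤ 2 := by
        apply orderOf_le_of_pow_eq_one (by norm_num)
        rw [pow_two]; exact hz.1
      omega

/-- cycle pair, with all ways of linking cosets -/
theorem pair_listing (A : Set G) (hA : ∀ x ∈ A, x⁻¹ ∈ A) {a b : G} (ha : a ∈ A) (hb : b ∈ A)
    (hab : CycPair a b) (C : Set G)
    (hC : ∀ c ∈ C, c ∈ flexible A a b (Subgroup.closure {a, b}) ∨
      (c ∈ A ∧ ∀ s, s ∈ ({a, b} : Set G) ↔ c⁻¹ * s * c ∈ ({a, b} : Set G)))
    (hgen : Subgroup.closure ({a, b} ∪ C) = ⊤) : ∃ σ : Equiv.Perm G, CycOn A Set.univ σ := by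
  have : Fintype G := Fintype.ofFinite G
  obtain ⟨τ, hτ⟩ := pair_cyc (A := {a, b}) (by simp) (by simp) hab
  have hBA : ({a, b} : Set G) ⊆ A := by
    rintro x (rfl | hx)
    · exact ha
    · rw [Set.mem_singleton_iff] at hx
      rw [hx]; exact hb
  refine gen_listing A {a, b} hA hab.symm_set hBA (Subgroup.closure {a, b}) C ?_ ?_ τ hτ
  · intro c hc
    rcases hC c hc with h | ⟨h1, h2⟩
    · exact links_flex A hA hab _ hab.three c h
    · refine links_right A {a, b} hA _ hab.three c h1 h2 ?_
      intro s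
      have hc1 : ∀ s ∈ Subgroup.closure ({a, b} : Set G),
          c⁻¹ * s * c⁻¹⁻¹ ∈ Subgroup.closure ({a, b} : Set G) := by
        apply conj_closure
        intro s hs
        rw [inv_inv]
        exact Subgroup.subset_closure ((h2 s).1 hs)
      have hc2 : ∀ s ∈ Subgroup.closure ({a, b} : Set G),
          c * s * c⁻¹ ∈ Subgroup.closure ({a, b} : Set G) := by
        apply conj_closure
        intro s hs
        apply Subgroup.subset_closure
        rw [h2]
        have e : c⁻¹ * (c * s * c⁻¹) * c = s := by group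
        rwa [e]
      constructor
      · intro hs
        have := hc1 s hs
        rwa [inv_inv] at this
      · intro hs
        have := hc2 _ hs
        have e : c * (c⁻¹ * s * c) * c⁻¹ = s := by group
        rwa [e] at this
  · rw [eq_top_iff, ← hgen]
    apply Subgroup.closure_mono
    exact Set.union_subset_union Subgroup.subset_closure le_rfl

/-- the conjugation-closed case -/
theorem normal_set_listing (A : Set G) (hA : ∀ x ∈ A, x⁻¹ ∈ A) (hgen : Subgroup.closure A = ⊤)
    (h3 : 3 ≤ Nat.card G) (hc : ∀ g x : G, x ∈ A → g * x * g⁻¹ ∈ A) :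
    ∃ σ : Equiv.Perm G, CycOn A Set.univ σ := by
  have : Fintype G := Fintype.ofFinite G
  obtain ⟨a, b, ha, hb, hab⟩ := exists_pair A hA (by rw [hgen, Subgroup.card_top]; exact h3)
  obtain ⟨τ, hτ⟩ := pair_cyc (A := {a, b}) (by simp) (by simp) hab
  have hBA : ({a, b} : Set G) ⊆ A := by
    rintro x (rfl | hx)
    · exact ha
    · rw [Set.mem_singleton_iff] at hx
      rw [hx]; exact hb
  refine gen_listing A {a, b} hA hab.symm_set hBA (Subgroup.closure {a, b}) A ?_ ?_ τ hτ
  · intro c hcA
    apply links_left A {a, b} hA _ hab.three c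
    intro h _
    have := hc h⁻¹ c hcA
    rwa [inv_inv] at this
  · rw [eq_top_iff, ← hgen]
    exact Subgroup.closure_mono Set.subset_union_right

/-- from a cyclic permutation of the type `H` to one of `G` -/
theorem cycOn_of_subgroup (B : Set G) (H : Subgroup G) (σ : Equiv.Perm H)
    (h : CycOn {x : H | (x : G) ∈ B} Set.univ σ) : ∃ τ : Equiv.Perm G, CycOn B (H : Set G) τ := by
  let τ : Equiv.Perm G := Equiv.Perm.ofSubtype σ
  have t1 : ∀ x (hx : x ∈ H), τ x = σ ⟨x, hx⟩ := fun x hx => Equiv.Perm.ofSubtype_apply_of_mem σ hx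
  have t2 : ∀ x, x ∉ H → τ x = x := fun x hx => Equiv.Perm.ofSubtype_apply_of_not_mem σ hx
  refine ⟨τ, ⟨fun x hx => t2 x hx, ?_, ?_, ?_⟩⟩
  · intro x hx
    rw [t1 x hx]
    exact (σ ⟨x, hx⟩).2
  · intro x hx
    rw [t1 x hx]
    exact h.step ⟨x, hx⟩ (Set.mem_univ _)
  · intro x hx y hy
    obtain ⟨n, hn⟩ := h.cyc ⟨x, hx⟩ (Set.mem_univ _) ⟨y, hy⟩ (Set.mem_univ _)
    refine ⟨n, ?_⟩
    have e : τ ^ n = Equiv.Perm.ofSubtype (σ ^ n) := (map_zpow Equiv.Perm.ofSubtype σ n).symm
    rw [e]
    have h1 := Equiv.Perm.ofSubtype_apply_of_mem (σ ^ n) (a := x) hx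
    rw [h1, hn]

/-- a symmetric set normalised by its own elements has a closed listing of the subgroup it
generates -/
theorem self_normal_cyc (B : Set G) (hB : ∀ x ∈ B, x⁻¹ ∈ B)
    (hN : ∀ h ∈ B, ∀ s ∈ B, h * s * h⁻¹ ∈ B) (h3 : 3 ≤ Nat.card (Subgroup.closure B)) :
    ∃ τ : Equiv.Perm G, CycOn B ((Subgroup.closure B : Subgroup G) : Set G) τ := by
  have hN' : ∀ h ∈ Subgroup.closure B, ∀ s ∈ B, h * s * h⁻¹ ∈ B := by
    intro h hh
    induction hh using Subgroup.closure_induction_right with
    | one => intro s hs; simpa using hs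
    | mul_right x _ y hy ih =>
      intro s hs
      have e : x * y * s * (x * y)⁻¹ = x * (y * s * y⁻¹) * x⁻¹ := by group
      rw [e]; exact ih _ (hN y hy s hs)
    | mul_inv_cancel x _ y hy ih =>
      intro s hs
      have e : x * y⁻¹ * s * (x * y⁻¹)⁻¹ = x * (y⁻¹ * s * y⁻¹⁻¹) * x⁻¹ := by group
      rw [e]; exact ih _ (hN y⁻¹ (hB y hy) s hs)
  obtain ⟨σ, hσ⟩ := normal_set_listing (G := Subgroup.closure B)
    {x : Subgroup.closure B | (x : G) ∈ B} (fun x hx => hB _ hx)
    (Subgroup.closure_closure_coe_preimage (k := B)) h3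
    (fun g x hx => hN' g g.2 x hx)
  exact cycOn_of_subgroup B _ σ hσ

/-- transport by normalising elements of `A`, and by elements all of whose conjugates are there -/
theorem mov_listing (A B : Set G) (hA : ∀ x ∈ A, x⁻¹ ∈ A) (hB : ∀ x ∈ B, x⁻¹ ∈ B) (hBA : B ⊆ A)
    (h3 : 3 ≤ Nat.card (Subgroup.closure B)) (C : Set G)
    (hC : ∀ c ∈ C, (∀ h ∈ Subgroup.closure B, h⁻¹ * c * h ∈ A) ∨
      (c ∈ A ∧ ∀ s, s ∈ B ↔ c⁻¹ * s * c ∈ B))
    (hgen : Subgroup.closure (B ∪ C) = ⊤) (τ : Equiv.Perm G)
    (hτ : CycOn B ((Subgroup.closure B : Subgroup G) : Set G) τ) :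
    ∃ σ : Equiv.Perm G, CycOn A Set.univ σ := by
  have : Fintype G := Fintype.ofFinite G
  refine gen_listing A B hA hB hBA (Subgroup.closure B) C ?_ ?_ τ hτ
  · intro c hc
    rcases hC c hc with h | ⟨h1, h2⟩
    · exact links_left A B hA _ h3 c h
    · refine links_right A B hA _ h3 c h1 h2 ?_
      intro s
      have hc1 : ∀ s ∈ Subgroup.closure B, c⁻¹ * s * c⁻¹⁻¹ ∈ Subgroup.closure B := by
        apply conj_closure
        intro s hs
        rw [inv_inv]
        exact Subgroup.subset_closure ((h2 s).1 hs)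
      have hc2 : ∀ s ∈ Subgroup.closure B, c * s * c⁻¹ ∈ Subgroup.closure B := by
        apply conj_closure
        intro s hs
        apply Subgroup.subset_closure
        rw [h2]
        have e : c⁻¹ * (c * s * c⁻¹) * c = s := by group
        rwa [e]
      constructor
      · intro hs
        have := hc1 s hs
        rwa [inv_inv] at this
      · intro hs
        have := hc2 _ hs
        have e : c * (c⁻¹ * s * c) * c⁻¹ = s := by group
        rwa [e] at this
  · rw [eq_top_iff, ← hgen]
    apply Subgroup.closure_mono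
    exact Set.union_subset_union Subgroup.subset_closure le_rfl

end Pool.Agent.R759.HC
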