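import Pool.Agent.R759.HCMerge

/-!
Merging cosets of a cyclic or dihedral subgroup along squares.
-/

namespace Pool.Agent.R759.HC

open Finset

attribute [local instance] Classical.propDecidable

set_option linter.unusedSectionVars false

variable {G : Type*} [Group G]

/-- the edges `{x, x s}` (`s = a` or `s = b`) of the coset `v` both ends of which are moved by
left multiplication by `g` to a neighbour -/
def Sq (A : Set G) (a b : G) {H : Subgroup G} (g : G) (v : G ⧸ H) : Set (Sym2 G) :=
  {e | ∃ x s : G, (x : G ⧸ H) = v ∧ (s = a ∨ s = b) ∧ e = s(x, x * s) ∧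
    x⁻¹ * g * x ∈ A ∧ (x * s)⁻¹ * g * (x * s) ∈ A}

variable [Finite G]

theorem Sq_le_of_map {A : Set G} {a b : G} {H : Subgroup G} {g g' : G} {v v' : G ⧸ H} (t : G)
    (ht : ∀ x : G, (x : G ⧸ H) = v → ((t * x : G) : G ⧸ H) = v')
    (hA : ∀ x : G, x⁻¹ * g * x ∈ A → (t * x)⁻¹ * g' * (t * x) ∈ A) :
    (Sq A a b g v).ncard ≤ (Sq A a b g' v').ncard := by
  have hinj : Function.Injective (Sym2.map (fun x : G => t * x)) :=
    Sym2.map.injective (mul_right_injective t)
  rw [← Set.ncard_image_of_injective _ hinj]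
  apply Set.ncard_le_ncard _ (Set.toFinite _)
  rintro _ ⟨e, ⟨x, s, hx, hs, rfl, h1, h2⟩, rfl⟩
  refine ⟨t * x, s, ht x hx, hs, ?_, hA x h1, ?_⟩
  · rw [Sym2.map_mk, mul_assoc]
  · have h3 := hA (x * s) h2
    rwa [← mul_assoc t x s] at h3

/-- the graph on the left cosets of `H` whose edges carry at least three squares -/
def cs (A : Set G) (hA : ∀ x ∈ A, x⁻¹ ∈ A) (a b : G) (H : Subgroup G) : SimpleGraph (G ⧸ H) where
  Adj v u := v ≠ u ∧ ∃ g : G, g • v = u ∧ 3 ≤ (Sq A a b g v).ncard
  symm := ⟨by
    rintro v u ⟨hne, g, hg, h3⟩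
    refine ⟨hne.symm, g⁻¹, ?_, h3.trans (Sq_le_of_map g ?_ ?_)⟩
    · rw [← hg, inv_smul_smul]
    · intro x hx
      have : ((g * x : G) : G ⧸ H) = g • (x : G ⧸ H) := rfl
      rw [this, hx, hg]
    · intro x hx
      have h1 := hA _ hx
      have h2 : (x⁻¹ * g * x)⁻¹ = (g * x)⁻¹ * g⁻¹ * (g * x) := by group
      rwa [h2] at h1⟩
  loopless := ⟨fun v h => h.1 rfl⟩

theorem cs_inv (A : Set G) (hA : ∀ x ∈ A, x⁻¹ ∈ A) (a b : G) (H : Subgroup G) (g : G)
    (u v : G ⧸ H) (h : (cs A hA a b H).Adj u v) : (cs A hA a b H).Adj (g • u) (g • v) := by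
  obtain ⟨hne, t, ht, h3⟩ := h
  refine ⟨fun h => hne (MulAction.injective g h), g * t * g⁻¹, ?_, h3.trans (Sq_le_of_map g ?_ ?_)⟩
  · rw [← ht, smul_smul, smul_smul]
    congr 1
    group
  · intro x hx
    have : ((g * x : G) : G ⧸ H) = g • (x : G ⧸ H) := rfl
    rw [this, hx]
  · intro x hx
    have h3 : x⁻¹ * t * x = (g * x)⁻¹ * (g * t * g⁻¹) * (g * x) := by group
    rwa [h3] at hx

/-- the elements `c` for which at least three edges `{h, h s}` of the cycle on `H` have both
conjugates `h⁻¹ c h` and `(h s)⁻¹ c (h s)` in `A` -/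
def flexible (A : Set G) (a b : G) (H : Subgroup G) : Set G :=
  {c | 3 ≤ Set.ncard {e : Sym2 G | ∃ h ∈ H, ∃ s : G, (s = a ∨ s = b) ∧ e = s(h, h * s) ∧
    h⁻¹ * c * h ∈ A ∧ (h * s)⁻¹ * c * (h * s) ∈ A}}

theorem cs_conn (A : Set G) (hA : ∀ x ∈ A, x⁻¹ ∈ A) (a b : G) (H : Subgroup G)
    (hgen : Subgroup.closure ((H : Set G) ∪ flexible A a b H) = ⊤) :
    (cs A hA a b H).Connected := by
  have hne : Nonempty (G ⧸ H) := ⟨((1 : G) : G ⧸ H)⟩
  have step : ∀ (x c : G), c ∈ flexible A a b H →
      (cs A hA a b H).Reachable (x : G ⧸ H) ((x * c : G) : G ⧸ H) := by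
    intro x c hc
    by_cases h : (x : G ⧸ H) = ((x * c : G) : G ⧸ H)
    · rw [← h]
    · have : (cs A hA a b H).Adj (x : G ⧸ H) ((x * c : G) : G ⧸ H) := by
        refine ⟨h, x * c * x⁻¹, ?_, ?_⟩
        · have e : (x * c * x⁻¹) • (x : G ⧸ H) = ((x * c * x⁻¹ * x : G) : G ⧸ H) := rfl
          rw [e]
          congr 1
          group
        · have hc' : 3 ≤ (Sq A a b c ((1 : G) : G ⧸ H)).ncard := by
            refine le_trans hc (Set.ncard_le_ncard ?_ (Set.toFinite _))
            rintro e ⟨h, hh, s, hs, rfl, h1, h2⟩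
            refine ⟨h, s, ?_, hs, rfl, h1, h2⟩
            rw [eq_comm, QuotientGroup.eq]
            simpa using hh
          refine hc'.trans (Sq_le_of_map x ?_ ?_)
          · intro z hz
            have e : ((x * z : G) : G ⧸ H) = x • (z : G ⧸ H) := rfl
            rw [e, hz]
            change ((x * 1 : G) : G ⧸ H) = _
            rw [mul_one]
          · intro z hz
            have h3 : z⁻¹ * c * z = (x * z)⁻¹ * (x * c * x⁻¹) * (x * z) := by group
            rwa [h3] at hz
      exact this.reachable
  have stepH : ∀ (x c : G), c ∈ H → ((x : G) : G ⧸ H) = ((x * c : G) : G ⧸ H) := by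
    intro x c hc
    rw [QuotientGroup.eq]
    simpa using hc
  have key : ∀ g : G, (cs A hA a b H).Reachable ((1 : G) : G ⧸ H) (g : G ⧸ H) := by
    intro g
    have hg : g ∈ Subgroup.closure ((H : Set G) ∪ flexible A a b H) := by rw [hgen]; trivial
    induction hg using Subgroup.closure_induction_right with
    | one => exact SimpleGraph.Reachable.refl _
    | mul_right x _ y hy ih =>
      rcases hy with hy | hy
      · rw [← stepH x y hy]; exact ih
      · exact ih.trans (step x y hy)
    | mul_inv_cancel x _ y hy ih =>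
      rcases hy with hy | hy
      · rw [← stepH x y⁻¹ (H.inv_mem hy)]; exact ih
      · have := step (x * y⁻¹) y hy
        rw [inv_mul_cancel_right] at this
        exact ih.trans this.symm
  refine SimpleGraph.Connected.mk ?_
  intro u v
  obtain ⟨x, rfl⟩ := QuotientGroup.mk_surjective u
  obtain ⟨y, rfl⟩ := QuotientGroup.mk_surjective v
  exact (key x).symm.trans (key y)

/-- `ρ` uses every edge `{x, x s}` of the coset `v` -/
def Trav (a b : G) {H : Subgroup G} (v : G ⧸ H) (ρ : Equiv.Perm G) : Prop :=
  ∀ x s : G, (x : G ⧸ H) = v → (s = a ∨ s = b) → ρ x = x * s ∨ ρ (x * s) = x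

theorem Trav.move {a b : G} {H : Subgroup G} {v u : G ⧸ H} {ρ : Equiv.Perm G}
    (h : Trav a b v ρ) (g : G) (hg : g • v = u) :
    Trav a b u (Equiv.mulLeft g * ρ⁻¹ * (Equiv.mulLeft g)⁻¹) := by
  intro x s hx hs
  have ap : ∀ z, (Equiv.mulLeft g * ρ⁻¹ * (Equiv.mulLeft g)⁻¹) z = g * ρ⁻¹ (g⁻¹ * z) := by
    intro z
    simp [Equiv.Perm.mul_apply]
  have hx' : ((g⁻¹ * x : G) : G ⧸ H) = v := by
    have : ((g⁻¹ * x : G) : G ⧸ H) = g⁻¹ • (x : G ⧸ H) := rfl
    rw [this, hx, ← hg, inv_smul_smul]
  rcases h (g⁻¹ * x) s hx' hs with h1 | h1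
  · right
    rw [ap, ← mul_assoc, ← h1, pinv2, mul_inv_cancel_left]
  · left
    rw [ap]
    have h2 : ρ⁻¹ (g⁻¹ * x) = g⁻¹ * x * s := by
      conv_lhs => rw [← h1]
      rw [pinv2]
    rw [h2, mul_assoc, mul_inv_cancel_left]

variable [Fintype G]

theorem merge_squares (A : Set G) (hA : ∀ x ∈ A, x⁻¹ ∈ A) (a b : G) (H : Subgroup G)
    (T : SimpleGraph (G ⧸ H)) (hTc : T.Connected) (hTle : T ≤ cs A hA a b H)
    (hTd : ∀ v, dg T v ≤ 3) (τ : Equiv.Perm G) (hτ : CycOn A (H : Set G) τ)
    (hτT : Trav a b ((1 : G) : G ⧸ H) τ) :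
    ∃ σ : Equiv.Perm G, CycOn A Set.univ σ := by
  have key : ∀ k : ℕ, k + 1 ≤ Fintype.card (G ⧸ H) → ∃ S : Finset (G ⧸ H), S.card = k + 1 ∧
      ∃ σ : Equiv.Perm G, CycOn A {x | (x : G ⧸ H) ∈ S} σ ∧
        ∀ v ∈ S, ∃ ρ : Equiv.Perm G, CycOn A {x | (x : G ⧸ H) = v} ρ ∧ Trav a b v ρ ∧
          (univ.filter fun x : G => (x : G ⧸ H) = v ∧ σ x ≠ ρ x).card ≤
            (S.filter fun u => T.Adj v u).card := by
    intro k
    induction k with
    | zero =>
      intro _
      refine ⟨{((1 : G) : G ⧸ H)}, rfl, τ, ?_, ?_⟩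
      · have : {x : G | (x : G ⧸ H) ∈ ({((1 : G) : G ⧸ H)} : Finset (G ⧸ H))} = (H : Set G) := by
          ext x
          simp only [Finset.mem_singleton, Set.mem_ofPred_eq, SetLike.mem_coe]
          rw [eq_comm, QuotientGroup.eq]
          simp
        rw [this]
        exact hτ
      · intro v hv
        rw [Finset.mem_singleton] at hv
        subst hv
        refine ⟨τ, ?_, hτT, ?_⟩
        · have : {x : G | (x : G ⧸ H) = ((1 : G) : G ⧸ H)} = (H : Set G) := by
            ext x
            simp only [Set.mem_ofPred_eq, SetLike.mem_coe]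
            rw [eq_comm, QuotientGroup.eq]
            simp
          rw [this]
          exact hτ
        · simp
    | succ k ih =>
      intro hk
      obtain ⟨S, hS, σ, hσ, hinv⟩ := ih (by omega)
      have hSne : S.Nonempty := by
        rw [← Finset.card_pos]; omega
      have hSu : S ≠ univ := by
        intro h
        have : S.card = Fintype.card (G ⧸ H) := by rw [h]; rfl
        omega
      obtain ⟨v, u, hvu, hvS, huS⟩ := exists_cross hTc S hSne hSu
      obtain ⟨ρ, hρ, hρT, hcount⟩ := hinv v hvS
      obtain ⟨hne, g, hg, hsq⟩ := hTle hvu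
      -- an unused square
      obtain ⟨x, hxv, hxρ, hx1A, hx2A⟩ : ∃ x : G, (x : G ⧸ H) = v ∧ σ x = ρ x ∧
          x⁻¹ * g * x ∈ A ∧ (ρ x)⁻¹ * g * (ρ x) ∈ A := by
        by_contra hno
        push Not at hno
        have h1 : (S.filter fun u => T.Adj v u).card < dg T v := by
          unfold dg
          apply Finset.card_lt_card
          rw [Finset.ssubset_iff_of_subset]
          · exact ⟨u, by simp [hvu], by simp [huS]⟩
          · intro w hw
            rw [Finset.mem_filter] at hw ⊢
            exact ⟨Finset.mem_univ _, hw.2⟩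
        have h2 := hTd v
        have h3 : (Sq A a b g v).ncard ≤
            (univ.filter fun x : G => (x : G ⧸ H) = v ∧ σ x ≠ ρ x).card := by
          rw [← Set.ncard_coe_finset]
          refine le_trans (Set.ncard_le_ncard ?_ (Set.toFinite _))
            (Set.ncard_image_le (f := fun x => s(x, ρ x)) (Set.toFinite _))
          rintro e ⟨x, s, hx, hs, rfl, h4, h5⟩
          have hxs : ((x * s : G) : G ⧸ H) = v ∨ ρ x = x * s := by
            rcases hρT x s hx hs with h6 | h6
            · exact Or.inr h6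
            · left
              by_contra h7
              have := hρ.fix (x * s) h7
              rw [this] at h6
              rw [h6] at h7
              exact h7 hx
          rcases hρT x s hx hs with h6 | h6
          · refine ⟨x, ?_, ?_⟩
            · simp only [Finset.coe_filter, Finset.mem_univ, true_and, Set.mem_ofPred_eq]
              refine ⟨hx, ?_⟩
              intro h7
              rw [← h6] at h5
              exact hno x hx h7 h4 h5
            · simp only [h6]
          · have hxs' : ((x * s : G) : G ⧸ H) = v := by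
              rcases hxs with h | h
              · exact h
              · have := hρ.maps x hx
                rw [h] at this
                exact this
            refine ⟨x * s, ?_, ?_⟩
            · simp only [Finset.coe_filter, Finset.mem_univ, true_and, Set.mem_ofPred_eq]
              refine ⟨hxs', ?_⟩
              intro h7
              rw [← h6] at h4
              exact hno (x * s) hxs' h7 h5 h4
            · simp only [h6]
              exact Sym2.eq_swap
        omega
      have huset : {x : G | g⁻¹ * x ∈ {x : G | (x : G ⧸ H) = v}} = {x : G | (x : G ⧸ H) = u} := by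
        ext z
        change ((g⁻¹ * z : G) : G ⧸ H) = v ↔ (z : G ⧸ H) = u
        have e : ((g⁻¹ * z : G) : G ⧸ H) = g⁻¹ • (z : G ⧸ H) := rfl
        rw [e, inv_smul_eq_iff, hg]
      have hσ2 := (hρ.inv hA).translate g
      rw [huset] at hσ2
      have hσ2T := hρT.move g hg
      set σ2 := Equiv.mulLeft g * ρ⁻¹ * (Equiv.mulLeft g)⁻¹ with hσ2def
      have ap2 : ∀ z, σ2 z = g * ρ⁻¹ (g⁻¹ * z) := by
        intro z
        simp [hσ2def, Equiv.Perm.mul_apply]
      have hyv : ((σ x : G) : G ⧸ H) = v := by
        rw [hxρ]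
        exact hρ.maps x hxv
      have hx1 : x ∈ {x : G | (x : G ⧸ H) ∈ S} := by
        change (x : G ⧸ H) ∈ S
        rw [hxv]; exact hvS
      have hy' : g * σ x ∈ {x : G | (x : G ⧸ H) = u} := by
        change ((g * σ x : G) : G ⧸ H) = u
        have e : ((g * σ x : G) : G ⧸ H) = g • ((σ x : G) : G ⧸ H) := rfl
        rw [e, hyv, hg]
      have hxy' : σ2 (g * σ x) = g * x := by
        rw [ap2, inv_mul_cancel_left, hxρ, pinv2]
      have s1 : x⁻¹ * (g * x) ∈ A := by
        rw [← mul_assoc]; exact hx1A
      have s2 : (g * σ x)⁻¹ * σ x ∈ A := by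
        have h1 := hA _ hx2A
        rw [← hxρ] at h1
        have h2 : ((σ x)⁻¹ * g * σ x)⁻¹ = (g * σ x)⁻¹ * σ x := by group
        rwa [h2] at h1
      obtain ⟨hm, em1, em2⟩ := hσ.merge hσ2 (by
        intro z hz hz'
        apply huS
        have e1 : (z : G ⧸ H) ∈ S := hz
        have e2 : (z : G ⧸ H) = u := hz'
        rwa [e2] at e1) hx1 hy' hxy' s1 s2
      set σ' := σ * σ2 * Equiv.swap x (g * σ x) with hσ'
      refine ⟨insert u S, ?_, σ', ?_, ?_⟩
      · rw [Finset.card_insert_of_notMem huS, hS]
      · have : {x : G | (x : G ⧸ H) ∈ insert u S} =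
            {x : G | (x : G ⧸ H) ∈ S} ∪ {x : G | (x : G ⧸ H) = u} := by
          ext z
          simp only [Finset.mem_insert, Set.mem_ofPred_eq, Set.mem_union]
          tauto
        rw [this]
        exact hm
      · intro w hw
        by_cases hwu : w = u
        · subst hwu
          refine ⟨σ2, hσ2, hσ2T, ?_⟩
          have h1 : (univ.filter fun z : G => (z : G ⧸ H) = w ∧ σ' z ≠ σ2 z) ⊆ {g * σ x} := by
            intro z hz
            rw [Finset.mem_filter] at hz
            rw [Finset.mem_singleton]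
            by_contra h
            exact hz.2.2 (em2 z hz.2.1 h)
          have h2 : 0 < ((insert w S).filter fun u => T.Adj w u).card := by
            rw [Finset.card_pos]
            exact ⟨v, by simp [hvS, hvu.symm]⟩
          have h3 := Finset.card_le_card h1
          rw [Finset.card_singleton] at h3
          omega
        · have hwS : w ∈ S := by
            rw [Finset.mem_insert] at hw
            exact hw.resolve_left hwu
          by_cases hwv : w = v
          · subst hwv
            refine ⟨ρ, hρ, hρT, ?_⟩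
            have h1 : (univ.filter fun z : G => (z : G ⧸ H) = w ∧ σ' z ≠ ρ z) ⊆
                insert x (univ.filter fun z : G => (z : G ⧸ H) = w ∧ σ z ≠ ρ z) := by
              intro z hz
              rw [Finset.mem_filter] at hz
              rw [Finset.mem_insert, Finset.mem_filter]
              by_cases h : z = x
              · exact Or.inl h
              · right
                refine ⟨Finset.mem_univ _, hz.2.1, ?_⟩
                rw [← em1 z (by
                  change (z : G ⧸ H) ∈ S
                  rw [hz.2.1]; exact hwS) h]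
                exact hz.2.2
            have h2 : ((insert u S).filter fun u => T.Adj w u) =
                insert u (S.filter fun u => T.Adj w u) := by
              rw [Finset.filter_insert, if_pos hvu]
            have h3 := (Finset.card_le_card h1).trans (Finset.card_insert_le _ _)
            rw [h2, Finset.card_insert_of_notMem (by simp [huS])]
            omega
          · obtain ⟨ρw, hρw, hρwT, hcw⟩ := hinv w hwS
            refine ⟨ρw, hρw, hρwT, ?_⟩
            have h1 : (univ.filter fun z : G => (z : G ⧸ H) = w ∧ σ' z ≠ ρw z) ⊆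
                (univ.filter fun z : G => (z : G ⧸ H) = w ∧ σ z ≠ ρw z) := by
              intro z hz
              rw [Finset.mem_filter] at hz ⊢
              refine ⟨Finset.mem_univ _, hz.2.1, ?_⟩
              rw [← em1 z (by
                change (z : G ⧸ H) ∈ S
                rw [hz.2.1]; exact hwS) (by
                rintro rfl
                exact hwv (hz.2.1.symm.trans hxv))]
              exact hz.2.2
            refine (Finset.card_le_card h1).trans (hcw.trans (Finset.card_le_card ?_))
            exact Finset.filter_subset_filter _ (Finset.subset_insert _ _)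
  have hpos : 0 < Fintype.card (G ⧸ H) := Fintype.card_pos_iff.2 ⟨((1 : G) : G ⧸ H)⟩
  obtain ⟨S, hS, σ, hσ, _⟩ := key (Fintype.card (G ⧸ H) - 1) (by omega)
  have hSu : S = univ := by
    apply Finset.eq_univ_of_card
    omega
  refine ⟨σ, ?_⟩
  have : {x : G | (x : G ⧸ H) ∈ S} = Set.univ := by
    rw [hSu]; ext x; simp
  rwa [this] at hσ

theorem squares_listing (A : Set G) (hA : ∀ x ∈ A, x⁻¹ ∈ A) (a b : G) (H : Subgroup G)
    (hgen : Subgroup.closure ((H : Set G) ∪ flexible A a b H) = ⊤)
    (τ : Equiv.Perm G) (hτ : CycOn A (H : Set G) τ)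
    (hτT : Trav a b ((1 : G) : G ⧸ H) τ) : ∃ σ : Equiv.Perm G, CycOn A Set.univ σ := by
  obtain ⟨T, hT1, hT2, hT3⟩ := tree3 (G := G) (cs A hA a b H) (cs_conn A hA a b H hgen)
    (fun g u v h => cs_inv A hA a b H g u v h) (fun x y => MulAction.exists_smul_eq G x y)
  exact merge_squares A hA a b H T hT2.connected hT1 hT3 τ hτ hτT

end Pool.Agent.R759.HC
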