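import Pool.Agent.R759.HCMader

/-!
A finite connected vertex-transitive graph has a spanning tree of maximum degree at most three.
-/

namespace Pool.Agent.R759.HC

open Finset

attribute [local instance] Classical.propDecidable

variable {V : Type*}

/-- the edges of `T` with both ends in `Z` -/
def res (T : SimpleGraph V) (Z : Set V) : SimpleGraph V where
  Adj u v := T.Adj u v ∧ u ∈ Z ∧ v ∈ Z
  symm := ⟨fun _ _ h => ⟨h.1.symm, h.2.2, h.2.1⟩⟩
  loopless := ⟨fun _ h => T.loopless.irrefl _ h.1⟩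

theorem res_adj {T : SimpleGraph V} {Z : Set V} {u v : V} :
    (res T Z).Adj u v ↔ T.Adj u v ∧ u ∈ Z ∧ v ∈ Z := Iff.rfl

theorem res_mono {T : SimpleGraph V} {Z Z' : Set V} (h : Z ⊆ Z') : res T Z ≤ res T Z' :=
  fun _ _ h' => ⟨h'.1, h h'.2.1, h h'.2.2⟩

theorem reach_lift {T T' : SimpleGraph V} (h : ∀ c d, T.Adj c d → T'.Reachable c d) {u v : V}
    (p : T.Reachable u v) : T'.Reachable u v := by
  obtain ⟨p⟩ := p
  induction p with
  | nil => exact SimpleGraph.Reachable.refl _
  | cons h' _ ih => exact (h _ _ h').trans ih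

theorem reach_of_walk {T : SimpleGraph V} {Z : Set V} {e : Sym2 V} {u v : V} (p : T.Walk u v)
    (hs : ∀ w ∈ p.support, w ∈ Z) (he : e ∉ p.edges) :
    (res (T.deleteEdges {e}) Z).Reachable u v := by
  induction p with
  | nil => exact SimpleGraph.Reachable.refl _
  | @cons a b c h p ih =>
    rw [SimpleGraph.Walk.edges_cons, List.mem_cons, not_or] at he
    have h1 : (res (T.deleteEdges {e}) Z).Adj a b := by
      refine ⟨?_, hs a (by simp), hs b (by simp)⟩
      rw [SimpleGraph.deleteEdges_adj]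
      exact ⟨h, fun h' => he.1 (Set.mem_singleton_iff.1 h').symm⟩
    exact h1.reachable.trans (ih (fun w hw => hs w (by simp [hw])) he.2)

theorem reach_of_walk' {T : SimpleGraph V} {Z : Set V} {u v : V} (p : T.Walk u v)
    (hs : ∀ w ∈ p.support, w ∈ Z) : (res T Z).Reachable u v := by
  induction p with
  | nil => exact SimpleGraph.Reachable.refl _
  | @cons a b c h p ih =>
    have h1 : (res T Z).Adj a b := ⟨h, hs a (by simp), hs b (by simp)⟩
    exact h1.reachable.trans (ih (fun w hw => hs w (by simp [hw])))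

/-- component of `x` in `T - S` -/
def C (T : SimpleGraph V) (S : Finset V) (x : V) : Set V :=
  {u | (res T {v | v ∉ S}).Reachable x u}

theorem mem_C_self (T : SimpleGraph V) (S : Finset V) (x : V) : x ∈ C T S x :=
  SimpleGraph.Reachable.refl _

theorem C_compl {T : SimpleGraph V} {S : Finset V} {x : V} (hx : x ∉ S) {u : V}
    (hu : u ∈ C T S x) : u ∉ S := by
  have hu' : (res T {v | v ∉ S}).Reachable x u := hu
  obtain ⟨p⟩ := hu'
  induction p with
  | nil => exact hx
  | @cons a b c h p ih => exact ih h.2.2 p.reachable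

theorem C_eq {T : SimpleGraph V} {S : Finset V} {x y : V} (h : y ∈ C T S x) :
    C T S y = C T S x := by
  ext u
  exact ⟨fun h' => SimpleGraph.Reachable.trans h h',
    fun h' => SimpleGraph.Reachable.trans (SimpleGraph.Reachable.symm h) h'⟩

theorem C_mono {T : SimpleGraph V} {S S' : Finset V} (h : S' ⊆ S) (x : V) :
    C T S x ⊆ C T S' x := by
  intro u hu
  refine SimpleGraph.Reachable.mono (res_mono ?_) hu
  intro v (hv : v ∉ S) (hv' : v ∈ S')
  exact hv (h hv')

theorem C_self_conn {T : SimpleGraph V} {S : Finset V} {x u : V} (hu : u ∈ C T S x) :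
    (res T (C T S x)).Reachable x u := by
  have hu' : (res T {v | v ∉ S}).Reachable x u := hu
  have key : ∀ {a b : V} (p : (res T {v | v ∉ S}).Walk a b), a ∈ C T S x →
      (res T (C T S x)).Reachable a b := by
    intro a b p
    induction p with
    | nil => intro _; exact SimpleGraph.Reachable.refl _
    | @cons a b c h p ih =>
      intro ha
      have hb : b ∈ C T S x := SimpleGraph.Reachable.trans ha h.reachable
      have : (res T (C T S x)).Adj a b := ⟨h.1, ha, hb⟩
      exact this.reachable.trans (ih hb)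
  obtain ⟨p⟩ := hu'
  exact key p (mem_C_self T S x)

/-- exchanging an edge of a tree -/
theorem swap_tree {T : SimpleGraph V} (hT : T.IsTree) {a b x y : V} (hab : T.Adj a b)
    (hxa : (T.deleteEdges {s(a, b)}).Reachable x a)
    (hyb : (T.deleteEdges {s(a, b)}).Reachable b y) (hxy : x ≠ y) :
    (T.deleteEdges {s(a, b)} ⊔ SimpleGraph.edge x y).IsTree := by
  have hbr : ¬ (T.deleteEdges {s(a, b)}).Reachable a b := by
    have h := SimpleGraph.isAcyclic_iff_forall_adj_isBridge.1 hT.isAcyclic hab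
    rw [SimpleGraph.isBridge_iff] at h
    simpa [SimpleGraph.deleteEdges] using h
  have hnr : ¬ (T.deleteEdges {s(a, b)}).Reachable x y := by
    intro h
    exact hbr (hxa.symm.trans (h.trans hyb.symm))
  have hac : (T.deleteEdges {s(a, b)}).IsAcyclic :=
    SimpleGraph.IsAcyclic.anti (SimpleGraph.deleteEdges_le _) hT.isAcyclic
  have h1 := hac.sup_edge_of_not_reachable hnr
  have hle : T.deleteEdges {s(a, b)} ≤ T.deleteEdges {s(a, b)} ⊔ SimpleGraph.edge x y := le_sup_left
  have hconn : (T.deleteEdges {s(a, b)} ⊔ SimpleGraph.edge x y).Connected := by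
    have : Nonempty V := ⟨a⟩
    refine SimpleGraph.Connected.mk ?_
    intro u v
    refine reach_lift ?_ (hT.connected.preconnected u v)
    intro c d hcd
    have hxy' : (T.deleteEdges {s(a, b)} ⊔ SimpleGraph.edge x y).Adj x y := by
      rw [SimpleGraph.sup_adj]
      right
      rw [SimpleGraph.edge_adj]
      exact ⟨Or.inl ⟨rfl, rfl⟩, hxy⟩
    have hab' : (T.deleteEdges {s(a, b)} ⊔ SimpleGraph.edge x y).Reachable a b :=
      ((hxa.symm.mono hle).trans hxy'.reachable).trans (hyb.symm.mono hle)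
    by_cases h : s(c, d) = s(a, b)
    · rw [Sym2.eq_iff] at h
      rcases h with ⟨rfl, rfl⟩ | ⟨rfl, rfl⟩
      · exact hab'
      · exact hab'.symm
    · have : (T.deleteEdges {s(a, b)}).Adj c d := by
        rw [SimpleGraph.deleteEdges_adj]
        exact ⟨hcd, fun h' => h (Set.mem_singleton_iff.1 h')⟩
      exact (hle this).reachable
  exact ⟨hconn, h1⟩

variable [Fintype V]

/-- spanning trees of `Γ` of maximum degree at most `K`, and at most `K - 1` off `W` -/
structure Adm (Γ T : SimpleGraph V) (K : ℕ) (W : Finset V) : Prop where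
  le : T ≤ Γ
  tree : T.IsTree
  degW : ∀ v, dg T v ≤ K
  deg : ∀ v, v ∉ W → dg T v ≤ K - 1

/-- outside `S` every vertex can be made to have degree at most `K - 2` by a change inside its
component of `T - S` -/
def PP (Γ T : SimpleGraph V) (K : ℕ) (W S : Finset V) : Prop :=
  ∀ x, x ∉ S → ∀ T' : SimpleGraph V, Adm Γ T' K W →
    (∀ u ∈ C T S x, ∀ v, T'.Adj u v ↔ T.Adj u v) →
    ∃ T'' : SimpleGraph V, Adm Γ T'' K W ∧
      (∀ u v, ¬ (u ∈ C T S x ∧ v ∈ C T S x) → (T''.Adj u v ↔ T'.Adj u v)) ∧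
      (∀ u ∈ C T S x, (res T'' (C T S x)).Reachable x u) ∧
      dg T'' x ≤ K - 2

theorem dg_congr {T T' : SimpleGraph V} {u : V} (h : ∀ v, T.Adj u v ↔ T'.Adj u v) :
    dg T u = dg T' u := by
  unfold dg
  congr 1
  ext v
  simp [h v]

theorem dg_le_of {T T' : SimpleGraph V} {v : V} (h : ∀ w, T.Adj v w → T'.Adj v w) :
    dg T v ≤ dg T' v := by
  unfold dg
  apply Finset.card_le_card
  intro w hw
  rw [Finset.mem_filter] at hw ⊢
  exact ⟨hw.1, h w hw.2⟩

theorem dg_le_insert {T T' : SimpleGraph V} {v y : V} (h : ∀ w, T.Adj v w → T'.Adj v w ∨ w = y) :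
    dg T v ≤ dg T' v + 1 := by
  unfold dg
  refine le_trans (Finset.card_le_card (t := insert y (univ.filter fun u => T'.Adj v u)) ?_)
    (Finset.card_insert_le _ _)
  intro w hw
  rw [Finset.mem_filter] at hw
  rw [Finset.mem_insert, Finset.mem_filter]
  rcases h w hw.2 with h | h
  · exact Or.inr ⟨hw.1, h⟩
  · exact Or.inl h

theorem dg_lt_of {T T' : SimpleGraph V} {v b : V} (h : ∀ w, T.Adj v w → T'.Adj v w ∧ w ≠ b)
    (hb : T'.Adj v b) : dg T v + 1 ≤ dg T' v := by
  unfold dg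
  have hsub : (univ.filter fun u => T.Adj v u) ⊆ (univ.filter fun u => T'.Adj v u).erase b := by
    intro w hw
    rw [Finset.mem_filter] at hw
    rw [Finset.mem_erase, Finset.mem_filter]
    have := h w hw.2
    exact ⟨this.2, hw.1, this.1⟩
  have hbm : b ∈ (univ.filter fun u => T'.Adj v u) := by simp [hb]
  have h1 := Finset.card_le_card hsub
  rw [Finset.card_erase_of_mem hbm] at h1
  have : 0 < (univ.filter fun u => T'.Adj v u).card := Finset.card_pos.2 ⟨b, hbm⟩
  omega

theorem exch {Γ T : SimpleGraph V} {K : ℕ} (hK : 2 ≤ K) {W S : Finset V}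
    (hP : PP Γ T K W S) (hWS : W ⊆ S) {x y z : V} (hx : x ∉ S) (hy : y ∉ S) (hxy : Γ.Adj x y)
    (hyx : y ∉ C T S x) (p : T.Walk x y) (hp : p.IsPath) (hzp : z ∈ p.support) (hzS : z ∈ S)
    {Z : Set V} (hpZ : ∀ w ∈ p.support, w ∈ Z) (hXZ : C T S x ⊆ Z) (hYZ : C T S y ⊆ Z)
    {T' : SimpleGraph V} (hT' : Adm Γ T' K W) (hTT : ∀ u ∈ Z, ∀ v, T'.Adj u v ↔ T.Adj u v) :
    ∃ T3 : SimpleGraph V, Adm Γ T3 K W ∧
      (∀ u v, ¬ (u ∈ Z ∧ v ∈ Z) → (T3.Adj u v ↔ T'.Adj u v)) ∧
      (∀ c d, T.Adj c d → c ∈ Z → d ∈ Z → (res T3 Z).Reachable c d) ∧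
      dg T3 z + 1 ≤ dg T z := by
  obtain ⟨T1, hA1, hag1, hcn1, hdg1⟩ := hP x hx T' hT' (fun u hu v => hTT u (hXZ hu) v)
  have hdisj : ∀ u, u ∈ C T S y → u ∉ C T S x := by
    intro u hu hu'
    apply hyx
    have e1 := C_eq hu
    have e2 := C_eq hu'
    rw [← e2, e1]
    exact mem_C_self T S y
  obtain ⟨T2, hA2, hag2, hcn2, hdg2⟩ := hP y hy T1 hA1 (fun u hu v => by
    rw [hag1 u v (fun h => hdisj u hu h.1)]
    exact hTT u (hYZ hu) v)
  have hzX : z ∉ C T S x := fun h => C_compl hx h hzS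
  have hzY : z ∉ C T S y := fun h => C_compl hy h hzS
  have hzZ : z ∈ Z := hpZ z hzp
  have hxZ : x ∈ Z := hpZ x p.start_mem_support
  have hyZ : y ∈ Z := hpZ y p.end_mem_support
  have hxy_ne : x ≠ y := fun h => hyx (h ▸ mem_C_self T S x)
  have hzx : z ≠ x := fun h => hx (h ▸ hzS)
  have hzy : z ≠ y := fun h => hy (h ▸ hzS)
  -- the edge to remove
  obtain ⟨b, hzb, q1, q2, hq1, hq2, hs1, hs2⟩ : ∃ b, ∃ _ : T.Adj z b, ∃ q1 : T.Walk x z,
      ∃ q2 : T.Walk b y, s(z, b) ∉ q1.edges ∧ s(z, b) ∉ q2.edges ∧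
      (∀ w ∈ q1.support, w ∈ Z) ∧ (∀ w ∈ q2.support, w ∈ Z) := by
    have happ := p.take_spec hzp
    have hnd : p.edges.Nodup := hp.isTrail.edges_nodup
    have hs2 : ∀ w ∈ (p.dropUntil z hzp).support, w ∈ Z :=
      fun w hw => hpZ w (p.support_dropUntil_subset_support hzp hw)
    have hs1 : ∀ w ∈ (p.takeUntil z hzp).support, w ∈ Z :=
      fun w hw => hpZ w (p.support_takeUntil_subset_support hzp hw)
    rw [← happ] at hnd
    rw [SimpleGraph.Walk.edges_append] at hnd
    generalize hgq : p.dropUntil z hzp = q at hnd hs2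
    cases q with
    | nil => exact absurd rfl hzy
    | @cons _ b _ h q =>
      rw [SimpleGraph.Walk.edges_cons, List.nodup_append] at hnd
      obtain ⟨_, h2, h3⟩ := hnd
      rw [List.nodup_cons] at h2
      refine ⟨b, h, p.takeUntil z hzp, q, ?_, h2.1, hs1, ?_⟩
      · intro hin
        exact h3 _ hin _ (by simp) rfl
      · intro w hw
        exact hs2 w (by simp [hw])
  have hbZ : b ∈ Z := hs2 b q2.start_mem_support
  have a2 : ∀ v, T2.Adj z v ↔ T.Adj z v := by
    intro v
    rw [hag2 z v (fun h => hzY h.1), hag1 z v (fun h => hzX h.1), hTT z hzZ]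
  have hzb2 : T2.Adj z b := (a2 b).2 hzb
  set D := T2.deleteEdges {s(z, b)} with hD
  -- connectivity inside X for T2
  have hXconn : ∀ c ∈ C T S x, ∀ d ∈ C T S x, (res D Z).Reachable c d := by
    have base : ∀ u ∈ C T S x, (res D Z).Reachable x u := by
      intro u hu
      refine reach_lift ?_ (hcn1 u hu)
      intro c d hcd
      have hc : c ∈ C T S x := hcd.2.1
      have hd : d ∈ C T S x := hcd.2.2
      have h2 : T2.Adj c d := by
        rw [hag2 c d (fun h => hdisj c h.1 hc)]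
        exact hcd.1
      have : (res D Z).Adj c d := by
        refine ⟨?_, hXZ hc, hXZ hd⟩
        rw [hD, SimpleGraph.deleteEdges_adj]
        refine ⟨h2, ?_⟩
        intro h
        rw [Set.mem_singleton_iff, Sym2.eq_iff] at h
        rcases h with ⟨h, _⟩ | ⟨_, h⟩
        · exact hzX (h ▸ hc)
        · exact hzX (h ▸ hd)
      exact this.reachable
    intro c hc d hd
    exact (base c hc).symm.trans (base d hd)
  have hYconn : ∀ c ∈ C T S y, ∀ d ∈ C T S y, (res D Z).Reachable c d := by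
    have base : ∀ u ∈ C T S y, (res D Z).Reachable y u := by
      intro u hu
      refine reach_lift ?_ (hcn2 u hu)
      intro c d hcd
      have hc : c ∈ C T S y := hcd.2.1
      have hd : d ∈ C T S y := hcd.2.2
      have : (res D Z).Adj c d := by
        refine ⟨?_, hYZ hc, hYZ hd⟩
        rw [hD, SimpleGraph.deleteEdges_adj]
        refine ⟨hcd.1, ?_⟩
        intro h
        rw [Set.mem_singleton_iff, Sym2.eq_iff] at h
        rcases h with ⟨h, _⟩ | ⟨_, h⟩
        · exact hzY (h ▸ hc)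
        · exact hzY (h ▸ hd)
      exact this.reachable
    intro c hc d hd
    exact (base c hc).symm.trans (base d hd)
  have lift : ∀ c d, T.Adj c d → c ∈ Z → d ∈ Z → s(c, d) ≠ s(z, b) → (res D Z).Reachable c d := by
    intro c d hcd hc hd hne
    by_cases h1 : c ∈ C T S x ∧ d ∈ C T S x
    · exact hXconn c h1.1 d h1.2
    by_cases h2 : c ∈ C T S y ∧ d ∈ C T S y
    · exact hYconn c h2.1 d h2.2
    have h3 : T2.Adj c d := by
      rw [hag2 c d h2, hag1 c d h1, hTT c hc]
      exact hcd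
    have : (res D Z).Adj c d := by
      refine ⟨?_, hc, hd⟩
      rw [hD, SimpleGraph.deleteEdges_adj]
      exact ⟨h3, fun h => hne (Set.mem_singleton_iff.1 h)⟩
    exact this.reachable
  have lift' : ∀ c d, (res (T.deleteEdges {s(z, b)}) Z).Adj c d → (res D Z).Reachable c d := by
    intro c d h
    have h' := h.1
    rw [SimpleGraph.deleteEdges_adj] at h'
    exact lift c d h'.1 h.2.1 h.2.2 (fun e => h'.2 (Set.mem_singleton_iff.2 e))
  have rxz : (res D Z).Reachable x z := reach_lift lift' (reach_of_walk q1 hs1 hq1)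
  have rby : (res D Z).Reachable b y := reach_lift lift' (reach_of_walk q2 hs2 hq2)
  have resle : ∀ (H : SimpleGraph V), res H Z ≤ H := fun H _ _ h => h.1
  have htree := swap_tree hA2.tree hzb2 (rxz.mono (resle D)) (rby.mono (resle D)) hxy_ne
  rw [← hD] at htree
  have adj3 : ∀ u v, (D ⊔ SimpleGraph.edge x y).Adj u v ↔
      ((T2.Adj u v ∧ s(u, v) ≠ s(z, b)) ∨ ((u = x ∧ v = y) ∨ (u = y ∧ v = x))) := by
    intro u v
    rw [SimpleGraph.sup_adj, hD, SimpleGraph.deleteEdges_adj, SimpleGraph.edge_adj,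
      Set.mem_singleton_iff]
    constructor
    · rintro (h | h)
      · exact Or.inl h
      · rcases h.1 with ⟨h1, h2⟩ | ⟨h1, h2⟩
        · exact Or.inr (Or.inl ⟨h1.symm ▸ rfl, h2.symm ▸ rfl⟩)
        · exact Or.inr (Or.inr ⟨h1.symm ▸ rfl, h2.symm ▸ rfl⟩)
    · rintro (h | ⟨rfl, rfl⟩ | ⟨rfl, rfl⟩)
      · exact Or.inl h
      · exact Or.inr ⟨Or.inl ⟨rfl, rfl⟩, hxy_ne⟩
      · exact Or.inr ⟨Or.inr ⟨rfl, rfl⟩, hxy_ne.symm⟩
  have degle : ∀ v, v ≠ x → v ≠ y → dg (D ⊔ SimpleGraph.edge x y) v ≤ dg T2 v := by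
    intro v h1 h2
    apply dg_le_of
    intro w hw
    rcases (adj3 v w).1 hw with h | h | h
    · exact h.1
    · exact absurd h.1 h1
    · exact absurd h.1 h2
  have degx : dg (D ⊔ SimpleGraph.edge x y) x ≤ dg T2 x + 1 := by
    apply dg_le_insert (y := y)
    intro w hw
    rcases (adj3 x w).1 hw with h | h | h
    · exact Or.inl h.1
    · exact Or.inr h.2
    · exact absurd h.1 hxy_ne
  have degy : dg (D ⊔ SimpleGraph.edge x y) y ≤ dg T2 y + 1 := by
    apply dg_le_insert (y := x)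
    intro w hw
    rcases (adj3 y w).1 hw with h | h | h
    · exact Or.inl h.1
    · exact absurd h.1 hxy_ne.symm
    · exact Or.inr h.2
  have hx2 : dg T2 x ≤ K - 2 := by
    rw [dg_congr (T' := T1) (fun v => hag2 x v (fun h => hyx (by
      have := C_eq h.1
      rw [this]
      exact mem_C_self T S y)))]
    exact hdg1
  have degz : dg (D ⊔ SimpleGraph.edge x y) z + 1 ≤ dg T z := by
    have e : dg T z = dg T2 z := dg_congr (fun v => (a2 v).symm)
    rw [e]
    apply dg_lt_of (b := b) _ hzb2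
    intro w hw
    rcases (adj3 z w).1 hw with h | h | h
    · refine ⟨h.1, ?_⟩
      rintro rfl
      exact h.2 rfl
    · exact absurd h.1 hzx
    · exact absurd h.1 hzy
  have hxW : x ∉ W := fun h => hx (hWS h)
  have hyW : y ∉ W := fun h => hy (hWS h)
  refine ⟨D ⊔ SimpleGraph.edge x y, ⟨?_, htree, ?_, ?_⟩, ?_, ?_, degz⟩
  · intro u v h
    rcases (adj3 u v).1 h with h | ⟨rfl, rfl⟩ | ⟨rfl, rfl⟩
    · exact hA2.le h.1
    · exact hxy
    · exact hxy.symm
  · intro v
    by_cases h1 : v = x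
    · subst h1; omega
    by_cases h2 : v = y
    · subst h2; omega
    exact (degle v h1 h2).trans (hA2.degW v)
  · intro v hv
    by_cases h1 : v = x
    · subst h1; omega
    by_cases h2 : v = y
    · subst h2; omega
    exact (degle v h1 h2).trans (hA2.deg v hv)
  · intro u v huv
    have hnx : ¬ (u ∈ C T S x ∧ v ∈ C T S x) := fun h => huv ⟨hXZ h.1, hXZ h.2⟩
    have hny : ¬ (u ∈ C T S y ∧ v ∈ C T S y) := fun h => huv ⟨hYZ h.1, hYZ h.2⟩
    rw [adj3, ← hag1 u v hnx, ← hag2 u v hny]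
    constructor
    · rintro (h | ⟨rfl, rfl⟩ | ⟨rfl, rfl⟩)
      · exact h.1
      · exact absurd ⟨hxZ, hyZ⟩ huv
      · exact absurd ⟨hyZ, hxZ⟩ huv
    · intro h
      refine Or.inl ⟨h, ?_⟩
      intro he
      rw [Sym2.eq_iff] at he
      rcases he with ⟨rfl, rfl⟩ | ⟨rfl, rfl⟩
      · exact huv ⟨hzZ, hbZ⟩
      · exact huv ⟨hbZ, hzZ⟩
  · intro c d hcd hc hd
    have hle : res D Z ≤ res (D ⊔ SimpleGraph.edge x y) Z :=
      fun _ _ h => ⟨le_sup_left (α := SimpleGraph V) h.1, h.2⟩
    have hxy3 : (res (D ⊔ SimpleGraph.edge x y) Z).Reachable x y := by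
      have : (res (D ⊔ SimpleGraph.edge x y) Z).Adj x y :=
        ⟨(adj3 x y).2 (Or.inr (Or.inl ⟨rfl, rfl⟩)), hxZ, hyZ⟩
      exact this.reachable
    have hzb3 : (res (D ⊔ SimpleGraph.edge x y) Z).Reachable z b :=
      ((rxz.symm.mono hle).trans hxy3).trans (rby.symm.mono hle)
    by_cases h : s(c, d) = s(z, b)
    · rw [Sym2.eq_iff] at h
      rcases h with ⟨rfl, rfl⟩ | ⟨rfl, rfl⟩
      · exact hzb3
      · exact hzb3.symm
    · exact (lift c d hcd hc hd h).mono hle

end Pool.Agent.R759.HC
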