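import Pool.Agent.R759.HCTree

/-!
A finite connected vertex-transitive graph has a spanning tree of maximum degree at most three:
the closure argument and the count.
-/

namespace Pool.Agent.R759.HC

open Finset

attribute [local instance] Classical.propDecidable

variable {V : Type*} [Fintype V]

theorem PP_init {Γ T : SimpleGraph V} {K : ℕ} {W : Finset V} :
    PP Γ T K W (univ.filter fun v => K - 1 ≤ dg T v) := by
  intro x hx T' hT' hTT
  refine ⟨T', hT', fun _ _ _ => Iff.rfl, ?_, ?_⟩
  · intro u hu
    refine reach_lift ?_ (C_self_conn hu)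
    intro c d h
    have : (res T' _).Adj c d := ⟨(hTT c h.2.1 d).2 h.1, h.2⟩
    exact this.reachable
  · have h1 : dg T' x = dg T x := dg_congr (hTT x (mem_C_self _ _ _))
    have h2 : ¬ (K - 1 ≤ dg T x) := by simpa using hx
    omega

theorem PP_step {Γ T : SimpleGraph V} {K : ℕ} (hK : 2 ≤ K) {W S : Finset V}
    (hT : Adm Γ T K W) (hP : PP Γ T K W S) (hWS : W ⊆ S) {x y : V} (hx : x ∉ S) (hy : y ∉ S)
    (hxy : Γ.Adj x y) (hyx : y ∉ C T S x) (p : T.Walk x y) (hp : p.IsPath)
    (hpW : ∀ w ∈ p.support, w ∉ W) :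
    PP Γ T K W (S.filter fun v => v ∉ p.support) := by
  set S' := S.filter fun v => v ∉ p.support with hS'
  have hS'S : S' ⊆ S := Finset.filter_subset _ _
  have hpS' : ∀ w ∈ p.support, w ∉ S' := by
    intro w hw h
    rw [hS', Finset.mem_filter] at h
    exact h.2 hw
  intro z hz T' hT' hTT
  have edge_lift : ∀ {T'' : SimpleGraph V}, (∀ c d, T.Adj c d → c ∈ C T S' z → d ∈ C T S' z →
      (res T'' (C T S' z)).Reachable c d) → ∀ u ∈ C T S' z,
      (res T'' (C T S' z)).Reachable z u := by
    intro T'' h u hu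
    refine reach_lift ?_ (C_self_conn hu)
    intro c d h'
    exact h c d h'.1 h'.2.1 h'.2.2
  by_cases hzS : z ∈ S
  · -- `z` is on the path
    have hzp : z ∈ p.support := by
      by_contra h
      exact hz (by rw [hS', Finset.mem_filter]; exact ⟨hzS, h⟩)
    have hxz : x ∈ C T S' z := by
      have : z ∈ C T S' x := by
        refine reach_of_walk' (p.takeUntil z hzp) ?_
        intro w hw
        exact hpS' w (p.support_takeUntil_subset_support hzp hw)
      rw [C_eq this]
      exact mem_C_self T S' x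
    have hpZ : ∀ w ∈ p.support, w ∈ C T S' z := by
      intro w hw
      have : w ∈ C T S' x := by
        refine reach_of_walk' (p.takeUntil w hw) ?_
        intro w' hw'
        exact hpS' w' (p.support_takeUntil_subset_support hw hw')
      rw [← C_eq hxz]
      exact this
    have hXZ : C T S x ⊆ C T S' z := by
      rw [← C_eq hxz]
      exact C_mono hS'S x
    have hyz := hpZ y p.end_mem_support
    have hYZ : C T S y ⊆ C T S' z := by
      rw [← C_eq hyz]
      exact C_mono hS'S y
    obtain ⟨T3, hA3, hag3, hcn3, hdg3⟩ :=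
      exch hK hP hWS hx hy hxy hyx p hp hzp hzS hpZ hXZ hYZ hT' hTT
    refine ⟨T3, hA3, hag3, edge_lift hcn3, ?_⟩
    have := hT.deg z (hpW z hzp)
    omega
  · obtain ⟨T'', hA, hag, hcn, hdg⟩ := hP z hzS T' hT' (fun u hu v => hTT u (C_mono hS'S z hu) v)
    have hsub := C_mono (T := T) hS'S z
    refine ⟨T'', hA, ?_, edge_lift ?_, hdg⟩
    · intro u v huv
      exact hag u v (fun h => huv ⟨hsub h.1, hsub h.2⟩)
    · intro c d hcd hc hd
      by_cases h : c ∈ C T S z ∧ d ∈ C T S z
      · have r1 := (hcn c h.1).mono (res_mono hsub)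
        have r2 := (hcn d h.2).mono (res_mono hsub)
        exact r1.symm.trans r2
      · have : (res T'' (C T S' z)).Adj c d := by
          refine ⟨?_, hc, hd⟩
          rw [hag c d h, hTT c hc]
          exact hcd
        exact this.reachable

theorem sum_dg (H : SimpleGraph V) : ∑ v, dg H v = 2 * Nat.card H.edgeSet := by
  have h := H.sum_degrees_eq_twice_card_edges
  rw [Nat.card_eq_fintype_card, ← SimpleGraph.edgeFinset_card, ← h]
  apply Finset.sum_congr rfl
  intro v _
  unfold dg
  rw [← SimpleGraph.card_neighborFinset_eq_degree]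
  congr 1
  ext u
  simp

theorem acyc_bound {α : Type*} [Fintype α] [Nonempty α] (H : SimpleGraph α) (h : H.IsAcyclic) :
    Nat.card H.edgeSet + 1 ≤ Fintype.card α := by
  obtain ⟨Y, hY1, hY2, hY3⟩ :=
    (SimpleGraph.connected_top (V := α)).exists_isTree_le_of_le_of_isAcyclic (H := H) le_top h
  have h1 := (SimpleGraph.isTree_iff_connected_and_card.1 hY3).2
  rw [Nat.card_eq_fintype_card (α := α)] at h1
  rw [← h1]
  have : Nat.card H.edgeSet ≤ Nat.card Y.edgeSet :=
    Nat.card_mono (Set.toFinite _) (SimpleGraph.edgeSet_subset_edgeSet.2 hY1)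
  omega

theorem sum_res_le (T : SimpleGraph V) (hT : T.IsAcyclic) (S : Finset V) (hS : S.Nonempty) :
    ∑ v, dg (res T {v | v ∈ S}) v + 2 ≤ 2 * S.card := by
  have hne : Nonempty {v // v ∈ S} := ⟨⟨hS.choose, hS.choose_spec⟩⟩
  set H : SimpleGraph {v // v ∈ S} := T.comap (Subtype.val) with hH
  have hac : H.IsAcyclic := by
    have := hT.induce {v | v ∈ S}
    exact this
  have h1 := acyc_bound H hac
  have h2 := sum_dg H
  have h3 : ∑ v, dg (res T {v | v ∈ S}) v = ∑ v : {v // v ∈ S}, dg H v := by
    rw [← Finset.sum_subset (Finset.subset_univ S)]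
    · rw [← Finset.sum_coe_sort S]
      apply Finset.sum_congr rfl
      rintro ⟨v, hv⟩ _
      unfold dg
      symm
      apply Finset.card_bij (fun (a : {v // v ∈ S}) _ => a.1)
      · rintro ⟨a, ha⟩ h
        simp only [Finset.mem_filter, Finset.mem_univ, true_and] at h ⊢
        exact ⟨h, hv, ha⟩
      · intro a _ b _ h
        exact Subtype.ext h
      · intro b hb
        simp only [Finset.mem_filter, Finset.mem_univ, true_and] at hb
        exact ⟨⟨b, hb.2.2⟩, by simpa [hH] using hb.1, rfl⟩
    · intro v _ hv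
      unfold dg
      rw [Finset.card_eq_zero, Finset.filter_eq_empty_iff]
      intro u _ h
      exact hv h.2.1
  rw [h3, h2]
  rw [Fintype.card_coe] at h1
  omega

theorem sum_identity (T : SimpleGraph V) (S : Finset V) :
    ∑ v, dg T v + ∑ v, dg (res T {v | v ∈ S}) v =
      ∑ v, dg (res T {v | v ∉ S}) v + 2 * ∑ s ∈ S, dg T s := by
  have e : ∀ H : SimpleGraph V, ∑ v, dg H v = ∑ p : V × V, if H.Adj p.1 p.2 then 1 else 0 := by
    intro H
    rw [Fintype.sum_prod_type]
    apply Finset.sum_congr rfl
    intro v _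
    unfold dg
    rw [Finset.card_filter]
  have e2 : ∑ s ∈ S, dg T s = ∑ p : V × V, if T.Adj p.1 p.2 ∧ p.1 ∈ S then 1 else 0 := by
    rw [Fintype.sum_prod_type, ← Finset.sum_subset (Finset.subset_univ S)]
    · apply Finset.sum_congr rfl
      intro v hv
      unfold dg
      rw [Finset.card_filter]
      simp [hv]
    · intro v _ hv
      simp [hv]
  have e3 : ∑ s ∈ S, dg T s = ∑ p : V × V, if T.Adj p.1 p.2 ∧ p.2 ∈ S then 1 else 0 := by
    rw [e2, ← (Equiv.prodComm V V).sum_comp]
    apply Finset.sum_congr rfl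
    rintro ⟨u, v⟩ _
    simp only [Equiv.prodComm_apply, Prod.swap, T.adj_comm v u]
  have e4 : 2 * ∑ s ∈ S, dg T s = (∑ p : V × V, if T.Adj p.1 p.2 ∧ p.1 ∈ S then 1 else 0) +
      ∑ p : V × V, if T.Adj p.1 p.2 ∧ p.2 ∈ S then 1 else 0 := by
    rw [← e2, ← e3]; ring
  rw [e4, e T, e, e, ← Finset.sum_add_distrib, ← Finset.sum_add_distrib, ← Finset.sum_add_distrib]
  apply Finset.sum_congr rfl
  rintro ⟨u, v⟩ _
  simp only [res_adj, Set.mem_ofPred_eq]
  by_cases h : T.Adj u v <;> by_cases h1 : u ∈ S <;> by_cases h2 : v ∈ S <;> simp [h, h1, h2]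

/-- the components of `T - S` -/
noncomputable def comps (T : SimpleGraph V) (S : Finset V) : Finset (Finset V) :=
  (univ.filter fun x => x ∉ S).image fun x => univ.filter fun u => u ∈ C T S x

theorem count (T : SimpleGraph V) (hT : T.IsTree) (S : Finset V) (hS : S.Nonempty) :
    ∑ s ∈ S, dg T s + 2 ≤ 2 * S.card + (comps T S).card := by
  obtain ⟨s0, hs0⟩ := hS
  have hrep : ∀ X ∈ comps T S, ∃ x, x ∉ S ∧ X = univ.filter fun u => u ∈ C T S x := by
    intro X hX
    unfold comps at hX
    rw [Finset.mem_image] at hX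
    obtain ⟨x, hx, rfl⟩ := hX
    exact ⟨x, by simpa using hx, rfl⟩
  have hne : Nonempty V := ⟨s0⟩
  choose! rep hrep1 hrep2 using hrep
  let E : Set (Sym2 V) := (fun v => s(s0, v)) '' (S.erase s0 : Set V) ∪
    (fun X => s(s0, rep X)) '' (comps T S : Set (Finset V))
  let F : SimpleGraph V := res T {v | v ∉ S} ⊔ SimpleGraph.fromEdgeSet E
  have hF : F.Connected := by
    have key : ∀ v, F.Reachable s0 v := by
      intro v
      by_cases hv : v ∈ S
      · by_cases h : v = s0
        · rw [h]
        · have : F.Adj s0 v := by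
            refine Or.inr ?_
            rw [SimpleGraph.fromEdgeSet_adj]
            refine ⟨Or.inl ⟨v, ?_, rfl⟩, fun h' => h h'.symm⟩
            simp [hv, h]
          exact this.reachable
      · set X := univ.filter fun u => u ∈ C T S v with hX
        have hXc : X ∈ comps T S := by
          unfold comps
          rw [Finset.mem_image]
          exact ⟨v, by simpa using hv, rfl⟩
        have h1 := hrep1 X hXc
        have h2 := hrep2 X hXc
        have h3 : v ∈ C T S (rep X) := by
          have : v ∈ X := by simp [hX, mem_C_self]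
          rw [h2] at this
          simpa using this
        have h4 : F.Adj s0 (rep X) := by
          refine Or.inr ?_
          rw [SimpleGraph.fromEdgeSet_adj]
          refine ⟨Or.inr ⟨X, hXc, rfl⟩, ?_⟩
          rintro h
          exact h1 (h ▸ hs0)
        exact h4.reachable.trans (SimpleGraph.Reachable.mono le_sup_left h3)
    refine SimpleGraph.Connected.mk ?_
    intro u v
    exact (key u).symm.trans (key v)
  have h1 := hF.card_vert_le_card_edgeSet_add_one
  have h2 : Nat.card F.edgeSet ≤ Nat.card (res T {v | v ∉ S}).edgeSet + ((S.card - 1) +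
      (comps T S).card) := by
    have hsub : F.edgeSet ⊆ (res T {v | v ∉ S}).edgeSet ∪ E := by
      intro e he
      rw [SimpleGraph.edgeSet_sup] at he
      rcases he with h | h
      · exact Or.inl h
      · rw [SimpleGraph.edgeSet_fromEdgeSet] at h
        exact Or.inr h.1
    have := Set.ncard_le_ncard hsub (Set.toFinite _)
    have h3 := Set.ncard_union_le (res T {v | v ∉ S}).edgeSet E
    have h4 : E.ncard ≤ (S.card - 1) + (comps T S).card := by
      refine (Set.ncard_union_le _ _).trans ?_
      apply Nat.add_le_add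
      · refine (Set.ncard_image_le (Set.toFinite _)).trans ?_
        rw [Set.ncard_coe_finset, Finset.card_erase_of_mem hs0]
      · refine (Set.ncard_image_le (Set.toFinite _)).trans ?_
        rw [Set.ncard_coe_finset]
    have e1 : Nat.card F.edgeSet = F.edgeSet.ncard := rfl
    have e2 : Nat.card (res T {v | v ∉ S}).edgeSet = (res T {v | v ∉ S}).edgeSet.ncard := rfl
    omega
  have h3 := (SimpleGraph.isTree_iff_connected_and_card.1 hT).2
  have h4 := sum_identity T S
  have h5 := sum_res_le T hT.isAcyclic S ⟨s0, hs0⟩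
  have h6 := sum_dg T
  have h7 := sum_dg (res T {v | v ∉ S})
  have h8 : 0 < S.card := Finset.card_pos.2 ⟨s0, hs0⟩
  omega

variable {G : Type*} [Group G] [MulAction G V]

theorem step (Γ : SimpleGraph V) (hc : Γ.Connected)
    (hinv : ∀ (g : G) u v, Γ.Adj u v → Γ.Adj (g • u) (g • v))
    (htr : ∀ x y : V, ∃ g : G, g • x = y) (K : ℕ) (hK : 4 ≤ K)
    (hex : ∃ T ≤ Γ, T.IsTree ∧ ∀ v, dg T v ≤ K) :
    ∃ T ≤ Γ, T.IsTree ∧ ∀ v, dg T v ≤ K - 1 := by
  -- regular degree
  obtain ⟨x0⟩ := hc.nonempty
  set d := dg Γ x0 with hdd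
  have hd : ∀ v, dg Γ v = d := by
    intro v
    obtain ⟨g, hg⟩ := htr x0 v
    rw [hdd]
    unfold dg
    symm
    apply Finset.card_bij (fun a _ => g • a)
    · intro a ha
      simp only [Finset.mem_filter, Finset.mem_univ, true_and] at ha ⊢
      rw [← hg]
      exact hinv g _ _ ha
    · intro a _ b _ h
      exact MulAction.injective g h
    · intro b hb
      simp only [Finset.mem_filter, Finset.mem_univ, true_and] at hb
      refine ⟨g⁻¹ • b, ?_, by simp⟩
      simp only [Finset.mem_filter, Finset.mem_univ, true_and]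
      have := hinv g⁻¹ _ _ hb
      rw [← hg] at this
      simpa using this
  by_contra hno
  let good : Set (SimpleGraph V) := {T | T ≤ Γ ∧ T.IsTree ∧ ∀ v, dg T v ≤ K}
  let w : SimpleGraph V → ℕ := fun T => (univ.filter fun v => dg T v = K).card
  obtain ⟨T, ⟨hTΓ, hTtree, hTdeg⟩, hmin⟩ := (measure w).wf.has_min good (by
    obtain ⟨T, h1, h2, h3⟩ := hex
    exact ⟨T, h1, h2, h3⟩)
  set W := univ.filter fun v => dg T v = K with hW
  have hWne : W.Nonempty := by
    by_contra h
    rw [Finset.not_nonempty_iff_eq_empty] at h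
    apply hno
    refine ⟨T, hTΓ, hTtree, ?_⟩
    intro v
    have h1 := hTdeg v
    have h2 : v ∉ W := by rw [h]; simp
    rw [hW, Finset.mem_filter] at h2
    have h3 : dg T v ≠ K := fun h' => h2 ⟨Finset.mem_univ _, h'⟩
    omega
  have hT : Adm Γ T K W := by
    refine ⟨hTΓ, hTtree, hTdeg, ?_⟩
    intro v hv
    rw [hW, Finset.mem_filter] at hv
    have h3 : dg T v ≠ K := fun h' => hv ⟨Finset.mem_univ _, h'⟩
    have h1 := hTdeg v
    omega
  -- minimal `S`
  let S0 := univ.filter fun v => K - 1 ≤ dg T v
  let fam : Set (Finset V) := {S | W ⊆ S ∧ S ⊆ S0 ∧ PP Γ T K W S}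
  have hfam : fam.Nonempty := by
    refine ⟨S0, ?_, Finset.Subset.refl _, PP_init⟩
    intro v hv
    rw [hW, Finset.mem_filter] at hv
    simp only [S0, Finset.mem_filter, Finset.mem_univ, true_and]
    omega
  obtain ⟨S, ⟨hWS, hSS0, hP⟩, hSmin⟩ := (measure (fun S : Finset V => S.card)).wf.has_min fam hfam
  have star : ∀ x y, x ∉ S → y ∉ S → Γ.Adj x y → y ∈ C T S x := by
    intro x y hx hy hxy
    by_contra hyx
    obtain ⟨p, hp⟩ := hTtree.connected.exists_isPath x y
    by_cases hW' : ∃ z ∈ p.support, z ∈ W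
    · obtain ⟨z, hzp, hzW⟩ := hW'
      obtain ⟨T3, hA3, _, _, hdg3⟩ := exch (by omega) hP hWS hx hy hxy hyx p hp hzp (hWS hzW)
        (Z := Set.univ) (fun _ _ => Set.mem_univ _) (Set.subset_univ _) (Set.subset_univ _)
        hT (fun _ _ _ => Iff.rfl)
      refine hmin T3 ⟨hA3.le, hA3.tree, hA3.degW⟩ ?_
      change (univ.filter fun v => dg T3 v = K).card < (univ.filter fun v => dg T v = K).card
      apply Finset.card_lt_card
      rw [Finset.ssubset_iff_of_subset]
      · refine ⟨z, hzW, ?_⟩
        rw [Finset.mem_filter]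
        rintro ⟨_, h⟩
        have := hTdeg z
        omega
      · intro v hv
        rw [Finset.mem_filter] at hv
        by_contra h
        have := hA3.deg v h
        omega
    · push Not at hW'
      have hPS := PP_step (by omega) hT hP hWS hx hy hxy hyx p hp hW'
      refine hSmin (S.filter fun v => v ∉ p.support) ⟨?_, ?_, hPS⟩ ?_
      · intro v hv
        rw [Finset.mem_filter]
        exact ⟨hWS hv, fun h => hW' v h hv⟩
      · exact (Finset.filter_subset _ _).trans hSS0
      · change (S.filter fun v => v ∉ p.support).card < S.card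
        apply Finset.card_lt_card
        rw [Finset.filter_ssubset]
        by_contra h
        push Not at h
        apply hyx
        refine reach_of_walk' p ?_
        intro w hw hwS
        exact h w hwS hw
  -- the count
  have hSne : S.Nonempty := hWne.mono hWS
  have c1 := count T hTtree S hSne
  have c2 : (K - 1) * S.card + 1 ≤ ∑ s ∈ S, dg T s := by
    obtain ⟨w0, hw0⟩ := hWne
    have h1 : ∑ s ∈ S, (if s = w0 then K else K - 1) ≤ ∑ s ∈ S, dg T s := by
      apply Finset.sum_le_sum
      intro s hs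
      split_ifs with h
      · rw [h]
        rw [hW, Finset.mem_filter] at hw0
        exact hw0.2.ge
      · have := hSS0 hs
        simp only [S0, Finset.mem_filter, Finset.mem_univ, true_and] at this
        exact this
    have h2 : ∑ s ∈ S, (if s = w0 then K else K - 1) = (K - 1) * S.card + 1 := by
      have h3 : ∀ s ∈ S, (if s = w0 then K else K - 1) = (K - 1) + if s = w0 then 1 else 0 := by
        intro s _
        split_ifs <;> omega
      rw [Finset.sum_congr rfl h3, Finset.sum_add_distrib, Finset.sum_const, smul_eq_mul]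
      rw [Finset.sum_ite_eq' S w0]
      rw [if_pos (hWS hw0)]
      ring
    omega
  have c3 : d * (comps T S).card ≤ d * S.card := by
    have hX : ∀ X ∈ comps T S, d ≤ ∑ p : V × V, if Γ.Adj p.1 p.2 ∧ p.1 ∈ X ∧ p.2 ∈ S then 1 else 0 := by
      intro X hX
      unfold comps at hX
      rw [Finset.mem_image] at hX
      obtain ⟨x, hx, hXx⟩ := hX
      have hxS : x ∉ S := by simpa using hx
      have hxX : x ∈ X := by rw [← hXx]; simp [mem_C_self]
      have hXS : ∀ u ∈ X, u ∉ S ∧ u ∈ C T S x := by
        intro u hu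
        rw [← hXx] at hu
        have : u ∈ C T S x := by simpa using hu
        exact ⟨C_compl hxS this, this⟩
      refine (mader Γ hc hinv htr d hd X ⟨x, hxX⟩ ?_).trans ?_
      · intro h
        obtain ⟨s, hs⟩ := hSne
        exact (hXS s (by rw [h]; simp)).1 hs
      · unfold bd
        apply Finset.sum_le_sum
        rintro ⟨u, v⟩ _
        by_cases h : Γ.Adj u v ∧ u ∈ X ∧ v ∉ X
        · rw [if_pos h, if_pos]
          refine ⟨h.1, h.2.1, ?_⟩
          by_contra hv
          apply h.2.2
          have h1 := star u v (hXS u h.2.1).1 hv h.1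
          rw [← hXx]
          simp only [Finset.mem_filter, Finset.mem_univ, true_and]
          rw [← C_eq (hXS u h.2.1).2]
          exact h1
        · rw [if_neg h]
          exact Nat.zero_le _
    have h1 : d * (comps T S).card ≤
        ∑ X ∈ comps T S, ∑ p : V × V, if Γ.Adj p.1 p.2 ∧ p.1 ∈ X ∧ p.2 ∈ S then 1 else 0 := by
      rw [mul_comm, ← smul_eq_mul, ← Finset.sum_const]
      exact Finset.sum_le_sum hX
    rw [Finset.sum_comm] at h1
    have h2 : ∀ p : V × V, (∑ X ∈ comps T S, if Γ.Adj p.1 p.2 ∧ p.1 ∈ X ∧ p.2 ∈ S then 1 else 0) ≤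
        if Γ.Adj p.2 p.1 ∧ p.2 ∈ S then 1 else 0 := by
      rintro ⟨u, v⟩
      by_cases h : Γ.Adj v u ∧ v ∈ S
      · rw [if_pos h]
        rw [← Finset.card_filter]
        rw [Finset.card_le_one]
        intro X hX Y hY
        rw [Finset.mem_filter] at hX hY
        obtain ⟨hX1, _, hX2, _⟩ := hX
        obtain ⟨hY1, _, hY2, _⟩ := hY
        unfold comps at hX1 hY1
        rw [Finset.mem_image] at hX1 hY1
        obtain ⟨x, _, hXx⟩ := hX1
        obtain ⟨y, _, hYy⟩ := hY1
        have hx : u ∈ C T S x := by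
          rw [← hXx] at hX2
          simpa using hX2
        have hy : u ∈ C T S y := by
          rw [← hYy] at hY2
          simpa using hY2
        rw [← hXx, ← hYy, ← C_eq hx, ← C_eq hy]
      · rw [if_neg h]
        apply le_of_eq
        apply Finset.sum_eq_zero
        intro X _
        rw [if_neg]
        rintro ⟨h1, _, h2⟩
        exact h ⟨h1.symm, h2⟩
    have h3 := h1.trans (Finset.sum_le_sum fun p _ => h2 p)
    refine h3.trans (le_of_eq ?_)
    rw [Fintype.sum_prod_type_right, ← Finset.sum_subset (Finset.subset_univ S)]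
    · rw [mul_comm, ← smul_eq_mul, ← Finset.sum_const]
      apply Finset.sum_congr rfl
      intro s hs
      rw [← hd s]
      unfold dg
      rw [Finset.card_filter]
      apply Finset.sum_congr rfl
      intro u _
      simp [hs]
    · intro v _ hv
      simp [hv]
  have hdpos : 0 < d := by
    obtain ⟨w0, hw0⟩ := hWne
    have h1 : dg T w0 = K := by
      rw [hW, Finset.mem_filter] at hw0
      exact hw0.2
    have h2 : dg T w0 ≤ dg Γ w0 := dg_le_of (fun u h => hTΓ h)
    rw [hd w0] at h2
    omega
  have c4 : (comps T S).card ≤ S.card := Nat.le_of_mul_le_mul_left c3 hdpos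
  have c5 : 3 * S.card ≤ (K - 1) * S.card := Nat.mul_le_mul_right _ (by omega)
  omega

/-- A finite connected graph with a transitive group of automorphisms has a spanning tree of
maximum degree at most three. -/
theorem tree3 (Γ : SimpleGraph V) (hc : Γ.Connected)
    (hinv : ∀ (g : G) u v, Γ.Adj u v → Γ.Adj (g • u) (g • v))
    (htr : ∀ x y : V, ∃ g : G, g • x = y) :
    ∃ T ≤ Γ, T.IsTree ∧ ∀ v, dg T v ≤ 3 := by
  have key : ∀ k : ℕ, (∃ T ≤ Γ, T.IsTree ∧ ∀ v, dg T v ≤ k + 3) →
      ∃ T ≤ Γ, T.IsTree ∧ ∀ v, dg T v ≤ 3 := by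
    intro k
    induction k with
    | zero => intro h; simpa using h
    | succ k ih =>
      intro h
      apply ih
      have := step Γ hc hinv htr (k + 1 + 3) (by omega) h
      simpa using this
  apply key (Fintype.card V)
  obtain ⟨T, h1, h2⟩ := hc.exists_isTree_le
  refine ⟨T, h1, h2, ?_⟩
  intro v
  have : dg T v ≤ Fintype.card V := by
    unfold dg
    exact Finset.card_le_univ _
  omega

end Pool.Agent.R759.HC
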