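import Pool.Agent.R759.RDFrame

/-! # A family of rhombic dodecahedra in `ℝ³` -/

set_option autoImplicit false

namespace Pool.Agent.R759.Hex

open Pool.Agent.R759.RD

/-- the generators `s (q_i + t e_1)` where the `q_i` are the vertices of a regular tetrahedron -/
noncomputable def P (s t : ℝ) : Fin 4 → EuclideanSpace ℝ (Fin 3) :=
  ![s • !₂[1 + t, 1, 1], s • !₂[1 + t, -1, -1], s • !₂[t - 1, 1, -1], s • !₂[t - 1, -1, 1]]

lemma comb (s t : ℝ) (e : Fin 4 → ℝ) : ∑ i, e i • P s t i =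
    s • !₂[(e 0 + e 1) * (1 + t) + (e 2 + e 3) * (t - 1), e 0 - e 1 + e 2 - e 3,
      e 0 - e 1 - e 2 + e 3] := by
  ext k
  rw [Fin.sum_univ_four]
  fin_cases k <;> simp [P] <;> ring

lemma comb_sq (s t : ℝ) (e : Fin 4 → ℝ) : ‖∑ i, e i • P s t i‖ ^ 2 =
    s ^ 2 * (((e 0 + e 1) * (1 + t) + (e 2 + e 3) * (t - 1)) ^ 2 + (e 0 - e 1 + e 2 - e 3) ^ 2 +
      (e 0 - e 1 - e 2 + e 3) ^ 2) := by
  rw [comb, norm_smul, mul_pow, Real.norm_eq_abs, sq_abs, EuclideanSpace.norm_sq_eq,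
    Fin.sum_univ_three]
  simp

/-- one variable: a convex quadratic function on `[-1, 1]` is bounded by its end values -/
lemma quad_le {a b c C x : ℝ} (ha : 0 ≤ a) (hx : |x| ≤ 1) (h1 : a + b + c ≤ C)
    (h2 : a - b + c ≤ C) : a * x ^ 2 + b * x + c ≤ C := by
  have hx' := abs_le.1 hx
  have h3 : x ^ 2 ≤ 1 := by nlinarith [hx'.1, hx'.2]
  have h4 : 0 ≤ a * (1 - x ^ 2) := mul_nonneg ha (by linarith)
  have h5 : 0 ≤ (1 + x) * (C - (a + b + c)) := mul_nonneg (by linarith) (by linarith)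
  have h6 : 0 ≤ (1 - x) * (C - (a - b + c)) := mul_nonneg (by linarith) (by linarith)
  nlinarith

lemma poly_le {t : ℝ} (ht0 : 0 ≤ t) (ht : t ≤ 2 / 5) (x y z w : ℝ) (hx : |x| ≤ 1) (hy : |y| ≤ 1)
    (hz : |z| ≤ 1) (hw : |w| ≤ 1) :
    ((x + y) * (1 + t) + (z + w) * (t - 1)) ^ 2 + (x - y + z - w) ^ 2 +
      (x - y - z + w) ^ 2 ≤ 16 := by
  have h4 : ∀ x y z : ℝ, (x = 1 ∨ x = -1) → (y = 1 ∨ y = -1) → (z = 1 ∨ z = -1) →
      ((x + y) * (1 + t) + (z + w) * (t - 1)) ^ 2 + (x - y + z - w) ^ 2 +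
      (x - y - z + w) ^ 2 ≤ 16 := by
    intro x y z hx hy hz
    have e : ((x + y) * (1 + t) + (z + w) * (t - 1)) ^ 2 + (x - y + z - w) ^ 2 +
      (x - y - z + w) ^ 2 = ((t - 1) ^ 2 + 2) * w ^ 2 +
        (2 * (t - 1) * ((x + y) * (1 + t) + z * (t - 1)) - 4 * z) * w +
        (((x + y) * (1 + t) + z * (t - 1)) ^ 2 + (x - y + z) ^ 2 + (x - y - z) ^ 2) := by ring
    rw [e]
    refine quad_le (by positivity) hw ?_ ?_ <;>
    rcases hx with rfl | rfl <;> rcases hy with rfl | rfl <;> rcases hz with rfl | rfl <;>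
      nlinarith
  have h3 : ∀ x y : ℝ, (x = 1 ∨ x = -1) → (y = 1 ∨ y = -1) →
      ((x + y) * (1 + t) + (z + w) * (t - 1)) ^ 2 + (x - y + z - w) ^ 2 +
      (x - y - z + w) ^ 2 ≤ 16 := by
    intro x y hx hy
    have e : ((x + y) * (1 + t) + (z + w) * (t - 1)) ^ 2 + (x - y + z - w) ^ 2 +
      (x - y - z + w) ^ 2 = ((t - 1) ^ 2 + 2) * z ^ 2 +
        (2 * (t - 1) * ((x + y) * (1 + t) + w * (t - 1)) - 4 * w) * z +
        (((x + y) * (1 + t) + w * (t - 1)) ^ 2 + (x - y - w) ^ 2 + (x - y + w) ^ 2) := by ring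
    rw [e]
    refine quad_le (by positivity) hz ?_ ?_
    · have := h4 x y 1 hx hy (Or.inl rfl)
      nlinarith
    · have := h4 x y (-1) hx hy (Or.inr rfl)
      nlinarith
  have h2 : ∀ x : ℝ, (x = 1 ∨ x = -1) →
      ((x + y) * (1 + t) + (z + w) * (t - 1)) ^ 2 + (x - y + z - w) ^ 2 +
      (x - y - z + w) ^ 2 ≤ 16 := by
    intro x hx
    have e : ((x + y) * (1 + t) + (z + w) * (t - 1)) ^ 2 + (x - y + z - w) ^ 2 +
      (x - y - z + w) ^ 2 = ((1 + t) ^ 2 + 2) * y ^ 2 +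
        (2 * (1 + t) * (x * (1 + t) + (z + w) * (t - 1)) - 4 * x) * y +
        ((x * (1 + t) + (z + w) * (t - 1)) ^ 2 + (x + z - w) ^ 2 + (x - z + w) ^ 2) := by ring
    rw [e]
    refine quad_le (by positivity) hy ?_ ?_
    · have := h3 x 1 hx (Or.inl rfl)
      nlinarith
    · have := h3 x (-1) hx (Or.inr rfl)
      nlinarith
  have e : ((x + y) * (1 + t) + (z + w) * (t - 1)) ^ 2 + (x - y + z - w) ^ 2 +
      (x - y - z + w) ^ 2 = ((1 + t) ^ 2 + 2) * x ^ 2 +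
        (2 * (1 + t) * (y * (1 + t) + (z + w) * (t - 1)) - 4 * y) * x +
        ((y * (1 + t) + (z + w) * (t - 1)) ^ 2 + (-y + z - w) ^ 2 + (-y - z + w) ^ 2) := by ring
  rw [e]
  refine quad_le (by positivity) hx ?_ ?_
  · have := h2 1 (Or.inl rfl)
    nlinarith
  · have := h2 (-1) (Or.inr rfl)
    nlinarith

lemma norm_comb_le {s t : ℝ} (hs : 0 ≤ s) (ht0 : 0 ≤ t) (ht : t ≤ 2 / 5) (e : Fin 4 → ℝ)
    (he : ∀ i, |e i| ≤ 1) : ‖∑ i, e i • P s t i‖ ≤ 4 * s := by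
  have h1 := comb_sq s t e
  have h2 := poly_le ht0 ht (e 0) (e 1) (e 2) (e 3) (he 0) (he 1) (he 2) (he 3)
  have h3 : ‖∑ i, e i • P s t i‖ ^ 2 ≤ (4 * s) ^ 2 := by
    rw [h1]
    calc _ ≤ s ^ 2 * 16 := mul_le_mul_of_nonneg_left h2 (sq_nonneg _)
      _ = _ := by ring
  exact (pow_le_pow_iff_left₀ (norm_nonneg _) (by positivity) two_ne_zero).1 h3

end Pool.Agent.R759.Hex
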