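import Mathlib

/-! # Zonotopes with `n` generators, intrinsic volumes, mean width, regular rhombic dodecahedra -/

set_option autoImplicit false

namespace Pool.Agent.R759.RD

/-- The zonotope `∑ [o, p_i]`. -/
def zonotope {d n : ℕ} (p : Fin n → EuclideanSpace ℝ (Fin d)) : Set (EuclideanSpace ℝ (Fin d)) :=
  {x | ∃ t : Fin n → ℝ, (∀ i, 0 ≤ t i ∧ t i ≤ 1) ∧ x = ∑ i, t i • p i}

/-- `|p_{i₁} ∧ ⋯ ∧ p_{i_k}|` for `I = {i₁, …, i_k}`: the `k`-volume of the parallelotope spanned by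
the vectors `p_i`, `i ∈ I`, that is, the square root of their Gram determinant. -/
noncomputable def wedge {d n : ℕ} (p : Fin n → EuclideanSpace ℝ (Fin d)) (I : Finset (Fin n)) : ℝ :=
  Real.sqrt (Matrix.det (Matrix.of fun i j : I => (inner ℝ (p i) (p j) : ℝ)))

/-- The `k`-th intrinsic volume of the zonotope `∑ [o, p_i]`:
`V_k = ∑_{i₁ < ⋯ < i_k} |p_{i₁} ∧ ⋯ ∧ p_{i_k}|`. -/
noncomputable def V {d n : ℕ} (k : ℕ) (p : Fin n → EuclideanSpace ℝ (Fin d)) : ℝ :=
  ∑ I ∈ Finset.powersetCard k Finset.univ, wedge p I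

/-- `κ_m`, the volume of the `m`-dimensional unit ball. -/
noncomputable def kappa (m : ℕ) : ℝ :=
  (MeasureTheory.volume (Metric.ball (0 : EuclideanSpace ℝ (Fin m)) 1)).toReal

/-- The mean width `w = 2 κ_{d-1} / (d κ_d) V₁` of the zonotope `∑ [o, p_i]`. -/
noncomputable def meanWidth {d n : ℕ} (p : Fin n → EuclideanSpace ℝ (Fin d)) : ℝ :=
  2 * kappa (d - 1) / (d * kappa d) * V 1 p

/-- `q₁, …, q_{d+1}` are the vertices of a regular simplex centred at the origin. -/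
def IsRegularSimplex {d : ℕ} (q : Fin (d + 1) → EuclideanSpace ℝ (Fin d)) : Prop :=
  ∑ i, q i = 0 ∧ ∃ s : ℝ, 0 < s ∧ ∀ i j, i ≠ j → dist (q i) (q j) = s

/-- `Z` is a regular rhombic dodecahedron in `ℝ^d`: a translate of `∑ [o, q_i]`, where
`q₁, …, q_{d+1}` are the vertices of a regular simplex centred at the origin. -/
def IsRegularRD {d : ℕ} (Z : Set (EuclideanSpace ℝ (Fin d))) : Prop :=
  ∃ (q : Fin (d + 1) → EuclideanSpace ℝ (Fin d)) (a : EuclideanSpace ℝ (Fin d)),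
    IsRegularSimplex q ∧ Z = (fun x => a + x) '' zonotope q

end Pool.Agent.R759.RD
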