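import Pool.Agent.H354R3.ZN.All
import Pool.Agent.R759.RDDefs

/-! # The volume of a zonotope `∑ [o, p_i]` -/

set_option autoImplicit false

namespace Pool.Agent.R759.RD

open MeasureTheory
open scoped Pointwise

lemma isCompact_zonotope {d n : ℕ} (p : Fin n → EuclideanSpace ℝ (Fin d)) :
    IsCompact (zonotope p) := by
  have h : zonotope p = (fun t : Fin n → ℝ => ∑ j, t j • p j) ''
      (Set.univ.pi fun _ => Set.Icc (0 : ℝ) 1) := by
    ext x
    constructor
    · rintro ⟨t, ht, rfl⟩
      exact ⟨t, fun j _ => ht j, rfl⟩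
    · rintro ⟨t, ht, rfl⟩
      exact ⟨t, fun j => ht j (Set.mem_univ j), rfl⟩
  rw [h]
  refine (isCompact_univ_pi fun _ => isCompact_Icc).image ?_
  exact continuous_finsetSum _ fun j _ => (continuous_apply j).smul continuous_const

theorem volume_zonotope {m n : ℕ} (p : Fin n → EuclideanSpace ℝ (Fin (m + 1)))
    (hD : 0 < H354ZN.Dt fun i => (p i).ofLp) :
    volume (zonotope p) = ENNReal.ofReal (H354ZN.Dt fun i => (p i).ofLp) := by
  set z : Fin n → Fin (m + 1) → ℝ := fun i => (p i).ofLp with hz
  have h1 : volume.real (H354ZN.Zon z) = 2 ^ (m + 1) * H354ZN.Dt z :=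
    le_antisymm (H354ZN.a_VOL m n z hD) (H354ZN.a_TILE m n z)
  have hfin : volume (H354ZN.Zon z) ≠ ⊤ := (H354ZN.VOL_compact z).measure_lt_top.ne
  have h2 : volume (H354ZN.Zon z) = ENNReal.ofReal (2 ^ (m + 1) * H354ZN.Dt z) := by
    rw [← h1, Measure.real, ENNReal.ofReal_toReal hfin]
  have h3 : (WithLp.toLp 2) ⁻¹' (zonotope p) =
      (fun y => (∑ i, (1 / 2 : ℝ) • z i) + y) '' ((1 / 2 : ℝ) • H354ZN.Zon z) := by
    ext y
    constructor
    · rintro ⟨t, ht, hy⟩
      refine ⟨(1 / 2 : ℝ) • ∑ j, (2 * t j - 1) • z j, Set.smul_mem_smul_set ⟨_, fun j => ?_, rfl⟩, ?_⟩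
      · rw [abs_le]
        constructor <;> linarith [(ht j).1, (ht j).2]
      · have hy' : y = ∑ i, t i • z i := by
          have := congrArg WithLp.ofLp hy
          simpa [hz] using this
        rw [hy']
        simp only
        rw [Finset.smul_sum, ← Finset.sum_add_distrib]
        refine Finset.sum_congr rfl fun i _ => ?_
        rw [smul_smul, ← add_smul]
        congr 1
        ring
    · rintro ⟨_, ⟨_, ⟨t, ht, rfl⟩, rfl⟩, rfl⟩
      refine ⟨fun i => (t i + 1) / 2, fun i => ?_, ?_⟩
      · have := abs_le.1 (ht i)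
        constructor <;> linarith [this.1, this.2]
      · apply (WithLp.equiv 2 (Fin (m + 1) → ℝ)).injective
        simp only [WithLp.equiv_apply]
        rw [WithLp.ofLp_sum]
        simp only [WithLp.ofLp_smul]
        rw [Finset.smul_sum, ← Finset.sum_add_distrib]
        refine Finset.sum_congr rfl fun i _ => ?_
        rw [smul_smul, ← add_smul]
        congr 1
        ring
  rw [← (PiLp.volume_preserving_toLp (Fin (m + 1))).measure_preimage
    (isCompact_zonotope p).measurableSet.nullMeasurableSet, h3, Set.image_add_left,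
    measure_preimage_add, Measure.addHaar_smul, h2, ← ENNReal.ofReal_mul (abs_nonneg _)]
  congr 1
  rw [Module.finrank_fin_fun, abs_of_nonneg (by positivity), ← mul_assoc, ← mul_pow]
  norm_num

end Pool.Agent.R759.RD
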