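import Pool.Agent.R759.Hex
import Pool.Agent.R759.ZonVol

/-! # Circumradius, volume and irregularity of the family -/

set_option autoImplicit false

namespace Pool.Agent.R759.Hex

open Pool.Agent.R759.RD MeasureTheory

/-- the circumradius: the radius of the smallest closed ball containing `Z` -/
noncomputable def circumradius {d : ℕ} (Z : Set (EuclideanSpace ℝ (Fin d))) : ℝ :=
  sInf {r : ℝ | 0 ≤ r ∧ ∃ c, Z ⊆ Metric.closedBall c r}

/-- differences of points of a zonotope -/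
lemma sub_mem {d n : ℕ} {p : Fin n → EuclideanSpace ℝ (Fin d)} {x y : EuclideanSpace ℝ (Fin d)}
    (hx : x ∈ zonotope p) (hy : y ∈ zonotope p) :
    ∃ e : Fin n → ℝ, (∀ i, |e i| ≤ 1) ∧ x - y = ∑ i, e i • p i := by
  obtain ⟨t, ht, rfl⟩ := hx
  obtain ⟨t', ht', rfl⟩ := hy
  refine ⟨fun i => t i - t' i, fun i => ?_, ?_⟩
  · rw [abs_le]
    constructor <;> linarith [(ht i).1, (ht i).2, (ht' i).1, (ht' i).2]
  · rw [← Finset.sum_sub_distrib]
    exact Finset.sum_congr rfl fun i _ => by rw [sub_smul]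

/-- the extreme difference in a direction -/
lemma exists_width {d n : ℕ} (p : Fin n → EuclideanSpace ℝ (Fin d)) (u : EuclideanSpace ℝ (Fin d)) :
    ∃ x ∈ zonotope p, ∃ y ∈ zonotope p, inner ℝ u (x - y) = ∑ i, |inner ℝ u (p i)| := by
  classical
  refine ⟨∑ i, (if 0 ≤ (inner ℝ u (p i) : ℝ) then (1 : ℝ) else 0) • p i, ⟨_, fun i => ?_, rfl⟩,
    ∑ i, (if 0 ≤ (inner ℝ u (p i) : ℝ) then (0 : ℝ) else 1) • p i, ⟨_, fun i => ?_, rfl⟩, ?_⟩
  · split_ifs <;> norm_num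
  · split_ifs <;> norm_num
  · rw [← Finset.sum_sub_distrib, inner_sum]
    refine Finset.sum_congr rfl fun i _ => ?_
    rw [← sub_smul, inner_smul_right]
    split_ifs with h
    · rw [abs_of_nonneg h]; ring
    · rw [abs_of_neg (not_le.1 h)]; ring

lemma circumradius_P {s t : ℝ} (hs : 0 < s) (ht0 : 0 ≤ t) (ht : t ≤ 2 / 5) :
    circumradius (zonotope (P s t)) = 2 * s := by
  refine IsLeast.csInf_eq ⟨⟨by positivity, ∑ i, (1 / 2 : ℝ) • P s t i, ?_⟩, ?_⟩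
  · rintro _ ⟨a, ha, rfl⟩
    rw [Metric.mem_closedBall, dist_eq_norm, ← Finset.sum_sub_distrib]
    have e : ∑ i, (a i • P s t i - (1 / 2 : ℝ) • P s t i) =
        (1 / 2 : ℝ) • ∑ i, (2 * a i - 1) • P s t i := by
      rw [Finset.smul_sum]
      refine Finset.sum_congr rfl fun i _ => ?_
      rw [smul_smul, ← sub_smul]
      congr 1
      ring
    rw [e, norm_smul]
    have := norm_comb_le hs.le ht0 ht (fun i => 2 * a i - 1) fun i => by
      rw [abs_le]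
      constructor <;> linarith [(ha i).1, (ha i).2]
    rw [Real.norm_of_nonneg (by norm_num)]
    linarith
  · rintro r ⟨hr, c, hc⟩
    have h1 : ∑ i, (![1, 1, 0, 0] : Fin 4 → ℝ) i • P s t i ∈ zonotope (P s t) :=
      ⟨_, fun i => by fin_cases i <;> norm_num, rfl⟩
    have h2 : ∑ i, (![0, 0, 1, 1] : Fin 4 → ℝ) i • P s t i ∈ zonotope (P s t) :=
      ⟨_, fun i => by fin_cases i <;> norm_num, rfl⟩
    have h3 := hc h1
    have h4 := hc h2
    rw [Metric.mem_closedBall] at h3 h4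
    have h5 := dist_triangle_right (∑ i, (![1, 1, 0, 0] : Fin 4 → ℝ) i • P s t i)
      (∑ i, (![0, 0, 1, 1] : Fin 4 → ℝ) i • P s t i) c
    have h6 : dist (∑ i, (![1, 1, 0, 0] : Fin 4 → ℝ) i • P s t i)
      (∑ i, (![0, 0, 1, 1] : Fin 4 → ℝ) i • P s t i) = 4 * s := by
      rw [dist_eq_norm, ← Finset.sum_sub_distrib]
      have e : ∑ i, ((![1, 1, 0, 0] : Fin 4 → ℝ) i • P s t i -
          (![0, 0, 1, 1] : Fin 4 → ℝ) i • P s t i) =
          ∑ i, (![1, 1, -1, -1] : Fin 4 → ℝ) i • P s t i := by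
        refine Finset.sum_congr rfl fun i _ => ?_
        rw [← sub_smul]
        congr 1
        fin_cases i <;> norm_num
      rw [e, ← Real.sqrt_sq (norm_nonneg _), comb_sq]
      have e2 : s ^ 2 * ((((![1, 1, -1, -1] : Fin 4 → ℝ) 0 + (![1, 1, -1, -1] : Fin 4 → ℝ) 1) *
          (1 + t) + ((![1, 1, -1, -1] : Fin 4 → ℝ) 2 + (![1, 1, -1, -1] : Fin 4 → ℝ) 3) *
          (t - 1)) ^ 2 + ((![1, 1, -1, -1] : Fin 4 → ℝ) 0 - (![1, 1, -1, -1] : Fin 4 → ℝ) 1 +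
          (![1, 1, -1, -1] : Fin 4 → ℝ) 2 - (![1, 1, -1, -1] : Fin 4 → ℝ) 3) ^ 2 +
          ((![1, 1, -1, -1] : Fin 4 → ℝ) 0 - (![1, 1, -1, -1] : Fin 4 → ℝ) 1 -
          (![1, 1, -1, -1] : Fin 4 → ℝ) 2 + (![1, 1, -1, -1] : Fin 4 → ℝ) 3) ^ 2) =
          (4 * s) ^ 2 := by
        simp
        ring
      rw [e2, Real.sqrt_sq (by positivity)]
    linarith

lemma regular_P {s : ℝ} (hs : 0 < s) : IsRegularSimplex (P s 0) := by
  refine ⟨?_, Real.sqrt 8 * s, by positivity, ?_⟩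
  · have h := comb s 0 fun _ => 1
    simp only [one_smul] at h
    rw [h]
    ext k
    fin_cases k <;> simp
  · intro i j hij
    rw [dist_eq_norm, ← Real.sqrt_sq (norm_nonneg _), ← Real.sqrt_sq (by positivity : 0 ≤ Real.sqrt 8 * s)]
    congr 1
    rw [mul_pow, Real.sq_sqrt (by norm_num), EuclideanSpace.norm_sq_eq, Fin.sum_univ_three]
    fin_cases i <;> fin_cases j <;> simp at hij ⊢ <;> simp [P] <;> ring

/-- diameter of a regular rhombic dodecahedron in `ℝ³` -/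
lemma regular_comb_sq {q : Fin 4 → EuclideanSpace ℝ (Fin 3)} {r : ℝ} (hn : ∀ i, ‖q i‖ = r)
    (hg : ∀ i j, i ≠ j → (inner ℝ (q i) (q j) : ℝ) = -(r ^ 2 / (3 : ℕ))) (e : Fin 4 → ℝ)
    (he : ∀ i, |e i| ≤ 1) : 3 * ‖∑ i, e i • q i‖ ^ 2 ≤ 16 * r ^ 2 := by
  have h1 : ‖∑ i, e i • q i‖ ^ 2 = r ^ 2 / 3 * (4 * (e 0 ^ 2 + e 1 ^ 2 + e 2 ^ 2 + e 3 ^ 2) -
      (e 0 + e 1 + e 2 + e 3) ^ 2) := by
    rw [← real_inner_self_eq_norm_sq, sum_inner]
    simp_rw [inner_sum, real_inner_smul_left, real_inner_smul_right]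
    have hs : ∀ i, (inner ℝ (q i) (q i) : ℝ) = r ^ 2 := fun i => by
      rw [real_inner_self_eq_norm_sq, hn]
    simp only [Fin.sum_univ_four, hs]
    rw [hg 0 1 (by decide), hg 0 2 (by decide), hg 0 3 (by decide), hg 1 0 (by decide),
      hg 1 2 (by decide), hg 1 3 (by decide), hg 2 0 (by decide), hg 2 1 (by decide),
      hg 2 3 (by decide), hg 3 0 (by decide), hg 3 1 (by decide), hg 3 2 (by decide)]
    push_cast
    ring
  have h2 : ∀ i, e i ^ 2 ≤ 1 := fun i => by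
    have := he i
    rw [← sq_abs]
    exact pow_le_one₀ (abs_nonneg _) this
  have h3 : 4 * (e 0 ^ 2 + e 1 ^ 2 + e 2 ^ 2 + e 3 ^ 2) - (e 0 + e 1 + e 2 + e 3) ^ 2 ≤ 16 := by
    linarith [h2 0, h2 1, h2 2, h2 3, sq_nonneg (e 0 + e 1 + e 2 + e 3)]
  rw [h1]
  nlinarith [sq_nonneg r]

/-- minimal width of a regular rhombic dodecahedron in `ℝ³` -/
lemma regular_width {q : Fin 4 → EuclideanSpace ℝ (Fin 3)} {r : ℝ} (hr : 0 < r)
    (hq0 : ∑ i, q i = 0) (hn : ∀ i, ‖q i‖ = r)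
    (hg : ∀ i j, i ≠ j → (inner ℝ (q i) (q j) : ℝ) = -(r ^ 2 / (3 : ℕ)))
    (u : EuclideanSpace ℝ (Fin 3)) :
    8 * r ^ 2 * ‖u‖ ^ 2 ≤ 3 * (∑ i, |inner ℝ u (q i)|) ^ 2 := by
  have hf := IsRegularSimplex.frame (d := 3) (by norm_num) hr hn hg
  have h1 : ∑ i, (inner ℝ u (q i) : ℝ) ^ 2 = 4 * r ^ 2 / 3 * ‖u‖ ^ 2 := by
    have h2 : ∀ i, (inner ℝ u (q i) : ℝ) = ∑ j, u j * q i j := by
      intro i
      rw [PiLp.inner_apply]
      exact Finset.sum_congr rfl fun j _ => by simp [mul_comm]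
    simp_rw [h2, EuclideanSpace.norm_sq_eq]
    have h3 : ∀ i, (∑ j, u j * q i j) ^ 2 = ∑ j, ∑ k, u j * u k * (q i j * q i k) := by
      intro i
      rw [sq, Finset.sum_mul_sum]
      exact Finset.sum_congr rfl fun j _ => Finset.sum_congr rfl fun k _ => by ring
    simp_rw [h3]
    rw [Finset.sum_comm]
    simp_rw [Finset.sum_comm (s := (Finset.univ : Finset (Fin 4))), ← Finset.mul_sum, hf]
    simp only [Fin.sum_univ_three, Real.norm_eq_abs, sq_abs]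
    simp
    ring
  have h0 : ∑ i, (inner ℝ u (q i) : ℝ) = 0 := by
    rw [← inner_sum, hq0, inner_zero_right]
  obtain ⟨a, ha⟩ : ∃ a : Fin 4 → ℝ, a = fun i => (inner ℝ u (q i) : ℝ) := ⟨_, rfl⟩
  have ha' : ∀ i, (inner ℝ u (q i) : ℝ) = a i := fun i => by rw [ha]
  simp_rw [ha'] at h1 h0 ⊢
  have key : 2 * ∑ i, a i ^ 2 ≤ (∑ i, |a i|) ^ 2 := by
    -- positive and negative parts
    set S := ∑ i, |a i| with hS
    have h4 : ∑ i, (|a i| + a i) = S := by rw [Finset.sum_add_distrib, h0, add_zero]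
    have h5 : ∑ i, (|a i| - a i) = S := by rw [Finset.sum_sub_distrib, h0, sub_zero]
    have h6 : ∑ i, (|a i| + a i) ^ 2 ≤ S ^ 2 := by
      rw [← h4]
      exact Finset.sum_sq_le_sq_sum_of_nonneg fun i _ => by linarith [neg_abs_le (a i)]
    have h7 : ∑ i, (|a i| - a i) ^ 2 ≤ S ^ 2 := by
      rw [← h5]
      exact Finset.sum_sq_le_sq_sum_of_nonneg fun i _ => by linarith [le_abs_self (a i)]
    have h8 : ∑ i, (|a i| + a i) ^ 2 + ∑ i, (|a i| - a i) ^ 2 = 4 * ∑ i, a i ^ 2 := by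
      rw [← Finset.sum_add_distrib, Finset.mul_sum]
      refine Finset.sum_congr rfl fun i _ => ?_
      have : |a i| ^ 2 = a i ^ 2 := sq_abs _
      linear_combination 2 * this
    linarith
  rw [h1] at key
  linarith

/-- for `t ≠ 0` the zonotope is not regular -/
lemma not_regular_P {s t : ℝ} (hs : 0 < s) (ht0 : 0 < t) (ht : t ≤ 2 / 5) :
    ¬ IsRegularRD (zonotope (P s t)) := by
  rintro ⟨q, a, hq, hZ⟩
  obtain ⟨r, hr, hn, hg⟩ := hq.gram (by norm_num)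
  -- the length of the generators, from the diameter
  have h1 : 3 * s ^ 2 ≤ r ^ 2 := by
    have h1 : ∑ i, (![1, 1, 0, 0] : Fin 4 → ℝ) i • P s t i ∈ zonotope (P s t) :=
      ⟨_, fun i => by fin_cases i <;> norm_num, rfl⟩
    have h2 : ∑ i, (![0, 0, 1, 1] : Fin 4 → ℝ) i • P s t i ∈ zonotope (P s t) :=
      ⟨_, fun i => by fin_cases i <;> norm_num, rfl⟩
    have h6 : ‖(∑ i, (![1, 1, 0, 0] : Fin 4 → ℝ) i • P s t i) -
      (∑ i, (![0, 0, 1, 1] : Fin 4 → ℝ) i • P s t i)‖ ^ 2 = 16 * s ^ 2 := by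
      rw [← Finset.sum_sub_distrib]
      have e : ∑ i, ((![1, 1, 0, 0] : Fin 4 → ℝ) i • P s t i -
          (![0, 0, 1, 1] : Fin 4 → ℝ) i • P s t i) =
          ∑ i, (![1, 1, -1, -1] : Fin 4 → ℝ) i • P s t i := by
        refine Finset.sum_congr rfl fun i _ => ?_
        rw [← sub_smul]
        congr 1
        fin_cases i <;> norm_num
      rw [e, comb_sq]
      simp
      ring
    rw [hZ] at h1 h2
    obtain ⟨x, hx, hx'⟩ := h1
    obtain ⟨y, hy, hy'⟩ := h2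
    rw [← hx', ← hy'] at h6
    simp only [add_sub_add_left_eq_sub] at h6
    obtain ⟨e, he, hxy⟩ := sub_mem hx hy
    rw [hxy] at h6
    have h7 := regular_comb_sq hn hg e he
    rw [h6] at h7
    linarith
  -- the width in the direction (1, 1, t)
  have h2 := regular_width hr hq.1 hn hg !₂[1, 1, t]
  obtain ⟨x, hx, y, hy, hxy⟩ := exists_width q !₂[1, 1, t]
  have hx' : a + x ∈ zonotope (P s t) := by rw [hZ]; exact ⟨x, hx, rfl⟩
  have hy' : a + y ∈ zonotope (P s t) := by rw [hZ]; exact ⟨y, hy, rfl⟩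
  obtain ⟨e, he, hxy'⟩ := sub_mem hx' hy'
  rw [add_sub_add_left_eq_sub] at hxy'
  have h3 : (inner ℝ (!₂[1, 1, t] : EuclideanSpace ℝ (Fin 3)) (x - y) : ℝ) ≤ 4 * s := by
    rw [hxy', comb, real_inner_smul_right, PiLp.inner_apply, Fin.sum_univ_three]
    simp
    have he' := fun i => abs_le.1 (he i)
    have e0 := he' 0
    have e1 := he' 1
    have e2 := he' 2
    have e3 := he' 3
    have h4 : (e 0 + e 1) * (1 + t) + (e 2 + e 3) * (t - 1) + (e 0 - e 1 + e 2 - e 3) +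
        (e 0 - e 1 - e 2 + e 3) * t ≤ 4 := by
      nlinarith [e0.1, e0.2, e3.1, e3.2, mul_nonneg ht0.le (sub_nonneg.2 e0.2)]
    calc _ ≤ s * 4 := by
          refine mul_le_mul_of_nonneg_left ?_ hs.le
          linarith
      _ = 4 * s := by ring
  have h5 : ‖(!₂[1, 1, t] : EuclideanSpace ℝ (Fin 3))‖ ^ 2 = 2 + t ^ 2 := by
    rw [EuclideanSpace.norm_sq_eq, Fin.sum_univ_three]
    simp
    norm_num
  rw [hxy] at h3
  rw [h5] at h2
  have h6 : (∑ i, |inner ℝ (!₂[1, 1, t] : EuclideanSpace ℝ (Fin 3)) (q i)|) ^ 2 ≤ (4 * s) ^ 2 :=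
    pow_le_pow_left₀ (Finset.sum_nonneg fun i _ => abs_nonneg _) h3 2
  have h7 : 0 < t ^ 2 := by positivity
  have h8 : 0 < s ^ 2 := by positivity
  nlinarith

end Pool.Agent.R759.Hex
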