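import Pool.Agent.R759.HexMain

/-! # The volume of the family -/

set_option autoImplicit false

namespace Pool.Agent.R759.Hex

open Pool.Agent.R759.RD MeasureTheory H354ZN

lemma DD_of {n : ℕ} (z : Fin n → Fin 3 → ℝ) (A : Finset (Fin n)) (f : Fin 3 → Fin n)
    (hf : StrictMono f) (hA : ∀ i, f i ∈ A) (h : A.card = 3) :
    DD (m := 2) z A = |Matrix.det (Matrix.of fun i => z (f i))| := by
  unfold DD
  rw [dif_pos h]
  have := Finset.orderEmbOfFin_unique h hA hf
  rw [← this]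

lemma Dt_P (s t : ℝ) (hs : 0 ≤ s) (ht0 : 0 ≤ t) (ht : t ≤ 2 / 5) :
    Dt (m := 2) (fun i => (P s t i).ofLp) = 16 * s ^ 3 := by
  unfold Dt Ps
  have h1 : Finset.powersetCard (2 + 1) (Finset.univ : Finset (Fin 4)) =
      {{0, 1, 2}, {0, 1, 3}, {0, 2, 3}, {1, 2, 3}} := by decide
  rw [h1, Finset.sum_insert (by decide), Finset.sum_insert (by decide),
    Finset.sum_insert (by decide), Finset.sum_singleton]
  rw [DD_of _ {0, 1, 2} ![0, 1, 2] (by decide) (by decide) (by decide),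
    DD_of _ {0, 1, 3} ![0, 1, 3] (by decide) (by decide) (by decide),
    DD_of _ {0, 2, 3} ![0, 2, 3] (by decide) (by decide) (by decide),
    DD_of _ {1, 2, 3} ![1, 2, 3] (by decide) (by decide) (by decide)]
  simp only [Matrix.det_fin_three, Matrix.of_apply, P]
  simp
  have e1 : s * (1 + t) * s * s + s * (1 + t) * s * s + s * (1 + t) * s * s
    + s * (t - 1) * (s * s) = s * (1 + t) * s * s + s * (1 + t) * s * s + s * (1 + t) * s * s
    + s * (t - 1) * (s * s) := rfl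
  have h2 : ∀ x : ℝ, x = 4 * (1 + t) * s ^ 3 → |x| = 4 * (1 + t) * s ^ 3 := fun x hx => by
    rw [hx]; exact abs_of_nonneg (by positivity)
  have h2' : ∀ x : ℝ, x = -(4 * (1 + t) * s ^ 3) → |x| = 4 * (1 + t) * s ^ 3 := fun x hx => by
    rw [hx, abs_neg]; exact abs_of_nonneg (by positivity)
  have hpos : 0 ≤ 4 * (1 - t) * s ^ 3 := by
    have : 0 ≤ 1 - t := by linarith
    positivity
  have h3 : ∀ x : ℝ, x = 4 * (1 - t) * s ^ 3 → |x| = 4 * (1 - t) * s ^ 3 := fun x hx => by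
    rw [hx]; exact abs_of_nonneg hpos
  have h3' : ∀ x : ℝ, x = -(4 * (1 - t) * s ^ 3) → |x| = 4 * (1 - t) * s ^ 3 := fun x hx => by
    rw [hx, abs_neg]; exact abs_of_nonneg hpos
  rw [h2 _ (by ring), h2' _ (by ring), h3 _ (by ring), h3' _ (by ring)]
  ring

theorem volume_P (s t : ℝ) (hs : 0 < s) (ht0 : 0 ≤ t) (ht : t ≤ 2 / 5) :
    volume (zonotope (P s t)) = ENNReal.ofReal (16 * s ^ 3) := by
  rw [← Dt_P s t hs.le ht0 ht]
  refine volume_zonotope (m := 2) _ ?_
  rw [Dt_P s t hs.le ht0 ht]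
  positivity

end Pool.Agent.R759.Hex
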