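import Mathlib

/-! # Maclaurin's inequality (first mean against the `k`-th mean) with the equality case -/

set_option autoImplicit false

namespace Pool.Agent.R759

open Finset

/-- elementary symmetric function of the family `x` over the index set `s` -/
noncomputable def ES {ι : Type*} (s : Finset ι) (k : ℕ) (x : ι → ℝ) : ℝ :=
  ∑ t ∈ s.powersetCard k, ∏ i ∈ t, x i

section
variable {ι : Type*} [DecidableEq ι]

lemma ES_zero (s : Finset ι) (x : ι → ℝ) : ES s 0 x = 1 := by
  simp [ES]

lemma ES_nonneg (s : Finset ι) (k : ℕ) (x : ι → ℝ) (hx : ∀ i ∈ s, 0 ≤ x i) : 0 ≤ ES s k x := by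
  refine sum_nonneg fun t ht => prod_nonneg fun i hi => hx i ?_
  exact (mem_powersetCard.1 ht).1 hi

lemma ES_insert {s : Finset ι} {a : ι} (ha : a ∉ s) (k : ℕ) (x : ι → ℝ) :
    ES (insert a s) (k + 1) x = ES s (k + 1) x + x a * ES s k x := by
  unfold ES
  rw [powersetCard_succ_insert ha, sum_union]
  · congr 1
    rw [sum_image, mul_sum]
    · refine sum_congr rfl fun t ht => ?_
      have hat : a ∉ t := fun h => ha ((mem_powersetCard.1 ht).1 h)
      rw [prod_insert hat]
    · intro t ht t' ht' h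
      have hat : a ∉ t := fun h => ha ((mem_powersetCard.1 ht).1 h)
      have hat' : a ∉ t' := fun h => ha ((mem_powersetCard.1 ht').1 h)
      have := congrArg (fun u => u.erase a) h
      simpa [erase_insert hat, erase_insert hat'] using this
  · rw [disjoint_left]
    intro t ht ht'
    obtain ⟨t', -, rfl⟩ := mem_image.1 ht'
    exact ha ((mem_powersetCard.1 ht).1 (mem_insert_self _ _))

lemma tangent {A B : ℝ} (hA : 0 ≤ A) (hB : 0 ≤ B) (m : ℕ) :
    (m + 1) * B ^ m * A - m * B ^ (m + 1) ≤ A ^ (m + 1) := by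
  induction m with
  | zero => simp
  | succ m ih =>
    have h1 := mul_le_mul_of_nonneg_left ih hA
    have h2 : 0 ≤ ((m : ℝ) + 1) * B ^ m * (A - B) ^ 2 := by positivity
    push_cast
    have e1 : A * A ^ (m + 1) = A ^ (m + 1 + 1) := by ring
    rw [e1] at h1
    refine le_trans ?_ h1
    have e2 : A * ((m + 1) * B ^ m * A - m * B ^ (m + 1)) -
        (((m : ℝ) + 1 + 1) * B ^ (m + 1) * A - (m + 1) * B ^ (m + 1 + 1)) =
        ((m : ℝ) + 1) * B ^ m * (A - B) ^ 2 := by ring
    linarith

lemma tangent_lt {A B : ℝ} (hA : 0 ≤ A) (hB : 0 ≤ B) (hAB : A ≠ B) (m : ℕ) (hm : 1 ≤ m) :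
    (m + 1) * B ^ m * A - m * B ^ (m + 1) < A ^ (m + 1) := by
  induction m with
  | zero => omega
  | succ m ih =>
    rcases Nat.eq_zero_or_pos m with rfl | hm0
    · have : 0 < (A - B) ^ 2 := by
        have := sub_ne_zero.2 hAB
        positivity
      push_cast
      nlinarith
    · rcases hA.eq_or_lt with h0 | h0
      · rw [← h0]
        have hB' : 0 < B := lt_of_le_of_ne hB (by rw [h0]; exact hAB)
        have : 0 < ((m : ℝ) + 1) * B ^ (m + 1 + 1) := by positivity
        push_cast
        have e : (0 : ℝ) ^ (m + 1 + 1) = 0 := by simp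
        rw [e]
        linarith
      · have h1 := mul_lt_mul_of_pos_left (ih hm0) h0
        have h2 : 0 ≤ ((m : ℝ) + 1) * B ^ m * (A - B) ^ 2 := by positivity
        push_cast
        have e1 : A * A ^ (m + 1) = A ^ (m + 1 + 1) := by ring
        rw [e1] at h1
        refine lt_of_le_of_lt ?_ h1
        have e2 : A * ((m + 1) * B ^ m * A - m * B ^ (m + 1)) -
            (((m : ℝ) + 1 + 1) * B ^ (m + 1) * A - (m + 1) * B ^ (m + 1 + 1)) =
            ((m : ℝ) + 1) * B ^ m * (A - B) ^ 2 := by ring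
        linarith

/-- the step of the induction -/
lemma step_eq (m k : ℕ) (a B : ℝ) :
    (m.choose (k + 1) : ℝ) * B ^ (k + 1) + a * ((m.choose k : ℝ) * B ^ k) =
      ((m + 1).choose (k + 1) : ℝ) * ((k + 1) * B ^ k * ((m * B + a) / (m + 1)) - k * B ^ (k + 1)) := by
  have h1 : ((m + 1).choose (k + 1) : ℝ) = m.choose k + m.choose (k + 1) := by
    rw [Nat.choose_succ_succ]; push_cast; ring
  have h2 : ((m + 1 : ℕ) : ℝ) * m.choose k = (m + 1).choose (k + 1) * ((k + 1 : ℕ) : ℝ) := by
    exact_mod_cast Nat.add_one_mul_choose_eq m k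
  push_cast at h2
  have hm : (m : ℝ) + 1 ≠ 0 := by positivity
  have h3 : (m.choose k : ℝ) = (m + 1).choose (k + 1) * (k + 1) / (m + 1) := by
    rw [eq_div_iff hm]; linarith
  have h4 : (m.choose (k + 1) : ℝ) = (m + 1).choose (k + 1) * (1 - (k + 1) / (m + 1)) := by
    have : (m.choose (k + 1) : ℝ) = (m + 1).choose (k + 1) - m.choose k := by linarith
    rw [this, h3]; ring
  rw [h3, h4]
  field_simp
  ring

/-- **Maclaurin's inequality.** -/
theorem maclaurin (s : Finset ι) (x : ι → ℝ) (hx : ∀ i ∈ s, 0 ≤ x i) (k : ℕ) :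
    ES s k x ≤ (s.card.choose k : ℝ) * ((∑ i ∈ s, x i) / s.card) ^ k := by
  induction s using Finset.induction_on generalizing k with
  | empty =>
    cases k with
    | zero => simp [ES]
    | succ k =>
      unfold ES
      rw [powersetCard_eq_empty.2 (by simp)]
      simp
  | insert a s ha ih =>
    cases k with
    | zero => simp [ES]
    | succ k =>
      rw [ES_insert ha, card_insert_of_notMem ha, sum_insert ha]
      have hxs : ∀ i ∈ s, 0 ≤ x i := fun i hi => hx i (mem_insert_of_mem hi)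
      have hxa : 0 ≤ x a := hx a (mem_insert_self _ _)
      set m := s.card with hm
      set B : ℝ := (∑ i ∈ s, x i) / m with hB
      have hS : ∑ i ∈ s, x i = m * B := by
        rcases Nat.eq_zero_or_pos m with h0 | h0
        · have : s = ∅ := card_eq_zero.1 (hm.symm.trans h0)
          rw [h0, this]; simp
        · rw [hB]; field_simp
      have hB0 : 0 ≤ B := div_nonneg (sum_nonneg hxs) (Nat.cast_nonneg _)
      have h1 := ih hxs (k + 1)
      have h2 := ih hxs k
      have h3 : ES s (k + 1) x + x a * ES s k x ≤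
          (m.choose (k + 1) : ℝ) * B ^ (k + 1) + x a * ((m.choose k : ℝ) * B ^ k) :=
        add_le_add h1 (mul_le_mul_of_nonneg_left h2 hxa)
      refine h3.trans ?_
      rw [step_eq, hS]
      push_cast
      rw [add_comm (x a) ((m : ℝ) * B)]
      refine mul_le_mul_of_nonneg_left ?_ (Nat.cast_nonneg _)
      exact tangent (div_nonneg (add_nonneg (mul_nonneg (Nat.cast_nonneg _) hB0) hxa)
        (Nat.cast_add_one_pos m).le) hB0 k

/-- equality in Maclaurin's inequality forces all numbers to be equal -/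
theorem maclaurin_eq (s : Finset ι) (x : ι → ℝ) (hx : ∀ i ∈ s, 0 ≤ x i) (k : ℕ) (hk : 2 ≤ k)
    (hks : k ≤ s.card)
    (h : ES s k x = (s.card.choose k : ℝ) * ((∑ i ∈ s, x i) / s.card) ^ k) :
    ∀ a ∈ s, x a = (∑ i ∈ s, x i) / s.card := by
  intro a ha
  obtain ⟨k, rfl⟩ : ∃ k', k = k' + 1 := ⟨k - 1, by omega⟩
  set s' := s.erase a with hs'
  have has' : a ∉ s' := notMem_erase _ _
  have hins : insert a s' = s := insert_erase ha
  rw [← hins] at h hks hx ⊢
  rw [ES_insert has', card_insert_of_notMem has', sum_insert has'] at h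
  rw [card_insert_of_notMem has'] at hks ⊢
  rw [sum_insert has']
  have hxs : ∀ i ∈ s', 0 ≤ x i := fun i hi => hx i (mem_insert_of_mem hi)
  have hxa : 0 ≤ x a := hx a (mem_insert_self _ _)
  set m := s'.card with hm
  set B : ℝ := (∑ i ∈ s', x i) / m with hB
  have hm0 : 0 < m := by omega
  have hS : ∑ i ∈ s', x i = m * B := by
    rw [hB]; field_simp
  have hB0 : 0 ≤ B := div_nonneg (sum_nonneg hxs) (Nat.cast_nonneg _)
  have h1 := maclaurin s' x hxs (k + 1)
  have h2 := maclaurin s' x hxs k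
  have h3 : ES s' (k + 1) x + x a * ES s' k x ≤
      (m.choose (k + 1) : ℝ) * B ^ (k + 1) + x a * ((m.choose k : ℝ) * B ^ k) :=
    add_le_add h1 (mul_le_mul_of_nonneg_left h2 hxa)
  rw [step_eq, h, hS] at h3
  push_cast at h3 ⊢
  rw [add_comm (x a) ((m : ℝ) * B)] at h3
  rw [hS, add_comm (x a) ((m : ℝ) * B)]
  have hc : (0 : ℝ) < ((m + 1).choose (k + 1) : ℝ) := by
    exact_mod_cast Nat.choose_pos hks
  have h4 := le_of_mul_le_mul_left h3 hc
  have hmm : (0 : ℝ) < (m : ℝ) + 1 := Nat.cast_add_one_pos m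
  have hAB : ((m : ℝ) * B + x a) / (m + 1) = B := by
    by_contra hne
    exact absurd h4 (not_le.2 (tangent_lt (div_nonneg (add_nonneg (mul_nonneg
      (Nat.cast_nonneg _) hB0) hxa) hmm.le) hB0 hne k (by omega)))
  rw [hAB]
  rw [div_eq_iff hmm.ne'] at hAB
  linarith

end

end Pool.Agent.R759
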