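import Mathlib
import Pool.Agent.R759.Mac

/-! # Sums of principal minors -/

set_option autoImplicit false

namespace Pool.Agent.R759

open Finset Matrix Polynomial

/-- sum of the principal minors of order `k` -/
noncomputable def PM {n : Type*} [Fintype n] [DecidableEq n] (M : Matrix n n ℝ) (k : ℕ) : ℝ :=
  ∑ s ∈ (univ : Finset n).powersetCard k,
    (M.submatrix (Subtype.val : s → n) (Subtype.val : s → n)).det

lemma PM_mul_comm {n m : Type*} [Fintype n] [DecidableEq n] [Fintype m] [DecidableEq m]
    (A : Matrix n m ℝ) (B : Matrix m n ℝ) (k : ℕ) : PM (A * B) k = PM (B * A) k := by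
  unfold PM
  rw [← coeff_det_one_add_X_smul_eq_sum_minors, ← coeff_det_one_add_X_smul_eq_sum_minors]
  congr 1
  rw [Matrix.map_mul, Matrix.map_mul, ← Matrix.smul_mul, det_one_add_mul_comm, Matrix.mul_smul]

lemma PM_eig {n : Type*} [Fintype n] [DecidableEq n] {S : Matrix n n ℝ} (hS : S.IsHermitian)
    (k : ℕ) : PM S k = ES univ k hS.eigenvalues := by
  by_cases hk : k ≤ Fintype.card n
  · have h1 := charpoly_coeff_eq_sum_minors S k hk
    have h2 := charpoly_coeff_eq_sum_minors (Matrix.diagonal hS.eigenvalues) k hk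
    have h3 : S.charpoly = (Matrix.diagonal hS.eigenvalues).charpoly := by
      rw [hS.charpoly_eq, charpoly_diagonal]
      simp
    rw [h3, h2] at h1
    have h4 : ((-1 : ℝ)) ^ k ≠ 0 := pow_ne_zero _ (by norm_num)
    have h5 := mul_left_cancel₀ h4 h1
    unfold PM
    rw [← h5]
    unfold ES
    refine sum_congr rfl fun s _ => ?_
    rw [Matrix.submatrix_diagonal _ _ Subtype.val_injective, det_diagonal]
    exact Finset.prod_coe_sort s hS.eigenvalues
  · have h : (univ : Finset n).powersetCard k = ∅ := by
      rw [powersetCard_eq_empty, card_univ]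
      omega
    unfold PM ES
    rw [h, sum_empty, sum_empty]

/-- a Hermitian matrix whose eigenvalues are all `c` is `c • 1` -/
lemma eq_smul_one_of_eig {n : Type*} [Fintype n] [DecidableEq n] {S : Matrix n n ℝ}
    (hS : S.IsHermitian) (c : ℝ) (h : ∀ i, hS.eigenvalues i = c) : S = c • (1 : Matrix n n ℝ) := by
  have h1 := hS.spectral_theorem
  have h2 : Matrix.diagonal (RCLike.ofReal ∘ hS.eigenvalues) = c • (1 : Matrix n n ℝ) := by
    ext i j
    rw [Matrix.diagonal_apply, Matrix.smul_apply, Matrix.one_apply]
    split_ifs with hij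
    · simp [h]
    · simp
  rw [h2, map_smul, map_one] at h1
  exact h1

end Pool.Agent.R759
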