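import Pool.Agent.TH505.OCDC.Decomp

set_option autoImplicit false
set_option linter.unusedSectionVars false

/-!
Decompositions of sets of arcs into directed cycles.
-/

namespace Pool.Agent.R759.OC

open Finset Pool.Agent.TH505.OCDC

variable {V : Type} [Fintype V] {G : SimpleGraph V}

/-- the set of arcs `R` decomposes into directed cycles of `G` -/
def Dec (G : SimpleGraph V) (R : V → V → Prop) : Prop :=
  ∃ C : List (Σ v : V, G.Walk v v), (∀ c ∈ C, c.2.IsCycle) ∧ ∀ u v, tot C u v = ind (R u v)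

lemma Dec.congr {R R' : V → V → Prop} (h : ∀ u v, R u v ↔ R' u v) (hR : Dec G R) : Dec G R' := by
  have : R = R' := by
    funext u v
    exact propext (h u v)
  rw [← this]
  exact hR

lemma Dec.empty : Dec G (fun _ _ => False) :=
  ⟨[], by simp, fun u v => by rw [tot_nil, ind_neg (fun h => h)]⟩

lemma Dec.union {R R' : V → V → Prop} (h : Dec G R) (h' : Dec G R')
    (hd : ∀ u v, R u v → ¬ R' u v) : Dec G (fun u v => R u v ∨ R' u v) := by
  obtain ⟨C, h1, h2⟩ := h
  obtain ⟨C', h1', h2'⟩ := h'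
  refine ⟨C ++ C', ?_, ?_⟩
  · intro c hc
    rcases List.mem_append.1 hc with hc | hc
    · exact h1 c hc
    · exact h1' c hc
  · intro u v
    rw [tot_append, h2, h2']
    by_cases a : R u v
    · rw [ind_pos a, ind_neg (hd u v a), ind_pos (Or.inl a)]
    · by_cases b : R' u v
      · rw [ind_neg a, ind_pos b, ind_pos (Or.inr b)]
      · rw [ind_neg a, ind_neg b, ind_neg (by tauto)]

lemma Dec.iUnion {J : Type} [Finite J] (A : J → V → V → Prop) (h : ∀ j, Dec G (A j))
    (hd : ∀ i j u v, A i u v → A j u v → i = j) : Dec G (fun u v => ∃ j, A j u v) := by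
  classical
  have : Fintype J := Fintype.ofFinite J
  have key : ∀ s : Finset J, Dec G (fun u v => ∃ j ∈ s, A j u v) := by
    intro s
    induction s using Finset.induction_on with
    | empty =>
      refine Dec.congr ?_ (Dec.empty (G := G))
      intro u v
      simp
    | @insert a s ha ih =>
      refine Dec.congr ?_ ((h a).union ih ?_)
      · intro u v
        simp
      · rintro u v h1 ⟨j, hj, h2⟩
        exact ha (hd a j u v h1 h2 ▸ hj)
  refine Dec.congr ?_ (key univ)
  intro u v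
  simp

lemma Dec.of_balanced {R : V → V → Prop} (hadj : ∀ u v, R u v → G.Adj u v)
    (hopp : ∀ u v, R u v → ¬ R v u) (hbal : ∀ v, ∑ w, ind (R v w) = ∑ w, ind (R w v)) :
    Dec G R :=
  directed_decomp _ R rfl hadj hopp hbal

/-- an even subgraph -/
lemma Dec.of_even {R : V → V → Prop} (hadj : ∀ u v, R u v → G.Adj u v)
    (hsymm : ∀ u v, R u v → R v u) (heven : ∀ v, Even (∑ w, ind (R v w))) : Dec G R := by
  obtain ⟨g, h1, h2, h3, h4⟩ := orient G _ R rfl hadj hsymm heven
  have hval : ∀ u v, g u v = 0 ∨ g u v = 1 ∨ g u v = -1 := by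
    intro u v
    by_cases h : R u v
    · exact Or.inr (h2 u v h)
    · exact Or.inl (h3 u v h)
  have hsupp : ∀ u v, g u v ≠ 0 → G.Adj u v := by
    intro u v h
    by_contra hc
    exact h (h3 u v (fun hR => hc (hadj u v hR)))
  obtain ⟨C, hC1, hC2⟩ := flow_decomp (G := G) g h1 hval hsupp h4
  obtain ⟨C', hC1', hC2'⟩ := flow_decomp (G := G) (fun u v => - g u v)
    (fun u v => by show - g v u = - - g u v; rw [h1 u v])
    (fun u v => by rcases hval u v with h | h | h <;> simp [h])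
    (fun u v h => hsupp u v (fun h0 => h (by show - g u v = 0; rw [h0]; rfl)))
    (fun u => by simp [h4 u])
  have d1 : Dec G (fun u v => g u v = 1) := ⟨C, hC1, hC2⟩
  have d2 : Dec G (fun u v => - g u v = 1) := ⟨C', hC1', hC2'⟩
  refine Dec.congr ?_ (d1.union d2 ?_)
  · intro u v
    constructor
    · intro h
      by_contra hR
      have := h3 u v hR
      rw [this] at h
      norm_num at h
    · intro hR
      rcases h2 u v hR with h | h
      · left; exact h
      · right; rw [h]; norm_num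
  · intro u v h h'
    rw [h] at h'
    norm_num at h'

/-- three disjoint subgraphs whose pairwise unions are even -/
lemma Dec.of_three {R₁ R₂ R₃ : V → V → Prop} (hadj₁ : ∀ u v, R₁ u v → G.Adj u v)
    (hadj₂ : ∀ u v, R₂ u v → G.Adj u v) (hadj₃ : ∀ u v, R₃ u v → G.Adj u v)
    (hs₁ : ∀ u v, R₁ u v → R₁ v u) (hs₂ : ∀ u v, R₂ u v → R₂ v u) (hs₃ : ∀ u v, R₃ u v → R₃ v u)
    (h12 : ∀ u v, R₁ u v → ¬ R₂ u v) (h13 : ∀ u v, R₁ u v → ¬ R₃ u v)
    (h23 : ∀ u v, R₂ u v → ¬ R₃ u v)
    (e12 : ∀ v, Even (∑ w, ind (R₁ v w) + ∑ w, ind (R₂ v w)))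
    (e13 : ∀ v, Even (∑ w, ind (R₁ v w) + ∑ w, ind (R₃ v w)))
    (e23 : ∀ v, Even (∑ w, ind (R₂ v w) + ∑ w, ind (R₃ v w))) :
    Dec G (fun u v => R₁ u v ∨ R₂ u v ∨ R₃ u v) := by
  have hind : ∀ (A B : V → V → Prop), (∀ u v, A u v → ¬ B u v) → ∀ v,
      ∑ w, ind (A v w ∨ B v w) = ∑ w, ind (A v w) + ∑ w, ind (B v w) := by
    intro A B hAB v
    rw [← Finset.sum_add_distrib]
    refine Finset.sum_congr rfl fun w _ => ?_
    by_cases a : A v w
    · rw [ind_pos a, ind_neg (hAB v w a), ind_pos (Or.inl a)]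
    · by_cases b : B v w
      · rw [ind_neg a, ind_pos b, ind_pos (Or.inr b)]
      · rw [ind_neg a, ind_neg b, ind_neg (by tauto)]
  obtain ⟨f, f1, f2, f3, f4⟩ := orient G _ (fun u v => R₂ u v ∨ R₃ u v) rfl
    (fun u v h => h.elim (hadj₂ u v) (hadj₃ u v))
    (fun u v h => h.elim (fun h => Or.inl (hs₂ u v h)) (fun h => Or.inr (hs₃ u v h)))
    (fun v => by rw [hind _ _ h23]; exact e23 v)
  obtain ⟨g, g1, g2, g3, g4⟩ := orient G _ (fun u v => R₁ u v ∨ R₃ u v) rfl
    (fun u v h => h.elim (hadj₁ u v) (hadj₃ u v))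
    (fun u v h => h.elim (fun h => Or.inl (hs₁ u v h)) (fun h => Or.inr (hs₃ u v h)))
    (fun v => by rw [hind _ _ h13]; exact e13 v)
  obtain ⟨k, k1, k2, k3, k4⟩ := orient G _ (fun u v => R₁ u v ∨ R₂ u v) rfl
    (fun u v h => h.elim (hadj₁ u v) (hadj₂ u v))
    (fun u v h => h.elim (fun h => Or.inl (hs₁ u v h)) (fun h => Or.inr (hs₂ u v h)))
    (fun v => by rw [hind _ _ h12]; exact e12 v)
  -- the possible values
  have hv : ∀ u v,
      (R₁ u v ∧ ¬ R₂ u v ∧ ¬ R₃ u v ∧ f u v = 0 ∧ (g u v = 1 ∨ g u v = -1) ∧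
        (k u v = 1 ∨ k u v = -1)) ∨
      (¬ R₁ u v ∧ R₂ u v ∧ ¬ R₃ u v ∧ g u v = 0 ∧ (f u v = 1 ∨ f u v = -1) ∧
        (k u v = 1 ∨ k u v = -1)) ∨
      (¬ R₁ u v ∧ ¬ R₂ u v ∧ R₃ u v ∧ k u v = 0 ∧ (f u v = 1 ∨ f u v = -1) ∧
        (g u v = 1 ∨ g u v = -1)) ∨
      (¬ R₁ u v ∧ ¬ R₂ u v ∧ ¬ R₃ u v ∧ f u v = 0 ∧ g u v = 0 ∧ k u v = 0) := by
    intro u v
    by_cases a : R₁ u v
    · have b := h12 u v a
      have c := h13 u v a
      exact Or.inl ⟨a, b, c, f3 u v (by tauto), g2 u v (Or.inl a), k2 u v (Or.inl a)⟩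
    · by_cases b : R₂ u v
      · have c := h23 u v b
        exact Or.inr (Or.inl ⟨a, b, c, g3 u v (by tauto), f2 u v (Or.inl b), k2 u v (Or.inr b)⟩)
      · by_cases c : R₃ u v
        · exact Or.inr (Or.inr (Or.inl ⟨a, b, c, k3 u v (by tauto), f2 u v (Or.inr c),
            g2 u v (Or.inr c)⟩))
        · exact Or.inr (Or.inr (Or.inr ⟨a, b, c, f3 u v (by tauto), g3 u v (by tauto),
            k3 u v (by tauto)⟩))
  have hU : ∀ u v, (f u v ≠ 0 ∨ g u v ≠ 0 ∨ k u v ≠ 0) → G.Adj u v := by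
    intro u v h
    rcases hv u v with ⟨a, _⟩ | ⟨_, b, _⟩ | ⟨_, _, c, _⟩ | ⟨_, _, _, a, b, c⟩
    · exact hadj₁ u v a
    · exact hadj₂ u v b
    · exact hadj₃ u v c
    · rcases h with h | h | h
      · exact absurd a h
      · exact absurd b h
      · exact absurd c h
  -- signs
  have main : ∀ s t r : ℤ, (s = 1 ∨ s = -1) → (t = 1 ∨ t = -1) → (r = 1 ∨ r = -1) →
      ∃ C : List (Σ v : V, G.Walk v v), (∀ c ∈ C, c.2.IsCycle) ∧
        ∀ u v, tot C u v = ind ((s * f u v + t * g u v + r * k u v) / 2 = 1) := by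
    intro s t r hs ht hr
    have hex : ∀ u v, ∃ m : ℤ, s * f u v + t * g u v + r * k u v = 2 * m ∧
        (m = 0 ∨ m = 1 ∨ m = -1) := by
      intro u v
      rcases hv u v with ⟨_, _, _, a, b | b, c | c⟩ | ⟨_, _, _, a, b | b, c | c⟩ |
        ⟨_, _, _, a, b | b, c | c⟩ | ⟨_, _, _, a, b, c⟩ <;>
      rcases hs with rfl | rfl <;> rcases ht with rfl | rfl <;> rcases hr with rfl | rfl <;>
      refine ⟨_, (Int.mul_ediv_cancel' ?_).symm, ?_⟩ <;> rw [a, b, c] <;> decide
    refine flow_decomp (G := G) (fun u v => (s * f u v + t * g u v + r * k u v) / 2) ?_ ?_ ?_ ?_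
    · intro u v
      obtain ⟨m, hm, _⟩ := hex u v
      have e : s * f v u + t * g v u + r * k v u = 2 * (-m) := by
        rw [f1 u v, g1 u v, k1 u v]
        linear_combination -hm
      show (s * f v u + t * g v u + r * k v u) / 2 = -((s * f u v + t * g u v + r * k u v) / 2)
      rw [e, hm]
      omega
    · intro u v
      obtain ⟨m, hm, hm'⟩ := hex u v
      show (s * f u v + t * g u v + r * k u v) / 2 = 0 ∨ _ ∨ _
      rw [hm]
      omega
    · intro u v h
      apply hU
      by_contra hcon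
      push Not at hcon
      apply h
      show (s * f u v + t * g u v + r * k u v) / 2 = 0
      rw [hcon.1, hcon.2.1, hcon.2.2]
      norm_num
    · intro u
      have hsum : ∑ w, (s * f u w + t * g u w + r * k u w) = 0 := by
        rw [Finset.sum_add_distrib, Finset.sum_add_distrib, ← Finset.mul_sum, ← Finset.mul_sum,
          ← Finset.mul_sum, f4, g4, k4]
        ring
      have h2 : ∑ w, (s * f u w + t * g u w + r * k u w) =
          2 * ∑ w, (s * f u w + t * g u w + r * k u w) / 2 := by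
        rw [Finset.mul_sum]
        refine Finset.sum_congr rfl fun w _ => ?_
        obtain ⟨m, hm, _⟩ := hex u w
        rw [hm]
        omega
      show ∑ w, (s * f u w + t * g u w + r * k u w) / 2 = 0
      omega
  obtain ⟨C₁, a1, b1⟩ := main 1 1 1 (by norm_num) (by norm_num) (by norm_num)
  obtain ⟨C₂, a2, b2⟩ := main 1 (-1) (-1) (by norm_num) (by norm_num) (by norm_num)
  obtain ⟨C₃, a3, b3⟩ := main (-1) 1 (-1) (by norm_num) (by norm_num) (by norm_num)
  obtain ⟨C₄, a4, b4⟩ := main (-1) (-1) 1 (by norm_num) (by norm_num) (by norm_num)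
  refine ⟨C₁ ++ (C₂ ++ (C₃ ++ C₄)), ?_, ?_⟩
  · intro c hc
    simp only [List.mem_append] at hc
    rcases hc with hc | hc | hc | hc
    · exact a1 c hc
    · exact a2 c hc
    · exact a3 c hc
    · exact a4 c hc
  · intro u v
    rw [tot_append, tot_append, tot_append, b1, b2, b3, b4]
    rcases hv u v with ⟨x, y, z, a, b | b, c | c⟩ | ⟨x, y, z, a, b | b, c | c⟩ |
      ⟨x, y, z, a, b | b, c | c⟩ | ⟨x, y, z, a, b, c⟩ <;>
    rw [a, b, c] <;> simp [ind, x, y, z]

/-- number of indices -/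
lemma count_arcs {I : Type} [Fintype I] (P : I → Prop) (t h : I → V)
    (hinj : ∀ i j, t i = t j → h i = h j → i = j) (v : V) :
    ∑ w, ind (∃ i, P i ∧ t i = v ∧ h i = w) = Nat.card {i : I // P i ∧ t i = v} := by
  classical
  have h1 : ∑ w, ind (∃ i, P i ∧ t i = v ∧ h i = w) =
      (univ.filter (fun w => ∃ i, P i ∧ t i = v ∧ h i = w)).card := by
    rw [Finset.card_filter]
    refine Finset.sum_congr rfl fun w _ => ?_
    unfold ind
    split_ifs <;> rfl
  rw [h1, Nat.card_eq_fintype_card, Fintype.card_subtype]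
  symm
  refine Finset.card_bij (fun i _ => h i) ?_ ?_ ?_
  · intro i hi
    rw [mem_filter] at hi ⊢
    exact ⟨mem_univ _, i, hi.2.1, hi.2.2, rfl⟩
  · intro i hi j hj hij
    rw [mem_filter] at hi hj
    exact hinj i j (hi.2.2.trans hj.2.2.symm) hij
  · intro w hw
    rw [mem_filter] at hw
    obtain ⟨i, h1, h2, h3⟩ := hw.2
    exact ⟨i, by rw [mem_filter]; exact ⟨mem_univ _, h1, h2⟩, h3⟩

/-- closed directed trails given by a permutation of the arcs -/
lemma Dec.of_perm {I : Type} [Finite I] (t h : I → V) (σ : Equiv.Perm I)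
    (hth : ∀ i, t (σ i) = h i) (hadj : ∀ i, G.Adj (t i) (h i))
    (hinj : ∀ i j, t i = t j → h i = h j → i = j)
    (hopp : ∀ i j, σ.SameCycle i j → t j = h i → h j = t i → False) :
    Dec G (fun u v => ∃ i, t i = u ∧ h i = v) := by
  classical
  have : Fintype I := Fintype.ofFinite I
  let S : Setoid I := Equiv.Perm.SameCycle.setoid σ
  let A : Quotient S → V → V → Prop := fun j u v => ∃ i, Quotient.mk S i = j ∧ t i = u ∧ h i = v
  have hA : ∀ j, Dec G (A j) := by
    intro j
    refine Dec.of_balanced ?_ ?_ ?_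
    · rintro u v ⟨i, _, rfl, rfl⟩
      exact hadj i
    · rintro u v ⟨i, hi, h1, h2⟩ ⟨i', hi', h1', h2'⟩
      have hs : σ.SameCycle i i' := Quotient.exact (hi.trans hi'.symm)
      exact hopp i i' hs (h1'.trans h2.symm) (h2'.trans h1.symm)
    · intro v
      have e1 : ∑ w, ind (A j v w) = Nat.card {i : I // Quotient.mk S i = j ∧ t i = v} :=
        count_arcs (fun i => Quotient.mk S i = j) t h hinj v
      have e2 : ∑ w, ind (A j w v) = Nat.card {i : I // Quotient.mk S i = j ∧ h i = v} := by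
        rw [← count_arcs (fun i => Quotient.mk S i = j) h t (fun a b c d => hinj a b d c) v]
        refine Finset.sum_congr rfl fun w _ => ?_
        congr 1
        apply propext
        constructor
        · rintro ⟨i, a, b, c⟩
          exact ⟨i, a, c, b⟩
        · rintro ⟨i, a, b, c⟩
          exact ⟨i, a, c, b⟩
      rw [e1, e2]
      symm
      refine Nat.card_congr ?_
      refine Equiv.subtypeEquiv σ ?_
      intro i
      have hq : Quotient.mk S (σ i) = Quotient.mk S i :=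
        Quotient.sound (Equiv.Perm.sameCycle_apply_left.2 (Equiv.Perm.SameCycle.refl σ i))
      rw [hth, hq]
  refine Dec.congr ?_ (Dec.iUnion A hA ?_)
  · intro u v
    constructor
    · rintro ⟨j, i, _, h1, h2⟩
      exact ⟨i, h1, h2⟩
    · rintro ⟨i, h1, h2⟩
      exact ⟨Quotient.mk S i, i, rfl, h1, h2⟩
  · rintro j j' u v ⟨i, hi, h1, h2⟩ ⟨i', hi', h1', h2'⟩
    have := hinj i i' (h1.trans h1'.symm) (h2.trans h2'.symm)
    rw [← hi, ← hi', this]

end Pool.Agent.R759.OC
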