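import Pool.Agent.R759.OCDec

set_option autoImplicit false
set_option linter.unusedSectionVars false

/-!
Group actions and decompositions of sets of arcs into directed cycles.
-/

namespace Pool.Agent.R759.OC

open Finset Pool.Agent.TH505.OCDC

lemma pinv {I : Type} (b : Equiv.Perm I) (x : I) : b⁻¹ (b x) = x := b.symm_apply_apply x

lemma papp {I : Type} (b : Equiv.Perm I) (x : I) : b (b⁻¹ x) = x := b.apply_symm_apply x

variable {V : Type} [Fintype V] {G : SimpleGraph V}

/-- closed directed trails given by a permutation of the arcs and an invariant -/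
lemma Dec.of_inv {I K : Type} [Finite I] (t h : I → V) (σ : Equiv.Perm I) (φ : I → K)
    (hφ : ∀ i, φ (σ i) = φ i)
    (hth : ∀ i, t (σ i) = h i) (hadj : ∀ i, G.Adj (t i) (h i))
    (hinj : ∀ i j, t i = t j → h i = h j → i = j)
    (hopp : ∀ i j, φ i = φ j → t j = h i → h j = t i → False) :
    Dec G (fun u v => ∃ i, t i = u ∧ h i = v) := by
  refine Dec.of_perm t h σ hth hadj hinj ?_
  intro i j hij
  refine hopp i j ?_
  have hz : ∀ (n : ℤ) (i : I), φ ((σ ^ n) i) = φ i := by
    intro n
    induction n using Int.induction_on with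
    | zero => intro i; simp
    | succ n ih => intro i; rw [zpow_add_one, Equiv.Perm.mul_apply, ih, hφ]
    | pred n ih =>
      intro i
      rw [zpow_sub_one, Equiv.Perm.mul_apply, ih]
      have := hφ (σ⁻¹ i)
      rw [papp] at this
      exact this.symm
  obtain ⟨n, hn⟩ := hij
  rw [← hn]
  exact (hz n i).symm

section Orbits

variable (B : Subgroup (Equiv.Perm V))

/-- the orbit of the arc `(x, y)` -/
def Orb (x y : V) : V → V → Prop := fun u v => ∃ b ∈ B, b x = u ∧ b y = v

/-- invariant relations -/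
def Inv (R : V → V → Prop) : Prop := ∀ b ∈ B, ∀ u v, R u v → R (b u) (b v)

lemma Orb_inv (x y : V) : Inv B (Orb B x y) := by
  rintro b hb u v ⟨c, hc, rfl, rfl⟩
  exact ⟨b * c, B.mul_mem hb hc, rfl, rfl⟩

lemma Inv.iff {R : V → V → Prop} (h : Inv B R) {b : Equiv.Perm V} (hb : b ∈ B) (u v : V) :
    R (b u) (b v) ↔ R u v := by
  constructor
  · intro hr
    have := h b⁻¹ (B.inv_mem hb) _ _ hr
    rwa [pinv, pinv] at this
  · exact h b hb u v

lemma Inv.out {R : V → V → Prop} (h : Inv B R) {b : Equiv.Perm V} (hb : b ∈ B) (v : V) :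
    ∑ w, ind (R (b v) w) = ∑ w, ind (R v w) := by
  refine (Equiv.sum_comp b (fun w => ind (R (b v) w))).symm.trans ?_
  refine Finset.sum_congr rfl fun w _ => ?_
  congr 1
  exact propext (h.iff B hb v w)

lemma Inv.swap {R : V → V → Prop} (h : Inv B R) : Inv B (fun u v => R v u) :=
  fun b hb u v hr => h b hb v u hr

lemma Inv.out_eq (htr : ∀ x y, ∃ b ∈ B, b x = y) {R : V → V → Prop} (h : Inv B R) (u v : V) :
    ∑ w, ind (R u w) = ∑ w, ind (R v w) := by
  obtain ⟨b, hb, rfl⟩ := htr v u
  exact h.out B hb v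

lemma Inv.balanced (htr : ∀ x y, ∃ b ∈ B, b x = y) {R : V → V → Prop} (h : Inv B R) (v : V) :
    ∑ w, ind (R v w) = ∑ w, ind (R w v) := by
  have h3 : ∑ u, ∑ w, ind (R u w) = ∑ u, ∑ w, ind (R w u) := Finset.sum_comm
  rw [Finset.sum_congr rfl (fun u _ => h.out_eq B htr u v),
    Finset.sum_congr rfl (fun u _ => (h.swap B).out_eq B htr u v),
    Finset.sum_const, Finset.sum_const, smul_eq_mul, smul_eq_mul] at h3
  have : 0 < (univ : Finset V).card := Finset.card_pos.2 ⟨v, mem_univ v⟩
  exact Nat.eq_of_mul_eq_mul_left this h3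

/-- an orbit of arcs without opposite arcs -/
lemma dec_orb_nonself (htr : ∀ x y, ∃ b ∈ B, b x = y) (hB : Inv B G.Adj) {x y : V}
    (hxy : G.Adj x y) (hns : ¬ ∃ b ∈ B, b x = y ∧ b y = x) : Dec G (Orb B x y) := by
  refine Dec.of_balanced ?_ ?_ (Inv.balanced B htr (Orb_inv B x y))
  · rintro u v ⟨b, hb, rfl, rfl⟩
    exact hB b hb _ _ hxy
  · rintro u v ⟨b, hb, rfl, rfl⟩ ⟨c, hc, h1, h2⟩
    apply hns
    refine ⟨b⁻¹ * c, B.mul_mem (B.inv_mem hb) hc, ?_, ?_⟩
    · rw [Equiv.Perm.mul_apply, h1, pinv]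
    · rw [Equiv.Perm.mul_apply, h2, pinv]

/-- an orbit of arcs on which the group acts regularly, using the powers of an element which
moves an arc along itself -/
lemma dec_orb_shunt (hB : Inv B G.Adj) {x y : V} (hxy : G.Adj x y)
    (hst : ∀ b ∈ B, b x = x → b y = y → b = 1) {g : Equiv.Perm V} (hg : g ∈ B)
    (h1 : g x = y) (h2 : g y ≠ x) : Dec G (Orb B x y) := by
  classical
  refine Dec.congr ?_ (Dec.of_inv (G := G) (I := B)
    (K := B ⧸ Subgroup.zpowers (⟨g, hg⟩ : B)) (fun b => (b : Equiv.Perm V) x)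
    (fun b => (b : Equiv.Perm V) y) (Equiv.mulRight (⟨g, hg⟩ : B))
    (fun b => QuotientGroup.mk b) ?_ ?_ ?_ ?_ ?_)
  · intro u v
    constructor
    · rintro ⟨i, h⟩
      exact ⟨i, i.2, h⟩
    · rintro ⟨b, hb, h⟩
      exact ⟨⟨b, hb⟩, h⟩
  · intro b
    exact QuotientGroup.mk_mul_of_mem b (Subgroup.mem_zpowers _)
  · intro b
    show (b : Equiv.Perm V) (g x) = (b : Equiv.Perm V) y
    rw [h1]
  · intro b
    exact hB b b.2 _ _ hxy
  · intro b c hb hc
    have hm : (c : Equiv.Perm V)⁻¹ * (b : Equiv.Perm V) = 1 := by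
      refine hst _ (B.mul_mem (B.inv_mem c.2) b.2) ?_ ?_
      · rw [Equiv.Perm.mul_apply]
        have hb' : (b : Equiv.Perm V) x = (c : Equiv.Perm V) x := hb
        rw [hb', pinv]
      · rw [Equiv.Perm.mul_apply]
        have hc' : (b : Equiv.Perm V) y = (c : Equiv.Perm V) y := hc
        rw [hc', pinv]
    apply Subtype.ext
    exact (inv_mul_eq_one.1 hm).symm
  · intro b c hbc h3 h4
    have h3' : (c : Equiv.Perm V) x = (b : Equiv.Perm V) y := h3
    have h4' : (c : Equiv.Perm V) y = (b : Equiv.Perm V) x := h4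
    obtain ⟨n, hn⟩ := Subgroup.mem_zpowers_iff.1 (QuotientGroup.eq.1 hbc)
    have hn' : g ^ n = (b : Equiv.Perm V)⁻¹ * (c : Equiv.Perm V) := by
      have := congrArg (Subtype.val) hn
      simpa using this
    have e1 : (g ^ n) x = y := by
      rw [hn', Equiv.Perm.mul_apply, h3', pinv]
    have e2 : (g ^ n) y = x := by
      rw [hn', Equiv.Perm.mul_apply, h4', pinv]
    have e3 : g * g ^ n = g ^ n * g := by
      rw [← zpow_one_add, ← zpow_add_one, add_comm]
    have e4 : g ((g ^ n) x) = (g ^ n) (g x) := by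
      rw [← Equiv.Perm.mul_apply, e3, Equiv.Perm.mul_apply]
    rw [e1, h1, e2] at e4
    exact h2 e4

end Orbits

section Cayley

variable {Γ : Type} [Group Γ] [Finite Γ] (e : Γ ≃ V)

/-- half of the cosets -/
lemma half (K : Subgroup Γ) (a : Γ) (ha : a ∉ K) (ha2 : a * a ∈ K)
    (hcomm : ∀ k ∈ K, k * a = a * k) :
    ∃ p : Γ → Prop, (∀ b, p (b * a) ↔ ¬ p b) ∧ (∀ b, ∀ k ∈ K, (p (b * k) ↔ p b)) := by
  classical
  obtain ⟨n, ⟨f⟩⟩ := Finite.exists_equiv_fin (Γ ⧸ K)
  let mk : Γ → Γ ⧸ K := fun b => QuotientGroup.mk b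
  refine ⟨fun b => f (mk b) < f (mk (b * a)), ?_, ?_⟩
  · intro b
    have h1 : mk (b * a * a) = mk b := by
      rw [mul_assoc]
      exact QuotientGroup.mk_mul_of_mem b ha2
    have h2 : mk (b * a) ≠ mk b := by
      intro h
      have h3 : ((b * a)⁻¹ * b)⁻¹ ∈ K := K.inv_mem (QuotientGroup.eq.1 h)
      apply ha
      have h4 : ((b * a)⁻¹ * b)⁻¹ = a := by group
      rwa [h4] at h3
    show f (mk (b * a)) < f (mk (b * a * a)) ↔ ¬ (f (mk b) < f (mk (b * a)))
    rw [h1, not_lt]
    exact ⟨le_of_lt, fun h => lt_of_le_of_ne h (fun h' => h2 (f.injective h'))⟩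
  · intro b k hk
    have h1 : mk (b * k) = mk b := QuotientGroup.mk_mul_of_mem b hk
    have h2 : mk (b * k * a) = mk (b * a) := by
      rw [mul_assoc, hcomm k hk, ← mul_assoc]
      exact QuotientGroup.mk_mul_of_mem (b * a) hk
    show f (mk (b * k)) < f (mk (b * k * a)) ↔ f (mk b) < f (mk (b * a))
    rw [h1, h2]

/-- the arcs given by right multiplication by `a`, `c` and the inverse of `c` -/
def CR (a c : Γ) : V → V → Prop := fun u v =>
  ∃ b : Γ, e b = u ∧ (e (b * a) = v ∨ e (b * c) = v ∨ e (b * c⁻¹) = v)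

lemma inv_sq {c : Γ} (hcc : c * c ≠ 1) : c⁻¹ * c⁻¹ ≠ 1 := by
  intro h
  apply hcc
  have : (c⁻¹ * c⁻¹)⁻¹ = 1 := by rw [h, inv_one]
  rwa [mul_inv_rev, inv_inv] at this

lemma ne_of_sq {a c : Γ} (haa : a * a = 1) (hcc : c * c ≠ 1) : a ≠ c := by
  rintro rfl
  exact hcc haa

lemma mul_ne_of_sq {a c : Γ} (haa : a * a = 1) (hcc : c * c ≠ 1) : a * c ≠ 1 := by
  intro h
  have : c = a := by
    calc c = (a * a) * c := by rw [haa, one_mul]
    _ = a * (a * c) := by rw [mul_assoc]
    _ = a := by rw [h, mul_one]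
  exact ne_of_sq haa hcc this.symm

lemma mul_ne_of_sq' {a c : Γ} (haa : a * a = 1) (hcc : c * c ≠ 1) : c * a ≠ 1 := by
  intro h
  have : c = a := by
    calc c = c * (a * a) := by rw [haa, mul_one]
    _ = (c * a) * a := by rw [mul_assoc]
    _ = a := by rw [h, one_mul]
  exact ne_of_sq haa hcc this.symm

lemma ne_inv_of_sq {c : Γ} (hcc : c * c ≠ 1) : c ≠ c⁻¹ := by
  intro h
  apply hcc
  calc c * c = c * c⁻¹ := congrArg (fun t => c * t) h
  _ = 1 := mul_inv_cancel c

/-- the permutation alternating between `a` and `c` -/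
def sig (a c : Γ) (haa : a * a = 1) : Equiv.Perm (Γ × Bool) where
  toFun i := match i with
    | (b, false) => (b * a, true)
    | (b, true) => (b * c, false)
  invFun i := match i with
    | (b, true) => (b * a, false)
    | (b, false) => (b * c⁻¹, true)
  left_inv := by
    rintro ⟨b, _ | _⟩
    · show (b * a * a, false) = (b, false)
      rw [mul_assoc, haa, mul_one]
    · show (b * c * c⁻¹, true) = (b, true)
      rw [mul_inv_cancel_right]
  right_inv := by
    rintro ⟨b, _ | _⟩
    · show (b * c⁻¹ * c, false) = (b, false)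
      rw [inv_mul_cancel_right]
    · show (b * a * a, true) = (b, true)
      rw [mul_assoc, haa, mul_one]

/-- from a translation equality -/
lemma aux2 {b a d : Γ} (h : b * a * d = b) : a * d = 1 := by
  rw [mul_assoc] at h
  exact mul_eq_left.1 h

/-- forward arcs -/
lemma dec_fwd (c : Γ) (hcc : c * c ≠ 1) (hadjc : ∀ b, G.Adj (e b) (e (b * c))) :
    Dec G (fun u v => ∃ b, e b = u ∧ e (b * c) = v) := by
  refine Dec.of_inv (G := G) (I := Γ) (K := Unit) (fun b => e b) (fun b => e (b * c))
    (Equiv.mulRight c) (fun _ => ()) (fun _ => rfl) (fun _ => rfl) hadjc ?_ ?_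
  · intro i j h _
    exact e.injective h
  · intro i j _ h1 h2
    have h1' := e.injective h1
    have h2' := e.injective h2
    rw [h1'] at h2'
    exact hcc (aux2 h2')

lemma cay1 (a c : Γ) (haa : a * a = 1) (hcc : c * c ≠ 1)
    (hadja : ∀ b, G.Adj (e b) (e (b * a))) (hadjc : ∀ b, G.Adj (e b) (e (b * c)))
    (hz : a ∉ Subgroup.zpowers (a * c)) : Dec G (CR e a c) := by
  classical
  have hcc' := inv_sq hcc
  have hac := ne_of_sq haa hcc
  have hac' := ne_of_sq haa hcc'
  have hcne : c ≠ c⁻¹ := ne_inv_of_sq hcc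
  have hadjc' : ∀ b, G.Adj (e b) (e (b * c⁻¹)) := by
    intro b
    have := hadjc (b * c⁻¹)
    rw [inv_mul_cancel_right] at this
    exact this.symm
  have d1 : Dec G (fun u v => ∃ i : Γ × Bool, e i.1 = u ∧
      (match i with | (b, false) => e (b * a) | (b, true) => e (b * c)) = v) := by
    refine Dec.of_inv (G := G) (I := Γ × Bool) (K := Γ ⧸ Subgroup.zpowers (a * c))
      (fun i => e i.1) (fun i => match i with | (b, false) => e (b * a) | (b, true) => e (b * c))
      (sig a c haa) (fun i => match i with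
        | (b, false) => QuotientGroup.mk b
        | (b, true) => QuotientGroup.mk (b * a)) ?_ ?_ ?_ ?_ ?_
    · rintro ⟨b, _ | _⟩
      · show (QuotientGroup.mk (b * a * a) : Γ ⧸ Subgroup.zpowers (a * c)) = QuotientGroup.mk b
        rw [mul_assoc, haa, mul_one]
      · show (QuotientGroup.mk (b * c) : Γ ⧸ Subgroup.zpowers (a * c)) = QuotientGroup.mk (b * a)
        have h1 : b * c = b * a * (a * c) := by
          rw [mul_assoc, ← mul_assoc a a c, haa, one_mul]
        rw [h1]
        exact QuotientGroup.mk_mul_of_mem (b * a) (Subgroup.mem_zpowers _)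
    · rintro ⟨b, _ | _⟩
      · rfl
      · rfl
    · rintro ⟨b, _ | _⟩
      · exact hadja b
      · exact hadjc b
    · rintro ⟨b, _ | _⟩ ⟨b', _ | _⟩ h1 h2
      · have h1' : b = b' := e.injective h1
        rw [h1']
      · have h1' : b = b' := e.injective h1
        have h2' : b * a = b' * c := e.injective h2
        rw [h1'] at h2'
        exact absurd (mul_left_cancel h2') hac
      · have h1' : b = b' := e.injective h1
        have h2' : b * c = b' * a := e.injective h2
        rw [h1'] at h2'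
        exact absurd (mul_left_cancel h2').symm hac
      · have h1' : b = b' := e.injective h1
        rw [h1']
    · rintro ⟨b, _ | _⟩ ⟨b', _ | _⟩ h0 h1 h2
      · have h1' : b' = b * a := e.injective h1
        have h0' : (QuotientGroup.mk b : Γ ⧸ Subgroup.zpowers (a * c)) =
          QuotientGroup.mk b' := h0
        have h3 := QuotientGroup.eq.1 h0'
        rw [h1', inv_mul_cancel_left] at h3
        exact hz h3
      · have h1' : b' = b * a := e.injective h1
        have h2' : b' * c = b := e.injective h2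
        rw [h1'] at h2'
        exact mul_ne_of_sq haa hcc (aux2 h2')
      · have h1' : b' = b * c := e.injective h1
        have h2' : b' * a = b := e.injective h2
        rw [h1'] at h2'
        exact mul_ne_of_sq' haa hcc (aux2 h2')
      · have h1' : b' = b * c := e.injective h1
        have h2' : b' * c = b := e.injective h2
        rw [h1'] at h2'
        exact hcc (aux2 h2')
  refine Dec.congr ?_ (d1.union (dec_fwd e c⁻¹ hcc' hadjc') ?_)
  · intro u v
    constructor
    · rintro (⟨⟨b, _ | _⟩, h1, h2⟩ | ⟨b, h1, h2⟩)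
      · exact ⟨b, h1, Or.inl h2⟩
      · exact ⟨b, h1, Or.inr (Or.inl h2)⟩
      · exact ⟨b, h1, Or.inr (Or.inr h2)⟩
    · rintro ⟨b, h1, h2 | h2 | h2⟩
      · exact Or.inl ⟨(b, false), h1, h2⟩
      · exact Or.inl ⟨(b, true), h1, h2⟩
      · exact Or.inr ⟨b, h1, h2⟩
  · rintro u v ⟨⟨b, _ | _⟩, h1, h2⟩ ⟨b', h1', h2'⟩
    · have h3 : b = b' := e.injective (h1.trans h1'.symm)
      have h4 : b * a = b' * c⁻¹ := e.injective (h2.trans h2'.symm)
      rw [h3] at h4
      exact hac' (mul_left_cancel h4)
    · have h3 : b = b' := e.injective (h1.trans h1'.symm)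
      have h4 : b * c = b' * c⁻¹ := e.injective (h2.trans h2'.symm)
      rw [h3] at h4
      exact hcne (mul_left_cancel h4)

/-- the number of neighbours given by a function -/
lemma sum_fun (f : V → V) (v : V) : ∑ w, ind (w = f v) = 1 := by
  classical
  rw [Finset.sum_eq_single (f v)]
  · exact ind_pos rfl
  · intro w _ hw
    exact ind_neg hw
  · intro h
    exact absurd (mem_univ _) h

lemma cay2 (a c : Γ) (haa : a * a = 1) (hcc : c * c ≠ 1) (ha1 : a ≠ 1)
    (hadja : ∀ b, G.Adj (e b) (e (b * a))) (hadjc : ∀ b, G.Adj (e b) (e (b * c)))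
    (hz : a ∈ Subgroup.zpowers c) : Dec G (CR e a c) := by
  classical
  have hcc' := inv_sq hcc
  have hac := ne_of_sq haa hcc
  have hac' := ne_of_sq haa hcc'
  have hcne : c ≠ c⁻¹ := ne_inv_of_sq hcc
  have hadjc' : ∀ b, G.Adj (e b) (e (b * c⁻¹)) := by
    intro b
    have := hadjc (b * c⁻¹)
    rw [inv_mul_cancel_right] at this
    exact this.symm
  -- parity
  obtain ⟨p, hp, -⟩ := half (Subgroup.zpowers (c * c)) c (by
    intro hmem
    obtain ⟨i, hi⟩ := Subgroup.mem_zpowers_iff.1 hz
    obtain ⟨j, hj⟩ := Subgroup.mem_zpowers_iff.1 hmem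
    have ho : orderOf a = 2 := by
      refine orderOf_eq_prime ?_ ha1
      rw [pow_two, haa]
    have h2 : (2 : ℤ) ∣ (orderOf c : ℤ) := by
      have : orderOf a ∣ orderOf c := by
        rw [← hi]
        exact orderOf_dvd_of_mem_zpowers (Subgroup.zpow_mem_zpowers c i)
      rw [ho] at this
      exact_mod_cast this
    have h3 : c ^ (2 * j - 1) = 1 := by
      rw [zpow_sub_one, zpow_mul, mul_inv_eq_one]
      have : c ^ (2 : ℤ) = c * c := by
        rw [show (2 : ℤ) = ((2 : ℕ) : ℤ) from rfl, zpow_natCast, pow_two]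
      rw [this, hj]
    have h4 := (orderOf_dvd_iff_zpow_eq_one.2 h3)
    have h5 := h2.trans h4
    omega) (Subgroup.mem_zpowers _) (by
    intro k hk
    obtain ⟨j, rfl⟩ := Subgroup.mem_zpowers_iff.1 hk
    have : Commute (c * c) c := (Commute.refl c).mul_left (Commute.refl c)
    exact this.zpow_left j)
  have hp' : ∀ b, p (b * c⁻¹) ↔ ¬ p b := by
    intro b
    have := hp (b * c⁻¹)
    rw [inv_mul_cancel_right] at this
    tauto
  let f : Γ → Γ := fun b => b * (if p b then c else c⁻¹)
  let g : Γ → Γ := fun b => b * (if p b then c⁻¹ else c)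
  have hf1 : ∀ b, p b → f b = b * c := by intro b h; show b * _ = _; rw [if_pos h]
  have hf2 : ∀ b, ¬ p b → f b = b * c⁻¹ := by intro b h; show b * _ = _; rw [if_neg h]
  have hg1 : ∀ b, p b → g b = b * c⁻¹ := by intro b h; show b * _ = _; rw [if_pos h]
  have hg2 : ∀ b, ¬ p b → g b = b * c := by intro b h; show b * _ = _; rw [if_neg h]
  have hff : ∀ b, f (f b) = b := by
    intro b
    by_cases h : p b
    · rw [hf1 b h, hf2 _ (fun h' => (hp b).1 h' h), mul_inv_cancel_right]
    · rw [hf2 b h, hf1 _ ((hp' b).2 h), inv_mul_cancel_right]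
  have hgg : ∀ b, g (g b) = b := by
    intro b
    by_cases h : p b
    · rw [hg1 b h, hg2 _ (fun h' => (hp' b).1 h' h), inv_mul_cancel_right]
    · rw [hg2 b h, hg1 _ ((hp b).2 h), mul_inv_cancel_right]
  have hfa : ∀ b, G.Adj (e b) (e (f b)) := by
    intro b
    by_cases h : p b
    · rw [hf1 b h]; exact hadjc b
    · rw [hf2 b h]; exact hadjc' b
  have hga : ∀ b, G.Adj (e b) (e (g b)) := by
    intro b
    by_cases h : p b
    · rw [hg1 b h]; exact hadjc' b
    · rw [hg2 b h]; exact hadjc b
  have hnf : ∀ b, b * a ≠ f b := by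
    intro b h
    by_cases h' : p b
    · rw [hf1 b h'] at h; exact hac (mul_left_cancel h)
    · rw [hf2 b h'] at h; exact hac' (mul_left_cancel h)
  have hng : ∀ b, b * a ≠ g b := by
    intro b h
    by_cases h' : p b
    · rw [hg1 b h'] at h; exact hac' (mul_left_cancel h)
    · rw [hg2 b h'] at h; exact hac (mul_left_cancel h)
  have hfg : ∀ b, f b ≠ g b := by
    intro b h
    by_cases h' : p b
    · rw [hf1 b h', hg1 b h'] at h; exact hcne (mul_left_cancel h)
    · rw [hf2 b h', hg2 b h'] at h; exact hcne (mul_left_cancel h).symm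
  have key : ∀ q : Γ → Γ, (∀ b, q (q b) = b) → (∀ b, G.Adj (e b) (e (q b))) →
      (∀ u v, v = e (q (e.symm u)) → G.Adj u v) ∧
      (∀ u v, v = e (q (e.symm u)) → u = e (q (e.symm v))) := by
    intro q h1 h2
    constructor
    · rintro u v rfl
      have := h2 (e.symm u)
      rwa [e.apply_symm_apply] at this
    · rintro u v rfl
      rw [e.symm_apply_apply, h1, e.apply_symm_apply]
  have haa' : ∀ b : Γ, b * a * a = b := by
    intro b
    rw [mul_assoc, haa, mul_one]
  have k1 := key (fun b => b * a) haa' hadja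
  have k2 := key f hff hfa
  have k3 := key g hgg hga
  have hs : ∀ q : Γ → Γ, ∀ v : V, ∑ w, ind (w = e (q (e.symm v))) = 1 :=
    fun q v => sum_fun (fun v => e (q (e.symm v))) v
  have main := Dec.of_three (G := G) (R₁ := fun u v => v = e (e.symm u * a))
    (R₂ := fun u v => v = e (f (e.symm u))) (R₃ := fun u v => v = e (g (e.symm u)))
    k1.1 k2.1 k3.1 k1.2 k2.2 k3.2
    (by
      rintro u v h1 h2
      exact hnf _ (e.injective (h1.symm.trans h2)))
    (by
      rintro u v h1 h2
      exact hng _ (e.injective (h1.symm.trans h2)))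
    (by
      rintro u v h1 h2
      exact hfg _ (e.injective (h1.symm.trans h2)))
    (by
      intro v
      rw [hs (fun b => b * a), hs f]
      exact ⟨1, rfl⟩)
    (by
      intro v
      rw [hs (fun b => b * a), hs g]
      exact ⟨1, rfl⟩)
    (by
      intro v
      rw [hs f, hs g]
      exact ⟨1, rfl⟩)
  refine Dec.congr ?_ main
  intro u v
  constructor
  · intro h
    refine ⟨e.symm u, e.apply_symm_apply u, ?_⟩
    by_cases h' : p (e.symm u)
    · rw [hf1 _ h', hg1 _ h'] at h
      rcases h with h | h | h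
      · exact Or.inl h.symm
      · exact Or.inr (Or.inl h.symm)
      · exact Or.inr (Or.inr h.symm)
    · rw [hf2 _ h', hg2 _ h'] at h
      rcases h with h | h | h
      · exact Or.inl h.symm
      · exact Or.inr (Or.inr h.symm)
      · exact Or.inr (Or.inl h.symm)
  · rintro ⟨b, rfl, h⟩
    show v = e (e.symm (e b) * a) ∨ v = e (f (e.symm (e b))) ∨ v = e (g (e.symm (e b)))
    rw [e.symm_apply_apply]
    by_cases h' : p b
    · rw [hf1 _ h', hg1 _ h']
      rcases h with h | h | h
      · exact Or.inl h.symm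
      · exact Or.inr (Or.inl h.symm)
      · exact Or.inr (Or.inr h.symm)
    · rw [hf2 _ h', hg2 _ h']
      rcases h with h | h | h
      · exact Or.inl h.symm
      · exact Or.inr (Or.inr h.symm)
      · exact Or.inr (Or.inl h.symm)

/-- the permutation of the arcs of the squares -/
def sig3 (a c : Γ) (haa : a * a = 1) (f f' : Γ → Γ) (h1 : ∀ b, f (f' b) = b)
    (h2 : ∀ b, f' (f b) = b) : Equiv.Perm (Γ × Bool) where
  toFun i := match i with
    | (b, false) => (b * a, true)
    | (b, true) => (f b, false)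
  invFun i := match i with
    | (b, true) => (b * a, false)
    | (b, false) => (f' b, true)
  left_inv := by
    rintro ⟨b, _ | _⟩
    · show (b * a * a, false) = (b, false)
      rw [mul_assoc, haa, mul_one]
    · show (f' (f b), true) = (b, true)
      rw [h2]
  right_inv := by
    rintro ⟨b, _ | _⟩
    · show (f (f' b), false) = (b, false)
      rw [h1]
    · show (b * a * a, true) = (b, true)
      rw [mul_assoc, haa, mul_one]

lemma cay3 (a c : Γ) (haa : a * a = 1) (hcc : c * c ≠ 1)
    (hadja : ∀ b, G.Adj (e b) (e (b * a))) (hadjc : ∀ b, G.Adj (e b) (e (b * c)))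
    (hcomm : a * c = c * a) (hz : a ∉ Subgroup.zpowers c) : Dec G (CR e a c) := by
  classical
  have hcc' := inv_sq hcc
  have hac := ne_of_sq haa hcc
  have hac' := ne_of_sq haa hcc'
  have hcne : c ≠ c⁻¹ := ne_inv_of_sq hcc
  have hadjc' : ∀ b, G.Adj (e b) (e (b * c⁻¹)) := by
    intro b
    have := hadjc (b * c⁻¹)
    rw [inv_mul_cancel_right] at this
    exact this.symm
  have hcomm' : a * c⁻¹ = c⁻¹ * a := by
    have : Commute a c := hcomm
    exact this.inv_right
  have hc1 : c ≠ 1 := by
    rintro rfl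
    exact hcc (mul_one 1)
  -- top
  obtain ⟨p, hp, hpk⟩ := half (Subgroup.zpowers c) a hz (by rw [haa]; exact Subgroup.one_mem _) (by
    intro k hk
    obtain ⟨j, rfl⟩ := Subgroup.mem_zpowers_iff.1 hk
    have : Commute a c := hcomm
    exact (this.zpow_right j).symm)
  have hpc : ∀ b, p (b * c) ↔ p b := fun b => hpk b c (Subgroup.mem_zpowers c)
  have hpc' : ∀ b, p (b * c⁻¹) ↔ p b :=
    fun b => hpk b c⁻¹ (Subgroup.inv_mem _ (Subgroup.mem_zpowers c))
  let f : Γ → Γ := fun b => b * (if p b then c else c⁻¹)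
  let g : Γ → Γ := fun b => b * (if p b then c⁻¹ else c)
  have hf1 : ∀ b, p b → f b = b * c := by intro b h; show b * _ = _; rw [if_pos h]
  have hf2 : ∀ b, ¬ p b → f b = b * c⁻¹ := by intro b h; show b * _ = _; rw [if_neg h]
  have hg1 : ∀ b, p b → g b = b * c⁻¹ := by intro b h; show b * _ = _; rw [if_pos h]
  have hg2 : ∀ b, ¬ p b → g b = b * c := by intro b h; show b * _ = _; rw [if_neg h]
  have hpf : ∀ b, p (f b) ↔ p b := by
    intro b
    by_cases h : p b
    · rw [hf1 b h]; exact hpc b
    · rw [hf2 b h]; exact hpc' b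
  have hpg : ∀ b, p (g b) ↔ p b := by
    intro b
    by_cases h : p b
    · rw [hg1 b h]; exact hpc' b
    · rw [hg2 b h]; exact hpc b
  have hfg : ∀ b, f (g b) = b := by
    intro b
    by_cases h : p b
    · rw [hf1 _ ((hpg b).2 h), hg1 b h, inv_mul_cancel_right]
    · rw [hf2 _ (fun h' => h ((hpg b).1 h')), hg2 b h, mul_inv_cancel_right]
  have hgf : ∀ b, g (f b) = b := by
    intro b
    by_cases h : p b
    · rw [hg1 _ ((hpf b).2 h), hf1 b h, mul_inv_cancel_right]
    · rw [hg2 _ (fun h' => h ((hpf b).1 h')), hf2 b h, inv_mul_cancel_right]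
  have hfa : ∀ b, G.Adj (e b) (e (f b)) := by
    intro b
    by_cases h : p b
    · rw [hf1 b h]; exact hadjc b
    · rw [hf2 b h]; exact hadjc' b
  have hga : ∀ b, G.Adj (e b) (e (g b)) := by
    intro b
    by_cases h : p b
    · rw [hg1 b h]; exact hadjc' b
    · rw [hg2 b h]; exact hadjc b
  have hff : ∀ b, f (f b) ≠ b := by
    intro b h0
    by_cases h : p b
    · rw [hf1 _ ((hpf b).2 h), hf1 b h] at h0; exact hcc (aux2 h0)
    · rw [hf2 _ (fun h' => h ((hpf b).1 h')), hf2 b h] at h0; exact hcc' (aux2 h0)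
  have hgg : ∀ b, g (g b) ≠ b := by
    intro b h0
    by_cases h : p b
    · rw [hg1 _ ((hpg b).2 h), hg1 b h] at h0; exact hcc' (aux2 h0)
    · rw [hg2 _ (fun h' => h ((hpg b).1 h')), hg2 b h] at h0; exact hcc (aux2 h0)
  have hga' : ∀ b, g (b * a) ≠ b := by
    intro b h0
    by_cases h : p (b * a)
    · rw [hg1 _ h] at h0; exact mul_ne_of_sq haa hcc' (aux2 h0)
    · rw [hg2 _ h] at h0; exact mul_ne_of_sq haa hcc (aux2 h0)
  have hag' : ∀ b, g b * a ≠ b := by
    intro b h0
    by_cases h : p b
    · rw [hg1 _ h] at h0; exact mul_ne_of_sq' haa hcc' (aux2 h0)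
    · rw [hg2 _ h] at h0; exact mul_ne_of_sq' haa hcc (aux2 h0)
  have hng : ∀ b, b * a ≠ g b := by
    intro b h
    by_cases h' : p b
    · rw [hg1 b h'] at h; exact hac' (mul_left_cancel h)
    · rw [hg2 b h'] at h; exact hac (mul_left_cancel h)
  have hnf : ∀ b, b * a ≠ f b := by
    intro b h
    by_cases h' : p b
    · rw [hf1 b h'] at h; exact hac (mul_left_cancel h)
    · rw [hf2 b h'] at h; exact hac' (mul_left_cancel h)
  have hnfg : ∀ b, f b ≠ g b := by
    intro b h
    by_cases h' : p b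
    · rw [hf1 b h', hg1 b h'] at h; exact hcne (mul_left_cancel h)
    · rw [hf2 b h', hg2 b h'] at h; exact hcne (mul_left_cancel h).symm
  -- the cycles of one kind
  have d1 : Dec G (fun u v => ∃ b, e b = u ∧ e (f b) = v) := by
    refine Dec.of_inv (G := G) (I := Γ) (K := Unit) (fun b => e b) (fun b => e (f b))
      ⟨f, g, hgf, hfg⟩ (fun _ => ()) (fun _ => rfl) (fun _ => rfl) hfa ?_ ?_
    · intro i j h _
      exact e.injective h
    · intro i j _ h1 h2
      have h1' := e.injective h1
      have h2' := e.injective h2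
      rw [h1'] at h2'
      exact hff i h2'
  -- the squares
  have d2 : Dec G (fun u v => ∃ i : Γ × Bool, e i.1 = u ∧
      (match i with | (b, false) => e (b * a) | (b, true) => e (g b)) = v) := by
    refine Dec.of_inv (G := G) (I := Γ × Bool) (K := Γ)
      (fun i => e i.1) (fun i => match i with | (b, false) => e (b * a) | (b, true) => e (g b))
      (sig3 a c haa g f hgf hfg) (fun i => match i with
        | (b, false) => if p b then b else b * c⁻¹ * a
        | (b, true) => if p b then b * c⁻¹ else b * a) ?_ ?_ ?_ ?_ ?_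
    · rintro ⟨b, _ | _⟩
      · show (if p (b * a) then b * a * c⁻¹ else b * a * a) = (if p b then b else b * c⁻¹ * a)
        by_cases h : p b
        · rw [if_neg (fun h' => (hp b).1 h' h), if_pos h, mul_assoc, haa, mul_one]
        · rw [if_pos ((hp b).2 h), if_neg h, mul_assoc, hcomm', mul_assoc]
      · show (if p (g b) then g b else g b * c⁻¹ * a) = (if p b then b * c⁻¹ else b * a)
        by_cases h : p b
        · rw [if_pos ((hpg b).2 h), if_pos h, hg1 b h]
        · rw [if_neg (fun h' => h ((hpg b).1 h')), if_neg h, hg2 b h, mul_inv_cancel_right]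
    · rintro ⟨b, _ | _⟩
      · rfl
      · rfl
    · rintro ⟨b, _ | _⟩
      · exact hadja b
      · exact hga b
    · rintro ⟨b, _ | _⟩ ⟨b', _ | _⟩ h1 h2
      · have h1' : b = b' := e.injective h1
        rw [h1']
      · have h1' : b = b' := e.injective h1
        have h2' : b * a = g b' := e.injective h2
        rw [← h1'] at h2'
        exact absurd h2' (hng b)
      · have h1' : b = b' := e.injective h1
        have h2' : g b = b' * a := e.injective h2
        rw [← h1'] at h2'
        exact absurd h2'.symm (hng b)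
      · have h1' : b = b' := e.injective h1
        rw [h1']
    · rintro ⟨b, _ | _⟩ ⟨b', _ | _⟩ h0 h1 h2
      · have h1' : b' = b * a := e.injective h1
        have h0' : (if p b then b else b * c⁻¹ * a) = (if p b' then b' else b' * c⁻¹ * a) := h0
        rw [h1'] at h0'
        by_cases h : p b
        · rw [if_pos h, if_neg (fun h' => (hp b).1 h' h)] at h0'
          have h3 : b * a * c⁻¹ * a = b * c⁻¹ := by
            rw [mul_assoc b a c⁻¹, hcomm', ← mul_assoc, mul_assoc, haa, mul_one]
          rw [h3] at h0'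
          have h4 : c⁻¹ = 1 := mul_eq_left.1 h0'.symm
          exact hc1 (inv_eq_one.1 h4)
        · rw [if_neg h, if_pos ((hp b).2 h)] at h0'
          have h4 : b * c⁻¹ = b := mul_right_cancel h0'
          have h5 : c⁻¹ = 1 := mul_eq_left.1 h4
          exact hc1 (inv_eq_one.1 h5)
      · have h1' : b' = b * a := e.injective h1
        have h2' : g b' = b := e.injective h2
        rw [h1'] at h2'
        exact hga' b h2'
      · have h1' : b' = g b := e.injective h1
        have h2' : b' * a = b := e.injective h2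
        rw [h1'] at h2'
        exact hag' b h2'
      · have h1' : b' = g b := e.injective h1
        have h2' : g b' = b := e.injective h2
        rw [h1'] at h2'
        exact hgg b h2'
  refine Dec.congr ?_ (d1.union d2 ?_)
  · intro u v
    constructor
    · rintro (⟨b, h1, h2⟩ | ⟨⟨b, _ | _⟩, h1, h2⟩)
      · refine ⟨b, h1, ?_⟩
        by_cases h : p b
        · rw [hf1 b h] at h2; exact Or.inr (Or.inl h2)
        · rw [hf2 b h] at h2; exact Or.inr (Or.inr h2)
      · exact ⟨b, h1, Or.inl h2⟩
      · refine ⟨b, h1, ?_⟩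
        have h2' : e (g b) = v := h2
        by_cases h : p b
        · rw [hg1 b h] at h2'; exact Or.inr (Or.inr h2')
        · rw [hg2 b h] at h2'; exact Or.inr (Or.inl h2')
    · rintro ⟨b, h1, h2 | h2 | h2⟩
      · exact Or.inr ⟨(b, false), h1, h2⟩
      · by_cases h : p b
        · exact Or.inl ⟨b, h1, by rw [hf1 b h]; exact h2⟩
        · exact Or.inr ⟨(b, true), h1, by show e (g b) = v; rw [hg2 b h]; exact h2⟩
      · by_cases h : p b
        · exact Or.inr ⟨(b, true), h1, by show e (g b) = v; rw [hg1 b h]; exact h2⟩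
        · exact Or.inl ⟨b, h1, by rw [hf2 b h]; exact h2⟩
  · rintro u v ⟨b', h1', h2'⟩ ⟨⟨b, _ | _⟩, h1, h2⟩
    · have h3 : b = b' := e.injective (h1.trans h1'.symm)
      have h4 : b * a = f b' := e.injective (h2.trans h2'.symm)
      rw [← h3] at h4
      exact hnf b h4
    · have h3 : b = b' := e.injective (h1.trans h1'.symm)
      have h4 : g b = f b' := e.injective (h2.trans h2'.symm)
      rw [← h3] at h4
      exact hnfg b h4.symm

/-- the cubic Cayley piece -/
theorem cay (a c : Γ) (haa : a * a = 1) (hcc : c * c ≠ 1) (ha1 : a ≠ 1)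
    (hadja : ∀ b, G.Adj (e b) (e (b * a))) (hadjc : ∀ b, G.Adj (e b) (e (b * c))) :
    Dec G (CR e a c) := by
  by_cases h1 : a ∈ Subgroup.zpowers (a * c)
  · have hcomm : a * c = c * a := by
      obtain ⟨i, hi⟩ := Subgroup.mem_zpowers_iff.1 h1
      have h2 : Commute ((a * c) ^ i) (a * c) := (Commute.refl (a * c)).zpow_left i
      rw [hi] at h2
      have h3 : a * (a * c) = a * c * a := h2
      have h4 : a * (a * c) = a * (c * a) := by rw [h3, mul_assoc]
      exact mul_left_cancel h4
    by_cases h2 : a ∈ Subgroup.zpowers c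
    · exact cay2 e a c haa hcc ha1 hadja hadjc h2
    · exact cay3 e a c haa hcc hadja hadjc hcomm h2
  · exact cay1 e a c haa hcc hadja hadjc h1

end Cayley

end Pool.Agent.R759.OC
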