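import Pool.Agent.R759.OCGroup

set_option autoImplicit false
set_option linter.unusedSectionVars false

/-!
Oriented cycle double covers of graphs with a vertex-transitive group.
-/

namespace Pool.Agent.R759.OC

open Finset Pool.Agent.TH505.OCDC

variable {V : Type} [Fintype V] {G : SimpleGraph V}

section

variable (B : Subgroup (Equiv.Perm V))

lemma sum_or {A C : V → V → Prop} (h : ∀ u v, A u v → ¬ C u v) (v : V) :
    ∑ w, ind (A v w ∨ C v w) = ∑ w, ind (A v w) + ∑ w, ind (C v w) := by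
  rw [← Finset.sum_add_distrib]
  refine Finset.sum_congr rfl fun w _ => ?_
  by_cases a : A v w
  · rw [ind_pos a, ind_neg (h v w a), ind_pos (Or.inl a)]
  · by_cases b : C v w
    · rw [ind_neg a, ind_pos b, ind_pos (Or.inr b)]
    · rw [ind_neg a, ind_neg b, ind_neg (by tauto)]

lemma sum_split (A C : V → V → Prop) (h : ∀ u v, A u v → C u v) (v : V) :
    ∑ w, ind (C v w) = ∑ w, ind (A v w) + ∑ w, ind (C v w ∧ ¬ A v w) := by
  rw [← sum_or (A := A) (C := fun u v => C u v ∧ ¬ A u v) (fun u v h1 h2 => h2.2 h1)]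
  refine Finset.sum_congr rfl fun w _ => ?_
  congr 1
  apply propext
  constructor
  · intro hc
    by_cases ha : A v w
    · exact Or.inl ha
    · exact Or.inr ⟨hc, ha⟩
  · rintro (ha | hc)
    · exact h v w ha
    · exact hc.1

lemma sum_ind_ncard (A : V → Prop) : ∑ w, ind (A w) = {w | A w}.ncard := by
  classical
  rw [Set.ncard_eq_toFinset_card', Set.toFinset_ofPred, Finset.card_filter]
  refine Finset.sum_congr rfl fun w _ => ?_
  unfold ind
  split_ifs <;> rfl

/-- splitting off a symmetric invariant set of arcs with odd valency from a set of arcs -/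
lemma Dec.rest {R : V → V → Prop} (hR : Dec G R) (hRG : ∀ u v, R u v → G.Adj u v)
    (hs : ∀ u v, R u v → R v u) (he : ∀ v, Even (∑ w, ind (G.Adj v w ∧ ¬ R v w))) :
    Dec G G.Adj := by
  have d := Dec.of_even (G := G) (R := fun u v => G.Adj u v ∧ ¬ R u v) (fun u v h => h.1)
    (fun u v h => ⟨h.1.symm, fun h' => h.2 (hs v u h')⟩) he
  refine Dec.congr ?_ (hR.union d (fun u v h h' => h'.2 h))
  intro u v
  constructor
  · rintro (h | h)
    · exact hRG u v h
    · exact h.1
  · intro h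
    by_cases h' : R u v
    · exact Or.inl h'
    · exact Or.inr ⟨h, h'⟩

lemma Orb_adj (hB : Inv B G.Adj) {x y : V} (hxy : G.Adj x y) :
    ∀ u v, Orb B x y u v → G.Adj u v := by
  rintro u v ⟨b, hb, rfl, rfl⟩
  exact hB b hb _ _ hxy

lemma Orb_symm {x y : V} (h : ∃ b ∈ B, b x = y ∧ b y = x) :
    ∀ u v, Orb B x y u v → Orb B x y v u := by
  rintro u v ⟨b, hb, rfl, rfl⟩
  obtain ⟨s, hs, h1, h2⟩ := h
  refine ⟨b * s, B.mul_mem hb hs, ?_, ?_⟩
  · rw [Equiv.Perm.mul_apply, h1]
  · rw [Equiv.Perm.mul_apply, h2]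

/-- orbits of arcs are equal or disjoint -/
lemma Orb_disj {x y z : V} (h : ¬ ∃ b ∈ B, b x = x ∧ b y = z) :
    ∀ u v, Orb B x y u v → ¬ Orb B x z u v := by
  rintro u v ⟨b, hb, rfl, rfl⟩ ⟨c, hc, h1, h2⟩
  apply h
  refine ⟨c⁻¹ * b, B.mul_mem (B.inv_mem hc) hb, ?_, ?_⟩
  · rw [Equiv.Perm.mul_apply, ← h1, pinv]
  · rw [Equiv.Perm.mul_apply, ← h2, pinv]

/-- all orbits of arcs decompose -/
lemma dec_all (htr : ∀ x y, ∃ b ∈ B, b x = y) (hB : Inv B G.Adj) (x : V)
    (h : ∀ y, G.Adj x y → Dec G (Orb B x y)) : Dec G G.Adj := by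
  classical
  let S : Setoid {y : V // G.Adj x y} :=
    { r := fun y z => ∃ b ∈ B, b x = x ∧ b y = z
      iseqv := ⟨fun y => ⟨1, B.one_mem, rfl, rfl⟩, by
        rintro y z ⟨b, hb, h1, h2⟩
        refine ⟨b⁻¹, B.inv_mem hb, ?_, ?_⟩
        · conv_lhs => rw [← h1]
          rw [pinv]
        · rw [← h2, pinv], by
        rintro y z w ⟨b, hb, h1, h2⟩ ⟨c, hc, h3, h4⟩
        refine ⟨c * b, B.mul_mem hc hb, ?_, ?_⟩
        · rw [Equiv.Perm.mul_apply, h1, h3]
        · rw [Equiv.Perm.mul_apply, h2, h4]⟩ }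
  let A : Quotient S → V → V → Prop := fun j => Orb B x (Quotient.out j).1
  refine Dec.congr ?_ (Dec.iUnion A (fun j => h _ (Quotient.out j).2) ?_)
  · intro u v
    constructor
    · rintro ⟨j, hj⟩
      exact Orb_adj B hB (Quotient.out j).2 u v hj
    · intro huv
      obtain ⟨b, hb, rfl⟩ := htr x u
      have hadj : G.Adj x (b⁻¹ v) := by
        rw [← hB.iff B hb, papp]
        exact huv
      refine ⟨Quotient.mk S ⟨b⁻¹ v, hadj⟩, ?_⟩
      have ho : S.r (Quotient.out (Quotient.mk S ⟨b⁻¹ v, hadj⟩)) ⟨b⁻¹ v, hadj⟩ :=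
        Quotient.exact (Quotient.out_eq (Quotient.mk S ⟨b⁻¹ v, hadj⟩))
      obtain ⟨c, hc, h1, h2⟩ := ho
      refine ⟨b * c, B.mul_mem hb hc, ?_, ?_⟩
      · rw [Equiv.Perm.mul_apply, h1]
      · rw [Equiv.Perm.mul_apply, h2, papp]
  · rintro i j u v hi hj
    by_contra hne
    refine Orb_disj B (x := x) (y := (Quotient.out i).1) (z := (Quotient.out j).1) ?_ u v hi hj
    intro hr
    apply hne
    rw [← Quotient.out_eq i, ← Quotient.out_eq j]
    exact Quotient.sound hr

/-- the main theorem -/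
theorem main (htr : ∀ x y, ∃ b ∈ B, b x = y) (hB : Inv B G.Adj)
    (hbr : ∀ u v : V, G.Adj u v → (G.deleteEdges {s(u, v)}).Reachable u v)
    (H : ∀ x y, G.Adj x y → (∃ b ∈ B, b x = y ∧ b y = x) →
      Odd {w | ∃ b ∈ B, b x = x ∧ b y = w}.ncard →
      (∀ b ∈ B, b x = x → b y = y → b = 1) ∨
      ∃ z, G.Adj x z ∧ (∃ b ∈ B, b x = z ∧ b z = x) ∧
        Odd {w | ∃ b ∈ B, b x = x ∧ b z = w}.ncard ∧ ¬ ∃ b ∈ B, b x = x ∧ b y = z) :
    Dec G G.Adj := by
  classical
  rcases isEmpty_or_nonempty V with hV | ⟨⟨x⟩⟩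
  · exact ⟨[], by simp, fun u => (hV.false u).elim⟩
  have hsplit := fun (R : V → V → Prop) (hR : ∀ u v, R u v → G.Adj u v) (v : V) =>
    sum_split R G.Adj hR v
  by_cases hev : Even (∑ w, ind (G.Adj x w))
  · refine Dec.of_even (G := G) (fun _ _ h => h) (fun _ _ h => h.symm) ?_
    intro v
    rw [hB.out_eq B htr v x]
    exact hev
  rw [Nat.not_even_iff_odd] at hev
  have hodd : ∀ v, Odd (∑ w, ind (G.Adj v w)) := by
    intro v
    rw [hB.out_eq B htr v x]
    exact hev
  -- out-valency of orbits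
  have hval : ∀ y, ∑ w, ind (Orb B x y x w) = {w | ∃ b ∈ B, b x = x ∧ b y = w}.ncard := by
    intro y
    exact sum_ind_ncard (fun w => Orb B x y x w)
  by_cases h1 : ∃ y, G.Adj x y ∧ (∃ b ∈ B, b x = y ∧ b y = x) ∧
      Odd {w | ∃ b ∈ B, b x = x ∧ b y = w}.ncard
  swap
  · -- no odd self-paired orbit
    refine dec_all B htr hB x ?_
    intro y hxy
    by_cases hs : ∃ b ∈ B, b x = y ∧ b y = x
    · refine Dec.of_even (G := G) (Orb_adj B hB hxy) (Orb_symm B hs) ?_
      intro v
      rw [(Orb_inv B x y).out_eq B htr v x, hval]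
      by_contra hne
      exact h1 ⟨y, hxy, hs, Nat.not_even_iff_odd.1 hne⟩
    · exact dec_orb_nonself B htr hB hxy hs
  obtain ⟨y, hxy, hs, ho⟩ := h1
  have hoy : ∀ v, Odd (∑ w, ind (Orb B x y v w)) := by
    intro v
    rw [(Orb_inv B x y).out_eq B htr v x, hval]
    exact ho
  by_cases h2 : ∃ z, G.Adj x z ∧ (∃ b ∈ B, b x = z ∧ b z = x) ∧
        Odd {w | ∃ b ∈ B, b x = x ∧ b z = w}.ncard ∧ ¬ ∃ b ∈ B, b x = x ∧ b y = z
  · obtain ⟨z, hxz, hsz, hoz, hyz⟩ := h2
    have hoz' : ∀ v, Odd (∑ w, ind (Orb B x z v w)) := by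
      intro v
      rw [(Orb_inv B x z).out_eq B htr v x, hval]
      exact hoz
    have hdis := Orb_disj B hyz
    have hrest : ∀ v, Odd (∑ w, ind (G.Adj v w ∧ ¬ (Orb B x y v w ∨ Orb B x z v w))) := by
      intro v
      have e1 := hsplit (fun u v => Orb B x y u v ∨ Orb B x z u v)
        (fun u v h => h.elim (Orb_adj B hB hxy u v) (Orb_adj B hB hxz u v)) v
      have e2 := sum_or (A := Orb B x y) (C := Orb B x z) hdis v
      rw [e2] at e1
      have h3 := hodd v
      have h4 := hoy v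
      have h5 := hoz' v
      rw [Nat.odd_iff] at *
      omega
    have d := Dec.of_three (G := G) (R₁ := Orb B x y) (R₂ := Orb B x z)
      (R₃ := fun u v => G.Adj u v ∧ ¬ (Orb B x y u v ∨ Orb B x z u v))
      (Orb_adj B hB hxy) (Orb_adj B hB hxz) (fun u v h => h.1)
      (Orb_symm B hs) (Orb_symm B hsz)
      (fun u v h => ⟨h.1.symm, fun h' => h.2 (h'.elim (fun h' => Or.inl (Orb_symm B hs v u h'))
        (fun h' => Or.inr (Orb_symm B hsz v u h')))⟩)
      hdis (fun u v h h' => h'.2 (Or.inl h)) (fun u v h h' => h'.2 (Or.inr h))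
      (fun v => (hoy v).add_odd (hoz' v)) (fun v => (hoy v).add_odd (hrest v))
      (fun v => (hoz' v).add_odd (hrest v))
    refine Dec.congr ?_ d
    intro u v
    constructor
    · rintro (h | h | h)
      · exact Orb_adj B hB hxy u v h
      · exact Orb_adj B hB hxz u v h
      · exact h.1
    · intro h
      by_cases h3 : Orb B x y u v
      · exact Or.inl h3
      · by_cases h4 : Orb B x z u v
        · exact Or.inr (Or.inl h4)
        · exact Or.inr (Or.inr ⟨h, fun h5 => h5.elim h3 h4⟩)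
  -- the arc stabilizer is trivial
  have hst : ∀ b ∈ B, b x = x → b y = y → b = 1 := by
    rcases H x y hxy hs ho with h | h
    · exact h
    · exact absurd h h2
  by_cases hreg : ∀ b ∈ B, b x = x → b = 1
  · -- regular group
    have hfree : ∀ b ∈ B, ∀ c ∈ B, b x = c x → b = c := by
      intro b hb c hc h
      have : c⁻¹ * b = 1 := by
        refine hreg _ (B.mul_mem (B.inv_mem hc) hb) ?_
        rw [Equiv.Perm.mul_apply, h, pinv]
      exact (inv_mul_eq_one.1 this).symm
    -- a second neighbour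
    obtain ⟨z, hxz, hzy⟩ : ∃ z, G.Adj x z ∧ z ≠ y := by
      obtain ⟨w⟩ := hbr x y hxy
      cases w with
      | nil => exact absurd rfl hxy.ne
      | @cons _ z _ h p =>
        rw [SimpleGraph.deleteEdges_adj] at h
        refine ⟨z, h.1, ?_⟩
        rintro rfl
        exact h.2 (Set.mem_singleton _)
    obtain ⟨s, hsB, hs1, hs2⟩ := hs
    obtain ⟨t, htB, ht⟩ := htr x z
    have hyz : ¬ ∃ b ∈ B, b x = x ∧ b y = z := by
      rintro ⟨b, hb, h3, h4⟩
      rw [hreg b hb h3] at h4
      exact hzy h4.symm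
    have htt : ¬ (t z = x) := by
      intro h3
      apply h2
      refine ⟨z, hxz, ⟨t, htB, ht, h3⟩, ?_, hyz⟩
      have : {w | ∃ b ∈ B, b x = x ∧ b z = w} = {z} := by
        ext w
        constructor
        · rintro ⟨b, hb, h3, h4⟩
          rw [hreg b hb h3] at h4
          exact h4.symm
        · rintro rfl
          exact ⟨1, B.one_mem, rfl, rfl⟩
      rw [this, Set.ncard_singleton]
      exact odd_one
    -- the elements
    let a : B := ⟨s, hsB⟩
    let c : B := ⟨t, htB⟩
    let ev : B → V := fun b => (b : Equiv.Perm V) x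
    have hev1 : Function.Injective ev := by
      intro b b' h
      exact Subtype.ext (hfree b b.2 b' b'.2 h)
    have hev2 : Function.Surjective ev := by
      intro v
      obtain ⟨b, hb, h⟩ := htr x v
      exact ⟨⟨b, hb⟩, h⟩
    let e : B ≃ V := Equiv.ofBijective ev ⟨hev1, hev2⟩
    have he : ∀ b : B, e b = (b : Equiv.Perm V) x := fun b => rfl
    have hea : ∀ b : B, e (b * a) = (b : Equiv.Perm V) y := by
      intro b
      show (b : Equiv.Perm V) (s x) = _
      rw [hs1]
    have hec : ∀ b : B, e (b * c) = (b : Equiv.Perm V) z := by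
      intro b
      show (b : Equiv.Perm V) (t x) = _
      rw [ht]
    have haa : a * a = 1 := by
      apply e.injective
      rw [hea]
      show s y = (1 : Equiv.Perm V) x
      rw [hs2]
      rfl
    have hcc : c * c ≠ 1 := by
      intro h
      have h3 : e (c * c) = e 1 := by rw [h]
      rw [hec] at h3
      exact htt h3
    have ha1 : a ≠ 1 := by
      intro h
      have h3 : e (1 * a) = e (1 * 1) := by rw [h]
      rw [hea, mul_one] at h3
      have h4 : y = x := h3
      exact hxy.ne h4.symm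
    have hadja : ∀ b : B, G.Adj (e b) (e (b * a)) := by
      intro b
      rw [hea]
      exact hB b b.2 _ _ hxy
    have hadjc : ∀ b : B, G.Adj (e b) (e (b * c)) := by
      intro b
      rw [hec]
      exact hB b b.2 _ _ hxz
    have d := cay e a c haa hcc ha1 hadja hadjc
    have hCR : ∀ u v, CR e a c u v ↔ (Orb B x y u v ∨ (Orb B x z u v ∨ Orb B x z v u)) := by
      intro u v
      constructor
      · rintro ⟨b, h3, h4 | h4 | h4⟩
        · left
          rw [hea] at h4
          exact ⟨b, b.2, h3, h4⟩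
        · right; left
          rw [hec] at h4
          exact ⟨b, b.2, h3, h4⟩
        · right; right
          refine ⟨(b * c⁻¹ : B), (b * c⁻¹ : B).2, h4, ?_⟩
          have h5 := hec (b * c⁻¹)
          rw [inv_mul_cancel_right] at h5
          rw [← h5]
          exact h3
      · rintro (⟨b, hb, h3, h4⟩ | ⟨b, hb, h3, h4⟩ | ⟨b, hb, h3, h4⟩)
        · refine ⟨⟨b, hb⟩, h3, Or.inl ?_⟩
          rw [hea]
          exact h4
        · refine ⟨⟨b, hb⟩, h3, Or.inr (Or.inl ?_)⟩
          rw [hec]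
          exact h4
        · refine ⟨⟨b, hb⟩ * c, ?_, Or.inr (Or.inr ?_)⟩
          · rw [hec]
            exact h4
          · rw [mul_inv_cancel_right]
            exact h3
    have d' : Dec G (fun u v => Orb B x y u v ∨ (Orb B x z u v ∨ Orb B x z v u)) :=
      Dec.congr hCR d
    have hns : ¬ ∃ b ∈ B, b x = z ∧ b z = x := by
      rintro ⟨b, hb, h3, h4⟩
      have : b = t := hfree b hb t htB (h3.trans ht.symm)
      rw [this] at h4
      exact htt h4
    have hdis := Orb_disj B hyz
    have hs' : ∃ b ∈ B, b x = y ∧ b y = x := ⟨s, hsB, hs1, hs2⟩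
    have hnz : ∀ u v, Orb B x z u v → ¬ Orb B x z v u := by
      rintro u v ⟨b, hb, rfl, rfl⟩ ⟨b', hb', h3, h4⟩
      apply hns
      refine ⟨b⁻¹ * b', B.mul_mem (B.inv_mem hb) hb', ?_, ?_⟩
      · rw [Equiv.Perm.mul_apply, h3, pinv]
      · rw [Equiv.Perm.mul_apply, h4, pinv]
    refine Dec.rest d' ?_ ?_ ?_
    · rintro u v (h | h | h)
      · exact Orb_adj B hB hxy u v h
      · exact Orb_adj B hB hxz u v h
      · exact (Orb_adj B hB hxz v u h).symm
    · rintro u v (h | h | h)
      · exact Or.inl (Orb_symm B hs' u v h)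
      · exact Or.inr (Or.inr h)
      · exact Or.inr (Or.inl h)
    · intro v
      have e1 := hsplit (fun u v => Orb B x y u v ∨ (Orb B x z u v ∨ Orb B x z v u))
        (fun u v h => h.elim (Orb_adj B hB hxy u v) (fun h => h.elim (Orb_adj B hB hxz u v)
          (fun h => (Orb_adj B hB hxz v u h).symm))) v
      have e2 := sum_or (A := Orb B x y) (C := fun u v => Orb B x z u v ∨ Orb B x z v u)
        (fun u v h h' => h'.elim (hdis u v h) (hdis v u (Orb_symm B hs' u v h))) v
      have e3 := sum_or (A := Orb B x z) (C := fun u v => Orb B x z v u) hnz v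
      have e4 := (Orb_inv B x z).balanced B htr v
      have h3 := hodd v
      have h4 := hoy v
      rw [e2, e3, ← e4] at e1
      rw [Nat.odd_iff] at h3 h4
      rw [Nat.even_iff]
      omega
  · -- shunt
    push Not at hreg
    obtain ⟨l, hl, hlx, hl1⟩ := hreg
    obtain ⟨s, hsB, hs1, hs2⟩ := hs
    have hs' : ∃ b ∈ B, b x = y ∧ b y = x := ⟨s, hsB, hs1, hs2⟩
    have d := dec_orb_shunt B hB hxy hst (g := s * l) (B.mul_mem hsB hl)
      (by rw [Equiv.Perm.mul_apply, hlx, hs1])
      (by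
        intro h
        rw [Equiv.Perm.mul_apply] at h
        have h3 : s (l y) = s y := h.trans hs2.symm
        exact hl1 (hst l hl hlx (s.injective h3)))
    refine Dec.rest d (Orb_adj B hB hxy) (Orb_symm B hs') ?_
    intro v
    have e1 := hsplit (Orb B x y) (Orb_adj B hB hxy) v
    have h3 := hodd v
    have h4 := hoy v
    rw [Nat.odd_iff] at h3 h4
    rw [Nat.even_iff]
    omega

end

end Pool.Agent.R759.OC
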