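import Pool.Agent.R759.RDFrame

/-! # The maximisers -/

set_option autoImplicit false

namespace Pool.Agent.R759.RD

open Finset Matrix
open Pool.Agent.R759

variable {d : ℕ}

lemma PM_smul_one (c : ℝ) (k : ℕ) :
    PM (c • (1 : Matrix (Fin d) (Fin d) ℝ)) k = (d.choose k : ℝ) * c ^ k := by
  unfold PM
  have h : ∀ s ∈ (univ : Finset (Fin d)).powersetCard k,
      ((c • (1 : Matrix (Fin d) (Fin d) ℝ)).submatrix (Subtype.val : s → Fin d)
        (Subtype.val : s → Fin d)).det = c ^ k := by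
    intro s hs
    have e : (c • (1 : Matrix (Fin d) (Fin d) ℝ)) = Matrix.diagonal fun _ => c := by
      ext i j
      rw [Matrix.smul_apply, Matrix.one_apply, Matrix.diagonal_apply]
      split_ifs <;> simp
    rw [e, Matrix.submatrix_diagonal _ _ Subtype.val_injective, det_diagonal]
    simp only [Function.comp_apply, prod_const, card_univ, Fintype.card_coe]
    rw [(mem_powersetCard.1 hs).2]
  rw [sum_congr rfl h, sum_const, card_powersetCard, card_univ, Fintype.card_fin, nsmul_eq_mul]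

lemma rowM_frame {q : Fin (d + 1) → EuclideanSpace ℝ (Fin d)} {c : ℝ}
    (h : ∀ j k : Fin d, ∑ i, q i j * q i k = if j = k then c else 0) :
    (rowM q)ᵀ * rowM q = c • (1 : Matrix (Fin d) (Fin d) ℝ) := by
  ext j k
  rw [Matrix.mul_apply, Matrix.smul_apply, Matrix.one_apply]
  simp only [rowM, Matrix.transpose_apply, Matrix.of_apply]
  rw [h]
  split_ifs <;> simp

/-- the value at a regular simplex -/
theorem V_regular (hd : 0 < d) (k : ℕ) (hkd : k ≤ d) {q : Fin (d + 1) → EuclideanSpace ℝ (Fin d)}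
    {r : ℝ} (hr : 0 < r) (hn : ∀ i, ‖q i‖ = r)
    (h : ∀ i j, i ≠ j → (inner ℝ (q i) (q j) : ℝ) = -(r ^ 2 / d)) :
    V k q = bound (d + 1) d k (∑ i, ‖q i‖) := by
  have hd0 : (0 : ℝ) < d := by exact_mod_cast hd
  set c : ℝ := r ^ 2 * (d + 1) / d with hc
  have hc0 : 0 < c := by positivity
  obtain ⟨D, hD⟩ : ∃ D : ℝ, D = Matrix.det (Matrix.of fun i j : Fin k =>
    if i = j then r ^ 2 else -(r ^ 2 / d)) := ⟨_, rfl⟩
  have hgd : ∀ I ∈ powersetCard k (univ : Finset (Fin (d + 1))), gd q I = D := by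
    intro I hI
    have hcard := (mem_powersetCard.1 hI).2
    let e : I ≃ Fin k := I.equivFinOfCardEq hcard
    unfold gd
    rw [hD, ← Matrix.det_submatrix_equiv_self e]
    congr 1
    ext i j
    simp only [Matrix.of_apply, Matrix.submatrix_apply, EmbeddingLike.apply_eq_iff_eq]
    split_ifs with hij
    · rw [hij, real_inner_self_eq_norm_sq, hn]
    · exact h _ _ fun hh => hij (Subtype.ext hh)
  have h1 := sum_gd q k
  rw [sum_congr rfl hgd, sum_const, card_powersetCard, card_univ, Fintype.card_fin, nsmul_eq_mul,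
    rowM_frame (fun j k => IsRegularSimplex.frame hd hr hn h j k), PM_smul_one] at h1
  have h2 : V k q = ((d + 1).choose k : ℝ) * Real.sqrt D := by
    have h3 : ∀ I ∈ powersetCard k (univ : Finset (Fin (d + 1))), wedge q I = Real.sqrt D := by
      intro I hI
      rw [← hgd I hI]; rfl
    unfold V
    rw [sum_congr rfl h3, sum_const, card_powersetCard, card_univ, Fintype.card_fin, nsmul_eq_mul]
  have hcn : (0 : ℝ) < (d + 1).choose k := by exact_mod_cast Nat.choose_pos (by omega)
  have hcd : (0 : ℝ) < d.choose k := by exact_mod_cast Nat.choose_pos hkd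
  have hL : ∑ i, ‖q i‖ = (d + 1) * r := by
    rw [sum_congr rfl fun i _ => hn i]
    simp
  rw [h2, bound, hL]
  rw [← Real.sqrt_mul (by positivity)]
  have h4 : ((d + 1).choose k : ℝ) * ((d + 1) * r / ((d + 1 : ℕ) : ℝ)) ^ k *
      ((d.choose k : ℝ) * ((d + 1) * r / d) ^ k) = ((d + 1).choose k : ℝ) ^ 2 * D := by
    have e1 : ((d : ℝ) + 1) * r / ((d + 1 : ℕ) : ℝ) = r := by push_cast; field_simp
    rw [e1]
    have e2 : ((d + 1).choose k : ℝ) ^ 2 * D = ((d + 1).choose k : ℝ) * (((d + 1).choose k : ℝ) * D) := by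
      ring
    rw [e2, h1]
    have e3 : c ^ k = r ^ k * ((d + 1) * r / d) ^ k := by
      rw [← mul_pow, hc]
      congr 1
      ring
    rw [e3]
    ring
  rw [h4, Real.sqrt_mul (by positivity), Real.sqrt_sq hcn.le]

/-- existence of a regular simplex -/
theorem exists_regular (hd : 0 < d) : ∃ q : Fin (d + 1) → EuclideanSpace ℝ (Fin d),
    (∀ i, ‖q i‖ = Real.sqrt (d / (d + 1))) ∧
    ∀ i j, i ≠ j → (inner ℝ (q i) (q j) : ℝ) = -(Real.sqrt (d / (d + 1)) ^ 2 / d) := by
  have hd0 : (0 : ℝ) < d := by exact_mod_cast hd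
  let v : EuclideanSpace ℝ (Fin (d + 1)) := WithLp.toLp 2 fun _ => 1
  have hv : v ≠ 0 := by
    intro h
    have := congrArg (fun x : EuclideanSpace ℝ (Fin (d + 1)) => x 0) h
    simp [v] at this
  have hvi : ∀ i, (inner ℝ v (EuclideanSpace.single i (1 : ℝ)) : ℝ) = 1 := by
    intro i
    rw [EuclideanSpace.inner_single_right]
    simp [v]
  have hvv : (inner ℝ v v : ℝ) = d + 1 := by
    rw [PiLp.inner_apply]
    simp [v]
  have : Fact (Module.finrank ℝ (EuclideanSpace ℝ (Fin (d + 1))) = d + 1) := ⟨by simp⟩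
  let B := OrthonormalBasis.fromOrthogonalSpanSingleton (𝕜 := ℝ) d hv
  let u : Fin (d + 1) → EuclideanSpace ℝ (Fin (d + 1)) := fun i =>
    EuclideanSpace.single i (1 : ℝ) - (1 / ((d : ℝ) + 1)) • v
  have hu : ∀ i, u i ∈ (Submodule.span ℝ {v})ᗮ := by
    intro i
    rw [Submodule.mem_orthogonal_singleton_iff_inner_right]
    simp only [u]
    rw [inner_sub_right, inner_smul_right, hvi, hvv]
    field_simp
    ring
  have hin : ∀ i j, (inner ℝ (u i) (u j) : ℝ) = (if i = j then 1 else 0) - 1 / (d + 1) := by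
    intro i j
    simp only [u]
    rw [inner_sub_left, inner_sub_right, inner_sub_right, inner_smul_left, inner_smul_left,
      inner_smul_right, inner_smul_right, hvi, hvv, real_inner_comm v, hvi]
    have : (inner ℝ (EuclideanSpace.single i (1 : ℝ)) (EuclideanSpace.single j (1 : ℝ)) : ℝ) =
        if i = j then 1 else 0 := by
      rw [EuclideanSpace.inner_single_left]
      simp
    rw [this]
    simp
    field_simp
    ring
  have hq : ∀ i j, (inner ℝ (B.repr ⟨u i, hu i⟩) (B.repr ⟨u j, hu j⟩) : ℝ) =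
      (if i = j then 1 else 0) - 1 / (d + 1) := by
    intro i j
    rw [LinearIsometryEquiv.inner_map_map, Submodule.coe_inner]
    exact hin i j
  have hs : Real.sqrt ((d : ℝ) / (d + 1)) ^ 2 = d / (d + 1) := Real.sq_sqrt (by positivity)
  refine ⟨fun i => B.repr ⟨u i, hu i⟩, fun i => ?_, fun i j hij => ?_⟩
  · rw [← Real.sqrt_sq (norm_nonneg _), ← real_inner_self_eq_norm_sq, hq, if_pos rfl]
    congr 1
    field_simp
    ring
  · rw [hq, if_neg hij, hs]
    field_simp
    ring

lemma kappa_pos (m : ℕ) : 0 < kappa m := by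
  unfold kappa
  refine ENNReal.toReal_pos (Metric.measure_ball_pos _ _ one_pos).ne'
    MeasureTheory.measure_ball_lt_top.ne

theorem exists_regular_meanWidth (hd : 0 < d) : ∃ q : Fin (d + 1) → EuclideanSpace ℝ (Fin d),
    IsRegularSimplex q ∧ meanWidth q = 1 := by
  have hd0 : (0 : ℝ) < d := by exact_mod_cast hd
  obtain ⟨q, hn, hq⟩ := exists_regular hd
  set r := Real.sqrt ((d : ℝ) / (d + 1)) with hr
  have hr0 : 0 < r := Real.sqrt_pos.2 (by positivity)
  set C : ℝ := 2 * kappa (d - 1) / (d * kappa d) with hC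
  have hC0 : 0 < C := by
    have := kappa_pos (d - 1)
    have := kappa_pos d
    positivity
  set t : ℝ := 1 / (C * ((d + 1) * r)) with ht
  have ht0 : 0 < t := by positivity
  have hn' : ∀ i, ‖t • q i‖ = t * r := fun i => by
    rw [norm_smul, hn, Real.norm_of_nonneg ht0.le]
  refine ⟨fun i => t • q i, ?_, ?_⟩
  · refine regular_of_gram hd _ (t * r) (by positivity) hn' ?_
    intro i j hij
    rw [real_inner_smul_left, real_inner_smul_right, hq i j hij]
    ring
  · unfold meanWidth
    rw [V_one, sum_congr rfl fun i _ => hn' i, ← hC, sum_const, card_univ, Fintype.card_fin,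
      nsmul_eq_mul, ht]
    push_cast
    field_simp

/-- equality implies regularity -/
theorem regular_of_V_eq (k : ℕ) (hk : 2 ≤ k) (hkd : k ≤ d)
    (p : Fin (d + 1) → EuclideanSpace ℝ (Fin d)) (hL : 0 < ∑ i, ‖p i‖)
    (h : V k p = bound (d + 1) d k (∑ i, ‖p i‖)) : IsRegularRD (zonotope p) := by
  have hd : 0 < d := by omega
  have hd0 : (0 : ℝ) < d := by exact_mod_cast hd
  obtain ⟨h1, h2⟩ := V_eq k hk hkd (by omega) p hL h
  set L := ∑ i, ‖p i‖ with hLd
  set r : ℝ := L / ((d + 1 : ℕ) : ℝ) with hr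
  have hr0 : 0 < r := by positivity
  have hLr : L = (d + 1) * r := by rw [hr]; push_cast; field_simp
  have hf : ∀ j k : Fin d, ∑ i, p i j * p i k = if j = k then r ^ 2 * (d + 1) / d else 0 := by
    intro j k
    have h3 := congrFun (congrFun h2 j) k
    rw [Matrix.mul_apply, Matrix.smul_apply, Matrix.one_apply] at h3
    simp only [rowM, Matrix.transpose_apply, Matrix.of_apply, resc] at h3
    have h4 : ∀ i, ((Real.sqrt ‖p i‖)⁻¹ • p i) j * ((Real.sqrt ‖p i‖)⁻¹ • p i) k =
        r⁻¹ * (p i j * p i k) := by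
      intro i
      rw [PiLp.smul_apply, PiLp.smul_apply, h1 i, smul_eq_mul, smul_eq_mul]
      have : (Real.sqrt r)⁻¹ * (Real.sqrt r)⁻¹ = r⁻¹ := by
        rw [← mul_inv, Real.mul_self_sqrt hr0.le]
      calc (Real.sqrt r)⁻¹ * p i j * ((Real.sqrt r)⁻¹ * p i k)
          = ((Real.sqrt r)⁻¹ * (Real.sqrt r)⁻¹) * (p i j * p i k) := by ring
        _ = _ := by rw [this]
    simp_rw [h4] at h3
    rw [← mul_sum, hLr] at h3
    split_ifs at h3 ⊢ with hjk
    · simp only [smul_eq_mul, mul_one] at h3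
      field_simp at h3
      field_simp
      linarith
    · rw [smul_zero] at h3
      rcases mul_eq_zero.1 h3 with h5 | h5
      · exact absurd h5 (inv_ne_zero hr0.ne')
      · exact h5
  obtain ⟨ε, hε, hg⟩ := gram_of_frame hd p r hr0 h1 hf
  refine ⟨fun i => ε i • p i, _, regular_of_gram hd _ r hr0 (fun i => ?_) hg,
    zonotope_sign p ε hε⟩
  rw [norm_smul, h1 i]
  rcases hε i with h | h <;> rw [h] <;> simp

end Pool.Agent.R759.RD

namespace Pool.Agent.R759.RD

open Finset Matrix

variable {d : ℕ}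

/-- the vertices of a regular simplex centred at the origin span the space -/
theorem regular_span (hd : 0 < d) {q : Fin (d + 1) → EuclideanSpace ℝ (Fin d)}
    (h : IsRegularSimplex q) : Submodule.span ℝ (Set.range q) = ⊤ := by
  have hd0 : (0 : ℝ) < d := by exact_mod_cast hd
  obtain ⟨r, hr, hn, hg⟩ := h.gram hd
  rw [eq_top_iff]
  intro x _
  have hx : x = ∑ i, ((r ^ 2 * (d + 1) / d)⁻¹ * ∑ j, q i j * x j) • q i := by
    ext k
    rw [WithLp.ofLp_sum, Finset.sum_apply]
    simp only [PiLp.smul_apply, smul_eq_mul]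
    have h1 : ∀ i, (r ^ 2 * (d + 1) / d)⁻¹ * (∑ j, q i j * x j) * q i k =
        (r ^ 2 * (d + 1) / d)⁻¹ * ∑ j, x j * (q i j * q i k) := by
      intro i
      rw [mul_assoc, Finset.sum_mul]
      congr 1
      exact sum_congr rfl fun j _ => by ring
    simp_rw [h1]
    rw [← mul_sum, sum_comm]
    simp_rw [← mul_sum]
    simp_rw [IsRegularSimplex.frame hd hr hn hg]
    simp
    field_simp
  rw [hx]
  exact Submodule.sum_mem _ fun i _ => Submodule.smul_mem _ _ (Submodule.subset_span ⟨i, rfl⟩)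

end Pool.Agent.R759.RD
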