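import Pool.Agent.R759.RDMain

/-! # Tight frames of `d+1` vectors of equal length are regular simplices up to signs -/

set_option autoImplicit false

namespace Pool.Agent.R759.RD

open Finset Matrix
open Pool.Agent.R759

variable {d : ℕ}

/-- the square matrix with rows `(w i, a p_i)` -/
noncomputable def sqM (w : Fin (d + 1) → ℝ) (a : ℝ)
    (p : Fin (d + 1) → EuclideanSpace ℝ (Fin d)) : Matrix (Fin (d + 1)) (Fin (d + 1)) ℝ :=
  Matrix.of fun i => Fin.cons (w i) fun j => a * p i j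

lemma sqM_mul (w : Fin (d + 1) → ℝ) (a : ℝ) (p : Fin (d + 1) → EuclideanSpace ℝ (Fin d))
    (i j : Fin (d + 1)) :
    (sqM w a p * (sqM w a p)ᵀ) i j = w i * w j + a ^ 2 * inner ℝ (p i) (p j) := by
  rw [Matrix.mul_apply, Fin.sum_univ_succ, PiLp.inner_apply, mul_sum]
  congr 1
  refine sum_congr rfl fun k _ => ?_
  simp only [sqM, Matrix.of_apply, Matrix.transpose_apply, Fin.cons_succ]
  simp
  ring

lemma sqM_mul' (w : Fin (d + 1) → ℝ) (a : ℝ) (p : Fin (d + 1) → EuclideanSpace ℝ (Fin d))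
    (hw : ∑ i, w i * w i = 1) (hp : ∑ i, w i • p i = 0)
    (hf : ∀ j k : Fin d, a ^ 2 * ∑ i, p i j * p i k = if j = k then 1 else 0) :
    (sqM w a p)ᵀ * sqM w a p = 1 := by
  have hp' : ∀ j : Fin d, ∑ i, w i * p i j = 0 := by
    intro j
    have := congrArg (fun v : EuclideanSpace ℝ (Fin d) => v j) hp
    simpa using this
  ext j k
  rw [Matrix.mul_apply]
  simp only [Matrix.transpose_apply, sqM, Matrix.of_apply]
  refine Fin.cases ?_ (fun j => ?_) j
  · refine Fin.cases ?_ (fun k => ?_) k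
    · simpa using hw
    · simp only [Fin.cons_zero, Fin.cons_succ]
      rw [Matrix.one_apply_ne (Fin.succ_ne_zero k).symm]
      calc ∑ i, w i * (a * p i k) = a * ∑ i, w i * p i k := by
            rw [mul_sum]; exact sum_congr rfl fun i _ => by ring
        _ = 0 := by rw [hp', mul_zero]
  · refine Fin.cases ?_ (fun k => ?_) k
    · simp only [Fin.cons_zero, Fin.cons_succ]
      rw [Matrix.one_apply_ne (Fin.succ_ne_zero j)]
      calc ∑ i, a * p i j * w i = a * ∑ i, w i * p i j := by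
            rw [mul_sum]; exact sum_congr rfl fun i _ => by ring
        _ = 0 := by rw [hp', mul_zero]
    · simp only [Fin.cons_succ]
      calc ∑ i, a * p i j * (a * p i k) = a ^ 2 * ∑ i, p i j * p i k := by
            rw [mul_sum]; exact sum_congr rfl fun i _ => by ring
        _ = _ := by
          rw [hf, Matrix.one_apply]
          simp only [Fin.succ_inj]

/-- `d + 1` vectors in `ℝ^d` are linearly dependent -/
lemma exists_dep (p : Fin (d + 1) → EuclideanSpace ℝ (Fin d)) :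
    ∃ w : Fin (d + 1) → ℝ, ∑ i, w i * w i = 1 ∧ ∑ i, w i • p i = 0 := by
  let f : (Fin (d + 1) → ℝ) →ₗ[ℝ] EuclideanSpace ℝ (Fin d) :=
    Fintype.linearCombination ℝ p
  have h1 : LinearMap.ker f ≠ ⊥ := LinearMap.ker_ne_bot_of_finrank_lt (by simp)
  obtain ⟨w, hw, hw0⟩ := Submodule.exists_mem_ne_zero_of_ne_bot h1
  have hw' : ∑ i, w i • p i = 0 := by
    have := LinearMap.mem_ker.1 hw
    rwa [Fintype.linearCombination_apply] at this
  have hpos : 0 < ∑ i, w i * w i := by
    obtain ⟨i, hi⟩ := Function.ne_iff.1 hw0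
    exact sum_pos' (fun i _ => mul_self_nonneg _) ⟨i, mem_univ i, mul_self_pos.2 hi⟩
  refine ⟨fun i => (Real.sqrt (∑ i, w i * w i))⁻¹ * w i, ?_, ?_⟩
  · have : ∀ i, (Real.sqrt (∑ i, w i * w i))⁻¹ * w i * ((Real.sqrt (∑ i, w i * w i))⁻¹ * w i) =
        (Real.sqrt (∑ i, w i * w i) ^ 2)⁻¹ * (w i * w i) := by
      intro i; rw [← inv_pow]; ring
    simp_rw [this]
    rw [← mul_sum, Real.sq_sqrt hpos.le, inv_mul_cancel₀ hpos.ne']
  · simp_rw [mul_smul]
    rw [← smul_sum, hw', smul_zero]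

/-- vectors of equal length `r` forming a tight frame: the Gram matrix -/
lemma gram_of_frame (hd : 0 < d) (p : Fin (d + 1) → EuclideanSpace ℝ (Fin d)) (r : ℝ) (hr : 0 < r)
    (hn : ∀ i, ‖p i‖ = r)
    (hf : ∀ j k : Fin d, ∑ i, p i j * p i k = if j = k then r ^ 2 * (d + 1) / d else 0) :
    ∃ ε : Fin (d + 1) → ℝ, (∀ i, ε i = 1 ∨ ε i = -1) ∧
      ∀ i j, i ≠ j → (inner ℝ (ε i • p i) (ε j • p j) : ℝ) = -(r ^ 2 / d) := by
  obtain ⟨w, hw1, hw2⟩ := exists_dep p
  have hd0 : (0 : ℝ) < d := by exact_mod_cast hd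
  have hd1 : (0 : ℝ) < (d : ℝ) + 1 := by positivity
  set c : ℝ := r ^ 2 * (d + 1) / d with hc
  have hc0 : 0 < c := by positivity
  have ha : (Real.sqrt c⁻¹) ^ 2 = c⁻¹ := Real.sq_sqrt (inv_nonneg.2 hc0.le)
  have h1 := sqM_mul' w (Real.sqrt c⁻¹) p hw1 hw2 (by
    intro j k
    rw [ha, hf]
    split_ifs
    · exact inv_mul_cancel₀ hc0.ne'
    · simp)
  have h2 : sqM w (Real.sqrt c⁻¹) p * (sqM w (Real.sqrt c⁻¹) p)ᵀ = 1 := mul_eq_one_comm.1 h1
  have h3 : ∀ i j, w i * w j + c⁻¹ * inner ℝ (p i) (p j) = if i = j then 1 else 0 := by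
    intro i j
    rw [← ha, ← sqM_mul, h2, Matrix.one_apply]
  have h4 : ∀ i, w i * w i = 1 / (d + 1) := by
    intro i
    have := h3 i i
    rw [if_pos rfl, real_inner_self_eq_norm_sq, hn] at this
    have e : c⁻¹ * r ^ 2 = d / (d + 1) := by
      rw [hc]; field_simp
    rw [e] at this
    have e2 : (1 : ℝ) - d / (d + 1) = 1 / (d + 1) := by field_simp; ring
    linarith
  have h5 : ∀ i, |w i| * |w i| = 1 / (d + 1) := fun i => by rw [abs_mul_abs_self, h4]
  have h6 : ∀ i j, |w i| * |w j| = 1 / (d + 1) := by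
    intro i j
    have e : |w i| = |w j| := by
      have := h5 i
      rw [← h5 j] at this
      exact (mul_self_inj (abs_nonneg _) (abs_nonneg _)).1 this
    rw [e, h5]
  refine ⟨fun i => SignType.sign (w i), fun i => ?_, fun i j hij => ?_⟩
  · have hne : w i ≠ 0 := by
      intro h0
      have := h4 i
      rw [h0] at this
      have : (0 : ℝ) < 1 / (d + 1) := by positivity
      linarith
    rcases lt_or_gt_of_ne hne with h | h
    · right; show ((SignType.sign (w i) : SignType) : ℝ) = -1; rw [sign_neg h]; simp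
    · left; show ((SignType.sign (w i) : SignType) : ℝ) = 1; rw [sign_pos h]; simp
  · rw [real_inner_smul_left, real_inner_smul_right]
    have h7 := h3 i j
    rw [if_neg hij] at h7
    have h8 : (inner ℝ (p i) (p j) : ℝ) = -(c * (w i * w j)) := by
      field_simp at h7
      linarith
    rw [h8]
    have h9 : (SignType.sign (w i) : ℝ) * w i = |w i| := sign_mul_self _
    have h10 : (SignType.sign (w j) : ℝ) * w j = |w j| := sign_mul_self _
    calc (SignType.sign (w i) : ℝ) * ((SignType.sign (w j) : ℝ) * -(c * (w i * w j)))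
        = -(c * (((SignType.sign (w i) : ℝ) * w i) * ((SignType.sign (w j) : ℝ) * w j))) := by ring
      _ = -(c * (1 / (d + 1))) := by rw [h9, h10, h6]
      _ = -(r ^ 2 / d) := by rw [hc]; field_simp

/-- such vectors form a regular simplex -/
lemma regular_of_gram (hd : 0 < d) (q : Fin (d + 1) → EuclideanSpace ℝ (Fin d)) (r : ℝ)
    (hr : 0 < r) (hn : ∀ i, ‖q i‖ = r)
    (h : ∀ i j, i ≠ j → (inner ℝ (q i) (q j) : ℝ) = -(r ^ 2 / d)) : IsRegularSimplex q := by
  have hd0 : (0 : ℝ) < d := by exact_mod_cast hd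
  constructor
  · rw [← norm_eq_zero, ← sq_eq_zero_iff, ← real_inner_self_eq_norm_sq, sum_inner]
    simp_rw [inner_sum]
    have h1 : ∀ i, ∑ j, (inner ℝ (q i) (q j) : ℝ) = 0 := by
      intro i
      rw [← add_sum_erase _ _ (mem_univ i), real_inner_self_eq_norm_sq, hn]
      rw [sum_congr rfl fun j hj => h i j (ne_of_mem_erase hj).symm]
      rw [sum_const, card_erase_of_mem (mem_univ i), card_univ, Fintype.card_fin]
      simp
      field_simp
      ring
    exact sum_eq_zero fun i _ => h1 i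
  · refine ⟨Real.sqrt (2 * r ^ 2 * (1 + 1 / d)), Real.sqrt_pos.2 (by positivity), ?_⟩
    intro i j hij
    rw [dist_eq_norm, ← Real.sqrt_sq (norm_nonneg (q i - q j))]
    congr 1
    rw [norm_sub_sq_real, hn, hn, h i j hij]
    ring

/-- the Gram matrix of a regular simplex centred at the origin -/
lemma IsRegularSimplex.gram (hd : 0 < d) {q : Fin (d + 1) → EuclideanSpace ℝ (Fin d)}
    (h : IsRegularSimplex q) : ∃ r : ℝ, 0 < r ∧ (∀ i, ‖q i‖ = r) ∧
      ∀ i j, i ≠ j → (inner ℝ (q i) (q j) : ℝ) = -(r ^ 2 / d) := by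
  obtain ⟨h0, s, hs, hd'⟩ := h
  have hd0 : (0 : ℝ) < d := by exact_mod_cast hd
  have hin : ∀ i j, i ≠ j → (2 : ℝ) * inner ℝ (q i) (q j) = ‖q i‖ ^ 2 + ‖q j‖ ^ 2 - s ^ 2 := by
    intro i j hij
    have h1 := norm_sub_sq_real (q i) (q j)
    rw [← dist_eq_norm, hd' i j hij] at h1
    linarith
  set N : ℝ := ∑ i, ‖q i‖ ^ 2 with hN
  have h1 : ∀ i, ((d : ℝ) + 1) * ‖q i‖ ^ 2 + N - d * s ^ 2 = 0 := by
    intro i
    have h2 : (0 : ℝ) = 2 * inner ℝ (q i) (∑ j, q j) := by rw [h0, inner_zero_right, mul_zero]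
    rw [inner_sum, mul_sum, ← add_sum_erase _ _ (mem_univ i)] at h2
    rw [sum_congr rfl fun j hj => hin i j (ne_of_mem_erase hj).symm] at h2
    rw [sum_sub_distrib, sum_add_distrib, sum_const, sum_const, card_erase_of_mem (mem_univ i),
      card_univ, Fintype.card_fin, real_inner_self_eq_norm_sq] at h2
    have h3 : ∑ j ∈ univ.erase i, ‖q j‖ ^ 2 = N - ‖q i‖ ^ 2 := by
      rw [hN, ← add_sum_erase _ _ (mem_univ i)]; ring
    rw [h3] at h2
    simp at h2
    linarith
  have h2 : ∀ i j, ‖q i‖ ^ 2 = ‖q j‖ ^ 2 := by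
    intro i j
    have e1 := h1 i
    have e2 := h1 j
    have : ((d : ℝ) + 1) * (‖q i‖ ^ 2 - ‖q j‖ ^ 2) = 0 := by linarith
    rcases mul_eq_zero.1 this with h | h
    · exact absurd h (by positivity)
    · linarith
  have hr : ∀ i, ‖q i‖ = ‖q 0‖ := fun i =>
    (pow_left_inj₀ (norm_nonneg _) (norm_nonneg _) (by norm_num)).1 (h2 i 0)
  have hN2 : N = (d + 1) * ‖q 0‖ ^ 2 := by
    rw [hN, sum_congr rfl fun i _ => h2 i 0]
    simp
  have h3 := h1 0
  rw [hN2] at h3
  have h4 : s ^ 2 = 2 * (d + 1) / d * ‖q 0‖ ^ 2 := by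
    field_simp
    linarith
  have hpos : 0 < ‖q 0‖ := by
    rcases (norm_nonneg (q 0)).eq_or_lt with h | h
    · rw [← h] at h4
      have : 0 < s ^ 2 := by positivity
      rw [h4] at this
      simp at this
    · exact h
  refine ⟨‖q 0‖, hpos, hr, fun i j hij => ?_⟩
  have h5 := hin i j hij
  rw [hr i, hr j, h4] at h5
  have h6 : (inner ℝ (q i) (q j) : ℝ) = (‖q 0‖ ^ 2 + ‖q 0‖ ^ 2 - 2 * (d + 1) / d * ‖q 0‖ ^ 2) / 2 := by
    linarith
  rw [h6]
  field_simp
  ring

/-- changing signs of generators translates the zonotope -/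
lemma zonotope_sign (p : Fin (d + 1) → EuclideanSpace ℝ (Fin d)) (ε : Fin (d + 1) → ℝ)
    (hε : ∀ i, ε i = 1 ∨ ε i = -1) :
    zonotope p = (fun x => (∑ i, ((1 - ε i) / 2) • p i) + x) '' zonotope fun i => ε i • p i := by
  ext x
  constructor
  · rintro ⟨t, ht, rfl⟩
    refine ⟨∑ i, (if ε i = 1 then t i else 1 - t i) • ε i • p i, ⟨_, fun i => ?_, rfl⟩, ?_⟩
    · split_ifs
      · exact ht i
      · exact ⟨by linarith [(ht i).2], by linarith [(ht i).1]⟩
    · simp only
      rw [← sum_add_distrib]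
      refine sum_congr rfl fun i _ => ?_
      rw [smul_smul, ← add_smul]
      congr 1
      rcases hε i with h | h
      · rw [if_pos h, h]; ring
      · rw [if_neg (by rw [h]; norm_num), h]; ring
  · rintro ⟨_, ⟨t, ht, rfl⟩, rfl⟩
    refine ⟨fun i => if ε i = 1 then t i else 1 - t i, fun i => ?_, ?_⟩
    · simp only
      split_ifs
      · exact ht i
      · exact ⟨by linarith [(ht i).2], by linarith [(ht i).1]⟩
    · simp only
      rw [← sum_add_distrib]
      refine sum_congr rfl fun i _ => ?_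
      rw [smul_smul, ← add_smul]
      congr 1
      rcases hε i with h | h
      · rw [if_pos h, h]; ring
      · rw [if_neg (by rw [h]; norm_num), h]; ring

/-- the tight frame property of a regular simplex -/
lemma IsRegularSimplex.frame (hd : 0 < d) {q : Fin (d + 1) → EuclideanSpace ℝ (Fin d)} {r : ℝ}
    (hr : 0 < r) (hn : ∀ i, ‖q i‖ = r)
    (h : ∀ i j, i ≠ j → (inner ℝ (q i) (q j) : ℝ) = -(r ^ 2 / d)) (j k : Fin d) :
    ∑ i, q i j * q i k = if j = k then r ^ 2 * (d + 1) / d else 0 := by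
  have hd0 : (0 : ℝ) < d := by exact_mod_cast hd
  set c : ℝ := r ^ 2 * (d + 1) / d with hc
  have hc0 : 0 < c := by positivity
  have ha : (Real.sqrt c⁻¹) ^ 2 = c⁻¹ := Real.sq_sqrt (inv_nonneg.2 hc0.le)
  have hw : (Real.sqrt (1 / ((d : ℝ) + 1))) * (Real.sqrt (1 / ((d : ℝ) + 1))) = 1 / (d + 1) :=
    Real.mul_self_sqrt (by positivity)
  have h1 : sqM (fun _ => Real.sqrt (1 / ((d : ℝ) + 1))) (Real.sqrt c⁻¹) q *
      (sqM (fun _ => Real.sqrt (1 / ((d : ℝ) + 1))) (Real.sqrt c⁻¹) q)ᵀ = 1 := by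
    ext i j
    rw [sqM_mul, hw, ha, Matrix.one_apply]
    split_ifs with hij
    · rw [hij, real_inner_self_eq_norm_sq, hn, hc]
      field_simp
      ring
    · rw [h i j hij, hc]
      field_simp
      ring
  have h2 := mul_eq_one_comm.1 h1
  have h3 := congrFun (congrFun h2 j.succ) k.succ
  rw [Matrix.mul_apply, Matrix.one_apply] at h3
  simp only [sqM, Matrix.transpose_apply, Matrix.of_apply, Fin.cons_succ, Fin.succ_inj] at h3
  have h4 : ∑ i, Real.sqrt c⁻¹ * q i j * (Real.sqrt c⁻¹ * q i k) = c⁻¹ * ∑ i, q i j * q i k := by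
    have e : ∀ i, Real.sqrt c⁻¹ * q i j * (Real.sqrt c⁻¹ * q i k) =
        (Real.sqrt c⁻¹) ^ 2 * (q i j * q i k) := fun i => by ring
    simp_rw [e]
    rw [← mul_sum, ha]
  rw [h4] at h3
  split_ifs at h3 ⊢ with hjk
  · field_simp at h3
    linarith
  · rcases mul_eq_zero.1 h3 with h5 | h5
    · exact absurd h5 (inv_ne_zero hc0.ne')
    · exact h5

end Pool.Agent.R759.RD
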