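import Pool.Agent.R759.Minors
import Pool.Agent.R759.RDDefs

/-! # Intrinsic volumes of rhombic dodecahedra of given mean width -/

set_option autoImplicit false

namespace Pool.Agent.R759.RD

open Finset Matrix
open Pool.Agent.R759

variable {d n : ℕ}

/-- the matrix with rows `p i` -/
noncomputable def rowM (p : Fin n → EuclideanSpace ℝ (Fin d)) : Matrix (Fin n) (Fin d) ℝ :=
  Matrix.of fun i j => p i j

lemma rowM_mul (p : Fin n → EuclideanSpace ℝ (Fin d)) (i j : Fin n) :
    (rowM p * (rowM p)ᵀ) i j = inner ℝ (p i) (p j) := by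
  rw [Matrix.mul_apply, PiLp.inner_apply]
  refine sum_congr rfl fun k _ => ?_
  simp [rowM, Matrix.transpose_apply, mul_comm]

lemma rowM_psd (p : Fin n → EuclideanSpace ℝ (Fin d)) : (rowM p * (rowM p)ᵀ).PosSemidef := by
  have := Matrix.posSemidef_self_mul_conjTranspose (rowM p)
  rwa [conjTranspose_eq_transpose_of_trivial] at this

lemma rowM_psd' (p : Fin n → EuclideanSpace ℝ (Fin d)) : ((rowM p)ᵀ * rowM p).PosSemidef := by
  have := Matrix.posSemidef_conjTranspose_mul_self (rowM p)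
  rwa [conjTranspose_eq_transpose_of_trivial] at this

/-- Gram determinant -/
noncomputable def gd (p : Fin n → EuclideanSpace ℝ (Fin d)) (I : Finset (Fin n)) : ℝ :=
  Matrix.det (Matrix.of fun i j : I => (inner ℝ (p i) (p j) : ℝ))

lemma gd_eq (p : Fin n → EuclideanSpace ℝ (Fin d)) (I : Finset (Fin n)) :
    gd p I = ((rowM p * (rowM p)ᵀ).submatrix (Subtype.val : I → Fin n) Subtype.val).det := by
  unfold gd
  congr 1
  ext i j
  rw [Matrix.submatrix_apply, rowM_mul]
  rfl

lemma gd_nonneg (p : Fin n → EuclideanSpace ℝ (Fin d)) (I : Finset (Fin n)) : 0 ≤ gd p I := by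
  rw [gd_eq]
  exact ((rowM_psd p).submatrix _).det_nonneg

lemma sum_gd (p : Fin n → EuclideanSpace ℝ (Fin d)) (k : ℕ) :
    ∑ I ∈ powersetCard k univ, gd p I = PM ((rowM p)ᵀ * rowM p) k := by
  rw [← PM_mul_comm]
  exact sum_congr rfl fun I _ => gd_eq p I

lemma V_one (p : Fin n → EuclideanSpace ℝ (Fin d)) : V 1 p = ∑ i, ‖p i‖ := by
  unfold V
  rw [powersetCard_one, sum_map]
  refine sum_congr rfl fun i _ => ?_
  unfold wedge
  have : Unique (({i} : Finset (Fin n)) : Type) := by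
    exact { default := ⟨i, mem_singleton_self i⟩, uniq := fun a => Subtype.ext (mem_singleton.1 a.2) }
  show Real.sqrt (Matrix.det (Matrix.of fun a b : ({i} : Finset (Fin n)) =>
    (inner ℝ (p a) (p b) : ℝ))) = _
  rw [Matrix.det_unique, Matrix.of_apply, real_inner_self_eq_norm_sq, Real.sqrt_sq (norm_nonneg _)]
  have : (default : ({i} : Finset (Fin n))).1 = i := mem_singleton.1 (default : ({i} : Finset (Fin n))).2
  rw [this]

/-- the vectors rescaled to have squared norm `‖p i‖` -/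
noncomputable def resc (p : Fin n → EuclideanSpace ℝ (Fin d)) (i : Fin n) :
    EuclideanSpace ℝ (Fin d) := (Real.sqrt ‖p i‖)⁻¹ • p i

lemma resc_spec (p : Fin n → EuclideanSpace ℝ (Fin d)) (i : Fin n) :
    p i = Real.sqrt ‖p i‖ • resc p i := by
  unfold resc
  by_cases h : p i = 0
  · rw [h]; simp
  · rw [smul_smul, mul_inv_cancel₀, one_smul]
    exact (Real.sqrt_pos.2 (norm_pos_iff.2 h)).ne'

lemma resc_norm (p : Fin n → EuclideanSpace ℝ (Fin d)) (i : Fin n) :
    ‖resc p i‖ ^ 2 = ‖p i‖ := by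
  unfold resc
  by_cases h : p i = 0
  · rw [h]; simp
  · have h0 := norm_pos_iff.2 h
    rw [norm_smul, mul_pow, norm_inv, Real.norm_of_nonneg (Real.sqrt_nonneg _), inv_pow,
      Real.sq_sqrt h0.le]
    field_simp

lemma wedge_eq (p : Fin n → EuclideanSpace ℝ (Fin d)) (I : Finset (Fin n)) :
    wedge p I = Real.sqrt (∏ i ∈ I, ‖p i‖) * Real.sqrt (gd (resc p) I) := by
  unfold wedge
  rw [← Real.sqrt_mul (prod_nonneg fun i _ => norm_nonneg _)]
  congr 1
  have h1 : (Matrix.of fun i j : I => (inner ℝ (p i) (p j) : ℝ)) =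
      Matrix.of fun i j : I => Real.sqrt ‖p i‖ * (Matrix.of fun i j : I => Real.sqrt ‖p j‖ *
        (Matrix.of fun i j : I => (inner ℝ (resc p i) (resc p j) : ℝ)) i j) i j := by
    ext i j
    simp only [Matrix.of_apply]
    conv_lhs => rw [resc_spec p i, resc_spec p j]
    rw [real_inner_smul_left, real_inner_smul_right]
  rw [h1, det_mul_column, det_mul_row, ← mul_assoc, ← prod_mul_distrib]
  unfold gd
  congr 1
  rw [← Finset.prod_coe_sort I (fun i => ‖p i‖)]
  exact prod_congr rfl fun i _ => Real.mul_self_sqrt (norm_nonneg _)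

lemma trace_resc (p : Fin n → EuclideanSpace ℝ (Fin d)) :
    ((rowM (resc p))ᵀ * rowM (resc p)).trace = ∑ i, ‖p i‖ := by
  rw [Matrix.trace_mul_comm]
  unfold Matrix.trace
  refine sum_congr rfl fun i _ => ?_
  rw [Matrix.diag_apply, rowM_mul, real_inner_self_eq_norm_sq, resc_norm]

/-- Cauchy-Schwarz -/
lemma V_le_aux (k : ℕ) (p : Fin n → EuclideanSpace ℝ (Fin d)) :
    V k p ≤ Real.sqrt (ES univ k fun i => ‖p i‖) *
      Real.sqrt (ES univ k (rowM_psd' (resc p)).isHermitian.eigenvalues) := by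
  unfold V
  simp_rw [wedge_eq]
  refine (Real.sum_sqrt_mul_sqrt_le _ (fun I => prod_nonneg fun i _ => norm_nonneg _)
    (fun I => gd_nonneg _ _)).trans (le_of_eq ?_)
  rw [sum_gd, PM_eig]
  rfl

lemma sum_eig (p : Fin n → EuclideanSpace ℝ (Fin d)) :
    ∑ j, (rowM_psd' (resc p)).isHermitian.eigenvalues j = ∑ i, ‖p i‖ := by
  have := (rowM_psd' (resc p)).isHermitian.trace_eq_sum_eigenvalues
  rw [trace_resc] at this
  rw [this]
  simp

/-- the two Maclaurin bounds -/
lemma ES1_le (k : ℕ) (p : Fin n → EuclideanSpace ℝ (Fin d)) :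
    ES univ k (fun i => ‖p i‖) ≤ (n.choose k : ℝ) * ((∑ i, ‖p i‖) / n) ^ k := by
  have := maclaurin univ (fun i => ‖p i‖) (fun i _ => norm_nonneg _) k
  rwa [card_univ, Fintype.card_fin] at this

lemma ES2_le (k : ℕ) (p : Fin n → EuclideanSpace ℝ (Fin d)) :
    ES univ k (rowM_psd' (resc p)).isHermitian.eigenvalues ≤
      (d.choose k : ℝ) * ((∑ i, ‖p i‖) / d) ^ k := by
  have := maclaurin univ (rowM_psd' (resc p)).isHermitian.eigenvalues
    (fun i _ => (rowM_psd' (resc p)).eigenvalues_nonneg i) k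
  rwa [card_univ, Fintype.card_fin, sum_eig] at this

/-- the maximal value for `∑ ‖p_i‖ = L` -/
noncomputable def bound (n d k : ℕ) (L : ℝ) : ℝ :=
  Real.sqrt ((n.choose k : ℝ) * (L / n) ^ k) * Real.sqrt ((d.choose k : ℝ) * (L / d) ^ k)

theorem V_le (k : ℕ) (p : Fin n → EuclideanSpace ℝ (Fin d)) :
    V k p ≤ bound n d k (∑ i, ‖p i‖) :=
  (V_le_aux k p).trans (mul_le_mul (Real.sqrt_le_sqrt (ES1_le k p)) (Real.sqrt_le_sqrt (ES2_le k p))
    (Real.sqrt_nonneg _) (Real.sqrt_nonneg _))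

/-- equality: equal norms and a tight frame -/
theorem V_eq (k : ℕ) (hk : 2 ≤ k) (hkd : k ≤ d) (hkn : k ≤ n)
    (p : Fin n → EuclideanSpace ℝ (Fin d))
    (hL : 0 < ∑ i, ‖p i‖) (h : V k p = bound n d k (∑ i, ‖p i‖)) :
    (∀ i, ‖p i‖ = (∑ i, ‖p i‖) / n) ∧
      (rowM (resc p))ᵀ * rowM (resc p) = ((∑ i, ‖p i‖) / d) • (1 : Matrix (Fin d) (Fin d) ℝ) := by
  set L := ∑ i, ‖p i‖ with hLdef
  have hn0 : (0 : ℝ) < n := by exact_mod_cast (by omega : 0 < n)
  have hd0 : (0 : ℝ) < d := by exact_mod_cast (by omega : 0 < d)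
  have hcn : (0 : ℝ) < n.choose k := by exact_mod_cast Nat.choose_pos hkn
  have hcd : (0 : ℝ) < d.choose k := by exact_mod_cast Nat.choose_pos hkd
  have hA : 0 < (n.choose k : ℝ) * (L / n) ^ k := by positivity
  have hB : 0 < (d.choose k : ℝ) * (L / d) ^ k := by positivity
  have h1 := V_le_aux k p
  have e1 := ES1_le k p
  have e2 := ES2_le k p
  set a := ES univ k (fun i => ‖p i‖) with ha
  set b := ES univ k (rowM_psd' (resc p)).isHermitian.eigenvalues with hb
  rw [h] at h1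
  unfold bound at h1
  have sA := Real.sqrt_pos.2 hA
  have sB := Real.sqrt_pos.2 hB
  have s1 := Real.sqrt_le_sqrt e1
  have s2 := Real.sqrt_le_sqrt e2
  have s3 : Real.sqrt a = Real.sqrt ((n.choose k : ℝ) * (L / n) ^ k) := by
    refine le_antisymm s1 ?_
    have : Real.sqrt ((n.choose k : ℝ) * (L / n) ^ k) * Real.sqrt ((d.choose k : ℝ) * (L / d) ^ k) ≤
      Real.sqrt a * Real.sqrt ((d.choose k : ℝ) * (L / d) ^ k) :=
      h1.trans (mul_le_mul_of_nonneg_left s2 (Real.sqrt_nonneg _))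
    exact le_of_mul_le_mul_right this sB
  have s4 : Real.sqrt b = Real.sqrt ((d.choose k : ℝ) * (L / d) ^ k) := by
    refine le_antisymm s2 ?_
    have : Real.sqrt ((n.choose k : ℝ) * (L / n) ^ k) * Real.sqrt ((d.choose k : ℝ) * (L / d) ^ k) ≤
      Real.sqrt ((n.choose k : ℝ) * (L / n) ^ k) * Real.sqrt b :=
      h1.trans (mul_le_mul_of_nonneg_right s1 (Real.sqrt_nonneg _))
    exact le_of_mul_le_mul_left this sA
  have ha0 : 0 ≤ a := ES_nonneg _ _ _ fun i _ => norm_nonneg _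
  have hb0 : 0 ≤ b := ES_nonneg _ _ _ fun i _ => (rowM_psd' (resc p)).eigenvalues_nonneg i
  have ea : a = (n.choose k : ℝ) * (L / n) ^ k := (Real.sqrt_inj ha0 hA.le).1 s3
  have eb : b = (d.choose k : ℝ) * (L / d) ^ k := (Real.sqrt_inj hb0 hB.le).1 s4
  constructor
  · intro i
    have := maclaurin_eq univ (fun i => ‖p i‖) (fun i _ => norm_nonneg _) k hk
      (by rw [card_univ, Fintype.card_fin]; exact hkn)
      (by rw [card_univ, Fintype.card_fin]; exact ea) i (mem_univ i)
    rw [card_univ, Fintype.card_fin] at this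
    exact this
  · refine eq_smul_one_of_eig (rowM_psd' (resc p)).isHermitian _ fun j => ?_
    have := maclaurin_eq univ (rowM_psd' (resc p)).isHermitian.eigenvalues
      (fun i _ => (rowM_psd' (resc p)).eigenvalues_nonneg i) k hk
      (by rw [card_univ, Fintype.card_fin]; exact hkd)
      (by rw [card_univ, Fintype.card_fin, sum_eig]; exact eb) j (mem_univ j)
    rw [card_univ, Fintype.card_fin, sum_eig] at this
    exact this

end Pool.Agent.R759.RD
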