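import Pool.Agent.R759.BWMain

set_option autoImplicit false
set_option linter.unusedSectionVars false

/-!
Shortest cycle covers of Cayley graphs.
-/

open scoped Classical

namespace Pool.Agent.R759.SC

open Finset Pool.Agent.TH505.OCDC Pool.Agent.R759.OC Pool.Agent.R759.CW Pool.Agent.R759.BW

section

variable {V : Type} [Fintype V] {G : SimpleGraph V}

lemma length_eq {x y : V} (p : G.Walk x y) : p.length = ∑ u, ∑ v, dc p u v := by
  induction p with
  | nil =>
    simp [dc_nil]
  | @cons x y z h p ih =>
    have h1 : ∀ u v, dc (SimpleGraph.Walk.cons h p) u v = ind (x = u ∧ y = v) + dc p u v :=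
      fun u v => dc_cons' h p u v
    simp only [h1, Finset.sum_add_distrib]
    rw [← ih, SimpleGraph.Walk.length_cons, add_comm]
    congr 1
    rw [Finset.sum_eq_single x, Finset.sum_eq_single y]
    · exact (ind_pos ⟨rfl, rfl⟩).symm
    · intro v _ hv
      exact ind_neg (fun h => hv h.2.symm)
    · intro h
      exact absurd (mem_univ _) h
    · intro u _ hu
      refine Finset.sum_eq_zero fun v _ => ?_
      exact ind_neg (fun h => hu h.1.symm)
    · intro h
      exact absurd (mem_univ _) h

lemma total_eq (C : List (Σ v : V, G.Walk v v)) :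
    (C.map fun c => c.2.length).sum = ∑ u, ∑ v, tot C u v := by
  induction C with
  | nil => simp [tot_nil]
  | cons c C ih =>
    rw [List.map_cons, List.sum_cons, ih]
    have h1 : ∀ u v, tot (c :: C) u v = dc c.2 u v + tot C u v := fun u v => tot_cons c C u v
    simp only [h1, Finset.sum_add_distrib]
    rw [← length_eq]

lemma total_two (C : List (Σ v : V, G.Walk v v)) :
    2 * (C.map fun c => c.2.length).sum = ∑ u, ∑ v, (tot C u v + tot C v u) := by
  have h : ∑ u, ∑ v, tot C v u = ∑ u, ∑ v, tot C u v := Finset.sum_comm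
  simp only [Finset.sum_add_distrib]
  rw [h, total_eq, two_mul]

lemma tot_closed (C : List (Σ v : V, G.Walk v v)) (v : V) : ∑ w, tot C v w = ∑ w, tot C w v := by
  induction C with
  | nil => simp [tot_nil]
  | cons c C ih =>
    have h1 : ∀ u v, tot (c :: C) u v = dc c.2 u v + tot C u v := fun u v => tot_cons c C u v
    simp only [h1, Finset.sum_add_distrib]
    rw [ih, dc_closed c.2 v]

lemma tot_pos_iff (C : List (Σ v : V, G.Walk v v)) {u v : V} (huv : u ≠ v) :
    0 < tot C u v + tot C v u ↔ ∃ c ∈ C, s(u, v) ∈ c.2.edges := by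
  induction C with
  | nil => simp [tot_nil]
  | cons c C ih =>
    have h1 : ∀ u v, tot (c :: C) u v = dc c.2 u v + tot C u v := fun u v => tot_cons c C u v
    rw [h1, h1]
    have h2 : 0 < dc c.2 u v + dc c.2 v u ↔ s(u, v) ∈ c.2.edges := by
      rw [dc_add_le_count c.2 huv, List.count_pos_iff]
    constructor
    · intro h
      by_cases h3 : 0 < dc c.2 u v + dc c.2 v u
      · exact ⟨c, List.mem_cons_self, h2.1 h3⟩
      · obtain ⟨d, hd, hd'⟩ := ih.1 (by omega)
        exact ⟨d, List.mem_cons_of_mem _ hd, hd'⟩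
    · rintro ⟨d, hd, hd'⟩
      rcases List.mem_cons.1 hd with rfl | hd
      · have := h2.2 hd'
        omega
      · have := ih.2 ⟨d, hd, hd'⟩
        omega

lemma ncard_nbr (v : V) : (G.neighborSet v).ncard = ∑ w, ind (G.Adj v w) := by
  rw [Set.ncard_eq_toFinset_card']
  have h : (G.neighborSet v).toFinset = univ.filter (fun w => G.Adj v w) := by
    ext w
    simp
  rw [h, Finset.card_filter]
  refine Finset.sum_congr rfl fun w _ => ?_
  unfold ind
  rfl

/-- lower bound at a vertex -/
lemma lower_vertex (C : List (Σ v : V, G.Walk v v))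
    (hC : ∀ u v, G.Adj u v → 0 < tot C u v + tot C v u) (v : V) :
    2 * (((G.neighborSet v).ncard + 1) / 2) ≤ ∑ w, (tot C v w + tot C w v) := by
  have h1 : (G.neighborSet v).ncard ≤ ∑ w, (tot C v w + tot C w v) := by
    rw [ncard_nbr]
    refine Finset.sum_le_sum fun w _ => ?_
    by_cases h : G.Adj v w
    · rw [ind_pos h]
      exact hC v w h
    · rw [ind_neg h]
      exact Nat.zero_le _
  have h2 : ∑ w, (tot C v w + tot C w v) = 2 * ∑ w, tot C v w := by
    rw [Finset.sum_add_distrib, ← tot_closed, two_mul]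
  omega

end

section

variable {Γ : Type} [Group Γ] [Fintype Γ] {G : SimpleGraph Γ}

lemma nbr_const (hG : ∀ a u v : Γ, G.Adj u v → G.Adj (a * u) (a * v)) (v : Γ) :
    (G.neighborSet v).ncard = (G.neighborSet 1).ncard := by
  rw [ncard_nbr, ncard_nbr]
  refine (Equiv.sum_comp (Equiv.mulLeft v) (fun w => ind (G.Adj v w))).symm.trans ?_
  refine Finset.sum_congr rfl fun w _ => ?_
  apply ind_iff
  show G.Adj v (v * w) ↔ G.Adj 1 w
  constructor
  · intro h
    have := hG v⁻¹ _ _ h
    rwa [inv_mul_cancel, inv_mul_cancel_left] at this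
  · intro h
    have := hG v _ _ h
    rwa [mul_one] at this

/-- a cover of the least length -/
theorem exists_cover (hG : ∀ a u v : Γ, G.Adj u v → G.Adj (a * u) (a * v))
    (hbridge : ∀ u v : Γ, G.Adj u v → (G.deleteEdges {s(u, v)}).Reachable u v) :
    ∃ C : List (Σ v : Γ, G.Walk v v), (∀ c ∈ C, c.2.IsCycle) ∧
      (∀ u v, G.Adj u v → 0 < tot C u v + tot C v u) ∧
      (C.map fun c => c.2.length).sum =
        Fintype.card Γ * (((G.neighborSet 1).ncard + 1) / 2) := by
  set d := (G.neighborSet 1).ncard with hd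
  let α : Γ → ℕ := fun s => ind (G.Adj 1 s)
  have hdα : d = ∑ s, α s := ncard_nbr 1
  have hinv' : ∀ s, G.Adj 1 s → G.Adj 1 s⁻¹ := by
    intro s hs
    have := hG s⁻¹ 1 s hs
    rw [mul_one, inv_mul_cancel] at this
    exact this.symm
  have hαinv : ∀ s, α s⁻¹ = α s := by
    intro s
    apply ind_iff
    constructor
    · intro h
      have := hinv' _ h
      rwa [inv_inv] at this
    · exact hinv' s
  have hα1 : ∀ s, α s ≤ 1 := by
    intro s
    show ind (G.Adj 1 s) ≤ 1
    unfold ind
    split_ifs <;> omega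
  have hαadj : ∀ s, α s ≠ 0 → G.Adj 1 s := by
    intro s hs
    by_contra h
    exact hs (ind_neg h)
  have gen : ∀ s, G.Adj 1 s → ∀ x, G.Adj x (x * s) := by
    intro s hs x
    have := hG x _ _ hs
    rwa [mul_one] at this
  -- it is enough to find suitable weights
  have key : ∀ c : Γ → ℕ, (∀ s, c s⁻¹ = c s) → (∀ s, α s ≤ c s) →
      (∀ s, c s ≠ 0 → G.Adj 1 s) → ∑ s, c s = 2 * ((d + 1) / 2) →
      (∀ s, s * s = 1 → 2 * c s ≤ 2 * ((d + 1) / 2)) →
      ∃ C : List (Σ v : Γ, G.Walk v v), (∀ c ∈ C, c.2.IsCycle) ∧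
      (∀ u v, G.Adj u v → 0 < tot C u v + tot C v u) ∧
      (C.map fun c => c.2.length).sum = Fintype.card Γ * ((d + 1) / 2) := by
    intro c h1 h2 h3 h4 h5
    obtain ⟨C, hC, hC'⟩ := cover (H := G) _ c h4 h1 (fun s hs => gen s (h3 s hs))
      (even_two_mul _) h5
    refine ⟨C, hC, ?_, ?_⟩
    · intro u v huv
      rw [hC' u v]
      have h6 : G.Adj 1 (u⁻¹ * v) := by
        have := hG u⁻¹ _ _ huv
        rwa [inv_mul_cancel] at this
      have h7 := h2 (u⁻¹ * v)
      have h8 : α (u⁻¹ * v) = 1 := ind_pos h6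
      show 0 < c (u⁻¹ * v)
      omega
    · have h6 := total_two C
      have h7 : ∑ u, ∑ v, (tot C u v + tot C v u) =
          Fintype.card Γ * (2 * ((d + 1) / 2)) := by
        have h8 : ∀ u : Γ, ∑ v, (tot C u v + tot C v u) = 2 * ((d + 1) / 2) := by
          intro u
          rw [← h4, ← Equiv.sum_comp (Equiv.mulLeft u)]
          refine Finset.sum_congr rfl fun v _ => ?_
          rw [hC']
          show c (u⁻¹ * (u * v)) = c v
          rw [inv_mul_cancel_left]
        rw [Finset.sum_congr rfl (fun u _ => h8 u), Finset.sum_const, smul_eq_mul, card_univ]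
      rw [h7] at h6
      have h9 : Fintype.card Γ * (2 * ((d + 1) / 2)) = 2 * (Fintype.card Γ * ((d + 1) / 2)) := by
        ring
      omega
  by_cases hpar : Even d
  · -- even valency
    obtain ⟨k, hk⟩ := hpar
    refine key α hαinv (fun _ => le_rfl) hαadj (by omega) ?_
    intro s _
    by_cases hs : α s = 0
    · omega
    · have h6 : α s ≤ ∑ s, α s := Finset.single_le_sum (fun _ _ => Nat.zero_le _) (mem_univ s)
      have := hα1 s
      omega
  · -- odd valency
    have hinvol : ∃ a, G.Adj 1 a ∧ a * a = 1 := by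
      by_contra hcon
      push Not at hcon
      apply hpar
      rw [hdα]
      exact even_sum α hαinv (fun a ha => hcon a (hαadj a ha))
    obtain ⟨a, ha, haa⟩ := hinvol
    have hself : a⁻¹ = a := inv_eq_of_mul_eq_one_left haa
    have hd3 : 3 ≤ d := by
      rw [Nat.not_even_iff_odd] at hpar
      obtain ⟨k, hk⟩ := hpar
      by_contra hlt
      have hd1 : d = 1 := by omega
      -- a cut edge
      have huniq : ∀ s, G.Adj 1 s → s = a := by
        have h6 := Set.ncard_eq_one.1 (hd.symm.trans hd1)
        obtain ⟨b, hb⟩ := h6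
        have ha' : a ∈ G.neighborSet 1 := ha
        rw [hb] at ha'
        intro s hs
        have hs' : s ∈ G.neighborSet 1 := hs
        rw [hb] at hs'
        exact hs'.trans ha'.symm
      obtain ⟨w⟩ := hbridge 1 a ha
      cases w with
      | nil => exact ha.ne rfl
      | cons h _ =>
        rw [SimpleGraph.deleteEdges_adj] at h
        have h7 := huniq _ h.1
        subst h7
        exact h.2 rfl
    have h1a : α a = 1 := ind_pos ha
    refine key (fun s => α s + one a s) ?_ ?_ ?_ ?_ ?_
    · intro s
      show α s⁻¹ + ind (s⁻¹ = a) = α s + ind (s = a)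
      rw [hαinv]
      congr 1
      apply ind_iff
      rw [inv_eq_iff_eq_inv, hself]
    · intro s
      show α s ≤ α s + one a s
      omega
    · intro s hs
      by_cases h6 : s = a
      · rw [h6]
        exact ha
      · have h7 : one a s = 0 := ind_neg h6
        refine hαadj s ?_
        have hs' : α s + one a s ≠ 0 := hs
        omega
    · rw [Finset.sum_add_distrib, ← hdα]
      have h6 : ∑ s, one a s = 1 := sum_ind_eq a
      rw [h6]
      rw [Nat.not_even_iff_odd] at hpar
      obtain ⟨k, hk⟩ := hpar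
      omega
    · intro s _
      show 2 * (α s + one a s) ≤ _
      have h6 := hα1 s
      have h7 : one a s ≤ 1 := by
        unfold one ind
        split_ifs <;> omega
      omega

end

end Pool.Agent.R759.SC
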