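import Pool.Agent.R759.SRDefs

/-! # Simplicial refinements: basic lemmas -/

set_option autoImplicit false

namespace Pool.Agent.R759.SR

open Finset

section
variable {V E : Type*} [AddCommGroup V] [Module ℝ V] [AddCommGroup E] [Module ℝ E]

open Classical in
/-- extension by zero -/
noncomputable def ext0 (C : Set V) (ω : C → ℝ) (x : V) : ℝ := if h : x ∈ C then ω ⟨x, h⟩ else 0

lemma ext0_of_mem {C : Set V} (ω : C → ℝ) {x : V} (h : x ∈ C) : ext0 C ω x = ω ⟨x, h⟩ :=
  dif_pos h

lemma ext0_affine {C : Set V} (hC : Convex ℝ C) {ω : C → ℝ} (hω : ω ∈ Omega C) {a b : V}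
    (ha : a ∈ C) (hb : b ∈ C) {s t : ℝ} (hs : 0 ≤ s) (ht : 0 ≤ t) (hst : s + t = 1) :
    ext0 C ω (s • a + t • b) = s * ext0 C ω a + t * ext0 C ω b := by
  have hc : s • a + t • b ∈ C := hC ha hb hs ht hst
  rw [ext0_of_mem ω hc, ext0_of_mem ω ha, ext0_of_mem ω hb]
  have ht' : t = 1 - s := by linarith
  subst ht'
  exact hω.2 ⟨a, ha⟩ ⟨b, hb⟩ ⟨_, hc⟩ s hs (by linarith) rfl

lemma ext0_sum {C : Set V} (hC : Convex ℝ C) {ω : C → ℝ} (hω : ω ∈ Omega C) {ι : Type*}
    (s : Finset ι) (w : ι → ℝ) (x : ι → V) (hw : ∀ i ∈ s, 0 ≤ w i) (hw1 : ∑ i ∈ s, w i = 1)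
    (hx : ∀ i ∈ s, x i ∈ C) :
    ext0 C ω (∑ i ∈ s, w i • x i) = ∑ i ∈ s, w i * ext0 C ω (x i) := by
  have h1 : ConvexOn ℝ C (ext0 C ω) := ⟨hC, fun a ha b hb s t hs ht hst =>
    (ext0_affine hC hω ha hb hs ht hst).le⟩
  have h2 : ConcaveOn ℝ C (ext0 C ω) := ⟨hC, fun a ha b hb s t hs ht hst =>
    (ext0_affine hC hω ha hb hs ht hst).ge⟩
  exact le_antisymm (h1.map_sum_le hw hw1 hx) (h2.le_map_sum hw hw1 hx)

/-- affine relations are preserved -/
lemma ext0_relation {C : Set V} (hC : Convex ℝ C) {ω : C → ℝ} (hω : ω ∈ Omega C) {ι : Type*}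
    (s : Finset ι) (w : ι → ℝ) (x : ι → V) (hx : ∀ i ∈ s, x i ∈ C)
    (h0 : ∑ i ∈ s, w i = 0) (h1 : ∑ i ∈ s, w i • x i = 0) :
    ∑ i ∈ s, w i * ext0 C ω (x i) = 0 := by
  obtain ⟨P, hP⟩ : ∃ P : ι → ℝ, P = fun i => max (w i) 0 := ⟨_, rfl⟩
  obtain ⟨N, hN⟩ : ∃ N : ι → ℝ, N = fun i => max (-w i) 0 := ⟨_, rfl⟩
  have hw : ∀ i, w i = P i - N i := by
    intro i
    rw [hP, hN]
    simp only
    rcases le_total 0 (w i) with h | h
    · rw [max_eq_left h, max_eq_right (by linarith)]; ring
    · rw [max_eq_right h, max_eq_left (by linarith)]; ring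
  have hP0 : ∀ i, 0 ≤ P i := fun i => by rw [hP]; exact le_max_right _ _
  have hN0 : ∀ i, 0 ≤ N i := fun i => by rw [hN]; exact le_max_right _ _
  set S := ∑ i ∈ s, P i with hS
  have hS' : ∑ i ∈ s, N i = S := by
    simp_rw [hw, sum_sub_distrib] at h0
    linarith
  rcases (sum_nonneg fun i _ => hP0 i : 0 ≤ S).eq_or_lt with h | hpos
  · have e1 : ∀ i ∈ s, P i = 0 := (sum_eq_zero_iff_of_nonneg fun i _ => hP0 i).1 (hS.symm.trans h.symm)
    have e2 : ∀ i ∈ s, N i = 0 := (sum_eq_zero_iff_of_nonneg fun i _ => hN0 i).1 (hS'.trans h.symm)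
    refine sum_eq_zero fun i hi => ?_
    rw [hw, e1 i hi, e2 i hi]; ring
  · have e1 := ext0_sum hC hω s (fun i => P i / S) x (fun i _ => div_nonneg (hP0 i) hpos.le)
      (by rw [← sum_div, ← hS, div_self hpos.ne']) hx
    have e2 := ext0_sum hC hω s (fun i => N i / S) x (fun i _ => div_nonneg (hN0 i) hpos.le)
      (by rw [← sum_div, hS', div_self hpos.ne']) hx
    have e3 : ∑ i ∈ s, (P i / S) • x i = ∑ i ∈ s, (N i / S) • x i := by
      rw [← sub_eq_zero, ← sum_sub_distrib]
      have : ∀ i ∈ s, (P i / S) • x i - (N i / S) • x i = S⁻¹ • (w i • x i) := by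
        intro i _
        have hwi : P i / S - N i / S = S⁻¹ * w i := by
          rw [hw i, ← sub_div, div_eq_inv_mul]
        rw [← sub_smul, hwi, smul_smul]
      rw [sum_congr rfl this, ← smul_sum, h1, smul_zero]
    rw [e3, e2] at e1
    have e4 : ∑ i ∈ s, w i * ext0 C ω (x i) =
        S * (∑ i ∈ s, P i / S * ext0 C ω (x i) - ∑ i ∈ s, N i / S * ext0 C ω (x i)) := by
      rw [← sum_sub_distrib, mul_sum]
      refine sum_congr rfl fun i _ => ?_
      have hS0 : S ≠ 0 := hpos.ne'
      rw [hw, ← sub_mul, ← sub_div, ← mul_assoc, mul_div_cancel₀ _ hS0]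
    rw [e4, e1, sub_self, mul_zero]

/-- an affine function on a convex set is the restriction of an affine function -/
theorem exists_affine_ext {C : Set V} (hC : Convex ℝ C) {ω : C → ℝ} (hω : ω ∈ Omega C) :
    ∃ (A : V →ₗ[ℝ] ℝ) (c : ℝ), ∀ x : C, ω x = A x + c := by
  rcases C.eq_empty_or_nonempty with rfl | ⟨c0, hc0⟩
  · exact ⟨0, 0, fun x => absurd x.2 (Set.notMem_empty _)⟩
  set S : Set V := (fun c => c - c0) '' C with hS
  obtain ⟨b, hbS, hspan, hli⟩ := exists_linearIndependent ℝ S
  have hli' : LinearIndepOn ℝ id b := hli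
  let B := Module.Basis.extend hli'
  have hbsub : b ⊆ hli'.extend (Set.subset_univ b) := hli'.subset_extend _
  obtain ⟨A, hA⟩ : ∃ A : V →ₗ[ℝ] ℝ, ∀ y ∈ b, A y = ext0 C ω (y + c0) - ext0 C ω c0 := by
    refine ⟨B.constr ℝ fun y => ext0 C ω ((y : V) + c0) - ext0 C ω c0, fun y hy => ?_⟩
    have h1 : B ⟨y, hbsub hy⟩ = y := Module.Basis.extend_apply_self hli' _
    conv_lhs => rw [← h1]
    rw [Module.Basis.constr_basis]
  refine ⟨A, ext0 C ω c0 - A c0, fun x => ?_⟩
  have hx : (x : V) - c0 ∈ Submodule.span ℝ b := by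
    rw [hspan]
    exact Submodule.subset_span ⟨x, x.2, rfl⟩
  obtain ⟨l, hl1, hl2⟩ := Finsupp.mem_span_iff_linearCombination ℝ b _ |>.1 hx |>.imp
    fun l hl => (⟨rfl, hl⟩ : l = l ∧ Finsupp.linearCombination ℝ ((↑) : b → V) l = (x : V) - c0)
  rw [Finsupp.linearCombination_apply, Finsupp.sum] at hl2
  -- the relation `x - c0 - ∑ l_y y = 0`
  have hmem : ∀ y : b, (y : V) + c0 ∈ C := by
    intro y
    obtain ⟨c, hc, hcy⟩ := hbS y.2
    rw [← hcy]
    simpa using hc
  have key := ext0_relation hC hω (insertNone (insertNone l.support))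
    (fun o => o.elim (1 : ℝ) fun o' => o'.elim (∑ y ∈ l.support, l y - 1) fun y => -l y)
    (fun o => o.elim (x : V) fun o' => o'.elim c0 fun y => (y : V) + c0) (by
      intro o _
      rcases o with _ | o
      · exact x.2
      · rcases o with _ | o
        · exact hc0
        · exact hmem o) (by
      rw [sum_insertNone, sum_insertNone]
      simp only [Option.elim, sum_neg_distrib]
      ring) (by
      rw [sum_insertNone, sum_insertNone]
      simp only [Option.elim]
      have : ∑ y ∈ l.support, (-l y) • ((y : V) + c0) =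
          -(∑ y ∈ l.support, l y • (y : V)) - (∑ y ∈ l.support, l y) • c0 := by
        rw [Finset.sum_smul, ← sum_neg_distrib, ← sum_sub_distrib]
        refine sum_congr rfl fun y _ => ?_
        rw [smul_add, neg_smul, neg_smul]
        abel
      rw [this, hl2, sub_smul, one_smul, one_smul]
      abel)
  rw [sum_insertNone, sum_insertNone] at key
  simp only [Option.elim] at key
  have hAx : A ((x : V) - c0) = ∑ y ∈ l.support, l y * (ext0 C ω ((y : V) + c0) - ext0 C ω c0) := by
    rw [← hl2, map_sum]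
    refine sum_congr rfl fun y _ => ?_
    rw [map_smul, smul_eq_mul, hA _ y.2]
  have hx' : ω x = ext0 C ω x := (ext0_of_mem ω x.2).symm
  rw [hx']
  rw [map_sub] at hAx
  have e : ∑ y ∈ l.support, l y * (ext0 C ω ((y : V) + c0) - ext0 C ω c0) =
      ∑ y ∈ l.support, l y * ext0 C ω ((y : V) + c0) - (∑ y ∈ l.support, l y) * ext0 C ω c0 := by
    rw [Finset.sum_mul, ← sum_sub_distrib]
    exact sum_congr rfl fun y _ => by ring
  rw [e] at hAx
  have e2 : ∑ y ∈ l.support, -l y * ext0 C ω ((y : V) + c0) =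
      -∑ y ∈ l.support, l y * ext0 C ω ((y : V) + c0) := by
    rw [← sum_neg_distrib]
    exact sum_congr rfl fun y _ => by ring
  rw [e2] at key
  linarith

/-- restrictions of affine functions -/
lemma mem_Omega_of_affine {C : Set V} (A : V →ₗ[ℝ] ℝ) (c : ℝ)
    (h : ∀ x ∈ C, 0 ≤ A x + c ∧ A x + c ≤ 1) : (fun x : C => A x + c) ∈ Omega C := by
  refine ⟨fun x => h x x.2, fun a b d t _ _ hd => ?_⟩
  simp only
  rw [hd, map_add, map_smul, map_smul, smul_eq_mul, smul_eq_mul]
  ring

end

section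
variable {V E : Type*} [AddCommGroup V] [Module ℝ V] [AddCommGroup E] [Module ℝ E]

/-- construction of a refinement: `f` is the restriction of the linear map `F` to `D`, and every
element of `ΩC` lifts to `ΩT` -/
theorem exists_refinement {C : Set V} {T D : Set E} (hD : Convex ℝ D) (hDT : D ⊆ T)
    (F : E →ₗ[ℝ] V) (hF : F '' D = C)
    (hext : ∀ ω ∈ Omega C, ∃ a ∈ Omega T, ∀ (w : E) (hw : w ∈ D) (hw' : F w ∈ C),
      a ⟨w, hDT hw⟩ = ω ⟨F w, hw'⟩) :
    ∃ R : Refinement C T, R.f.dom = D ∧ ∀ a : R.f.dom, R.f.toFun a = F a := by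
  classical
  have hFC : ∀ w ∈ D, F w ∈ C := fun w hw => hF ▸ ⟨w, hw, rfl⟩
  have hpre : ∀ c : C, ∃ w ∈ D, F w = c := fun c => by
    exact (Set.ext_iff.1 hF (c : V)).2 c.2
  choose w hw hwF using hpre
  let f : PartialOnto T C :=
    { dom := D
      dom_subset := hDT
      toFun := fun a => F a
      convex := fun a ha b hb t ht ht1 => hD ha hb ht (by linarith) (by ring)
      affine := fun a b c t _ _ hc => by rw [hc, map_add, map_smul, map_smul]
      range_eq := by
        rw [← hF]
        ext y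
        constructor
        · rintro ⟨a, rfl⟩
          exact ⟨a, a.2, rfl⟩
        · rintro ⟨a, ha, rfl⟩
          exact ⟨⟨a, ha⟩, rfl⟩ }
  let Dg : Set (T → ℝ) := {a | a ∈ Omega T ∧ ∃ ω ∈ Omega C,
    ∀ (w : E) (hw : w ∈ D) (hw' : F w ∈ C), a ⟨w, hDT hw⟩ = ω ⟨F w, hw'⟩}
  let g : PartialOnto (Omega T) (Omega C) :=
    { dom := Dg
      dom_subset := fun a ha => ha.1
      toFun := fun a c => a.1 ⟨w c, hDT (hw c)⟩
      convex := by
        rintro a ⟨ha, ω, hω, h⟩ b ⟨hb, ω', hω', h'⟩ t ht ht1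
        refine ⟨⟨fun x => ?_, fun x y z s hs hs1 hz => ?_⟩, t • ω + (1 - t) • ω', ⟨fun x => ?_,
          fun x y z s hs hs1 hz => ?_⟩, fun w hw hw' => ?_⟩
        · simp only [Pi.add_apply, Pi.smul_apply, smul_eq_mul]
          have h1 := ha.1 x
          have h2 := hb.1 x
          constructor
          · exact add_nonneg (mul_nonneg ht h1.1) (mul_nonneg (by linarith) h2.1)
          · nlinarith [mul_le_mul_of_nonneg_left h1.2 ht,
              mul_le_mul_of_nonneg_left h2.2 (by linarith : 0 ≤ 1 - t)]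
        · simp only [Pi.add_apply, Pi.smul_apply, smul_eq_mul]
          rw [ha.2 x y z s hs hs1 hz, hb.2 x y z s hs hs1 hz]
          ring
        · simp only [Pi.add_apply, Pi.smul_apply, smul_eq_mul]
          have h1 := hω.1 x
          have h2 := hω'.1 x
          constructor
          · exact add_nonneg (mul_nonneg ht h1.1) (mul_nonneg (by linarith) h2.1)
          · nlinarith [mul_le_mul_of_nonneg_left h1.2 ht,
              mul_le_mul_of_nonneg_left h2.2 (by linarith : 0 ≤ 1 - t)]
        · simp only [Pi.add_apply, Pi.smul_apply, smul_eq_mul]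
          rw [hω.2 x y z s hs hs1 hz, hω'.2 x y z s hs hs1 hz]
          ring
        · simp only [Pi.add_apply, Pi.smul_apply, smul_eq_mul]
          rw [h w hw hw', h' w hw hw']
      affine := by
        intro a b c t _ _ hc
        funext x
        simp only [Pi.add_apply, Pi.smul_apply, smul_eq_mul]
        rw [hc]
        rfl
      range_eq := by
        ext ω
        constructor
        · rintro ⟨⟨a, ha, ω, hω, h⟩, rfl⟩
          have : (fun c : C => a ⟨w c, hDT (hw c)⟩) = ω := by
            funext c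
            have h1 := h (w c) (hw c) (by rw [hwF]; exact c.2)
            rw [h1]
            congr 1
            exact Subtype.ext (hwF c)
          show (fun c : C => a ⟨w c, hDT (hw c)⟩) ∈ Omega C
          rw [this]
          exact hω
        · intro hω
          obtain ⟨a, ha, h⟩ := hext ω hω
          refine ⟨⟨a, ha, ω, hω, h⟩, ?_⟩
          funext c
          have h1 := h (w c) (hw c) (by rw [hwF]; exact c.2)
          show a ⟨w c, hDT (hw c)⟩ = ω c
          rw [h1]
          congr 1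
          exact Subtype.ext (hwF c) }
  refine ⟨⟨f, g, ?_⟩, rfl, fun a => rfl⟩
  rintro ⟨a, ha⟩ ⟨α, hα, ω, hω, h⟩ hfa
  show α ⟨w ⟨F a, hfa⟩, hDT (hw _)⟩ = α ⟨a, hDT ha⟩
  rw [h _ (hw _) (by rw [hwF]; exact hfa), h a ha hfa]
  congr 1
  exact Subtype.ext (hwF _)

/-- lifting is enough on the vertices of `D` -/
theorem ext_of_vertices {ι κ : Type*} [Fintype ι] {C : Set V} {T : Set (ι → ℝ)}
    (hT : T = stdSimplex ℝ ι)
    (x : κ → ι → ℝ) (hDT : convexHull ℝ (Set.range x) ⊆ T) (F : (ι → ℝ) →ₗ[ℝ] V)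
    (A : V →ₗ[ℝ] ℝ) (c : ℝ) {ω : C → ℝ} (hA : ∀ y : C, ω y = A y + c)
    (a : ι → ℝ) (ha : ∀ i, 0 ≤ a i ∧ a i ≤ 1)
    (h : ∀ k, ∑ i, a i * x k i = A (F (x k)) + c) :
    ∃ a ∈ Omega T, ∀ (w : ι → ℝ) (hw : w ∈ convexHull ℝ (Set.range x)) (hw' : F w ∈ C),
      a ⟨w, hDT hw⟩ = ω ⟨F w, hw'⟩ := by
  let L : (ι → ℝ) →ₗ[ℝ] ℝ := ∑ i, a i • LinearMap.proj i
  have hL : ∀ w, L w = ∑ i, a i * w i := by
    intro w
    simp [L]
  refine ⟨fun w => L w + 0, mem_Omega_of_affine L 0 ?_, ?_⟩
  · intro w hw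
    rw [hT] at hw
    rw [hL, add_zero]
    constructor
    · exact sum_nonneg fun i _ => mul_nonneg (ha i).1 (hw.1 i)
    · rw [← hw.2]
      exact sum_le_sum fun i _ => mul_le_of_le_one_left (hw.1 i) (ha i).2
  · intro w hw hw'
    simp only [add_zero]
    rw [hA]
    -- both sides are affine in `w`
    have hsub : convexHull ℝ (Set.range x) ⊆ {w | L w = A (F w) + c} := by
      refine convexHull_min ?_ ?_
      · rintro _ ⟨k, rfl⟩
        show L (x k) = _
        rw [hL, h]
      · intro u hu v hv s t hs ht hst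
        show L (s • u + t • v) = A (F (s • u + t • v)) + c
        rw [map_add, map_smul, map_smul, map_add, map_smul, map_smul, map_add, map_smul, map_smul]
        have hu' : L u = A (F u) + c := hu
        have hv' : L v = A (F v) + c := hv
        rw [hu', hv']
        simp only [smul_eq_mul]
        have : c = s * c + t * c := by rw [← add_mul, hst, one_mul]
        linear_combination -this
    exact hsub hw

/-- points exposed by linear functionals are extreme -/
theorem extremePoints_of_exposed {κ : Type*} (v : κ → V) (u : κ → V →ₗ[ℝ] ℝ)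
    (hu : ∀ j k, k ≠ j → u j (v k) < u j (v j)) :
    (convexHull ℝ (Set.range v)).extremePoints ℝ = Set.range v := by
  refine Set.Subset.antisymm extremePoints_convexHull_subset ?_
  rintro _ ⟨j, rfl⟩
  have h1 : convexHull ℝ (Set.range v) ⊆ {y | y = v j ∨ u j y < u j (v j)} := by
    refine convexHull_min ?_ ?_
    · rintro _ ⟨k, rfl⟩
      by_cases hk : k = j
      · left; rw [hk]
      · right; exact hu j k hk
    · intro y hy z hz s t hs ht hst
      rcases hs.eq_or_lt with rfl | hs'
      · have : t = 1 := by linarith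
        subst this
        simpa using hz
      rcases ht.eq_or_lt with rfl | ht'
      · have : s = 1 := by linarith
        subst this
        simpa using hy
      by_cases hyz : y = v j ∧ z = v j
      · left
        rw [hyz.1, hyz.2, ← add_smul, hst, one_smul]
      · right
        rw [map_add, map_smul, map_smul, smul_eq_mul, smul_eq_mul]
        have hy' : u j y ≤ u j (v j) := by
          rcases hy with h | h
          · rw [h]
          · exact h.le
        have hz' : u j z ≤ u j (v j) := by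
          rcases hz with h | h
          · rw [h]
          · exact h.le
        have e : u j (v j) = s * u j (v j) + t * u j (v j) := by rw [← add_mul, hst, one_mul]
        rcases not_and_or.1 hyz with h | h
        · have h2 : u j y < u j (v j) := hy.resolve_left h
          nlinarith
        · have h2 : u j z < u j (v j) := hz.resolve_left h
          nlinarith
  rw [mem_extremePoints]
  refine ⟨subset_convexHull ℝ _ ⟨j, rfl⟩, fun y hy z hz hseg => ?_⟩
  obtain ⟨s, t, hs, ht, hst, hyz⟩ := hseg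
  have e1 := congrArg (u j) hyz
  rw [map_add, map_smul, map_smul, smul_eq_mul, smul_eq_mul] at e1
  have e : u j (v j) = s * u j (v j) + t * u j (v j) := by rw [← add_mul, hst, one_mul]
  have hy' : u j y ≤ u j (v j) := by
    rcases h1 hy with h | h
    · rw [h]
    · exact le_of_lt h
  have hz' : u j z ≤ u j (v j) := by
    rcases h1 hz with h | h
    · rw [h]
    · exact le_of_lt h
  constructor
  · rcases h1 hy with h | h
    · exact h
    · exfalso
      have : u j y < u j (v j) := h
      nlinarith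
  · rcases h1 hz with h | h
    · exact h
    · exfalso
      have : u j z < u j (v j) := h
      nlinarith

/-- The data of vertices `x k` of the domain, a linear map `F`, and lifts of the values of all
`ω ∈ ΩC` at the vertices, give a refinement. -/
theorem exists_refinement_of_vertices {ι κ : Type*} [Fintype ι] (v : κ → V) (x : κ → ι → ℝ)
    (hx : ∀ k, x k ∈ stdSimplex ℝ ι) (F : (ι → ℝ) →ₗ[ℝ] V) (hF : ∀ k, F (x k) = v k)
    (hlift : ∀ (A : V →ₗ[ℝ] ℝ) (c : ℝ), (∀ k, 0 ≤ A (v k) + c ∧ A (v k) + c ≤ 1) →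
      ∃ a : ι → ℝ, (∀ i, 0 ≤ a i ∧ a i ≤ 1) ∧ ∀ k, ∑ i, a i * x k i = A (v k) + c) :
    ∃ R : Refinement (convexHull ℝ (Set.range v)) (stdSimplex ℝ ι),
      R.f.dom = convexHull ℝ (Set.range x) ∧ ∀ a : R.f.dom, R.f.toFun a = F a := by
  have hDT : convexHull ℝ (Set.range x) ⊆ stdSimplex ℝ ι :=
    convexHull_min (by rintro _ ⟨k, rfl⟩; exact hx k) (convex_stdSimplex ℝ ι)
  refine exists_refinement (convex_convexHull ℝ _) hDT F ?_ ?_
  · rw [F.image_convexHull, ← Set.range_comp]
    congr 2
    funext k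
    exact hF k
  · intro ω hω
    obtain ⟨A, c, hA⟩ := exists_affine_ext (convex_convexHull ℝ _) hω
    obtain ⟨a, ha, ha'⟩ := hlift A c (fun k => by
      have h := hω.1 ⟨v k, subset_convexHull ℝ _ ⟨k, rfl⟩⟩
      rw [hA] at h
      exact h)
    exact ext_of_vertices rfl x hDT F A c hA a ha (fun k => by rw [ha', hF])

/-- too many extreme points for a simplex -/
theorem not_isSimplex {κ : Type*} [Fintype κ] [FiniteDimensional ℝ V] {C : Set V} (v : κ → V)
    (hv : Function.Injective v) (hC : ∀ k, v k ∈ C.extremePoints ℝ)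
    (hcard : Module.finrank ℝ V + 1 < Fintype.card κ) (N : ℕ) : ¬ IsSimplex C N := by
  rintro ⟨ι, _, e, -, hind, rfl⟩
  have h1 : ∀ k, ∃ i, e i = v k := fun k => by
    have h := extremePoints_convexHull_subset (hC k)
    exact h
  choose φ hφ using h1
  have hinj : Function.Injective φ := fun k l h => hv (by rw [← hφ, ← hφ, h])
  have h2 := Fintype.card_le_of_injective φ hinj
  have h3 := hind.card_le_finrank_succ
  have h4 : Module.finrank ℝ (vectorSpan ℝ (Set.range e)) ≤ Module.finrank ℝ V :=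
    Submodule.finrank_le _
  omega

/-- the standard simplex is a simplex -/
theorem isSimplex_stdSimplex (ι : Type) [Fintype ι] :
    IsSimplex (stdSimplex ℝ ι) (Fintype.card ι) := by
  classical
  refine ⟨ι, inferInstance, fun i => Pi.single i 1, rfl, ?_, ?_⟩
  · have h := (Pi.basisFun ℝ ι).linearIndependent.affineIndependent
    have e : (fun i : ι => (Pi.single i 1 : ι → ℝ)) = Pi.basisFun ℝ ι := by
      funext i
      rw [Pi.basisFun_apply]
    rw [e]
    exact h
  · rw [convexHull_rangle_single_eq_stdSimplex]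

end

end Pool.Agent.R759.SR
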