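import Mathlib

/-! # Statistical models and simplicial refinements: definitions -/

set_option autoImplicit false

namespace Pool.Agent.R759.SR

variable {V E : Type*} [AddCommGroup V] [Module ℝ V] [AddCommGroup E] [Module ℝ E]

/-- A polytope: the convex hull of a non-empty finite set. -/
def IsPolytope (C : Set V) : Prop :=
  ∃ s : Finset V, s.Nonempty ∧ C = convexHull ℝ (s : Set V)

/-- `T` is a simplex with `N` vertices: the convex hull of `N` affinely independent points. -/
def IsSimplex (T : Set V) (N : ℕ) : Prop :=
  ∃ (ι : Type) (_ : Fintype ι) (e : ι → V), Fintype.card ι = N ∧ AffineIndependent ℝ e ∧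
    T = convexHull ℝ (Set.range e)

/-- The convex-form space `ΩC` of `C`: the affine functions `C → [0, 1]`, a convex set of real
functions on `C` under pointwise convex combination. -/
def Omega (C : Set V) : Set (C → ℝ) :=
  {ω | (∀ x, 0 ≤ ω x ∧ ω x ≤ 1) ∧
    ∀ (a b c : C) (t : ℝ), 0 ≤ t → t ≤ 1 → (c : V) = t • (a : V) + (1 - t) • (b : V) →
      ω c = t * ω a + (1 - t) * ω b}

/-- A partial, onto, affine map `X ⇀ Y` between convex sets: it is defined on a subset `dom` of
`X` which contains `t a + (1 - t) b` whenever it contains `a` and `b` (`0 ≤ t ≤ 1`), it preserves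
these convex combinations, and its set of values is `Y`. -/
structure PartialOnto (X : Set E) (Y : Set V) where
  /-- the domain -/
  dom : Set E
  dom_subset : dom ⊆ X
  /-- the values -/
  toFun : dom → V
  convex : ∀ a ∈ dom, ∀ b ∈ dom, ∀ t : ℝ, 0 ≤ t → t ≤ 1 → t • a + (1 - t) • b ∈ dom
  affine : ∀ (a b c : dom) (t : ℝ), 0 ≤ t → t ≤ 1 → (c : E) = t • (a : E) + (1 - t) • (b : E) →
    toFun c = t • toFun a + (1 - t) • toFun b
  range_eq : Set.range toFun = Y

/-- The data `(f, g)` which make `(T, ΩT, f, g)` a refinement of `(C, ΩC)`: partial, onto, affine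
maps `f : T ⇀ C` and `g : ΩT ⇀ ΩC` with `g(ω) · f(a) = ω · a` for all `a` in the domain of `f` and
all `ω` in the domain of `g`. It is a simplicial refinement if `T` is a simplex. -/
structure Refinement (C : Set V) (T : Set E) where
  /-- the map between the sets of states -/
  f : PartialOnto T C
  /-- the map between the convex-form spaces -/
  g : PartialOnto (Omega T) (Omega C)
  compat : ∀ (a : f.dom) (ω : g.dom) (h : f.toFun a ∈ C),
    g.toFun ω ⟨f.toFun a, h⟩ = ω.1 ⟨a, f.dom_subset a.2⟩

end Pool.Agent.R759.SR
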