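import Pool.Agent.R759.SRParab

/-! # Polytopes of every dimension `≥ 2` with a refinement by a small simplex -/

set_option autoImplicit false

namespace Pool.Agent.R759.SR.Parab

open Finset

/-- the ambient space -/
abbrev VV (r : ℕ) := (ℝ × ℝ) × (Fin r → ℝ)

/-- index of the vertices of the polytope -/
abbrev KK (k r : ℕ) := Fin (2 ^ k + 1) ⊕ (Bool ⊕ Fin r)

/-- index of the vertices of the simplex -/
abbrev II (k r : ℕ) := PI k ⊕ (Bool ⊕ Fin r)

/-- the grid points -/
noncomputable def gx (k : ℕ) (t : Fin (2 ^ k + 1)) : ℝ := (t : ℕ) / 2 ^ k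

lemma gx_grid (k : ℕ) (t : Fin (2 ^ k + 1)) : Grid k (gx k t) :=
  ⟨t, Nat.lt_succ_iff.1 t.2, rfl⟩

lemma grid_gx (k : ℕ) {x : ℝ} (h : Grid k x) : ∃ t, gx k t = x := by
  obtain ⟨t, ht, rfl⟩ := h
  exact ⟨⟨t, Nat.lt_succ_iff.2 ht⟩, rfl⟩

lemma gx_injective (k : ℕ) : Function.Injective (gx k) := by
  intro s t h
  have h2 : (2 : ℝ) ^ k ≠ 0 := by positivity
  rw [gx, gx, div_left_inj' h2] at h
  exact Fin.ext (by exact_mod_cast h)

/-- the large constant -/
noncomputable def LL (k : ℕ) : ℝ := 2 + ∑ i : PI k, 8 * 2 ^ k / τ k i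

lemma LL_ge (k : ℕ) : 2 ≤ LL k := by
  rw [LL]
  have : 0 ≤ ∑ i : PI k, 8 * 2 ^ k / τ k i :=
    sum_nonneg fun i _ => div_nonneg (by positivity) (τ_pos k i).le
  linarith

lemma LL_ge' (k : ℕ) (i : PI k) : 8 * 2 ^ k / τ k i ≤ LL k := by
  rw [LL]
  have : 8 * 2 ^ k / τ k i ≤ ∑ i : PI k, 8 * 2 ^ k / τ k i :=
    single_le_sum (f := fun i => 8 * 2 ^ k / τ k i)
      (fun i _ => div_nonneg (by positivity) (τ_pos k i).le) (mem_univ i)
  linarith

/-- the vertices of the polytope -/
noncomputable def vv (k r : ℕ) : KK k r → VV r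
  | Sum.inl t => ((gx k t, gx k t - gx k t ^ 2), 0)
  | Sum.inr (Sum.inl b) => ((if b then LL k else 0, -LL k), 0)
  | Sum.inr (Sum.inr j) => ((0, 0), Pi.single j 1)

/-- the vertices of the domain of `f` -/
noncomputable def xx (k r : ℕ) : KK k r → II k r → ℝ
  | Sum.inl t => Sum.elim (fun i => τ k i * Y k (gx k t) i) (fun _ => 0)
  | Sum.inr o => Sum.elim (fun _ => 0) (Pi.single o 1)

lemma xx_sum (k r : ℕ) (p : KK k r) (a : II k r → ℝ) :
    ∑ i, a i * xx k r p i = match p with
      | Sum.inl t => ∑ i, a (Sum.inl i) * (τ k i * Y k (gx k t) i)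
      | Sum.inr o => a (Sum.inr o) := by
  rw [Fintype.sum_sum_type]
  rcases p with t | o
  · simp only [xx, Sum.elim_inl, Sum.elim_inr, mul_zero, sum_const_zero, add_zero]
  · simp only [xx, Sum.elim_inl, Sum.elim_inr, mul_zero, sum_const_zero, zero_add]
    rw [sum_eq_single o]
    · simp
    · intro b _ hb
      simp [hb]
    · intro h
      exact absurd (mem_univ _) h

lemma xx_mem (k r : ℕ) (p : KK k r) : xx k r p ∈ stdSimplex ℝ (II k r) := by
  constructor
  · intro i
    rcases p with t | o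
    · rcases i with i | i
      · simp only [xx, Sum.elim_inl]
        exact mul_nonneg (τ_pos k i).le (Y_nonneg k _ (gx_grid k t) i)
      · simp only [xx, Sum.elim_inr]; exact le_rfl
    · rcases i with i | i
      · simp only [xx, Sum.elim_inl]; exact le_rfl
      · simp only [xx, Sum.elim_inr]
        by_cases h : i = o
        · subst h; simp
        · simp [h]
  · have h := xx_sum k r p (fun _ => 1)
    simp only [one_mul] at h
    rw [h]
    rcases p with t | o
    · exact sum_τ k _ (gx_grid k t)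
    · rfl

/-- the linear map which restricts to `f` -/
noncomputable def FF (k r : ℕ) : (II k r → ℝ) →ₗ[ℝ] VV r where
  toFun w := ((∑ i, ρ k i / τ k i * w (Sum.inl i) + LL k * w (Sum.inr (Sum.inl true)),
    ∑ i, σ k i / τ k i * w (Sum.inl i) -
      LL k * (w (Sum.inr (Sum.inl true)) + w (Sum.inr (Sum.inl false)))),
    fun j => w (Sum.inr (Sum.inr j)))
  map_add' w w' := by
    refine Prod.ext (Prod.ext ?_ ?_) ?_
    · simp only [Pi.add_apply, Prod.fst_add, mul_add, sum_add_distrib]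
      ring
    · simp only [Pi.add_apply, Prod.fst_add, Prod.snd_add, mul_add, sum_add_distrib]
      ring
    · rfl
  map_smul' t w := by
    have e : ∀ f : PI k → ℝ, ∑ i, f i * (t * w (Sum.inl i)) = t * ∑ i, f i * w (Sum.inl i) := by
      intro f
      rw [mul_sum]
      exact sum_congr rfl fun i _ => by ring
    refine Prod.ext (Prod.ext ?_ ?_) ?_
    · simp only [Pi.smul_apply, smul_eq_mul, RingHom.id_apply, Prod.smul_fst, e]
      ring
    · simp only [Pi.smul_apply, smul_eq_mul, RingHom.id_apply, Prod.smul_fst, Prod.smul_snd, e]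
      ring
    · rfl

lemma FF_xx (k r : ℕ) (p : KK k r) : FF k r (xx k r p) = vv k r p := by
  rcases p with t | b | j
  · have e : ∀ f : PI k → ℝ, ∑ i, f i / τ k i * (τ k i * Y k (gx k t) i) =
        ∑ i, f i * Y k (gx k t) i := by
      intro f
      refine sum_congr rfl fun i _ => ?_
      have := (τ_pos k i).ne'
      field_simp
    refine Prod.ext (Prod.ext ?_ ?_) ?_
    · simp only [FF, xx, vv, LinearMap.coe_mk, AddHom.coe_mk, Sum.elim_inl, Sum.elim_inr, e,
        sum_ρ k _ (gx_grid k t)]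
      ring
    · simp only [FF, xx, vv, LinearMap.coe_mk, AddHom.coe_mk, Sum.elim_inl, Sum.elim_inr, e,
        sum_σ k _ (gx_grid k t)]
      ring
    · rfl
  · refine Prod.ext (Prod.ext ?_ ?_) ?_
    · cases b <;> simp [FF, xx, vv]
    · cases b <;> simp [FF, xx, vv]
    · funext j
      simp [FF, xx, vv]
  · refine Prod.ext (Prod.ext ?_ ?_) ?_
    · simp [FF, xx, vv]
    · simp [FF, xx, vv]
    · funext j'
      by_cases h : j' = j
      · subst h
        simp [FF, xx, vv]
      · simp [FF, xx, vv, h]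

lemma sub_sq_bound {x : ℝ} (h : 0 ≤ x ∧ x ≤ 1) : 0 ≤ x - x ^ 2 ∧ x - x ^ 2 ≤ 1 := by
  constructor <;> nlinarith [h.1, h.2]

lemma liftV_half (k r : ℕ) (A : VV r →ₗ[ℝ] ℝ) (c : ℝ)
    (h : ∀ p, 0 ≤ A (vv k r p) + c ∧ A (vv k r p) + c ≤ 1) (hc : c ≤ 1 / 2) :
    ∃ a : II k r → ℝ, (∀ i, 0 ≤ a i ∧ a i ≤ 1) ∧
      ∀ p, ∑ i, a i * xx k r p i = A (vv k r p) + c := by
  have hL := LL_ge k
  have hL0 : 0 < LL k := by linarith
  obtain ⟨l, hl⟩ : ∃ l : ℝ, l = A ((1, 0), 0) := ⟨_, rfl⟩
  obtain ⟨η, hη⟩ : ∃ η : ℝ, η = A ((0, 1), 0) := ⟨_, rfl⟩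
  have hA : ∀ x z : ℝ, A ((x, z), 0) = l * x + η * z := by
    intro x z
    have : (((x, z), 0) : VV r) = x • ((1, 0), 0) + z • ((0, 1), 0) := by
      simp
    rw [this, map_add, map_smul, map_smul, hl, hη, smul_eq_mul, smul_eq_mul]
    ring
  -- bounds for the coefficients
  have hc0 : 0 ≤ c ∧ c ≤ 1 := by
    obtain ⟨t, ht⟩ := grid_gx k (x := 0) ⟨0, by simp, by simp⟩
    have h1 := h (Sum.inl t)
    rw [vv, ht, hA] at h1
    constructor <;> linarith [h1.1, h1.2]
  have hB0 := h (Sum.inr (Sum.inl false))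
  have hB1 := h (Sum.inr (Sum.inl true))
  rw [vv, hA] at hB0 hB1
  simp only [Bool.false_eq_true, if_false, if_true] at hB0 hB1
  have hη1 : |η| ≤ 1 / LL k := by
    rw [le_div_iff₀ hL0]
    rcases abs_cases η with ⟨h1, _⟩ | ⟨h1, _⟩ <;> rw [h1] <;>
      linarith [hB0.1, hB0.2, hc0.1, hc0.2]
  have hl1 : |l| ≤ 1 / LL k := by
    rw [le_div_iff₀ hL0]
    rcases abs_cases l with ⟨h1, _⟩ | ⟨h1, _⟩ <;> rw [h1] <;>
      linarith [hB0.1, hB0.2, hB1.1, hB1.2]
  -- the minimum over the grid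
  obtain ⟨t0, -, ht0⟩ := (univ : Finset (Fin (2 ^ k + 1))).exists_min_image
    (fun t => c + l * gx k t + η * (gx k t - gx k t ^ 2)) ⟨0, mem_univ _⟩
  obtain ⟨m, hm⟩ : ∃ m : ℝ, m = c + l * gx k t0 + η * (gx k t0 - gx k t0 ^ 2) := ⟨_, rfl⟩
  have hm0 : 0 ≤ m := by
    have h1 := (h (Sum.inl t0)).1
    rw [vv, hA] at h1
    linarith
  have hmc : m ≤ c := by
    obtain ⟨t, ht⟩ := grid_gx k (x := 0) ⟨0, by simp, by simp⟩
    have h1 := ht0 t (mem_univ _)
    rw [ht] at h1
    linarith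
  have hcm : |c - m| ≤ 2 / LL k := by
    have g := grid_mem k (gx_grid k t0)
    have g' := sub_sq_bound g
    have e : c - m = -(l * gx k t0) - η * (gx k t0 - gx k t0 ^ 2) := by rw [hm]; ring
    rw [e]
    have e1 : |l * gx k t0| ≤ 1 / LL k := by
      rw [abs_mul, abs_of_nonneg g.1]
      exact (mul_le_of_le_one_right (abs_nonneg _) g.2).trans hl1
    have e2 : |η * (gx k t0 - gx k t0 ^ 2)| ≤ 1 / LL k := by
      rw [abs_mul, abs_of_nonneg g'.1]
      exact (mul_le_of_le_one_right (abs_nonneg _) g'.2).trans hη1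
    calc |-(l * gx k t0) - η * (gx k t0 - gx k t0 ^ 2)|
        ≤ |-(l * gx k t0)| + |η * (gx k t0 - gx k t0 ^ 2)| := abs_sub _ _
      _ ≤ 1 / LL k + 1 / LL k := by rw [abs_neg]; exact add_le_add e1 e2
      _ = 2 / LL k := by ring
  obtain ⟨a, ha, ha'⟩ := lift k (c - m) l η (fun x hx => by
    obtain ⟨t, rfl⟩ := grid_gx k hx
    have h1 := ht0 t (mem_univ _)
    linarith)
  refine ⟨Sum.elim (fun i => m + a i / τ k i) (fun o => A (vv k r (Sum.inr o)) + c), ?_, ?_⟩
  · rintro (i | o)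
    · simp only [Sum.elim_inl]
      have hτ := τ_pos k i
      have e1 : a i ≤ 2 ^ k * (4 / LL k) := by
        refine (ha i).2.trans (mul_le_mul_of_nonneg_left ?_ (by positivity))
        have : (4 : ℝ) / LL k = 2 / LL k + 1 / LL k + 1 / LL k := by ring
        linarith
      have e2 := LL_ge' k i
      rw [div_le_iff₀ hτ] at e2
      have e3 : a i / τ k i ≤ 1 / 2 := by
        rw [div_le_iff₀ hτ]
        refine e1.trans ?_
        rw [mul_div_assoc', div_le_iff₀ hL0]
        linarith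
      exact ⟨add_nonneg hm0 (div_nonneg (ha i).1 hτ.le), by linarith⟩
    · exact h _
  · intro p
    rw [xx_sum]
    rcases p with t | o
    · simp only [Sum.elim_inl]
      have e : ∑ i, (m + a i / τ k i) * (τ k i * Y k (gx k t) i) =
          m * ∑ i, τ k i * Y k (gx k t) i + ∑ i, a i * Y k (gx k t) i := by
        rw [mul_sum, ← sum_add_distrib]
        refine sum_congr rfl fun i _ => ?_
        have := (τ_pos k i).ne'
        field_simp
      rw [e, sum_τ k _ (gx_grid k t), ha' _ (gx_grid k t), vv, hA]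
      ring
    · simp only [Sum.elim_inr]

lemma liftV (k r : ℕ) (A : VV r →ₗ[ℝ] ℝ) (c : ℝ)
    (h : ∀ p, 0 ≤ A (vv k r p) + c ∧ A (vv k r p) + c ≤ 1) :
    ∃ a : II k r → ℝ, (∀ i, 0 ≤ a i ∧ a i ≤ 1) ∧
      ∀ p, ∑ i, a i * xx k r p i = A (vv k r p) + c := by
  rcases le_total c (1 / 2) with hc | hc
  · exact liftV_half k r A c h hc
  · obtain ⟨a, ha, ha'⟩ := liftV_half k r (-A) (1 - c) (fun p => by
      rw [LinearMap.neg_apply]
      exact ⟨by linarith [(h p).2], by linarith [(h p).1]⟩) (by linarith)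
    refine ⟨fun i => 1 - a i, fun i => ⟨by linarith [(ha i).2], by linarith [(ha i).1]⟩, ?_⟩
    intro p
    have h1 : ∑ i, (1 - a i) * xx k r p i = ∑ i, xx k r p i - ∑ i, a i * xx k r p i := by
      rw [← sum_sub_distrib]
      exact sum_congr rfl fun i _ => by ring
    rw [h1, (xx_mem k r p).2, ha', LinearMap.neg_apply]
    ring

/-- the polytope -/
noncomputable def PP (k r : ℕ) : Set (VV r) := convexHull ℝ (Set.range (vv k r))

theorem exists_PRefinement (k r : ℕ) :
    ∃ R : Refinement (PP k r) (stdSimplex ℝ (II k r)),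
      R.f.dom = convexHull ℝ (Set.range (xx k r)) ∧ ∀ a : R.f.dom, R.f.toFun a = FF k r a :=
  exists_refinement_of_vertices (vv k r) (xx k r) (xx_mem k r) (FF k r) (FF_xx k r) (liftV k r)

/-- coordinates -/
noncomputable abbrev kx (r : ℕ) : VV r →ₗ[ℝ] ℝ :=
  (LinearMap.fst ℝ ℝ ℝ).comp (LinearMap.fst ℝ (ℝ × ℝ) (Fin r → ℝ))

/-- coordinates -/
noncomputable abbrev kz (r : ℕ) : VV r →ₗ[ℝ] ℝ :=
  (LinearMap.snd ℝ ℝ ℝ).comp (LinearMap.fst ℝ (ℝ × ℝ) (Fin r → ℝ))

/-- coordinates -/
noncomputable abbrev ks (r : ℕ) (j : Fin r) : VV r →ₗ[ℝ] ℝ :=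
  (LinearMap.proj (R := ℝ) (φ := fun _ : Fin r => ℝ) j).comp
    (LinearMap.snd ℝ (ℝ × ℝ) (Fin r → ℝ))

/-- exposing functionals -/
noncomputable def uu (k r : ℕ) : KK k r → VV r →ₗ[ℝ] ℝ
  | Sum.inl t => (-(1 - 2 * gx k t)) • kx r + kz r - ∑ j, ks r j
  | Sum.inr (Sum.inl true) => kx r
  | Sum.inr (Sum.inl false) => -kx r - (2 : ℝ) • kz r
  | Sum.inr (Sum.inr j) => ks r j

lemma uu_inl (k r : ℕ) (t : Fin (2 ^ k + 1)) (x z : ℝ) (s : Fin r → ℝ) :
    uu k r (Sum.inl t) ((x, z), s) = -(1 - 2 * gx k t) * x + z - ∑ j, s j := by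
  simp [uu, LinearMap.sum_apply]

lemma uu_true (k r : ℕ) (x z : ℝ) (s : Fin r → ℝ) :
    uu k r (Sum.inr (Sum.inl true)) ((x, z), s) = x := by
  simp [uu]

lemma uu_false (k r : ℕ) (x z : ℝ) (s : Fin r → ℝ) :
    uu k r (Sum.inr (Sum.inl false)) ((x, z), s) = -x - 2 * z := by
  simp [uu]

lemma uu_inr (k r : ℕ) (j : Fin r) (x z : ℝ) (s : Fin r → ℝ) :
    uu k r (Sum.inr (Sum.inr j)) ((x, z), s) = s j := by
  simp [uu]

lemma sum_single_one {r : ℕ} (j : Fin r) : ∑ i, (Pi.single j (1 : ℝ) : Fin r → ℝ) i = 1 := by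
  rw [sum_eq_single j]
  · simp
  · intro b _ hb
    simp [hb]
  · intro h
    exact absurd (mem_univ _) h

lemma vv_exposed (k r : ℕ) (p q : KK k r) (h : q ≠ p) :
    uu k r p (vv k r q) < uu k r p (vv k r p) := by
  have hL := LL_ge k
  have hL0 : 0 < LL k := by linarith
  rcases p with t | b | j
  · have gt := grid_mem k (gx_grid k t)
    have e : uu k r (Sum.inl t) (vv k r (Sum.inl t)) = gx k t ^ 2 := by
      rw [vv, uu_inl]
      simp
      ring
    rw [e]
    rcases q with s | b | j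
    · have hne : gx k s ≠ gx k t := fun he => h (by rw [gx_injective k he])
      rw [vv, uu_inl]
      simp only [Pi.zero_apply, sum_const_zero]
      have : 0 < (gx k s - gx k t) ^ 2 := by
        have := sub_ne_zero.2 hne
        positivity
      nlinarith
    · rw [vv, uu_inl]
      simp only [Pi.zero_apply, sum_const_zero]
      cases b
      · simp only [Bool.false_eq_true, if_false]
        nlinarith [sq_nonneg (gx k t)]
      · simp only [if_true]
        have h1 : -(1 - 2 * gx k t) * LL k + -LL k - 0 = -(2 * (1 - gx k t)) * LL k := by ring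
        rw [h1]
        rcases gt.2.eq_or_lt with h2 | h2
        · rw [h2]; norm_num
        · have h3 : 0 < 2 * (1 - gx k t) * LL k := mul_pos (by linarith) hL0
          nlinarith [sq_nonneg (gx k t)]
    · rw [vv, uu_inl, sum_single_one]
      nlinarith [sq_nonneg (gx k t)]
  · cases b
    · have e : uu k r (Sum.inr (Sum.inl false)) (vv k r (Sum.inr (Sum.inl false))) = 2 * LL k := by
        rw [vv, uu_false]
        simp
      rw [e]
      rcases q with s | b | j
      · have g := grid_mem k (gx_grid k s)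
        have g' := sub_sq_bound g
        rw [vv, uu_false]
        linarith
      · cases b
        · exact absurd rfl h
        · rw [vv, uu_false]
          simp only [if_true]
          linarith
      · rw [vv, uu_false]
        linarith
    · have e : uu k r (Sum.inr (Sum.inl true)) (vv k r (Sum.inr (Sum.inl true))) = LL k := by
        rw [vv, uu_true]
        simp
      rw [e]
      rcases q with s | b | j
      · have g := grid_mem k (gx_grid k s)
        rw [vv, uu_true]
        linarith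
      · cases b
        · rw [vv, uu_true]
          simp only [Bool.false_eq_true, if_false]
          exact hL0
        · exact absurd rfl h
      · rw [vv, uu_true]
        exact hL0
  · have e : uu k r (Sum.inr (Sum.inr j)) (vv k r (Sum.inr (Sum.inr j))) = 1 := by
      rw [vv, uu_inr]
      simp
    rw [e]
    rcases q with s | b | j'
    · rw [vv, uu_inr]
      exact zero_lt_one
    · rw [vv, uu_inr]
      exact zero_lt_one
    · have hne : j ≠ j' := fun he => h (by rw [he])
      rw [vv, uu_inr, Pi.single_eq_of_ne hne]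
      exact zero_lt_one

lemma PP_extreme (k r : ℕ) : (PP k r).extremePoints ℝ = Set.range (vv k r) :=
  extremePoints_of_exposed (vv k r) (uu k r) (vv_exposed k r)

lemma vv_injective (k r : ℕ) : Function.Injective (vv k r) := by
  intro p q h
  by_contra hne
  have := vv_exposed k r p q (Ne.symm hne)
  rw [h] at this
  exact lt_irrefl _ this

lemma card_KK (k r : ℕ) : Fintype.card (KK k r) = 2 ^ k + 3 + r := by
  simp [KK]
  ring

lemma card_II (k r : ℕ) : Fintype.card (II k r) = 2 * k + 4 + r := by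
  rw [Fintype.card_sum, card_PI, Fintype.card_sum, Fintype.card_bool, Fintype.card_fin]
  ring

lemma PP_ncard (k r : ℕ) : ((PP k r).extremePoints ℝ).ncard = 2 ^ k + 3 + r := by
  rw [PP_extreme, ← Set.image_univ, Set.ncard_image_of_injective _ (vv_injective k r),
    Set.ncard_univ, Nat.card_eq_fintype_card, card_KK]

lemma PP_isPolytope (k r : ℕ) : IsPolytope (PP k r) := by
  classical
  refine ⟨Finset.univ.image (vv k r), ⟨vv k r (Sum.inr (Sum.inl true)), by simp⟩, ?_⟩
  rw [PP, Finset.coe_image, Finset.coe_univ, Set.image_univ]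

lemma PP_not_simplex (k r N : ℕ) : ¬ IsSimplex (PP k r) N := by
  refine not_isSimplex (vv k r) (vv_injective k r) (fun p => ?_) ?_ N
  · rw [PP_extreme]
    exact ⟨p, rfl⟩
  · rw [card_KK]
    have h1 : 0 < 2 ^ k := by positivity
    simp
    omega

lemma PP_affineSpan (k r : ℕ) : affineSpan ℝ (PP k r) = ⊤ := by
  have hL := LL_ge k
  have hL0 : LL k ≠ 0 := by linarith
  obtain ⟨t0, ht0⟩ := grid_gx k (x := 0) ⟨0, by simp, by simp⟩
  obtain ⟨t1, ht1⟩ := grid_gx k (x := 1) ⟨2 ^ k, le_rfl, by simp⟩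
  have hmem : ∀ p, vv k r p ∈ PP k r := fun p => subset_convexHull ℝ _ ⟨p, rfl⟩
  have h0 : (0 : VV r) ∈ PP k r := by
    have h := hmem (Sum.inl t0)
    rw [vv, ht0] at h
    have e0 : ((((0 : ℝ), (0 : ℝ) - 0 ^ 2), (0 : Fin r → ℝ)) : VV r) = 0 := by
      refine Prod.ext (Prod.ext rfl ?_) rfl
      norm_num
    rw [e0] at h
    exact h
  have hv : ∀ p, vv k r p ∈ vectorSpan ℝ (PP k r) := fun p => by
    have := vsub_mem_vectorSpan ℝ (hmem p) h0
    simpa using this
  have htop : vectorSpan ℝ (PP k r) = ⊤ := by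
    rw [eq_top_iff]
    rintro ⟨⟨x, z⟩, s⟩ -
    have h1 := hv (Sum.inl t1)
    rw [vv, ht1] at h1
    have h2 := hv (Sum.inr (Sum.inl false))
    rw [vv] at h2
    simp only [Bool.false_eq_true, if_false] at h2
    have h3 : ∀ j, (((0, 0), Pi.single j 1) : VV r) ∈ vectorSpan ℝ (PP k r) := fun j =>
      hv (Sum.inr (Sum.inr j))
    have e : (((x, z), s) : VV r) = x • (((1, 1 - 1 ^ 2), 0) : VV r) +
        (-z / LL k) • (((0, -LL k), 0) : VV r) + ∑ j, s j • (((0, 0), Pi.single j 1) : VV r) := by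
      refine Prod.ext (Prod.ext ?_ ?_) ?_
      · simp [Prod.fst_sum]
      · simp only [Prod.fst_add, Prod.snd_add, Prod.smul_fst, Prod.smul_snd, smul_eq_mul,
          Prod.fst_sum, Prod.snd_sum]
        field_simp
        simp
      · rw [Prod.snd_add, Prod.snd_sum]
        funext i
        simp [Pi.single_apply]
    rw [e]
    exact Submodule.add_mem _ (Submodule.add_mem _ (Submodule.smul_mem _ _ h1)
      (Submodule.smul_mem _ _ h2)) (Submodule.sum_mem _ fun j _ => Submodule.smul_mem _ _ (h3 j))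
  exact (AffineSubspace.affineSpan_eq_top_iff_vectorSpan_eq_top_of_nonempty ℝ _ _ ⟨0, h0⟩).2 htop

end Pool.Agent.R759.SR.Parab
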