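import Pool.Agent.R759.SRBase

/-! # A lower bound for the number of vertices of a simplicial refinement -/

set_option autoImplicit false

namespace Pool.Agent.R759.SR

open Finset

/-- an extreme point of a polytope is exposed -/
lemma exists_exposing {V : Type*} [AddCommGroup V] [Module ℝ V] [FiniteDimensional ℝ V]
    (s : Finset V) (p : V) (hp : p ∈ (convexHull ℝ (s : Set V)).extremePoints ℝ) :
    ∃ u : V →ₗ[ℝ] ℝ, ∀ q ∈ s, q ≠ p → u q < u p := by
  classical
  obtain ⟨φ⟩ : Nonempty (V ≃ₗ[ℝ] (Fin (Module.finrank ℝ V) → ℝ)) :=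
    FiniteDimensional.nonempty_linearEquiv_of_finrank_eq (by simp)
  have h1 := (Convex.mem_extremePoints_iff_mem_diff_convexHull_diff
    (convex_convexHull ℝ (s : Set V))).1 hp
  have hsub : (s : Set V) \ {p} ⊆ convexHull ℝ (s : Set V) \ {p} :=
    Set.diff_subset_diff_left (subset_convexHull ℝ _)
  have h2 : p ∉ convexHull ℝ ((s : Set V) \ {p}) := fun h => h1.2 (convexHull_mono hsub h)
  set K : Set (Fin (Module.finrank ℝ V) → ℝ) := convexHull ℝ (φ '' ((s : Set V) \ {p})) with hK
  have hKc : IsClosed K := by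
    have : (φ '' ((s : Set V) \ {p})).Finite := ((s.finite_toSet).diff).image _
    exact (this.isCompact_convexHull ℝ).isClosed
  have h3 : φ p ∉ K := by
    intro h
    have e : K = φ '' (convexHull ℝ ((s : Set V) \ {p})) := by
      have := (φ : V →ₗ[ℝ] (Fin (Module.finrank ℝ V) → ℝ)).image_convexHull ((s : Set V) \ {p})
      rw [hK]
      exact this.symm
    rw [e] at h
    obtain ⟨y, hy, hy'⟩ := h
    rw [φ.injective hy'] at hy
    exact h2 hy
  obtain ⟨f, u, hf1, hf2⟩ := geometric_hahn_banach_closed_point (convex_convexHull ℝ _) hKc h3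
  refine ⟨(f : (Fin (Module.finrank ℝ V) → ℝ) →ₗ[ℝ] ℝ).comp (φ : V →ₗ[ℝ] _), fun q hq hqp => ?_⟩
  have h4 : φ q ∈ K := subset_convexHull ℝ _ ⟨q, ⟨hq, hqp⟩, rfl⟩
  exact (hf1 _ h4).trans hf2

/-- for extreme points `p ≠ q` there is an effect with value `1` at `p` and less than `1` at `q` -/
lemma exists_effect {V : Type*} [AddCommGroup V] [Module ℝ V] [FiniteDimensional ℝ V] {C : Set V}
    (hC : IsPolytope C) {p q : V} (hp : p ∈ C.extremePoints ℝ) (hq : q ∈ C.extremePoints ℝ)
    (hpq : q ≠ p) :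
    ∃ ω ∈ Omega C, ω ⟨p, hp.1⟩ = 1 ∧ ω ⟨q, hq.1⟩ < 1 := by
  obtain ⟨s, hs, rfl⟩ := hC
  obtain ⟨u, hu⟩ := exists_exposing s p hp
  have hqs : q ∈ s := by
    have := extremePoints_convexHull_subset hq
    exact this
  have hps : p ∈ s := by
    have := extremePoints_convexHull_subset hp
    exact this
  obtain ⟨r, hr, hmin⟩ := s.exists_min_image u hs
  have h1 : u q < u p := hu q hqs hpq
  have h2 : u r ≤ u q := hmin q hqs
  have h3 : 0 < u p - u r := by linarith
  have hbd : ∀ x ∈ convexHull ℝ (s : Set V), u r ≤ u x ∧ u x ≤ u p := by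
    have hsub : convexHull ℝ (s : Set V) ⊆ {x | u r ≤ u x ∧ u x ≤ u p} := by
      refine convexHull_min (fun x hx => ⟨hmin x hx, ?_⟩) ?_
      · by_cases hxp : x = p
        · rw [hxp]
        · exact (hu x hx hxp).le
      · intro x hx y hy a b ha hb hab
        have hx' : u r ≤ u x ∧ u x ≤ u p := hx
        have hy' : u r ≤ u y ∧ u y ≤ u p := hy
        show u r ≤ u (a • x + b • y) ∧ u (a • x + b • y) ≤ u p
        rw [map_add, map_smul, map_smul, smul_eq_mul, smul_eq_mul]
        have e1 : u r = a * u r + b * u r := by rw [← add_mul, hab, one_mul]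
        have e2 : u p = a * u p + b * u p := by rw [← add_mul, hab, one_mul]
        have i1 := mul_le_mul_of_nonneg_left hx'.1 ha
        have i2 := mul_le_mul_of_nonneg_left hx'.2 ha
        have i3 := mul_le_mul_of_nonneg_left hy'.1 hb
        have i4 := mul_le_mul_of_nonneg_left hy'.2 hb
        constructor <;> linarith
    exact fun x hx => hsub hx
  have hval : ∀ x : V, ((u p - u r)⁻¹ • u) x + -(u r / (u p - u r)) = (u x - u r) / (u p - u r) := by
    intro x
    rw [LinearMap.smul_apply, smul_eq_mul]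
    field_simp
    ring
  refine ⟨fun x => ((u p - u r)⁻¹ • u) x + -(u r / (u p - u r)),
    mem_Omega_of_affine _ _ fun x hx => ?_, ?_, ?_⟩
  · rw [hval]
    have h := hbd x hx
    constructor
    · exact div_nonneg (by linarith) h3.le
    · rw [div_le_one h3]; linarith
  · simp only
    rw [hval, div_self h3.ne']
  · simp only
    rw [hval, div_lt_one h3]
    linarith

/-- weights of a point of a simplex -/
lemma exists_weights {E ι : Type*} [AddCommGroup E] [Module ℝ E] [Fintype ι] (e : ι → E) {x : E}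
    (hx : x ∈ convexHull ℝ (Set.range e)) :
    ∃ w : ι → ℝ, (∀ i, 0 ≤ w i) ∧ ∑ i, w i = 1 ∧ ∑ i, w i • e i = x := by
  classical
  have hsub : convexHull ℝ (Set.range e) ⊆
      {x | ∃ w : ι → ℝ, (∀ i, 0 ≤ w i) ∧ ∑ i, w i = 1 ∧ ∑ i, w i • e i = x} := by
    refine convexHull_min ?_ ?_
    · rintro _ ⟨i, rfl⟩
      refine ⟨Pi.single i 1, fun j => ?_, by simp, ?_⟩
      · by_cases h : j = i
        · subst h; simp
        · simp [h]
      · rw [sum_eq_single i]
        · simp
        · intro b _ hb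
          simp [hb]
        · intro h
          exact absurd (mem_univ _) h
    · rintro x ⟨w, hw, hw1, rfl⟩ y ⟨w', hw', hw1', rfl⟩ a b ha hb hab
      refine ⟨fun i => a * w i + b * w' i, fun i => ?_, ?_, ?_⟩
      · exact add_nonneg (mul_nonneg ha (hw i)) (mul_nonneg hb (hw' i))
      · rw [sum_add_distrib, ← mul_sum, ← mul_sum, hw1, hw1', mul_one, mul_one, hab]
      · rw [smul_sum, smul_sum, ← sum_add_distrib]
        refine sum_congr rfl fun i _ => ?_
        rw [add_smul, mul_smul, mul_smul]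
  exact hsub hx

/-- A polytope with a simplicial refinement by a simplex with `N` vertices has at most
`N.choose (N / 2)` extreme points. -/
theorem ncard_le_choose {V E : Type*} [AddCommGroup V] [Module ℝ V] [FiniteDimensional ℝ V]
    [AddCommGroup E] [Module ℝ E] {C : Set V} (hC : IsPolytope C) {T : Set E} {N : ℕ}
    (hT : IsSimplex T N) (R : Refinement C T) :
    (C.extremePoints ℝ).ncard ≤ N.choose (N / 2) := by
  classical
  obtain ⟨ι, _, e, hN, -, hTe⟩ := hT
  have hTconv : Convex ℝ T := by rw [hTe]; exact convex_convexHull ℝ _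
  have heT : ∀ i, e i ∈ T := fun i => by rw [hTe]; exact subset_convexHull ℝ _ ⟨i, rfl⟩
  have hex : ∀ p : C.extremePoints ℝ, ∃ (x : R.f.dom) (w : ι → ℝ), R.f.toFun x = p ∧
      (∀ i, 0 ≤ w i) ∧ ∑ i, w i = 1 ∧ ∑ i, w i • e i = x := by
    intro p
    have h1 : (p : V) ∈ Set.range R.f.toFun := (Set.ext_iff.1 R.f.range_eq _).2 p.2.1
    obtain ⟨x, hx⟩ := h1
    have h2 : (x : E) ∈ convexHull ℝ (Set.range e) := hTe ▸ R.f.dom_subset x.2
    obtain ⟨w, hw⟩ := exists_weights e h2
    exact ⟨x, w, hx, hw⟩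
  choose x w hxp hw0 hw1 hwx using hex
  obtain ⟨S, hS⟩ : ∃ S : C.extremePoints ℝ → Finset ι, ∀ p i, i ∈ S p ↔ 0 < w p i :=
    ⟨fun p => univ.filter fun i => 0 < w p i, fun p i => by simp⟩
  -- the supports form an antichain
  have key : ∀ p q : C.extremePoints ℝ, q ≠ p → ¬ S q ⊆ S p := by
    intro p q hqp hsub
    obtain ⟨ω, hω, h1, h2⟩ := exists_effect hC p.2 q.2 (fun h => hqp (Subtype.ext h))
    have h3 : ω ∈ Set.range R.g.toFun := (Set.ext_iff.1 R.g.range_eq _).2 hω
    obtain ⟨α, hα⟩ := h3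
    have hαΩ := R.g.dom_subset α.2
    have hval : ∀ r : C.extremePoints ℝ, ∑ i, w r i * ext0 T α.1 (e i) = ω ⟨r, r.2.1⟩ := by
      intro r
      rw [← ext0_sum hTconv hαΩ univ (w r) e (fun i _ => hw0 r i) (hw1 r) (fun i _ => heT i),
        hwx, ext0_of_mem _ (R.f.dom_subset (x r).2)]
      have h4 := R.compat (x r) α (by rw [hxp]; exact r.2.1)
      rw [hα] at h4
      rw [← h4]
      congr 1
      exact Subtype.ext (hxp r)
    have hle : ∀ i, ext0 T α.1 (e i) ≤ 1 := fun i => by
      rw [ext0_of_mem _ (heT i)]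
      exact (hαΩ.1 _).2
    have h4 : ∑ i, w p i * (1 - ext0 T α.1 (e i)) = 0 := by
      simp only [mul_sub, mul_one]
      rw [sum_sub_distrib, hw1, hval p, h1, sub_self]
    have h5 := (sum_eq_zero_iff_of_nonneg fun i _ =>
      mul_nonneg (hw0 p i) (by linarith [hle i])).1 h4
    have h6 : ∑ i, w q i * (1 - ext0 T α.1 (e i)) = 0 := by
      refine sum_eq_zero fun i _ => ?_
      by_cases hi : 0 < w q i
      · have h7 := (hS p i).1 (hsub ((hS q i).2 hi))
        rcases mul_eq_zero.1 (h5 i (mem_univ i)) with h | h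
        · exact absurd h h7.ne'
        · rw [h, mul_zero]
      · rw [le_antisymm (not_lt.1 hi) (hw0 q i), zero_mul]
    simp only [mul_sub, mul_one] at h6
    rw [sum_sub_distrib, hw1, hval q] at h6
    linarith
  have hinj : Function.Injective S := by
    intro p q h
    by_contra hne
    exact key p q (Ne.symm hne) (h ▸ subset_refl _)
  -- finiteness of the set of extreme points
  have hfin : Finite (C.extremePoints ℝ) := by
    obtain ⟨s, _, rfl⟩ := hC
    exact (s.finite_toSet.subset extremePoints_convexHull_subset).to_subtype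
  have := Fintype.ofFinite (C.extremePoints ℝ)
  have hanti : IsAntichain (· ⊆ ·) (SetLike.coe (univ.image S)) := by
    intro A hA B hB hne hsub
    rw [coe_image, coe_univ, Set.image_univ] at hA hB
    obtain ⟨q, rfl⟩ := hA
    obtain ⟨p, rfl⟩ := hB
    exact key p q (fun h => hne (by rw [h])) hsub
  have hcard := hanti.sperner
  rw [card_image_of_injective _ hinj, card_univ, hN] at hcard
  rwa [← Nat.card_coe_set_eq, Nat.card_eq_fintype_card]

end Pool.Agent.R759.SR
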