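import Pool.Agent.R759.SRBase

/-! # Polygons with a simplicial refinement by a small simplex

The polygon is the convex hull of the points `(x, x - x²)`, `x = t / 2 ^ k`, `0 ≤ t ≤ 2 ^ k`,
and of two further points `(0, -L)` and `(L, -L)`. -/

set_option autoImplicit false

namespace Pool.Agent.R759.SR.Parab

open Finset

/-- the index of the coordinates of level `k` -/
abbrev PI : ℕ → Type
  | 0 => Bool
  | k + 1 => Bool ⊕ PI k

instance instFintypePI : (k : ℕ) → Fintype (PI k)
  | 0 => inferInstanceAs (Fintype Bool)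
  | k + 1 => by
    have := instFintypePI k
    exact inferInstanceAs (Fintype (Bool ⊕ PI k))

lemma card_PI (k : ℕ) : Fintype.card (PI k) = 2 * k + 2 := by
  induction k with
  | zero => rfl
  | succ k ih =>
    have : Fintype.card (PI (k + 1)) = Fintype.card (Bool ⊕ PI k) := Fintype.card_congr (Equiv.refl _)
    rw [this, Fintype.card_sum, ih, Fintype.card_bool]
    ring

lemma sum_PI_succ (k : ℕ) (f : PI (k + 1) → ℝ) :
    ∑ i, f i = (f (Sum.inl true) + f (Sum.inl false)) + ∑ i : PI k, f (Sum.inr i) := by
  have h : ∑ i, f i = ∑ i : Bool ⊕ PI k, f i := Finset.sum_congr (by ext; simp) fun _ _ => rfl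
  rw [h, Fintype.sum_sum_type, Fintype.sum_bool]

/-- the dyadic grid -/
def Grid (k : ℕ) (x : ℝ) : Prop := ∃ t : ℕ, t ≤ 2 ^ k ∧ x = t / 2 ^ k

/-- the tent map -/
noncomputable def tent (x : ℝ) : ℝ := 1 - |2 * x - 1|

lemma grid_mem (k : ℕ) {x : ℝ} (h : Grid k x) : 0 ≤ x ∧ x ≤ 1 := by
  obtain ⟨t, ht, rfl⟩ := h
  have h2 : (0 : ℝ) < 2 ^ k := by positivity
  refine ⟨by positivity, ?_⟩
  rw [div_le_one h2]
  exact_mod_cast ht

lemma grid_tent (k : ℕ) {x : ℝ} (h : Grid (k + 1) x) : Grid k (tent x) := by
  obtain ⟨t, ht, rfl⟩ := h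
  have h2 : (0 : ℝ) < 2 ^ k := by positivity
  rw [pow_succ] at ht
  rcases le_total t (2 ^ k) with h | h
  · refine ⟨t, h, ?_⟩
    have h' : (t : ℝ) ≤ 2 ^ k := by exact_mod_cast h
    rw [tent, abs_of_nonpos]
    · rw [pow_succ]
      field_simp
      ring
    · rw [pow_succ]
      have : 2 * ((t : ℝ) / (2 ^ k * 2)) = t / 2 ^ k := by field_simp
      rw [this, sub_nonpos, div_le_one h2]
      exact h'
  · refine ⟨2 ^ k * 2 - t, by omega, ?_⟩
    have h' : (2 : ℝ) ^ k ≤ t := by exact_mod_cast h
    rw [tent, abs_of_nonneg]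
    · rw [Nat.cast_sub ht]
      push_cast
      rw [pow_succ]
      field_simp
      ring
    · rw [pow_succ]
      have : 2 * ((t : ℝ) / (2 ^ k * 2)) = t / 2 ^ k := by field_simp
      rw [this, sub_nonneg, le_div_iff₀ h2]
      linarith

lemma grid_half (k : ℕ) {y : ℝ} (h : Grid k y) : Grid (k + 1) (y / 2) ∧ tent (y / 2) = y := by
  have hy := grid_mem k h
  constructor
  · obtain ⟨t, ht, rfl⟩ := h
    refine ⟨t, by rw [pow_succ]; omega, ?_⟩
    rw [pow_succ]
    field_simp
  · rw [tent, abs_of_nonpos (by linarith)]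
    ring

lemma grid_half' (k : ℕ) {y : ℝ} (h : Grid k y) :
    Grid (k + 1) (1 - y / 2) ∧ tent (1 - y / 2) = y := by
  have hy := grid_mem k h
  constructor
  · obtain ⟨t, ht, rfl⟩ := h
    refine ⟨2 ^ k * 2 - t, by rw [pow_succ]; omega, ?_⟩
    rw [Nat.cast_sub (by omega)]
    push_cast
    rw [pow_succ]
    field_simp
  · rw [tent, abs_of_nonneg (by linarith)]
    ring

/-- the coordinates of level `k` -/
noncomputable def Y : (k : ℕ) → ℝ → PI k → ℝ
  | 0, x => fun b => if b = true then x else 1 - x
  | k + 1, x => Sum.elim (fun b => if b then 2 * x - tent x else 2 * (1 - x) - tent x)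
      (Y k (tent x))

lemma Y_nonneg (k : ℕ) : ∀ x, Grid k x → ∀ i, 0 ≤ Y k x i := by
  induction k with
  | zero =>
    intro x hx i
    have := grid_mem 0 hx
    simp only [Y]
    split_ifs <;> linarith
  | succ k ih =>
    intro x hx i
    have := grid_mem _ hx
    rcases i with b | i
    · simp only [Y, Sum.elim_inl, tent]
      have h1 := neg_abs_le (2 * x - 1)
      have h2 := le_abs_self (2 * x - 1)
      split_ifs <;> linarith
    · exact ih _ (grid_tent k hx) i

/-- weights representing `x` -/
noncomputable def ρ : (k : ℕ) → PI k → ℝ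
  | 0 => fun b => if b = true then 1 else 0
  | k + 1 => Sum.elim (fun b => if b then 1 / 2 else 0) (fun i => ρ k i / 2)

/-- weights representing `1` -/
noncomputable def τ : (k : ℕ) → PI k → ℝ
  | 0 => fun _ => 1
  | k + 1 => Sum.elim (fun _ => 1 / 4) (fun i => ρ k i / 2 + τ k i / 2)

lemma ρ_nonneg (k : ℕ) : ∀ i, 0 ≤ ρ k i := by
  induction k with
  | zero => intro i; simp only [ρ]; split_ifs <;> norm_num
  | succ k ih =>
    rintro (b | i)
    · simp only [ρ, Sum.elim_inl]; split_ifs <;> norm_num
    · have := ih i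
      simp only [ρ, Sum.elim_inr]
      linarith

lemma τ_pos (k : ℕ) : ∀ i, 0 < τ k i := by
  induction k with
  | zero => intro i; simp only [τ]; norm_num
  | succ k ih =>
    rintro (b | i)
    · simp only [τ, Sum.elim_inl]; norm_num
    · have := ih i
      have := ρ_nonneg k i
      simp only [τ, Sum.elim_inr]
      linarith

lemma sum_ρ (k : ℕ) : ∀ x, Grid k x → ∑ i, ρ k i * Y k x i = x := by
  induction k with
  | zero =>
    intro x _
    show ∑ i : Bool, ρ 0 i * Y 0 x i = x
    rw [Fintype.sum_bool]
    simp [ρ, Y]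
  | succ k ih =>
    intro x hx
    rw [sum_PI_succ]
    simp only [ρ, Y, Sum.elim_inl, Sum.elim_inr, if_true, Bool.false_eq_true, if_false]
    have h := ih _ (grid_tent k hx)
    have : ∑ i, ρ k i / 2 * Y k (tent x) i = (∑ i, ρ k i * Y k (tent x) i) / 2 := by
      rw [sum_div]
      exact sum_congr rfl fun i _ => by ring
    rw [this, h]
    ring

lemma sum_τ (k : ℕ) : ∀ x, Grid k x → ∑ i, τ k i * Y k x i = 1 := by
  induction k with
  | zero =>
    intro x _
    show ∑ i : Bool, τ 0 i * Y 0 x i = 1
    rw [Fintype.sum_bool]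
    simp [τ, Y]
  | succ k ih =>
    intro x hx
    rw [sum_PI_succ]
    simp only [τ, Y, Sum.elim_inl, Sum.elim_inr, if_true, Bool.false_eq_true, if_false]
    have h := ih _ (grid_tent k hx)
    have h' := sum_ρ k _ (grid_tent k hx)
    have : ∑ i, (ρ k i / 2 + τ k i / 2) * Y k (tent x) i =
        (∑ i, ρ k i * Y k (tent x) i) / 2 + (∑ i, τ k i * Y k (tent x) i) / 2 := by
      rw [sum_div, sum_div, ← sum_add_distrib]
      exact sum_congr rfl fun i _ => by ring
    rw [this, h, h']
    ring

/-- the coefficients which recover `x` and `x - x²` -/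
noncomputable def σ : (k : ℕ) → PI k → ℝ
  | 0 => fun _ => 0
  | k + 1 => Sum.elim (fun _ => 0) (fun i => (ρ k i + σ k i) / 4)

lemma tent_cases (x : ℝ) : tent x = 2 * x ∨ tent x = 2 - 2 * x := by
  rw [tent]
  rcases abs_cases (2 * x - 1) with ⟨h, _⟩ | ⟨h, _⟩ <;> rw [h]
  · right; ring
  · left; ring

lemma sum_σ (k : ℕ) : ∀ x, Grid k x → ∑ i, σ k i * Y k x i = x - x ^ 2 := by
  induction k with
  | zero =>
    intro x hx
    obtain ⟨t, ht, rfl⟩ := hx
    simp only [σ, zero_mul, sum_const_zero]
    have : t = 0 ∨ t = 1 := by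
      simp at ht
      omega
    rcases this with rfl | rfl <;> norm_num
  | succ k ih =>
    intro x hx
    rw [sum_PI_succ]
    simp only [σ, Y, Sum.elim_inl, Sum.elim_inr, zero_mul, add_zero, zero_add]
    have h := ih _ (grid_tent k hx)
    have h' := sum_ρ k _ (grid_tent k hx)
    have : ∑ i, (ρ k i + σ k i) / 4 * Y k (tent x) i =
        (∑ i, ρ k i * Y k (tent x) i) / 4 + (∑ i, σ k i * Y k (tent x) i) / 4 := by
      rw [sum_div, sum_div, ← sum_add_distrib]
      exact sum_congr rfl fun i _ => by ring
    rw [this, h, h']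
    rcases tent_cases x with e | e <;> rw [e] <;> ring

/-- non-negative functionals lift -/
lemma lift (k : ℕ) : ∀ c l η : ℝ, (∀ x, Grid k x → 0 ≤ c + l * x + η * (x - x ^ 2)) →
    ∃ a : PI k → ℝ, (∀ i, 0 ≤ a i ∧ a i ≤ 2 ^ k * (|c| + |l| + |η|)) ∧
      ∀ x, Grid k x → ∑ i, a i * Y k x i = c + l * x + η * (x - x ^ 2) := by
  induction k with
  | zero =>
    intro c l η h
    have h0 := h 0 ⟨0, by simp, by simp⟩
    have h1 := h 1 ⟨1, by simp, by simp⟩
    refine ⟨fun b => if b = true then c + l else c, fun i => ?_, fun x hx => ?_⟩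
    · have := abs_nonneg η
      have := abs_nonneg l
      have := le_abs_self c
      have := le_abs_self l
      simp only [pow_zero, one_mul]
      split_ifs
      · constructor <;> linarith
      · constructor <;> linarith
    · show ∑ i : Bool, _ * Y 0 x i = _
      rw [Fintype.sum_bool]
      have e := sum_σ 0 x hx
      simp only [σ, zero_mul, sum_const_zero] at e
      rw [← e]
      simp only [Y, if_true, Bool.false_eq_true, if_false]
      ring
  | succ k ih =>
    intro c l η h
    have hη := abs_nonneg η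
    have hl := abs_nonneg l
    have hc := abs_nonneg c
    have h2 : (1 : ℝ) ≤ 2 ^ k := one_le_pow₀ (by norm_num)
    rcases le_total 0 l with hl0 | hl0
    · obtain ⟨a, ha, ha'⟩ := ih c (l / 2 + η / 4) (η / 4) (fun y hy => by
        obtain ⟨g1, g2⟩ := grid_half k hy
        have := h _ g1
        have e : c + (l / 2 + η / 4) * y + η / 4 * (y - y ^ 2) =
          c + l * (y / 2) + η * (y / 2 - (y / 2) ^ 2) := by ring
        rw [e]
        exact this)
      refine ⟨Sum.elim (fun b => if b then l / 2 else 0) a, ?_, fun x hx => ?_⟩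
      · rintro (b | i)
        · simp only [Sum.elim_inl]
          have e : l / 2 ≤ 2 ^ (k + 1) * (|c| + |l| + |η|) := by
            rw [pow_succ, abs_of_nonneg hl0]
            nlinarith
          split_ifs
          · exact ⟨by linarith, e⟩
          · exact ⟨le_rfl, by positivity⟩
        · simp only [Sum.elim_inr]
          refine ⟨(ha i).1, (ha i).2.trans ?_⟩
          rw [pow_succ, mul_assoc]
          refine mul_le_mul_of_nonneg_left ?_ (by positivity)
          have e1 : |l / 2 + η / 4| ≤ |l| / 2 + |η| / 4 := by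
            refine (abs_add_le _ _).trans ?_
            rw [abs_div, abs_div, abs_of_pos (by norm_num : (0 : ℝ) < 2),
              abs_of_pos (by norm_num : (0 : ℝ) < 4)]
          have e2 : |η / 4| = |η| / 4 := by
            rw [abs_div, abs_of_pos (by norm_num : (0 : ℝ) < 4)]
          rw [e2]
          linarith
      · rw [sum_PI_succ]
        simp only [Sum.elim_inl, Sum.elim_inr, Y, if_true, Bool.false_eq_true, if_false]
        rw [ha' _ (grid_tent k hx)]
        rcases tent_cases x with e | e <;> rw [e] <;> ring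
    · obtain ⟨a, ha, ha'⟩ := ih (c + l) (-l / 2 + η / 4) (η / 4) (fun y hy => by
        obtain ⟨g1, g2⟩ := grid_half' k hy
        have := h _ g1
        have e : c + l + (-l / 2 + η / 4) * y + η / 4 * (y - y ^ 2) =
          c + l * (1 - y / 2) + η * ((1 - y / 2) - (1 - y / 2) ^ 2) := by ring
        rw [e]
        exact this)
      refine ⟨Sum.elim (fun b => if b then 0 else -l / 2) a, ?_, fun x hx => ?_⟩
      · rintro (b | i)
        · simp only [Sum.elim_inl]
          have e : -l / 2 ≤ 2 ^ (k + 1) * (|c| + |l| + |η|) := by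
            rw [pow_succ, abs_of_nonpos hl0]
            nlinarith
          split_ifs
          · exact ⟨le_rfl, by positivity⟩
          · exact ⟨by linarith, e⟩
        · simp only [Sum.elim_inr]
          refine ⟨(ha i).1, (ha i).2.trans ?_⟩
          rw [pow_succ, mul_assoc]
          refine mul_le_mul_of_nonneg_left ?_ (by positivity)
          have e1 : |-l / 2 + η / 4| ≤ |l| / 2 + |η| / 4 := by
            refine (abs_add_le _ _).trans ?_
            rw [abs_div, abs_div, abs_neg, abs_of_pos (by norm_num : (0 : ℝ) < 2),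
              abs_of_pos (by norm_num : (0 : ℝ) < 4)]
          have e2 : |η / 4| = |η| / 4 := by
            rw [abs_div, abs_of_pos (by norm_num : (0 : ℝ) < 4)]
          have e3 : |c + l| ≤ |c| + |l| := abs_add_le _ _
          rw [e2]
          linarith
      · rw [sum_PI_succ]
        simp only [Sum.elim_inl, Sum.elim_inr, Y, if_true, Bool.false_eq_true, if_false]
        rw [ha' _ (grid_tent k hx)]
        rcases tent_cases x with e | e <;> rw [e] <;> ring

end Pool.Agent.R759.SR.Parab
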