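import Pool.Agent.R759.SRBase

/-! # A trapezoid and a simplicial refinement with 5 vertices -/

set_option autoImplicit false

namespace Pool.Agent.R759.SR

open Finset

/-- the vertices of the trapezoid -/
noncomputable def trapV : Fin 4 → ℝ × ℝ := ![(0, 1), (1, 1), (0, 0), (2, 0)]

/-- the trapezoid -/
noncomputable def trap : Set (ℝ × ℝ) := convexHull ℝ (Set.range trapV)

/-- the vertices of the domain of `f` -/
noncomputable def trapX : Fin 4 → Fin 5 → ℝ :=
  ![![1 / 2, 1 / 2, 0, 0, 0], ![0, 1 / 2, 1 / 2, 0, 0], ![0, 0, 0, 1, 0], ![0, 0, 0, 0, 1]]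

/-- coordinates -/
abbrev pr5 (i : Fin 5) : (Fin 5 → ℝ) →ₗ[ℝ] ℝ := LinearMap.proj (R := ℝ) (φ := fun _ : Fin 5 => ℝ) i

/-- the linear map which restricts to `f` -/
noncomputable def trapF : (Fin 5 → ℝ) →ₗ[ℝ] ℝ × ℝ :=
  LinearMap.prod ((2 : ℝ) • pr5 2 + (2 : ℝ) • pr5 4) (pr5 0 + pr5 1 + pr5 2)

lemma trapF_apply (w : Fin 5 → ℝ) : trapF w = (2 * w 2 + 2 * w 4, w 0 + w 1 + w 2) := by
  simp [trapF]

lemma trapX_mem (k : Fin 4) : trapX k ∈ stdSimplex ℝ (Fin 5) := by
  constructor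
  · intro i
    fin_cases k <;> fin_cases i <;> simp [trapX]
  · fin_cases k <;> simp [trapX, Fin.sum_univ_five] <;> norm_num

lemma trapF_X (k : Fin 4) : trapF (trapX k) = trapV k := by
  rw [trapF_apply]
  fin_cases k <;> simp [trapX, trapV] <;> norm_num

theorem exists_trapRefinement :
    ∃ R : Refinement trap (stdSimplex ℝ (Fin 5)),
      R.f.dom = convexHull ℝ (Set.range trapX) ∧ ∀ a : R.f.dom, R.f.toFun a = trapF a := by
  refine exists_refinement_of_vertices trapV trapX trapX_mem trapF trapF_X ?_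
  intro A c h
  obtain ⟨p, hp⟩ : ∃ p : ℝ, p = A (1, 0) := ⟨_, rfl⟩
  obtain ⟨q, hq⟩ : ∃ q : ℝ, q = A (0, 1) := ⟨_, rfl⟩
  have hA : ∀ x y : ℝ, A (x, y) = x * p + y * q := by
    intro x y
    have : ((x, y) : ℝ × ℝ) = x • (1, 0) + y • (0, 1) := by simp
    rw [this, map_add, map_smul, map_smul, hp, hq, smul_eq_mul, smul_eq_mul]
  have h0 := h 0
  have h1 := h 1
  have h2 := h 2
  have h3 := h 3
  simp only [trapV, Matrix.cons_val_zero, Matrix.cons_val_one, Matrix.cons_val, hA] at h0 h1 h2 h3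
  -- `r1 = q + c`, `r2 = p + q + c`, `c`, `2 p + c` are all in `[0,1]`
  obtain ⟨m, hm⟩ : ∃ m : ℝ, m = max 0 (2 * max (q + c) (p + q + c) - 1) := ⟨_, rfl⟩
  have m0 : 0 ≤ m := hm ▸ le_max_left _ _
  have m1 : 2 * (q + c) - 1 ≤ m := by
    rw [hm]
    have := le_max_left (q + c) (p + q + c)
    exact le_trans (by linarith) (le_max_right _ _)
  have m2 : 2 * (p + q + c) - 1 ≤ m := by
    rw [hm]
    have := le_max_right (q + c) (p + q + c)
    exact le_trans (by linarith) (le_max_right _ _)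
  have m3 : m ≤ 2 * (q + c) := by
    rw [hm]
    refine max_le (by linarith) ?_
    have : max (q + c) (p + q + c) ≤ (q + c) + 1 / 2 := max_le (by linarith) (by linarith)
    linarith
  have m4 : m ≤ 2 * (p + q + c) := by
    rw [hm]
    refine max_le (by linarith) ?_
    have : max (q + c) (p + q + c) ≤ (p + q + c) + 1 / 2 := max_le (by linarith) (by linarith)
    linarith
  have m5 : m ≤ 1 := by
    rw [hm]
    refine max_le (by norm_num) ?_
    have : max (q + c) (p + q + c) ≤ 1 := max_le (by linarith) (by linarith)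
    linarith
  refine ⟨![2 * (q + c) - m, m, 2 * (p + q + c) - m, c, 2 * p + c], ?_, ?_⟩
  · intro i
    fin_cases i
    · show 0 ≤ 2 * (q + c) - m ∧ 2 * (q + c) - m ≤ 1
      exact ⟨by linarith, by linarith⟩
    · show 0 ≤ m ∧ m ≤ 1
      exact ⟨m0, m5⟩
    · show 0 ≤ 2 * (p + q + c) - m ∧ 2 * (p + q + c) - m ≤ 1
      exact ⟨by linarith, by linarith⟩
    · show 0 ≤ c ∧ c ≤ 1
      exact ⟨by linarith, by linarith⟩
    · show 0 ≤ 2 * p + c ∧ 2 * p + c ≤ 1
      exact ⟨by linarith, by linarith⟩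
  · intro k
    fin_cases k <;> simp [Fin.sum_univ_five, trapX, trapV, hA] <;> ring

/-- the functionals exposing the vertices of the trapezoid -/
noncomputable def trapU : Fin 4 → (ℝ × ℝ) →ₗ[ℝ] ℝ :=
  ![-LinearMap.fst ℝ ℝ ℝ + (2 : ℝ) • LinearMap.snd ℝ ℝ ℝ,
    LinearMap.fst ℝ ℝ ℝ + (2 : ℝ) • LinearMap.snd ℝ ℝ ℝ,
    -LinearMap.fst ℝ ℝ ℝ - LinearMap.snd ℝ ℝ ℝ,
    LinearMap.fst ℝ ℝ ℝ]

lemma trap_exposed (j k : Fin 4) (h : k ≠ j) : trapU j (trapV k) < trapU j (trapV j) := by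
  fin_cases j <;> fin_cases k <;> first | exact absurd rfl h | (simp [trapU, trapV]) <;> norm_num

lemma trap_extreme : trap.extremePoints ℝ = Set.range trapV :=
  extremePoints_of_exposed trapV trapU trap_exposed

lemma trapV_injective : Function.Injective trapV := by
  intro j k h
  by_contra hne
  have := trap_exposed j k (Ne.symm hne)
  rw [h] at this
  exact lt_irrefl _ this

lemma trap_isPolytope : IsPolytope trap := by
  classical
  refine ⟨Finset.univ.image trapV, ⟨trapV 0, by simp⟩, ?_⟩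
  rw [trap, Finset.coe_image, Finset.coe_univ, Set.image_univ]

lemma trap_not_simplex (N : ℕ) : ¬ IsSimplex trap N := by
  refine not_isSimplex trapV trapV_injective (fun k => ?_) ?_ N
  · rw [trap_extreme]
    exact ⟨k, rfl⟩
  · simp

end Pool.Agent.R759.SR
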