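import Pool.Agent.R759.OCMain

/-!
Problem MP_781dd6_co: directed cycle decompositions of `D(G)` for graphs with a vertex-transitive
group of automorphisms.
-/

set_option autoImplicit false
open scoped Classical

namespace Pool.Agent.R759.SymmetricGraphs

open Pool.Agent.R759.OC Pool.Agent.TH505.OCDC

/-- `D(G)` decomposes into directed cycles of length at least 3: there is a list of cycles of `G`,
each with a direction of traversal, which together traverse every arc exactly once. -/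
def OrientedCover {V : Type} (G : SimpleGraph V) : Prop :=
  ∃ C : List (Σ v : V, G.Walk v v),
    (∀ c ∈ C, c.2.IsCycle) ∧
    ∀ u v : V, G.Adj u v →
      (C.map (fun c => (c.2.darts.filter (fun d => decide (d.toProd = (u, v)))).length)).sum = 1

/-- Some element of `B` swaps `x` and `y`, and the set of images of `y` under the stabilizer of `x`
in `B` has odd size. -/
def OddSelfPaired {V : Type} (B : Subgroup (Equiv.Perm V)) (x y : V) : Prop :=
  (∃ b ∈ B, b x = y ∧ b y = x) ∧ Odd {w | ∃ b ∈ B, b x = x ∧ b y = w}.ncard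

theorem result (V : Type) [Fintype V] (G : SimpleGraph V) (B : Subgroup (Equiv.Perm V))
    (hbridge : ∀ u v : V, G.Adj u v → (G.deleteEdges {s(u, v)}).Reachable u v)
    (haut : ∀ b ∈ B, ∀ u v : V, G.Adj u v → G.Adj (b u) (b v))
    (htrans : ∀ x y : V, ∃ b ∈ B, b x = y)
    (hodd : ∀ x y : V, G.Adj x y → OddSelfPaired B x y →
      (∀ b ∈ B, b x = x → b y = y → b = 1) ∨
      ∃ z, G.Adj x z ∧ OddSelfPaired B x z ∧ ¬ ∃ b ∈ B, b x = x ∧ b y = z) :
    OrientedCover G := by
  have H : ∀ x y, G.Adj x y → (∃ b ∈ B, b x = y ∧ b y = x) →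
      Odd {w | ∃ b ∈ B, b x = x ∧ b y = w}.ncard →
      (∀ b ∈ B, b x = x → b y = y → b = 1) ∨
      ∃ z, G.Adj x z ∧ (∃ b ∈ B, b x = z ∧ b z = x) ∧
        Odd {w | ∃ b ∈ B, b x = x ∧ b z = w}.ncard ∧ ¬ ∃ b ∈ B, b x = x ∧ b y = z := by
    intro x y hxy h1 h2
    rcases hodd x y hxy ⟨h1, h2⟩ with h | ⟨z, hz, ⟨hz1, hz2⟩, hz3⟩
    · exact Or.inl h
    · exact Or.inr ⟨z, hz, hz1, hz2, hz3⟩
  obtain ⟨C, hC, hC'⟩ := main B htrans haut hbridge H
  refine ⟨C, hC, ?_⟩
  intro u v huv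
  have h := hC' u v
  rw [ind_pos huv] at h
  rw [← h]
  rfl

/-- All Cayley graphs without cut edges. -/
theorem cayley (Γ : Type) [Group Γ] [Fintype Γ] (G : SimpleGraph Γ)
    (hbridge : ∀ u v : Γ, G.Adj u v → (G.deleteEdges {s(u, v)}).Reachable u v)
    (hG : ∀ a u v : Γ, G.Adj u v → G.Adj (a * u) (a * v)) : OrientedCover G := by
  refine result Γ G (MulAction.toPermHom Γ Γ).range hbridge ?_ ?_ ?_
  · rintro b ⟨a, rfl⟩ u v huv
    exact hG a u v huv
  · intro x y
    refine ⟨MulAction.toPermHom Γ Γ (y * x⁻¹), ⟨_, rfl⟩, ?_⟩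
    show y * x⁻¹ * x = y
    rw [inv_mul_cancel_right]
  · intro x y _ _
    left
    rintro b ⟨a, rfl⟩ h1 h2
    have h3 : a * x = x := h1
    rw [mul_eq_right.1 h3, map_one]

end Pool.Agent.R759.SymmetricGraphs
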