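import Pool.Agent.R759.VSBase

/-! # Reed–Solomon codes on the projective line, conics and hyperovals -/

set_option autoImplicit false

namespace Pool.Agent.R759.VS

open Finset Polynomial

variable {F : Type*} [Field F] [Fintype F] [DecidableEq F]

/-- the polynomial with the coefficients `v` -/
noncomputable def poly {m : ℕ} (v : Fin m → F) : F[X] := ∑ i : Fin m, C (v i) * X ^ (i : ℕ)

omit [Fintype F] [DecidableEq F] in
lemma poly_coeff {m : ℕ} (v : Fin m → F) (i : Fin m) : (poly v).coeff i = v i := by
  rw [poly, finsetSum_coeff, sum_eq_single i]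
  · simp
  · intro j _ hj
    rw [coeff_C_mul, coeff_X_pow, if_neg, mul_zero]
    intro h
    exact hj (Fin.ext h.symm)
  · intro h
    exact absurd (mem_univ _) h

omit [Fintype F] [DecidableEq F] in
lemma poly_degree {m : ℕ} (v : Fin m → F) : (poly v).degree < m := by
  rw [poly]
  refine lt_of_le_of_lt (degree_sum_le _ _) ?_
  rw [Finset.sup_lt_iff (by exact_mod_cast WithBot.bot_lt_coe m)]
  intro i _
  refine lt_of_le_of_lt (degree_C_mul_X_pow_le _ _) ?_
  exact_mod_cast i.2

omit [Fintype F] [DecidableEq F] in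
lemma poly_eval {m : ℕ} (v : Fin m → F) (a : F) : (poly v).eval a = ∑ i : Fin m, a ^ (i : ℕ) * v i := by
  rw [poly, eval_finsetSum]
  refine sum_congr rfl fun i _ => ?_
  rw [eval_mul, eval_C, eval_pow, eval_X, mul_comm]

/-- evaluation on the projective line -/
def evP (F : Type*) [Field F] (d : ℕ) : Option F → (Fin (d + 1) → F) →ₗ[F] F
  | none => LinearMap.proj (Fin.last d)
  | some a => ∑ i : Fin (d + 1), a ^ (i : ℕ) • LinearMap.proj i

omit [Fintype F] [DecidableEq F] in
lemma evP_none (d : ℕ) (v : Fin (d + 1) → F) : evP F d none v = v (Fin.last d) := rfl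

omit [Fintype F] [DecidableEq F] in
lemma evP_some (d : ℕ) (a : F) (v : Fin (d + 1) → F) :
    evP F d (some a) v = ∑ i : Fin (d + 1), a ^ (i : ℕ) * v i := by
  simp [evP]

omit [Fintype F] in
lemma evP_mds (d : ℕ) : MDS (evP F d) := by
  intro g hg v hv
  by_contra hne
  have hp : poly v ≠ 0 := by
    intro h0
    apply hne
    funext i
    rw [← poly_coeff v i, h0]
    simp
  let Z : Finset (Option F) := univ.image g
  have hZ : Z.card = d + 1 := by
    rw [card_image_of_injective _ hg, card_univ, Fintype.card_fin]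
  have hroot : ∀ a ∈ Z.eraseNone, (poly v).eval a = 0 := by
    intro a ha
    rw [mem_eraseNone] at ha
    obtain ⟨i, -, hi⟩ := mem_image.1 ha
    rw [poly_eval, ← evP_some, ← hi]
    exact hv i
  by_cases hn : none ∈ Z
  · obtain ⟨i, -, hi⟩ := mem_image.1 hn
    have h0 : v (Fin.last d) = 0 := by rw [← evP_none d v, ← hi]; exact hv i
    have hc : (Z.eraseNone).card = d := by
      have : Z.eraseNone.card = (Z.erase none).card := by
        rw [← Finset.card_map Function.Embedding.some, Finset.map_some_eraseNone]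
      rw [this, card_erase_of_mem hn, hZ]
      rfl
    apply hp
    refine Polynomial.eq_zero_of_degree_lt_of_eval_finset_eq_zero Z.eraseNone ?_ hroot
    rw [hc]
    have h1 := poly_degree v
    rw [degree_lt_iff_coeff_zero] at h1 ⊢
    intro k hk
    rcases Nat.lt_or_ge d k with h2 | h2
    · exact h1 k h2
    · have h3 : k = d := le_antisymm h2 hk
      subst h3
      have := poly_coeff v (Fin.last k)
      rw [h0] at this
      simpa using this
  · have hc : (Z.eraseNone).card = d + 1 := by
      have : Z.eraseNone.card = (Z.erase none).card := by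
        rw [← Finset.card_map Function.Embedding.some, Finset.map_some_eraseNone]
      rw [this, erase_eq_of_notMem hn, hZ]
    apply hp
    refine Polynomial.eq_zero_of_degree_lt_of_eval_finset_eq_zero Z.eraseNone ?_ hroot
    rw [hc]
    exact poly_degree v

/-- In the plane the full vectors span, if the field has at least three elements. -/
lemma span_full_two (h3 : 3 ≤ Fintype.card F) :
    Submodule.span F (full (evP F 2)) = ⊤ := by
  -- a full vector of the shape `(1, c, 1)`
  obtain ⟨c, hc⟩ : ∃ c : F, ∀ a : F, a ^ 2 + c * a + 1 ≠ 0 := by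
    by_contra hcon
    push Not at hcon
    choose a ha using hcon
    have ha0 : ∀ c, a c ≠ 0 := by
      intro c h0
      have := ha c
      rw [h0] at this
      simp at this
    have hinj : Function.Injective a := by
      intro c c' h
      have h1 := ha c
      have h2 := ha c'
      rw [← h] at h2
      have h4 : (c - c') * a c = 0 := by linear_combination h1 - h2
      rcases mul_eq_zero.1 h4 with h5 | h5
      · exact sub_eq_zero.1 h5
      · exact absurd h5 (ha0 c)
    obtain ⟨c, hc⟩ := (Finite.injective_iff_surjective.1 hinj) 0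
    exact ha0 c hc
  have key : ∀ (α β γ : F), γ ≠ 0 → (∀ a : F, γ * a ^ 2 + β * a + α ≠ 0) →
      (![α, β, γ] : Fin 3 → F) ∈ full (evP F 2) := by
    intro α β γ hγ h p
    rcases p with _ | a
    · rw [evP_none]
      exact hγ
    · rw [evP_some, Fin.sum_univ_three]
      intro h0
      apply h a
      simp at h0
      linear_combination h0
  -- translates and dilates
  have htr : ∀ s : F, (![s ^ 2 + c * s + 1, 2 * s + c, 1] : Fin 3 → F) ∈ full (evP F 2) := by
    intro s
    refine key _ _ _ one_ne_zero fun a h0 => hc (a + s) ?_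
    linear_combination h0
  have hdi : ∀ t : F, t ≠ 0 → (![1, c * t, t ^ 2] : Fin 3 → F) ∈ full (evP F 2) := by
    intro t ht
    refine key _ _ _ (pow_ne_zero 2 ht) fun a h0 => hc (t * a) ?_
    linear_combination h0
  set W := Submodule.span F (full (evP F 2)) with hW
  have htr' : ∀ s : F, (![s ^ 2 + c * s + 1, 2 * s + c, 1] : Fin 3 → F) ∈ W := fun s =>
    Submodule.subset_span (htr s)
  have hdi' : ∀ t : F, t ≠ 0 → (![1, c * t, t ^ 2] : Fin 3 → F) ∈ W := fun t ht =>
    Submodule.subset_span (hdi t ht)
  have h0' : (![1, c, 1] : Fin 3 → F) ∈ W := by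
    have := htr' 0
    simpa using this
  -- the first coordinate vector
  have hdiff : ∀ s : F, s ≠ 0 → (![s + c, 2, 0] : Fin 3 → F) ∈ W := by
    intro s hs
    have h1 := Submodule.smul_mem W s⁻¹ (Submodule.sub_mem W (htr' s) h0')
    convert h1 using 1
    funext i
    fin_cases i
    · simp
      field_simp
    · simp
      field_simp
    · simp
  obtain ⟨s, hs0, hs1⟩ : ∃ s : F, s ≠ 0 ∧ s ≠ 1 := by
    by_contra hcon
    push Not at hcon
    have : (univ : Finset F) ⊆ {0, 1} := by
      intro x _
      by_cases hx : x = 0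
      · simp [hx]
      · simp [hcon x hx]
    have := card_le_card this
    rw [card_univ] at this
    have h2 : ({0, 1} : Finset F).card ≤ 2 := card_le_two
    omega
  have he0 : (![1, 0, 0] : Fin 3 → F) ∈ W := by
    have h1 := Submodule.smul_mem W (s - 1)⁻¹ (Submodule.sub_mem W (hdiff s hs0)
      (hdiff 1 one_ne_zero))
    have hs1' : s - 1 ≠ 0 := sub_ne_zero.2 hs1
    convert h1 using 1
    funext i
    fin_cases i
    · simp
      field_simp
    · simp
    · simp
  have he1 : (![0, 1, 0] : Fin 3 → F) ∈ W := by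
    by_cases h2 : (2 : F) = 0
    · -- characteristic two
      have hc0 : c ≠ 0 := by
        rintro rfl
        apply hc 1
        linear_combination h2
      have h1 : (![0, c * s * (1 - s), 0] : Fin 3 → F) ∈ W := by
        have h3 := Submodule.sub_mem W (hdi' s hs0) (Submodule.smul_mem W (s ^ 2) h0')
        have h4 := Submodule.sub_mem W h3 (Submodule.smul_mem W (1 - s ^ 2) he0)
        convert h4 using 1
        funext i
        fin_cases i
        · simp
        · simp; ring
        · simp
      have hne : c * s * (1 - s) ≠ 0 := mul_ne_zero (mul_ne_zero hc0 hs0) (sub_ne_zero.2 hs1.symm)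
      have h5 := Submodule.smul_mem W (c * s * (1 - s))⁻¹ h1
      convert h5 using 1
      funext i
      fin_cases i
      · simp
      · have h6 : (1 : F) - s ≠ 0 := sub_ne_zero.2 hs1.symm
        simp
        field_simp
      · simp
    · have h3 := Submodule.sub_mem W (hdiff 1 one_ne_zero) (Submodule.smul_mem W (1 + c) he0)
      have h4 := Submodule.smul_mem W (2 : F)⁻¹ h3
      convert h4 using 1
      funext i
      fin_cases i
      · simp
      · simp [inv_mul_cancel₀ h2]
      · simp
  have he2 : (![0, 0, 1] : Fin 3 → F) ∈ W := by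
    have h1 := Submodule.sub_mem W (Submodule.sub_mem W h0' he0) (Submodule.smul_mem W c he1)
    convert h1 using 1
    funext i
    fin_cases i <;> simp
  rw [eq_top_iff]
  intro v _
  have : v = v 0 • ![1, 0, 0] + v 1 • ![0, 1, 0] + v 2 • ![0, 0, 1] := by
    funext i
    fin_cases i <;> simp
  rw [this]
  exact Submodule.add_mem _ (Submodule.add_mem _ (Submodule.smul_mem _ _ he0)
    (Submodule.smul_mem _ _ he1)) (Submodule.smul_mem _ _ he2)

/-- Variational sets of `|F| + 1` cubes over a finite field. -/
lemma field_family (m : ℕ) (hm : 3 ≤ m) (hF : 3 ≤ Fintype.card F)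
    (hmF : m ≤ Fintype.card F + 1) :
    ∃ C : Option F → (Fin m → F) → F, IsVariationalSet C := by
  obtain ⟨d, rfl⟩ : ∃ d, m = d + 1 := ⟨m - 1, by omega⟩
  have hP : Fintype.card (Option F) = Fintype.card F + 1 := Fintype.card_option
  rcases Nat.lt_or_ge 2 d with h | h
  · exact cubes_of_span (evP_mds d) (span_full (evP_mds d) (by omega) hP.le (by omega))
  · have : d = 2 := by omega
    subst this
    exact cubes_of_span (evP_mds 2) (span_full_two hF)

/-! ## The hyperoval -/

/-- evaluation on the conic and its nucleus -/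
def evH (F : Type*) [Field F] : Option (Option F) → (Fin 3 → F) →ₗ[F] F
  | none => LinearMap.proj 1
  | some p => evP F 2 p

omit [Fintype F] [DecidableEq F] in
lemma evH_uniq (h2 : (2 : F) = 0) {v : Fin 3 → F} (hv : v ≠ 0) (h1 : v 1 = 0) {p p' : Option F}
    (hp : evP F 2 p v = 0) (hp' : evP F 2 p' v = 0) : p = p' := by
  have hext : v 0 = 0 → v 2 = 0 → False := by
    intro a b
    apply hv
    funext i
    fin_cases i
    · exact a
    · exact h1
    · exact b
  rcases p with _ | a <;> rcases p' with _ | b
  · rfl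
  · exfalso
    rw [evP_none] at hp
    rw [evP_some, Fin.sum_univ_three] at hp'
    have e2 : v 2 = 0 := hp
    simp [h1, e2] at hp'
    exact hext hp' e2
  · exfalso
    rw [evP_none] at hp'
    rw [evP_some, Fin.sum_univ_three] at hp
    have e2 : v 2 = 0 := hp'
    simp [h1, e2] at hp
    exact hext hp e2
  · rw [evP_some, Fin.sum_univ_three] at hp hp'
    simp [h1] at hp hp'
    have h3 : v 2 * (a - b) ^ 2 = 0 := by
      linear_combination hp - hp' + v 2 * (b ^ 2 - a * b) * h2
    rcases mul_eq_zero.1 h3 with h4 | h4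
    · exfalso
      rw [h4] at hp
      simp at hp
      exact hext hp h4
    · rw [sub_eq_zero.1 (pow_eq_zero_iff (two_ne_zero)|>.1 h4)]

omit [Fintype F] in
lemma evH_mds (h2 : (2 : F) = 0) : MDS (evH F) := by
  intro g hg v hv
  by_contra hne
  by_cases hn : ∃ i, g i = none
  · obtain ⟨i, hi⟩ := hn
    have h1 : v 1 = 0 := by
      have := hv i
      rw [hi] at this
      exact this
    obtain ⟨j, k, hji, hki, hjk⟩ : ∃ j k : Fin 3, j ≠ i ∧ k ≠ i ∧ j ≠ k := by
      fin_cases i
      · exact ⟨1, 2, by decide, by decide, by decide⟩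
      · exact ⟨0, 2, by decide, by decide, by decide⟩
      · exact ⟨0, 1, by decide, by decide, by decide⟩
    rcases hgj : g j with _ | p
    · exact hji (hg (hgj.trans hi.symm))
    rcases hgk : g k with _ | p'
    · exact hki (hg (hgk.trans hi.symm))
    have e1 : evP F 2 p v = 0 := by
      have := hv j
      rwa [hgj] at this
    have e2 : evP F 2 p' v = 0 := by
      have := hv k
      rwa [hgk] at this
    have := evH_uniq h2 hne h1 e1 e2
    subst this
    exact hjk (hg (hgj.trans hgk.symm))
  · push Not at hn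
    choose g' hg' using fun i => Option.ne_none_iff_exists'.1 (hn i)
    apply hne
    refine evP_mds 2 g' ?_ v fun i => ?_
    · intro a b hab
      apply hg
      rw [hg' a, hg' b, hab]
    · have := hv i
      rwa [hg' i] at this

lemma full_evH (h2 : (2 : F) = 0) : full (evP F 2) ⊆ full (evH F) := by
  intro v hv p
  rcases p with _ | p
  · intro h1
    have h1' : v 1 = 0 := h1
    have hne : v 2 ≠ 0 := hv none
    have hinj : Function.Injective fun a : F => a ^ 2 := by
      intro a b hab
      have h3 : (a - b) ^ 2 = 0 := by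
        simp only at hab
        linear_combination hab + (b ^ 2 - a * b) * h2
      exact sub_eq_zero.1 (pow_eq_zero_iff (two_ne_zero)|>.1 h3)
    obtain ⟨a, ha⟩ := (Finite.injective_iff_surjective.1 hinj) (-(v 0) / v 2)
    apply hv (some a)
    rw [evP_some, Fin.sum_univ_three]
    simp only at ha
    simp [h1', ha]
    field_simp
    ring
  · exact hv p

lemma field_family_even (hF : 3 ≤ Fintype.card F) (h2 : (2 : F) = 0) :
    ∃ C : Option (Option F) → (Fin 3 → F) → F, IsVariationalSet C := by
  refine cubes_of_span (evH_mds h2) ?_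
  rw [eq_top_iff, ← span_full_two hF]
  exact Submodule.span_mono (full_evH h2)

/-! ## All orders -/

/-- there is a variational set of `k` cubes -/
def Fam (m k n : ℕ) : Prop := ∃ C : Fin k → (Fin m → Fin n) → Fin n, IsVariationalSet C

lemma Fam.mono {m k k' n : ℕ} (h : Fam m k n) (hk : k' ≤ k) : Fam m k' n := by
  obtain ⟨C, hC⟩ := h
  exact ⟨_, hC.comp (Fin.castLE hk) (Fin.castLE_injective hk)⟩

lemma Fam.one (m k : ℕ) : Fam m k 1 := by
  refine ⟨fun _ _ => 0, fun j i x => ?_, fun f hf => ?_⟩
  · exact ⟨fun a b _ => Subsingleton.elim _ _, fun b => ⟨0, Subsingleton.elim _ _⟩⟩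
  · exact ⟨fun a b _ => Subsingleton.elim _ _, fun b => ⟨fun _ => 0, Subsingleton.elim _ _⟩⟩

lemma Fam.mul {m k a b : ℕ} (ha : Fam m k a) (hb : Fam m k b) : Fam m k (a * b) := by
  obtain ⟨C, hC⟩ := ha
  obtain ⟨D, hD⟩ := hb
  exact ⟨_, (hC.prod hD).transport finProdFinEquiv⟩

lemma Fam.of_type {m k : ℕ} {α κ : Type*} [Fintype α] [Fintype κ] (hk : k ≤ Fintype.card κ)
    (h : ∃ C : κ → (Fin m → α) → α, IsVariationalSet C) : Fam m k (Fintype.card α) := by
  obtain ⟨C, hC⟩ := h
  obtain ⟨e⟩ : Nonempty (Fin k ↪ κ) := Function.Embedding.nonempty_of_card_le (by simpa using hk)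
  exact ⟨_, (hC.transport (Fintype.equivFin α)).comp e e.injective⟩

lemma Fam.of_factors {m k : ℕ} (n : ℕ) (hn : n ≠ 0)
    (h : ∀ p : ℕ, p.Prime → p ∣ n → Fam m k (p ^ n.factorization p)) : Fam m k n := by
  induction n using Nat.recOnPosPrimePosCoprime with
  | prime_pow p a hp ha =>
    have := h p hp (dvd_pow_self p ha.ne')
    rwa [hp.factorization_pow, Finsupp.single_eq_same] at this
  | zero => exact absurd rfl hn
  | one => exact Fam.one m k
  | coprime a b ha hb hab iha ihb =>
    have ha0 : a ≠ 0 := by omega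
    have hb0 : b ≠ 0 := by omega
    refine Fam.mul (iha ha0 fun p hp hpa => ?_) (ihb hb0 fun p hp hpb => ?_)
    · have h1 := h p hp (dvd_mul_of_dvd_left hpa b)
      have h2 : ¬ p ∣ b := fun hpb => hp.one_lt.ne' (Nat.dvd_one.1 (hab ▸ Nat.dvd_gcd hpa hpb))
      rwa [Nat.factorization_mul ha0 hb0, Finsupp.add_apply,
        Nat.factorization_eq_zero_of_not_dvd h2, add_zero] at h1
    · have h1 := h p hp (dvd_mul_of_dvd_right hpb a)
      have h2 : ¬ p ∣ a := fun hpa => hp.one_lt.ne' (Nat.dvd_one.1 (hab ▸ Nat.dvd_gcd hpa hpb))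
      rwa [Nat.factorization_mul ha0 hb0, Finsupp.add_apply,
        Nat.factorization_eq_zero_of_not_dvd h2, zero_add] at h1

lemma fam_prime_pow {m q p a : ℕ} (hm : 3 ≤ m) (hq : 3 ≤ q) (hp : p.Prime) (h : q ≤ p ^ a) :
    Fam m (q + 1) (p ^ a) := by
  classical
  have ha : a ≠ 0 := by
    rintro rfl
    simp at h
    omega
  haveI : NeZero (p ^ a) := ⟨pow_ne_zero _ hp.ne_zero⟩
  rcases Nat.lt_or_ge (q + 1) m with h1 | h1
  · exact trivial_family h1 (p ^ a)
  · haveI := Fact.mk hp
    haveI : Fintype (GaloisField p a) := Fintype.ofFinite _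
    have hc : Fintype.card (GaloisField p a) = p ^ a := by
      rw [← Nat.card_eq_fintype_card, GaloisField.card p a ha]
    rw [← hc] at h ⊢
    refine Fam.of_type (κ := Option (GaloisField p a)) ?_
      (field_family m hm (by omega) (by omega))
    rw [Fintype.card_option]
    omega

lemma fam_two_pow {a : ℕ} (ha : 2 ≤ a) : Fam 3 (2 ^ a + 2) (2 ^ a) := by
  classical
  haveI := Fact.mk Nat.prime_two
  haveI : Fintype (GaloisField 2 a) := Fintype.ofFinite _
  have hc : Fintype.card (GaloisField 2 a) = 2 ^ a := by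
    rw [← Nat.card_eq_fintype_card, GaloisField.card 2 a (by omega)]
  have h4 : 2 ^ 2 ≤ 2 ^ a := Nat.pow_le_pow_right (by norm_num) ha
  have h2 : (2 : GaloisField 2 a) = 0 := by
    have := CharP.cast_eq_zero (GaloisField 2 a) 2
    exact_mod_cast this
  rw [← hc] at h4 ⊢
  refine Fam.of_type (κ := Option (Option (GaloisField 2 a))) ?_
    (field_family_even (by omega) h2)
  rw [Fintype.card_option, Fintype.card_option]

end Pool.Agent.R759.VS
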