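import Pool.Agent.R759.VSDefs

/-! # Variational sets from arcs -/

set_option autoImplicit false

namespace Pool.Agent.R759.VS

open Finset

section general

variable {m : ℕ} {κ κ' α β : Type*}

lemma IsVariationalSet.comp {C : κ → (Fin m → α) → α} (h : IsVariationalSet C) (e : κ' → κ)
    (he : Function.Injective e) : IsVariationalSet fun j => C (e j) :=
  ⟨fun j => h.1 (e j), fun f hf => h.2 (fun i => e (f i)) (he.comp hf)⟩

lemma IsVariationalSet.transport {C : κ → (Fin m → α) → α} (h : IsVariationalSet C) (e : α ≃ β) :
    IsVariationalSet fun j (x : Fin m → β) => e (C j fun i => e.symm (x i)) := by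
  refine ⟨fun j i x => ?_, fun f hf => ?_⟩
  · have h1 := (h.1 j) i (fun i => e.symm (x i))
    have h2 : (fun t : β => e (C j fun i' => e.symm (Function.update x i t i'))) =
        e ∘ (fun t : α => C j (Function.update (fun i => e.symm (x i)) i t)) ∘ e.symm := by
      funext t
      simp only [Function.comp]
      congr 2
      funext i'
      by_cases hi : i' = i
      · subst hi; simp
      · simp [Function.update_of_ne hi]
    rw [h2]
    exact e.bijective.comp (h1.comp e.symm.bijective)
  · have h1 := h.2 f hf
    have h2 : (fun (x : Fin m → β) i => e (C (f i) fun i' => e.symm (x i'))) =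
        (fun y : Fin m → α => fun i => e (y i)) ∘ (fun (x : Fin m → α) i => C (f i) x) ∘
          (fun x : Fin m → β => fun i => e.symm (x i)) := by
      funext x i
      simp [Function.comp]
    rw [h2]
    have h3 : Function.Bijective (fun y : Fin m → α => fun i => e (y i)) :=
      (Equiv.arrowCongr (Equiv.refl (Fin m)) e).bijective
    have h4 : Function.Bijective (fun x : Fin m → β => fun i => e.symm (x i)) :=
      (Equiv.arrowCongr (Equiv.refl (Fin m)) e.symm).bijective
    exact h3.comp (h1.comp h4)

lemma IsVariationalSet.prod [Finite α] [Finite β] {C : κ → (Fin m → α) → α}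
    {D : κ → (Fin m → β) → β} (hC : IsVariationalSet C) (hD : IsVariationalSet D) :
    IsVariationalSet fun j (x : Fin m → α × β) =>
      ((C j fun i => (x i).1, D j fun i => (x i).2) : α × β) := by
  refine ⟨fun j i x => ?_, fun f hf => ?_⟩
  · rw [← Finite.injective_iff_bijective]
    intro s t hst
    have h1 := (hC.1 j) i (fun i => (x i).1)
    have h2 := (hD.1 j) i (fun i => (x i).2)
    have e1 : ∀ t : α × β, (fun i' => (Function.update x i t i').1) =
        Function.update (fun i => (x i).1) i t.1 := by
      intro t
      funext i'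
      by_cases hi : i' = i
      · subst hi; simp
      · simp [Function.update_of_ne hi]
    have e2 : ∀ t : α × β, (fun i' => (Function.update x i t i').2) =
        Function.update (fun i => (x i).2) i t.2 := by
      intro t
      funext i'
      by_cases hi : i' = i
      · subst hi; simp
      · simp [Function.update_of_ne hi]
    simp only [e1, e2, Prod.mk.injEq] at hst
    exact Prod.ext (h1.1 hst.1) (h2.1 hst.2)
  · rw [← Finite.injective_iff_bijective]
    intro x y hxy
    have h1 := (hC.2 f hf).1
    have h2 := (hD.2 f hf).1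
    have e1 : (fun i => (x i).1) = fun i => (y i).1 := by
      apply h1
      funext i
      exact congrArg Prod.fst (congrFun hxy i)
    have e2 : (fun i => (x i).2) = fun i => (y i).2 := by
      apply h2
      funext i
      exact congrArg Prod.snd (congrFun hxy i)
    funext i
    exact Prod.ext (congrFun e1 i) (congrFun e2 i)

/-- the trivial family, when there are fewer than `m` cubes -/
lemma trivial_family {k : ℕ} (hk : k < m) (n : ℕ) [NeZero n] :
    ∃ C : Fin k → (Fin m → Fin n) → Fin n, IsVariationalSet C := by
  refine ⟨fun _ x => ∑ i, x i, fun j i x => ?_, fun f hf => ?_⟩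
  · rw [← Finite.injective_iff_bijective]
    intro s t hst
    simp only [Finset.sum_update_of_mem (mem_univ i)] at hst
    exact add_right_cancel hst
  · have := Fintype.card_le_of_injective f hf
    simp at this
    omega

end general

section arcs

variable {F : Type*} [Field F] [Fintype F] [DecidableEq F] {P : Type*} [Fintype P] [DecidableEq P]
  {m : ℕ}

/-- `m` of the functionals have no common zero -/
def MDS (ev : P → (Fin m → F) →ₗ[F] F) : Prop :=
  ∀ g : Fin m → P, Function.Injective g → ∀ v, (∀ i, ev (g i) v = 0) → v = 0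

lemma MDS.interp {ev : P → (Fin m → F) →ₗ[F] F} (h : MDS ev) (g : Fin m → P)
    (hg : Function.Injective g) (a : Fin m → F) : ∃ v, ∀ i, ev (g i) v = a i := by
  let E : (Fin m → F) →ₗ[F] (Fin m → F) := LinearMap.pi fun i => ev (g i)
  have hE : Function.Injective E := by
    rw [← LinearMap.ker_eq_bot, LinearMap.ker_eq_bot']
    intro v hv
    exact h g hg v fun i => congrFun hv i
  obtain ⟨v, hv⟩ := (LinearMap.injective_iff_surjective.1 hE) a
  exact ⟨v, fun i => congrFun hv i⟩

/-- the vectors on which no functional vanishes -/
def full (ev : P → (Fin m → F) →ₗ[F] F) : Set (Fin m → F) := {v | ∀ p, ev p v ≠ 0}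

/-- Adding a multiple of a vector `h` which vanishes in `m - 1` points. -/
lemma exists_add_full {ev : P → (Fin m → F) →ₗ[F] F} (h : MDS ev)
    (g : Fin m → P) (hg : Function.Injective g) (i₀ : Fin m) (w : Fin m → F)
    (hw0 : ∀ i, i ≠ i₀ → ev (g i) w = 0) (hw1 : w ≠ 0) (u : Fin m → F)
    (hu : ∀ i, i ≠ i₀ → ev (g i) u ≠ 0) (bad : Finset F)
    (hcard : bad.card + Fintype.card P + 1 < Fintype.card F + m) :
    ∃ c, c ∉ bad ∧ u + c • w ∈ full ev := by
  classical
  let Z : Finset P := (univ.erase i₀).image g
  have hZ : Z.card = m - 1 := by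
    rw [card_image_of_injective _ hg, card_erase_of_mem (mem_univ _), card_univ, Fintype.card_fin]
  have hm : 0 < m := i₀.pos
  have hnz : ∀ p, p ∉ Z → ev p w ≠ 0 := by
    intro p hp h0
    apply hw1
    have hg' : Function.Injective (Function.update g i₀ p) := by
      intro a b hab
      by_cases ha : a = i₀
      · by_cases hb : b = i₀
        · rw [ha, hb]
        · exfalso
          rw [ha, Function.update_self, Function.update_of_ne hb] at hab
          exact hp (mem_image.2 ⟨b, mem_erase.2 ⟨hb, mem_univ _⟩, hab.symm⟩)
      · by_cases hb : b = i₀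
        · exfalso
          rw [hb, Function.update_self, Function.update_of_ne ha] at hab
          exact hp (mem_image.2 ⟨a, mem_erase.2 ⟨ha, mem_univ _⟩, hab⟩)
        · rw [Function.update_of_ne ha, Function.update_of_ne hb] at hab
          exact hg hab
    refine h _ hg' w fun i => ?_
    by_cases hi : i = i₀
    · rw [hi, Function.update_self]; exact h0
    · rw [Function.update_of_ne hi]; exact hw0 i hi
  let X : Finset F := bad ∪ (univ \ Z).image fun p => -(ev p u) / ev p w
  have hX : X.card < Fintype.card F := by
    have h1 : X.card ≤ bad.card + (univ \ Z).card :=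
      (card_union_le _ _).trans (Nat.add_le_add_left card_image_le _)
    have h2 : (univ \ Z).card = Fintype.card P - (m - 1) := by
      rw [card_sdiff_of_subset (subset_univ _), card_univ, hZ]
    have h3 : m - 1 ≤ Fintype.card P := by
      rw [← hZ, ← card_univ]
      exact card_le_card (subset_univ _)
    omega
  obtain ⟨c, hc⟩ : ∃ c, c ∉ X := by
    by_contra hcon
    push Not at hcon
    have : X = univ := eq_univ_iff_forall.2 hcon
    rw [this, card_univ] at hX
    exact lt_irrefl _ hX
  refine ⟨c, fun hb => hc (mem_union_left _ hb), fun p hp => ?_⟩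
  rw [map_add, map_smul, smul_eq_mul] at hp
  by_cases hpZ : p ∈ Z
  · obtain ⟨i, hi, rfl⟩ := mem_image.1 hpZ
    have hi' := (mem_erase.1 hi).1
    rw [hw0 i hi', mul_zero, add_zero] at hp
    exact hu i hi' hp
  · apply hc
    apply mem_union_right
    refine mem_image.2 ⟨p, mem_sdiff.2 ⟨mem_univ _, hpZ⟩, ?_⟩
    have := hnz p hpZ
    field_simp
    linear_combination -hp

/-- If there are at most `|F| + 1` functionals and `m ≥ 3`, there is a full vector. -/
lemma exists_full {ev : P → (Fin m → F) →ₗ[F] F} (h : MDS ev) (hm : 3 ≤ m)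
    (hP : Fintype.card P ≤ Fintype.card F + 1) (hmP : m ≤ Fintype.card P) :
    ∃ u, u ∈ full ev := by
  classical
  obtain ⟨g⟩ : Nonempty (Fin m ↪ P) := Function.Embedding.nonempty_of_card_le (by simpa using hmP)
  let i₀ : Fin m := ⟨0, by omega⟩
  obtain ⟨w, hw⟩ := h.interp g g.injective (Pi.single i₀ 1)
  obtain ⟨u, hu⟩ := h.interp g g.injective (fun _ => 1)
  have hw1 : w ≠ 0 := by
    rintro rfl
    have := hw i₀
    simp at this
  obtain ⟨c, -, hc⟩ := exists_add_full h g g.injective i₀ w
    (fun i hi => by rw [hw i, Pi.single_eq_of_ne hi]) hw1 u (fun i _ => by rw [hu i]; exact one_ne_zero)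
    ∅ (by simp; omega)
  exact ⟨_, hc⟩

/-- If there are at most `|F| + 1` functionals and `m ≥ 4`, the full vectors span. -/
lemma span_full {ev : P → (Fin m → F) →ₗ[F] F} (h : MDS ev) (hm : 4 ≤ m)
    (hP : Fintype.card P ≤ Fintype.card F + 1) (hmP : m ≤ Fintype.card P) :
    Submodule.span F (full ev) = ⊤ := by
  classical
  obtain ⟨g⟩ : Nonempty (Fin m ↪ P) := Function.Embedding.nonempty_of_card_le (by simpa using hmP)
  obtain ⟨u, hu⟩ := exists_full h (by omega) hP hmP
  choose w hw using fun i₀ : Fin m => h.interp g g.injective (Pi.single i₀ (1 : F))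
  have hmem : ∀ i₀, w i₀ ∈ Submodule.span F (full ev) := by
    intro i₀
    have hw1 : w i₀ ≠ 0 := by
      intro h0
      have := hw i₀ i₀
      rw [h0] at this
      simp at this
    obtain ⟨c, hc0, hc⟩ := exists_add_full h g g.injective i₀ (w i₀)
      (fun i hi => by rw [hw i₀ i, Pi.single_eq_of_ne hi]) hw1 u (fun i _ => hu _) {0}
      (by simp; omega)
    have hc0' : c ≠ 0 := fun h0 => hc0 (by simp [h0])
    have h1 : c • w i₀ ∈ Submodule.span F (full ev) := by
      have h3 : u + c • w i₀ ∈ Submodule.span F (full ev) := Submodule.subset_span hc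
      have h4 : u ∈ Submodule.span F (full ev) := Submodule.subset_span hu
      have := Submodule.sub_mem _ h3 h4
      simpa using this
    have h2 := Submodule.smul_mem _ c⁻¹ h1
    rwa [smul_smul, inv_mul_cancel₀ hc0', one_smul] at h2
  rw [eq_top_iff]
  intro v _
  have hv : v = ∑ i, (ev (g i) v) • w i := by
    rw [← sub_eq_zero]
    refine h g g.injective _ fun j => ?_
    rw [map_sub, map_sum, sum_eq_single j]
    · rw [map_smul, hw j j, Pi.single_eq_same, smul_eq_mul, mul_one, sub_self]
    · intro i _ hij
      rw [map_smul, hw i j, Pi.single_eq_of_ne hij.symm, smul_zero]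
    · intro hj
      exact absurd (mem_univ _) hj
  rw [hv]
  exact Submodule.sum_mem _ fun i _ => Submodule.smul_mem _ _ (hmem i)

/-- cubes from full vectors -/
lemma cubes {ev : P → (Fin m → F) →ₗ[F] F} (h : MDS ev) (f : Fin m → Fin m → F)
    (hf : LinearIndependent F f) (hfull : ∀ i, f i ∈ full ev) :
    IsVariationalSet fun (p : P) (x : Fin m → F) => ∑ i, x i * ev p (f i) := by
  refine ⟨fun p i x => ?_, fun g hg => ?_⟩
  · rw [← Finite.injective_iff_bijective]
    intro s t hst
    have e : ∀ t : F, ∑ j, Function.update x i t j * ev p (f j) =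
        t * ev p (f i) + ∑ j ∈ univ.erase i, x j * ev p (f j) := by
      intro t
      rw [← add_sum_erase _ _ (mem_univ i), Function.update_self]
      congr 1
      refine sum_congr rfl fun j hj => ?_
      rw [Function.update_of_ne (ne_of_mem_erase hj)]
    simp only [e] at hst
    exact mul_right_cancel₀ (hfull i p) (add_right_cancel hst)
  · rw [← Finite.injective_iff_bijective]
    intro x y hxy
    have h1 : ∑ i, (x i - y i) • f i = 0 := by
      refine h g hg _ fun j => ?_
      have h2 := congrFun hxy j
      simp only at h2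
      rw [map_sum]
      have : ∑ i, ev (g j) ((x i - y i) • f i) =
          ∑ i, x i * ev (g j) (f i) - ∑ i, y i * ev (g j) (f i) := by
        rw [← sum_sub_distrib]
        refine sum_congr rfl fun i _ => ?_
        rw [map_smul, smul_eq_mul, sub_mul]
      rw [this, h2, sub_self]
    have h3 := Fintype.linearIndependent_iff.1 hf _ h1
    funext i
    exact sub_eq_zero.1 (h3 i)

lemma cubes_of_span {ev : P → (Fin m → F) →ₗ[F] F} (h : MDS ev)
    (hs : Submodule.span F (full ev) = ⊤) :
    ∃ C : P → (Fin m → F) → F, IsVariationalSet C := by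
  obtain ⟨f, hf1, -, hf3⟩ := Submodule.exists_fun_fin_finrank_span_eq F (full ev)
  have hr : Module.finrank F (Submodule.span F (full ev)) = m := by
    rw [hs, finrank_top, Module.finrank_fin_fun]
  let e : Fin m ≃ Fin (Module.finrank F (Submodule.span F (full ev))) := finCongr hr.symm
  exact ⟨_, cubes h (f ∘ e) (hf3.comp e e.injective) fun i => hf1 (e i)⟩

end arcs

end Pool.Agent.R759.VS
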