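import Mathlib

/-! # Variational sets of permutation cubes: definitions -/

set_option autoImplicit false

namespace Pool.Agent.R759.VS

/-- An `m`-dimensional permutation cube over the alphabet `α`: on every line parallel to a
coordinate axis the values run through `α` exactly once. -/
def IsPermutationCube {m : ℕ} {α : Type*} (C : (Fin m → α) → α) : Prop :=
  ∀ (i : Fin m) (x : Fin m → α), Function.Bijective fun t : α => C (Function.update x i t)

/-- A variational set: a family of `m`-dimensional permutation cubes, any `m` of which (with
distinct indices) give every `m`-tuple of values at exactly one cell. -/
def IsVariationalSet {m : ℕ} {κ α : Type*} (C : κ → (Fin m → α) → α) : Prop :=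
  (∀ j, IsPermutationCube (C j)) ∧
    ∀ f : Fin m → κ, Function.Injective f → Function.Bijective fun (x : Fin m → α) i => C (f i) x

end Pool.Agent.R759.VS
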