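import Pool.Agent.R759.VSArc

/-! # Variational sets of `m + 1` cubes -/

set_option autoImplicit false

namespace Pool.Agent.R759.VS

open Finset

variable {F : Type*} [Field F] [Fintype F] [DecidableEq F]

lemma exists_sum_ne (hF : 3 ≤ Fintype.card F) : ∀ (N : ℕ) (s : F), s ≠ 0 → 0 < N →
    ∃ w : Fin N → F, (∀ i, w i ≠ 0) ∧ ∑ i, w i = s := by
  intro N
  induction N with
  | zero => intro s _ h; exact absurd h (lt_irrefl _)
  | succ N ih =>
    intro s hs _
    rcases Nat.eq_zero_or_pos N with h0 | h0
    · subst h0
      exact ⟨fun _ => s, fun _ => hs, by simp⟩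
    · obtain ⟨x, hx0, hxs⟩ : ∃ x : F, x ≠ 0 ∧ x ≠ s := by
        by_contra hcon
        push Not at hcon
        have : (univ : Finset F) ⊆ {0, s} := by
          intro x _
          by_cases hx : x = 0
          · simp [hx]
          · simp [hcon x hx]
        have := card_le_card this
        rw [card_univ] at this
        have h2 : ({0, s} : Finset F).card ≤ 2 := card_le_two
        omega
      obtain ⟨w, hw, hws⟩ := ih (s - x) (sub_ne_zero.2 hxs.symm) h0
      refine ⟨Fin.cons x w, fun i => ?_, ?_⟩
      · refine Fin.cases ?_ (fun i => ?_) i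
        · simpa using hx0
        · simpa using hw i
      · rw [Fin.sum_univ_succ]
        simp [hws]

/-- For every coordinate `i` there is a vector without zero coordinates, whose coordinate `i` is
`1` and whose other coordinates have the sum `0`. -/
lemma exists_balanced (hF : 3 ≤ Fintype.card F) {m : ℕ} (hm : 3 ≤ m) (i : Fin m) :
    ∃ v : Fin m → F, (∀ j, v j ≠ 0) ∧ v i = 1 ∧ ∑ j, v j = 1 := by
  obtain ⟨N, rfl⟩ : ∃ N, m = N + 1 := ⟨m - 1, by omega⟩
  obtain ⟨M, rfl⟩ : ∃ M, N = M + 1 := ⟨N - 1, by omega⟩
  obtain ⟨w, hw, hws⟩ := exists_sum_ne hF M (-1) (neg_ne_zero.2 one_ne_zero) (by omega)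
  refine ⟨i.insertNth 1 (Fin.cons 1 w), fun j => ?_, ?_, ?_⟩
  · rcases Fin.eq_self_or_eq_succAbove i j with rfl | ⟨j, rfl⟩
    · simp
    · rw [Fin.insertNth_apply_succAbove]
      refine Fin.cases ?_ (fun j => ?_) j
      · simp
      · simpa using hw j
  · simp
  · rw [Fin.sum_univ_succAbove _ i]
    simp only [Fin.insertNth_apply_same, Fin.insertNth_apply_succAbove]
    rw [Fin.sum_univ_succ]
    simp [hws]

/-- the coordinates and the sum of the coordinates -/
def evS (F : Type*) [Field F] (m : ℕ) : Option (Fin m) → (Fin m → F) →ₗ[F] F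
  | none => ∑ i, LinearMap.proj i
  | some i => LinearMap.proj i

omit [Fintype F] [DecidableEq F] in
lemma evS_none (m : ℕ) (v : Fin m → F) : evS F m none v = ∑ i, v i := by simp [evS]

omit [Fintype F] [DecidableEq F] in
lemma evS_some (m : ℕ) (i : Fin m) (v : Fin m → F) : evS F m (some i) v = v i := rfl

omit [Fintype F] [DecidableEq F] in
lemma evS_mds (m : ℕ) : MDS (evS F m) := by
  classical
  intro g hg v hv
  -- at most one coordinate is missing
  by_cases hn : ∃ i, g i = none
  · obtain ⟨i₀, hi₀⟩ := hn
    have hsum : ∑ i, v i = 0 := by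
      have := hv i₀
      rwa [hi₀, evS_none] at this
    have hone : ∀ j k, v j ≠ 0 → v k ≠ 0 → j = k := by
      intro j k hj hk
      by_contra hjk
      have h1 : univ.image g ⊆ (univ.erase (some j)).erase (some k) := by
        intro p hp
        obtain ⟨i, -, rfl⟩ := mem_image.1 hp
        refine mem_erase.2 ⟨?_, mem_erase.2 ⟨?_, mem_univ _⟩⟩
        · intro h
          have := hv i
          rw [h, evS_some] at this
          exact hk this
        · intro h
          have := hv i
          rw [h, evS_some] at this
          exact hj this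
      have h2 := card_le_card h1
      rw [card_image_of_injective _ hg, card_univ, Fintype.card_fin, card_erase_of_mem,
        card_erase_of_mem (mem_univ _), card_univ, Fintype.card_option, Fintype.card_fin] at h2
      · have := i₀.pos
        omega
      · refine mem_erase.2 ⟨?_, mem_univ _⟩
        intro h
        exact hjk (Option.some_injective _ h).symm
    by_contra hne
    obtain ⟨j, hj⟩ := Function.ne_iff.1 hne
    have : ∑ i, v i = v j := by
      refine sum_eq_single j (fun k _ hk => ?_) fun h => absurd (mem_univ _) h
      by_contra hk'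
      exact hk (hone k j hk' hj)
    exact hj (this ▸ hsum)
  · push Not at hn
    choose g' hg' using fun i => Option.ne_none_iff_exists'.1 (hn i)
    have hinj : Function.Injective g' := by
      intro a b hab
      apply hg
      rw [hg' a, hg' b, hab]
    have hsurj := Finite.injective_iff_surjective.1 hinj
    funext j
    obtain ⟨i, rfl⟩ := hsurj j
    have := hv i
    rwa [hg' i, evS_some] at this

lemma span_full_evS (hF : 3 ≤ Fintype.card F) {m : ℕ} (hm : 3 ≤ m) :
    Submodule.span F (full (evS F m)) = ⊤ := by
  have hmem : ∀ i : Fin m, (Pi.single i 1 : Fin m → F) ∈ Submodule.span F (full (evS F m)) := by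
    intro i
    obtain ⟨v, hv, hvi, hvs⟩ := exists_balanced hF hm i
    obtain ⟨c, hc0, hc1⟩ : ∃ c : F, c ≠ 0 ∧ c ≠ -1 := by
      by_contra hcon
      push Not at hcon
      have : (univ : Finset F) ⊆ {0, -1} := by
        intro x _
        by_cases hx : x = 0
        · simp [hx]
        · simp [hcon x hx]
      have := card_le_card this
      rw [card_univ] at this
      have h2 : ({0, -1} : Finset F).card ≤ 2 := card_le_two
      omega
    have hc1' : 1 + c ≠ 0 := fun h => hc1 (by linear_combination h)
    have h1 : v ∈ full (evS F m) := by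
      intro p
      rcases p with _ | j
      · rw [evS_none, hvs]; exact one_ne_zero
      · exact hv j
    have h2 : v + c • Pi.single i 1 ∈ full (evS F m) := by
      intro p
      rcases p with _ | j
      · rw [map_add, map_smul, evS_none, evS_none, hvs]
        simpa using hc1'
      · rw [evS_some]
        by_cases hj : j = i
        · subst hj
          simpa [hvi] using hc1'
        · simpa [Pi.single_eq_of_ne hj] using hv j
    have h3 : v + c • Pi.single i 1 ∈ Submodule.span F (full (evS F m)) :=
      Submodule.subset_span h2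
    have h4 : v ∈ Submodule.span F (full (evS F m)) := Submodule.subset_span h1
    have h5 := Submodule.smul_mem _ c⁻¹ (Submodule.sub_mem _ h3 h4)
    rwa [add_sub_cancel_left, smul_smul, inv_mul_cancel₀ hc0, one_smul] at h5
  rw [eq_top_iff]
  intro v _
  have : v = ∑ i, v i • (Pi.single i 1 : Fin m → F) := by
    funext j
    simp [Finset.sum_apply, Pi.single_apply]
  rw [this]
  exact Submodule.sum_mem _ fun i _ => Submodule.smul_mem _ _ (hmem i)

lemma fam_prime_pow_frame {m p a : ℕ} (hm : 3 ≤ m) (hp : p.Prime) (h : 3 ≤ p ^ a) :
    Fam m (m + 1) (p ^ a) := by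
  classical
  have ha : a ≠ 0 := by
    rintro rfl
    simp at h
  have := Fact.mk hp
  have : Fintype (GaloisField p a) := Fintype.ofFinite _
  have hc : Fintype.card (GaloisField p a) = p ^ a := by
    rw [← Nat.card_eq_fintype_card, GaloisField.card p a ha]
  rw [← hc] at h ⊢
  refine Fam.of_type (κ := Option (Fin m)) ?_
    (cubes_of_span (evS_mds m) (span_full_evS h hm))
  rw [Fintype.card_option, Fintype.card_fin]

end Pool.Agent.R759.VS
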